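import Pool.Agent.Work.MP_6cd513_gt.PairTarget

/-!
# From the pair inequality to the bound
-/

open MeasureTheory Matrix Finset

namespace Pool.Agent.Work.MP_6cd513_gt

variable {k : ℕ}

theorem Tp_zero (b cc ρ : ℝ) : Tp b cc ρ 0 = 0 := by
  unfold Tp Tb
  have h4 : Real.sqrt 4 = 2 := by
    rw [show (4 : ℝ) = 2 ^ 2 by norm_num]
    exact Real.sqrt_sq (by norm_num)
  simp

namespace MaxData

variable {l n : ℕ} {v : Fin n → Fin k → ℝ} {s : Fin n → ℝ} (M : MaxData k l n v s)
include M

/-- the squared cosine from the normalised vectors -/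
theorem dot_norm (i j : Fin n) : (((Real.sqrt (v i ⬝ᵥ v i))⁻¹ • v i) ⬝ᵥ
    ((Real.sqrt (v j ⬝ᵥ v j))⁻¹ • v j)) ^ 2 = xx v i j := by
  have hi := M.lev_pos i
  have hj := M.lev_pos j
  rw [smul_dotProduct, dotProduct_smul, smul_eq_mul, smul_eq_mul, mul_pow, mul_pow, inv_pow,
    inv_pow, Real.sq_sqrt hi.le, Real.sq_sqrt hj.le]
  unfold xx
  field_simp

/-- the mass outside the group -/
theorem sum_off (i : Fin n) :
    ∑ j, (if xx v i j = 1 then 0 else (v j ⬝ᵥ v j) * xx v i j)
      = 1 - (grp v i).card * (v i ⬝ᵥ v i) := by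
  classical
  have h := M.row_sum i
  have h1 : ∑ j, (if xx v i j = 1 then (v j ⬝ᵥ v j) * xx v i j else 0)
      = (grp v i).card * (v i ⬝ᵥ v i) := by
    rw [← Finset.sum_filter]
    have hf : Finset.univ.filter (fun j => xx v i j = 1) = grp v i := by
      ext j
      rw [Finset.mem_filter, M.parallel_iff]
      simp
    rw [hf, ← nsmul_eq_mul, ← Finset.sum_const]
    refine Finset.sum_congr rfl fun j hj => ?_
    rw [(M.parallel_iff i j).2 hj, mul_one]
    rcases mem_grp.1 hj with h | h <;> rw [h]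
    rw [neg_dotProduct, dotProduct_neg, neg_neg]
  have h2 : ∑ j, (v j ⬝ᵥ v j) * xx v i j
      = ∑ j, (if xx v i j = 1 then (v j ⬝ᵥ v j) * xx v i j else 0)
        + ∑ j, (if xx v i j = 1 then 0 else (v j ⬝ᵥ v j) * xx v i j) := by
    rw [← Finset.sum_add_distrib]
    refine Finset.sum_congr rfl fun j _ => ?_
    split_ifs <;> ring
  linarith

/-- the row parameter -/
theorem cpar : CPar (bA l v) (cA l v)
    (fun i => if ((grp v i).card : ℝ) * (v i ⬝ᵥ v i) < 1
      then 1 - ((grp v i).card : ℝ) * (v i ⬝ᵥ v i) else 1)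
    (fun i => v i ⬝ᵥ v i) (fun i => (Real.sqrt (v i ⬝ᵥ v i))⁻¹ • v i) := by
  have h0 : ∀ i, 0 ≤ ((grp v i).card : ℝ) * (v i ⬝ᵥ v i) := fun i =>
    mul_nonneg (Nat.cast_nonneg _) (M.lev_pos i).le
  refine ⟨bA_comm l v, cA_comm l v, ?_, ?_, ?_, ?_, ?_, ?_⟩
  · intro i j
    unfold bA
    split_ifs <;> norm_num
  · intro i j
    unfold bA
    split_ifs <;> norm_num
  · intro i j p d hp
    unfold bA at hp
    unfold cA
    by_cases h : (grp v i).card = l ∧ (grp v j).card = l
    · rw [if_pos h] at hp ⊢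
      exact young_45 hp d
    · rw [if_neg h] at hp ⊢
      exact young_23 hp d
  · intro i
    split_ifs with h
    · linarith
    · norm_num
  · intro i
    split_ifs with h
    · linarith [h0 i]
    · norm_num
  · intro i
    simp only [M.dot_norm]
    rw [M.sum_off i]
    split_ifs with h
    · exact le_rfl
    · linarith [h0 i]

/-- the entropy term of one vector -/
theorem entropy_eq (i : Fin n) :
    Real.log (1 / (l * (v i ⬝ᵥ v i))) - (1 / (v i ⬝ᵥ v i) - l) * Real.log (1 + 1 / (l : ℝ))
      = (1 - (grp v i).card * (v i ⬝ᵥ v i)) * Rv l (v i ⬝ᵥ v i) (grp v i).card := by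
  have hi := M.lev_pos i
  have hl : (1 : ℝ) ≤ l := by exact_mod_cast M.hl
  by_cases h : ((grp v i).card : ℝ) * (v i ⬝ᵥ v i) = 1
  · rw [h, sub_self, zero_mul]
    set m := (grp v i).card with hm
    have hα : v i ⬝ᵥ v i = 1 / m := by
      have hm0 : (m : ℝ) ≠ 0 := by
        intro h0
        rw [h0, zero_mul] at h
        exact zero_ne_one h
      field_simp
      linarith
    have hm1 : (1 : ℝ) ≤ m := by exact_mod_cast card_grp_pos v i
    have h1 := M.lev_le i
    have h2 := M.le_lev i
    rw [hα] at h1 h2 ⊢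
    have h3 : l ≤ m := by
      have : (l : ℝ) ≤ m := (one_div_le_one_div (by linarith) (by linarith)).1 h1
      exact_mod_cast this
    have h4 : m ≤ l + 1 := by
      have : (m : ℝ) ≤ l + 1 := (one_div_le_one_div (by linarith) (by linarith)).1 h2
      exact_mod_cast this
    rcases Nat.lt_or_ge l m with h5 | h5
    · have h6 : m = l + 1 := by omega
      rw [h6]
      push_cast
      have e1 : (1 : ℝ) / (l * (1 / (l + 1))) = 1 + 1 / l := by field_simp
      have e2 : (1 : ℝ) / (1 / (l + 1)) - l = 1 := by field_simp; ring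
      rw [e1, e2]
      ring
    · have h6 : m = l := by omega
      rw [h6]
      have e1 : (1 : ℝ) / (l * (1 / l)) = 1 := by field_simp
      have e2 : (1 : ℝ) / (1 / l) - l = 0 := by field_simp; ring
      rw [e1, e2, Real.log_one]
      ring
  · have h1 : 1 - ((grp v i).card : ℝ) * (v i ⬝ᵥ v i) ≠ 0 := fun h2 => h (by linarith)
    unfold Rv
    rw [mul_div_cancel₀ _ h1]

/-- from the pair inequality to the bound -/
theorem pair_assembly
    (hp : ∀ i j, xx v i j ≠ 1 → 0 < xx v i j →
      Rv l (v i ⬝ᵥ v i) (grp v i).card + Rv l (v j ⬝ᵥ v j) (grp v j).card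
        ≤ Tp (bA l v i j) (cA l v i j) (1 - (grp v i).card * (v i ⬝ᵥ v i)) (1 - xx v i j)
          + Tp (bA l v i j) (cA l v i j) (1 - (grp v j).card * (v j ⬝ᵥ v j)) (1 - xx v i j)) :
    Gs v s ≤ Wb k l n := by
  classical
  have hmain := tight_defect2 M.tight M.lev_pos s M.cpar
  simp only [M.dot_norm] at hmain
  refine hmain.trans ?_
  unfold Wb
  apply Real.exp_le_exp.2
  obtain ⟨hu, hiso⟩ := normalise M.tight M.lev_pos
  have hsum := sum_alpha hu hiso
  set α : Fin n → ℝ := fun i => v i ⬝ᵥ v i with hα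
  set L := Real.log (1 + 1 / (l : ℝ)) with hL
  set ρ : Fin n → ℝ := fun i => if ((grp v i).card : ℝ) * (v i ⬝ᵥ v i) < 1
      then 1 - ((grp v i).card : ℝ) * (v i ⬝ᵥ v i) else 1 with hρ
  have hα0 : ∀ i, 0 < α i := M.lev_pos
  have hl : (1 : ℝ) ≤ l := by exact_mod_cast M.hl
  set F : Fin n → Fin n → ℝ := fun i j => if xx v i j = 1 then 0 else
    α i * α j * xx v i j * Rv l (α i) (grp v i).card with hF
  set G : Fin n → Fin n → ℝ := fun i j => α i * α j * xx v i j *
    Tp (bA l v i j) (cA l v i j) (ρ i) (1 - xx v i j) with hG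
  have hA : ∑ i, α i * (-Real.log (α i)) - (k * Real.log l + ((n : ℝ) - k * l) * L)
      = ∑ i, ∑ j, F i j := by
    have h1 : ∀ i, ∑ j, F i j = α i * (-Real.log (α i)) - (α i * Real.log l + (1 - α i * l) * L) := by
      intro i
      have h2 : ∑ j, F i j = α i * ((1 - (grp v i).card * α i) * Rv l (α i) (grp v i).card) := by
        rw [← M.sum_off i, Finset.sum_mul, Finset.mul_sum]
        refine Finset.sum_congr rfl fun j _ => ?_
        simp only [hF]
        split_ifs
        · ring
        · ring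
      rw [h2, ← M.entropy_eq i]
      have h3 : Real.log (1 / (l * α i)) = -Real.log (α i) - Real.log l := by
        rw [one_div, Real.log_inv, Real.log_mul (by linarith) (hα0 i).ne']
        ring
      have h4 : α i * (1 / α i) = 1 := by
        rw [mul_one_div, div_self (hα0 i).ne']
      show α i * (Real.log (1 / (l * α i)) - (1 / α i - l) * L) = _
      rw [h3]
      linear_combination (-L) * h4
    rw [Finset.sum_congr rfl fun i _ => h1 i, Finset.sum_sub_distrib, Finset.sum_add_distrib,
      ← Finset.sum_mul, ← Finset.sum_mul, Finset.sum_sub_distrib, ← Finset.sum_mul, hsum]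
    simp
  have hB : ∑ i, ∑ j, F i j ≤ ∑ i, ∑ j, G i j := by
    have hFs : ∑ i, ∑ j, F i j = ∑ i, ∑ j, (1 / 2) * (F i j + F j i) := by
      have h1 : ∑ i, ∑ j, F i j = ∑ i, ∑ j, F j i := Finset.sum_comm
      simp only [mul_add, Finset.sum_add_distrib, ← Finset.mul_sum]
      rw [← h1]
      ring
    have hGs : ∑ i, ∑ j, G i j = ∑ i, ∑ j, (1 / 2) * (G i j + G j i) := by
      have h1 : ∑ i, ∑ j, G i j = ∑ i, ∑ j, G j i := Finset.sum_comm
      simp only [mul_add, Finset.sum_add_distrib, ← Finset.mul_sum]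
      rw [← h1]
      ring
    rw [hFs, hGs]
    refine Finset.sum_le_sum fun i _ => Finset.sum_le_sum fun j _ => ?_
    have hcomm := xx_comm v j i
    by_cases h1 : xx v i j = 1
    · have h2 : F i j = 0 := by simp only [hF]; rw [if_pos h1]
      have h3 : F j i = 0 := by simp only [hF]; rw [if_pos (by rw [hcomm, h1])]
      have h4 : G i j = 0 := by simp only [hG]; rw [h1, sub_self, Tp_zero, mul_zero]
      have h5 : G j i = 0 := by simp only [hG]; rw [hcomm, h1, sub_self, Tp_zero, mul_zero]
      rw [h2, h3, h4, h5]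
    · have h1' : xx v j i ≠ 1 := by rwa [hcomm]
      rcases (M.xx_nonneg i j).eq_or_lt with h0 | h0
      · have h2 : F i j = 0 := by simp only [hF]; rw [← h0]; simp
        have h3 : F j i = 0 := by simp only [hF]; rw [hcomm, ← h0]; simp
        have h4 : G i j = 0 := by simp only [hG]; rw [← h0]; simp
        have h5 : G j i = 0 := by simp only [hG]; rw [hcomm, ← h0]; simp
        rw [h2, h3, h4, h5]
      · have h0' : 0 < xx v j i := by rwa [hcomm]
        have h2 : F i j = α i * α j * xx v i j * Rv l (α i) (grp v i).card := by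
          simp only [hF]; rw [if_neg h1]
        have h3 : F j i = α i * α j * xx v i j * Rv l (α j) (grp v j).card := by
          simp only [hF]; rw [if_neg h1', hcomm]; ring
        have r1 : ρ i = 1 - (grp v i).card * α i := by
          simp only [hρ]; rw [if_pos (M.mass_lt h1 h0)]
        have r2 : ρ j = 1 - (grp v j).card * α j := by
          simp only [hρ]; rw [if_pos (M.mass_lt h1' h0')]
        have h4 : G i j = α i * α j * xx v i j * Tp (bA l v i j) (cA l v i j)
            (1 - (grp v i).card * α i) (1 - xx v i j) := by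
          simp only [hG]; rw [r1]
        have h5 : G j i = α i * α j * xx v i j * Tp (bA l v i j) (cA l v i j)
            (1 - (grp v j).card * α j) (1 - xx v i j) := by
          simp only [hG]; rw [r2, hcomm, bA_comm, cA_comm]; ring
        rw [h2, h3, h4, h5, ← mul_add, ← mul_add]
        apply mul_le_mul_of_nonneg_left _ (by norm_num)
        apply mul_le_mul_of_nonneg_left (hp i j h1 h0)
        exact mul_nonneg (mul_nonneg (hα0 i).le (hα0 j).le) h0.le
  have hgoal : ∑ i, ∑ j, G i j = ∑ i, ∑ j, (v i ⬝ᵥ v i) * (v j ⬝ᵥ v j) * xx v i j *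
      Tp (bA l v i j) (cA l v i j) (ρ i) (1 - xx v i j) := rfl
  rw [← hgoal]
  linarith

end MaxData

end Pool.Agent.Work.MP_6cd513_gt
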