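import Mathlib

/-!
# The Gaussian quantile transport `T : (-1,1) → ℝ`
-/

open MeasureTheory Set Filter Topology

namespace Pool.Agent.Work.MP_6cd513_gt

/-- `γ = √(π/2)` -/
noncomputable def gam : ℝ := Real.sqrt (Real.pi / 2)

theorem gam_pos : 0 < gam := Real.sqrt_pos.2 (by positivity)

theorem one_le_gam : 1 ≤ gam := by
  unfold gam
  rw [Real.one_le_sqrt]
  linarith [Real.two_le_pi]

/-- error-type function -/
noncomputable def Ef (t : ℝ) : ℝ := ∫ s in (0 : ℝ)..t, gam⁻¹ * Real.exp (-s ^ 2 / 2)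

theorem Ef_hasDerivAt (t : ℝ) : HasDerivAt Ef (gam⁻¹ * Real.exp (-t ^ 2 / 2)) t := by
  have hc : Continuous fun s : ℝ => gam⁻¹ * Real.exp (-s ^ 2 / 2) := by fun_prop
  exact intervalIntegral.integral_hasDerivAt_right (hc.intervalIntegrable _ _)
    (hc.stronglyMeasurableAtFilter _ _) hc.continuousAt

theorem Ef_continuous : Continuous Ef :=
  continuous_iff_continuousAt.2 fun t => (Ef_hasDerivAt t).continuousAt

theorem Ef_strictMono : StrictMono Ef := by
  apply strictMono_of_deriv_pos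
  intro t
  rw [(Ef_hasDerivAt t).deriv]
  exact mul_pos (inv_pos.2 gam_pos) (Real.exp_pos _)

theorem Ef_zero : Ef 0 = 0 := by simp [Ef]

theorem Ef_neg (t : ℝ) : Ef (-t) = -Ef t := by
  unfold Ef
  have h := intervalIntegral.integral_comp_neg (a := 0) (b := t)
    (fun s : ℝ => gam⁻¹ * Real.exp (-s ^ 2 / 2))
  rw [neg_zero] at h
  rw [intervalIntegral.integral_symm, ← h]
  congr 1
  apply intervalIntegral.integral_congr
  intro s _
  simp

theorem Ef_tendsto : Tendsto Ef atTop (𝓝 1) := by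
  have hint : Integrable (fun s : ℝ => Real.exp (-(1 / 2) * s ^ 2)) :=
    integrable_exp_neg_mul_sq (by norm_num)
  have h1 : Tendsto (fun t : ℝ => ∫ s in (0 : ℝ)..t, gam⁻¹ * Real.exp (-s ^ 2 / 2)) atTop
      (𝓝 (∫ s in Ioi (0 : ℝ), gam⁻¹ * Real.exp (-s ^ 2 / 2))) := by
    apply intervalIntegral_tendsto_integral_Ioi _ _ tendsto_id
    apply Integrable.integrableOn
    apply Integrable.const_mul
    have h5 : (fun s : ℝ => Real.exp (-s ^ 2 / 2)) = fun s => Real.exp (-(1 / 2) * s ^ 2) := by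
      ext s; ring_nf
    rw [h5]
    exact hint
  have h2 : ∫ s in Ioi (0 : ℝ), gam⁻¹ * Real.exp (-s ^ 2 / 2) = 1 := by
    rw [integral_const_mul]
    have h3 : ∫ s in Ioi (0 : ℝ), Real.exp (-s ^ 2 / 2) = gam := by
      have h4 := integral_gaussian_Ioi (1 / 2)
      have h5 : (fun s : ℝ => Real.exp (-s ^ 2 / 2)) = fun s => Real.exp (-(1 / 2) * s ^ 2) := by
        ext s; ring_nf
      rw [h5, h4]
      unfold gam
      have h6 : Real.pi / (1 / 2) = 2 ^ 2 * (Real.pi / 2) := by ring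
      rw [h6, Real.sqrt_mul (by positivity), Real.sqrt_sq (by positivity)]
      ring
    rw [h3]
    exact inv_mul_cancel₀ gam_pos.ne'
  rw [h2] at h1
  exact h1

theorem Ef_lt_one (t : ℝ) : Ef t < 1 := by
  have h1 : Ef t < Ef (t + 1) := Ef_strictMono (by linarith)
  have h2 : Ef (t + 1) ≤ 1 := Ef_strictMono.monotone.ge_of_tendsto Ef_tendsto _
  linarith

theorem neg_one_lt_Ef (t : ℝ) : -1 < Ef t := by
  have := Ef_lt_one (-t)
  rw [Ef_neg] at this
  linarith

theorem Ef_range : range Ef = Ioo (-1) 1 := by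
  apply Subset.antisymm
  · rintro _ ⟨t, rfl⟩
    exact ⟨neg_one_lt_Ef t, Ef_lt_one t⟩
  · intro s hs
    have hbot : Tendsto Ef atBot (𝓝 (-1)) := by
      have : Ef = fun t => -Ef (-t) := by ext t; rw [Ef_neg]; ring
      rw [this]
      exact (Ef_tendsto.comp tendsto_neg_atBot_atTop).neg
    obtain ⟨a, ha⟩ := (hbot.eventually_lt_const hs.1).exists
    obtain ⟨b, hb⟩ := (Ef_tendsto.eventually_const_lt hs.2).exists
    exact mem_range_of_exists_le_of_exists_ge Ef_continuous ⟨a, ha.le⟩ ⟨b, hb.le⟩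

/-- the Gaussian quantile -/
noncomputable def Tq : ℝ → ℝ := Function.invFun Ef

theorem Tq_Ef (t : ℝ) : Tq (Ef t) = t := Function.leftInverse_invFun Ef_strictMono.injective t

theorem Ef_Tq {s : ℝ} (hs : s ∈ Ioo (-1 : ℝ) 1) : Ef (Tq s) = s := by
  rw [← Ef_range] at hs
  exact Function.invFun_eq hs

theorem Tq_zero : Tq 0 = 0 := by
  have := Tq_Ef 0
  rwa [Ef_zero] at this

theorem Tq_neg {s : ℝ} (hs : s ∈ Ioo (-1 : ℝ) 1) : Tq (-s) = -Tq s := by
  have h : Ef (-Tq s) = -s := by rw [Ef_neg, Ef_Tq hs]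
  rw [← h, Tq_Ef]

theorem Tq_strictMonoOn : StrictMonoOn Tq (Ioo (-1) 1) := by
  intro a ha b hb hab
  rw [← Ef_strictMono.lt_iff_lt, Ef_Tq ha, Ef_Tq hb]
  exact hab

theorem Tq_continuousAt {s : ℝ} (hs : s ∈ Ioo (-1 : ℝ) 1) : ContinuousAt Tq s := by
  have hoc : OrdConnected (range Ef) := by rw [Ef_range]; exact ordConnected_Ioo
  have hemb : Topology.IsEmbedding Ef := Ef_strictMono.isEmbedding_of_ordConnected hoc
  rw [hemb.isInducing.continuousAt_iff]
  have : (Ef ∘ Tq) =ᶠ[𝓝 s] id := by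
    filter_upwards [isOpen_Ioo.mem_nhds hs] with r hr
    exact Ef_Tq hr
  exact continuousAt_id.congr this.symm

/-- the density of the transport -/
noncomputable def Wq (s : ℝ) : ℝ := gam * Real.exp (Tq s ^ 2 / 2)

theorem Wq_pos (s : ℝ) : 0 < Wq s := mul_pos gam_pos (Real.exp_pos _)

theorem one_le_Wq (s : ℝ) : 1 ≤ Wq s := by
  have h1 : 1 ≤ Real.exp (Tq s ^ 2 / 2) := Real.one_le_exp (by positivity)
  have := one_le_gam
  unfold Wq
  nlinarith

theorem Tq_hasDerivAt {s : ℝ} (hs : s ∈ Ioo (-1 : ℝ) 1) : HasDerivAt Tq (Wq s) s := by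
  have h := HasDerivAt.of_local_left_inverse (f := Ef) (g := Tq)
    (f' := gam⁻¹ * Real.exp (-(Tq s) ^ 2 / 2)) (a := s) (Tq_continuousAt hs)
    (Ef_hasDerivAt (Tq s)) (mul_pos (inv_pos.2 gam_pos) (Real.exp_pos _)).ne'
    (by filter_upwards [isOpen_Ioo.mem_nhds hs] with r hr using Ef_Tq hr)
  refine h.congr_deriv ?_
  unfold Wq
  rw [mul_inv, inv_inv, ← Real.exp_neg]
  congr 2
  ring

theorem Wq_hasDerivAt {s : ℝ} (hs : s ∈ Ioo (-1 : ℝ) 1) :
    HasDerivAt Wq (Tq s * Wq s ^ 2) s := by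
  have h1 := (((Tq_hasDerivAt hs).pow 2).div_const 2).exp.const_mul gam
  refine h1.congr_deriv ?_
  unfold Wq
  simp only [Pi.pow_apply]
  push_cast
  ring

theorem Wq_neg {s : ℝ} (hs : s ∈ Ioo (-1 : ℝ) 1) : Wq (-s) = Wq s := by
  unfold Wq
  rw [Tq_neg hs]
  ring_nf

theorem le_Tq {s : ℝ} (hs : s ∈ Ico (0 : ℝ) 1) : s ≤ Tq s := by
  have hsub : Icc 0 s ⊆ Ioo (-1 : ℝ) 1 := fun r hr => ⟨by linarith [hr.1], by
    linarith [hr.2, hs.2]⟩
  have hmono : MonotoneOn (fun r => Tq r - r) (Icc 0 s) := by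
    apply monotoneOn_of_deriv_nonneg (convex_Icc _ _)
    · intro r hr
      exact ((Tq_hasDerivAt (hsub hr)).continuousAt.sub continuousAt_id).continuousWithinAt
    · intro r hr
      rw [interior_Icc] at hr
      exact ((Tq_hasDerivAt (hsub (Ioo_subset_Icc_self hr))).sub
        (hasDerivAt_id r)).differentiableAt.differentiableWithinAt
    · intro r hr
      rw [interior_Icc] at hr
      have := ((Tq_hasDerivAt (hsub (Ioo_subset_Icc_self hr))).sub (hasDerivAt_id r)).deriv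
      have h2 : deriv (fun r => Tq r - r) r = Wq r - 1 := this
      rw [h2]
      linarith [one_le_Wq r]
  have := hmono (left_mem_Icc.2 hs.1) (right_mem_Icc.2 hs.1) hs.1
  simp only [Tq_zero, sub_zero] at this
  linarith

theorem Wq_sub_mono {a b : ℝ} (ha : 0 ≤ a) (hab : a ≤ b) (hb : b < 1) :
    (b ^ 2 - a ^ 2) / 2 ≤ Wq b - Wq a := by
  have hsub : Icc a b ⊆ Ioo (-1 : ℝ) 1 := fun r hr => ⟨by linarith [hr.1], by
    linarith [hr.2]⟩
  have hd : ∀ r ∈ Icc a b, HasDerivAt (fun r => Wq r - r ^ 2 / 2) (Tq r * Wq r ^ 2 - r) r := by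
    intro r hr
    have h1 := (Wq_hasDerivAt (hsub hr)).sub (((hasDerivAt_id r).pow 2).div_const 2)
    refine h1.congr_deriv ?_
    simp
  have hmono : MonotoneOn (fun r => Wq r - r ^ 2 / 2) (Icc a b) := by
    apply monotoneOn_of_deriv_nonneg (convex_Icc _ _)
    · intro r hr
      exact (hd r hr).continuousAt.continuousWithinAt
    · intro r hr
      rw [interior_Icc] at hr
      exact (hd r (Ioo_subset_Icc_self hr)).differentiableAt.differentiableWithinAt
    · intro r hr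
      rw [interior_Icc] at hr
      rw [(hd r (Ioo_subset_Icc_self hr)).deriv]
      have h1 := le_Tq (s := r) ⟨by linarith [hr.1], by linarith [hr.2]⟩
      have h2 := one_le_Wq r
      have h3 : 0 ≤ Tq r := by linarith [hr.1]
      nlinarith [mul_nonneg h3 (by nlinarith : 0 ≤ Wq r ^ 2 - 1)]
  have := hmono (left_mem_Icc.2 hab) (right_mem_Icc.2 hab) hab
  simp only at this
  linarith

theorem Wq_abs {s : ℝ} (hs : s ∈ Ioo (-1 : ℝ) 1) : Wq |s| = Wq s := by
  rcases abs_choice s with h | h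
  · rw [h]
  · rw [h, Wq_neg hs]

theorem Wq_diff_sq {a b : ℝ} (ha : a ∈ Ioo (-1 : ℝ) 1) (hb : b ∈ Ioo (-1 : ℝ) 1) :
    (a ^ 2 - b ^ 2) ^ 2 / 4 ≤ (Wq a - Wq b) ^ 2 := by
  rw [← Wq_abs ha, ← Wq_abs hb, ← sq_abs a, ← sq_abs b]
  have ha1 : |a| < 1 := abs_lt.2 ha
  have hb1 : |b| < 1 := abs_lt.2 hb
  rcases le_total |a| |b| with h | h
  · have h1 := Wq_sub_mono (abs_nonneg a) h hb1
    have h2 : 0 ≤ (|b| ^ 2 - |a| ^ 2) / 2 := by nlinarith [abs_nonneg a]
    nlinarith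
  · have h1 := Wq_sub_mono (abs_nonneg b) h ha1
    have h2 : 0 ≤ (|a| ^ 2 - |b| ^ 2) / 2 := by nlinarith [abs_nonneg b]
    nlinarith

theorem Wq_le {s : ℝ} (hs : |s| ≤ 1 / 2) : Wq s ≤ Wq (1 / 2) := by
  have hs' : s ∈ Ioo (-1 : ℝ) 1 := abs_lt.1 (by linarith)
  rw [← Wq_abs hs']
  have := Wq_sub_mono (abs_nonneg s) hs (by norm_num)
  nlinarith [abs_nonneg s]

theorem Wq_continuousOn : ContinuousOn Wq (Ioo (-1) 1) := fun _ hs =>
  (Wq_hasDerivAt hs).continuousAt.continuousWithinAt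

end Pool.Agent.Work.MP_6cd513_gt
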