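import Pool.Agent.Work.MP_6cd513_gt.DetIneq
import Pool.Agent.Work.MP_6cd513_gt.Quantile

/-!
# Brascamp-Lieb for slabs by transport, with a defect term
-/

open Matrix Finset MeasureTheory

namespace Pool.Agent.Work.MP_6cd513_gt

variable {ι : Type*} [Fintype ι] {k : ℕ}

/-- `x ↦ u ⬝ x` as a continuous linear map -/
noncomputable def dotL (u : Fin k → ℝ) : (Fin k → ℝ) →L[ℝ] ℝ :=
  ∑ p, u p • ContinuousLinearMap.proj p

@[simp] theorem dotL_apply (u x : Fin k → ℝ) : dotL u x = u ⬝ᵥ x := by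
  simp [dotL, dotProduct]

/-- the open slab body -/
def slab (w : ι → ℝ) (u : ι → Fin k → ℝ) : Set (Fin k → ℝ) := {x | ∀ i, |u i ⬝ᵥ x| < w i}

theorem isOpen_slab (w : ι → ℝ) (u : ι → Fin k → ℝ) : IsOpen (slab w u) := by
  have : slab w u = ⋂ i, {x | |dotL (u i) x| < w i} := by
    ext x; simp [slab]
  rw [this]
  exact isOpen_iInter_of_finite fun i =>
    isOpen_lt ((dotL (u i)).continuous.abs) continuous_const

/-- the transport map -/
noncomputable def Theta (α w : ι → ℝ) (u : ι → Fin k → ℝ) (x : Fin k → ℝ) : Fin k → ℝ :=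
  ∑ i, (α i * Tq ((u i ⬝ᵥ x) / w i)) • u i

/-- its derivative weights -/
noncomputable def tW (w : ι → ℝ) (u : ι → Fin k → ℝ) (x : Fin k → ℝ) (i : ι) : ℝ :=
  Wq ((u i ⬝ᵥ x) / w i) / w i

omit [Fintype ι] in
theorem mem_slab_div {w : ι → ℝ} {u : ι → Fin k → ℝ} (hw : ∀ i, 0 < w i) {x : Fin k → ℝ}
    (hx : x ∈ slab w u) (i : ι) : (u i ⬝ᵥ x) / w i ∈ Set.Ioo (-1 : ℝ) 1 := by
  have h := hx i
  rw [Set.mem_Ioo, ← abs_lt, abs_div, abs_of_pos (hw i), div_lt_one (hw i)]
  exact h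

theorem Theta_hasFDerivAt {α w : ι → ℝ} {u : ι → Fin k → ℝ} (hw : ∀ i, 0 < w i)
    {x : Fin k → ℝ} (hx : x ∈ slab w u) :
    HasFDerivAt (Theta α w u)
      (LinearMap.toContinuousLinearMap (toLin' (frameM (fun i => α i * tW w u x i) u))) x := by
  have h1 : ∀ i ∈ (Finset.univ : Finset ι), HasFDerivAt
      (fun x => (α i * Tq ((u i ⬝ᵥ x) / w i)) • u i)
      (((α i * tW w u x i) • dotL (u i)).smulRight (u i)) x := by
    intro i _
    have h2 : HasFDerivAt (fun x => (u i ⬝ᵥ x) / w i) ((w i)⁻¹ • dotL (u i)) x := by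
      have h3 : (fun x => (u i ⬝ᵥ x) / w i) = fun x => ((w i)⁻¹ • dotL (u i)) x := by
        ext y; simp [div_eq_inv_mul]
      rw [h3]
      exact ((w i)⁻¹ • dotL (u i)).hasFDerivAt
    have h4 := (Tq_hasDerivAt (mem_slab_div hw hx i)).comp_hasFDerivAt x h2
    have h5 := (h4.const_mul (α i)).smul_const (u i)
    refine h5.congr_fderiv ?_
    ext y p
    simp only [ContinuousLinearMap.smulRight_apply, _root_.smul_apply, dotL_apply, smul_eq_mul,
      Pi.smul_apply, tW]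
    ring
  have h2 := HasFDerivAt.fun_sum h1
  have h3 : Theta α w u = fun x => ∑ i, (α i * Tq ((u i ⬝ᵥ x) / w i)) • u i := rfl
  rw [h3]
  refine h2.congr_fderiv ?_
  ext y p
  simp only [_root_.sum_apply, ContinuousLinearMap.smulRight_apply,
    _root_.smul_apply, dotL_apply, LinearMap.coe_toContinuousLinearMap', toLin'_apply,
    frameM_mulVec, smul_eq_mul]

theorem Theta_injOn {α w : ι → ℝ} {u : ι → Fin k → ℝ} (hα : ∀ i, 0 ≤ α i) (hw : ∀ i, 0 < w i)
    (hiso : frameM α u = 1) : Set.InjOn (Theta α w u) (slab w u) := by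
  intro x hx y hy hxy
  have h1 : ∑ i, (α i * (Tq ((u i ⬝ᵥ x) / w i) - Tq ((u i ⬝ᵥ y) / w i))) * (u i ⬝ᵥ (x - y))
      = 0 := by
    have h2 : (Theta α w u x - Theta α w u y) ⬝ᵥ (x - y) = 0 := by rw [hxy]; simp
    rw [← h2]
    unfold Theta
    rw [← Finset.sum_sub_distrib, sum_dotProduct]
    refine Finset.sum_congr rfl fun i _ => ?_
    rw [← sub_smul, smul_dotProduct, smul_eq_mul]
    ring
  have hnn : ∀ i, 0 ≤ (α i * (Tq ((u i ⬝ᵥ x) / w i) - Tq ((u i ⬝ᵥ y) / w i))) *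
      (u i ⬝ᵥ (x - y)) := by
    intro i
    rw [mul_assoc]
    refine mul_nonneg (hα i) ?_
    have hx' := mem_slab_div hw hx i
    have hy' := mem_slab_div hw hy i
    have hdot : u i ⬝ᵥ (x - y) = ((u i ⬝ᵥ x) / w i - (u i ⬝ᵥ y) / w i) * w i := by
      rw [dotProduct_sub]
      field_simp [(hw i).ne']
    rw [hdot]
    rcases le_total ((u i ⬝ᵥ x) / w i) ((u i ⬝ᵥ y) / w i) with h | h
    · have := Tq_strictMonoOn.monotoneOn hx' hy' h
      nlinarith [mul_nonneg (mul_nonneg (sub_nonneg.2 this) (sub_nonneg.2 h)) (hw i).le]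
    · have := Tq_strictMonoOn.monotoneOn hy' hx' h
      exact mul_nonneg (sub_nonneg.2 this) (mul_nonneg (sub_nonneg.2 h) (hw i).le)
  have h0 := (Finset.sum_eq_zero_iff_of_nonneg (fun i _ => hnn i)).1 h1
  have h2 : ∀ i, α i * (u i ⬝ᵥ (x - y)) = 0 := by
    intro i
    have h3 := h0 i (Finset.mem_univ i)
    rcases mul_eq_zero.1 h3 with h | h
    · rcases mul_eq_zero.1 h with h' | h'
      · rw [h', zero_mul]
      · have h4 : (u i ⬝ᵥ x) / w i = (u i ⬝ᵥ y) / w i :=
          Tq_strictMonoOn.injOn (mem_slab_div hw hx i) (mem_slab_div hw hy i)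
            (sub_eq_zero.1 h')
        have h5 : u i ⬝ᵥ x = u i ⬝ᵥ y := by
          have := (hw i).ne'
          field_simp at h4
          exact h4
        rw [dotProduct_sub, h5, sub_self, mul_zero]
    · rw [h, mul_zero]
  have h3 : x - y = 0 := by
    have h4 := frameM_mulVec α u (x - y)
    rw [hiso, one_mulVec] at h4
    rw [h4]
    refine Finset.sum_eq_zero fun i _ => ?_
    rw [h2 i, zero_smul]
  exact sub_eq_zero.1 h3

theorem Theta_sq_le {α w : ι → ℝ} {u : ι → Fin k → ℝ} (hα : ∀ i, 0 ≤ α i)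
    (hiso : frameM α u = 1) (x : Fin k → ℝ) :
    Theta α w u x ⬝ᵥ Theta α w u x ≤ ∑ i, α i * Tq ((u i ⬝ᵥ x) / w i) ^ 2 := by
  have h1' : ∀ z : Fin k → ℝ, Theta α w u x ⬝ᵥ z
      = ∑ i, α i * (Tq ((u i ⬝ᵥ x) / w i) * (u i ⬝ᵥ z)) := by
    intro z
    rw [Theta, sum_dotProduct]
    refine Finset.sum_congr rfl fun i _ => ?_
    rw [smul_dotProduct, smul_eq_mul]
    ring
  have h1 := h1' (Theta α w u x)
  set y := Theta α w u x with hy
  have h2 := iso_dot hiso y y
  have h3 : 0 ≤ ∑ i, α i * (Tq ((u i ⬝ᵥ x) / w i) - (u i ⬝ᵥ y)) ^ 2 :=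
    Finset.sum_nonneg fun i _ => mul_nonneg (hα i) (sq_nonneg _)
  have h4 : ∑ i, α i * (Tq ((u i ⬝ᵥ x) / w i) - (u i ⬝ᵥ y)) ^ 2
      = ∑ i, α i * Tq ((u i ⬝ᵥ x) / w i) ^ 2
        - 2 * ∑ i, α i * (Tq ((u i ⬝ᵥ x) / w i) * (u i ⬝ᵥ y))
        + ∑ i, α i * ((u i ⬝ᵥ y) * (u i ⬝ᵥ y)) := by
    rw [Finset.mul_sum, ← Finset.sum_sub_distrib, ← Finset.sum_add_distrib]
    exact Finset.sum_congr rfl fun i _ => by ring
  rw [h4, ← h1, h2] at h3
  linarith

theorem sum_alpha {α : ι → ℝ} {u : ι → Fin k → ℝ} (hu : ∀ i, u i ⬝ᵥ u i = 1)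
    (hiso : frameM α u = 1) : ∑ i, α i = k := by
  have h : (frameM α u).trace = k := by rw [hiso]; simp
  rw [← h, trace]
  simp only [diag_apply, frameM_apply]
  rw [Finset.sum_comm]
  refine Finset.sum_congr rfl fun i _ => ?_
  rw [← Finset.mul_sum]
  have : ∑ p, u i p * u i p = 1 := hu i
  rw [this, mul_one]

/-- the Gaussian integral on `Fin k → ℝ` -/
theorem gauss_lintegral (k : ℕ) :
    ∫⁻ y : Fin k → ℝ, ENNReal.ofReal (Real.exp (-(y ⬝ᵥ y) / 2))
      = ENNReal.ofReal ((2 * gam) ^ k) := by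
  have hint1 : Integrable (fun s : ℝ => Real.exp (-s ^ 2 / 2)) := by
    have h5 : (fun s : ℝ => Real.exp (-s ^ 2 / 2)) = fun s => Real.exp (-(1 / 2) * s ^ 2) := by
      ext s; ring_nf
    rw [h5]
    exact integrable_exp_neg_mul_sq (by norm_num)
  have hval : ∫ s : ℝ, Real.exp (-s ^ 2 / 2) = 2 * gam := by
    have h5 : (fun s : ℝ => Real.exp (-s ^ 2 / 2)) = fun s => Real.exp (-(1 / 2) * s ^ 2) := by
      ext s; ring_nf
    rw [h5, integral_gaussian]
    unfold gam
    have h6 : Real.pi / (1 / 2) = 2 ^ 2 * (Real.pi / 2) := by ring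
    rw [h6, Real.sqrt_mul (by positivity), Real.sqrt_sq (by positivity)]
  have hprod : (fun y : Fin k → ℝ => Real.exp (-(y ⬝ᵥ y) / 2))
      = fun y => ∏ i, (fun s : ℝ => Real.exp (-s ^ 2 / 2)) (y i) := by
    ext y
    simp only
    rw [← Real.exp_sum]
    congr 1
    rw [← Finset.sum_div, Finset.sum_neg_distrib]
    congr 2
    exact Finset.sum_congr rfl fun i _ => by ring
  have hint : Integrable (fun y : Fin k → ℝ => Real.exp (-(y ⬝ᵥ y) / 2)) := by
    rw [hprod]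
    exact Integrable.fintype_prod (fun _ => hint1)
  rw [← ofReal_integral_eq_lintegral_ofReal hint
    (Filter.Eventually.of_forall fun y => (Real.exp_pos _).le), hprod]
  congr 1
  rw [integral_fintype_prod_volume_eq_pow (fun s : ℝ => Real.exp (-s ^ 2 / 2)), hval,
    Fintype.card_fin]

/-- **Brascamp-Lieb for slabs with defect.** -/
theorem slab_BL {α w : ι → ℝ} {u : ι → Fin k → ℝ} (hα : ∀ i, 0 ≤ α i) (hw : ∀ i, 0 < w i)
    (hu : ∀ i, u i ⬝ᵥ u i = 1) (hiso : frameM α u = 1) (F : (Fin k → ℝ) → ℝ)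
    (hF : ∀ x ∈ slab w u, Real.exp (∑ i, α i * Real.log (tW w u x i)) * F x
      ≤ (frameM (fun i => α i * tW w u x i) u).det) :
    ∫⁻ x in slab w u, ENNReal.ofReal (F x)
      ≤ ENNReal.ofReal (Real.exp (∑ i, α i * Real.log (2 * w i))) := by
  have hms : MeasurableSet (slab w u) := (isOpen_slab w u).measurableSet
  have hchg := lintegral_image_eq_lintegral_abs_det_fderiv_mul (volume : Measure (Fin k → ℝ)) hms
    (fun x hx => (Theta_hasFDerivAt (α := α) hw hx).hasFDerivWithinAt)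
    (Theta_injOn hα hw hiso) (fun y => ENNReal.ofReal (Real.exp (-(y ⬝ᵥ y) / 2)))
  have hle : ∫⁻ y in Theta α w u '' slab w u, ENNReal.ofReal (Real.exp (-(y ⬝ᵥ y) / 2))
      ≤ ENNReal.ofReal ((2 * gam) ^ k) := by
    rw [← gauss_lintegral k]
    exact setLIntegral_le_lintegral _ _
  rw [hchg] at hle
  set c : ℝ := Real.exp (∑ i, α i * (Real.log gam - Real.log (w i))) with hc
  have hcpos : 0 < c := Real.exp_pos _
  have hpt : ∀ x ∈ slab w u, ENNReal.ofReal c * ENNReal.ofReal (F x) ≤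
      ENNReal.ofReal |(LinearMap.toContinuousLinearMap (toLin'
        (frameM (fun i => α i * tW w u x i) u))).det| *
        ENNReal.ofReal (Real.exp (-(Theta α w u x ⬝ᵥ Theta α w u x) / 2)) := by
    intro x hx
    rw [← ENNReal.ofReal_mul hcpos.le, ← ENNReal.ofReal_mul (abs_nonneg _)]
    apply ENNReal.ofReal_le_ofReal
    have hdet : (LinearMap.toContinuousLinearMap (toLin'
        (frameM (fun i => α i * tW w u x i) u))).det
        = (frameM (fun i => α i * tW w u x i) u).det := by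
      rw [ContinuousLinearMap.det]
      simp
    rw [hdet]
    have h1 := hF x hx
    have h2 := Theta_sq_le (w := w) hα hiso x
    have h3 : c * F x = Real.exp (∑ i, α i * Real.log (tW w u x i)) * F x *
        Real.exp (-(∑ i, α i * Tq ((u i ⬝ᵥ x) / w i) ^ 2) / 2) := by
      rw [mul_right_comm, ← Real.exp_add, hc]
      congr 2
      rw [neg_div, Finset.sum_div, ← sub_eq_add_neg, ← Finset.sum_sub_distrib]
      refine Finset.sum_congr rfl fun i _ => ?_
      have : Real.log (tW w u x i) = Real.log gam + Tq ((u i ⬝ᵥ x) / w i) ^ 2 / 2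
          - Real.log (w i) := by
        unfold tW Wq
        rw [Real.log_div (mul_pos gam_pos (Real.exp_pos _)).ne' (hw i).ne',
          Real.log_mul gam_pos.ne' (Real.exp_pos _).ne', Real.log_exp]
      rw [this]
      ring
    rw [h3]
    have h4 : Real.exp (-(∑ i, α i * Tq ((u i ⬝ᵥ x) / w i) ^ 2) / 2)
        ≤ Real.exp (-(Theta α w u x ⬝ᵥ Theta α w u x) / 2) :=
      Real.exp_le_exp.2 (by linarith)
    calc Real.exp (∑ i, α i * Real.log (tW w u x i)) * F x *
          Real.exp (-(∑ i, α i * Tq ((u i ⬝ᵥ x) / w i) ^ 2) / 2)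
        ≤ |(frameM (fun i => α i * tW w u x i) u).det| *
          Real.exp (-(∑ i, α i * Tq ((u i ⬝ᵥ x) / w i) ^ 2) / 2) :=
          mul_le_mul_of_nonneg_right (h1.trans (le_abs_self _)) (Real.exp_pos _).le
      _ ≤ _ := mul_le_mul_of_nonneg_left h4 (abs_nonneg _)
  have hle2 : ENNReal.ofReal c * ∫⁻ x in slab w u, ENNReal.ofReal (F x)
      ≤ ENNReal.ofReal ((2 * gam) ^ k) := by
    rw [← lintegral_const_mul' _ _ ENNReal.ofReal_ne_top]
    refine le_trans ?_ hle
    exact setLIntegral_mono' hms hpt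
  have hfin : ENNReal.ofReal ((2 * gam) ^ k) = ENNReal.ofReal c *
      ENNReal.ofReal (Real.exp (∑ i, α i * Real.log (2 * w i))) := by
    rw [← ENNReal.ofReal_mul hcpos.le, hc, ← Real.exp_add, ← Finset.sum_add_distrib]
    congr 1
    have h1 : ∑ i, (α i * (Real.log gam - Real.log (w i)) + α i * Real.log (2 * w i))
        = (∑ i, α i) * Real.log (2 * gam) := by
      rw [Finset.sum_mul]
      refine Finset.sum_congr rfl fun i _ => ?_
      rw [Real.log_mul (by norm_num) (hw i).ne', Real.log_mul (by norm_num) gam_pos.ne']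
      ring
    rw [h1, sum_alpha hu hiso, ← Real.log_pow, Real.exp_log (by have := gam_pos; positivity)]
  rw [hfin] at hle2
  exact (ENNReal.mul_le_mul_iff_right (ENNReal.ofReal_pos.2 hcpos).ne'
    ENNReal.ofReal_ne_top).1 hle2

end Pool.Agent.Work.MP_6cd513_gt
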