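import Pool.Agent.Work.MP_6cd513_gt.Eta

/-!
# The geometric Brascamp-Lieb inequality for positive continuous functions
-/

open Matrix Finset MeasureTheory

namespace Pool.Agent.Work.MP_6cd513_gt

variable {ι : Type*} [Fintype ι] {k : ℕ}

/-- the transport map -/
noncomputable def ThG (α : ι → ℝ) (τ : ι → ℝ → ℝ) (u : ι → Fin k → ℝ) (x : Fin k → ℝ) :
    Fin k → ℝ :=
  ∑ i, (α i * τ i (u i ⬝ᵥ x)) • u i

theorem ThG_hasFDerivAt {α : ι → ℝ} {u : ι → Fin k → ℝ} {τ d : ι → ℝ → ℝ}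
    (hτ : ∀ i s, HasDerivAt (τ i) (d i s) s) (x : Fin k → ℝ) :
    HasFDerivAt (ThG α τ u)
      (LinearMap.toContinuousLinearMap (toLin' (frameM (fun i => α i * d i (u i ⬝ᵥ x)) u))) x := by
  have h1 : ∀ i ∈ (Finset.univ : Finset ι), HasFDerivAt
      (fun x => (α i * τ i (u i ⬝ᵥ x)) • u i)
      (((α i * d i (u i ⬝ᵥ x)) • dotL (u i)).smulRight (u i)) x := by
    intro i _
    have h2 : HasFDerivAt (fun x => u i ⬝ᵥ x) (dotL (u i)) x := by
      have h3 : (fun x => u i ⬝ᵥ x) = fun x => dotL (u i) x := by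
        ext y; simp
      rw [h3]
      exact (dotL (u i)).hasFDerivAt
    have h4 := (hτ i (u i ⬝ᵥ x)).comp_hasFDerivAt x h2
    have h5 := (h4.const_mul (α i)).smul_const (u i)
    refine h5.congr_fderiv ?_
    ext y p
    simp only [ContinuousLinearMap.smulRight_apply, _root_.smul_apply, dotL_apply, smul_eq_mul,
      Pi.smul_apply]
    ring
  have h2 := HasFDerivAt.fun_sum h1
  have h3 : ThG α τ u = fun x => ∑ i, (α i * τ i (u i ⬝ᵥ x)) • u i := rfl
  rw [h3]
  refine h2.congr_fderiv ?_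
  ext y p
  simp only [_root_.sum_apply, ContinuousLinearMap.smulRight_apply,
    _root_.smul_apply, dotL_apply, LinearMap.coe_toContinuousLinearMap', toLin'_apply,
    frameM_mulVec, smul_eq_mul]

theorem ThG_inj {α : ι → ℝ} {u : ι → Fin k → ℝ} {τ : ι → ℝ → ℝ} (hα : ∀ i, 0 ≤ α i)
    (hτm : ∀ i, StrictMono (τ i)) (hiso : frameM α u = 1) : Function.Injective (ThG α τ u) := by
  intro x y hxy
  have h1 : ∑ i, (α i * (τ i (u i ⬝ᵥ x) - τ i (u i ⬝ᵥ y))) * (u i ⬝ᵥ (x - y)) = 0 := by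
    have h2 : (ThG α τ u x - ThG α τ u y) ⬝ᵥ (x - y) = 0 := by rw [hxy]; simp
    rw [← h2]
    unfold ThG
    rw [← Finset.sum_sub_distrib, sum_dotProduct]
    refine Finset.sum_congr rfl fun i _ => ?_
    rw [← sub_smul, smul_dotProduct, smul_eq_mul]
    ring
  have hnn : ∀ i, 0 ≤ (α i * (τ i (u i ⬝ᵥ x) - τ i (u i ⬝ᵥ y))) * (u i ⬝ᵥ (x - y)) := by
    intro i
    rw [mul_assoc]
    refine mul_nonneg (hα i) ?_
    rw [dotProduct_sub]
    rcases le_total (u i ⬝ᵥ x) (u i ⬝ᵥ y) with h | h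
    · have := (hτm i).monotone h
      nlinarith [mul_nonneg (sub_nonneg.2 this) (sub_nonneg.2 h)]
    · exact mul_nonneg (sub_nonneg.2 ((hτm i).monotone h)) (sub_nonneg.2 h)
  have h0 := (Finset.sum_eq_zero_iff_of_nonneg (fun i _ => hnn i)).1 h1
  have h2 : ∀ i, α i * (u i ⬝ᵥ (x - y)) = 0 := by
    intro i
    have h3 := h0 i (Finset.mem_univ i)
    rcases mul_eq_zero.1 h3 with h | h
    · rcases mul_eq_zero.1 h with h' | h'
      · rw [h', zero_mul]
      · have h5 : u i ⬝ᵥ x = u i ⬝ᵥ y := (hτm i).injective (sub_eq_zero.1 h')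
        rw [dotProduct_sub, h5, sub_self, mul_zero]
    · rw [h, mul_zero]
  have h3 : x - y = 0 := by
    have h4 := frameM_mulVec α u (x - y)
    rw [hiso, one_mulVec] at h4
    rw [h4]
    refine Finset.sum_eq_zero fun i _ => ?_
    rw [h2 i, zero_smul]
  exact sub_eq_zero.1 h3

theorem ThG_sq_le {α : ι → ℝ} {u : ι → Fin k → ℝ} {τ : ι → ℝ → ℝ} (hα : ∀ i, 0 ≤ α i)
    (hiso : frameM α u = 1) (x : Fin k → ℝ) :
    ThG α τ u x ⬝ᵥ ThG α τ u x ≤ ∑ i, α i * τ i (u i ⬝ᵥ x) ^ 2 := by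
  have h1' : ∀ z : Fin k → ℝ, ThG α τ u x ⬝ᵥ z
      = ∑ i, α i * (τ i (u i ⬝ᵥ x) * (u i ⬝ᵥ z)) := by
    intro z
    rw [ThG, sum_dotProduct]
    refine Finset.sum_congr rfl fun i _ => ?_
    rw [smul_dotProduct, smul_eq_mul]
    ring
  have h1 := h1' (ThG α τ u x)
  set y := ThG α τ u x with hy
  have h2 := iso_dot hiso y y
  have h3 : 0 ≤ ∑ i, α i * (τ i (u i ⬝ᵥ x) - (u i ⬝ᵥ y)) ^ 2 :=
    Finset.sum_nonneg fun i _ => mul_nonneg (hα i) (sq_nonneg _)
  have h4 : ∑ i, α i * (τ i (u i ⬝ᵥ x) - (u i ⬝ᵥ y)) ^ 2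
      = ∑ i, α i * τ i (u i ⬝ᵥ x) ^ 2
        - 2 * ∑ i, α i * (τ i (u i ⬝ᵥ x) * (u i ⬝ᵥ y))
        + ∑ i, α i * ((u i ⬝ᵥ y) * (u i ⬝ᵥ y)) := by
    rw [Finset.mul_sum, ← Finset.sum_sub_distrib, ← Finset.sum_add_distrib]
    exact Finset.sum_congr rfl fun i _ => by ring
  rw [h4, ← h1, h2] at h3
  linarith

/-- the transport form -/
theorem BL_transport {α : ι → ℝ} {u : ι → Fin k → ℝ} (hα : ∀ i, 0 ≤ α i)
    (hu : ∀ i, u i ⬝ᵥ u i = 1) (hiso : frameM α u = 1) {τ d : ι → ℝ → ℝ}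
    (hτ : ∀ i s, HasDerivAt (τ i) (d i s) s) (hd : ∀ i s, 0 < d i s) :
    ∫⁻ x : Fin k → ℝ, ENNReal.ofReal (Real.exp (∑ i, α i * (Real.log (d i (u i ⬝ᵥ x))
      - τ i (u i ⬝ᵥ x) ^ 2 / 2))) ≤ ENNReal.ofReal ((2 * gam) ^ k) := by
  have hτm : ∀ i, StrictMono (τ i) := fun i =>
    strictMono_of_hasDerivAt_pos (hτ i) (hd i)
  have hchg := lintegral_image_eq_lintegral_abs_det_fderiv_mul (volume : Measure (Fin k → ℝ))
    MeasurableSet.univ
    (fun x _ => (ThG_hasFDerivAt (α := α) (u := u) hτ x).hasFDerivWithinAt)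
    (ThG_inj hα hτm hiso).injOn (fun y => ENNReal.ofReal (Real.exp (-(y ⬝ᵥ y) / 2)))
  have hle : ∫⁻ y in ThG α τ u '' Set.univ, ENNReal.ofReal (Real.exp (-(y ⬝ᵥ y) / 2))
      ≤ ENNReal.ofReal ((2 * gam) ^ k) := by
    rw [← gauss_lintegral k]
    exact setLIntegral_le_lintegral _ _
  rw [hchg, setLIntegral_univ] at hle
  refine le_trans (lintegral_mono fun x => ?_) hle
  rw [← ENNReal.ofReal_mul (abs_nonneg _)]
  apply ENNReal.ofReal_le_ofReal
  have hdet : (LinearMap.toContinuousLinearMap (toLin'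
      (frameM (fun i => α i * d i (u i ⬝ᵥ x)) u))).det
      = (frameM (fun i => α i * d i (u i ⬝ᵥ x)) u).det := by
    rw [ContinuousLinearMap.det]
    simp
  rw [hdet]
  have h1 := exp_le_det hα hu hiso (fun i => hd i (u i ⬝ᵥ x))
  have h2 := ThG_sq_le (τ := τ) hα hiso x
  have h3 : Real.exp (∑ i, α i * (Real.log (d i (u i ⬝ᵥ x)) - τ i (u i ⬝ᵥ x) ^ 2 / 2))
      = Real.exp (∑ i, α i * Real.log (d i (u i ⬝ᵥ x))) *
        Real.exp (-(∑ i, α i * τ i (u i ⬝ᵥ x) ^ 2) / 2) := by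
    rw [← Real.exp_add]
    congr 1
    rw [neg_div, Finset.sum_div, ← sub_eq_add_neg, ← Finset.sum_sub_distrib]
    exact Finset.sum_congr rfl fun i _ => by ring
  rw [h3]
  exact mul_le_mul (h1.trans (le_abs_self _)) (Real.exp_le_exp.2 (by linarith))
    (Real.exp_pos _).le (abs_nonneg _)

section one

variable {f : ℝ → ℝ}

/-- the normalised distribution function with values in `(-1, 1)` -/
noncomputable def PF (f : ℝ → ℝ) (x : ℝ) : ℝ := 2 * (∫ s in Set.Iic x, f s) / (∫ s, f s) - 1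

theorem int_pos (hfc : Continuous f) (hfp : ∀ s, 0 < f s) (hfi : Integrable f) :
    0 < ∫ s, f s := by
  rw [integral_pos_iff_support_of_nonneg (fun s => (hfp s).le) hfi]
  have : Function.support f = Set.univ := by
    ext s; simp [(hfp s).ne']
  rw [this]
  simp

theorem PF_hasDerivAt (hfc : Continuous f) (hfi : Integrable f) (x : ℝ) :
    HasDerivAt (PF f) (2 * f x / (∫ s, f s)) x := by
  have h1 : (fun x => ∫ s in Set.Iic x, f s)
      = fun x => (∫ s in Set.Iic (0 : ℝ), f s) + ∫ s in (0 : ℝ)..x, f s := by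
    ext y
    have := intervalIntegral.integral_Iic_sub_Iic (a := 0) (b := y) hfi.integrableOn
      hfi.integrableOn
    linarith
  have h2 : HasDerivAt (fun x => ∫ s in (0 : ℝ)..x, f s) (f x) x :=
    intervalIntegral.integral_hasDerivAt_right (hfc.intervalIntegrable _ _)
      (hfc.stronglyMeasurableAtFilter _ _) hfc.continuousAt
  have h3 : HasDerivAt (fun x => ∫ s in Set.Iic x, f s) (f x) x := by
    rw [h1]
    exact h2.const_add _
  exact ((h3.const_mul 2).div_const _).sub_const 1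

theorem PF_mem (hfc : Continuous f) (hfp : ∀ s, 0 < f s) (hfi : Integrable f) (x : ℝ) :
    PF f x ∈ Set.Ioo (-1 : ℝ) 1 := by
  have hI := int_pos hfc hfp hfi
  have h1 : 0 < ∫ s in Set.Iic x, f s := by
    rw [setIntegral_pos_iff_support_of_nonneg_ae
      (Filter.Eventually.of_forall fun s => (hfp s).le) hfi.integrableOn]
    have : Function.support f = Set.univ := by
      ext s; simp [(hfp s).ne']
    rw [this]
    simp
  have h2 : 0 < ∫ s in Set.Ioi x, f s := by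
    rw [setIntegral_pos_iff_support_of_nonneg_ae
      (Filter.Eventually.of_forall fun s => (hfp s).le) hfi.integrableOn]
    have : Function.support f = Set.univ := by
      ext s; simp [(hfp s).ne']
    rw [this]
    simp
  have h3 : (∫ s in Set.Iic x, f s) + ∫ s in Set.Ioi x, f s = ∫ s, f s := by
    have := integral_add_compl (s := Set.Iic x) measurableSet_Iic hfi
    rwa [Set.compl_Iic] at this
  unfold PF
  constructor
  · have : 0 < 2 * (∫ s in Set.Iic x, f s) / (∫ s, f s) := by positivity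
    linarith
  · have : 2 * (∫ s in Set.Iic x, f s) / (∫ s, f s) < 2 := by
      rw [div_lt_iff₀ hI]
      linarith
    linarith

end one

/-- **The geometric Brascamp-Lieb inequality** for positive continuous integrable functions. -/
theorem BL_fun {α : ι → ℝ} {u : ι → Fin k → ℝ} (hα : ∀ i, 0 ≤ α i)
    (hu : ∀ i, u i ⬝ᵥ u i = 1) (hiso : frameM α u = 1) {f : ι → ℝ → ℝ}
    (hfc : ∀ i, Continuous (f i)) (hfp : ∀ i s, 0 < f i s) (hfi : ∀ i, Integrable (f i)) :
    ∫⁻ x : Fin k → ℝ, ENNReal.ofReal (Real.exp (∑ i, α i * Real.log (f i (u i ⬝ᵥ x))))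
      ≤ ENNReal.ofReal (Real.exp (∑ i, α i * Real.log (∫ s, f i s))) := by
  have hI : ∀ i, 0 < ∫ s, f i s := fun i => int_pos (hfc i) (hfp i) (hfi i)
  set τ : ι → ℝ → ℝ := fun i s => Tq (PF (f i) s) with hτ
  set d : ι → ℝ → ℝ := fun i s => Wq (PF (f i) s) * (2 * f i s / (∫ r, f i r)) with hd
  have h1 : ∀ i s, HasDerivAt (τ i) (d i s) s := fun i s =>
    (Tq_hasDerivAt (PF_mem (hfc i) (hfp i) (hfi i) s)).comp s (PF_hasDerivAt (hfc i) (hfi i) s)
  have h2 : ∀ i s, 0 < d i s := fun i s =>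
    mul_pos (Wq_pos _) (div_pos (mul_pos two_pos (hfp i s)) (hI i))
  have h3 := BL_transport hα hu hiso h1 h2
  have hlog : ∀ i s, Real.log (f i s) = Real.log (∫ r, f i r) - Real.log (2 * gam)
      + (Real.log (d i s) - τ i s ^ 2 / 2) := by
    intro i s
    simp only [hd, hτ]
    unfold Wq
    rw [Real.log_mul (mul_pos gam_pos (Real.exp_pos _)).ne'
        (div_pos (mul_pos two_pos (hfp i s)) (hI i)).ne',
      Real.log_mul gam_pos.ne' (Real.exp_pos _).ne', Real.log_exp,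
      Real.log_div (mul_pos two_pos (hfp i s)).ne' (hI i).ne',
      Real.log_mul two_ne_zero (hfp i s).ne', Real.log_mul two_ne_zero gam_pos.ne']
    ring
  set c : ℝ := Real.exp (∑ i, α i * (Real.log (∫ r, f i r) - Real.log (2 * gam))) with hc
  have hc0 : 0 < c := Real.exp_pos _
  have h4 : ∀ x : Fin k → ℝ, ENNReal.ofReal (Real.exp (∑ i, α i * Real.log (f i (u i ⬝ᵥ x))))
      = ENNReal.ofReal c * ENNReal.ofReal (Real.exp (∑ i, α i * (Real.log (d i (u i ⬝ᵥ x))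
      - τ i (u i ⬝ᵥ x) ^ 2 / 2))) := by
    intro x
    rw [← ENNReal.ofReal_mul hc0.le, hc, ← Real.exp_add, ← Finset.sum_add_distrib]
    congr 2
    refine Finset.sum_congr rfl fun i _ => ?_
    rw [hlog i (u i ⬝ᵥ x)]
    ring
  simp_rw [h4]
  rw [lintegral_const_mul' _ _ ENNReal.ofReal_ne_top]
  refine (mul_le_mul_right h3 _).trans (le_of_eq ?_)
  rw [← ENNReal.ofReal_mul hc0.le, hc]
  congr 1
  have h5 : (2 * gam) ^ k = Real.exp (∑ i, α i * Real.log (2 * gam)) := by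
    rw [← Finset.sum_mul, sum_alpha hu hiso, ← Real.log_pow, Real.exp_log]
    have := gam_pos
    positivity
  rw [h5, ← Real.exp_add, ← Finset.sum_add_distrib]
  congr 1
  exact Finset.sum_congr rfl fun i _ => by ring

end Pool.Agent.Work.MP_6cd513_gt
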