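import Pool.Agent.Work.MP_6cd513_gt.BallIntC

/-!
# Ball's integral inequality `∫ |sinc (π t)| ^ p dt ≤ √(2 / p)` for `p ≥ 2`
-/

open Finset MeasureTheory Real Filter Topology

namespace Pool.Agent.Work.MP_6cd513_gt

theorem lintegral_even {f : ℝ → ENNReal} (hf : ∀ x, f (-x) = f x) :
    ∫⁻ x, f x = 2 * ∫⁻ x in Set.Ioi (0 : ℝ), f x := by
  have h1 : ∫⁻ x, f x = (∫⁻ x in Set.Ioi (0 : ℝ), f x) + ∫⁻ x in (Set.Ioi (0 : ℝ))ᶜ, f x :=
    (lintegral_add_compl f measurableSet_Ioi).symm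
  have h2 : ∫⁻ x in (Set.Ioi (0 : ℝ))ᶜ, f x = ∫⁻ x in Set.Ioi (0 : ℝ), f x := by
    rw [Set.compl_Ioi, ← setLIntegral_congr (Iio_ae_eq_Iic (a := (0 : ℝ)))]
    have h3 := (Measure.measurePreserving_neg (volume : Measure ℝ)).setLIntegral_comp_preimage_emb
      (MeasurableEquiv.neg ℝ).measurableEmbedding f (Set.Iio (0 : ℝ))
    rw [← h3]
    have h4 : (Neg.neg ⁻¹' Set.Iio (0 : ℝ)) = Set.Ioi (0 : ℝ) := by
      ext x; simp
    rw [h4]
    simp only [hf]
  rw [h1, h2, two_mul]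

theorem gauss_tail {B : ℝ} (hB : 0 < B) :
    ∫⁻ x in Set.Ioi B, ENNReal.ofReal (exp (-π * x ^ 2))
      ≤ ENNReal.ofReal (exp (-π * B ^ 2) / (2 * π * B)) := by
  have hderiv : ∀ x ∈ Set.Ici B, HasDerivAt (fun x : ℝ => -(exp (-π * x ^ 2) / (2 * π * B)))
      (x / B * exp (-π * x ^ 2)) x := by
    intro x _
    have h1 : HasDerivAt (fun x : ℝ => -π * x ^ 2) (-π * (2 * x)) x := by
      have := (hasDerivAt_pow 2 x).const_mul (-π)
      simpa using this
    have h2 := (h1.exp.div_const (2 * π * B)).neg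
    refine h2.congr_deriv ?_
    have := pi_ne_zero
    field_simp
  have hpos : ∀ x ∈ Set.Ioi B, 0 ≤ x / B * exp (-π * x ^ 2) := by
    intro x hx
    have hx0 : 0 < x := hB.trans hx
    positivity
  have hlim : Tendsto (fun x : ℝ => -(exp (-π * x ^ 2) / (2 * π * B))) atTop (𝓝 0) := by
    have h1 : Tendsto (fun x : ℝ => exp (-π * x ^ 2)) atTop (𝓝 0) := by
      apply tendsto_exp_atBot.comp
      have h2 : Tendsto (fun x : ℝ => x ^ 2) atTop atTop := tendsto_pow_atTop two_ne_zero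
      exact h2.const_mul_atTop_of_neg (neg_lt_zero.2 pi_pos)
    simpa using (h1.div_const (2 * π * B)).neg
  have hint := integrableOn_Ioi_deriv_of_nonneg' hderiv hpos hlim
  have hval := integral_Ioi_of_hasDerivAt_of_nonneg' hderiv hpos hlim
  calc ∫⁻ x in Set.Ioi B, ENNReal.ofReal (exp (-π * x ^ 2))
      ≤ ∫⁻ x in Set.Ioi B, ENNReal.ofReal (x / B * exp (-π * x ^ 2)) := by
        refine setLIntegral_mono' measurableSet_Ioi fun x hx => ENNReal.ofReal_le_ofReal ?_
        have : 1 ≤ x / B := (one_le_div hB).2 (le_of_lt hx)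
        exact le_mul_of_one_le_left (exp_pos _).le this
    _ = ENNReal.ofReal (exp (-π * B ^ 2) / (2 * π * B)) := by
        rw [← ofReal_integral_eq_lintegral_ofReal hint
          ((ae_restrict_iff' measurableSet_Ioi).2 (ae_of_all _ hpos)), hval]
        congr 1; ring

theorem gauss_min_upper {s : ℝ} (hs : 1 ≤ s) :
    ∫⁻ x in Set.Ioi (0 : ℝ), ENNReal.ofReal (min (exp (-π * x ^ 2)) (1 / (π * s) ^ 2))
      ≤ ENNReal.ofReal (1 / (π * s) ^ 2 * (0.6682 + 0.373 * s)) := by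
  have hs0 : 0 < s := by linarith
  have hpi := pi_gt_d4
  have hpi' := pi_lt_d4
  set B : ℝ := 0.855 + 0.373 * (s - 1) with hBdef
  have hB : 0.855 ≤ B := by rw [hBdef]; nlinarith
  have hB0 : 0 < B := by linarith
  have hsplit : Set.Ioi (0 : ℝ) = Set.Ioc 0 B ∪ Set.Ioi B := (Set.Ioc_union_Ioi_eq_Ioi hB0.le).symm
  rw [hsplit, lintegral_union measurableSet_Ioi (Set.Ioc_disjoint_Ioi le_rfl)]
  have h1 : ∫⁻ x in Set.Ioc (0 : ℝ) B, ENNReal.ofReal (min (exp (-π * x ^ 2)) (1 / (π * s) ^ 2))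
      ≤ ENNReal.ofReal (1 / (π * s) ^ 2 * B) := by
    calc _ ≤ ∫⁻ _x in Set.Ioc (0 : ℝ) B, ENNReal.ofReal (1 / (π * s) ^ 2) :=
          lintegral_mono fun x => ENNReal.ofReal_le_ofReal (min_le_right _ _)
      _ = ENNReal.ofReal (1 / (π * s) ^ 2 * B) := by
          rw [setLIntegral_const, Real.volume_Ioc, ← ENNReal.ofReal_mul (by positivity)]
          simp
  have h2 : ∫⁻ x in Set.Ioi B, ENNReal.ofReal (min (exp (-π * x ^ 2)) (1 / (π * s) ^ 2))
      ≤ ENNReal.ofReal (1 / (π * s) ^ 2 * 0.1862) := by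
    refine (lintegral_mono fun x => ENNReal.ofReal_le_ofReal (min_le_left _ _)).trans
      ((gauss_tail hB0).trans (ENNReal.ofReal_le_ofReal ?_))
    have h3 : exp (-π * B ^ 2) ≤ 1 / (π * s) ^ 2 := by
      have h4 : 2.2965 + 2 * (s - 1) ≤ π * B ^ 2 := by
        rw [hBdef]
        nlinarith [mul_nonneg (by linarith : (0 : ℝ) ≤ s - 1) pi_pos.le,
          mul_nonneg (sq_nonneg (s - 1)) pi_pos.le]
      have h5 : (π * s) ^ 2 ≤ exp (2.2965 + 2 * (s - 1)) := by
        have e1 : exp (2.2965 + 2 * (s - 1)) = exp 1 ^ 2 * exp 0.2965 * exp (s - 1) ^ 2 := by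
          rw [← exp_nat_mul, ← exp_nat_mul, ← exp_add, ← exp_add]
          congr 1; push_cast; ring
        have e2 : s ≤ exp (s - 1) := by have := add_one_le_exp (s - 1); linarith
        have e3 : (2.7182818283 : ℝ) < exp 1 := exp_one_gt_d9
        have e4 : (1.3404 : ℝ) ≤ exp 0.2965 := by
          have := quadratic_le_exp_of_nonneg (x := 0.2965) (by norm_num)
          norm_num at this ⊢
          linarith
        have e5 : (9.9 : ℝ) ≤ exp 1 ^ 2 * exp 0.2965 := by
          have e6 : (7.389 : ℝ) ≤ exp 1 ^ 2 := by nlinarith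
          nlinarith
        have e6 : π ^ 2 ≤ 9.9 := by nlinarith
        rw [e1, mul_pow]
        have e7 : s ^ 2 ≤ exp (s - 1) ^ 2 := pow_le_pow_left₀ hs0.le e2 2
        exact mul_le_mul (e6.trans e5) e7 (sq_nonneg _) (by positivity)
      rw [neg_mul, exp_neg, ← one_div]
      exact one_div_le_one_div_of_le (by positivity) (h5.trans (exp_le_exp.2 h4))
    rw [div_le_iff₀ (by positivity)]
    have h4 : 1 ≤ 0.1862 * (2 * π * B) := by nlinarith
    have h5 : 0 ≤ 1 / (π * s) ^ 2 := by positivity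
    nlinarith
  refine (add_le_add h1 h2).trans ?_
  rw [← ENNReal.ofReal_add (by positivity) (by positivity)]
  apply ENNReal.ofReal_le_ofReal
  rw [← mul_add]
  refine mul_le_mul_of_nonneg_left ?_ (by positivity)
  rw [hBdef]; linarith

theorem min_compare {s : ℝ} (hs : 1 ≤ s) :
    ∫⁻ x : ℝ, ENNReal.ofReal (min (exp (-π * x ^ 2)) (1 / (π * s) ^ 2))
      ≤ ∫⁻ x : ℝ, ENNReal.ofReal (min (sinc (π * x) ^ 2) (1 / (π * s) ^ 2)) := by
  rw [lintegral_even (fun x => by simp), lintegral_even (fun x => by simp)]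
  refine mul_le_mul_right ?_ _
  refine (gauss_min_upper hs).trans ?_
  obtain ⟨N, hN⟩ := mA_num hs
  have hc := mA_continuous s
  have hs0 : 0 < s := by linarith
  have hN0 : (0 : ℝ) ≤ (N : ℝ) + 1 := by positivity
  calc ENNReal.ofReal (1 / (π * s) ^ 2 * (0.6682 + 0.373 * s))
      ≤ ENNReal.ofReal (∫ x in (0 : ℝ)..((N : ℝ) + 1), mA s x) :=
        ENNReal.ofReal_le_ofReal ((mul_le_mul_of_nonneg_left hN (by positivity)).trans
          (mA_int_lower hs N))
    _ = ∫⁻ x in Set.Ioc (0 : ℝ) ((N : ℝ) + 1), ENNReal.ofReal (mA s x) := by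
        rw [intervalIntegral.integral_of_le hN0, ofReal_integral_eq_lintegral_ofReal
          (hc.intervalIntegrable _ _).1]
        refine ae_of_all _ fun x => ?_
        exact le_min (sq_nonneg _) (by positivity)
    _ ≤ ∫⁻ x in Set.Ioi (0 : ℝ), ENNReal.ofReal (mA s x) :=
        lintegral_mono_set Set.Ioc_subset_Ioi_self

theorem lintegral_gauss_rpow {q : ℝ} (hq : 0 < q) :
    ∫⁻ x : ℝ, ENNReal.ofReal (exp (-π * x ^ 2) ^ q) = ENNReal.ofReal (√(1 / q)) := by
  have h1 : ∀ x : ℝ, exp (-π * x ^ 2) ^ q = exp (-(π * q) * x ^ 2) := by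
    intro x
    rw [← exp_mul]; congr 1; ring
  simp_rw [h1]
  rw [← ofReal_integral_eq_lintegral_ofReal (integrable_exp_neg_mul_sq (by positivity))
    (ae_of_all _ fun x => (exp_pos _).le), integral_gaussian]
  congr 2
  have := pi_ne_zero
  field_simp

theorem lintegral_gauss : ∫⁻ x : ℝ, ENNReal.ofReal (exp (-π * x ^ 2)) = 1 := by
  have h1 := lintegral_gauss_rpow (q := 1) one_pos
  simpa using h1

theorem pos_part_compare {a : ℝ} (ha : 0 < a) :
    ∫⁻ x : ℝ, ENNReal.ofReal (sinc (π * x) ^ 2 - a)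
      ≤ ∫⁻ x : ℝ, ENNReal.ofReal (exp (-π * x ^ 2) - a) := by
  rcases le_or_gt (1 / π ^ 2) a with h | h
  · refine lintegral_mono fun x => ?_
    rcases lt_or_ge |x| 1 with hx | hx
    · exact ENNReal.ofReal_le_ofReal (sub_le_sub_right (sinc_sq_le_gauss hx) _)
    · have hx0 : x ≠ 0 := by
        intro h0; rw [h0, abs_zero] at hx; linarith
      have h1 : sinc (π * x) ^ 2 ≤ a := by
        refine le_trans ?_ h
        rw [sinc_sq_eq x hx0]
        have h2 : 1 ≤ x ^ 2 := by rw [← sq_abs]; nlinarith [abs_nonneg x]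
        rw [div_le_div_iff₀ (by positivity) (by positivity), one_mul, mul_pow]
        nlinarith [sin_sq_le_one (π * x), sq_nonneg (sin (π * x)), sq_nonneg π]
      rw [ENNReal.ofReal_of_nonpos (by linarith)]
      exact zero_le
  · -- `a = 1 / (π s) ^ 2`
    obtain ⟨s, hs1, hs2⟩ : ∃ s : ℝ, 1 ≤ s ∧ a = 1 / (π * s) ^ 2 := by
      refine ⟨1 / (π * √a), ?_, ?_⟩
      · rw [le_div_iff₀ (by positivity), one_mul]
        have h1 : (π * √a) ^ 2 ≤ 1 := by
          rw [mul_pow, sq_sqrt ha.le]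
          rw [lt_div_iff₀ (by positivity)] at h
          linarith
        exact (sq_le_one_iff₀ (by positivity)).1 h1
      · have h1 : π * (1 / (π * √a)) = 1 / √a := by
          have := pi_ne_zero
          field_simp
        rw [h1, div_pow, one_pow, sq_sqrt ha.le, one_div_one_div]
    have hmin := min_compare hs1
    rw [← hs2] at hmin
    have hsplit : ∀ f : ℝ → ℝ, Continuous f → (∀ x, 0 ≤ f x) →
        ∫⁻ x : ℝ, ENNReal.ofReal (f x) = (∫⁻ x : ℝ, ENNReal.ofReal (f x - a))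
          + ∫⁻ x : ℝ, ENNReal.ofReal (min (f x) a) := by
      intro f hf hf0
      rw [← lintegral_add_left (by fun_prop)]
      refine lintegral_congr fun x => ?_
      rcases le_total (f x) a with h1 | h1
      · rw [min_eq_left h1, ENNReal.ofReal_of_nonpos (by linarith : f x - a ≤ 0), zero_add]
      · rw [min_eq_right h1, ← ENNReal.ofReal_add (by linarith) ha.le]
        congr 1; ring
    have h1 := hsplit (fun x => sinc (π * x) ^ 2) (by fun_prop) (fun x => sq_nonneg _)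
    have h2 := hsplit (fun x => exp (-π * x ^ 2)) (by fun_prop) (fun x => (exp_pos _).le)
    have h3 : (∫⁻ x : ℝ, ENNReal.ofReal (sinc (π * x) ^ 2 - a))
        + ∫⁻ x : ℝ, ENNReal.ofReal (min (sinc (π * x) ^ 2) a)
        ≤ (∫⁻ x : ℝ, ENNReal.ofReal (exp (-π * x ^ 2) - a))
          + ∫⁻ x : ℝ, ENNReal.ofReal (min (sinc (π * x) ^ 2) a) := by
      rw [← h1]
      refine lintegral_sinc_sq_le.trans ?_
      rw [← lintegral_gauss, h2]
      exact add_le_add le_rfl hmin
    have hfin : ∫⁻ x : ℝ, ENNReal.ofReal (min (sinc (π * x) ^ 2) a) ≠ ⊤ := by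
      refine ne_top_of_le_ne_top ENNReal.one_ne_top (le_trans ?_ lintegral_sinc_sq_le)
      exact lintegral_mono fun x => ENNReal.ofReal_le_ofReal (min_le_left _ _)
    exact (ENNReal.add_le_add_iff_right hfin).1 h3

theorem lintegral_layer {q : ℝ} (hq : 1 < q) {f : ℝ → ℝ} (hf : Continuous f) (hf0 : ∀ x, 0 ≤ f x) :
    ∫⁻ x : ℝ, ENNReal.ofReal (f x ^ q)
      = ∫⁻ a in Set.Ioi (0 : ℝ), ENNReal.ofReal (q * (q - 1) * a ^ (q - 2)) *
          ∫⁻ x : ℝ, ENNReal.ofReal (f x - a) := by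
  have h1 : ∀ x : ℝ, ENNReal.ofReal (f x ^ q) = ∫⁻ a in Set.Ioi (0 : ℝ),
      ENNReal.ofReal (q * (q - 1) * a ^ (q - 2)) * ENNReal.ofReal (f x - a) :=
    fun x => (layer_rpow hq (hf0 x)).symm
  simp_rw [h1]
  rw [lintegral_lintegral_swap]
  · refine lintegral_congr fun a => ?_
    rw [lintegral_const_mul]
    fun_prop
  · apply Measurable.aemeasurable
    fun_prop

/-- **Ball's integral inequality.** -/
theorem ball_int {p : ℝ} (hp : 2 ≤ p) :
    ∫⁻ t : ℝ, ENNReal.ofReal (|sinc (π * t)| ^ p) ≤ ENNReal.ofReal (√(2 / p)) := by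
  have h1 : ∀ t : ℝ, |sinc (π * t)| ^ p = (sinc (π * t) ^ 2) ^ (p / 2) := by
    intro t
    rw [← sq_abs, ← rpow_natCast, ← rpow_mul (abs_nonneg _)]
    congr 1; push_cast; ring
  simp_rw [h1]
  have h2 : √(2 / p) = √(1 / (p / 2)) := by congr 1; field_simp
  rw [h2, ← lintegral_gauss_rpow (by linarith : 0 < p / 2)]
  rcases hp.eq_or_lt with rfl | hp
  · have h3 : ∀ y : ℝ, y ^ ((2 : ℝ) / 2) = y := fun y => by norm_num
    simp_rw [h3, lintegral_gauss]
    exact lintegral_sinc_sq_le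
  · rw [lintegral_layer (by linarith : 1 < p / 2) (by fun_prop) (fun x => sq_nonneg _),
      lintegral_layer (by linarith : 1 < p / 2) (by fun_prop) (fun x => (exp_pos _).le)]
    exact setLIntegral_mono' measurableSet_Ioi fun a ha =>
      mul_le_mul_right (pos_part_compare ha) _

end Pool.Agent.Work.MP_6cd513_gt
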