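import Mathlib

/-!
# `∫ sinc (π t) ^ 2 dt ≤ 1`
-/

open Finset MeasureTheory Real

namespace Pool.Agent.Work.MP_6cd513_gt

/-- the duplication identity for `1 / sin ^ 2` -/
theorem inv_sin_sq_dup (y : ℝ) (hy : sin y ≠ 0) :
    1 / sin (y / 2) ^ 2 + 1 / sin ((y + π) / 2) ^ 2 = 4 / sin y ^ 2 := by
  have h1 : sin y = 2 * sin (y / 2) * cos (y / 2) := by
    rw [← sin_two_mul]; congr 1; ring
  have h2 : sin ((y + π) / 2) = cos (y / 2) := by
    rw [← sin_add_pi_div_two]; congr 1; ring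
  rw [h2]
  rw [h1] at hy ⊢
  have h3 : sin (y / 2) ≠ 0 := fun h => hy (by rw [h]; ring)
  have h4 : cos (y / 2) ≠ 0 := fun h => hy (by rw [h]; ring)
  have h5 := sin_sq_add_cos_sq (y / 2)
  field_simp
  linarith

theorem sum_inv_sin_sq (j : ℕ) (x : ℝ) (hx : sin x ≠ 0) :
    ∑ m ∈ range (2 ^ j), 1 / sin ((x + m * π) / 2 ^ j) ^ 2 = 4 ^ j / sin x ^ 2 := by
  induction j with
  | zero => simp
  | succ j ih =>
    have hne : ∀ m : ℕ, ∀ i : ℕ, sin ((x + m * π) / 2 ^ i) ≠ 0 := by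
      intro m i
      have h1 : ∀ i : ℕ, sin ((x + m * π) / 2 ^ i) = 0 → sin (x + m * π) = 0 := by
        intro i
        induction i with
        | zero => simp
        | succ i ih =>
          intro h
          apply ih
          have h2 : (x + m * π) / 2 ^ i = 2 * ((x + m * π) / 2 ^ (i + 1)) := by
            rw [pow_succ]; field_simp
          rw [h2, sin_two_mul, h]; ring
      intro h
      have h3 := h1 i h
      rw [sin_add_nat_mul_pi] at h3
      rcases mul_eq_zero.1 h3 with h4 | h4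
      · exact absurd h4 (pow_ne_zero _ (by norm_num))
      · exact hx h4
    have h1 : (4 : ℝ) ^ (j + 1) / sin x ^ 2
        = ∑ m ∈ range (2 ^ j), 4 / sin ((x + m * π) / 2 ^ j) ^ 2 := by
      have h2 : ∑ m ∈ range (2 ^ j), 4 / sin ((x + m * π) / 2 ^ j) ^ 2
          = 4 * ∑ m ∈ range (2 ^ j), 1 / sin ((x + m * π) / 2 ^ j) ^ 2 := by
        rw [Finset.mul_sum]
        refine Finset.sum_congr rfl fun m _ => by ring
      rw [h2, ih]; ring
    rw [h1]
    have h3 : (2 : ℕ) ^ (j + 1) = 2 ^ j + 2 ^ j := by ring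
    rw [h3, Finset.sum_range_add, ← Finset.sum_add_distrib]
    refine Finset.sum_congr rfl fun m _ => ?_
    rw [← inv_sin_sq_dup _ (hne m j)]
    have e1 : (x + (m : ℝ) * π) / 2 ^ (j + 1) = (x + m * π) / 2 ^ j / 2 := by
      rw [pow_succ]; field_simp
    have e2 : (x + ((2 ^ j + m : ℕ) : ℝ) * π) / 2 ^ (j + 1) = ((x + m * π) / 2 ^ j + π) / 2 := by
      push_cast
      rw [pow_succ]; field_simp; ring
    rw [e1, e2]

theorem sum_inv_sq_le (j : ℕ) (x : ℝ) (hx : sin (π * x) ≠ 0) :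
    ∑ m ∈ range (2 ^ (j + 1)), 1 / (π * (x + (m - 2 ^ j))) ^ 2 ≤ 1 / sin (π * x) ^ 2 := by
  have hper : ∀ i : ℕ, sin (π * x - i * π) ^ 2 = sin (π * x) ^ 2 := by
    intro i
    rw [sin_sub_nat_mul_pi, mul_pow, ← pow_mul, mul_comm i 2, pow_mul]
    norm_num
  have h0 : sin (π * x - (2 ^ j : ℕ) * π) ≠ 0 := by
    intro h
    have := hper (2 ^ j)
    rw [h] at this
    exact hx (pow_eq_zero_iff (n := 2) two_ne_zero |>.1 (by rw [← this]; norm_num))
  have h1 := sum_inv_sin_sq (j + 1) _ h0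
  rw [hper] at h1
  have h2 : ∑ m ∈ range (2 ^ (j + 1)), 1 / (π * (x + (m - 2 ^ j))) ^ 2
      ≤ ∑ m ∈ range (2 ^ (j + 1)), (1 / 4 ^ (j + 1)) *
        (1 / sin ((π * x - (2 ^ j : ℕ) * π + m * π) / 2 ^ (j + 1)) ^ 2) := by
    refine Finset.sum_le_sum fun m _ => ?_
    set t := (π * x - (2 ^ j : ℕ) * π + m * π) / 2 ^ (j + 1) with ht
    have h3 : π * (x + (m - 2 ^ j)) = 2 ^ (j + 1) * t := by
      rw [ht]; push_cast; field_simp; ring
    have h4 : sin t ≠ 0 := by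
      intro h
      have h5 : ∀ i : ℕ, sin (2 ^ i * t) = 0 := by
        intro i
        induction i with
        | zero => simpa using h
        | succ i ih =>
          have : (2 : ℝ) ^ (i + 1) * t = 2 * (2 ^ i * t) := by ring
          rw [this, sin_two_mul, ih]; ring
      have h6 := h5 (j + 1)
      have h7 : 2 ^ (j + 1) * t = π * x - (2 ^ j : ℕ) * π + m * π := by
        rw [ht]; field_simp
      rw [h7, sin_add_nat_mul_pi] at h6
      rcases mul_eq_zero.1 h6 with h8 | h8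
      · exact absurd h8 (pow_ne_zero _ (by norm_num))
      · exact h0 h8
    have h5 : 0 < sin t ^ 2 := by positivity
    have h6 : sin t ^ 2 ≤ t ^ 2 := sin_sq_le_sq
    have h7 : (2 : ℝ) ^ (j + 1) * 2 ^ (j + 1) = 4 ^ (j + 1) := by
      rw [← mul_pow]; norm_num
    have h8 : (2 ^ (j + 1) * t) ^ 2 = 4 ^ (j + 1) * t ^ 2 := by rw [mul_pow, ← h7]; ring
    rw [h3, h8, one_div_mul_one_div]
    exact one_div_le_one_div_of_le (by positivity) (mul_le_mul_of_nonneg_left h6 (by positivity))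
  refine h2.trans ?_
  rw [← Finset.mul_sum, h1]
  rw [one_div_mul_eq_div, div_div, mul_comm (sin (π * x) ^ 2), ← div_div,
    div_self (by positivity)]

theorem sinc_sq_eq (x : ℝ) (hx : x ≠ 0) : sinc (π * x) ^ 2 = sin (π * x) ^ 2 / (π * x) ^ 2 := by
  rw [sinc_of_ne_zero (mul_ne_zero pi_ne_zero hx), div_pow]

theorem intervalIntegral_sinc_sq_le (j : ℕ) :
    ∫ t in (-(2 ^ j : ℝ))..(2 ^ j : ℝ), sinc (π * t) ^ 2 ≤ 1 := by
  have hc : Continuous fun t : ℝ => sinc (π * t) ^ 2 := by fun_prop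
  have h1 : ∑ m ∈ range (2 ^ (j + 1)), ∫ t in ((m : ℝ) - 2 ^ j)..(((m + 1 : ℕ) : ℝ) - 2 ^ j),
      sinc (π * t) ^ 2 = ∫ t in (((0 : ℕ) : ℝ) - 2 ^ j)..(((2 ^ (j + 1) : ℕ) : ℝ) - 2 ^ j),
        sinc (π * t) ^ 2 :=
    intervalIntegral.sum_integral_adjacent_intervals (a := fun m : ℕ => (m : ℝ) - 2 ^ j)
      fun m _ => hc.intervalIntegrable _ _
  have h2 : ((2 ^ (j + 1) : ℕ) : ℝ) - 2 ^ j = 2 ^ j := by push_cast; ring
  have h3 : ((0 : ℕ) : ℝ) - 2 ^ j = -2 ^ j := by simp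
  rw [h2, h3] at h1
  rw [← h1]
  have h4 : ∀ m : ℕ, ∫ t in ((m : ℝ) - 2 ^ j)..(((m + 1 : ℕ) : ℝ) - 2 ^ j), sinc (π * t) ^ 2
      = ∫ t in (0 : ℝ)..1, sinc (π * (t + ((m : ℝ) - 2 ^ j))) ^ 2 := by
    intro m
    rw [intervalIntegral.integral_comp_add_right (fun t => sinc (π * t) ^ 2) ((m : ℝ) - 2 ^ j)]
    congr 1
    · ring
    · push_cast; ring
  simp_rw [h4]
  rw [← intervalIntegral.integral_finsetSum]
  · have h5 : ∫ t in (0 : ℝ)..1, ∑ m ∈ range (2 ^ (j + 1)), sinc (π * (t + ((m : ℝ) - 2 ^ j))) ^ 2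
        ≤ ∫ _t in (0 : ℝ)..1, (1 : ℝ) := by
      refine intervalIntegral.integral_mono_on_of_le_Ioo zero_le_one ?_ ?_ ?_
      · exact (continuous_finsetSum _ fun m _ => by fun_prop).intervalIntegrable _ _
      · exact continuous_const.intervalIntegrable _ _
      · intro t ht
        have hs : 0 < sin (π * t) := sin_pos_of_pos_of_lt_pi (mul_pos pi_pos ht.1)
          (by nlinarith [pi_pos, ht.2])
        have h6 := sum_inv_sq_le j t hs.ne'
        have h7 : ∀ m ∈ range (2 ^ (j + 1)), sinc (π * (t + ((m : ℝ) - 2 ^ j))) ^ 2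
            = sin (π * t) ^ 2 * (1 / (π * (t + (m - 2 ^ j))) ^ 2) := by
          intro m _
          have h8 : sin (π * (t + ((m : ℝ) - 2 ^ j))) ^ 2 = sin (π * t) ^ 2 := by
            have : π * (t + ((m : ℝ) - 2 ^ j)) = π * t + (m : ℕ) * π - (2 ^ j : ℕ) * π := by
              push_cast; ring
            rw [this, sin_sub_nat_mul_pi, sin_add_nat_mul_pi, mul_pow, mul_pow, ← pow_mul,
              ← pow_mul, mul_comm _ 2, mul_comm _ 2, pow_mul, pow_mul]
            norm_num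
          have h9 : t + ((m : ℝ) - 2 ^ j) ≠ 0 := by
            intro h
            rw [h] at h8
            simp only [mul_zero, sin_zero] at h8
            have h10 : (0 : ℝ) < sin (π * t) ^ 2 := by positivity
            rw [← h8] at h10
            norm_num at h10
          rw [sinc_sq_eq _ h9, h8]; ring
        rw [Finset.sum_congr rfl h7, ← Finset.mul_sum]
        calc _ ≤ sin (π * t) ^ 2 * (1 / sin (π * t) ^ 2) :=
              mul_le_mul_of_nonneg_left h6 (by positivity)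
          _ = 1 := by field_simp
    simpa using h5
  · intro m _
    exact (by fun_prop : Continuous fun t : ℝ => sinc (π * (t + ((m : ℝ) - 2 ^ j))) ^ 2).intervalIntegrable _ _

theorem lintegral_sinc_sq_le : ∫⁻ t : ℝ, ENNReal.ofReal (sinc (π * t) ^ 2) ≤ 1 := by
  have hc : Continuous fun t : ℝ => sinc (π * t) ^ 2 := by fun_prop
  have h1 : ∀ j : ℕ, ∫⁻ t in Set.Ioc (-(2 ^ j : ℝ)) (2 ^ j), ENNReal.ofReal (sinc (π * t) ^ 2) ≤ 1 := by
    intro j
    have h2 : (-(2 ^ j : ℝ)) ≤ 2 ^ j := by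
      have : (0 : ℝ) < 2 ^ j := by positivity
      linarith
    have h3 : IntegrableOn (fun t : ℝ => sinc (π * t) ^ 2) (Set.Ioc (-(2 ^ j : ℝ)) (2 ^ j)) :=
      (hc.intervalIntegrable _ _).1
    rw [← ofReal_integral_eq_lintegral_ofReal h3 (ae_of_all _ fun t => sq_nonneg _),
      ← intervalIntegral.integral_of_le h2]
    exact (ENNReal.ofReal_le_ofReal (intervalIntegral_sinc_sq_le j)).trans (by simp)
  have hmono : Monotone fun j : ℕ => Set.Ioc (-(2 ^ j : ℝ)) (2 ^ j) := by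
    intro i j hij
    have : (2 : ℝ) ^ i ≤ 2 ^ j := pow_le_pow_right₀ (by norm_num) hij
    exact Set.Ioc_subset_Ioc (by linarith) this
  have huniv : (⋃ j : ℕ, Set.Ioc (-(2 ^ j : ℝ)) (2 ^ j)) = Set.univ := by
    rw [Set.eq_univ_iff_forall]
    intro x
    obtain ⟨j, hj⟩ := pow_unbounded_of_one_lt |x| (by norm_num : (1 : ℝ) < 2)
    rw [Set.mem_iUnion]
    exact ⟨j, by have := (abs_lt.1 hj).1; linarith, (abs_lt.1 hj).2.le⟩
  have h2 : ∫⁻ t : ℝ, ENNReal.ofReal (sinc (π * t) ^ 2)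
      = ⨆ j : ℕ, ∫⁻ t in Set.Ioc (-(2 ^ j : ℝ)) (2 ^ j), ENNReal.ofReal (sinc (π * t) ^ 2) := by
    rw [← setLIntegral_univ, ← huniv]
    exact setLIntegral_iUnion_of_directed _ (hmono.directed_le)
  rw [h2]
  exact iSup_le h1

end Pool.Agent.Work.MP_6cd513_gt
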