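import Pool.Agent.Work.MP_6cd513_gt.BallIntA

/-!
# Comparison of the level sets of `sinc (π t) ^ 2` and `exp (- π t ^ 2)`
-/

open Finset MeasureTheory Real Filter Topology

namespace Pool.Agent.Work.MP_6cd513_gt

theorem sinc_sq_le_gauss {t : ℝ} (ht : |t| < 1) : sinc (π * t) ^ 2 ≤ exp (-π * t ^ 2) := by
  rcases eq_or_ne t 0 with rfl | h0
  · simp
  have ht2 : t ^ 2 < 1 := by rw [← sq_abs]; nlinarith [abs_nonneg t]
  set P : ℕ → ℝ := fun n => ∏ j ∈ range n, (1 - t ^ 2 / ((j : ℝ) + 1) ^ 2) with hP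
  have hfac0 : ∀ j : ℕ, 0 ≤ 1 - t ^ 2 / ((j : ℝ) + 1) ^ 2 := by
    intro j
    have : t ^ 2 / ((j : ℝ) + 1) ^ 2 ≤ 1 := by
      rw [div_le_one (by positivity)]
      nlinarith [(Nat.cast_nonneg j : (0 : ℝ) ≤ j)]
    linarith
  have hfac1 : ∀ j : ℕ, 1 - t ^ 2 / ((j : ℝ) + 1) ^ 2 ≤ 1 := by
    intro j
    have : 0 ≤ t ^ 2 / ((j : ℝ) + 1) ^ 2 := by positivity
    linarith
  have hP0 : ∀ n, 0 ≤ P n := fun n => Finset.prod_nonneg fun j _ => hfac0 j
  have hPa : Antitone P := by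
    refine antitone_nat_of_succ_le fun n => ?_
    simp only [hP]
    rw [Finset.prod_range_succ]
    exact mul_le_of_le_one_right (hP0 n) (hfac1 n)
  have hlim : Tendsto P atTop (𝓝 (sinc (π * t))) := by
    have h1 := (tendsto_euler_sin_prod t).const_mul (1 / (π * t))
    rw [sinc_of_ne_zero (mul_ne_zero pi_ne_zero h0)]
    have h2 : (1 / (π * t)) * sin (π * t) = sin (π * t) / (π * t) := by ring
    rw [h2] at h1
    refine h1.congr fun n => ?_
    have h3 : π * t ≠ 0 := mul_ne_zero pi_ne_zero h0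
    simp only [hP]
    rw [← mul_assoc, one_div, inv_mul_cancel₀ h3, one_mul]
  have h1 : 0 ≤ sinc (π * t) := ge_of_tendsto' hlim hP0
  have h2 : sinc (π * t) ≤ P 14 := hPa.le_of_tendsto hlim 14
  have h3 : P 14 ≤ exp (-(1.575 * t ^ 2)) := by
    have h4 : P 14 ≤ ∏ j ∈ range 14, exp (-(t ^ 2 / ((j : ℝ) + 1) ^ 2)) := by
      refine Finset.prod_le_prod (fun j _ => hfac0 j) fun j _ => ?_
      have := add_one_le_exp (-(t ^ 2 / ((j : ℝ) + 1) ^ 2))
      linarith
    refine h4.trans ?_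
    rw [← exp_sum]
    apply exp_le_exp.2
    have h5 : ∑ j ∈ range 14, -(t ^ 2 / ((j : ℝ) + 1) ^ 2)
        = -(t ^ 2 * ∑ j ∈ range 14, 1 / ((j : ℝ) + 1) ^ 2) := by
      rw [Finset.mul_sum, ← Finset.sum_neg_distrib]
      refine Finset.sum_congr rfl fun j _ => by ring
    rw [h5]
    have h6 : (1.575 : ℝ) ≤ ∑ j ∈ range 14, 1 / ((j : ℝ) + 1) ^ 2 := by
      simp only [Finset.sum_range_succ, Finset.sum_range_zero]
      norm_num
    nlinarith [sq_nonneg t]
  calc sinc (π * t) ^ 2 ≤ exp (-(1.575 * t ^ 2)) ^ 2 :=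
        pow_le_pow_left₀ h1 (h2.trans h3) 2
    _ = exp (-(3.15 * t ^ 2)) := by
        rw [← exp_nat_mul]; congr 1; push_cast; ring
    _ ≤ exp (-π * t ^ 2) := by
        apply exp_le_exp.2
        nlinarith [pi_lt_d2, sq_nonneg t]

/-- the layer cake formula for powers -/
theorem layer_rpow {q : ℝ} (hq : 1 < q) {s : ℝ} (hs : 0 ≤ s) :
    ∫⁻ a in Set.Ioi (0 : ℝ), ENNReal.ofReal (q * (q - 1) * a ^ (q - 2)) * ENNReal.ofReal (s - a)
      = ENNReal.ofReal (s ^ q) := by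
  rcases hs.eq_or_lt with rfl | hs
  · rw [zero_rpow (by linarith)]
    rw [ENNReal.ofReal_zero]
    have : ∀ a ∈ Set.Ioi (0 : ℝ), ENNReal.ofReal (q * (q - 1) * a ^ (q - 2)) *
        ENNReal.ofReal (0 - a) = 0 := by
      intro a ha
      rw [ENNReal.ofReal_of_nonpos (by simp only [Set.mem_Ioi] at ha; linarith : (0 : ℝ) - a ≤ 0),
        mul_zero]
    rw [setLIntegral_congr_fun measurableSet_Ioi this]
    simp
  have hsplit : Set.Ioi (0 : ℝ) = Set.Ioc 0 s ∪ Set.Ioi s := (Set.Ioc_union_Ioi_eq_Ioi hs.le).symm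
  rw [hsplit, lintegral_union measurableSet_Ioi (Set.Ioc_disjoint_Ioi le_rfl)]
  have h0 : ∫⁻ a in Set.Ioi s, ENNReal.ofReal (q * (q - 1) * a ^ (q - 2)) * ENNReal.ofReal (s - a)
      = 0 := by
    have : ∀ a ∈ Set.Ioi s, ENNReal.ofReal (q * (q - 1) * a ^ (q - 2)) *
        ENNReal.ofReal (s - a) = 0 := by
      intro a ha
      rw [ENNReal.ofReal_of_nonpos (by simp only [Set.mem_Ioi] at ha; linarith : s - a ≤ 0),
        mul_zero]
    rw [setLIntegral_congr_fun measurableSet_Ioi this]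
    simp
  rw [h0, add_zero]
  have h1 : ∫⁻ a in Set.Ioc 0 s, ENNReal.ofReal (q * (q - 1) * a ^ (q - 2)) *
      ENNReal.ofReal (s - a)
      = ∫⁻ a in Set.Ioc 0 s, ENNReal.ofReal (q * (q - 1) * (s * a ^ (q - 2) - a ^ (q - 1))) := by
    refine setLIntegral_congr_fun measurableSet_Ioc ?_
    intro a ha
    have h2 : a ^ (q - 1) = a ^ (q - 2) * a := by
      rw [← rpow_add_one ha.1.ne']; congr 1; ring
    have h3 : 0 ≤ a ^ (q - 2) := rpow_nonneg ha.1.le _
    simp only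
    rw [← ENNReal.ofReal_mul (mul_nonneg (mul_nonneg (by linarith) (by linarith)) h3), h2]
    congr 1; ring
  have hI1 : IntervalIntegrable (fun a : ℝ => a ^ (q - 2)) volume 0 s :=
    intervalIntegral.intervalIntegrable_rpow' (by linarith)
  have hI2 : IntervalIntegrable (fun a : ℝ => a ^ (q - 1)) volume 0 s :=
    intervalIntegral.intervalIntegrable_rpow' (by linarith)
  have hI : IntervalIntegrable (fun a : ℝ => q * (q - 1) * (s * a ^ (q - 2) - a ^ (q - 1)))
      volume 0 s := ((hI1.const_mul s).sub hI2).const_mul _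
  have hnn : ∀ᵐ a ∂(volume.restrict (Set.Ioc 0 s)),
      0 ≤ q * (q - 1) * (s * a ^ (q - 2) - a ^ (q - 1)) := by
    refine (ae_restrict_iff' measurableSet_Ioc).2 (ae_of_all _ fun a ha => ?_)
    have h2 : a ^ (q - 1) = a ^ (q - 2) * a := by
      rw [← rpow_add_one ha.1.ne']; congr 1; ring
    have h3 : 0 ≤ a ^ (q - 2) := rpow_nonneg ha.1.le _
    rw [h2]
    have : s * a ^ (q - 2) - a ^ (q - 2) * a = a ^ (q - 2) * (s - a) := by ring
    rw [this]
    exact mul_nonneg (mul_nonneg (by linarith) (by linarith)) (mul_nonneg h3 (by linarith [ha.2]))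
  rw [h1, ← ofReal_integral_eq_lintegral_ofReal hI.1 hnn, ← intervalIntegral.integral_of_le hs.le]
  congr 1
  rw [intervalIntegral.integral_const_mul, intervalIntegral.integral_sub (hI1.const_mul s) hI2,
    intervalIntegral.integral_const_mul, integral_rpow (Or.inl (by linarith)),
    integral_rpow (Or.inl (by linarith))]
  have e1 : q - 2 + 1 = q - 1 := by ring
  have e2 : q - 1 + 1 = q := by ring
  rw [e1, e2, zero_rpow (by linarith), zero_rpow (by linarith)]
  have e3 : s ^ q = s * s ^ (q - 1) := by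
    rw [mul_comm, ← rpow_add_one hs.ne']; congr 1; ring
  have hq0 : q ≠ 0 := by linarith
  have hq1 : q - 1 ≠ 0 := by linarith
  rw [e3]
  field_simp
  ring

end Pool.Agent.Work.MP_6cd513_gt
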