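import Pool.Agent.Work.MP_6cd513_gt.BallIntB

/-!
# Lower bound for `∫ min (sinc ^ 2, a)`
-/

open Finset MeasureTheory Real Filter Topology

namespace Pool.Agent.Work.MP_6cd513_gt

theorem integral_sin_pi_sq (a b : ℝ) : ∫ x in a..b, sin (π * x) ^ 2
    = (sin (π * a) * cos (π * a) - sin (π * b) * cos (π * b) + π * b - π * a) / (2 * π) := by
  rw [intervalIntegral.integral_comp_mul_left (fun x => sin x ^ 2) pi_ne_zero, integral_sin_sq]
  rw [smul_eq_mul]
  field_simp

theorem sin_pi_ge_self {x : ℝ} (h0 : 0 ≤ x) (h1 : x ≤ 0.72) : x ≤ sin (π * x) := by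
  rcases le_total x (1 / 2) with h | h
  · have h2 := mul_le_sin (x := π * x) (by positivity) (by nlinarith [pi_pos])
    have h3 : 2 / π * (π * x) = 2 * x := by field_simp
    rw [h3] at h2
    linarith
  · have hpi := pi_gt_d4
    have hpi' := pi_lt_d4
    have h2 : sin (π * x) = sin (π * (1 - x)) := by
      rw [← sin_pi_sub]; congr 1; ring
    have h3 : sin 0.8796 ≤ sin (π * (1 - x)) := by
      apply sin_le_sin_of_le_of_le_pi_div_two
      · linarith
      · nlinarith
      · nlinarith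
    have h4 : (0.72 : ℝ) ≤ sin 0.8796 := by
      have h5 := (abs_le.1 (sin_bound (x := 0.8796) (by rw [abs_of_pos] <;> norm_num))).1
      rw [abs_of_pos (by norm_num : (0 : ℝ) < 0.8796)] at h5
      norm_num at h5 ⊢
      linarith
    rw [h2]
    linarith

/-- `min (sinc ^ 2, a)` with `a = 1 / (π s) ^ 2` -/
noncomputable def mA (s x : ℝ) : ℝ := min (sinc (π * x) ^ 2) (1 / (π * s) ^ 2)

theorem mA_continuous (s : ℝ) : Continuous (mA s) := by
  unfold mA; fun_prop

theorem mA_ge {s x c : ℝ} (hs : 0 < s) (hx : 0 < x) (hc1 : c ≤ 1)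
    (hc2 : c * x ^ 2 ≤ s ^ 2 * sin (π * x) ^ 2) : 1 / (π * s) ^ 2 * c ≤ mA s x := by
  unfold mA
  refine le_min ?_ ?_
  · rw [sinc_sq_eq x hx.ne', mul_pow, mul_pow, div_mul_eq_mul_div, one_mul]
    rw [div_le_div_iff₀ (by positivity) (by positivity)]
    have : 0 < π ^ 2 := by positivity
    nlinarith
  · exact mul_le_of_le_one_right (by positivity) hc1

theorem mA_int_first {s : ℝ} (hs : 1 ≤ s) :
    1 / (π * s) ^ 2 * 0.78 ≤ ∫ x in (0 : ℝ)..1, mA s x := by
  have hs0 : 0 < s := by linarith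
  have hc := mA_continuous s
  rw [← intervalIntegral.integral_add_adjacent_intervals (b := 0.72) (hc.intervalIntegrable _ _)
    (hc.intervalIntegrable _ _)]
  have h1 : 1 / (π * s) ^ 2 * 0.72 ≤ ∫ x in (0 : ℝ)..0.72, mA s x := by
    have h2 : ∫ _x in (0 : ℝ)..0.72, 1 / (π * s) ^ 2 ≤ ∫ x in (0 : ℝ)..0.72, mA s x := by
      refine intervalIntegral.integral_mono_on_of_le_Ioo (by norm_num)
        (continuous_const.intervalIntegrable _ _) (hc.intervalIntegrable _ _) ?_
      intro x hx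
      have h3 := sin_pi_ge_self hx.1.le hx.2.le
      have h4 := mA_ge (s := s) (x := x) (c := 1) hs0 hx.1 le_rfl (by
        have h5 : x ^ 2 ≤ sin (π * x) ^ 2 := pow_le_pow_left₀ hx.1.le h3 2
        have h6 : 1 ≤ s ^ 2 := by nlinarith
        nlinarith [sq_nonneg (sin (π * x))])
      simpa using h4
    refine le_trans (le_of_eq ?_) h2
    rw [intervalIntegral.integral_const, smul_eq_mul]
    ring
  have h2 : 1 / (π * s) ^ 2 * 0.06 ≤ ∫ x in (0.72 : ℝ)..1, mA s x := by
    have h3 : ∫ x in (0.72 : ℝ)..1, 1 / (π * s) ^ 2 * sin (π * x) ^ 2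
        ≤ ∫ x in (0.72 : ℝ)..1, mA s x := by
      refine intervalIntegral.integral_mono_on_of_le_Ioo (by norm_num)
        ((by fun_prop : Continuous fun x : ℝ => 1 / (π * s) ^ 2 * sin (π * x) ^ 2).intervalIntegrable _ _)
        (hc.intervalIntegrable _ _) ?_
      intro x hx
      have hx0 : 0 < x := by linarith [hx.1]
      refine mA_ge hs0 hx0 (sin_sq_le_one _) ?_
      have h6 : 1 ≤ s ^ 2 := by nlinarith
      have h7 : x ^ 2 ≤ 1 := by nlinarith [hx.2]
      nlinarith [sq_nonneg (sin (π * x))]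
    refine le_trans ?_ h3
    rw [intervalIntegral.integral_const_mul, integral_sin_pi_sq]
    refine mul_le_mul_of_nonneg_left ?_ (by positivity)
    rw [mul_one, sin_pi, zero_mul, le_div_iff₀ (by positivity)]
    have h4 : -(1 / 2) ≤ sin (π * 0.72) * cos (π * 0.72) := by
      nlinarith [sin_sq_add_cos_sq (π * 0.72), sq_nonneg (sin (π * 0.72) + cos (π * 0.72))]
    nlinarith [pi_gt_d2]
  have h3 : 1 / (π * s) ^ 2 * 0.78 = 1 / (π * s) ^ 2 * 0.72 + 1 / (π * s) ^ 2 * 0.06 := by ring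
  rw [h3]
  exact add_le_add h1 h2

theorem mA_int_step {s : ℝ} (hs : 1 ≤ s) (j : ℕ) :
    1 / (π * s) ^ 2 * (1 / 2 * min (s ^ 2 / ((j : ℝ) + 2) ^ 2) 1)
      ≤ ∫ x in ((j : ℝ) + 1)..((j : ℝ) + 2), mA s x := by
  have hs0 : 0 < s := by linarith
  have hc := mA_continuous s
  have hj : (0 : ℝ) ≤ j := Nat.cast_nonneg j
  set c := min (s ^ 2 / ((j : ℝ) + 2) ^ 2) 1 with hcdef
  have hc0 : 0 ≤ c := le_min (by positivity) zero_le_one
  have hc1 : c ≤ 1 := min_le_right _ _
  have hc2 : c * ((j : ℝ) + 2) ^ 2 ≤ s ^ 2 := by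
    rw [← le_div_iff₀ (by positivity)]; exact min_le_left _ _
  have h1 : ∫ x in ((j : ℝ) + 1)..((j : ℝ) + 2), 1 / (π * s) ^ 2 * (c * sin (π * x) ^ 2)
      ≤ ∫ x in ((j : ℝ) + 1)..((j : ℝ) + 2), mA s x := by
    refine intervalIntegral.integral_mono_on_of_le_Ioo (by linarith)
      ((by fun_prop : Continuous fun x : ℝ =>
        1 / (π * s) ^ 2 * (c * sin (π * x) ^ 2)).intervalIntegrable _ _)
      (hc.intervalIntegrable _ _) ?_
    intro x hx
    have hx0 : 0 < x := by linarith [hx.1]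
    refine mA_ge hs0 hx0 ?_ ?_
    · exact mul_le_one₀ hc1 (sq_nonneg _) (sin_sq_le_one _)
    · have h2 : x ^ 2 ≤ ((j : ℝ) + 2) ^ 2 := pow_le_pow_left₀ hx0.le hx.2.le 2
      have h3 : c * x ^ 2 ≤ s ^ 2 := (mul_le_mul_of_nonneg_left h2 hc0).trans hc2
      nlinarith [sq_nonneg (sin (π * x))]
  refine le_trans (le_of_eq ?_) h1
  rw [intervalIntegral.integral_const_mul, intervalIntegral.integral_const_mul, integral_sin_pi_sq]
  have e1 : sin (π * ((j : ℝ) + 1)) = 0 := by
    have : π * ((j : ℝ) + 1) = ((j + 1 : ℕ) : ℝ) * π := by push_cast; ring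
    rw [this, sin_nat_mul_pi]
  have e2 : sin (π * ((j : ℝ) + 2)) = 0 := by
    have : π * ((j : ℝ) + 2) = ((j + 2 : ℕ) : ℝ) * π := by push_cast; ring
    rw [this, sin_nat_mul_pi]
  rw [e1, e2]
  have hpi := pi_ne_zero
  field_simp
  ring

theorem mA_int_lower {s : ℝ} (hs : 1 ≤ s) (N : ℕ) :
    1 / (π * s) ^ 2 * (0.78 + 1 / 2 * ∑ j ∈ range N, min (s ^ 2 / ((j : ℝ) + 2) ^ 2) 1)
      ≤ ∫ x in (0 : ℝ)..((N : ℝ) + 1), mA s x := by
  have hc := mA_continuous s
  induction N with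
  | zero => simpa using mA_int_first hs
  | succ N ih =>
    have h1 := mA_int_step hs N
    have h2 : ∫ x in (0 : ℝ)..(((N + 1 : ℕ) : ℝ) + 1), mA s x
        = (∫ x in (0 : ℝ)..((N : ℝ) + 1), mA s x)
          + ∫ x in ((N : ℝ) + 1)..((N : ℝ) + 2), mA s x := by
      rw [intervalIntegral.integral_add_adjacent_intervals (hc.intervalIntegrable _ _)
        (hc.intervalIntegrable _ _)]
      congr 1; push_cast; ring
    rw [h2, Finset.sum_range_succ]
    refine le_trans (le_of_eq ?_) (add_le_add ih h1)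
    ring

/-- the numerical inequality -/
theorem mA_num {s : ℝ} (hs : 1 ≤ s) : ∃ N : ℕ, 0.6682 + 0.373 * s
    ≤ 0.78 + 1 / 2 * ∑ j ∈ range N, min (s ^ 2 / ((j : ℝ) + 2) ^ 2) 1 := by
  have hs0 : 0 < s := by linarith
  have hge : ∀ j : ℕ, (j : ℝ) + 2 ≤ s → min (s ^ 2 / ((j : ℝ) + 2) ^ 2) 1 = 1 := by
    intro j hj
    refine min_eq_right ?_
    rw [one_le_div (by positivity)]
    exact pow_le_pow_left₀ (by positivity) hj 2
  have hle : ∀ j : ℕ, s ≤ (j : ℝ) + 2 → min (s ^ 2 / ((j : ℝ) + 2) ^ 2) 1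
      = s ^ 2 / ((j : ℝ) + 2) ^ 2 := by
    intro j hj
    refine min_eq_left ?_
    rw [div_le_one (by positivity)]
    exact pow_le_pow_left₀ hs0.le hj 2
  rcases le_or_gt s 2 with h2 | h2
  · refine ⟨11, ?_⟩
    have h3 : ∀ j ∈ range 11, min (s ^ 2 / ((j : ℝ) + 2) ^ 2) 1 = s ^ 2 / ((j : ℝ) + 2) ^ 2 :=
      fun j _ => hle j (by linarith [(Nat.cast_nonneg j : (0 : ℝ) ≤ j)])
    rw [Finset.sum_congr rfl h3]
    simp only [Finset.sum_range_succ, Finset.sum_range_zero]
    norm_num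
    nlinarith
  rcases le_or_gt s 3 with h3 | h3
  · refine ⟨3, ?_⟩
    rw [Finset.sum_range_succ, Finset.sum_range_succ, Finset.sum_range_succ, Finset.sum_range_zero,
      hge 0 (by norm_num; linarith), hle 1 (by norm_num; linarith), hle 2 (by norm_num; linarith)]
    norm_num
    nlinarith [sq_nonneg (s - 2.15)]
  rcases le_or_gt s 4 with h4 | h4
  · refine ⟨4, ?_⟩
    rw [Finset.sum_range_succ, Finset.sum_range_succ, Finset.sum_range_succ, Finset.sum_range_succ,
      Finset.sum_range_zero,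
      hge 0 (by norm_num; linarith), hge 1 (by norm_num; linarith), hle 2 (by norm_num; linarith),
      hle 3 (by norm_num; linarith)]
    norm_num
    nlinarith [sq_nonneg (s - 3.64)]
  rcases le_or_gt s 5 with h5 | h5
  · refine ⟨5, ?_⟩
    rw [Finset.sum_range_succ, Finset.sum_range_succ, Finset.sum_range_succ, Finset.sum_range_succ,
      Finset.sum_range_succ, Finset.sum_range_zero,
      hge 0 (by norm_num; linarith), hge 1 (by norm_num; linarith), hge 2 (by norm_num; linarith),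
      hle 3 (by norm_num; linarith), hle 4 (by norm_num; linarith)]
    norm_num
    nlinarith [sq_nonneg (s - 5)]
  rcases le_or_gt s 6 with h6 | h6
  · refine ⟨6, ?_⟩
    rw [Finset.sum_range_succ, Finset.sum_range_succ, Finset.sum_range_succ, Finset.sum_range_succ,
      Finset.sum_range_succ, Finset.sum_range_succ, Finset.sum_range_zero,
      hge 0 (by norm_num; linarith), hge 1 (by norm_num; linarith), hge 2 (by norm_num; linarith),
      hge 3 (by norm_num; linarith), hle 4 (by norm_num; linarith), hle 5 (by norm_num; linarith)]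
    norm_num
    nlinarith [sq_nonneg (s - 6)]
  · obtain ⟨M, hM⟩ : ∃ M : ℕ, M = ⌊s⌋₊ := ⟨_, rfl⟩
    have hM1 : (M : ℝ) ≤ s := by rw [hM]; exact Nat.floor_le hs0.le
    have hM2 : s < M + 1 := by rw [hM]; exact Nat.lt_floor_add_one s
    have hM6 : 6 ≤ M := by
      rw [hM]; exact Nat.le_floor (by exact_mod_cast h6.le)
    refine ⟨M - 1, ?_⟩
    have h7 : ∑ j ∈ range (M - 1), min (s ^ 2 / ((j : ℝ) + 2) ^ 2) 1 = ∑ j ∈ range (M - 1), (1 : ℝ) := by
      refine Finset.sum_congr rfl fun j hj => hge j ?_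
      have h8 : j + 2 ≤ M := by have := Finset.mem_range.1 hj; omega
      have h9 : ((j + 2 : ℕ) : ℝ) ≤ M := by exact_mod_cast h8
      push_cast at h9
      linarith
    rw [h7, Finset.sum_const, Finset.card_range, nsmul_eq_mul, Nat.cast_sub (by omega)]
    have h10 : (6 : ℝ) ≤ M := by exact_mod_cast hM6
    push_cast
    linarith

end Pool.Agent.Work.MP_6cd513_gt
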