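import Pool.Agent.Work.MP_6cd513_gt.Final

/-!
# From frames to sections of the cube
-/

open Matrix Finset MeasureTheory

namespace Pool.Agent.Work.MP_6cd513_gt

theorem section_bound {n k : ℕ} (hG : ∀ v : Fin n → Fin k → ℝ, Gv v ≤ maxVol n k)
    (H : Submodule ℝ (EuclideanSpace ℝ (Fin n))) (hH : Module.finrank ℝ H = k) :
    sectionVolume H (cube n) ≤ ENNReal.ofReal (maxVol n k) := by
  show volume {x : H | ∀ i, |(x : EuclideanSpace ℝ (Fin n)) i| ≤ 1 / 2} ≤ _
  classical
  let b : OrthonormalBasis (Fin k) ℝ H := (stdOrthonormalBasis ℝ H).reindex (finCongr hH)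
  let v : Fin n → Fin k → ℝ := fun i m => (b m : EuclideanSpace ℝ (Fin n)) i
  set S : Set H := {x : H | ∀ i, |(x : EuclideanSpace ℝ (Fin n)) i| ≤ 1 / 2} with hS
  have hSc : IsClosed S := by
    have h1 : S = ⋂ i, {x : H | |(x : EuclideanSpace ℝ (Fin n)) i| ≤ 1 / 2} := by
      ext x; simp [hS]
    rw [h1]
    apply isClosed_iInter
    intro i
    have hc : Continuous fun x : H => (x : EuclideanSpace ℝ (Fin n)) i :=
      (EuclideanSpace.proj i : EuclideanSpace ℝ (Fin n) →L[ℝ] ℝ).continuous.comp
        continuous_subtype_val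
    exact isClosed_le hc.abs continuous_const
  have hmp : MeasurePreserving (fun y : Fin k → ℝ => b.repr.symm (WithLp.toLp 2 y))
      (volume : Measure (Fin k → ℝ)) volume :=
    b.measurePreserving_repr_symm.comp (PiLp.volume_preserving_toLp (Fin k))
  have hpre : (fun y : Fin k → ℝ => b.repr.symm (WithLp.toLp 2 y)) ⁻¹' S = bodyK v := by
    ext y
    have h1 : ∀ i, ((b.repr.symm (WithLp.toLp 2 y) : H) : EuclideanSpace ℝ (Fin n)) i
        = v i ⬝ᵥ y := by
      intro i
      rw [← b.sum_repr_symm]
      simp only [Submodule.coe_sum, Submodule.coe_smul, v, dotProduct]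
      rw [WithLp.ofLp_sum, Finset.sum_apply]
      refine Finset.sum_congr rfl fun m _ => ?_
      simp [mul_comm]
    simp only [hS, Set.mem_preimage, Set.mem_ofPred_eq, bodyK, h1]
  have hvol : volume S = volume (bodyK v) := by
    rw [← hmp.measure_preimage hSc.measurableSet.nullMeasurableSet, hpre]
  have hgram : gramM v = 1 := by
    ext p q
    rw [gramM_apply]
    have h1 := (orthonormal_iff_ite.1 b.orthonormal) q p
    rw [Submodule.coe_inner, EuclideanSpace.inner_eq_star_dotProduct] at h1
    rw [Matrix.one_apply]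
    simp only [star_trivial, dotProduct] at h1
    simp only [v]
    rw [h1]
    simp only [eq_comm]
  have h1 := hG v
  rw [Gv_tight hgram] at h1
  rw [hvol]
  exact (ENNReal.le_ofReal_iff_toReal_le (bodyK_tight_finite hgram) (Real.sqrt_nonneg _)).2 h1

end Pool.Agent.Work.MP_6cd513_gt
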