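import Mathlib

/-!
# Definitions for the statement on sections of the cube
-/

open MeasureTheory

namespace Pool.Agent.Work.MP_6cd513_gt

/-- The volume of the section of `Q` by the linear subspace `H` of a finite-dimensional Euclidean
space `E`: the Lebesgue measure of `H` (with its induced Euclidean structure) of `Q ∩ H`. -/
noncomputable def sectionVolume {E : Type} [NormedAddCommGroup E] [InnerProductSpace ℝ E]
    [FiniteDimensional ℝ E] [MeasurableSpace E] [BorelSpace E] (H : Submodule ℝ E) (Q : Set E) :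
    ENNReal :=
  volume {x : H | (x : E) ∈ Q}

/-- the centred unit cube `Q_n` -/
def cube (n : ℕ) : Set (EuclideanSpace ℝ (Fin n)) := {x | ∀ i, |x i| ≤ 1 / 2}

/-- the conjectured maximal volume `V(n,k) = ℓ^((k-r)/2) (ℓ+1)^(r/2)`, `ℓ = n / k`, `r = n % k` -/
noncomputable def maxVol (n k : ℕ) : ℝ :=
  Real.sqrt (((n / k : ℕ) : ℝ) ^ (k - n % k) * (((n / k : ℕ) : ℝ) + 1) ^ (n % k))

end Pool.Agent.Work.MP_6cd513_gt
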