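import Pool.Agent.Work.MP_6cd513_gt.Transport

/-!
# Two-dimensional Gaussian expectations
-/

open MeasureTheory ProbabilityTheory Matrix Finset
open scoped ENNReal NNReal

namespace Pool.Agent.Work.MP_6cd513_gt

variable {k : ℕ}

theorem charFunDual_std (L : StrongDual ℝ ℝ) :
    charFunDual (gaussianReal 0 1) L = Complex.exp (-((L 1 : ℝ) : ℂ) ^ 2 / 2) := by
  have h1 : charFunDual (gaussianReal 0 1) L = charFun (gaussianReal 0 1) (L 1) := by
    rw [charFunDual_apply, charFun_apply_real]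
    refine integral_congr_ae (Filter.Eventually.of_forall fun x => ?_)
    have : L x = L 1 * x := by
      have h := L.map_smul x 1
      rw [smul_eq_mul, mul_one, smul_eq_mul] at h
      rw [h, mul_comm]
    simp only [this]
    push_cast
    ring_nf
  rw [h1, charFun_gaussianReal]
  congr 1
  simp
  ring

/-- the joint law of two coordinates -/
theorem law_pair {u v : Fin k → ℝ} (hu : u ⬝ᵥ u = 1) (hv : v ⬝ᵥ v = 1) {s c : ℝ}
    (hs : u ⬝ᵥ v = s) (hc : c ^ 2 = 1 - s ^ 2) :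
    (gk k).map (fun z => (u ⬝ᵥ z, v ⬝ᵥ z))
      = ((gaussianReal 0 1).prod (gaussianReal 0 1)).map (fun p => (p.1, s * p.1 + c * p.2)) := by
  let T1 : (Fin k → ℝ) →L[ℝ] ℝ × ℝ := (dotL u).prod (dotL v)
  let T2 : ℝ × ℝ →L[ℝ] ℝ × ℝ := (ContinuousLinearMap.fst ℝ ℝ ℝ).prod
    (s • ContinuousLinearMap.fst ℝ ℝ ℝ + c • ContinuousLinearMap.snd ℝ ℝ ℝ)
  have e1 : (fun z : Fin k → ℝ => (u ⬝ᵥ z, v ⬝ᵥ z)) = T1 := by
    ext z <;> simp [T1]
  have e2 : (fun p : ℝ × ℝ => (p.1, s * p.1 + c * p.2)) = T2 := by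
    ext z <;> simp [T2]
  rw [e1, e2]
  have : IsProbabilityMeasure ((gk k).map T1) :=
    Measure.isProbabilityMeasure_map T1.continuous.measurable.aemeasurable
  have : IsProbabilityMeasure (((gaussianReal 0 1).prod (gaussianReal 0 1)).map T2) :=
    Measure.isProbabilityMeasure_map T2.continuous.measurable.aemeasurable
  apply Measure.ext_of_charFunDual
  ext L
  rw [charFunDual_map, charFunDual_map, charFunDual_prod, gk, charFunDual_pi]
  simp_rw [charFunDual_std]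
  set a := L (1, 0) with ha
  set b := L (0, 1) with hb
  have hL : ∀ x y : ℝ, L (x, y) = a * x + b * y := by
    intro x y
    have h1 : (x, y) = x • ((1 : ℝ), (0 : ℝ)) + y • ((0 : ℝ), (1 : ℝ)) := by
      simp
    rw [h1, map_add, map_smul, map_smul, smul_eq_mul, smul_eq_mul]
    ring
  have h1 : ∀ i, ((L.comp T1).comp (ContinuousLinearMap.single ℝ (fun _ : Fin k => ℝ) i)) 1
      = a * u i + b * v i := by
    intro i
    simp only [ContinuousLinearMap.comp_apply]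
    have : T1 ((ContinuousLinearMap.single ℝ (fun _ : Fin k => ℝ) i) 1) = (u i, v i) := by
      simp [T1]
    rw [this, hL]
  have h2 : ((L.comp T2).comp (ContinuousLinearMap.inl ℝ ℝ ℝ)) 1 = a + b * s := by
    simp only [ContinuousLinearMap.comp_apply]
    have : T2 ((ContinuousLinearMap.inl ℝ ℝ ℝ) 1) = (1, s) := by simp [T2]
    rw [this, hL]
    ring
  have h3 : ((L.comp T2).comp (ContinuousLinearMap.inr ℝ ℝ ℝ)) 1 = b * c := by
    simp only [ContinuousLinearMap.comp_apply]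
    have : T2 ((ContinuousLinearMap.inr ℝ ℝ ℝ) 1) = (0, c) := by simp [T2]
    rw [this, hL]
    ring
  rw [h2, h3]
  simp_rw [h1]
  rw [← Complex.exp_sum, ← Complex.exp_add]
  congr 1
  have h4 : ∑ i, (a * u i + b * v i) ^ 2 = a ^ 2 + 2 * a * b * s + b ^ 2 := by
    have e : ∑ i, (a * u i + b * v i) ^ 2 = a ^ 2 * (u ⬝ᵥ u) + 2 * a * b * (u ⬝ᵥ v)
        + b ^ 2 * (v ⬝ᵥ v) := by
      simp only [dotProduct]
      rw [Finset.mul_sum, Finset.mul_sum, Finset.mul_sum, ← Finset.sum_add_distrib,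
        ← Finset.sum_add_distrib]
      exact Finset.sum_congr rfl fun i _ => by ring
    rw [e, hu, hv, hs]
    ring
  have h5 : ∑ i, (-((a * u i + b * v i : ℝ) : ℂ) ^ 2 / 2)
      = -((∑ i, (a * u i + b * v i) ^ 2 : ℝ) : ℂ) / 2 := by
    push_cast
    rw [← Finset.sum_neg_distrib, Finset.sum_div]
  rw [h5, h4]
  have h6 : (a + b * s) ^ 2 + (b * c) ^ 2 = a ^ 2 + 2 * a * b * s + b ^ 2 := by
    rw [mul_pow, hc]; ring
  rw [← h6]
  push_cast
  ring

/-- `E exp(-B (m + c Z)² / 2)` -/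
theorem gauss_shift {B c m : ℝ} (hB : 0 ≤ B) :
    ∫ q, Real.exp (-(B * (m + c * q) ^ 2) / 2) ∂(gaussianReal 0 1)
      = (1 / Real.sqrt (1 + B * c ^ 2)) * Real.exp (-(B / (1 + B * c ^ 2) * m ^ 2) / 2) := by
  set D : ℝ := 1 + B * c ^ 2 with hD
  have hD0 : 0 < D := by have : 0 ≤ B * c ^ 2 := mul_nonneg hB (sq_nonneg c); rw [hD]; linarith
  rw [integral_gaussianReal_eq_integral_smul one_ne_zero]
  have h1 : ∀ q : ℝ, gaussianPDFReal 0 1 q • Real.exp (-(B * (m + c * q) ^ 2) / 2)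
      = (Real.exp kap * Real.exp (-(B / D * m ^ 2) / 2)) *
        Real.exp (-(D / 2) * (q + B * m * c / D) ^ 2) := by
    intro q
    rw [rho_eq, smul_eq_mul, ← Real.exp_add, ← Real.exp_add, ← Real.exp_add]
    congr 1
    field_simp
    rw [hD]
    ring
  simp_rw [h1]
  rw [integral_const_mul, integral_add_right_eq_self (fun q => Real.exp (-(D / 2) * q ^ 2)),
    integral_gaussian]
  have h2 : Real.sqrt (Real.pi / (D / 2)) = Real.sqrt (2 * Real.pi) / Real.sqrt D := by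
    rw [← Real.sqrt_div (by positivity)]
    congr 1
    field_simp
  have h3 : Real.exp kap * Real.sqrt (2 * Real.pi) = 1 := by
    unfold kap
    rw [Real.exp_neg, Real.exp_log (Real.sqrt_pos.2 (by positivity))]
    exact inv_mul_cancel₀ (Real.sqrt_pos.2 (by positivity)).ne'
  rw [h2]
  calc Real.exp kap * Real.exp (-(B / D * m ^ 2) / 2) * (Real.sqrt (2 * Real.pi) / Real.sqrt D)
      = (Real.exp kap * Real.sqrt (2 * Real.pi)) * (Real.exp (-(B / D * m ^ 2) / 2) / Real.sqrt D) :=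
        by ring
    _ = _ := by rw [h3]; ring

/-- `E exp(-C Z² / 2)` -/
theorem gauss_m0 {C : ℝ} (hC : 0 ≤ C) :
    ∫ p, Real.exp (-(C * p ^ 2) / 2) ∂(gaussianReal 0 1) = 1 / Real.sqrt (1 + C) := by
  have h := gauss_shift (B := C) (c := 1) (m := 0) hC
  simpa using h

/-- `E Z² exp(-C Z² / 2)` -/
theorem gauss_m2 {C : ℝ} (hC : 0 ≤ C) :
    ∫ p, p ^ 2 * Real.exp (-(C * p ^ 2) / 2) ∂(gaussianReal 0 1)
      = 1 / ((1 + C) * Real.sqrt (1 + C)) := by
  have hC1 : 0 < 1 + C := by linarith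
  -- scaling of the Gaussian with variance `1/(1+C)`
  let r : ℝ≥0 := ⟨1 / (1 + C), by positivity⟩
  have hr : (r : ℝ) = 1 / (1 + C) := rfl
  have hr0 : r ≠ 0 := by
    intro h
    have : (r : ℝ) = 0 := by rw [h]; rfl
    rw [hr] at this
    have h2 : 0 < 1 / (1 + C) := by positivity
    linarith
  have hvar : ∫ p, p ^ 2 ∂(gaussianReal 0 r) = 1 / (1 + C) := by
    have h := variance_fun_id_gaussianReal (μ := 0) (v := r)
    rw [variance_eq_integral measurable_id'.aemeasurable] at h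
    simp only [integral_id_gaussianReal, sub_zero] at h
    rw [h, hr]
  rw [integral_gaussianReal_eq_integral_smul one_ne_zero]
  rw [integral_gaussianReal_eq_integral_smul hr0] at hvar
  have h1 : ∀ p : ℝ, gaussianPDFReal 0 1 p • (p ^ 2 * Real.exp (-(C * p ^ 2) / 2))
      = (1 / Real.sqrt (1 + C)) * (gaussianPDFReal 0 r p • p ^ 2) := by
    intro p
    unfold gaussianPDFReal
    simp only [smul_eq_mul, sub_zero, NNReal.coe_one, mul_one, hr]
    have e1 : Real.exp (-p ^ 2 / (2 * (1 / (1 + C))))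
        = Real.exp (-p ^ 2 / 2) * Real.exp (-(C * p ^ 2) / 2) := by
      rw [← Real.exp_add]
      congr 1
      field_simp
      ring
    have e2 : Real.sqrt (2 * Real.pi * (1 / (1 + C)))
        = Real.sqrt (2 * Real.pi) / Real.sqrt (1 + C) := by
      rw [mul_one_div, Real.sqrt_div (by positivity)]
    rw [e1, e2]
    have h2 : 0 < Real.sqrt (2 * Real.pi) := Real.sqrt_pos.2 (by positivity)
    have h3 : 0 < Real.sqrt (1 + C) := Real.sqrt_pos.2 hC1
    field_simp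
  simp_rw [h1]
  rw [integral_const_mul, hvar]
  have h3 : 0 < Real.sqrt (1 + C) := Real.sqrt_pos.2 hC1
  field_simp

theorem integrable_sq_std : Integrable (fun p : ℝ => p ^ 2) (gaussianReal 0 1) := by
  have h := (memLp_id_gaussianReal (μ := 0) (v := 1) 2).integrable_sq
  simpa using h

/-- the determinant -/
noncomputable def Dl (A B x : ℝ) : ℝ := (1 + A) * (1 + B) - A * B * x

theorem Dl_pos {A B x : ℝ} (hA : 0 ≤ A) (hB : 0 ≤ B) (hx : x ≤ 1) : 0 < Dl A B x := by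
  unfold Dl
  nlinarith [mul_nonneg hA hB, mul_nonneg (mul_nonneg hA hB) (sub_nonneg.2 hx)]

theorem abs_exp_le {a : ℝ} (ha : a ≤ 0) : ‖Real.exp a‖ ≤ 1 := by
  rw [Real.norm_eq_abs, abs_of_pos (Real.exp_pos _)]
  exact Real.exp_le_one_iff.2 ha

section
variable {u v : Fin k → ℝ} {A B : ℝ}

theorem sq_le_one_of_unit (hu : u ⬝ᵥ u = 1) (hv : v ⬝ᵥ v = 1) : (u ⬝ᵥ v) ^ 2 ≤ 1 := by
  have := cauchy_dot u v
  rwa [hu, hv, one_mul] at this

/-- `E exp(-(A G₁² + B G₂²)/2)` -/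
theorem E0 (hu : u ⬝ᵥ u = 1) (hv : v ⬝ᵥ v = 1) (hA : 0 ≤ A) (hB : 0 ≤ B) :
    ∫ z, Real.exp (-(A * (u ⬝ᵥ z) ^ 2) / 2) * Real.exp (-(B * (v ⬝ᵥ z) ^ 2) / 2) ∂(gk k)
      = 1 / Real.sqrt (Dl A B ((u ⬝ᵥ v) ^ 2)) := by
  set s := u ⬝ᵥ v with hs
  have hs1 : s ^ 2 ≤ 1 := sq_le_one_of_unit hu hv
  set c := Real.sqrt (1 - s ^ 2) with hcdef
  have hc : c ^ 2 = 1 - s ^ 2 := Real.sq_sqrt (by linarith)
  have hlaw := law_pair hu hv rfl hc
  have hT1 : Measurable fun z : Fin k → ℝ => (u ⬝ᵥ z, v ⬝ᵥ z) := by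
    simp only [dotProduct]; fun_prop
  have hT2 : Measurable fun p : ℝ × ℝ => (p.1, s * p.1 + c * p.2) := by fun_prop
  let F : ℝ × ℝ → ℝ := fun y => Real.exp (-(A * y.1 ^ 2) / 2) * Real.exp (-(B * y.2 ^ 2) / 2)
  have hFc : Continuous F := by simp only [F]; fun_prop
  have e1 : ∫ z, Real.exp (-(A * (u ⬝ᵥ z) ^ 2) / 2) * Real.exp (-(B * (v ⬝ᵥ z) ^ 2) / 2) ∂(gk k)
      = ∫ p, F (p.1, s * p.1 + c * p.2) ∂((gaussianReal 0 1).prod (gaussianReal 0 1)) := by
    rw [← integral_map (f := F) hT2.aemeasurable hFc.aestronglyMeasurable, ← hlaw,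
      integral_map hT1.aemeasurable hFc.aestronglyMeasurable]
  rw [e1]
  have hint : Integrable (fun p : ℝ × ℝ => F (p.1, s * p.1 + c * p.2))
      ((gaussianReal 0 1).prod (gaussianReal 0 1)) := by
    refine Integrable.of_bound (hFc.measurable.comp hT2).aestronglyMeasurable 1
      (Filter.Eventually.of_forall fun p => ?_)
    simp only [F, norm_mul]
    calc ‖Real.exp (-(A * p.1 ^ 2) / 2)‖ * ‖Real.exp (-(B * (s * p.1 + c * p.2) ^ 2) / 2)‖
        ≤ 1 * 1 := mul_le_mul (abs_exp_le (by nlinarith [mul_nonneg hA (sq_nonneg p.1)]))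
          (abs_exp_le (by nlinarith [mul_nonneg hB (sq_nonneg (s * p.1 + c * p.2))]))
          (norm_nonneg _) zero_le_one
      _ = 1 := one_mul 1
  rw [integral_prod _ hint]
  simp only [F]
  have hD1 : 0 < 1 + B * c ^ 2 := by have := mul_nonneg hB (sq_nonneg c); linarith
  have h2 : ∀ p : ℝ, ∫ q, Real.exp (-(A * p ^ 2) / 2) *
      Real.exp (-(B * (s * p + c * q) ^ 2) / 2) ∂(gaussianReal 0 1)
      = (1 / Real.sqrt (1 + B * c ^ 2)) *
        Real.exp (-((A + B / (1 + B * c ^ 2) * s ^ 2) * p ^ 2) / 2) := by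
    intro p
    rw [integral_const_mul, gauss_shift hB, mul_left_comm, ← Real.exp_add]
    congr 2
    ring
  simp_rw [h2]
  have hC : 0 ≤ A + B / (1 + B * c ^ 2) * s ^ 2 := by positivity
  rw [integral_const_mul, gauss_m0 hC, one_div_mul_one_div, ← Real.sqrt_mul hD1.le]
  congr 2
  unfold Dl
  field_simp
  rw [hc]
  ring

/-- `E G₁² exp(-(A G₁² + B G₂²)/2)` -/
theorem E2 (hu : u ⬝ᵥ u = 1) (hv : v ⬝ᵥ v = 1) (hA : 0 ≤ A) (hB : 0 ≤ B) :
    ∫ z, (u ⬝ᵥ z) ^ 2 * (Real.exp (-(A * (u ⬝ᵥ z) ^ 2) / 2) *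
        Real.exp (-(B * (v ⬝ᵥ z) ^ 2) / 2)) ∂(gk k)
      = (1 + B * (1 - (u ⬝ᵥ v) ^ 2)) /
        (Dl A B ((u ⬝ᵥ v) ^ 2) * Real.sqrt (Dl A B ((u ⬝ᵥ v) ^ 2))) := by
  set s := u ⬝ᵥ v with hs
  have hs1 : s ^ 2 ≤ 1 := sq_le_one_of_unit hu hv
  set c := Real.sqrt (1 - s ^ 2) with hcdef
  have hc : c ^ 2 = 1 - s ^ 2 := Real.sq_sqrt (by linarith)
  have hlaw := law_pair hu hv rfl hc
  have hT1 : Measurable fun z : Fin k → ℝ => (u ⬝ᵥ z, v ⬝ᵥ z) := by
    simp only [dotProduct]; fun_prop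
  have hT2 : Measurable fun p : ℝ × ℝ => (p.1, s * p.1 + c * p.2) := by fun_prop
  let F : ℝ × ℝ → ℝ := fun y => y.1 ^ 2 * (Real.exp (-(A * y.1 ^ 2) / 2) *
    Real.exp (-(B * y.2 ^ 2) / 2))
  have hFc : Continuous F := by simp only [F]; fun_prop
  have e1 : ∫ z, (u ⬝ᵥ z) ^ 2 * (Real.exp (-(A * (u ⬝ᵥ z) ^ 2) / 2) *
        Real.exp (-(B * (v ⬝ᵥ z) ^ 2) / 2)) ∂(gk k)
      = ∫ p, F (p.1, s * p.1 + c * p.2) ∂((gaussianReal 0 1).prod (gaussianReal 0 1)) := by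
    rw [← integral_map (f := F) hT2.aemeasurable hFc.aestronglyMeasurable, ← hlaw,
      integral_map hT1.aemeasurable hFc.aestronglyMeasurable]
  rw [e1]
  have hint : Integrable (fun p : ℝ × ℝ => F (p.1, s * p.1 + c * p.2))
      ((gaussianReal 0 1).prod (gaussianReal 0 1)) := by
    have h0 : Integrable (fun p : ℝ × ℝ => p.1 ^ 2)
        ((gaussianReal 0 1).prod (gaussianReal 0 1)) := integrable_sq_std.comp_fst _
    refine h0.mono (hFc.measurable.comp hT2).aestronglyMeasurable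
      (Filter.Eventually.of_forall fun p => ?_)
    simp only [F, norm_mul]
    calc ‖p.1 ^ 2‖ * (‖Real.exp (-(A * p.1 ^ 2) / 2)‖ *
          ‖Real.exp (-(B * (s * p.1 + c * p.2) ^ 2) / 2)‖)
        ≤ ‖p.1 ^ 2‖ * (1 * 1) := mul_le_mul_of_nonneg_left (mul_le_mul
          (abs_exp_le (by nlinarith [mul_nonneg hA (sq_nonneg p.1)]))
          (abs_exp_le (by nlinarith [mul_nonneg hB (sq_nonneg (s * p.1 + c * p.2))]))
          (norm_nonneg _) zero_le_one) (norm_nonneg _)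
      _ = ‖p.1 ^ 2‖ := by ring
  rw [integral_prod _ hint]
  simp only [F]
  have hD1 : 0 < 1 + B * c ^ 2 := by have := mul_nonneg hB (sq_nonneg c); linarith
  have h2 : ∀ p : ℝ, ∫ q, p ^ 2 * (Real.exp (-(A * p ^ 2) / 2) *
      Real.exp (-(B * (s * p + c * q) ^ 2) / 2)) ∂(gaussianReal 0 1)
      = (1 / Real.sqrt (1 + B * c ^ 2)) *
        (p ^ 2 * Real.exp (-((A + B / (1 + B * c ^ 2) * s ^ 2) * p ^ 2) / 2)) := by
    intro p
    rw [integral_const_mul, integral_const_mul, gauss_shift hB]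
    have : Real.exp (-((A + B / (1 + B * c ^ 2) * s ^ 2) * p ^ 2) / 2)
        = Real.exp (-(A * p ^ 2) / 2) * Real.exp (-(B / (1 + B * c ^ 2) * (s * p) ^ 2) / 2) := by
      rw [← Real.exp_add]
      congr 1
      ring
    rw [this]
    ring
  simp_rw [h2]
  have hC : 0 ≤ A + B / (1 + B * c ^ 2) * s ^ 2 := by positivity
  rw [integral_const_mul, gauss_m2 hC]
  have hDl : 0 < Dl A B (s ^ 2) := Dl_pos hA hB hs1
  have h3 : 1 + (A + B / (1 + B * c ^ 2) * s ^ 2) = Dl A B (s ^ 2) / (1 + B * c ^ 2) := by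
    unfold Dl
    field_simp
    rw [hc]
    ring
  rw [h3, Real.sqrt_div hDl.le]
  have h4 : 0 < Real.sqrt (1 + B * c ^ 2) := Real.sqrt_pos.2 hD1
  have h5 : 0 < Real.sqrt (Dl A B (s ^ 2)) := Real.sqrt_pos.2 hDl
  rw [hc] at *
  field_simp

end

end Pool.Agent.Work.MP_6cd513_gt
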