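import Pool.Agent.Work.MP_6cd513_gt.Eta

/-!
# Selecting a nearly orthonormal basis
-/

open Matrix Finset MeasureTheory

namespace Pool.Agent.Work.MP_6cd513_gt

variable {ι : Type*} [Fintype ι] {k : ℕ}

theorem row_one {α : ι → ℝ} {u : ι → Fin k → ℝ} (hu : ∀ i, u i ⬝ᵥ u i = 1)
    (hiso : frameM α u = 1) (i : ι) : ∑ j, α j * (u i ⬝ᵥ u j) ^ 2 = 1 := by
  have h := iso_dot hiso (u i) (u i)
  rw [hu i] at h
  rw [← h]
  refine Finset.sum_congr rfl fun j _ => ?_
  rw [dotProduct_comm (u i)]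
  ring

theorem greedy (hk : 1 ≤ k) {ε : ℝ} (hε : 0 < ε) : ∃ η0 : ℝ, 0 < η0 ∧ ∀ (ι : Type) [Fintype ι]
    (α : ι → ℝ) (u : ι → Fin k → ℝ), (∀ i, 0 ≤ α i) → (∀ i, u i ⬝ᵥ u i = 1) → frameM α u = 1 →
    eta α u ≤ η0 → ∃ b : Fin k → ι, ∀ q r, q ≠ r → |u (b q) ⬝ᵥ u (b r)| ≤ ε := by
  have hk' : (1 : ℝ) ≤ k := by exact_mod_cast hk
  set bs : ℝ := ε ^ 2 / (4 * k) with hbs
  have hbs0 : 0 < bs := by positivity
  refine ⟨bs / 2, by positivity, ?_⟩
  intro ι _ α u hα hu hiso heta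
  let β : ι → ℝ := fun i => ∑ j, α j * (u i ⬝ᵥ u j) ^ 2 * (1 - (u i ⬝ᵥ u j) ^ 2)
  have hcs : ∀ i j, 0 ≤ 1 - (u i ⬝ᵥ u j) ^ 2 := by
    intro i j
    have := cauchy_dot (u i) (u j)
    rw [hu, hu] at this
    linarith
  have hterm : ∀ i j, 0 ≤ α j * (u i ⬝ᵥ u j) ^ 2 * (1 - (u i ⬝ᵥ u j) ^ 2) := fun i j =>
    mul_nonneg (mul_nonneg (hα j) (sq_nonneg _)) (hcs i j)
  have hβ0 : ∀ i, 0 ≤ β i := fun i => Finset.sum_nonneg fun j _ => hterm i j
  have hβeta : ∑ i, α i * β i = eta α u := by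
    unfold eta
    refine Finset.sum_congr rfl fun i _ => ?_
    simp only [β]
    rw [Finset.mul_sum]
    exact Finset.sum_congr rfl fun j _ => by ring
  have hstep : ∀ p : ℕ, p ≤ k → ∃ b : Fin p → ι, (∀ q, β (b q) ≤ bs) ∧
      ∀ q r, q ≠ r → (u (b q) ⬝ᵥ u (b r)) ^ 2 ≤ ε ^ 2 := by
    intro p
    induction p with
    | zero => intro _; exact ⟨Fin.elim0, fun q => q.elim0, fun q => q.elim0⟩
    | succ p ih =>
      intro hp
      obtain ⟨b, hb1, hb2⟩ := ih (by omega)
      have hex : ∃ j, β j ≤ bs ∧ ∀ q, (u (b q) ⬝ᵥ u j) ^ 2 ≤ ε ^ 2 := by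
        by_contra hcon
        push Not at hcon
        have hdom : ∀ j, α j ≤ α j * β j / bs + ∑ q, (α j * (u (b q) ⬝ᵥ u j) ^ 2
            + α j * (u (b q) ⬝ᵥ u j) ^ 2 * (1 - (u (b q) ⬝ᵥ u j) ^ 2) / ε ^ 2) := by
          intro j
          have hsum0 : ∀ q ∈ (Finset.univ : Finset (Fin p)), 0 ≤ (α j * (u (b q) ⬝ᵥ u j) ^ 2
            + α j * (u (b q) ⬝ᵥ u j) ^ 2 * (1 - (u (b q) ⬝ᵥ u j) ^ 2) / ε ^ 2) := by
            intro q _
            exact add_nonneg (mul_nonneg (hα j) (sq_nonneg _))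
              (div_nonneg (hterm (b q) j) (sq_nonneg _))
          have hfirst : 0 ≤ α j * β j / bs := div_nonneg (mul_nonneg (hα j) (hβ0 j)) hbs0.le
          by_cases hj : β j ≤ bs
          · obtain ⟨q, hq⟩ := hcon j hj
            have h1 : α j ≤ α j * (u (b q) ⬝ᵥ u j) ^ 2
              + α j * (u (b q) ⬝ᵥ u j) ^ 2 * (1 - (u (b q) ⬝ᵥ u j) ^ 2) / ε ^ 2 := by
              have h2 : 1 ≤ (u (b q) ⬝ᵥ u j) ^ 2
                + (u (b q) ⬝ᵥ u j) ^ 2 * (1 - (u (b q) ⬝ᵥ u j) ^ 2) / ε ^ 2 := by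
                have h3 : (1 - (u (b q) ⬝ᵥ u j) ^ 2) * 1 ≤
                    (u (b q) ⬝ᵥ u j) ^ 2 * (1 - (u (b q) ⬝ᵥ u j) ^ 2) / ε ^ 2 := by
                  rw [mul_comm ((u (b q) ⬝ᵥ u j) ^ 2), mul_div_assoc]
                  apply mul_le_mul_of_nonneg_left _ (hcs _ _)
                  rw [le_div_iff₀ (by positivity)]
                  linarith
                linarith
              have h4 := mul_le_mul_of_nonneg_left h2 (hα j)
              have h5 : α j * ((u (b q) ⬝ᵥ u j) ^ 2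
                + (u (b q) ⬝ᵥ u j) ^ 2 * (1 - (u (b q) ⬝ᵥ u j) ^ 2) / ε ^ 2)
                = α j * (u (b q) ⬝ᵥ u j) ^ 2
                + α j * (u (b q) ⬝ᵥ u j) ^ 2 * (1 - (u (b q) ⬝ᵥ u j) ^ 2) / ε ^ 2 := by ring
              rw [h5] at h4
              linarith
            have h2 := Finset.single_le_sum hsum0 (Finset.mem_univ q)
            linarith
          · push Not at hj
            have h1 : α j ≤ α j * β j / bs := by
              rw [mul_div_assoc]
              have : 1 ≤ β j / bs := by rw [le_div_iff₀ hbs0]; linarith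
              nlinarith [hα j]
            have h2 := Finset.sum_nonneg hsum0
            linarith
        have hsum := Finset.sum_le_sum fun j (_ : j ∈ (Finset.univ : Finset ι)) => hdom j
        rw [sum_alpha hu hiso, Finset.sum_add_distrib, ← Finset.sum_div, hβeta,
          Finset.sum_comm] at hsum
        have h1 : ∀ q : Fin p, ∑ j, (α j * (u (b q) ⬝ᵥ u j) ^ 2
            + α j * (u (b q) ⬝ᵥ u j) ^ 2 * (1 - (u (b q) ⬝ᵥ u j) ^ 2) / ε ^ 2)
            ≤ 1 + 1 / (4 * (k : ℝ)) := by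
          intro q
          rw [Finset.sum_add_distrib, row_one hu hiso, ← Finset.sum_div]
          have h2 : β (b q) / ε ^ 2 ≤ 1 / (4 * (k : ℝ)) := by
            have := hb1 q
            rw [div_le_iff₀ (by positivity)]
            calc β (b q) ≤ bs := this
              _ = 1 / (4 * k) * ε ^ 2 := by rw [hbs]; ring
          simp only [β] at h2
          linarith
        have h2 : ∑ q : Fin p, ∑ j, (α j * (u (b q) ⬝ᵥ u j) ^ 2
            + α j * (u (b q) ⬝ᵥ u j) ^ 2 * (1 - (u (b q) ⬝ᵥ u j) ^ 2) / ε ^ 2)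
            ≤ (p : ℝ) * (1 + 1 / (4 * (k : ℝ))) := by
          calc _ ≤ ∑ _q : Fin p, (1 + 1 / (4 * (k : ℝ))) := Finset.sum_le_sum fun q _ => h1 q
            _ = _ := by rw [Finset.sum_const, Finset.card_univ, Fintype.card_fin, nsmul_eq_mul]
        have h3 : eta α u / bs ≤ 1 / 2 := by
          rw [div_le_iff₀ hbs0]; linarith
        have hp' : (p : ℝ) + 1 ≤ k := by exact_mod_cast hp
        have h4 : (p : ℝ) * (1 / (4 * (k : ℝ))) ≤ 1 / 4 := by
          rw [mul_one_div, div_le_iff₀ (by positivity)]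
          linarith
        nlinarith
      obtain ⟨j, hj1, hj2⟩ := hex
      refine ⟨Fin.cons j b, ?_, ?_⟩
      · intro q
        refine Fin.cases ?_ (fun q => ?_) q
        · simpa using hj1
        · simpa using hb1 q
      · intro q r
        refine Fin.cases ?_ (fun q => ?_) q
        · refine Fin.cases ?_ (fun r => ?_) r
          · intro h; exact absurd rfl h
          · intro _
            rw [Fin.cons_zero, Fin.cons_succ, dotProduct_comm]
            exact hj2 r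
        · refine Fin.cases ?_ (fun r => ?_) r
          · intro _
            rw [Fin.cons_zero, Fin.cons_succ]
            exact hj2 q
          · intro h
            rw [Fin.cons_succ, Fin.cons_succ]
            exact hb2 q r (fun h' => h (by rw [h']))
  obtain ⟨b, _, hb⟩ := hstep k le_rfl
  exact ⟨b, fun q r hqr => abs_le_of_sq_le_sq (hb q r hqr) hε.le⟩

end Pool.Agent.Work.MP_6cd513_gt
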