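import Pool.Agent.Work.MP_6cd513_gt.Osc
import Pool.Agent.Work.MP_6cd513_gt.Greedy
import Pool.Agent.Work.MP_6cd513_gt.Gauss2

/-!
# The dual certificate: a lower bound for the volume defect
-/

open MeasureTheory ProbabilityTheory Matrix Finset
open scoped ENNReal

namespace Pool.Agent.Work.MP_6cd513_gt

variable {ι : Type*} [Fintype ι] {k : ℕ}

/-- transport bound for integrable certificates that are bounded below -/
theorem transport_bound' {α w : ι → ℝ} {u : ι → Fin k → ℝ} (hα : ∀ i, 0 ≤ α i)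
    (hw : ∀ i, 0 < w i) (hu : ∀ i, u i ⬝ᵥ u i = 1) (hiso : frameM α u = 1)
    {q : (Fin k → ℝ) → ℝ} (hq : Measurable q) (hqi : Integrable q (gk k)) {B : ℝ}
    (hB : ∀ x, -B ≤ q x)
    (H : ∀ (t : ι → ℝ) (z : Fin k → ℝ), q z ≤ detDef α w u t
      + (1 / 2) * ∑ i, α i * (t i - u i ⬝ᵥ z) ^ 2) :
    volume (slab w u) ≤ ENNReal.ofReal (Real.exp (∑ i, α i * Real.log (2 * w i)
      - ∫ x, q x ∂(gk k))) := by
  have h1 : ∀ N : ℕ, volume (slab w u) ≤ ENNReal.ofReal (Real.exp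
      (∑ i, α i * Real.log (2 * w i) - ∫ x, min (q x) N ∂(gk k))) := by
    intro N
    refine transport_bound hα hw hu hiso (B := |B| + N) (hq.min measurable_const) ?_ ?_
    · intro x
      have hN : (0 : ℝ) ≤ N := Nat.cast_nonneg N
      rw [abs_le]
      constructor
      · rw [le_min_iff]
        constructor
        · have := hB x
          have := le_abs_self B
          linarith
        · have := abs_nonneg B
          linarith
      · refine (min_le_right _ _).trans ?_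
        have := abs_nonneg B
        linarith
    · intro t z
      exact (min_le_left _ _).trans (H t z)
  have h2 : Filter.Tendsto (fun N : ℕ => ∫ x, min (q x) N ∂(gk k)) Filter.atTop
      (nhds (∫ x, q x ∂(gk k))) := by
    apply tendsto_integral_of_dominated_convergence (fun x => |q x|)
    · intro N
      exact (hq.min measurable_const).aestronglyMeasurable
    · exact hqi.abs
    · intro N
      refine Filter.Eventually.of_forall fun x => ?_
      rw [Real.norm_eq_abs]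
      have hN : (0 : ℝ) ≤ N := Nat.cast_nonneg N
      rcases le_total (q x) N with h | h
      · rw [min_eq_left h]
      · rw [min_eq_right h, abs_of_nonneg hN]
        exact h.trans (le_abs_self _)
    · refine Filter.Eventually.of_forall fun x => ?_
      obtain ⟨M, hM⟩ := exists_nat_ge (q x)
      apply tendsto_const_nhds.congr'
      filter_upwards [Filter.eventually_ge_atTop M] with N hN
      rw [min_eq_left]
      exact hM.trans (by exact_mod_cast hN)
  have h3 : Filter.Tendsto (fun N : ℕ => ENNReal.ofReal (Real.exp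
      (∑ i, α i * Real.log (2 * w i) - ∫ x, min (q x) N ∂(gk k)))) Filter.atTop
      (nhds (ENNReal.ofReal (Real.exp
      (∑ i, α i * Real.log (2 * w i) - ∫ x, q x ∂(gk k))))) := by
    apply ENNReal.tendsto_ofReal
    exact (Real.continuous_exp.tendsto _).comp (tendsto_const_nhds.sub h2)
  exact ge_of_tendsto h3 (Filter.Eventually.of_forall h1)

/-- `e^{-G²/2}` -/
noncomputable def ee (u z : Fin k → ℝ) : ℝ := Real.exp (-(u ⬝ᵥ z) ^ 2 / 2)

theorem ee_pos (u z : Fin k → ℝ) : 0 < ee u z := Real.exp_pos _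

theorem ee_le_one (u z : Fin k → ℝ) : ee u z ≤ 1 := by
  unfold ee
  rw [Real.exp_le_one_iff]
  nlinarith [sq_nonneg (u ⬝ᵥ z)]

/-- the dual variable of a pair -/
noncomputable def pp (u v z : Fin k → ℝ) : ℝ := (ee v z - ee u z) / 2

theorem pp_anti (u v z : Fin k → ℝ) : pp v u z = -pp u v z := by unfold pp; ring

theorem pp_self (u z : Fin k → ℝ) : pp u u z = 0 := by unfold pp; ring

theorem pp_abs (u v z : Fin k → ℝ) : |pp u v z| ≤ 1 / 2 := by
  unfold pp
  rw [abs_le]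
  have := ee_pos u z
  have := ee_pos v z
  have := ee_le_one u z
  have := ee_le_one v z
  constructor <;> linarith

theorem ee_sq_bound (u z : Fin k → ℝ) : (u ⬝ᵥ z) ^ 2 * ee u z ≤ 1 := by
  unfold ee
  set x := (u ⬝ᵥ z) ^ 2
  have hx : 0 ≤ x := sq_nonneg _
  have h1 : 1 + x / 2 + (x / 2) ^ 2 / 2 ≤ Real.exp (x / 2) :=
    Real.quadratic_le_exp_of_nonneg (by positivity)
  have h2 : x ≤ Real.exp (x / 2) := by nlinarith [sq_nonneg (x - 2)]
  rw [neg_div, Real.exp_neg]
  rw [mul_inv_le_iff₀ (Real.exp_pos _), one_mul]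
  exact h2

/-- polynomial lower bound of `p / (1 + ρ p)` -/
noncomputable def poly (c2 c3 p : ℝ) : ℝ := p - c2 * p ^ 2 + c3 * p ^ 3

/-- the parameters -/
structure Par (ρ c2 c3 : ℝ) : Prop where
  hρ0 : 0 < ρ
  hρ1 : ρ ≤ 1
  h2 : c2 * (1 - ρ ^ 2 / 4) = ρ
  h3 : c3 = ρ * c2

theorem Par.c2_pos {ρ c2 c3 : ℝ} (P : Par ρ c2 c3) : 0 < c2 := by
  have h1 : 0 < 1 - ρ ^ 2 / 4 := by nlinarith [P.hρ0, P.hρ1]
  have h2 := P.h2
  by_contra hcon
  push Not at hcon
  have := mul_nonpos_of_nonpos_of_nonneg hcon h1.le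
  linarith [P.hρ0]

theorem Par.c2_le {ρ c2 c3 : ℝ} (P : Par ρ c2 c3) : c2 ≤ 4 / 3 := by
  have h1 := P.c2_pos
  have h2 := P.h2
  have h3 : ρ ^ 2 ≤ 1 := by nlinarith [P.hρ0, P.hρ1]
  nlinarith [P.hρ1]

theorem Par.c3_pos {ρ c2 c3 : ℝ} (P : Par ρ c2 c3) : 0 < c3 := by
  rw [P.h3]; exact mul_pos P.hρ0 P.c2_pos

theorem Par.c3_le {ρ c2 c3 : ℝ} (P : Par ρ c2 c3) : c3 ≤ 4 / 3 := by
  rw [P.h3]
  have h1 := P.c2_pos
  have h2 := P.c2_le
  nlinarith [P.hρ0, P.hρ1]

theorem poly_le {ρ c2 c3 : ℝ} (P : Par ρ c2 c3) {p : ℝ} (hp : |p| ≤ 1 / 2) :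
    poly c2 c3 p ≤ p / (1 + ρ * p) := by
  obtain ⟨h1, h2⟩ := abs_le.1 hp
  have hρ0 := P.hρ0
  have hρ1 := P.hρ1
  have hpos : 0 < 1 + ρ * p := by nlinarith
  rw [le_div_iff₀ hpos]
  unfold poly
  have e : (p - c2 * p ^ 2 + c3 * p ^ 3) * (1 + ρ * p)
      = p - c2 * ρ ^ 2 * p ^ 2 * (1 / 4 - p ^ 2) := by
    have h4 : c2 = ρ + c2 * ρ ^ 2 / 4 := by linarith [P.h2]
    have h5 : (p - c2 * p ^ 2 + c3 * p ^ 3) * (1 + ρ * p)
        = p + (ρ - c2) * p ^ 2 + (c3 - ρ * c2) * p ^ 3 + ρ * c3 * p ^ 4 := by ring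
    rw [h5, P.h3]
    have h6 : ρ - c2 = -(c2 * ρ ^ 2 / 4) := by linarith
    rw [h6]
    ring
  rw [e]
  have h7 : 0 ≤ 1 / 4 - p ^ 2 := by nlinarith
  have h8 : 0 ≤ c2 * ρ ^ 2 * p ^ 2 * (1 / 4 - p ^ 2) := by
    have := P.c2_pos
    positivity
  linarith

theorem sum_affine {ι : Type*} [Fintype ι] (om p : ι → ℝ) (A a B : ℝ) :
    ∑ j, om j * (A + (p j - a) / B)
      = (∑ j, om j) * A + (∑ j, om j * p j - (∑ j, om j) * a) / B := by
  rw [Finset.sum_mul, Finset.sum_mul, ← Finset.sum_sub_distrib, Finset.sum_div,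
    ← Finset.sum_add_distrib]
  exact Finset.sum_congr rfl fun j _ => by ring

/-- the Jensen step -/
theorem jensen_f {ι : Type*} [Fintype ι] {ρ c2 c3 : ℝ} (P : Par ρ c2 c3) (om p : ι → ℝ)
    (hom : ∀ j, 0 ≤ om j) (hsum : ∑ j, om j ≤ ρ) (hp : ∀ j, |p j| ≤ 1 / 2) :
    0 < 1 + ∑ j, om j * p j ∧
    ∑ j, om j * poly c2 c3 (p j) ≤ (∑ j, om j * p j) / (1 + ∑ j, om j * p j) := by
  set f := ∑ j, om j * p j with hf
  have hρ0 := P.hρ0
  have hρ1 := P.hρ1
  have hf1 : -(1 / 2) ≤ f := by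
    have h1 : ∑ j, om j * (-(1 / 2)) ≤ f :=
      Finset.sum_le_sum fun j _ => mul_le_mul_of_nonneg_left (abs_le.1 (hp j)).1 (hom j)
    rw [← Finset.sum_mul] at h1
    nlinarith
  have hpos : 0 < 1 + f := by linarith
  refine ⟨hpos, ?_⟩
  set W := ∑ j, om j with hW
  have hW0 : 0 ≤ W := Finset.sum_nonneg fun j _ => hom j
  -- tangent inequality at `a = f / ρ`
  have h1 : ∀ j, poly c2 c3 (p j) ≤ (f / ρ) / (1 + f) + (p j - f / ρ) / (1 + f) ^ 2 := by
    intro j
    refine (poly_le P (hp j)).trans ?_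
    have hpj : 0 < 1 + ρ * p j := by nlinarith [(abs_le.1 (hp j)).1]
    rw [div_add_div _ _ hpos.ne' (pow_pos hpos 2).ne', div_le_div_iff₀ hpj (by positivity)]
    have h2 : f = ρ * (f / ρ) := by field_simp
    set a := f / ρ with ha
    have h3 : (a * (1 + f) ^ 2 + (1 + f) * (p j - a)) * (1 + ρ * p j)
        - p j * ((1 + f) * (1 + f) ^ 2)
        = ρ * (1 + f) * (p j - a) ^ 2 := by
      rw [h2]; ring
    have h4 : 0 ≤ ρ * (1 + f) * (p j - a) ^ 2 := by positivity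
    linarith
  have h2 : ∑ j, om j * poly c2 c3 (p j) ≤ ∑ j, om j *
      ((f / ρ) / (1 + f) + (p j - f / ρ) / (1 + f) ^ 2) :=
    Finset.sum_le_sum fun j _ => mul_le_mul_of_nonneg_left (h1 j) (hom j)
  have h3 : ∑ j, om j * ((f / ρ) / (1 + f) + (p j - f / ρ) / (1 + f) ^ 2)
      = W * ((f / ρ) / (1 + f)) + (f - W * (f / ρ)) / (1 + f) ^ 2 := by
    exact sum_affine om p _ _ _
  rw [h3] at h2
  refine h2.trans ?_
  have h4 : f / (1 + f) - (W * ((f / ρ) / (1 + f)) + (f - W * (f / ρ)) / (1 + f) ^ 2)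
      = (f / (1 + f)) ^ 2 * (1 - W / ρ) := by
    field_simp
    ring
  have h5 : 0 ≤ 1 - W / ρ := by
    rw [sub_nonneg, div_le_one hρ0]; exact hsum
  have h6 : 0 ≤ (f / (1 + f)) ^ 2 * (1 - W / ρ) := by positivity
  linarith

/-- the pair term of the certificate -/
noncomputable def qpair (c2 c3 : ℝ) (u v : Fin k → ℝ) (d : ℝ) (z : Fin k → ℝ) : ℝ :=
  poly c2 c3 (pp u v z) * (u ⬝ᵥ z) ^ 2 + pp u v z * d - 16 / 25 * pp u v z ^ 2

/-- the certificate -/
noncomputable def qcert (c2 c3 : ℝ) (α : ι → ℝ) (u : ι → Fin k → ℝ) (kp : ι → ℝ)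
    (z : Fin k → ℝ) : ℝ :=
  (1 / 2) * ∑ i, ∑ j, α i * α j * (u i ⬝ᵥ u j) ^ 2 *
    qpair c2 c3 (u i) (u j) (kp i - kp j) z

theorem qcert_le {ρ c2 c3 : ℝ} (P : Par ρ c2 c3) {α w : ι → ℝ} {u : ι → Fin k → ℝ}
    (hα : ∀ i, 0 ≤ α i) (hαρ : ∀ i, 1 - α i ≤ ρ)
    (hw : ∀ i, 0 < w i) (hu : ∀ i, u i ⬝ᵥ u i = 1) (hiso : frameM α u = 1)
    (t : ι → ℝ) (z : Fin k → ℝ) :
    qcert c2 c3 α u (fun i => Real.log gam - Real.log (w i)) z ≤ detDef α w u t
      + (1 / 2) * ∑ i, α i * (t i - u i ⬝ᵥ z) ^ 2 := by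
  classical
  set τ : ι → ℝ := fun i => gam * Real.exp (t i ^ 2 / 2) / w i with hτ
  have hτ0 : ∀ i, 0 < τ i := fun i => div_pos (mul_pos gam_pos (Real.exp_pos _)) (hw i)
  have hlog : ∀ i, Real.log (τ i) = (Real.log gam - Real.log (w i)) + t i ^ 2 / 2 := by
    intro i
    simp only [hτ]
    rw [Real.log_div (mul_pos gam_pos (Real.exp_pos _)).ne' (hw i).ne',
      Real.log_mul gam_pos.ne' (Real.exp_pos _).ne', Real.log_exp]
    ring
  have hosc := det_osc α τ u hα hu hiso hτ0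
  have hdd : detDef α w u t = Real.log (frameM (fun i => α i * τ i) u).det
      - ∑ i, α i * Real.log (τ i) := rfl
  rw [← hdd] at hosc
  refine le_trans ?_ (add_le_add_left hosc _)
  set kp : ι → ℝ := fun i => Real.log gam - Real.log (w i) with hkp
  let p : ι → ι → ℝ := fun i j => pp (u i) (u j) z
  let W : ι → ι → ℝ := fun i j => α i * α j * (u i ⬝ᵥ u j) ^ 2
  have hW0 : ∀ i j, 0 ≤ W i j := fun i j => by
    have := hα i; have := hα j; positivity
  have hWs : ∀ i j, W j i = W i j := fun i j => by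
    simp only [W]; rw [dotProduct_comm]; ring
  -- Young
  have h1 : ∑ i, ∑ j, W i j * (p i j * (kp i - kp j) + p i j * (t i ^ 2 / 2 - t j ^ 2 / 2)
      - 16 / 25 * p i j ^ 2) ≤ ∑ i, ∑ j, W i j * psi0 (Real.log (τ i) - Real.log (τ j)) := by
    refine Finset.sum_le_sum fun i _ => Finset.sum_le_sum fun j _ =>
      mul_le_mul_of_nonneg_left ?_ (hW0 i j)
    have h2 := young_psi0 (pp_abs (u i) (u j) z) (Real.log (τ i) - Real.log (τ j))
    rw [hlog i, hlog j] at h2 ⊢
    simp only [p, hkp]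
    linarith
  -- antisymmetry
  have h2 : ∑ i, ∑ j, W i j * (p i j * (t i ^ 2 / 2 - t j ^ 2 / 2))
      = ∑ i, ∑ j, W i j * (p i j * t i ^ 2) := by
    have h3 : ∑ i, ∑ j, W i j * (p i j * (t j ^ 2 / 2))
        = -∑ i, ∑ j, W i j * (p i j * (t i ^ 2 / 2)) := by
      rw [Finset.sum_comm, ← Finset.sum_neg_distrib]
      refine Finset.sum_congr rfl fun i _ => ?_
      rw [← Finset.sum_neg_distrib]
      refine Finset.sum_congr rfl fun j _ => ?_
      rw [hWs i j]
      have : p j i = -p i j := pp_anti _ _ _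
      rw [this]; ring
    have h4 : ∑ i, ∑ j, W i j * (p i j * (t i ^ 2 / 2 - t j ^ 2 / 2))
        = ∑ i, ∑ j, W i j * (p i j * (t i ^ 2 / 2))
          - ∑ i, ∑ j, W i j * (p i j * (t j ^ 2 / 2)) := by
      rw [← Finset.sum_sub_distrib]
      refine Finset.sum_congr rfl fun i _ => ?_
      rw [← Finset.sum_sub_distrib]
      exact Finset.sum_congr rfl fun j _ => by ring
    rw [h4, h3, sub_neg_eq_add, ← Finset.sum_add_distrib]
    refine Finset.sum_congr rfl fun i _ => ?_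
    rw [← Finset.sum_add_distrib]
    exact Finset.sum_congr rfl fun j _ => by ring
  -- the per-vector inequality
  have h3 : ∀ i, ∑ j, W i j * (poly c2 c3 (p i j) * (u i ⬝ᵥ z) ^ 2)
      ≤ ∑ j, W i j * (p i j * t i ^ 2) + α i * (t i - u i ⬝ᵥ z) ^ 2 := by
    intro i
    let om : ι → ℝ := fun j => if j = i then 0 else α j * (u i ⬝ᵥ u j) ^ 2
    have hom : ∀ j, 0 ≤ om j := by
      intro j
      simp only [om]
      split_ifs
      · exact le_rfl
      · exact mul_nonneg (hα j) (sq_nonneg _)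
    have hsum : ∑ j, om j ≤ ρ := by
      have h4 := row_one hu hiso i
      have h5 : ∑ j, om j = (∑ j, α j * (u i ⬝ᵥ u j) ^ 2) - α i := by
        rw [← Finset.add_sum_erase _ _ (Finset.mem_univ i),
          ← Finset.add_sum_erase (Finset.univ) (fun j => α j * (u i ⬝ᵥ u j) ^ 2)
            (Finset.mem_univ i)]
        have h6 : om i = 0 := by simp [om]
        rw [h6, hu i, one_pow, mul_one, zero_add, add_sub_cancel_left]
        refine Finset.sum_congr rfl fun j hj => ?_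
        simp only [om]
        rw [if_neg (Finset.ne_of_mem_erase hj)]
      rw [h5, h4]
      exact hαρ i
    obtain ⟨hf0, hf1⟩ := jensen_f P om (fun j => p i j) hom hsum
      (fun j => pp_abs (u i) (u j) z)
    have hz : ∀ F : ℝ → ℝ, F 0 = 0 → ∑ j, W i j * F (p i j) = α i * ∑ j, om j * F (p i j) := by
      intro F hF
      rw [Finset.mul_sum]
      refine Finset.sum_congr rfl fun j _ => ?_
      simp only [om, W]
      split_ifs with h
      · subst h
        have : p j j = 0 := pp_self _ _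
        rw [this, hF]; ring
      · ring
    have e1 : ∑ j, W i j * (poly c2 c3 (p i j) * (u i ⬝ᵥ z) ^ 2)
        = α i * ((∑ j, om j * poly c2 c3 (p i j)) * (u i ⬝ᵥ z) ^ 2) := by
      have h5 := hz (poly c2 c3) (by simp [poly])
      rw [← mul_assoc, ← h5, Finset.sum_mul]
      exact Finset.sum_congr rfl fun j _ => by ring
    have e2 : ∑ j, W i j * (p i j * t i ^ 2) = α i * ((∑ j, om j * p i j) * t i ^ 2) := by
      have h5 := hz (fun x => x) rfl
      rw [← mul_assoc, ← h5, Finset.sum_mul]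
      exact Finset.sum_congr rfl fun j _ => by ring
    rw [e1, e2, ← mul_add]
    apply mul_le_mul_of_nonneg_left _ (hα i)
    set f := ∑ j, om j * p i j with hf
    set G := u i ⬝ᵥ z with hG
    have h6 : (∑ j, om j * poly c2 c3 (p i j)) * G ^ 2 ≤ f / (1 + f) * G ^ 2 :=
      mul_le_mul_of_nonneg_right hf1 (sq_nonneg _)
    refine h6.trans ?_
    have h7 : f * t i ^ 2 + (t i - G) ^ 2 - f / (1 + f) * G ^ 2
        = ((1 + f) * t i - G) ^ 2 / (1 + f) := by
      field_simp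
      ring
    have h8 : 0 ≤ ((1 + f) * t i - G) ^ 2 / (1 + f) := by positivity
    linarith
  have h4 := Finset.sum_le_sum fun i (_ : i ∈ (Finset.univ : Finset ι)) => h3 i
  rw [Finset.sum_add_distrib, ← h2] at h4
  have h5 : qcert c2 c3 α u kp z = (1 / 2) * (∑ i, ∑ j, W i j *
      (poly c2 c3 (p i j) * (u i ⬝ᵥ z) ^ 2) + ∑ i, ∑ j, W i j * (p i j * (kp i - kp j)
      - 16 / 25 * p i j ^ 2)) := by
    unfold qcert qpair
    congr 1
    rw [← Finset.sum_add_distrib]
    refine Finset.sum_congr rfl fun i _ => ?_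
    rw [← Finset.sum_add_distrib]
    exact Finset.sum_congr rfl fun j _ => by simp only [W, p]; ring
  have h6 : ∑ i, ∑ j, W i j * (p i j * (kp i - kp j) + p i j * (t i ^ 2 / 2 - t j ^ 2 / 2)
      - 16 / 25 * p i j ^ 2) = ∑ i, ∑ j, W i j * (p i j * (kp i - kp j) - 16 / 25 * p i j ^ 2)
      + ∑ i, ∑ j, W i j * (p i j * (t i ^ 2 / 2 - t j ^ 2 / 2)) := by
    rw [← Finset.sum_add_distrib]
    refine Finset.sum_congr rfl fun i _ => ?_
    rw [← Finset.sum_add_distrib]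
    exact Finset.sum_congr rfl fun j _ => by ring
  rw [h5]
  rw [h6] at h1
  linarith

end Pool.Agent.Work.MP_6cd513_gt
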