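import Pool.Agent.Work.MP_6cd513_gt.Cert

/-!
# The Gaussian expectation of the certificate
-/

open MeasureTheory ProbabilityTheory Matrix Finset
open scoped ENNReal

namespace Pool.Agent.Work.MP_6cd513_gt

variable {ι : Type*} [Fintype ι] {k : ℕ}

theorem integrable_dot_sq {u : Fin k → ℝ} (hu : u ⬝ᵥ u = 1) :
    Integrable (fun z => (u ⬝ᵥ z) ^ 2) (gk k) := by
  have hc : (0 : ℝ) ^ 2 = 1 - (1 : ℝ) ^ 2 := by norm_num
  have hlaw := law_pair hu hu hu hc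
  have hT1 : Measurable fun z : Fin k → ℝ => (u ⬝ᵥ z, u ⬝ᵥ z) := by
    simp only [dotProduct]; fun_prop
  have hT2 : Measurable fun p : ℝ × ℝ => (p.1, 1 * p.1 + 0 * p.2) := by fun_prop
  have hF : Continuous fun y : ℝ × ℝ => y.1 ^ 2 := by fun_prop
  have h0 : Integrable (fun p : ℝ × ℝ => p.1 ^ 2)
      ((gaussianReal 0 1).prod (gaussianReal 0 1)) := integrable_sq_std.comp_fst _
  have h1 : Integrable (fun y : ℝ × ℝ => y.1 ^ 2)
      (((gaussianReal 0 1).prod (gaussianReal 0 1)).map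
        (fun p => (p.1, 1 * p.1 + 0 * p.2))) := by
    rw [integrable_map_measure hF.aestronglyMeasurable hT2.aemeasurable]
    exact h0
  rw [← hlaw, integrable_map_measure hF.aestronglyMeasurable hT1.aemeasurable] at h1
  exact h1

theorem ee_cont (u : Fin k → ℝ) : Continuous fun z => ee u z := by
  unfold ee
  simp only [dotProduct]
  fun_prop

theorem dot_cont (u : Fin k → ℝ) : Continuous fun z => u ⬝ᵥ z := by
  simp only [dotProduct]
  fun_prop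

theorem ee_pow (u z : Fin k → ℝ) (m : ℕ) :
    ee u z ^ m = Real.exp (-((m : ℝ) * (u ⬝ᵥ z) ^ 2) / 2) := by
  unfold ee
  rw [← Real.exp_nat_mul]
  congr 1
  ring

theorem mono_bound (u v z : Fin k → ℝ) (m n : ℕ) : ‖ee u z ^ m * ee v z ^ n‖ ≤ 1 := by
  rw [Real.norm_eq_abs, abs_of_nonneg (mul_nonneg (pow_nonneg (ee_pos u z).le m)
    (pow_nonneg (ee_pos v z).le n))]
  exact mul_le_one₀ (pow_le_one₀ (ee_pos u z).le (ee_le_one u z))
    (pow_nonneg (ee_pos v z).le n) (pow_le_one₀ (ee_pos v z).le (ee_le_one v z))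

theorem int0 (u v : Fin k → ℝ) (m n : ℕ) :
    Integrable (fun z => ee u z ^ m * ee v z ^ n) (gk k) := by
  refine Integrable.of_bound
    (((ee_cont u).pow m).mul ((ee_cont v).pow n)).aestronglyMeasurable 1
    (Filter.Eventually.of_forall fun z => mono_bound u v z m n)

theorem int2 {u : Fin k → ℝ} (hu : u ⬝ᵥ u = 1) (v : Fin k → ℝ) (m n : ℕ) :
    Integrable (fun z => (u ⬝ᵥ z) ^ 2 * (ee u z ^ m * ee v z ^ n)) (gk k) := by
  refine (integrable_dot_sq hu).mono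
    (((dot_cont u).pow 2).mul (((ee_cont u).pow m).mul ((ee_cont v).pow n))).aestronglyMeasurable
    (Filter.Eventually.of_forall fun z => ?_)
  rw [norm_mul]
  calc ‖(u ⬝ᵥ z) ^ 2‖ * ‖ee u z ^ m * ee v z ^ n‖ ≤ ‖(u ⬝ᵥ z) ^ 2‖ * 1 :=
        mul_le_mul_of_nonneg_left (mono_bound u v z m n) (norm_nonneg _)
    _ = _ := mul_one _

theorem mono0 {u v : Fin k → ℝ} (hu : u ⬝ᵥ u = 1) (hv : v ⬝ᵥ v = 1) (m n : ℕ) :
    ∫ z, ee u z ^ m * ee v z ^ n ∂(gk k) = 1 / Real.sqrt (Dl m n ((u ⬝ᵥ v) ^ 2)) := by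
  simp_rw [ee_pow]
  exact E0 hu hv (Nat.cast_nonneg m) (Nat.cast_nonneg n)

theorem mono2 {u v : Fin k → ℝ} (hu : u ⬝ᵥ u = 1) (hv : v ⬝ᵥ v = 1) (m n : ℕ) :
    ∫ z, (u ⬝ᵥ z) ^ 2 * (ee u z ^ m * ee v z ^ n) ∂(gk k)
      = (1 + n * (1 - (u ⬝ᵥ v) ^ 2)) /
        (Dl m n ((u ⬝ᵥ v) ^ 2) * Real.sqrt (Dl m n ((u ⬝ᵥ v) ^ 2))) := by
  simp_rw [ee_pow]
  exact E2 hu hv (Nat.cast_nonneg m) (Nat.cast_nonneg n)

/-- the value of the pair expectation as a function of `y = 1 - s²` -/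
noncomputable def Tf (c2 c3 y : ℝ) : ℝ :=
  y / (4 * Real.sqrt 2)
  - c2 / 2 * ((1 + y) * (1 / (3 * Real.sqrt 3) - 1 / ((3 + y) * Real.sqrt (3 + y))))
  + 3 * c3 / 8 * (y * (1 / 8 - 1 / ((4 + 2 * y) * Real.sqrt (4 + 2 * y))))
  - 8 / 25 * (1 / Real.sqrt 3 - 1 / Real.sqrt (3 + y))

theorem qpair_expand (c2 c3 : ℝ) (u v : Fin k → ℝ) (d : ℝ) (z : Fin k → ℝ) :
    qpair c2 c3 u v d z =
      ((1 / 2) * ((u ⬝ᵥ z) ^ 2 * (ee u z ^ 0 * ee v z ^ 1))
      + (-1 / 2) * ((u ⬝ᵥ z) ^ 2 * (ee u z ^ 1 * ee v z ^ 0))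
      + (-c2 / 4) * ((u ⬝ᵥ z) ^ 2 * (ee u z ^ 0 * ee v z ^ 2))
      + (c2 / 2) * ((u ⬝ᵥ z) ^ 2 * (ee u z ^ 1 * ee v z ^ 1))
      + (-c2 / 4) * ((u ⬝ᵥ z) ^ 2 * (ee u z ^ 2 * ee v z ^ 0))
      + (c3 / 8) * ((u ⬝ᵥ z) ^ 2 * (ee u z ^ 0 * ee v z ^ 3))
      + (-3 * c3 / 8) * ((u ⬝ᵥ z) ^ 2 * (ee u z ^ 1 * ee v z ^ 2))
      + (3 * c3 / 8) * ((u ⬝ᵥ z) ^ 2 * (ee u z ^ 2 * ee v z ^ 1))
      + (-c3 / 8) * ((u ⬝ᵥ z) ^ 2 * (ee u z ^ 3 * ee v z ^ 0)))
      + ((d / 2) * (ee u z ^ 0 * ee v z ^ 1) + (-d / 2) * (ee u z ^ 1 * ee v z ^ 0)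
      + (-4 / 25) * (ee u z ^ 0 * ee v z ^ 2) + (8 / 25) * (ee u z ^ 1 * ee v z ^ 1)
      + (-4 / 25) * (ee u z ^ 2 * ee v z ^ 0)) := by
  unfold qpair poly pp
  ring

theorem qpair_integrable (c2 c3 : ℝ) {u : Fin k → ℝ} (hu : u ⬝ᵥ u = 1) (v : Fin k → ℝ)
    (d : ℝ) : Integrable (fun z => qpair c2 c3 u v d z) (gk k) := by
  simp_rw [qpair_expand]
  refine Integrable.add ?_ ?_
  · repeat' apply Integrable.add
    all_goals exact (int2 hu v _ _).const_mul _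
  · repeat' apply Integrable.add
    all_goals exact (int0 u v _ _).const_mul _

theorem qpair_integral (c2 c3 : ℝ) {u v : Fin k → ℝ} (hu : u ⬝ᵥ u = 1) (hv : v ⬝ᵥ v = 1)
    (d : ℝ) : ∫ z, qpair c2 c3 u v d z ∂(gk k) = Tf c2 c3 (1 - (u ⬝ᵥ v) ^ 2) := by
  simp_rw [qpair_expand]
  have a2 : ∀ (c : ℝ) (m n : ℕ),
      Integrable (fun z => c * ((u ⬝ᵥ z) ^ 2 * (ee u z ^ m * ee v z ^ n))) (gk k) :=
    fun c m n => (int2 hu v m n).const_mul c
  have a0 : ∀ (c : ℝ) (m n : ℕ),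
      Integrable (fun z => c * (ee u z ^ m * ee v z ^ n)) (gk k) :=
    fun c m n => (int0 u v m n).const_mul c
  rw [integral_add, integral_add, integral_add, integral_add, integral_add, integral_add,
    integral_add, integral_add, integral_add, integral_add, integral_add, integral_add,
    integral_add]
  · simp_rw [integral_const_mul, mono2 hu hv, mono0 hu hv]
    set x := (u ⬝ᵥ v) ^ 2 with hx
    have d01 : Dl ((0 : ℕ) : ℝ) ((1 : ℕ) : ℝ) x = 2 := by unfold Dl; push_cast; ring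
    have d10 : Dl ((1 : ℕ) : ℝ) ((0 : ℕ) : ℝ) x = 2 := by unfold Dl; push_cast; ring
    have d02 : Dl ((0 : ℕ) : ℝ) ((2 : ℕ) : ℝ) x = 3 := by unfold Dl; push_cast; ring
    have d20 : Dl ((2 : ℕ) : ℝ) ((0 : ℕ) : ℝ) x = 3 := by unfold Dl; push_cast; ring
    have d11 : Dl ((1 : ℕ) : ℝ) ((1 : ℕ) : ℝ) x = 3 + (1 - x) := by unfold Dl; push_cast; ring
    have d03 : Dl ((0 : ℕ) : ℝ) ((3 : ℕ) : ℝ) x = 4 := by unfold Dl; push_cast; ring
    have d30 : Dl ((3 : ℕ) : ℝ) ((0 : ℕ) : ℝ) x = 4 := by unfold Dl; push_cast; ring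
    have d12 : Dl ((1 : ℕ) : ℝ) ((2 : ℕ) : ℝ) x = 4 + 2 * (1 - x) := by
      unfold Dl; push_cast; ring
    have d21 : Dl ((2 : ℕ) : ℝ) ((1 : ℕ) : ℝ) x = 4 + 2 * (1 - x) := by
      unfold Dl; push_cast; ring
    rw [d01, d10, d02, d20, d11, d03, d30, d12, d21]
    have s4 : Real.sqrt 4 = 2 := by
      rw [show (4 : ℝ) = 2 ^ 2 by norm_num, Real.sqrt_sq (by norm_num)]
    rw [s4]
    unfold Tf
    push_cast
    have hx1 : x ≤ 1 := sq_le_one_of_unit hu hv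
    have p2 : Real.sqrt 2 ≠ 0 := (Real.sqrt_pos.2 (by norm_num)).ne'
    have p3 : Real.sqrt 3 ≠ 0 := (Real.sqrt_pos.2 (by norm_num)).ne'
    have p4 : Real.sqrt (3 + (1 - x)) ≠ 0 := (Real.sqrt_pos.2 (by linarith)).ne'
    have p5 : Real.sqrt (4 + 2 * (1 - x)) ≠ 0 := (Real.sqrt_pos.2 (by linarith)).ne'
    have p6 : 3 + (1 - x) ≠ 0 := by linarith
    have p7 : 4 + 2 * (1 - x) ≠ 0 := by linarith
    field_simp
    ring
  all_goals first
    | exact a2 _ _ _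
    | exact a0 _ _ _
    | (repeat' apply Integrable.add
       all_goals first
         | exact a2 _ _ _
         | exact a0 _ _ _)

theorem qpair_lower {ρ c2 c3 : ℝ} (P : Par ρ c2 c3) (u v : Fin k → ℝ) (d : ℝ)
    (z : Fin k → ℝ) : -(2 + |d|) ≤ qpair c2 c3 u v d z := by
  unfold qpair
  set p := pp u v z with hp
  have hp1 := pp_abs u v z
  rw [← hp] at hp1
  obtain ⟨h1, h2⟩ := abs_le.1 hp1
  have hc2 := P.c2_pos
  have hc2' := P.c2_le
  have hc3 := P.c3_pos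
  have hc3' := P.c3_le
  have a1 : -1 ≤ poly c2 c3 p * (u ⬝ᵥ z) ^ 2 := by
    have hG := ee_sq_bound u z
    have e : poly c2 c3 p = p * (1 - c2 * p + c3 * p ^ 2) := by unfold poly; ring
    rcases le_total 0 p with h | h
    · have h3 : 0 ≤ 1 - c2 * p + c3 * p ^ 2 := by
        have : c2 * p ≤ 4 / 3 * (1 / 2) := mul_le_mul hc2' h2 h (by norm_num)
        have : 0 ≤ c3 * p ^ 2 := by positivity
        linarith
      rw [e]
      have : 0 ≤ p * (1 - c2 * p + c3 * p ^ 2) * (u ⬝ᵥ z) ^ 2 := by positivity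
      linarith
    · have h3 : 1 - c2 * p + c3 * p ^ 2 ≤ 2 := by
        have g1 : c2 * (-p) ≤ 4 / 3 * (1 / 2) :=
          mul_le_mul hc2' (by linarith) (by linarith) (by norm_num)
        have g2 : c3 * p ^ 2 ≤ 4 / 3 * (1 / 2) ^ 2 := by
          apply mul_le_mul hc3' _ (sq_nonneg _) (by norm_num)
          rw [← sq_abs]
          exact pow_le_pow_left₀ (abs_nonneg _) hp1 2
        linarith
      have h4 : -(ee u z / 2) ≤ p := by
        rw [hp]; unfold pp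
        have := ee_pos v z
        linarith
      have h5 : -ee u z ≤ poly c2 c3 p := by
        rw [e]
        have h6 : 0 ≤ 1 - c2 * p + c3 * p ^ 2 := by
          have : 0 ≤ -(c2 * p) := by nlinarith
          have : 0 ≤ c3 * p ^ 2 := by positivity
          linarith
        calc -ee u z = -(ee u z / 2) * 2 := by ring
          _ ≤ -(ee u z / 2) * (1 - c2 * p + c3 * p ^ 2) := by
              have := ee_pos u z
              nlinarith
          _ ≤ _ := mul_le_mul_of_nonneg_right h4 h6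
      have h7 := mul_le_mul_of_nonneg_right h5 (sq_nonneg (u ⬝ᵥ z))
      nlinarith
  have a2 : -|d| ≤ p * d := by
    have h3 : |p * d| ≤ |d| := by
      rw [abs_mul]
      have := abs_nonneg d
      nlinarith
    have := neg_abs_le (p * d)
    linarith
  have a3 : 16 / 25 * p ^ 2 ≤ 1 := by nlinarith
  linarith

theorem qcert_measurable (c2 c3 : ℝ) (α : ι → ℝ) (u : ι → Fin k → ℝ) (kp : ι → ℝ) :
    Measurable (qcert c2 c3 α u kp) := by
  unfold qcert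
  apply Continuous.measurable
  apply Continuous.mul continuous_const
  apply continuous_finsetSum
  intro i _
  apply continuous_finsetSum
  intro j _
  apply Continuous.mul continuous_const
  unfold qpair poly pp
  have h1 := ee_cont (u i)
  have h2 := ee_cont (u j)
  have h3 := dot_cont (u i)
  fun_prop

theorem qcert_integrable (c2 c3 : ℝ) (α : ι → ℝ) {u : ι → Fin k → ℝ}
    (hu : ∀ i, u i ⬝ᵥ u i = 1) (kp : ι → ℝ) : Integrable (qcert c2 c3 α u kp) (gk k) := by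
  unfold qcert
  apply Integrable.const_mul
  apply integrable_finsetSum
  intro i _
  apply integrable_finsetSum
  intro j _
  exact (qpair_integrable c2 c3 (hu i) (u j) _).const_mul _

theorem qcert_integral (c2 c3 : ℝ) (α : ι → ℝ) {u : ι → Fin k → ℝ}
    (hu : ∀ i, u i ⬝ᵥ u i = 1) (kp : ι → ℝ) : ∫ z, qcert c2 c3 α u kp z ∂(gk k)
      = (1 / 2) * ∑ i, ∑ j, α i * α j * (u i ⬝ᵥ u j) ^ 2 *
        Tf c2 c3 (1 - (u i ⬝ᵥ u j) ^ 2) := by
  unfold qcert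
  rw [integral_const_mul, integral_finsetSum]
  · congr 1
    refine Finset.sum_congr rfl fun i _ => ?_
    rw [integral_finsetSum]
    · refine Finset.sum_congr rfl fun j _ => ?_
      rw [integral_const_mul, qpair_integral c2 c3 (hu i) (hu j)]
    · intro j _
      exact (qpair_integrable c2 c3 (hu i) (u j) _).const_mul _
  · intro i _
    apply integrable_finsetSum
    intro j _
    exact (qpair_integrable c2 c3 (hu i) (u j) _).const_mul _

theorem qcert_lower {ρ c2 c3 : ℝ} (P : Par ρ c2 c3) {α : ι → ℝ} {u : ι → Fin k → ℝ}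
    (hα : ∀ i, 0 ≤ α i) (kp : ι → ℝ) : ∃ B : ℝ, ∀ z, -B ≤ qcert c2 c3 α u kp z := by
  refine ⟨(1 / 2) * ∑ i, ∑ j, α i * α j * (u i ⬝ᵥ u j) ^ 2 * (2 + |kp i - kp j|), fun z => ?_⟩
  unfold qcert
  rw [← mul_neg, ← Finset.sum_neg_distrib]
  apply mul_le_mul_of_nonneg_left _ (by norm_num)
  refine Finset.sum_le_sum fun i _ => ?_
  rw [← Finset.sum_neg_distrib]
  refine Finset.sum_le_sum fun j _ => ?_
  rw [← mul_neg]
  apply mul_le_mul_of_nonneg_left (qpair_lower P _ _ _ z)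
  have := hα i; have := hα j; positivity

end Pool.Agent.Work.MP_6cd513_gt
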