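import Pool.Agent.Work.MP_6cd513_gt.TransportS
import Pool.Agent.Work.MP_6cd513_gt.CertE

/-!
# The dual certificate with pair dependent amplitudes and group self-weights
-/

open MeasureTheory ProbabilityTheory Matrix Finset
open scoped ENNReal

namespace Pool.Agent.Work.MP_6cd513_gt

variable {ι : Type*} [Fintype ι] {k : ℕ}

/-- the dual variable of a pair with amplitude `b` -/
noncomputable def pb (b : ℝ) (u v z : Fin k → ℝ) : ℝ := b * (ee v z - ee u z)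

theorem pb_anti (b : ℝ) (u v z : Fin k → ℝ) : pb b v u z = -pb b u v z := by unfold pb; ring

theorem pb_abs {b : ℝ} (hb : 0 ≤ b) (u v z : Fin k → ℝ) : |pb b u v z| ≤ b := by
  unfold pb
  rw [abs_mul, abs_of_nonneg hb]
  have h1 : |ee v z - ee u z| ≤ 1 := by
    rw [abs_le]
    have := ee_pos u z
    have := ee_pos v z
    have := ee_le_one u z
    have := ee_le_one v z
    constructor <;> linarith
  calc b * |ee v z - ee u z| ≤ b * 1 := mul_le_mul_of_nonneg_left h1 hb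
    _ = b := mul_one b

theorem parallel_dot {u v : Fin k → ℝ} (hu : u ⬝ᵥ u = 1) (hv : v ⬝ᵥ v = 1)
    (h : (u ⬝ᵥ v) ^ 2 = 1) (z : Fin k → ℝ) : (u ⬝ᵥ z) ^ 2 = (v ⬝ᵥ z) ^ 2 := by
  have h1 : (u - (u ⬝ᵥ v) • v) ⬝ᵥ (u - (u ⬝ᵥ v) • v) = 0 := by
    rw [sub_dotProduct, dotProduct_sub, dotProduct_sub, smul_dotProduct, smul_dotProduct,
      dotProduct_smul, dotProduct_smul, hu, hv, dotProduct_comm v u]
    simp only [smul_eq_mul]
    nlinarith
  have h2 := dotProduct_self_eq_zero.1 h1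
  have h3 : u = (u ⬝ᵥ v) • v := sub_eq_zero.1 h2
  have h4 : u ⬝ᵥ z = (u ⬝ᵥ v) * (v ⬝ᵥ z) := by
    conv_lhs => rw [h3]
    rw [smul_dotProduct, smul_eq_mul]
  rw [h4, mul_pow, h, one_mul]

theorem pb_eq_zero {b : ℝ} {u v : Fin k → ℝ} (hu : u ⬝ᵥ u = 1) (hv : v ⬝ᵥ v = 1)
    (h : (u ⬝ᵥ v) ^ 2 = 1) (z : Fin k → ℝ) : pb b u v z = 0 := by
  unfold pb ee
  rw [parallel_dot hu hv h z, sub_self, mul_zero]

/-- the quadratic coefficient -/
noncomputable def c2f (ρ b : ℝ) : ℝ := ρ / (1 - ρ ^ 2 * b ^ 2)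

theorem den_pos {ρ b : ℝ} (hρ0 : 0 ≤ ρ) (hρ1 : ρ ≤ 1) (hb0 : 0 ≤ b) (hb1 : b < 1) :
    0 < 1 - ρ ^ 2 * b ^ 2 := by
  have h1 : ρ ^ 2 ≤ 1 := by nlinarith
  have h2 : b ^ 2 < 1 := by nlinarith
  nlinarith [sq_nonneg b]

theorem poly_le2 {ρ b p : ℝ} (hρ0 : 0 ≤ ρ) (hρ1 : ρ ≤ 1) (hb0 : 0 ≤ b) (hb1 : b < 1)
    (hp : |p| ≤ b) : poly (c2f ρ b) (ρ * c2f ρ b) p ≤ p / (1 + ρ * p) := by
  obtain ⟨h1, h2⟩ := abs_le.1 hp
  have hpos : 0 < 1 + ρ * p := by nlinarith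
  have hD := den_pos hρ0 hρ1 hb0 hb1
  rw [le_div_iff₀ hpos]
  unfold poly
  set c := c2f ρ b with hc
  have hc1 : c = ρ + c * ρ ^ 2 * b ^ 2 := by
    rw [hc]; unfold c2f; field_simp; ring
  have hc0 : 0 ≤ c := by rw [hc]; unfold c2f; positivity
  have e : (p - c * p ^ 2 + ρ * c * p ^ 3) * (1 + ρ * p)
      = p - c * ρ ^ 2 * p ^ 2 * (b ^ 2 - p ^ 2) := by
    have h5 : (p - c * p ^ 2 + ρ * c * p ^ 3) * (1 + ρ * p)
        = p + (ρ - c) * p ^ 2 + ρ ^ 2 * c * p ^ 4 := by ring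
    have h6 : ρ - c = -(c * ρ ^ 2 * b ^ 2) := by linarith
    rw [h5, h6]
    ring
  rw [e]
  have h7 : 0 ≤ b ^ 2 - p ^ 2 := by nlinarith
  have h8 : 0 ≤ c * ρ ^ 2 * p ^ 2 * (b ^ 2 - p ^ 2) := by positivity
  linarith

/-- the Jensen step -/
theorem jensen2 {ι : Type*} [Fintype ι] {ρ b : ℝ} (hρ0 : 0 < ρ) (hρ1 : ρ ≤ 1) (hb0 : 0 ≤ b)
    (hb1 : b < 1) (om p F : ι → ℝ)
    (hom : ∀ j, 0 ≤ om j) (hsum : ∑ j, om j ≤ ρ) (hp : ∀ j, |p j| ≤ b)
    (hF : ∀ j, F j ≤ p j / (1 + ρ * p j)) :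
    0 < 1 + ∑ j, om j * p j ∧
    ∑ j, om j * F j ≤ (∑ j, om j * p j) / (1 + ∑ j, om j * p j) := by
  set f := ∑ j, om j * p j with hf
  have hf1 : -b ≤ f := by
    have h1 : ∑ j, om j * (-b) ≤ f :=
      Finset.sum_le_sum fun j _ => mul_le_mul_of_nonneg_left (abs_le.1 (hp j)).1 (hom j)
    rw [← Finset.sum_mul] at h1
    nlinarith
  have hpos : 0 < 1 + f := by linarith
  refine ⟨hpos, ?_⟩
  set W := ∑ j, om j with hW
  have hW0 : 0 ≤ W := Finset.sum_nonneg fun j _ => hom j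
  -- tangent inequality at `a = f / ρ`
  have h1 : ∀ j, F j ≤ (f / ρ) / (1 + f) + (p j - f / ρ) / (1 + f) ^ 2 := by
    intro j
    refine (hF j).trans ?_
    have hpj : 0 < 1 + ρ * p j := by nlinarith [(abs_le.1 (hp j)).1]
    rw [div_add_div _ _ hpos.ne' (pow_pos hpos 2).ne', div_le_div_iff₀ hpj (by positivity)]
    have h2 : f = ρ * (f / ρ) := by field_simp
    set a := f / ρ with ha
    have h3 : (a * (1 + f) ^ 2 + (1 + f) * (p j - a)) * (1 + ρ * p j)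
        - p j * ((1 + f) * (1 + f) ^ 2)
        = ρ * (1 + f) * (p j - a) ^ 2 := by
      rw [h2]; ring
    have h4 : 0 ≤ ρ * (1 + f) * (p j - a) ^ 2 := by positivity
    linarith
  have h2 : ∑ j, om j * F j ≤ ∑ j, om j *
      ((f / ρ) / (1 + f) + (p j - f / ρ) / (1 + f) ^ 2) :=
    Finset.sum_le_sum fun j _ => mul_le_mul_of_nonneg_left (h1 j) (hom j)
  have h3 : ∑ j, om j * ((f / ρ) / (1 + f) + (p j - f / ρ) / (1 + f) ^ 2)
      = W * ((f / ρ) / (1 + f)) + (f - W * (f / ρ)) / (1 + f) ^ 2 := by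
    exact sum_affine om p _ _ _
  rw [h3] at h2
  refine h2.trans ?_
  have h4 : f / (1 + f) - (W * ((f / ρ) / (1 + f)) + (f - W * (f / ρ)) / (1 + f) ^ 2)
      = (f / (1 + f)) ^ 2 * (1 - W / ρ) := by
    field_simp
    ring
  have h5 : 0 ≤ 1 - W / ρ := by
    rw [sub_nonneg, div_le_one hρ0]; exact hsum
  have h6 : 0 ≤ (f / (1 + f)) ^ 2 * (1 - W / ρ) := by positivity
  linarith

/-- the pair term of the certificate -/
noncomputable def qpair2 (b c2 c3 cc : ℝ) (u v : Fin k → ℝ) (d : ℝ) (z : Fin k → ℝ) : ℝ :=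
  poly c2 c3 (pb b u v z) * (u ⬝ᵥ z) ^ 2 + pb b u v z * d - cc * pb b u v z ^ 2

/-- the certificate -/
noncomputable def qcert2 (b cc : ι → ι → ℝ) (ρ α : ι → ℝ) (u : ι → Fin k → ℝ) (kp : ι → ℝ)
    (z : Fin k → ℝ) : ℝ :=
  (1 / 2) * ∑ i, ∑ j, α i * α j * (u i ⬝ᵥ u j) ^ 2 *
    qpair2 (b i j) (c2f (ρ i) (b i j)) (ρ i * c2f (ρ i) (b i j)) (cc i j) (u i) (u j)
      (kp i - kp j) z

/-- the hypotheses on the parameters of the certificate -/
structure CPar (b cc : ι → ι → ℝ) (ρ α : ι → ℝ) (u : ι → Fin k → ℝ) : Prop where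
  bs : ∀ i j, b j i = b i j
  cs : ∀ i j, cc j i = cc i j
  b0 : ∀ i j, 0 ≤ b i j
  b1 : ∀ i j, b i j ≤ 4 / 5
  young : ∀ i j (p d : ℝ), |p| ≤ b i j → p * d ≤ psi0 d + cc i j * p ^ 2
  r0 : ∀ i, 0 < ρ i
  r1 : ∀ i, ρ i ≤ 1
  rs : ∀ i, (∑ j, if (u i ⬝ᵥ u j) ^ 2 = 1 then 0 else α j * (u i ⬝ᵥ u j) ^ 2) ≤ ρ i

theorem qcert2_le {b cc : ι → ι → ℝ} {ρ α w : ι → ℝ} {u : ι → Fin k → ℝ}
    (P : CPar b cc ρ α u) (hα : ∀ i, 0 ≤ α i)
    (hw : ∀ i, 0 < w i) (hu : ∀ i, u i ⬝ᵥ u i = 1) (hiso : frameM α u = 1)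
    (t : ι → ℝ) (z : Fin k → ℝ) :
    qcert2 b cc ρ α u (fun i => Real.log gam - Real.log (w i)) z ≤ detDef α w u t
      + (1 / 2) * ∑ i, α i * (t i - u i ⬝ᵥ z) ^ 2 := by
  classical
  set τ : ι → ℝ := fun i => gam * Real.exp (t i ^ 2 / 2) / w i with hτ
  have hτ0 : ∀ i, 0 < τ i := fun i => div_pos (mul_pos gam_pos (Real.exp_pos _)) (hw i)
  have hlog : ∀ i, Real.log (τ i) = (Real.log gam - Real.log (w i)) + t i ^ 2 / 2 := by
    intro i
    simp only [hτ]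
    rw [Real.log_div (mul_pos gam_pos (Real.exp_pos _)).ne' (hw i).ne',
      Real.log_mul gam_pos.ne' (Real.exp_pos _).ne', Real.log_exp]
    ring
  have hosc := det_osc α τ u hα hu hiso hτ0
  have hdd : detDef α w u t = Real.log (frameM (fun i => α i * τ i) u).det
      - ∑ i, α i * Real.log (τ i) := rfl
  rw [← hdd] at hosc
  refine le_trans ?_ (add_le_add_left hosc _)
  set kp : ι → ℝ := fun i => Real.log gam - Real.log (w i) with hkp
  let p : ι → ι → ℝ := fun i j => pb (b i j) (u i) (u j) z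
  let W : ι → ι → ℝ := fun i j => α i * α j * (u i ⬝ᵥ u j) ^ 2
  have hW0 : ∀ i j, 0 ≤ W i j := fun i j => by
    have := hα i; have := hα j; positivity
  have hWs : ∀ i j, W j i = W i j := fun i j => by
    simp only [W]; rw [dotProduct_comm]; ring
  have hps : ∀ i j, p j i = -p i j := fun i j => by
    simp only [p]; rw [P.bs i j]; exact pb_anti _ _ _ _
  -- Young
  have h1 : ∑ i, ∑ j, W i j * (p i j * (kp i - kp j) + p i j * (t i ^ 2 / 2 - t j ^ 2 / 2)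
      - cc i j * p i j ^ 2) ≤ ∑ i, ∑ j, W i j * psi0 (Real.log (τ i) - Real.log (τ j)) := by
    refine Finset.sum_le_sum fun i _ => Finset.sum_le_sum fun j _ =>
      mul_le_mul_of_nonneg_left ?_ (hW0 i j)
    have h2 := P.young i j (p i j) (Real.log (τ i) - Real.log (τ j))
      (pb_abs (P.b0 i j) (u i) (u j) z)
    rw [hlog i, hlog j] at h2 ⊢
    simp only [hkp]
    linarith
  -- antisymmetry
  have h2 : ∑ i, ∑ j, W i j * (p i j * (t i ^ 2 / 2 - t j ^ 2 / 2))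
      = ∑ i, ∑ j, W i j * (p i j * t i ^ 2) := by
    have h3 : ∑ i, ∑ j, W i j * (p i j * (t j ^ 2 / 2))
        = -∑ i, ∑ j, W i j * (p i j * (t i ^ 2 / 2)) := by
      rw [Finset.sum_comm, ← Finset.sum_neg_distrib]
      refine Finset.sum_congr rfl fun i _ => ?_
      rw [← Finset.sum_neg_distrib]
      refine Finset.sum_congr rfl fun j _ => ?_
      rw [hWs i j, hps i j]; ring
    have h4 : ∑ i, ∑ j, W i j * (p i j * (t i ^ 2 / 2 - t j ^ 2 / 2))
        = ∑ i, ∑ j, W i j * (p i j * (t i ^ 2 / 2))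
          - ∑ i, ∑ j, W i j * (p i j * (t j ^ 2 / 2)) := by
      rw [← Finset.sum_sub_distrib]
      refine Finset.sum_congr rfl fun i _ => ?_
      rw [← Finset.sum_sub_distrib]
      exact Finset.sum_congr rfl fun j _ => by ring
    rw [h4, h3, sub_neg_eq_add, ← Finset.sum_add_distrib]
    refine Finset.sum_congr rfl fun i _ => ?_
    rw [← Finset.sum_add_distrib]
    exact Finset.sum_congr rfl fun j _ => by ring
  -- the per-vector inequality
  have h3 : ∀ i, ∑ j, W i j * (poly (c2f (ρ i) (b i j)) (ρ i * c2f (ρ i) (b i j)) (p i j) *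
      (u i ⬝ᵥ z) ^ 2)
      ≤ ∑ j, W i j * (p i j * t i ^ 2) + α i * (t i - u i ⬝ᵥ z) ^ 2 := by
    intro i
    let om : ι → ℝ := fun j => if (u i ⬝ᵥ u j) ^ 2 = 1 then 0 else α j * (u i ⬝ᵥ u j) ^ 2
    have hom : ∀ j, 0 ≤ om j := by
      intro j
      simp only [om]
      split_ifs
      · exact le_rfl
      · exact mul_nonneg (hα j) (sq_nonneg _)
    let F : ι → ℝ := fun j => poly (c2f (ρ i) (b i j)) (ρ i * c2f (ρ i) (b i j)) (p i j)
    obtain ⟨hf0, hf1⟩ := jensen2 (b := 4 / 5) (P.r0 i) (P.r1 i) (by norm_num) (by norm_num) om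
      (fun j => p i j) F hom (P.rs i)
      (fun j => (pb_abs (P.b0 i j) (u i) (u j) z).trans (P.b1 i j))
      (fun j => poly_le2 (P.r0 i).le (P.r1 i) (P.b0 i j) (by have := P.b1 i j; linarith)
        (pb_abs (P.b0 i j) (u i) (u j) z))
    have hz : ∀ H : ι → ℝ, (∀ j, p i j = 0 → H j = 0) →
        ∑ j, W i j * H j = α i * ∑ j, om j * H j := by
      intro H hH
      rw [Finset.mul_sum]
      refine Finset.sum_congr rfl fun j _ => ?_
      simp only [om, W]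
      split_ifs with h
      · rw [hH j (pb_eq_zero (hu i) (hu j) h z)]; ring
      · ring
    have e1 : ∑ j, W i j * (F j * (u i ⬝ᵥ z) ^ 2)
        = α i * ((∑ j, om j * F j) * (u i ⬝ᵥ z) ^ 2) := by
      have h5 := hz F (fun j hj => by simp only [F]; rw [hj]; simp [poly])
      rw [← mul_assoc, ← h5, Finset.sum_mul]
      exact Finset.sum_congr rfl fun j _ => by ring
    have e2 : ∑ j, W i j * (p i j * t i ^ 2) = α i * ((∑ j, om j * p i j) * t i ^ 2) := by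
      have h5 := hz (fun j => p i j) (fun j hj => hj)
      rw [← mul_assoc, ← h5, Finset.sum_mul]
      exact Finset.sum_congr rfl fun j _ => by ring
    rw [e2]
    refine (le_of_eq e1).trans ?_
    rw [← mul_add]
    apply mul_le_mul_of_nonneg_left _ (hα i)
    set f := ∑ j, om j * p i j with hf
    set G := u i ⬝ᵥ z with hG
    have h6 : (∑ j, om j * F j) * G ^ 2 ≤ f / (1 + f) * G ^ 2 :=
      mul_le_mul_of_nonneg_right hf1 (sq_nonneg _)
    refine h6.trans ?_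
    have h7 : f * t i ^ 2 + (t i - G) ^ 2 - f / (1 + f) * G ^ 2
        = ((1 + f) * t i - G) ^ 2 / (1 + f) := by
      field_simp
      ring
    have h8 : 0 ≤ ((1 + f) * t i - G) ^ 2 / (1 + f) := by positivity
    linarith
  have h4 := Finset.sum_le_sum fun i (_ : i ∈ (Finset.univ : Finset ι)) => h3 i
  rw [Finset.sum_add_distrib, ← h2] at h4
  have h5 : qcert2 b cc ρ α u kp z = (1 / 2) * (∑ i, ∑ j, W i j *
      (poly (c2f (ρ i) (b i j)) (ρ i * c2f (ρ i) (b i j)) (p i j) * (u i ⬝ᵥ z) ^ 2)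
      + ∑ i, ∑ j, W i j * (p i j * (kp i - kp j) - cc i j * p i j ^ 2)) := by
    unfold qcert2 qpair2
    congr 1
    rw [← Finset.sum_add_distrib]
    refine Finset.sum_congr rfl fun i _ => ?_
    rw [← Finset.sum_add_distrib]
    exact Finset.sum_congr rfl fun j _ => by simp only [W, p]; ring
  have h6 : ∑ i, ∑ j, W i j * (p i j * (kp i - kp j) + p i j * (t i ^ 2 / 2 - t j ^ 2 / 2)
      - cc i j * p i j ^ 2) = ∑ i, ∑ j, W i j * (p i j * (kp i - kp j) - cc i j * p i j ^ 2)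
      + ∑ i, ∑ j, W i j * (p i j * (t i ^ 2 / 2 - t j ^ 2 / 2)) := by
    rw [← Finset.sum_add_distrib]
    refine Finset.sum_congr rfl fun i _ => ?_
    rw [← Finset.sum_add_distrib]
    exact Finset.sum_congr rfl fun j _ => by ring
  rw [h5]
  rw [h6] at h1
  linarith

/-! ### expectation -/

/-- the square of the difference -/
theorem dsq_expand (u v z : Fin k → ℝ) : (ee v z - ee u z) ^ 2 =
    (ee u z ^ 0 * ee v z ^ 2) + (-2) * (ee u z ^ 1 * ee v z ^ 1) + (ee u z ^ 2 * ee v z ^ 0) := by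
  ring

theorem dsq_integrable (u v : Fin k → ℝ) :
    Integrable (fun z => (ee v z - ee u z) ^ 2) (gk k) := by
  simp_rw [dsq_expand]
  exact ((int0 u v 0 2).add ((int0 u v 1 1).const_mul _)).add (int0 u v 2 0)

theorem dsq_integral {u v : Fin k → ℝ} (hu : u ⬝ᵥ u = 1) (hv : v ⬝ᵥ v = 1) :
    ∫ z, (ee v z - ee u z) ^ 2 ∂(gk k)
      = 2 * (1 / Real.sqrt 3 - 1 / Real.sqrt (3 + (1 - (u ⬝ᵥ v) ^ 2))) := by
  simp_rw [dsq_expand]
  have i1 : Integrable (fun z => (-2) * (ee u z ^ 1 * ee v z ^ 1)) (gk k) :=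
    (int0 u v 1 1).const_mul _
  have i2 : Integrable (fun z => ee u z ^ 0 * ee v z ^ 2 + (-2) * (ee u z ^ 1 * ee v z ^ 1))
      (gk k) := (int0 u v 0 2).add i1
  rw [integral_add i2 (int0 u v 2 0), integral_add (int0 u v 0 2) i1, integral_const_mul,
    mono0 hu hv, mono0 hu hv, mono0 hu hv]
  have d02 : Dl ((0 : ℕ) : ℝ) ((2 : ℕ) : ℝ) ((u ⬝ᵥ v) ^ 2) = 3 := by
    unfold Dl; push_cast; ring
  have d20 : Dl ((2 : ℕ) : ℝ) ((0 : ℕ) : ℝ) ((u ⬝ᵥ v) ^ 2) = 3 := by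
    unfold Dl; push_cast; ring
  have d11 : Dl ((1 : ℕ) : ℝ) ((1 : ℕ) : ℝ) ((u ⬝ᵥ v) ^ 2) = 3 + (1 - (u ⬝ᵥ v) ^ 2) := by
    unfold Dl; push_cast; ring
  rw [d02, d20, d11]
  ring

theorem qpair2_eq (b c2 c3 cc : ℝ) (u v : Fin k → ℝ) (d : ℝ) (z : Fin k → ℝ) :
    qpair2 b c2 c3 cc u v d z = 2 * b * qpair (2 * b * c2) (4 * b ^ 2 * c3) u v d z
      + (8 * b / 25 - cc * b ^ 2) * (ee v z - ee u z) ^ 2 := by
  unfold qpair2 qpair poly pb pp
  ring

/-- the value of the pair expectation -/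
noncomputable def Tb (b c2 c3 cc y : ℝ) : ℝ :=
  b * y / (2 * Real.sqrt 2)
  - 2 * b ^ 2 * c2 * ((1 + y) * (1 / (3 * Real.sqrt 3) - 1 / ((3 + y) * Real.sqrt (3 + y))))
  + 3 * b ^ 3 * c3 * (y * (1 / 8 - 1 / ((4 + 2 * y) * Real.sqrt (4 + 2 * y))))
  - 2 * cc * b ^ 2 * (1 / Real.sqrt 3 - 1 / Real.sqrt (3 + y))

theorem qpair2_integrable (b c2 c3 cc : ℝ) {u : Fin k → ℝ} (hu : u ⬝ᵥ u = 1)
    (v : Fin k → ℝ) (d : ℝ) : Integrable (fun z => qpair2 b c2 c3 cc u v d z) (gk k) := by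
  simp_rw [qpair2_eq]
  exact ((qpair_integrable _ _ hu v d).const_mul _).add ((dsq_integrable u v).const_mul _)

theorem qpair2_integral (b c2 c3 cc : ℝ) {u v : Fin k → ℝ} (hu : u ⬝ᵥ u = 1)
    (hv : v ⬝ᵥ v = 1) (d : ℝ) : ∫ z, qpair2 b c2 c3 cc u v d z ∂(gk k)
      = Tb b c2 c3 cc (1 - (u ⬝ᵥ v) ^ 2) := by
  simp_rw [qpair2_eq]
  rw [integral_add ((qpair_integrable _ _ hu v d).const_mul _)
    ((dsq_integrable u v).const_mul _), integral_const_mul, integral_const_mul,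
    qpair_integral _ _ hu hv, dsq_integral hu hv]
  unfold Tf Tb
  have h2 : Real.sqrt 2 ≠ 0 := (Real.sqrt_pos.2 (by norm_num)).ne'
  have e : ∀ y : ℝ, 2 * b * (y / (4 * Real.sqrt 2)) = b * y / (2 * Real.sqrt 2) := by
    intro y
    field_simp
    ring
  set y := 1 - (u ⬝ᵥ v) ^ 2
  rw [← e y]
  ring

theorem qpair2_lower {ρ b cc : ℝ} (hρ0 : 0 < ρ) (hρ1 : ρ ≤ 1) (hb0 : 0 ≤ b) (hb1 : b ≤ 4 / 5)
    (u v : Fin k → ℝ) (d : ℝ) (z : Fin k → ℝ) :
    -(7 + |d| + |cc|) ≤ qpair2 b (c2f ρ b) (ρ * c2f ρ b) cc u v d z := by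
  unfold qpair2
  set p := pb b u v z with hp
  have hp1 := pb_abs hb0 u v z
  rw [← hp] at hp1
  obtain ⟨h1, h2⟩ := abs_le.1 hp1
  have hρ2 : ρ ^ 2 ≤ 1 := by nlinarith
  have hb2 : b ^ 2 ≤ 16 / 25 := by nlinarith
  have hD1 : 9 / 25 ≤ 1 - ρ ^ 2 * b ^ 2 := by nlinarith [sq_nonneg b, sq_nonneg ρ]
  set c2 := c2f ρ b with hc2
  have hc20 : 0 ≤ c2 := by rw [hc2]; unfold c2f; positivity
  have hc2a : c2 ≤ 3 * ρ := by
    rw [hc2]; unfold c2f
    rw [div_le_iff₀ (by linarith)]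
    nlinarith
  have hc2b : c2 ≤ 3 := by linarith
  have a1 : -7 ≤ poly c2 (ρ * c2) p * (u ⬝ᵥ z) ^ 2 := by
    have hG := ee_sq_bound u z
    have e : poly c2 (ρ * c2) p = p * (1 - c2 * p + ρ * c2 * p ^ 2) := by unfold poly; ring
    rcases le_total 0 p with h | h
    · have h3 : 0 ≤ 1 - c2 * p + ρ * c2 * p ^ 2 := by
        have h4 : 0 ≤ c2 * (ρ * p ^ 2 - p + 1 / (4 * ρ)) := by
          apply mul_nonneg hc20
          have : ρ * p ^ 2 - p + 1 / (4 * ρ) = ρ * (p - 1 / (2 * ρ)) ^ 2 := by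
            field_simp
            ring
          rw [this]; positivity
        have h5 : c2 * (1 / (4 * ρ)) ≤ 1 := by
          rw [mul_one_div, div_le_one (by positivity)]
          linarith
        nlinarith
      rw [e]
      have : 0 ≤ p * (1 - c2 * p + ρ * c2 * p ^ 2) * (u ⬝ᵥ z) ^ 2 := by positivity
      linarith
    · have hpm : -1 ≤ p := by linarith
      have h3 : 1 - c2 * p + ρ * c2 * p ^ 2 ≤ 7 := by
        have g1 : c2 * (-p) ≤ 3 * 1 :=
          mul_le_mul hc2b (by linarith) (by linarith) (by norm_num)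
        have g3 : ρ * c2 ≤ 3 := by nlinarith
        have g2 : ρ * c2 * p ^ 2 ≤ 3 * 1 := by
          apply mul_le_mul g3 _ (sq_nonneg _) (by norm_num)
          nlinarith
        linarith
      have h4 : -ee u z ≤ p := by
        rw [hp]; unfold pb
        have := ee_pos v z
        have := ee_pos u z
        nlinarith
      have h6 : 0 ≤ 1 - c2 * p + ρ * c2 * p ^ 2 := by
        have : 0 ≤ -(c2 * p) := by nlinarith
        have : 0 ≤ ρ * c2 * p ^ 2 := by positivity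
        linarith
      have h5 : -(ee u z * 7) ≤ poly c2 (ρ * c2) p := by
        rw [e]
        calc -(ee u z * 7) = -ee u z * 7 := by ring
          _ ≤ -ee u z * (1 - c2 * p + ρ * c2 * p ^ 2) := by
              have := ee_pos u z
              nlinarith
          _ ≤ _ := mul_le_mul_of_nonneg_right h4 h6
      have h7 := mul_le_mul_of_nonneg_right h5 (sq_nonneg (u ⬝ᵥ z))
      nlinarith
  have hp2 : |p| ≤ 1 := by linarith
  have a2 : -|d| ≤ p * d := by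
    have h3 : |p * d| ≤ |d| := by
      rw [abs_mul]
      have := abs_nonneg d
      nlinarith
    have := neg_abs_le (p * d)
    linarith
  have a3 : cc * p ^ 2 ≤ |cc| := by
    have h3 : p ^ 2 ≤ 1 := by
      rw [← sq_abs]
      have := abs_nonneg p
      nlinarith
    calc cc * p ^ 2 ≤ |cc| * p ^ 2 := mul_le_mul_of_nonneg_right (le_abs_self _) (sq_nonneg _)
      _ ≤ |cc| * 1 := mul_le_mul_of_nonneg_left h3 (abs_nonneg _)
      _ = |cc| := mul_one _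
  linarith

theorem qcert2_measurable (b cc : ι → ι → ℝ) (ρ α : ι → ℝ) (u : ι → Fin k → ℝ) (kp : ι → ℝ) :
    Measurable (qcert2 b cc ρ α u kp) := by
  unfold qcert2
  apply Continuous.measurable
  apply Continuous.mul continuous_const
  apply continuous_finsetSum
  intro i _
  apply continuous_finsetSum
  intro j _
  apply Continuous.mul continuous_const
  unfold qpair2 poly pb
  have h1 := ee_cont (u i)
  have h2 := ee_cont (u j)
  have h3 := dot_cont (u i)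
  fun_prop

theorem qcert2_integrable (b cc : ι → ι → ℝ) (ρ α : ι → ℝ) {u : ι → Fin k → ℝ}
    (hu : ∀ i, u i ⬝ᵥ u i = 1) (kp : ι → ℝ) : Integrable (qcert2 b cc ρ α u kp) (gk k) := by
  unfold qcert2
  apply Integrable.const_mul
  apply integrable_finsetSum
  intro i _
  apply integrable_finsetSum
  intro j _
  exact (qpair2_integrable _ _ _ _ (hu i) (u j) _).const_mul _

/-- the value of the pair term of the certificate -/
noncomputable def Tp (b cc ρ y : ℝ) : ℝ := Tb b (c2f ρ b) (ρ * c2f ρ b) cc y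

theorem qcert2_integral (b cc : ι → ι → ℝ) (ρ α : ι → ℝ) {u : ι → Fin k → ℝ}
    (hu : ∀ i, u i ⬝ᵥ u i = 1) (kp : ι → ℝ) : ∫ z, qcert2 b cc ρ α u kp z ∂(gk k)
      = (1 / 2) * ∑ i, ∑ j, α i * α j * (u i ⬝ᵥ u j) ^ 2 *
        Tp (b i j) (cc i j) (ρ i) (1 - (u i ⬝ᵥ u j) ^ 2) := by
  unfold qcert2
  rw [integral_const_mul, integral_finsetSum]
  · congr 1
    refine Finset.sum_congr rfl fun i _ => ?_
    rw [integral_finsetSum]
    · refine Finset.sum_congr rfl fun j _ => ?_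
      rw [integral_const_mul, qpair2_integral _ _ _ _ (hu i) (hu j)]
      rfl
    · intro j _
      exact (qpair2_integrable _ _ _ _ (hu i) (u j) _).const_mul _
  · intro i _
    apply integrable_finsetSum
    intro j _
    exact (qpair2_integrable _ _ _ _ (hu i) (u j) _).const_mul _

theorem qcert2_lower {b cc : ι → ι → ℝ} {ρ α : ι → ℝ} {u : ι → Fin k → ℝ}
    (P : CPar b cc ρ α u) (hα : ∀ i, 0 ≤ α i) (kp : ι → ℝ) :
    ∃ B : ℝ, ∀ z, -B ≤ qcert2 b cc ρ α u kp z := by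
  refine ⟨(1 / 2) * ∑ i, ∑ j, α i * α j * (u i ⬝ᵥ u j) ^ 2 * (7 + |kp i - kp j| + |cc i j|),
    fun z => ?_⟩
  unfold qcert2
  rw [← mul_neg, ← Finset.sum_neg_distrib]
  apply mul_le_mul_of_nonneg_left _ (by norm_num)
  refine Finset.sum_le_sum fun i _ => ?_
  rw [← Finset.sum_neg_distrib]
  refine Finset.sum_le_sum fun j _ => ?_
  rw [← mul_neg]
  apply mul_le_mul_of_nonneg_left (qpair2_lower (P.r0 i) (P.r1 i) (P.b0 i j) (P.b1 i j) _ _ _ z)
  have := hα i; have := hα j; positivity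

/-- the slab bound with the improved defect -/
theorem slabS_defect2 {b cc : ι → ι → ℝ} {ρ α w sh : ι → ℝ} {u : ι → Fin k → ℝ}
    (P : CPar b cc ρ α u) (hα : ∀ i, 0 ≤ α i)
    (hw : ∀ i, 0 < w i) (hu : ∀ i, u i ⬝ᵥ u i = 1) (hiso : frameM α u = 1) :
    volume (slabS w u sh) ≤ ENNReal.ofReal (Real.exp (∑ i, α i * Real.log (2 * w i)
      - (1 / 2) * ∑ i, ∑ j, α i * α j * (u i ⬝ᵥ u j) ^ 2 *
        Tp (b i j) (cc i j) (ρ i) (1 - (u i ⬝ᵥ u j) ^ 2))) := by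
  set kp : ι → ℝ := fun i => Real.log gam - Real.log (w i) with hkp
  obtain ⟨B, hB⟩ := qcert2_lower P hα kp
  have h := transport_boundS' (sh := sh) hα hw hu hiso (qcert2_measurable b cc ρ α u kp)
    (qcert2_integrable b cc ρ α hu kp) hB (fun t z => qcert2_le P hα hw hu hiso t z)
  rwa [qcert2_integral b cc ρ α hu kp] at h

end Pool.Agent.Work.MP_6cd513_gt
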