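import Pool.Agent.Work.MP_6cd513_gt.Frames

/-!
# The complementary tight frame
-/

open Matrix Finset MeasureTheory

namespace Pool.Agent.Work.MP_6cd513_gt

theorem exists_complement {n k m : ℕ} (hn : n = k + m) {w : Fin n → Fin k → ℝ}
    (hw : gramM w = 1) : ∃ z : Fin n → Fin m → ℝ, gramM z = 1 ∧
      (∀ a b, ∑ i, w i a * z i b = 0) ∧ ∀ i, w i ⬝ᵥ w i + z i ⬝ᵥ z i = 1 := by
  classical
  let col : Fin k → EuclideanSpace ℝ (Fin n) := fun a => WithLp.toLp 2 fun i => w i a
  have hcol : Orthonormal ℝ col := by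
    rw [orthonormal_iff_ite]
    intro a b
    rw [EuclideanSpace.inner_eq_star_dotProduct]
    simp only [star_trivial, dotProduct, col]
    have h := congrFun (congrFun hw b) a
    rw [gramM_apply, Matrix.one_apply] at h
    rw [h]
    simp only [eq_comm]
  set S : Submodule ℝ (EuclideanSpace ℝ (Fin n)) := Submodule.span ℝ (Set.range col) with hS
  have hSk : Module.finrank ℝ S = k := by
    rw [hS, finrank_span_eq_card hcol.linearIndependent, Fintype.card_fin]
  have hSm : Module.finrank ℝ Sᗮ = m := by
    have h := S.finrank_add_finrank_orthogonal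
    rw [hSk, finrank_euclideanSpace_fin] at h
    omega
  let b : OrthonormalBasis (Fin m) ℝ Sᗮ := (stdOrthonormalBasis ℝ Sᗮ).reindex (finCongr hSm)
  let z : Fin n → Fin m → ℝ := fun i p => (b p : EuclideanSpace ℝ (Fin n)) i
  have hgram : gramM z = 1 := by
    ext p q
    rw [gramM_apply]
    have h1 := (orthonormal_iff_ite.1 b.orthonormal) q p
    rw [Submodule.coe_inner, EuclideanSpace.inner_eq_star_dotProduct] at h1
    rw [Matrix.one_apply]
    simp only [star_trivial, dotProduct] at h1
    simp only [z]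
    rw [h1]
    simp only [eq_comm]
  have hwz : ∀ a p, ∑ i, w i a * z i p = 0 := by
    intro a p
    have h1 : inner ℝ (col a) (b p : EuclideanSpace ℝ (Fin n)) = 0 :=
      Submodule.inner_right_of_mem_orthogonal (Submodule.subset_span (Set.mem_range_self a))
        (b p).2
    rw [EuclideanSpace.inner_eq_star_dotProduct] at h1
    simp only [star_trivial, dotProduct, col] at h1
    rw [← h1]
    refine Finset.sum_congr rfl fun i _ => ?_
    simp only [z]
    ring
  refine ⟨z, hgram, hwz, fun i => ?_⟩
  have h1 : (Matrix.of w)ᵀ * Matrix.of w = 1 := by rw [← gramM_eq, hw]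
  have h2 : (Matrix.of z)ᵀ * Matrix.of z = 1 := by rw [← gramM_eq, hgram]
  have h3 : (Matrix.of w)ᵀ * Matrix.of z = 0 := by
    ext a p
    rw [mul_apply, Matrix.zero_apply]
    exact hwz a p
  have h4 : (Matrix.of z)ᵀ * Matrix.of w = 0 := by
    ext p a
    rw [mul_apply, Matrix.zero_apply, ← hwz a p]
    refine Finset.sum_congr rfl fun i _ => ?_
    simp only [transpose_apply, of_apply]
    ring
  have h5 : (fromCols (Matrix.of w) (Matrix.of z))ᵀ * fromCols (Matrix.of w) (Matrix.of z) = 1 := by
    rw [transpose_fromCols, fromRows_mul_fromCols, h1, h2, h3, h4, fromBlocks_one]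
  have h6 : fromCols (Matrix.of w) (Matrix.of z) * (fromCols (Matrix.of w) (Matrix.of z))ᵀ = 1 :=
    (mul_eq_one_comm_of_card_eq _ _ _ (by simp [hn])).1 h5
  rw [transpose_fromCols, fromCols_mul_fromRows] at h6
  have h7 := congrFun (congrFun h6 i) i
  rw [Matrix.add_apply, mul_apply, mul_apply, Matrix.one_apply_eq] at h7
  exact h7

end Pool.Agent.Work.MP_6cd513_gt
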