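import Pool.Agent.Work.MP_6cd513_gt.Greedy

/-!
# Near equality forces all directions to cluster around a basis
-/

open Matrix Finset MeasureTheory

namespace Pool.Agent.Work.MP_6cd513_gt

variable {k : ℕ}

theorem det_near (k : ℕ) {θ : ℝ} (hθ : 0 < θ) : ∃ ε : ℝ, 0 < ε ∧
    ∀ G : Matrix (Fin k) (Fin k) ℝ, (∀ q, G q q = 1) → (∀ q r, q ≠ r → |G q r| ≤ ε) →
      |G.det - 1| ≤ θ := by
  have hcont : Continuous fun G : Fin k → Fin k → ℝ => (Matrix.of G).det := by
    apply Continuous.matrix_det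
    exact continuous_id
  have h1 := Metric.continuous_iff.1 hcont (fun q r => if q = r then 1 else 0) θ hθ
  obtain ⟨ε, hε, h⟩ := h1
  refine ⟨ε / 2, by positivity, fun G hG1 hG2 => ?_⟩
  have hd : dist (fun q r => G q r) (fun q r => if q = r then (1 : ℝ) else 0) < ε := by
    refine lt_of_le_of_lt ?_ (half_lt_self hε)
    rw [dist_pi_le_iff (by positivity)]
    intro q
    rw [dist_pi_le_iff (by positivity)]
    intro r
    by_cases hqr : q = r
    · subst hqr
      simp only [hG1, if_true, dist_self]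
      positivity
    · simp only [hqr, if_false, Real.dist_eq, sub_zero]
      exact hG2 q r hqr
  have h2 := h _ hd
  rw [Real.dist_eq] at h2
  have h3 : (Matrix.of fun q r : Fin k => if q = r then (1 : ℝ) else 0) = 1 := by
    ext q r; simp [Matrix.one_apply]
  rw [h3, det_one] at h2
  exact h2.le

/-- volume of a preimage of a product set under a matrix -/
theorem vol_preimage {U : Matrix (Fin k) (Fin k) ℝ} (hU : U.det ≠ 0) (s : Set (Fin k → ℝ)) :
    volume {x : Fin k → ℝ | U *ᵥ x ∈ s} = ENNReal.ofReal |(U.det)⁻¹| * volume s := by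
  have h := Measure.addHaar_preimage_linearMap (volume : Measure (Fin k → ℝ))
    (f := toLin' U) (by rwa [LinearMap.det_toLin']) s
  rw [LinearMap.det_toLin'] at h
  exact h

theorem corner_bound {ι : Type} [Fintype ι] {u : ι → Fin k → ℝ} {b : Fin k → ι}
    {U : Matrix (Fin k) (Fin k) ℝ} (hUb : ∀ q, U q = u (b q)) (hU : U.det ≠ 0)
    {ζ δ : ℝ} (hζ0 : 0 < ζ) (hζ1 : ζ < 1) (hδ1 : δ ≤ 1)
    (hvol : ENNReal.ofReal (2 ^ k * (1 - δ)) ≤ volume (slab (fun _ : ι => (1 : ℝ)) u))
    (i : ι) {lam : Fin k → ℝ} (hlam : u i = lam ᵥ* U)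
    (hbig : 1 < (1 - ζ) * ∑ q, |lam q|) :
    2 ^ k * (1 - δ) * |U.det| + ζ ^ k ≤ 2 ^ k := by
  classical
  let J : Fin k → Set ℝ := fun q => if 0 ≤ lam q then Set.Ioo (1 - ζ) 1 else Set.Ioo (-1) (-(1 - ζ))
  set S1 : Set (Fin k → ℝ) := {x | U *ᵥ x ∈ Set.univ.pi fun _ : Fin k => Set.Ioo (-1 : ℝ) 1}
    with hS1
  set C : Set (Fin k → ℝ) := {x | U *ᵥ x ∈ Set.univ.pi J} with hC
  have hJm : ∀ q, MeasurableSet (J q) := by
    intro q
    simp only [J]
    split_ifs <;> exact measurableSet_Ioo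
  have hCm : MeasurableSet C := by
    have hc : Continuous fun x : Fin k → ℝ => U *ᵥ x := (toLin' U).continuous_of_finiteDimensional
    exact hc.measurable (MeasurableSet.univ_pi hJm)
  have hvC : volume C = ENNReal.ofReal |(U.det)⁻¹| * ENNReal.ofReal (ζ ^ k) := by
    rw [hC, vol_preimage hU]
    congr 1
    rw [volume_pi, Measure.pi_pi]
    have : ∀ q, volume (J q) = ENNReal.ofReal ζ := by
      intro q
      simp only [J]
      split_ifs
      · rw [Real.volume_Ioo]; congr 1; ring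
      · rw [Real.volume_Ioo]; congr 1; ring
    simp_rw [this]
    rw [Finset.prod_const, Finset.card_univ, Fintype.card_fin, ENNReal.ofReal_pow hζ0.le]
  have hvS : volume S1 = ENNReal.ofReal |(U.det)⁻¹| * ENNReal.ofReal (2 ^ k) := by
    rw [hS1, vol_preimage hU]
    congr 1
    rw [volume_pi, Measure.pi_pi]
    simp_rw [Real.volume_Ioo]
    rw [Finset.prod_const, Finset.card_univ, Fintype.card_fin, ← ENNReal.ofReal_pow (by norm_num)]
    norm_num
  have hsub : slab (fun _ : ι => (1 : ℝ)) u ∪ C ⊆ S1 := by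
    apply Set.union_subset
    · intro x hx
      rw [hS1, Set.mem_ofPred_eq, Set.mem_univ_pi]
      intro q
      have h1 := hx (b q)
      have h2 : (U *ᵥ x) q = u (b q) ⬝ᵥ x := by rw [← hUb q]; rfl
      rw [h2]
      exact abs_lt.1 h1
    · intro x hx
      rw [hC, Set.mem_ofPred_eq, Set.mem_univ_pi] at hx
      rw [hS1, Set.mem_ofPred_eq, Set.mem_univ_pi]
      intro q
      have h1 := hx q
      simp only [J] at h1
      split_ifs at h1
      · exact ⟨by linarith [h1.1], h1.2⟩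
      · exact ⟨h1.1, by linarith [h1.2]⟩
  have hdisj : Disjoint (slab (fun _ : ι => (1 : ℝ)) u) C := by
    rw [Set.disjoint_left]
    intro x hx hxC
    rw [hC, Set.mem_ofPred_eq, Set.mem_univ_pi] at hxC
    have h1 : u i ⬝ᵥ x = ∑ q, lam q * (U *ᵥ x) q := by
      rw [hlam, ← dotProduct_mulVec]; rfl
    have h2 : ∀ q, (1 - ζ) * |lam q| ≤ lam q * (U *ᵥ x) q := by
      intro q
      have h3 := hxC q
      simp only [J] at h3
      split_ifs at h3 with h4
      · rw [abs_of_nonneg h4]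
        nlinarith [h3.1]
      · push Not at h4
        rw [abs_of_neg h4]
        nlinarith [h3.2]
    have h3 : (1 - ζ) * ∑ q, |lam q| ≤ u i ⬝ᵥ x := by
      rw [h1, Finset.mul_sum]
      exact Finset.sum_le_sum fun q _ => h2 q
    have h4 := (abs_lt.1 (hx i)).2
    linarith
  have hmeas := measure_mono (μ := volume) hsub
  rw [measure_union hdisj hCm, hvC, hvS, ← ENNReal.ofReal_mul (abs_nonneg _),
    ← ENNReal.ofReal_mul (abs_nonneg _)] at hmeas
  have h1 : ENNReal.ofReal (2 ^ k * (1 - δ) + |(U.det)⁻¹| * ζ ^ k)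
      ≤ ENNReal.ofReal (|(U.det)⁻¹| * 2 ^ k) := by
    rw [ENNReal.ofReal_add (mul_nonneg (by positivity) (by linarith)) (by positivity)]
    exact (add_le_add_left hvol _).trans hmeas
  rw [ENNReal.ofReal_le_ofReal_iff (by positivity)] at h1
  have hdpos : 0 < |U.det| := abs_pos.2 hU
  have h2 := mul_le_mul_of_nonneg_right h1 hdpos.le
  have h3 : |(U.det)⁻¹| * |U.det| = 1 := by rw [← abs_mul, inv_mul_cancel₀ hU, abs_one]
  have h4 : |(U.det)⁻¹| * 2 ^ k * |U.det| = 2 ^ k := by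
    rw [mul_right_comm, h3, one_mul]
  have h5 : (2 ^ k * (1 - δ) + |(U.det)⁻¹| * ζ ^ k) * |U.det|
      = 2 ^ k * (1 - δ) * |U.det| + ζ ^ k := by
    rw [add_mul, mul_right_comm |(U.det)⁻¹|, h3, one_mul]
  rw [h4, h5] at h2
  exact h2

/-- **Cluster theorem.** -/
theorem cluster (hk : 1 ≤ k) {θ : ℝ} (hθ0 : 0 < θ) (hθ1 : θ ≤ 1 / (16 * k)) :
    ∃ δ0 : ℝ, 0 < δ0 ∧ ∀ (ι : Type) [Fintype ι] (α : ι → ℝ)
    (u : ι → Fin k → ℝ), (∀ i, 0 ≤ α i) → (∀ i, u i ⬝ᵥ u i = 1) → frameM α u = 1 →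
    ENNReal.ofReal (2 ^ k * (1 - δ0)) ≤ volume (slab (fun _ : ι => (1 : ℝ)) u) →
    ∃ (U : Matrix (Fin k) (Fin k) ℝ) (j : ι → Fin k) (lam : ι → Fin k → ℝ), U.det ≠ 0 ∧
      (∀ i, u i = lam i ᵥ* U) ∧
      (∀ i, ∑ q ∈ Finset.univ.erase (j i), |lam i q| ≤ θ * |lam i (j i)|) ∧
      (∀ i, 1 - θ ≤ |lam i (j i)| ∧ |lam i (j i)| ≤ 1 + θ) ∧
      (∀ q, 1 / 2 ≤ ∑ i with j i = q, α i ∧ ∑ i with j i = q, α i ≤ 2) := by
  classical
  have hk' : (1 : ℝ) ≤ k := by exact_mod_cast hk
  have hθle : θ ≤ 1 / 16 := hθ1.trans (by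
    apply one_div_le_one_div_of_le (by norm_num); linarith)
  set ζ : ℝ := θ / 16 with hζ
  have hζ0 : 0 < ζ := by positivity
  have hζ1 : ζ < 1 := by linarith
  set κ : ℝ := (1 / 4) * (ζ / 2) ^ k with hκ
  have hκ0 : 0 < κ := by positivity
  have hκ1 : κ ≤ 1 / 4 := by
    have : (ζ / 2) ^ k ≤ 1 := pow_le_one₀ (by positivity) (by linarith)
    linarith
  obtain ⟨ε1, hε1, hdet⟩ := det_near k hκ0
  set ε : ℝ := min ε1 (θ / 32) with hε
  have hε0 : 0 < ε := lt_min hε1 (by positivity)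
  obtain ⟨η0, hη0, hgreedy⟩ := greedy hk hε0
  obtain ⟨C, hC, hbound⟩ := eta_bound hk
  set δ0 : ℝ := min κ (η0 / C) with hδ0
  have hδpos : 0 < δ0 := lt_min hκ0 (by positivity)
  have hδκ : δ0 ≤ κ := min_le_left _ _
  refine ⟨δ0, hδpos, ?_⟩
  intro ι _ α u hα hu hiso hvol
  have heta : eta α u ≤ η0 := by
    have h1 := hbound ι α u hα hu hiso δ0 hvol (by linarith)
    have h2 : C * δ0 ≤ C * (η0 / C) := mul_le_mul_of_nonneg_left (min_le_right _ _) hC.le
    have h3 : C * (η0 / C) = η0 := by field_simp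
    linarith
  obtain ⟨b, hb⟩ := hgreedy ι α u hα hu hiso heta
  let U : Matrix (Fin k) (Fin k) ℝ := Matrix.of fun q => u (b q)
  have hUb : ∀ q, U q = u (b q) := fun q => rfl
  have hGram : ∀ q r, (U * Uᵀ) q r = u (b q) ⬝ᵥ u (b r) := fun q r => by
    rw [mul_apply']; rfl
  have hdetG := hdet (U * Uᵀ) (fun q => by rw [hGram, hu]) (fun q r hqr => by
    rw [hGram]; exact (hb q r hqr).trans (min_le_left _ _))
  rw [det_mul, det_transpose] at hdetG
  have hdet1 : 1 - κ ≤ |U.det| := by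
    have h1 := (abs_le.1 hdetG).1
    have h2 : U.det * U.det = |U.det| * |U.det| := (abs_mul_abs_self _).symm
    rw [h2] at h1
    by_contra hcon
    push Not at hcon
    nlinarith [abs_nonneg U.det]
  have hUdet : U.det ≠ 0 := by
    intro h
    rw [h, abs_zero] at hdet1
    linarith
  have hUunit : IsUnit U.det := isUnit_iff_ne_zero.2 hUdet
  let lam : ι → Fin k → ℝ := fun i => u i ᵥ* U⁻¹
  have hlam : ∀ i, u i = lam i ᵥ* U := by
    intro i
    simp only [lam]
    rw [vecMul_vecMul, nonsing_inv_mul _ hUunit, vecMul_one]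
  -- l1 bound
  have hl1 : ∀ i, (1 - ζ) * ∑ q, |lam i q| ≤ 1 := by
    intro i
    by_contra hcon
    push Not at hcon
    have h1 := corner_bound hUb hUdet hζ0 hζ1 (by linarith) hvol i (hlam i) hcon
    have h2 : (1 - δ0) * (1 - κ) ≤ (1 - δ0) * |U.det| :=
      mul_le_mul_of_nonneg_left hdet1 (by linarith)
    have h3 : (1 - 2 * κ) ≤ (1 - δ0) * (1 - κ) := by nlinarith
    have h4 : (2 : ℝ) ^ k * κ = ζ ^ k / 4 := by
      rw [hκ, div_pow]; field_simp
    have h5 : (0 : ℝ) < 2 ^ k := by positivity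
    have h6 : 2 ^ k * (1 - 2 * κ) ≤ 2 ^ k * (1 - δ0) * |U.det| := by
      rw [mul_assoc]
      exact mul_le_mul_of_nonneg_left (h3.trans h2) h5.le
    have h7 : 0 < ζ ^ k := by positivity
    nlinarith
  have hs : ∀ i, ∑ q, |lam i q| ≤ 1 + 2 * ζ := by
    intro i
    have h1 := hl1 i
    by_contra hcon
    push Not at hcon
    nlinarith
  -- quadratic form
  have hquad : ∀ i, 1 ≤ ∑ q, (lam i q) ^ 2 + ε * (∑ q, |lam i q|) ^ 2 := by
    intro i
    have h1 : u i ⬝ᵥ u i = ∑ q, ∑ r, lam i q * lam i r * (u (b q) ⬝ᵥ u (b r)) := by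
      have h2 : u i = ∑ q, lam i q • u (b q) := by
        conv_lhs => rw [hlam i]
        ext p
        simp [vecMul, dotProduct, hUb, Finset.sum_apply]
      conv_lhs => rw [h2]
      rw [sum_dotProduct]
      refine Finset.sum_congr rfl fun q _ => ?_
      rw [dotProduct_sum]
      refine Finset.sum_congr rfl fun r _ => ?_
      rw [smul_dotProduct, dotProduct_smul, smul_eq_mul, smul_eq_mul]
      ring
    rw [hu i] at h1
    have h3 : ∀ q r, lam i q * lam i r * (u (b q) ⬝ᵥ u (b r)) ≤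
        (if q = r then (lam i q) ^ 2 else 0) + ε * (|lam i q| * |lam i r|) := by
      intro q r
      by_cases hqr : q = r
      · subst hqr
        rw [hu, if_pos rfl]
        have : 0 ≤ ε * (|lam i q| * |lam i q|) := by positivity
        nlinarith
      · rw [if_neg hqr, zero_add]
        have h4 := hb q r hqr
        calc lam i q * lam i r * (u (b q) ⬝ᵥ u (b r)) ≤
              |lam i q * lam i r * (u (b q) ⬝ᵥ u (b r))| := le_abs_self _
          _ = |lam i q| * |lam i r| * |u (b q) ⬝ᵥ u (b r)| := by rw [abs_mul, abs_mul]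
          _ ≤ |lam i q| * |lam i r| * ε := mul_le_mul_of_nonneg_left h4 (by positivity)
          _ = _ := by ring
    have h4 := Finset.sum_le_sum fun q (_ : q ∈ (Finset.univ : Finset (Fin k))) =>
      Finset.sum_le_sum fun r (_ : r ∈ (Finset.univ : Finset (Fin k))) => h3 q r
    rw [← h1] at h4
    refine h4.trans (le_of_eq ?_)
    simp_rw [Finset.sum_add_distrib, ← Finset.mul_sum]
    congr 1
    · refine Finset.sum_congr rfl fun q _ => ?_
      rw [Finset.sum_ite_eq Finset.univ q]; simp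
    · rw [← Finset.sum_mul, sq]
  have : NeZero k := ⟨by omega⟩
  -- the largest coordinate
  have hmax : ∀ i, ∃ q, ∀ r, |lam i r| ≤ |lam i q| := by
    intro i
    obtain ⟨q, _, hq⟩ := Finset.exists_max_image Finset.univ (fun q => |lam i q|)
      ⟨0, Finset.mem_univ _⟩
    exact ⟨q, fun r => hq r (Finset.mem_univ r)⟩
  choose j hj using hmax
  have hsplit : ∀ i, ∑ q, |lam i q| = |lam i (j i)| + ∑ q ∈ Finset.univ.erase (j i), |lam i q| :=
    fun i => (Finset.add_sum_erase _ _ (Finset.mem_univ (j i))).symm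
  have hrest0 : ∀ i, 0 ≤ ∑ q ∈ Finset.univ.erase (j i), |lam i q| := fun i =>
    Finset.sum_nonneg fun q _ => abs_nonneg _
  have hεθ : ε ≤ θ / 32 := min_le_right _ _
  have hm : ∀ i, 1 - θ / 4 ≤ |lam i (j i)| := by
    intro i
    have h1 := hquad i
    have h2 : ∑ q, (lam i q) ^ 2 ≤ |lam i (j i)| * ∑ q, |lam i q| := by
      rw [Finset.mul_sum]
      refine Finset.sum_le_sum fun q _ => ?_
      rw [← sq_abs, sq]
      exact mul_le_mul_of_nonneg_right (hj i q) (abs_nonneg _)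
    have h3 := hs i
    have h4 : 0 ≤ ∑ q, |lam i q| := Finset.sum_nonneg fun q _ => abs_nonneg _
    have h5 : (∑ q, |lam i q|) ^ 2 ≤ (1 + 2 * ζ) ^ 2 := pow_le_pow_left₀ h4 h3 2
    have h6 : (1 + 2 * ζ) ^ 2 ≤ 2 := by nlinarith
    have h7 : ε * (∑ q, |lam i q|) ^ 2 ≤ θ / 32 * 2 := by
      apply mul_le_mul hεθ (h5.trans h6) (sq_nonneg _) (by positivity)
    have h8 : 1 - θ / 16 ≤ |lam i (j i)| * (1 + 2 * ζ) := by
      have := mul_le_mul_of_nonneg_left h3 (abs_nonneg (lam i (j i)))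
      linarith
    by_contra hcon
    push Not at hcon
    have h9 : |lam i (j i)| * (1 + 2 * ζ) ≤ (1 - θ / 4) * (1 + 2 * ζ) :=
      mul_le_mul_of_nonneg_right hcon.le (by positivity)
    rw [hζ] at h8 h9
    nlinarith
  have hrest : ∀ i, ∑ q ∈ Finset.univ.erase (j i), |lam i q| ≤ 2 * ζ + θ / 4 := by
    intro i
    have h1 := hs i
    have h2 := hm i
    rw [hsplit i] at h1
    linarith
  have hUm : ∀ i, |lam i (j i)| ≤ 1 + θ := by
    intro i
    have h1 := hs i
    rw [hsplit i] at h1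
    have := hrest0 i
    rw [hζ] at h1
    linarith
  -- weights of the clusters
  have hup : ∀ q, (1 - 2 * θ) ^ 2 * ∑ i with j i = q, α i ≤ 1 := by
    intro q
    have h1 := row_one hu hiso (b q)
    have h2 : ∀ i, j i = q → (1 - 2 * θ) ^ 2 * α i ≤ α i * (u (b q) ⬝ᵥ u i) ^ 2 := by
      intro i hi
      rw [mul_comm]
      apply mul_le_mul_of_nonneg_left _ (hα i)
      have h3 : u (b q) ⬝ᵥ u i = ∑ r, lam i r * (u (b q) ⬝ᵥ u (b r)) := by
        have h4 : u i = ∑ r, lam i r • u (b r) := by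
          conv_lhs => rw [hlam i]
          ext p
          simp [vecMul, dotProduct, hUb, Finset.sum_apply]
        conv_lhs => rw [h4]
        rw [dotProduct_sum]
        refine Finset.sum_congr rfl fun r _ => ?_
        rw [dotProduct_smul, smul_eq_mul]
      have h5 : |u (b q) ⬝ᵥ u i| ≥ 1 - 2 * θ := by
        rw [h3, ← Finset.add_sum_erase _ _ (Finset.mem_univ q), hu, mul_one]
        have h6 : |∑ r ∈ Finset.univ.erase q, lam i r * (u (b q) ⬝ᵥ u (b r))|
            ≤ ∑ r ∈ Finset.univ.erase q, |lam i r| := by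
          refine (Finset.abs_sum_le_sum_abs _ _).trans (Finset.sum_le_sum fun r hr => ?_)
          rw [abs_mul]
          have h7 := hb q r (Finset.ne_of_mem_erase hr).symm
          have h8 : |u (b q) ⬝ᵥ u (b r)| ≤ 1 := h7.trans (by linarith)
          nlinarith [abs_nonneg (lam i r)]
        have h7 := hrest i
        have h8 := hm i
        rw [hi] at h7 h8
        have h9 := abs_sub_abs_le_abs_sub (lam i q)
          (-(∑ r ∈ Finset.univ.erase q, lam i r * (u (b q) ⬝ᵥ u (b r))))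
        rw [abs_neg, sub_neg_eq_add] at h9
        rw [hζ] at h7
        linarith
      rw [← sq_abs (u (b q) ⬝ᵥ u i)]
      exact pow_le_pow_left₀ (by linarith) h5 2
    calc (1 - 2 * θ) ^ 2 * ∑ i with j i = q, α i = ∑ i with j i = q, (1 - 2 * θ) ^ 2 * α i := by
          rw [Finset.mul_sum]
      _ ≤ ∑ i with j i = q, α i * (u (b q) ⬝ᵥ u i) ^ 2 :=
          Finset.sum_le_sum fun i hi => h2 i (Finset.mem_filter.1 hi).2
      _ ≤ ∑ i, α i * (u (b q) ⬝ᵥ u i) ^ 2 := by
          apply Finset.sum_le_sum_of_subset_of_nonneg (Finset.filter_subset _ _)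
          intro i _ _
          exact mul_nonneg (hα i) (sq_nonneg _)
      _ = 1 := h1
  have hA0 : ∀ q, 0 ≤ ∑ i with j i = q, α i := fun q => Finset.sum_nonneg fun i _ => hα i
  have hup2 : ∀ q, ∑ i with j i = q, α i ≤ 1 + 8 * θ := by
    intro q
    have h1 := hup q
    have h2 := hA0 q
    by_contra hcon
    push Not at hcon
    have h3 : (1 - 2 * θ) ^ 2 * (1 + 8 * θ) < 1 := by
      refine lt_of_lt_of_le ?_ h1
      apply mul_lt_mul_of_pos_left hcon
      have : 0 < 1 - 2 * θ := by linarith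
      positivity
    nlinarith [mul_pos hθ0 hθ0]
  have htot : ∑ q, ∑ i with j i = q, α i = k := by
    rw [← sum_alpha hu hiso]
    exact Finset.sum_fiberwise _ _ _
  refine ⟨U, j, lam, hUdet, hlam, ?_, ?_, ?_⟩
  · intro i
    have h1 := hrest i
    have h2 := hm i
    rw [hζ] at h1
    nlinarith
  · intro i
    exact ⟨by linarith [hm i], hUm i⟩
  · intro q
    refine ⟨?_, by linarith [hup2 q]⟩
    have h1 : ∑ r ∈ Finset.univ.erase q, ∑ i with j i = r, α i
        ≤ ∑ _r ∈ Finset.univ.erase q, (1 + 8 * θ) := Finset.sum_le_sum fun r _ => hup2 r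
    rw [Finset.sum_const, Finset.card_erase_of_mem (Finset.mem_univ q), Finset.card_univ,
      Fintype.card_fin, nsmul_eq_mul, Nat.cast_sub hk, Nat.cast_one] at h1
    rw [← Finset.add_sum_erase _ _ (Finset.mem_univ q)] at htot
    have h2 : (k - 1 : ℝ) * (8 * θ) ≤ 1 / 2 := by
      have h3 : θ * (16 * k) ≤ 1 := by
        rw [le_div_iff₀ (by positivity)] at hθ1
        exact hθ1
      nlinarith
    nlinarith

end Pool.Agent.Work.MP_6cd513_gt
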