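import Pool.Agent.Work.MP_6cd513_gt.Greedy

/-!
# The counting inequality
-/

open Matrix Finset

namespace Pool.Agent.Work.MP_6cd513_gt

/-- the variance of a sum of numbers in `[0,1]` against integrality -/
theorem multi_affine {ι : Type*} (S : Finset ι) (x : ι → ℝ) (h0 : ∀ i, 0 ≤ x i)
    (h1 : ∀ i, x i ≤ 1) : ∀ l : ℤ, (∑ i ∈ S, x i - l) * (l + 1 - ∑ i ∈ S, x i)
      ≤ ∑ i ∈ S, x i * (1 - x i) := by
  classical
  induction S using Finset.induction_on with
  | empty =>
    intro l
    simp only [Finset.sum_empty, zero_sub, sub_zero]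
    have h : (0 : ℝ) ≤ (l : ℝ) * (l + 1) := by
      rcases le_or_gt 0 l with hl | hl
      · have : (0 : ℝ) ≤ l := by exact_mod_cast hl
        positivity
      · have h2 : (l : ℝ) ≤ -1 := by exact_mod_cast (by omega : l ≤ -1)
        nlinarith
    linarith
  | insert a S ha ih =>
    intro l
    rw [Finset.sum_insert ha, Finset.sum_insert ha]
    set m := ∑ i ∈ S, x i with hm
    set B := ∑ i ∈ S, x i * (1 - x i) with hB
    have i0 := ih l
    have i1 := ih (l - 1)
    push_cast at i1
    have ht0 := h0 a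
    have ht1 := h1 a
    have e : (x a + m - l) * (l + 1 - (x a + m)) - x a * (1 - x a)
        = (1 - x a) * ((m - l) * (l + 1 - m)) + x a * ((m - (l - 1)) * (l - 1 + 1 - m)) := by
      ring
    have j0 := mul_le_mul_of_nonneg_left i0 (by linarith : 0 ≤ 1 - x a)
    have j1 := mul_le_mul_of_nonneg_left i1 ht0
    nlinarith

theorem log_interp {θ : ℝ} (h0 : 0 ≤ θ) (h1 : θ ≤ 1) {h : ℝ} (hh : 0 ≤ h) :
    Real.log (1 + θ * h) ≤ θ * Real.log (1 + h) + θ * (1 - θ) * (h - Real.log (1 + h)) := by
  let Φ : ℝ → ℝ := fun h => θ * Real.log (1 + h) + θ * (1 - θ) * (h - Real.log (1 + h))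
    - Real.log (1 + θ * h)
  have hd : ∀ s : ℝ, 0 ≤ s → HasDerivAt Φ (θ ^ 2 * (1 - θ) * s ^ 2 / ((1 + s) * (1 + θ * s))) s := by
    intro s hs
    have p1 : 0 < 1 + s := by linarith
    have p2 : 0 < 1 + θ * s := by have := mul_nonneg h0 hs; linarith
    have d1 : HasDerivAt (fun s : ℝ => Real.log (1 + s)) (1 / (1 + s)) s :=
      ((hasDerivAt_id s).const_add 1).log p1.ne'
    have d2 : HasDerivAt (fun s : ℝ => Real.log (1 + θ * s)) (θ * 1 / (1 + θ * s)) s :=
      (((hasDerivAt_id s).const_mul θ).const_add 1).log p2.ne'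
    have d3 := ((d1.const_mul θ).add (((hasDerivAt_id s).sub d1).const_mul (θ * (1 - θ)))).sub d2
    refine d3.congr_deriv ?_
    field_simp
    ring
  have hmono : MonotoneOn Φ (Set.Ici 0) := by
    apply monotoneOn_of_deriv_nonneg (convex_Ici 0)
    · intro s hs
      exact (hd s hs).continuousAt.continuousWithinAt
    · intro s hs
      rw [interior_Ici] at hs
      exact (hd s (le_of_lt hs)).differentiableAt.differentiableWithinAt
    · intro s hs
      rw [interior_Ici] at hs
      have hs' : 0 < s := hs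
      rw [(hd s hs'.le).deriv]
      have : 0 ≤ 1 - θ := by linarith
      positivity
  have := hmono (Set.mem_Ici.2 le_rfl) (Set.mem_Ici.2 hh) hh
  simp only [Φ] at this
  norm_num at this
  linarith

/-- the one-variable counting bound -/
theorem log_count {l : ℕ} (hl : 1 ≤ l) {m B : ℝ} (hm : 0 < m) (hB0 : 0 ≤ B)
    (hB : (m - l) * (l + 1 - m) ≤ B) :
    Real.log m ≤ Real.log l + (m - l) * Real.log (1 + 1 / (l : ℝ))
      + (1 / (l : ℝ) - Real.log (1 + 1 / (l : ℝ))) * B := by
  have hl' : (1 : ℝ) ≤ l := by exact_mod_cast hl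
  have hl0 : (0 : ℝ) < l := by linarith
  set h : ℝ := 1 / (l : ℝ) with hh
  have hh0 : 0 < h := by positivity
  set L := Real.log (1 + h) with hL
  have hLh : L ≤ h := by
    have := Real.log_le_sub_one_of_pos (x := 1 + h) (by linarith)
    linarith
  have hγ : 0 ≤ h - L := by linarith
  have hγB : 0 ≤ (h - L) * B := mul_nonneg hγ hB0
  rcases le_total m l with h1 | h1
  · -- `m ≤ l`
    have h2 := Real.log_le_sub_one_of_pos (x := m / l) (by positivity)
    rw [Real.log_div hm.ne' hl0.ne'] at h2
    have h3 : m / l - 1 = (m - l) * h := by rw [hh]; field_simp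
    rw [h3] at h2
    have h4 : (m - l) * h ≤ (m - l) * L := by nlinarith
    linarith
  rcases le_total (l + 1 : ℝ) m with h2 | h2
  · -- `l + 1 ≤ m`
    have h3 := Real.log_le_sub_one_of_pos (x := m / (l + 1)) (by positivity)
    rw [Real.log_div hm.ne' (by positivity)] at h3
    have h4 : m / (l + 1) - 1 = (m - l - 1) * (1 / (l + 1)) := by field_simp; ring
    have h5 : 1 / ((l : ℝ) + 1) ≤ L := by
      have h6 := Real.log_le_sub_one_of_pos (x := (1 + h)⁻¹) (by positivity)
      rw [Real.log_inv] at h6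
      have h7 : (1 + h)⁻¹ - 1 = -(1 / ((l : ℝ) + 1)) := by
        rw [hh]; field_simp; ring
      rw [h7] at h6
      linarith
    have h6 : Real.log (l + 1) = Real.log l + L := by
      rw [hL, ← Real.log_mul hl0.ne' (by positivity)]
      congr 1
      rw [hh]; field_simp
    rw [h4, h6] at h3
    have h7 : (m - l - 1) * (1 / ((l : ℝ) + 1)) ≤ (m - l - 1) * L :=
      mul_le_mul_of_nonneg_left h5 (by linarith)
    linarith
  · -- in between
    have h3 := log_interp (θ := m - l) (by linarith) (by linarith) hh0.le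
    have h4 : Real.log m = Real.log l + Real.log (1 + (m - l) * h) := by
      rw [← Real.log_mul hl0.ne' (by nlinarith)]
      congr 1
      rw [hh]; field_simp; ring
    rw [h4]
    have h5 : (m - l) * (1 - (m - l)) * (h - L) ≤ (h - L) * B := by
      have : (m - l) * (1 - (m - l)) ≤ B := by
        have e : (m - l) * (1 - (m - l)) = (m - l) * (l + 1 - m) := by ring
        rw [e]; exact hB
      nlinarith
    linarith

variable {ι : Type*} [Fintype ι] {k : ℕ}

/-- **The counting inequality.** -/
theorem counting {α : ι → ℝ} {u : ι → Fin k → ℝ} {l : ℕ} (hl : 1 ≤ l)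
    (hα : ∀ i, 1 / ((l : ℝ) + 1) ≤ α i) (hu : ∀ i, u i ⬝ᵥ u i = 1) (hiso : frameM α u = 1) :
    ∑ i, α i * (-Real.log (α i)) ≤ k * Real.log l
      + ((Fintype.card ι : ℝ) - k * l) * Real.log (1 + 1 / (l : ℝ))
      + (1 / (l : ℝ) - Real.log (1 + 1 / (l : ℝ))) * ((l + 1) * eta α u) := by
  have hl' : (1 : ℝ) ≤ l := by exact_mod_cast hl
  have hl0 : (0 : ℝ) < l := by linarith
  have hα0 : ∀ i, 0 < α i := fun i => lt_of_lt_of_le (by positivity) (hα i)
  set h : ℝ := 1 / (l : ℝ) with hh
  have hh0 : 0 < h := by positivity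
  set L := Real.log (1 + h) with hL
  have hLh : L ≤ h := by
    have := Real.log_le_sub_one_of_pos (x := 1 + h) (by linarith)
    linarith
  let x : ι → ι → ℝ := fun i j => (u i ⬝ᵥ u j) ^ 2
  have hx0 : ∀ i j, 0 ≤ x i j := fun i j => sq_nonneg _
  have hx1 : ∀ i j, x i j ≤ 1 := fun i j => by
    have := cauchy_dot (u i) (u j)
    rwa [hu, hu, one_mul] at this
  have hxx : ∀ i, x i i = 1 := fun i => by simp [x, hu i]
  have hrow : ∀ i, ∑ j, α j * x i j = 1 := fun i => row_one hu hiso i
  let m : ι → ℝ := fun i => ∑ j, x i j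
  have hm : ∀ i, 0 < m i := fun i =>
    lt_of_lt_of_le (by rw [hxx i]; exact one_pos)
      (Finset.single_le_sum (f := fun j => x i j) (fun j _ => hx0 i j) (Finset.mem_univ i))
  -- Jensen
  have h1 : ∀ i, ∑ j, α j * x i j * (-Real.log (α j)) ≤ Real.log (m i) := by
    intro i
    have h2 : ∀ j, α j * x i j * (-Real.log (α j))
        ≤ α j * x i j * (Real.log (m i) - 1) + x i j / m i := by
      intro j
      have h3 := Real.log_le_sub_one_of_pos (x := 1 / (α j * m i)) (by
        have := hα0 j; have := hm i; positivity)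
      rw [Real.log_div one_ne_zero (mul_pos (hα0 j) (hm i)).ne', Real.log_one,
        Real.log_mul (hα0 j).ne' (hm i).ne'] at h3
      have h4 := mul_le_mul_of_nonneg_left h3 (mul_nonneg (hα0 j).le (hx0 i j))
      have h5 : α j * x i j * (1 / (α j * m i) - 1) = x i j / m i - α j * x i j := by
        have := (hα0 j).ne'
        have := (hm i).ne'
        field_simp
      rw [h5] at h4
      linarith
    have h3 := Finset.sum_le_sum fun j (_ : j ∈ (Finset.univ : Finset ι)) => h2 j
    rw [Finset.sum_add_distrib, ← Finset.sum_mul, hrow i, ← Finset.sum_div] at h3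
    have h4 : (∑ j, x i j) / m i = 1 := div_self (hm i).ne'
    rw [h4] at h3
    linarith
  have h2 : ∑ i, α i * (-Real.log (α i)) ≤ ∑ i, α i * Real.log (m i) := by
    have h3 : ∑ i, α i * ∑ j, α j * x i j * (-Real.log (α j)) = ∑ j, α j * (-Real.log (α j)) := by
      simp_rw [Finset.mul_sum]
      rw [Finset.sum_comm]
      refine Finset.sum_congr rfl fun j _ => ?_
      have h4 : ∑ i, α i * (α j * x i j * (-Real.log (α j)))
          = (α j * (-Real.log (α j))) * ∑ i, α i * x j i := by
        rw [Finset.mul_sum]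
        refine Finset.sum_congr rfl fun i _ => ?_
        have : x j i = x i j := by simp only [x]; rw [dotProduct_comm]
        rw [this]; ring
      rw [h4, hrow j, mul_one]
    rw [← h3]
    exact Finset.sum_le_sum fun i _ => mul_le_mul_of_nonneg_left (h1 i) (hα0 i).le
  -- per vector bound
  have h3 : ∀ i, Real.log (m i) ≤ Real.log l + (m i - l) * L
      + (h - L) * ((l + 1) * ∑ j, α j * x i j * (1 - x i j)) := by
    intro i
    have hS0 : 0 ≤ (l + 1 : ℝ) * ∑ j, α j * x i j * (1 - x i j) :=
      mul_nonneg (by linarith) (Finset.sum_nonneg fun j _ =>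
        mul_nonneg (mul_nonneg (hα0 j).le (hx0 i j)) (by linarith [hx1 i j]))
    refine log_count hl (hm i) hS0 ?_
    have h4 := multi_affine Finset.univ (fun j => x i j) (hx0 i) (hx1 i) l
    push_cast at h4
    refine h4.trans ?_
    rw [Finset.mul_sum]
    refine Finset.sum_le_sum fun j _ => ?_
    have h5 : 1 ≤ (l + 1 : ℝ) * α j := by
      have := mul_le_mul_of_nonneg_left (hα j) (by linarith : (0 : ℝ) ≤ l + 1)
      rwa [mul_one_div, div_self (by linarith)] at this
    have h6 : 0 ≤ x i j * (1 - x i j) := mul_nonneg (hx0 i j) (by linarith [hx1 i j])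
    calc x i j * (1 - x i j) = 1 * (x i j * (1 - x i j)) := (one_mul _).symm
      _ ≤ ((l + 1 : ℝ) * α j) * (x i j * (1 - x i j)) := mul_le_mul_of_nonneg_right h5 h6
      _ = _ := by ring
  refine h2.trans ((Finset.sum_le_sum fun i _ =>
    mul_le_mul_of_nonneg_left (h3 i) (hα0 i).le).trans (le_of_eq ?_))
  have hsum := sum_alpha hu hiso
  have hcard : ∑ i, α i * m i = Fintype.card ι := by
    simp only [m]
    simp_rw [Finset.mul_sum]
    rw [Finset.sum_comm]
    have : ∀ j, ∑ i, α i * x i j = 1 := by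
      intro j
      rw [← hrow j]
      refine Finset.sum_congr rfl fun i _ => ?_
      simp only [x]; rw [dotProduct_comm]
    simp_rw [this]
    simp
  have heta : ∑ i, α i * ∑ j, α j * x i j * (1 - x i j) = eta α u := by
    unfold eta
    refine Finset.sum_congr rfl fun i _ => ?_
    rw [Finset.mul_sum]
    exact Finset.sum_congr rfl fun j _ => by simp only [x]; ring
  have e : ∑ i, α i * (Real.log l + (m i - l) * L
      + (h - L) * ((l + 1) * ∑ j, α j * x i j * (1 - x i j)))
      = (∑ i, α i) * (Real.log l - l * L) + L * ∑ i, α i * m i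
        + (h - L) * ((l + 1) * ∑ i, α i * ∑ j, α j * x i j * (1 - x i j)) := by
    rw [Finset.sum_mul, Finset.mul_sum, Finset.mul_sum (a := (l + 1 : ℝ)), Finset.mul_sum,
      ← Finset.sum_add_distrib, ← Finset.sum_add_distrib]
    exact Finset.sum_congr rfl fun i _ => by ring
  rw [e, hsum, hcard, heta]
  ring

end Pool.Agent.Work.MP_6cd513_gt
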