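import Pool.Agent.Work.MP_6cd513_gt.NormalForm

/-!
# Ball's bound for tight frames and the main step
-/

open Matrix Finset MeasureTheory

namespace Pool.Agent.Work.MP_6cd513_gt

variable {k : ℕ}

/-- normalised directions of a tight frame -/
theorem normalise {ι : Type} [Fintype ι] {w : ι → Fin k → ℝ} (hw : gramM w = 1)
    (hpos : ∀ i, 0 < w i ⬝ᵥ w i) :
    (∀ i, ((Real.sqrt (w i ⬝ᵥ w i))⁻¹ • w i) ⬝ᵥ ((Real.sqrt (w i ⬝ᵥ w i))⁻¹ • w i) = 1) ∧
    frameM (fun i => w i ⬝ᵥ w i) (fun i => (Real.sqrt (w i ⬝ᵥ w i))⁻¹ • w i) = 1 := by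
  have hs : ∀ i, Real.sqrt (w i ⬝ᵥ w i) * Real.sqrt (w i ⬝ᵥ w i) = w i ⬝ᵥ w i := fun i =>
    Real.mul_self_sqrt (hpos i).le
  have hs0 : ∀ i, Real.sqrt (w i ⬝ᵥ w i) ≠ 0 := fun i => (Real.sqrt_pos.2 (hpos i)).ne'
  constructor
  · intro i
    rw [smul_dotProduct, dotProduct_smul, smul_eq_mul, smul_eq_mul]
    conv_lhs => rw [← hs i]
    have := hs0 i
    rw [Real.sqrt_mul_self (Real.sqrt_nonneg _)]
    field_simp
  · rw [← hw]
    ext p q
    rw [frameM_apply, gramM_apply]
    refine Finset.sum_congr rfl fun i _ => ?_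
    simp only [Pi.smul_apply, smul_eq_mul]
    have := hs0 i
    calc w i ⬝ᵥ w i * ((Real.sqrt (w i ⬝ᵥ w i))⁻¹ * w i p * ((Real.sqrt (w i ⬝ᵥ w i))⁻¹ * w i q))
        = (w i ⬝ᵥ w i) / (Real.sqrt (w i ⬝ᵥ w i) * Real.sqrt (w i ⬝ᵥ w i)) * (w i p * w i q) := by
          field_simp
      _ = w i p * w i q := by rw [hs i, div_self (hpos i).ne', one_mul]

theorem dot_sqrt_inv {ι : Type} {w : ι → Fin k → ℝ} {i : ι} (hpos : 0 < w i ⬝ᵥ w i)
    {x : Fin k → ℝ} (hx : |w i ⬝ᵥ x| ≤ 1 / 2) :
    |((Real.sqrt (w i ⬝ᵥ w i))⁻¹ • w i) ⬝ᵥ x| ≤ 1 / (2 * Real.sqrt (w i ⬝ᵥ w i)) := by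
  have hs0 : 0 < Real.sqrt (w i ⬝ᵥ w i) := Real.sqrt_pos.2 hpos
  rw [smul_dotProduct, smul_eq_mul, abs_mul, abs_inv, abs_of_pos hs0]
  calc (Real.sqrt (w i ⬝ᵥ w i))⁻¹ * |w i ⬝ᵥ x| ≤ (Real.sqrt (w i ⬝ᵥ w i))⁻¹ * (1 / 2) :=
        mul_le_mul_of_nonneg_left hx (inv_nonneg.2 hs0.le)
    _ = _ := by field_simp

/-- Ball's bound for tight frames without zero vectors -/
theorem ball_pos {ι : Type} [Fintype ι] (hk : 1 ≤ k) {w : ι → Fin k → ℝ} (hw : gramM w = 1)
    (hpos : ∀ i, 0 < w i ⬝ᵥ w i) {n : ℕ} (hn : Fintype.card ι ≤ n) :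
    Gv w ≤ Real.sqrt (((n : ℝ) / k) ^ k) := by
  have hk' : (1 : ℝ) ≤ k := by exact_mod_cast hk
  obtain ⟨hu, hiso⟩ := normalise hw hpos
  set α : ι → ℝ := fun i => w i ⬝ᵥ w i with hα
  set u : ι → Fin k → ℝ := fun i => (Real.sqrt (w i ⬝ᵥ w i))⁻¹ • w i with hu'
  have hsum := sum_alpha hu hiso
  have hn0 : (0 : ℝ) < n := by
    rcases Nat.eq_zero_or_pos n with h | h
    · exfalso
      subst h
      have : IsEmpty ι := Fintype.card_eq_zero_iff.1 (Nat.le_zero.1 hn)
      rw [Finset.univ_eq_empty, Finset.sum_empty] at hsum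
      linarith
    · exact_mod_cast h
  -- entropy bound
  have hent : ∑ i, α i * (-Real.log (α i)) ≤ k * Real.log (n / k) := by
    have h1 : ∀ i, α i * (-Real.log (α i)) ≤ α i * Real.log (n / k) + ((k : ℝ) / n - α i) := by
      intro i
      have h2 := Real.log_le_sub_one_of_pos (x := (k / n) / α i) (by
        have := hpos i; positivity)
      rw [Real.log_div (by positivity) (hpos i).ne', Real.log_div (by positivity) (by positivity)]
        at h2
      rw [Real.log_div (by positivity) (by positivity)]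
      have h3 := mul_le_mul_of_nonneg_left h2 (hpos i).le
      have h4 : α i * ((k : ℝ) / n / α i - 1) = (k : ℝ) / n - α i := by
        have := (hpos i).ne'
        simp only [hα] at this ⊢
        field_simp
      simp only [hα] at h3 h4 ⊢
      rw [h4] at h3
      linarith
    have h2 := Finset.sum_le_sum fun i (_ : i ∈ (Finset.univ : Finset ι)) => h1 i
    rw [Finset.sum_add_distrib, ← Finset.sum_mul, hsum, Finset.sum_sub_distrib, hsum,
      Finset.sum_const, Finset.card_univ, nsmul_eq_mul] at h2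
    have h3 : (Fintype.card ι : ℝ) * ((k : ℝ) / n) ≤ k := by
      have h4 : (Fintype.card ι : ℝ) ≤ n := by exact_mod_cast hn
      rw [mul_div_assoc', div_le_iff₀ hn0]
      nlinarith
    linarith
  have hmain : ∀ s : ℝ, 1 < s → Gv w ≤ s ^ k * Real.sqrt (((n : ℝ) / k) ^ k) := by
    intro s hs
    have hs0 : 0 < s := by linarith
    have hwid : ∀ i, 0 < s / (2 * Real.sqrt (α i)) := fun i => by
      have := Real.sqrt_pos.2 (hpos i)
      positivity
    have hsub : bodyK w ⊆ slab (fun i => s / (2 * Real.sqrt (α i))) u := by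
      intro x hx i
      have h1 := dot_sqrt_inv (hpos i) (hx i)
      refine lt_of_le_of_lt h1 ?_
      apply div_lt_div_of_pos_right hs
      have := Real.sqrt_pos.2 (hpos i)
      positivity
    have hvol := slab_vol_le (fun i => (hpos i).le) hwid hu hiso
    have h2 : ∑ i, α i * Real.log (2 * (s / (2 * Real.sqrt (α i))))
        = k * Real.log s + (1 / 2) * ∑ i, α i * (-Real.log (α i)) := by
      rw [← hsum, Finset.sum_mul, Finset.mul_sum, ← Finset.sum_add_distrib]
      refine Finset.sum_congr rfl fun i _ => ?_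
      have h3 : 2 * (s / (2 * Real.sqrt (α i))) = s / Real.sqrt (α i) := by
        have := (Real.sqrt_pos.2 (hpos i)).ne'
        field_simp
      rw [h3, Real.log_div hs0.ne' (Real.sqrt_pos.2 (hpos i)).ne', Real.log_sqrt (hpos i).le]
      ring
    have h3 : (volume (bodyK w)).toReal ≤ Real.exp (∑ i, α i *
        Real.log (2 * (s / (2 * Real.sqrt (α i))))) := by
      have h4 := (measure_mono (μ := volume) hsub).trans hvol
      have h5 := ENNReal.toReal_mono ENNReal.ofReal_ne_top h4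
      rwa [ENNReal.toReal_ofReal (Real.exp_pos _).le] at h5
    rw [Gv_tight hw]
    refine h3.trans ?_
    rw [h2]
    have h4 : Real.sqrt (((n : ℝ) / k) ^ k) = Real.exp ((1 / 2) * (k * Real.log (n / k))) := by
      rw [← Real.log_pow, Real.sqrt_eq_rpow, Real.rpow_def_of_pos (by positivity)]
      congr 1; ring
    have h5 : s ^ k = Real.exp (k * Real.log s) := by
      rw [← Real.log_pow, Real.exp_log (by positivity)]
    rw [h4, h5, ← Real.exp_add]
    apply Real.exp_le_exp.2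
    linarith
  -- let s → 1
  have hlim : Filter.Tendsto (fun s : ℝ => s ^ k * Real.sqrt (((n : ℝ) / k) ^ k))
      (nhdsWithin 1 (Set.Ioi 1)) (nhds (1 ^ k * Real.sqrt (((n : ℝ) / k) ^ k))) := by
    apply Filter.Tendsto.mono_left _ nhdsWithin_le_nhds
    exact ((continuous_id.pow k).mul continuous_const).tendsto 1
  rw [one_pow, one_mul] at hlim
  apply ge_of_tendsto hlim
  filter_upwards [self_mem_nhdsWithin] with s hs
  exact hmain s hs

/-- Ball's bound -/
theorem ball_bound {ι : Type} [Fintype ι] (hk : 1 ≤ k) (v : ι → Fin k → ℝ) :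
    Gv v ≤ Real.sqrt (((Fintype.card ι : ℝ) / k) ^ k) := by
  classical
  by_cases hv : (gramM v).det = 0
  · unfold Gv
    rw [hv, Real.sqrt_zero, zero_mul]
    exact Real.sqrt_nonneg _
  · obtain ⟨w, U, hU, hw, rfl⟩ := exists_tight v hv
    rw [Gv_vecMul _ hU]
    -- restrict to nonzero vectors
    let w' : {i // 0 < w i ⬝ᵥ w i} → Fin k → ℝ := fun i => w i
    have hz : ∀ i, ¬ (0 < w i ⬝ᵥ w i) → w i = 0 := by
      intro i hi
      have h1 := dot_self_nonneg' (w i)
      have h2 : w i ⬝ᵥ w i = 0 := le_antisymm (not_lt.1 hi) h1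
      exact dotProduct_self_eq_zero.1 h2
    have hg : gramM w' = gramM w := by
      ext p q
      rw [gramM_apply, gramM_apply]
      have h1 := Finset.sum_subtype (F := inferInstance)
        (Finset.univ.filter fun i => 0 < w i ⬝ᵥ w i)
        (p := fun i => 0 < w i ⬝ᵥ w i) (by simp) (fun i => w i p * w i q)
      rw [← h1, Finset.sum_filter]
      refine Finset.sum_congr rfl fun i _ => ?_
      split_ifs with h
      · rfl
      · rw [hz i h]; simp
    have hb : bodyK w' = bodyK w := by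
      ext x
      simp only [bodyK, Set.mem_ofPred_eq]
      constructor
      · intro h i
        by_cases hi : 0 < w i ⬝ᵥ w i
        · exact h ⟨i, hi⟩
        · rw [hz i hi]; simp
      · intro h i
        exact h i
    have hG : Gv w = Gv w' := by unfold Gv; rw [hg, hb]
    rw [hG]
    exact ball_pos hk (hg.trans hw) (fun i => i.2) (Fintype.card_subtype_le _)

/-- scaling of slabs -/
theorem slab_scale {ι : Type} [Fintype ι] (u : ι → Fin k → ℝ) {c : ℝ} (hc : 0 < c) :
    volume (slab (fun _ : ι => c) u) = ENNReal.ofReal (c ^ k) *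
      volume (slab (fun _ : ι => (1 : ℝ)) u) := by
  have h1 : slab (fun _ : ι => c) u = {x | (diagonal fun _ : Fin k => c⁻¹) *ᵥ x ∈
      slab (fun _ : ι => (1 : ℝ)) u} := by
    ext x
    have h2 : (diagonal fun _ : Fin k => c⁻¹) *ᵥ x = c⁻¹ • x := by
      ext p; rw [mulVec_diagonal]; rfl
    simp only [slab, Set.mem_ofPred_eq, h2, dotProduct_smul, smul_eq_mul, abs_mul, abs_inv,
      abs_of_pos hc]
    refine forall_congr' fun i => ?_
    rw [inv_mul_lt_iff₀ hc, mul_one]
  rw [h1, vol_preimage (by rw [det_diagonal]; simp [hc.ne'])]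
  congr 2
  rw [det_diagonal]
  simp [abs_of_pos hc]

end Pool.Agent.Work.MP_6cd513_gt
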