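import Pool.Agent.Work.MP_6cd513_gt.PairNum
import Pool.Agent.Work.MP_6cd513_gt.Count
import Pool.Agent.Work.MP_6cd513_gt.MainStep

/-!
# The dimension-free defect in Ball's bound
-/

open MeasureTheory Matrix Finset

namespace Pool.Agent.Work.MP_6cd513_gt

variable {k : ℕ}

theorem slab_defect {ι : Type*} [Fintype ι] {ρ c2 c3 κ : ℝ} (P : Par ρ c2 c3)
    (hκ : ∀ y : ℝ, 0 ≤ y → y ≤ 1 → κ * y ≤ Tf c2 c3 y) {α w : ι → ℝ} {u : ι → Fin k → ℝ}
    (hα : ∀ i, 0 ≤ α i) (hαρ : ∀ i, 1 - α i ≤ ρ)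
    (hw : ∀ i, 0 < w i) (hu : ∀ i, u i ⬝ᵥ u i = 1) (hiso : frameM α u = 1) :
    volume (slab w u) ≤ ENNReal.ofReal (Real.exp (∑ i, α i * Real.log (2 * w i)
      - κ / 2 * eta α u)) := by
  set kp : ι → ℝ := fun i => Real.log gam - Real.log (w i) with hkp
  obtain ⟨B, hB⟩ := qcert_lower P (u := u) hα kp
  have h := transport_bound' hα hw hu hiso (qcert_measurable c2 c3 α u kp)
    (qcert_integrable c2 c3 α hu kp) hB (fun t z => qcert_le P hα hαρ hw hu hiso t z)
  refine h.trans (ENNReal.ofReal_le_ofReal (Real.exp_le_exp.2 ?_))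
  rw [qcert_integral c2 c3 α hu kp]
  have h1 : κ / 2 * eta α u ≤ (1 / 2) * ∑ i, ∑ j, α i * α j * (u i ⬝ᵥ u j) ^ 2 *
        Tf c2 c3 (1 - (u i ⬝ᵥ u j) ^ 2) := by
    unfold eta
    rw [div_mul_eq_mul_div, mul_comm κ, ← mul_div_assoc', mul_comm _ (κ / 2), mul_comm (1 / 2 : ℝ),
      Finset.mul_sum, Finset.sum_mul]
    refine Finset.sum_le_sum fun i _ => ?_
    rw [Finset.mul_sum, Finset.sum_mul]
    refine Finset.sum_le_sum fun j _ => ?_
    have hs := cauchy_dot (u i) (u j)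
    rw [hu, hu, one_mul] at hs
    have h2 := hκ (1 - (u i ⬝ᵥ u j) ^ 2) (by linarith) (by linarith [sq_nonneg (u i ⬝ᵥ u j)])
    have hW : 0 ≤ α i * α j * (u i ⬝ᵥ u j) ^ 2 := by
      have := hα i; have := hα j; positivity
    have h3 := mul_le_mul_of_nonneg_left h2 hW
    linarith
  linarith

/-- the defect version of Ball's bound for tight frames -/
theorem tight_defect {ι : Type} [Fintype ι] {ρ c2 c3 κ : ℝ} (P : Par ρ c2 c3)
    (hκ : ∀ y : ℝ, 0 ≤ y → y ≤ 1 → κ * y ≤ Tf c2 c3 y) {w : ι → Fin k → ℝ}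
    (hw : gramM w = 1) (hpos : ∀ i, 0 < w i ⬝ᵥ w i) (hρ : ∀ i, 1 - w i ⬝ᵥ w i ≤ ρ) :
    Gv w ≤ Real.exp ((1 / 2) * ∑ i, (w i ⬝ᵥ w i) * (-Real.log (w i ⬝ᵥ w i))
      - κ / 2 * eta (fun i => w i ⬝ᵥ w i) (fun i => (Real.sqrt (w i ⬝ᵥ w i))⁻¹ • w i)) := by
  obtain ⟨hu, hiso⟩ := normalise hw hpos
  set α : ι → ℝ := fun i => w i ⬝ᵥ w i with hα
  set u : ι → Fin k → ℝ := fun i => (Real.sqrt (w i ⬝ᵥ w i))⁻¹ • w i with hu'
  have hsum := sum_alpha hu hiso
  set E : ℝ := Real.exp ((1 / 2) * ∑ i, α i * (-Real.log (α i)) - κ / 2 * eta α u) with hE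
  have hmain : ∀ s : ℝ, 1 < s → Gv w ≤ s ^ k * E := by
    intro s hs
    have hs0 : 0 < s := by linarith
    have hwid : ∀ i, 0 < s / (2 * Real.sqrt (α i)) := fun i => by
      have := Real.sqrt_pos.2 (hpos i)
      positivity
    have hsub : bodyK w ⊆ slab (fun i => s / (2 * Real.sqrt (α i))) u := by
      intro x hx i
      have h1 := dot_sqrt_inv (hpos i) (hx i)
      refine lt_of_le_of_lt h1 ?_
      apply div_lt_div_of_pos_right hs
      have := Real.sqrt_pos.2 (hpos i)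
      positivity
    have hvol := slab_defect P hκ (fun i => (hpos i).le) hρ hwid hu hiso
    have h2 : ∑ i, α i * Real.log (2 * (s / (2 * Real.sqrt (α i))))
        = k * Real.log s + (1 / 2) * ∑ i, α i * (-Real.log (α i)) := by
      rw [← hsum, Finset.sum_mul, Finset.mul_sum, ← Finset.sum_add_distrib]
      refine Finset.sum_congr rfl fun i _ => ?_
      have h3 : 2 * (s / (2 * Real.sqrt (α i))) = s / Real.sqrt (α i) := by
        have := (Real.sqrt_pos.2 (hpos i)).ne'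
        field_simp
      rw [h3, Real.log_div hs0.ne' (Real.sqrt_pos.2 (hpos i)).ne', Real.log_sqrt (hpos i).le]
      ring
    have h3 : (volume (bodyK w)).toReal ≤ Real.exp (∑ i, α i *
        Real.log (2 * (s / (2 * Real.sqrt (α i)))) - κ / 2 * eta α u) := by
      have h4 := (measure_mono (μ := volume) hsub).trans hvol
      have h5 := ENNReal.toReal_mono ENNReal.ofReal_ne_top h4
      rwa [ENNReal.toReal_ofReal (Real.exp_pos _).le] at h5
    rw [Gv_tight hw]
    refine h3.trans ?_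
    rw [h2]
    have h5 : s ^ k = Real.exp (k * Real.log s) := by
      rw [← Real.log_pow, Real.exp_log (by positivity)]
    rw [h5, hE, ← Real.exp_add]
    apply Real.exp_le_exp.2
    linarith
  have hlim : Filter.Tendsto (fun s : ℝ => s ^ k * E)
      (nhdsWithin 1 (Set.Ioi 1)) (nhds (1 ^ k * E)) := by
    apply Filter.Tendsto.mono_left _ nhdsWithin_le_nhds
    exact ((continuous_id.pow k).mul continuous_const).tendsto 1
  rw [one_pow, one_mul] at hlim
  apply ge_of_tendsto hlim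
  filter_upwards [self_mem_nhdsWithin] with s hs
  exact hmain s hs

/-- the constant for given `l` -/
theorem tight_step {ι : Type} [Fintype ι] {l : ℕ} (hl : 6 ≤ l) {w : ι → Fin k → ℝ}
    (hw : gramM w = 1) (hα : ∀ i, 1 / ((l : ℝ) + 1) ≤ w i ⬝ᵥ w i) :
    Gv w ≤ Real.exp ((1 / 2) * (k * Real.log l
      + ((Fintype.card ι : ℝ) - k * l) * Real.log (1 + 1 / (l : ℝ)))) := by
  have hl6 : (6 : ℝ) ≤ l := by exact_mod_cast hl
  have hl0 : (0 : ℝ) < l := by linarith
  have hpos : ∀ i, 0 < w i ⬝ᵥ w i := fun i => lt_of_lt_of_le (by positivity) (hα i)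
  obtain ⟨hu, hiso⟩ := normalise hw hpos
  have hcount := counting (l := l) (by omega) hα hu hiso
  set α : ι → ℝ := fun i => w i ⬝ᵥ w i with hαd
  set u : ι → Fin k → ℝ := fun i => (Real.sqrt (w i ⬝ᵥ w i))⁻¹ • w i with hu'
  have heta0 : 0 ≤ eta α u := by
    unfold eta
    refine Finset.sum_nonneg fun i _ => Finset.sum_nonneg fun j _ => ?_
    have := cauchy_dot (u i) (u j)
    rw [hu, hu] at this
    have h1 := (hpos i).le
    have h2 := (hpos j).le
    have : 0 ≤ 1 - (u i ⬝ᵥ u j) ^ 2 := by linarith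
    simp only [hαd]
    positivity
  -- the defect constant
  have hκ : ∃ κ : ℝ, ((l : ℝ) + 1) / (l * (2 * l + 1)) ≤ κ ∧
      Gv w ≤ Real.exp ((1 / 2) * ∑ i, α i * (-Real.log (α i)) - κ / 2 * eta α u) := by
    rcases Nat.lt_or_ge l 7 with h | h
    · have hl7 : l = 6 := by omega
      refine ⟨898 / 10000, ?_, ?_⟩
      · rw [hl7]; norm_num
      · refine tight_defect par1 (fun y h0 h1 => Tf_num1 h0 h1) hw hpos ?_
        intro i
        have := hα i
        rw [hl7] at this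
        norm_num at this ⊢
        linarith
    · have hl7 : (7 : ℝ) ≤ l := by exact_mod_cast h
      refine ⟨762 / 10000, ?_, ?_⟩
      · rw [div_le_iff₀ (by positivity)]
        nlinarith
      · refine tight_defect par2 (fun y h0 h1 => Tf_num2 h0 h1) hw hpos ?_
        intro i
        have := hpos i
        linarith
  obtain ⟨κ, hκ1, hκ2⟩ := hκ
  refine hκ2.trans (Real.exp_le_exp.2 ?_)
  -- `(1/l - log(1+1/l)) (l+1) ≤ κ`
  have hL := Real.le_log_one_add_of_nonneg (x := 1 / (l : ℝ)) (by positivity)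
  have h1 : (1 / (l : ℝ) - Real.log (1 + 1 / (l : ℝ))) * (l + 1) ≤ κ := by
    refine le_trans ?_ hκ1
    have h2 : 1 / (l : ℝ) - Real.log (1 + 1 / (l : ℝ))
        ≤ 1 / (l : ℝ) - 2 * (1 / (l : ℝ)) / (1 / (l : ℝ) + 2) := by linarith
    refine (mul_le_mul_of_nonneg_right h2 (by linarith)).trans (le_of_eq ?_)
    field_simp
    ring
  have h2 := mul_le_mul_of_nonneg_right h1 heta0
  nlinarith

end Pool.Agent.Work.MP_6cd513_gt
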