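import Pool.Agent.Work.MP_6cd513_gt.Frames

/-!
# The functional with shifted slabs

`Gs v s = sqrt(det ∑ v_i v_iᵀ) · vol {x : |v_i·x - s_i| ≤ 1/2}`
-/

open Matrix Finset MeasureTheory

namespace Pool.Agent.Work.MP_6cd513_gt

variable {ι : Type} [Fintype ι] {k : ℕ}

/-- the polytope cut out by shifted slabs -/
def bodyS (v : ι → Fin k → ℝ) (s : ι → ℝ) : Set (Fin k → ℝ) := {x | ∀ i, |v i ⬝ᵥ x - s i| ≤ 1 / 2}

/-- the `GL_k`- and translation-invariant functional -/
noncomputable def Gs (v : ι → Fin k → ℝ) (s : ι → ℝ) : ℝ :=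
  Real.sqrt (gramM v).det * (volume (bodyS v s)).toReal

omit [Fintype ι] in
theorem bodyS_zero (v : ι → Fin k → ℝ) : bodyS v (fun _ => 0) = bodyK v := by
  ext x
  simp only [bodyS, bodyK, Set.mem_ofPred_eq, sub_zero]

theorem Gs_zero (v : ι → Fin k → ℝ) : Gs v (fun _ => 0) = Gv v := by
  unfold Gs Gv
  rw [bodyS_zero]

theorem Gs_nonneg (v : ι → Fin k → ℝ) (s : ι → ℝ) : 0 ≤ Gs v s :=
  mul_nonneg (Real.sqrt_nonneg _) ENNReal.toReal_nonneg

omit [Fintype ι] in
theorem isClosed_bodyS (v : ι → Fin k → ℝ) (s : ι → ℝ) : IsClosed (bodyS v s) := by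
  have h1 : bodyS v s = ⋂ i, {x | |v i ⬝ᵥ x - s i| ≤ 1 / 2} := by
    ext x; simp [bodyS]
  rw [h1]
  apply isClosed_iInter
  intro i
  have hc : Continuous fun x : Fin k → ℝ => v i ⬝ᵥ x - s i := by
    simp only [dotProduct]
    fun_prop
  exact isClosed_le hc.abs continuous_const

omit [Fintype ι] in
theorem bodyS_vecMul (w : ι → Fin k → ℝ) (s : ι → ℝ) (U : Matrix (Fin k) (Fin k) ℝ) :
    bodyS (fun i => w i ᵥ* U) s = {x | U *ᵥ x ∈ bodyS w s} := by
  ext x
  simp only [bodyS, Set.mem_ofPred_eq, ← dotProduct_mulVec]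

theorem Gs_vecMul (w : ι → Fin k → ℝ) (s : ι → ℝ) {U : Matrix (Fin k) (Fin k) ℝ}
    (hU : U.det ≠ 0) : Gs (fun i => w i ᵥ* U) s = Gs w s := by
  unfold Gs
  rw [gramM_vecMul, bodyS_vecMul, vol_preimage hU, det_mul, det_mul, det_transpose,
    ENNReal.toReal_mul, ENNReal.toReal_ofReal (abs_nonneg _)]
  have h1 : U.det * (gramM w).det * U.det = |U.det| ^ 2 * (gramM w).det := by
    rw [sq_abs]; ring
  rw [h1, Real.sqrt_mul (sq_nonneg _), Real.sqrt_sq (abs_nonneg _), abs_inv]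
  have h2 : |U.det| ≠ 0 := abs_ne_zero.2 hU
  field_simp

omit [Fintype ι] in
/-- translating the body -/
theorem bodyS_translate (v : ι → Fin k → ℝ) (s : ι → ℝ) (y : Fin k → ℝ) :
    bodyS v (fun i => s i - v i ⬝ᵥ y) = (fun x => x + y) ⁻¹' (bodyS v s) := by
  ext x
  simp only [bodyS, Set.mem_ofPred_eq, Set.mem_preimage, dotProduct_add]
  refine forall_congr' fun i => ?_
  have : v i ⬝ᵥ x - (s i - v i ⬝ᵥ y) = v i ⬝ᵥ x + v i ⬝ᵥ y - s i := by ring
  rw [this]

omit [Fintype ι] in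
theorem vol_translate (v : ι → Fin k → ℝ) (s : ι → ℝ) (y : Fin k → ℝ) :
    volume (bodyS v (fun i => s i - v i ⬝ᵥ y)) = volume (bodyS v s) := by
  rw [bodyS_translate]
  exact measure_preimage_add_right _ _ _

theorem Gs_translate (v : ι → Fin k → ℝ) (s : ι → ℝ) (y : Fin k → ℝ) :
    Gs v (fun i => s i - v i ⬝ᵥ y) = Gs v s := by
  unfold Gs
  rw [vol_translate]

omit [Fintype ι] in
/-- a nonempty body can be translated so that all shifts are at most `1/2` -/
theorem exists_small_shift (v : ι → Fin k → ℝ) (s : ι → ℝ) (h : (bodyS v s).Nonempty) :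
    ∃ s' : ι → ℝ, (∀ i, |s' i| ≤ 1 / 2) ∧ volume (bodyS v s') = volume (bodyS v s) := by
  obtain ⟨y, hy⟩ := h
  refine ⟨fun i => s i - v i ⬝ᵥ y, fun i => ?_, vol_translate v s y⟩
  have := hy i
  rwa [abs_sub_comm] at this

theorem bodyS_tight_sub {w : ι → Fin k → ℝ} (hw : gramM w = 1) {s : ι → ℝ}
    (hs : ∀ i, |s i| ≤ 1 / 2) :
    bodyS w s ⊆ Metric.closedBall 0 (Fintype.card ι) := by
  intro x hx
  rw [mem_closedBall_zero_iff, pi_norm_le_iff_of_nonneg (by positivity)]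
  intro p
  have h1 := iso_dot (α := fun _ => (1 : ℝ)) (u := w) hw x x
  have h2 : x ⬝ᵥ x ≤ (Fintype.card ι : ℝ) := by
    rw [← h1]
    calc ∑ i, 1 * (w i ⬝ᵥ x * (w i ⬝ᵥ x)) ≤ ∑ _i : ι, (1 : ℝ) := by
          refine Finset.sum_le_sum fun i _ => ?_
          have h3 := abs_le.1 (hx i)
          have h4 := abs_le.1 (hs i)
          nlinarith [h3.1, h3.2]
      _ = Fintype.card ι := by simp
  have h3 : x p * x p ≤ x ⬝ᵥ x := by
    rw [dotProduct]
    exact Finset.single_le_sum (f := fun r => x r * x r) (fun r _ => mul_self_nonneg _)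
      (Finset.mem_univ p)
  rw [Real.norm_eq_abs]
  by_cases hc : Fintype.card ι = 0
  · rw [hc] at h2 ⊢
    push_cast at h2 ⊢
    have : x p * x p = 0 := le_antisymm (h3.trans h2) (mul_self_nonneg _)
    rw [mul_self_eq_zero.1 this]
    simp
  · have hc1 : (1 : ℝ) ≤ Fintype.card ι := by exact_mod_cast Nat.one_le_iff_ne_zero.2 hc
    apply abs_le_of_sq_le_sq _ (by positivity)
    nlinarith

theorem bodyS_tight_finite {w : ι → Fin k → ℝ} (hw : gramM w = 1) (s : ι → ℝ) :
    volume (bodyS w s) ≠ ⊤ := by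
  rcases Set.eq_empty_or_nonempty (bodyS w s) with h | h
  · rw [h]; simp
  · obtain ⟨s', hs', hv⟩ := exists_small_shift w s h
    rw [← hv]
    exact ne_top_of_le_ne_top (by
      rw [Real.volume_pi_closedBall _ (by positivity)]
      exact ENNReal.ofReal_ne_top) (measure_mono (bodyS_tight_sub hw hs'))

theorem bodyS_finite {v : ι → Fin k → ℝ} (hv : (gramM v).det ≠ 0) (s : ι → ℝ) :
    volume (bodyS v s) ≠ ⊤ := by
  obtain ⟨w, U, hU, hw, rfl⟩ := exists_tight v hv
  rw [bodyS_vecMul, vol_preimage hU]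
  exact ENNReal.mul_ne_top ENNReal.ofReal_ne_top (bodyS_tight_finite hw s)

theorem Gs_tight {w : ι → Fin k → ℝ} (hw : gramM w = 1) (s : ι → ℝ) :
    Gs w s = (volume (bodyS w s)).toReal := by
  unfold Gs
  rw [hw, det_one, Real.sqrt_one, one_mul]

theorem Gs_tight_le {w : ι → Fin k → ℝ} (hw : gramM w = 1) (s : ι → ℝ) :
    Gs w s ≤ (2 * (Fintype.card ι : ℝ)) ^ k := by
  rw [Gs_tight hw]
  rcases Set.eq_empty_or_nonempty (bodyS w s) with h | h
  · rw [h]; simp only [measure_empty, ENNReal.toReal_zero]; positivity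
  · obtain ⟨s', hs', hv⟩ := exists_small_shift w s h
    rw [← hv]
    have h1 := measure_mono (μ := volume) (bodyS_tight_sub hw hs')
    rw [Real.volume_pi_closedBall _ (by positivity), Fintype.card_fin] at h1
    have h2 := ENNReal.toReal_mono ENNReal.ofReal_ne_top h1
    rwa [ENNReal.toReal_ofReal (by positivity)] at h2

/-- invariance under reindexing -/
theorem Gs_reindex {κ : Type} [Fintype κ] (e : κ ≃ ι) (v : ι → Fin k → ℝ) (s : ι → ℝ) :
    Gs (fun j => v (e j)) (fun j => s (e j)) = Gs v s := by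
  have h1 : gramM (fun j => v (e j)) = gramM v := by
    ext p q
    rw [gramM_apply, gramM_apply]
    exact e.sum_comp (fun i => v i p * v i q)
  have h2 : bodyS (fun j => v (e j)) (fun j => s (e j)) = bodyS v s := by
    ext x
    simp only [bodyS, Set.mem_ofPred_eq]
    exact e.forall_congr_left.trans (by simp)
  unfold Gs
  rw [h1, h2]

/-- comparison with a subset of the new body -/
theorem Gs_ge_of_subset {κ : Type} [Fintype κ] (v : κ → Fin k → ℝ) (s : κ → ℝ)
    (hdet : (gramM v).det ≠ 0) {S : Set (Fin k → ℝ)} (hS : S ⊆ bodyS v s) :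
    Real.sqrt (gramM v).det * (volume S).toReal ≤ Gs v s := by
  unfold Gs
  apply mul_le_mul_of_nonneg_left _ (Real.sqrt_nonneg _)
  exact ENNReal.toReal_mono (bodyS_finite hdet s) (measure_mono hS)

end Pool.Agent.Work.MP_6cd513_gt
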