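import Pool.Agent.Work.MP_6cd513_gt.Cert2
import Pool.Agent.Work.MP_6cd513_gt.MainStep
import Pool.Agent.Work.MP_6cd513_gt.Shift

/-!
# The improved defect in Ball's bound, for shifted slabs
-/

open MeasureTheory Matrix Finset

namespace Pool.Agent.Work.MP_6cd513_gt

variable {k : ℕ}

/-- the defect version of Ball's bound for tight frames, with pair dependent amplitudes -/
theorem tight_defect2 {ι : Type} [Fintype ι] {b cc : ι → ι → ℝ} {ρ : ι → ℝ}
    {w : ι → Fin k → ℝ} (hw : gramM w = 1) (hpos : ∀ i, 0 < w i ⬝ᵥ w i) (s : ι → ℝ)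
    (P : CPar b cc ρ (fun i => w i ⬝ᵥ w i) (fun i => (Real.sqrt (w i ⬝ᵥ w i))⁻¹ • w i)) :
    Gs w s ≤ Real.exp ((1 / 2) * ∑ i, (w i ⬝ᵥ w i) * (-Real.log (w i ⬝ᵥ w i))
      - (1 / 2) * ∑ i, ∑ j, (w i ⬝ᵥ w i) * (w j ⬝ᵥ w j) *
        (((Real.sqrt (w i ⬝ᵥ w i))⁻¹ • w i) ⬝ᵥ ((Real.sqrt (w j ⬝ᵥ w j))⁻¹ • w j)) ^ 2 *
        Tp (b i j) (cc i j) (ρ i) (1 - (((Real.sqrt (w i ⬝ᵥ w i))⁻¹ • w i) ⬝ᵥ
          ((Real.sqrt (w j ⬝ᵥ w j))⁻¹ • w j)) ^ 2)) := by
  obtain ⟨hu, hiso⟩ := normalise hw hpos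
  set α : ι → ℝ := fun i => w i ⬝ᵥ w i with hα
  set u : ι → Fin k → ℝ := fun i => (Real.sqrt (w i ⬝ᵥ w i))⁻¹ • w i with hu'
  have hsum := sum_alpha hu hiso
  set Q : ℝ := (1 / 2) * ∑ i, ∑ j, α i * α j * (u i ⬝ᵥ u j) ^ 2 *
        Tp (b i j) (cc i j) (ρ i) (1 - (u i ⬝ᵥ u j) ^ 2) with hQ
  set E : ℝ := Real.exp ((1 / 2) * ∑ i, α i * (-Real.log (α i)) - Q) with hE
  have hmain : ∀ t : ℝ, 1 < t → Gs w s ≤ t ^ k * E := by
    intro t ht
    have ht0 : 0 < t := by linarith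
    have hwid : ∀ i, 0 < t / (2 * Real.sqrt (α i)) := fun i => by
      have := Real.sqrt_pos.2 (hpos i)
      positivity
    have hsub : bodyS w s ⊆ slabS (fun i => t / (2 * Real.sqrt (α i))) u
        (fun i => (Real.sqrt (α i))⁻¹ * s i) := by
      intro x hx i
      have hs0 : 0 < Real.sqrt (α i) := Real.sqrt_pos.2 (hpos i)
      have h1 : u i ⬝ᵥ x - (Real.sqrt (α i))⁻¹ * s i
          = (Real.sqrt (α i))⁻¹ * (w i ⬝ᵥ x - s i) := by
        simp only [hu', smul_dotProduct, smul_eq_mul]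
        ring
      rw [h1, abs_mul, abs_inv, abs_of_pos hs0]
      calc (Real.sqrt (α i))⁻¹ * |w i ⬝ᵥ x - s i| ≤ (Real.sqrt (α i))⁻¹ * (1 / 2) :=
            mul_le_mul_of_nonneg_left (hx i) (inv_nonneg.2 hs0.le)
        _ = 1 / (2 * Real.sqrt (α i)) := by field_simp
        _ < t / (2 * Real.sqrt (α i)) := by
            apply div_lt_div_of_pos_right ht
            positivity
    have hvol := slabS_defect2 (sh := fun i => (Real.sqrt (α i))⁻¹ * s i) P
      (fun i => (hpos i).le) hwid hu hiso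
    have h2 : ∑ i, α i * Real.log (2 * (t / (2 * Real.sqrt (α i))))
        = k * Real.log t + (1 / 2) * ∑ i, α i * (-Real.log (α i)) := by
      rw [← hsum, Finset.sum_mul, Finset.mul_sum, ← Finset.sum_add_distrib]
      refine Finset.sum_congr rfl fun i _ => ?_
      have h3 : 2 * (t / (2 * Real.sqrt (α i))) = t / Real.sqrt (α i) := by
        have := (Real.sqrt_pos.2 (hpos i)).ne'
        field_simp
      rw [h3, Real.log_div ht0.ne' (Real.sqrt_pos.2 (hpos i)).ne', Real.log_sqrt (hpos i).le]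
      ring
    have h3 : (volume (bodyS w s)).toReal ≤ Real.exp (∑ i, α i *
        Real.log (2 * (t / (2 * Real.sqrt (α i)))) - Q) := by
      have h4 := (measure_mono (μ := volume) hsub).trans hvol
      have h5 := ENNReal.toReal_mono ENNReal.ofReal_ne_top h4
      rwa [ENNReal.toReal_ofReal (Real.exp_pos _).le] at h5
    rw [Gs_tight hw]
    refine h3.trans ?_
    rw [h2]
    have h5 : t ^ k = Real.exp (k * Real.log t) := by
      rw [← Real.log_pow, Real.exp_log (by positivity)]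
    rw [h5, hE, ← Real.exp_add]
    apply Real.exp_le_exp.2
    linarith
  have hlim : Filter.Tendsto (fun t : ℝ => t ^ k * E)
      (nhdsWithin 1 (Set.Ioi 1)) (nhds (1 ^ k * E)) := by
    apply Filter.Tendsto.mono_left _ nhdsWithin_le_nhds
    exact ((continuous_id.pow k).mul continuous_const).tendsto 1
  rw [one_pow, one_mul] at hlim
  apply ge_of_tendsto hlim
  filter_upwards [self_mem_nhdsWithin] with t ht
  exact hmain t ht

end Pool.Agent.Work.MP_6cd513_gt
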