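import Mathlib

/-!
# A determinant inequality with remainder (used in the transport proof of the Brascamp-Lieb
inequality for slabs)
-/

open Matrix Finset

namespace Pool.Agent.Work.MP_6cd513_gt

theorem log_le_taylor {t lam tau : ℝ} (ht : 0 < t) (hl : 0 < lam) (htt : t ≤ tau)
    (hlt : lam ≤ tau) :
    Real.log t ≤ Real.log lam + (t - lam) / lam - (t - lam) ^ 2 / (2 * tau ^ 2) := by
  have htau : 0 < tau := lt_of_lt_of_le ht htt
  let f : ℝ → ℝ := fun s => Real.log lam + (s - lam) / lam - (s - lam) ^ 2 / (2 * tau ^ 2)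
    - Real.log s
  have hf : ∀ s : ℝ, 0 < s → HasDerivAt f ((s - lam) * (1 / (lam * s) - 1 / tau ^ 2)) s := by
    intro s hs
    have h1 : HasDerivAt (fun s : ℝ => (s - lam) / lam) (1 / lam) s := by
      simpa using ((hasDerivAt_id s).sub_const lam).div_const lam
    have h2 : HasDerivAt (fun s : ℝ => (s - lam) ^ 2 / (2 * tau ^ 2))
        ((2 * (s - lam)) / (2 * tau ^ 2)) s := by
      simpa using (((hasDerivAt_id s).sub_const lam).pow 2).div_const (2 * tau ^ 2)
    have h3 := Real.hasDerivAt_log hs.ne'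
    have h4 : HasDerivAt f (1 / lam - (2 * (s - lam)) / (2 * tau ^ 2) - s⁻¹) s :=
      (((h1.const_add (Real.log lam)).sub h2).sub h3)
    have h5 : (s - lam) * (1 / (lam * s) - 1 / tau ^ 2)
        = 1 / lam - (2 * (s - lam)) / (2 * tau ^ 2) - s⁻¹ := by
      have := hs.ne'
      have := hl.ne'
      have := htau.ne'
      field_simp
      ring
    rw [h5]
    exact h4
  have hkey : 0 ≤ f t := by
    have hfl : f lam = 0 := by simp [f]
    rcases lt_trichotomy t lam with h | h | h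
    · -- t < lam
      have hcont : ContinuousOn f (Set.Icc t lam) := fun s hs =>
        (hf s (lt_of_lt_of_le ht hs.1)).continuousAt.continuousWithinAt
      obtain ⟨c, hc, hc'⟩ := exists_hasDerivAt_eq_slope f
        (fun s => (s - lam) * (1 / (lam * s) - 1 / tau ^ 2)) h hcont
        (fun s hs => hf s (lt_trans ht hs.1))
      have hc0 : 0 < c := lt_trans ht hc.1
      have hctau : lam * c ≤ tau ^ 2 := by
        nlinarith [hc.2.le.trans hlt]
      have hpos : 0 ≤ 1 / (lam * c) - 1 / tau ^ 2 :=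
        sub_nonneg.2 (one_div_le_one_div_of_le (by positivity) hctau)
      have hneg : (c - lam) * (1 / (lam * c) - 1 / tau ^ 2) ≤ 0 :=
        mul_nonpos_of_nonpos_of_nonneg (by linarith [hc.2]) hpos
      rw [hfl, eq_div_iff (by linarith)] at hc'
      nlinarith [hc', mul_nonneg_of_nonpos_of_nonpos hneg (by linarith : t - lam ≤ 0)]
    · rw [h, hfl]
    · have hcont : ContinuousOn f (Set.Icc lam t) := fun s hs =>
        (hf s (lt_of_lt_of_le hl hs.1)).continuousAt.continuousWithinAt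
      obtain ⟨c, hc, hc'⟩ := exists_hasDerivAt_eq_slope f
        (fun s => (s - lam) * (1 / (lam * s) - 1 / tau ^ 2)) h hcont
        (fun s hs => hf s (lt_trans hl hs.1))
      have hc0 : 0 < c := lt_trans hl hc.1
      have hctau : lam * c ≤ tau ^ 2 := by
        nlinarith [hc.2.le.trans htt]
      have hpos : 0 ≤ 1 / (lam * c) - 1 / tau ^ 2 :=
        sub_nonneg.2 (one_div_le_one_div_of_le (by positivity) hctau)
      have hnn : 0 ≤ (c - lam) * (1 / (lam * c) - 1 / tau ^ 2) :=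
        mul_nonneg (by linarith [hc.1]) hpos
      rw [hfl, eq_div_iff (by linarith)] at hc'
      nlinarith [hc', mul_nonneg hnn (by linarith : 0 ≤ t - lam)]
  simp only [f] at hkey
  linarith

variable {ι : Type*} [Fintype ι] {k : ℕ}

/-- the weighted frame matrix -/
noncomputable def frameM (c : ι → ℝ) (u : ι → Fin k → ℝ) : Matrix (Fin k) (Fin k) ℝ :=
  ∑ i, c i • vecMulVec (u i) (u i)

theorem frameM_apply (c : ι → ℝ) (u : ι → Fin k → ℝ) (p q : Fin k) :
    frameM c u p q = ∑ i, c i * (u i p * u i q) := by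
  simp [frameM, Matrix.sum_apply, vecMulVec_apply]

theorem frameM_isHermitian (c : ι → ℝ) (u : ι → Fin k → ℝ) : (frameM c u).IsHermitian := by
  ext p q
  simp only [conjTranspose_apply, star_trivial, frameM_apply]
  exact Finset.sum_congr rfl fun i _ => by ring

theorem frameM_mulVec (c : ι → ℝ) (u : ι → Fin k → ℝ) (x : Fin k → ℝ) :
    frameM c u *ᵥ x = ∑ i, (c i * (u i ⬝ᵥ x)) • u i := by
  ext p
  simp only [mulVec, dotProduct, frameM_apply, Finset.sum_apply, Pi.smul_apply, smul_eq_mul]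
  simp_rw [Finset.sum_mul, Finset.mul_sum]
  rw [Finset.sum_comm]
  refine Finset.sum_congr rfl fun i _ => ?_
  rw [Finset.sum_mul]
  exact Finset.sum_congr rfl fun q _ => by ring

theorem dot_frameM_mulVec (c : ι → ℝ) (u : ι → Fin k → ℝ) (x y : Fin k → ℝ) :
    y ⬝ᵥ (frameM c u *ᵥ x) = ∑ i, c i * ((u i ⬝ᵥ x) * (u i ⬝ᵥ y)) := by
  rw [frameM_mulVec, dotProduct_sum]
  refine Finset.sum_congr rfl fun i _ => ?_
  rw [dotProduct_smul, smul_eq_mul, dotProduct_comm y]
  ring

/-- isotropy in terms of vectors -/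
theorem iso_dot {α : ι → ℝ} {u : ι → Fin k → ℝ} (hiso : frameM α u = 1) (x y : Fin k → ℝ) :
    ∑ i, α i * ((u i ⬝ᵥ x) * (u i ⬝ᵥ y)) = y ⬝ᵥ x := by
  rw [← dot_frameM_mulVec, hiso, one_mulVec]

theorem logdet_ge (α t : ι → ℝ) (u : ι → Fin k → ℝ) (tau : ℝ)
    (hα : ∀ i, 0 ≤ α i) (hu : ∀ i, u i ⬝ᵥ u i = 1) (hiso : frameM α u = 1)
    (ht : ∀ i, 0 < t i) (htt : ∀ i, t i ≤ tau) :
    0 < (frameM (fun i => α i * t i) u).det ∧
    ∑ i, α i * Real.log (t i) + (1 / (4 * tau ^ 2)) *
        ∑ i, ∑ j, α i * α j * (u i ⬝ᵥ u j) ^ 2 * (t i - t j) ^ 2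
      ≤ Real.log (frameM (fun i => α i * t i) u).det := by
  classical
  set M := frameM (fun i => α i * t i) u with hM
  have hH : M.IsHermitian := frameM_isHermitian _ _
  let f : Fin k → Fin k → ℝ := fun m => ⇑(hH.eigenvectorBasis m)
  let lam : Fin k → ℝ := hH.eigenvalues
  have hMf : ∀ m, M *ᵥ f m = lam m • f m := fun m => hH.mulVec_eigenvectorBasis m
  have hff : ∀ m, f m ⬝ᵥ f m = 1 := by
    intro m
    have h := hH.eigenvectorBasis.orthonormal.1 m
    have h2 : inner ℝ (hH.eigenvectorBasis m) (hH.eigenvectorBasis m) = (1 : ℝ) := by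
      rw [real_inner_self_eq_norm_sq, h]; norm_num
    rw [EuclideanSpace.inner_eq_star_dotProduct] at h2
    simpa [f] using h2
  have hpars : ∀ x y : Fin k → ℝ, ∑ m, (x ⬝ᵥ f m) * (y ⬝ᵥ f m) = x ⬝ᵥ y := by
    intro x y
    have h := hH.eigenvectorBasis.sum_inner_mul_inner (WithLp.toLp 2 x) (WithLp.toLp 2 y)
    simp only [EuclideanSpace.inner_eq_star_dotProduct, star_trivial] at h
    rw [dotProduct_comm x y, ← h]
    refine Finset.sum_congr rfl fun m _ => ?_
    rw [dotProduct_comm x]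
  -- weights
  let w : ι → Fin k → ℝ := fun i m => α i * (u i ⬝ᵥ f m) ^ 2
  have hw0 : ∀ i m, 0 ≤ w i m := fun i m => mul_nonneg (hα i) (sq_nonneg _)
  have hw1 : ∀ m, ∑ i, w i m = 1 := by
    intro m
    have h := iso_dot hiso (f m) (f m)
    rw [hff m] at h
    rw [← h]
    exact Finset.sum_congr rfl fun i _ => by simp only [w]; ring
  have hw2 : ∀ i, ∑ m, w i m = α i := by
    intro i
    have h := hpars (u i) (u i)
    simp only [w]
    rw [← Finset.mul_sum]
    have h2 : ∑ m, (u i ⬝ᵥ f m) ^ 2 = 1 := by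
      rw [← hu i, ← h]
      exact Finset.sum_congr rfl fun m _ => by ring
    rw [h2, mul_one]
  have hlam : ∀ m, lam m = ∑ i, w i m * t i := by
    intro m
    have h := dot_frameM_mulVec (fun i => α i * t i) u (f m) (f m)
    rw [← hM, hMf m, dotProduct_smul, hff m, smul_eq_mul, mul_one] at h
    rw [h]
    exact Finset.sum_congr rfl fun i _ => by simp only [w]; ring
  have hlampos : ∀ m, 0 < lam m := by
    intro m
    rw [hlam m]
    have hne : (Finset.univ : Finset ι).Nonempty := by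
      by_contra hcon
      rw [Finset.not_nonempty_iff_eq_empty] at hcon
      have := hw1 m
      rw [hcon] at this
      simp at this
    have hex : ∃ i, 0 < w i m := by
      by_contra hcon
      push Not at hcon
      have : ∑ i, w i m ≤ 0 := Finset.sum_nonpos fun i _ => hcon i
      rw [hw1 m] at this
      linarith
    obtain ⟨i, hi⟩ := hex
    exact Finset.sum_pos' (fun i _ => mul_nonneg (hw0 i m) (ht i).le) ⟨i, Finset.mem_univ i,
      mul_pos hi (ht i)⟩
  have hlamle : ∀ m, lam m ≤ tau := by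
    intro m
    rw [hlam m, ← mul_one tau, ← hw1 m, Finset.mul_sum]
    refine Finset.sum_le_sum fun i _ => ?_
    rw [mul_comm tau]
    exact mul_le_mul_of_nonneg_left (htt i) (hw0 i m)
  have hdet : M.det = ∏ m, lam m := by
    have := hH.det_eq_prod_eigenvalues
    simpa [lam] using this
  have hdetpos : 0 < M.det := by
    rw [hdet]; exact Finset.prod_pos fun m _ => hlampos m
  refine ⟨hdetpos, ?_⟩
  rw [hdet, Real.log_prod (fun m _ => (hlampos m).ne')]
  -- Jensen with remainder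
  have hJ : ∀ m, ∑ i, w i m * Real.log (t i) ≤ Real.log (lam m)
      - (1 / (2 * tau ^ 2)) * ∑ i, w i m * (t i - lam m) ^ 2 := by
    intro m
    have h1 : ∑ i, w i m * Real.log (t i) ≤ ∑ i, w i m * (Real.log (lam m) + (t i - lam m) / lam m
        - (t i - lam m) ^ 2 / (2 * tau ^ 2)) :=
      Finset.sum_le_sum fun i _ => mul_le_mul_of_nonneg_left
        (log_le_taylor (ht i) (hlampos m) (htt i) (hlamle m)) (hw0 i m)
    have h2 : ∑ i, w i m * (Real.log (lam m) + (t i - lam m) / lam m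
        - (t i - lam m) ^ 2 / (2 * tau ^ 2)) = Real.log (lam m) * ∑ i, w i m
        + (1 / lam m) * (∑ i, w i m * t i - lam m * ∑ i, w i m)
        - (1 / (2 * tau ^ 2)) * ∑ i, w i m * (t i - lam m) ^ 2 := by
      rw [Finset.mul_sum, Finset.mul_sum, ← Finset.sum_sub_distrib, Finset.mul_sum,
        Finset.mul_sum, ← Finset.sum_add_distrib, ← Finset.sum_sub_distrib]
      refine Finset.sum_congr rfl fun i _ => ?_
      ring
    rw [h2, hw1 m, ← hlam m] at h1
    linarith
  have hsum := Finset.sum_le_sum (fun m (_ : m ∈ Finset.univ) => hJ m)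
  rw [Finset.sum_comm, Finset.sum_sub_distrib, ← Finset.mul_sum] at hsum
  have hA : ∑ i, ∑ m, w i m * Real.log (t i) = ∑ i, α i * Real.log (t i) := by
    refine Finset.sum_congr rfl fun i _ => ?_
    rw [← Finset.sum_mul, hw2 i]
  rw [hA] at hsum
  -- second moments
  have hB : ∑ m, ∑ i, w i m * (t i - lam m) ^ 2 = ∑ i, α i * t i ^ 2 - ∑ m, lam m ^ 2 := by
    have h1 : ∀ m, ∑ i, w i m * (t i - lam m) ^ 2 = ∑ i, w i m * t i ^ 2 - lam m ^ 2 := by
      intro m
      have h2 : ∑ i, w i m * (t i - lam m) ^ 2 = ∑ i, w i m * t i ^ 2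
          - 2 * lam m * ∑ i, w i m * t i + lam m ^ 2 * ∑ i, w i m := by
        rw [Finset.mul_sum, Finset.mul_sum, ← Finset.sum_sub_distrib, ← Finset.sum_add_distrib]
        exact Finset.sum_congr rfl fun i _ => by ring
      rw [h2, hw1 m, ← hlam m]
      ring
    rw [Finset.sum_congr rfl fun m _ => h1 m, Finset.sum_sub_distrib, Finset.sum_comm]
    congr 1
    refine Finset.sum_congr rfl fun i _ => ?_
    rw [← Finset.sum_mul, hw2 i]
  have hC : ∑ m, lam m ^ 2 = ∑ i, ∑ j, α i * α j * (u i ⬝ᵥ u j) ^ 2 * (t i * t j) := by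
    have h1 : ∀ m, lam m ^ 2 = ∑ i, ∑ j, α i * t i * (α j * t j) * (u i ⬝ᵥ u j) *
        ((u i ⬝ᵥ f m) * (u j ⬝ᵥ f m)) := by
      intro m
      have h2 : (M *ᵥ f m) ⬝ᵥ (M *ᵥ f m) = lam m ^ 2 := by
        rw [hMf m, dotProduct_smul, smul_dotProduct, hff m]
        simp only [smul_eq_mul]
        ring
      rw [← h2, hM, frameM_mulVec, sum_dotProduct]
      refine Finset.sum_congr rfl fun i _ => ?_
      rw [dotProduct_sum]
      refine Finset.sum_congr rfl fun j _ => ?_
      rw [smul_dotProduct, dotProduct_smul]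
      simp only [smul_eq_mul]
      ring
    rw [Finset.sum_congr rfl fun m _ => h1 m, Finset.sum_comm]
    refine Finset.sum_congr rfl fun i _ => ?_
    rw [Finset.sum_comm]
    refine Finset.sum_congr rfl fun j _ => ?_
    rw [← Finset.mul_sum, hpars (u i) (u j)]
    ring
  have hD : ∑ i, ∑ j, α i * α j * (u i ⬝ᵥ u j) ^ 2 * (t i - t j) ^ 2
      = 2 * (∑ i, α i * t i ^ 2 - ∑ m, lam m ^ 2) := by
    rw [hC]
    have hrow : ∀ i, ∑ j, α j * (u i ⬝ᵥ u j) ^ 2 = 1 := by
      intro i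
      have h := iso_dot hiso (u i) (u i)
      rw [hu i] at h
      rw [← h]
      refine Finset.sum_congr rfl fun j _ => ?_
      rw [dotProduct_comm (u i)]
      ring
    have e1 : ∑ i, ∑ j, α i * α j * (u i ⬝ᵥ u j) ^ 2 * (t i) ^ 2 = ∑ i, α i * t i ^ 2 := by
      refine Finset.sum_congr rfl fun i _ => ?_
      have : ∑ j, α i * α j * (u i ⬝ᵥ u j) ^ 2 * (t i) ^ 2
          = α i * t i ^ 2 * ∑ j, α j * (u i ⬝ᵥ u j) ^ 2 := by
        rw [Finset.mul_sum]
        exact Finset.sum_congr rfl fun j _ => by ring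
      rw [this, hrow i, mul_one]
    have e2 : ∑ i, ∑ j, α i * α j * (u i ⬝ᵥ u j) ^ 2 * (t j) ^ 2 = ∑ i, α i * t i ^ 2 := by
      rw [Finset.sum_comm]
      refine Finset.sum_congr rfl fun j _ => ?_
      have : ∑ i, α i * α j * (u i ⬝ᵥ u j) ^ 2 * (t j) ^ 2
          = α j * t j ^ 2 * ∑ i, α i * (u j ⬝ᵥ u i) ^ 2 := by
        rw [Finset.mul_sum]
        exact Finset.sum_congr rfl fun i _ => by rw [dotProduct_comm (u i)]; ring
      rw [this, hrow j, mul_one]
    have e3 : ∑ i, ∑ j, α i * α j * (u i ⬝ᵥ u j) ^ 2 * (t i - t j) ^ 2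
        = ∑ i, ∑ j, α i * α j * (u i ⬝ᵥ u j) ^ 2 * (t i) ^ 2
          + ∑ i, ∑ j, α i * α j * (u i ⬝ᵥ u j) ^ 2 * (t j) ^ 2
          - 2 * ∑ i, ∑ j, α i * α j * (u i ⬝ᵥ u j) ^ 2 * (t i * t j) := by
      rw [Finset.mul_sum, ← Finset.sum_add_distrib, ← Finset.sum_sub_distrib]
      refine Finset.sum_congr rfl fun i _ => ?_
      rw [Finset.mul_sum, ← Finset.sum_add_distrib, ← Finset.sum_sub_distrib]
      exact Finset.sum_congr rfl fun j _ => by ring
    rw [e3, e1, e2]
    ring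
  rw [hB] at hsum
  rw [hD]
  have : 1 / (4 * tau ^ 2) * (2 * (∑ i, α i * t i ^ 2 - ∑ m, lam m ^ 2))
      = 1 / (2 * tau ^ 2) * (∑ i, α i * t i ^ 2 - ∑ m, lam m ^ 2) := by
    ring
  rw [this]
  linarith

end Pool.Agent.Work.MP_6cd513_gt
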