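import Pool.Agent.Work.MP_6cd513_gt.BL

/-!
# Consequences of the transport inequality: Ball's bound and the defect estimate
-/

open Matrix Finset MeasureTheory

namespace Pool.Agent.Work.MP_6cd513_gt

variable {ι : Type*} [Fintype ι] {k : ℕ}

theorem exp_le_det {α t : ι → ℝ} {u : ι → Fin k → ℝ}
    (hα : ∀ i, 0 ≤ α i) (hu : ∀ i, u i ⬝ᵥ u i = 1) (hiso : frameM α u = 1)
    (ht : ∀ i, 0 < t i) :
    Real.exp (∑ i, α i * Real.log (t i)) ≤ (frameM (fun i => α i * t i) u).det := by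
  have htt : ∀ i, t i ≤ ∑ j, t j := fun i =>
    Finset.single_le_sum (fun j _ => (ht j).le) (Finset.mem_univ i)
  obtain ⟨h1, h2⟩ := logdet_ge α t u (∑ j, t j) hα hu hiso ht htt
  have h3 : 0 ≤ (1 / (4 * (∑ j, t j) ^ 2)) *
        ∑ i, ∑ j, α i * α j * (u i ⬝ᵥ u j) ^ 2 * (t i - t j) ^ 2 := by
    apply mul_nonneg (by positivity)
    refine Finset.sum_nonneg fun i _ => Finset.sum_nonneg fun j _ => ?_
    have := hα i
    have := hα j
    positivity
  rw [← Real.exp_log h1]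
  exact Real.exp_le_exp.2 (by linarith)

omit [Fintype ι] in
theorem tW_pos {w : ι → ℝ} (u : ι → Fin k → ℝ) (hw : ∀ i, 0 < w i) (x : Fin k → ℝ) (i : ι) :
    0 < tW w u x i := div_pos (Wq_pos _) (hw i)

/-- **Ball's bound for slabs.** -/
theorem slab_vol_le {α w : ι → ℝ} {u : ι → Fin k → ℝ} (hα : ∀ i, 0 ≤ α i) (hw : ∀ i, 0 < w i)
    (hu : ∀ i, u i ⬝ᵥ u i = 1) (hiso : frameM α u = 1) :
    volume (slab w u) ≤ ENNReal.ofReal (Real.exp (∑ i, α i * Real.log (2 * w i))) := by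
  have h := slab_BL hα hw hu hiso (fun _ => 1) (fun x _ => by
    rw [mul_one]
    exact exp_le_det hα hu hiso (tW_pos u hw x))
  simpa using h

theorem cauchy_dot (x y : Fin k → ℝ) : (x ⬝ᵥ y) ^ 2 ≤ (x ⬝ᵥ x) * (y ⬝ᵥ y) := by
  have := Finset.sum_mul_sq_le_sq_mul_sq Finset.univ x y
  simpa [dotProduct, sq] using this

theorem dot_self_nonneg' (x : Fin k → ℝ) : 0 ≤ x ⬝ᵥ x := by
  simp only [dotProduct]
  exact Finset.sum_nonneg fun i _ => mul_self_nonneg _

theorem dot_cross (a b : Fin k → ℝ) : a ⬝ᵥ b ≤ (1 / 4) * (a ⬝ᵥ a) + b ⬝ᵥ b := by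
  have h2 : 0 ≤ ((1 / 2 : ℝ) • a - b) ⬝ᵥ ((1 / 2 : ℝ) • a - b) := dot_self_nonneg' _
  have h3 : ((1 / 2 : ℝ) • a - b) ⬝ᵥ ((1 / 2 : ℝ) • a - b)
      = (1 / 4) * (a ⬝ᵥ a) - a ⬝ᵥ b + b ⬝ᵥ b := by
    rw [sub_dotProduct, dotProduct_sub, dotProduct_sub, smul_dotProduct, dotProduct_smul,
      smul_dotProduct, dotProduct_smul, smul_eq_mul, smul_eq_mul, smul_eq_mul, smul_eq_mul,
      dotProduct_comm b a]
    ring
  linarith

/-- a small cube on which `((u·y)²-(v·y)²)²` is bounded below -/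
theorem pair_cube (hk : 1 ≤ k) {u v : Fin k → ℝ} (hu : u ⬝ᵥ u = 1) (hv : v ⬝ᵥ v = 1) :
    ∃ x0 : Fin k → ℝ, ∀ y ∈ Metric.closedBall x0 (1 / (8 * k)), y ⬝ᵥ y ≤ 1 / 4 ∧
      (1 - (u ⬝ᵥ v) ^ 2) / 1024 ≤ ((u ⬝ᵥ y) ^ 2 - (v ⬝ᵥ y) ^ 2) ^ 2 := by
  have hk' : (1 : ℝ) ≤ k := by exact_mod_cast hk
  have hz : ∀ x0 y : Fin k → ℝ, y ∈ Metric.closedBall x0 (1 / (8 * k)) →
      (y - x0) ⬝ᵥ (y - x0) ≤ 1 / 64 := by
    intro x0 y hy
    have h1 : ∀ p, |(y - x0) p| ≤ 1 / (8 * k) := by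
      intro p
      have h2 : ‖y - x0‖ ≤ 1 / (8 * k) := by rwa [← dist_eq_norm]
      exact (norm_le_pi_norm (y - x0) p).trans h2
    calc (y - x0) ⬝ᵥ (y - x0) = ∑ p, (y - x0) p ^ 2 := by
          simp only [dotProduct]; exact Finset.sum_congr rfl fun p _ => by ring
      _ ≤ ∑ _p : Fin k, (1 / (8 * (k : ℝ))) ^ 2 := Finset.sum_le_sum fun p _ => by
          rw [← sq_abs]
          exact pow_le_pow_left₀ (abs_nonneg _) (h1 p) 2
      _ = 1 / (64 * k) := by
          rw [Finset.sum_const, Finset.card_univ, Fintype.card_fin, nsmul_eq_mul]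
          field_simp
          norm_num
      _ ≤ 1 / 64 := by
          apply one_div_le_one_div_of_le (by norm_num)
          nlinarith
  set ρ := u ⬝ᵥ v with hρ
  have hcs : ρ ^ 2 ≤ 1 := by
    have := cauchy_dot u v
    rwa [hu, hv, one_mul] at this
  by_cases hρ1 : ρ ^ 2 = 1
  · refine ⟨0, fun y hy => ?_⟩
    have h1 := hz 0 y hy
    rw [sub_zero] at h1
    refine ⟨by linarith, ?_⟩
    rw [hρ1, sub_self, zero_div]
    positivity
  · have hlt : ρ ^ 2 < 1 := lt_of_le_of_ne hcs hρ1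
    have hρlt : ρ < 1 := by nlinarith
    have hρgt : -1 < ρ := by nlinarith
    set sa := Real.sqrt (2 - 2 * ρ) with hsa
    set sb := Real.sqrt (2 + 2 * ρ) with hsb
    have hsa0 : 0 < sa := Real.sqrt_pos.2 (by linarith)
    have hsb0 : 0 < sb := Real.sqrt_pos.2 (by linarith)
    have hsa2 : sa ^ 2 = 2 - 2 * ρ := Real.sq_sqrt (by linarith)
    have hsb2 : sb ^ 2 = 2 + 2 * ρ := Real.sq_sqrt (by linarith)
    have hvu : v ⬝ᵥ u = ρ := by rw [dotProduct_comm]
    set e : Fin k → ℝ := sa⁻¹ • (u - v) with he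
    set f : Fin k → ℝ := sb⁻¹ • (u + v) with hf
    have hee : e ⬝ᵥ e = 1 := by
      rw [he, smul_dotProduct, dotProduct_smul, sub_dotProduct, dotProduct_sub, dotProduct_sub,
        hu, hv, hvu, ← hρ, smul_eq_mul, smul_eq_mul]
      field_simp
      rw [hsa2]; ring
    have hff : f ⬝ᵥ f = 1 := by
      rw [hf, smul_dotProduct, dotProduct_smul, add_dotProduct, dotProduct_add, dotProduct_add,
        hu, hv, hvu, ← hρ, smul_eq_mul, smul_eq_mul]
      field_simp
      rw [hsb2]; ring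
    have hef : e ⬝ᵥ f = 0 := by
      rw [he, hf, smul_dotProduct, dotProduct_smul, sub_dotProduct, dotProduct_add,
        dotProduct_add, hu, hv, hvu, ← hρ, smul_eq_mul, smul_eq_mul]
      ring
    have hfe : f ⬝ᵥ e = 0 := by rw [dotProduct_comm]; exact hef
    refine ⟨(1 / 4 : ℝ) • (e + f), fun y hy => ?_⟩
    set x0 : Fin k → ℝ := (1 / 4 : ℝ) • (e + f) with hx0
    have h1 := hz x0 y hy
    set z := y - x0 with hzdef
    have hy' : y = x0 + z := by rw [hzdef]; abel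
    have hx00 : x0 ⬝ᵥ x0 = 1 / 8 := by
      rw [hx0, smul_dotProduct, dotProduct_smul, add_dotProduct, dotProduct_add, dotProduct_add,
        hee, hff, hef, hfe, smul_eq_mul, smul_eq_mul]
      norm_num
    have hcross : x0 ⬝ᵥ z ≤ (1 / 4) * (x0 ⬝ᵥ x0) + z ⬝ᵥ z := dot_cross x0 z
    have hyy : y ⬝ᵥ y ≤ 1 / 4 := by
      rw [hy', add_dotProduct, dotProduct_add, dotProduct_add, dotProduct_comm z x0]
      linarith
    refine ⟨hyy, ?_⟩
    have hez : |e ⬝ᵥ z| ≤ 1 / 8 := by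
      have h2 := cauchy_dot e z
      rw [hee, one_mul] at h2
      exact abs_le_of_sq_le_sq (by nlinarith) (by norm_num)
    have hfz : |f ⬝ᵥ z| ≤ 1 / 8 := by
      have h2 := cauchy_dot f z
      rw [hff, one_mul] at h2
      exact abs_le_of_sq_le_sq (by nlinarith) (by norm_num)
    have hey : 1 / 8 ≤ e ⬝ᵥ y := by
      rw [hy', dotProduct_add, hx0, dotProduct_smul, dotProduct_add, hee, hef, smul_eq_mul]
      have := (abs_le.1 hez).1
      linarith
    have hfy : 1 / 8 ≤ f ⬝ᵥ y := by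
      rw [hy', dotProduct_add, hx0, dotProduct_smul, dotProduct_add, hff, hfe, smul_eq_mul]
      have := (abs_le.1 hfz).1
      linarith
    have huv : (u ⬝ᵥ y) ^ 2 - (v ⬝ᵥ y) ^ 2 = (sa * (e ⬝ᵥ y)) * (sb * (f ⬝ᵥ y)) := by
      have e1 : sa * (e ⬝ᵥ y) = u ⬝ᵥ y - v ⬝ᵥ y := by
        rw [he, smul_dotProduct, sub_dotProduct, smul_eq_mul]
        field_simp
      have e2 : sb * (f ⬝ᵥ y) = u ⬝ᵥ y + v ⬝ᵥ y := by
        rw [hf, smul_dotProduct, add_dotProduct, smul_eq_mul]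
        field_simp
      rw [e1, e2]; ring
    rw [huv]
    have h3 : ((sa * (e ⬝ᵥ y)) * (sb * (f ⬝ᵥ y))) ^ 2
        = (2 - 2 * ρ) * (2 + 2 * ρ) * ((e ⬝ᵥ y) ^ 2 * (f ⬝ᵥ y) ^ 2) := by
      rw [← hsa2, ← hsb2]; ring
    rw [h3]
    have h4 : (1 / 8 : ℝ) ^ 2 * (1 / 8) ^ 2 ≤ (e ⬝ᵥ y) ^ 2 * (f ⬝ᵥ y) ^ 2 :=
      mul_le_mul (pow_le_pow_left₀ (by norm_num) hey 2) (pow_le_pow_left₀ (by norm_num) hfy 2)
        (by positivity) (by positivity)
    have h5 : 0 ≤ (2 - 2 * ρ) * (2 + 2 * ρ) := by nlinarith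
    calc (1 - ρ ^ 2) / 1024 = (2 - 2 * ρ) * (2 + 2 * ρ) * ((1 / 8 : ℝ) ^ 2 * (1 / 8) ^ 2) := by
          ring
      _ ≤ _ := mul_le_mul_of_nonneg_left h4 h5

/-- the quantity measuring the distance to an orthogonal splitting -/
noncomputable def eta (α : ι → ℝ) (u : ι → Fin k → ℝ) : ℝ :=
  ∑ i, ∑ j, α i * α j * (u i ⬝ᵥ u j) ^ 2 * (1 - (u i ⬝ᵥ u j) ^ 2)

theorem eta_bound (hk : 1 ≤ k) : ∃ C : ℝ, 0 < C ∧ ∀ (ι : Type) [Fintype ι] (α : ι → ℝ)
    (u : ι → Fin k → ℝ), (∀ i, 0 ≤ α i) → (∀ i, u i ⬝ᵥ u i = 1) → frameM α u = 1 →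
    ∀ δ : ℝ, ENNReal.ofReal (2 ^ k * (1 - δ)) ≤ volume (slab (fun _ : ι => (1 : ℝ)) u) →
    δ ≤ 1 → eta α u ≤ C * δ := by
  have hk' : (1 : ℝ) ≤ k := by exact_mod_cast hk
  set τ : ℝ := Wq (1 / 2) with hτ
  have hτ0 : 0 < τ := Wq_pos _
  set ck : ℝ := (1 / 1024) * (1 / (4 * (k : ℝ))) ^ k with hck
  have hck0 : 0 < ck := by positivity
  refine ⟨2 ^ k * (16 * τ ^ 2) / ck, by positivity, ?_⟩
  intro ι _ α u hα hu hiso δ hvol hδ
  set B : Set (Fin k → ℝ) := {x | x ⬝ᵥ x ≤ 1 / 4} with hB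
  have hBcont : Continuous fun x : Fin k → ℝ => x ⬝ᵥ x := by
    simp only [dotProduct]; fun_prop
  have hBm : MeasurableSet B := (isClosed_le hBcont continuous_const).measurableSet
  have hBdot : ∀ x ∈ B, ∀ i, |u i ⬝ᵥ x| ≤ 1 / 2 := by
    intro x hx i
    have h1 := cauchy_dot (u i) x
    rw [hu i, one_mul] at h1
    have hx' : x ⬝ᵥ x ≤ 1 / 4 := hx
    exact abs_le_of_sq_le_sq (by nlinarith) (by norm_num)
  have hBs : B ⊆ slab (fun _ : ι => (1 : ℝ)) u := by
    intro x hx i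
    have := hBdot x hx i
    simp only
    linarith
  -- the defect function
  let q : (Fin k → ℝ) → ℝ := fun x => (1 / (16 * τ ^ 2)) *
    ∑ i, ∑ j, (α i * α j * (u i ⬝ᵥ u j) ^ 2) * ((u i ⬝ᵥ x) ^ 2 - (u j ⬝ᵥ x) ^ 2) ^ 2
  have hc0 : ∀ i j, 0 ≤ α i * α j * (u i ⬝ᵥ u j) ^ 2 := fun i j => by
    have := hα i; have := hα j; positivity
  have hq0 : ∀ x, 0 ≤ q x := fun x => mul_nonneg (by positivity)
    (Finset.sum_nonneg fun i _ => Finset.sum_nonneg fun j _ => mul_nonneg (hc0 i j) (by positivity))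
  have hdotc : ∀ i, Continuous fun x : Fin k → ℝ => u i ⬝ᵥ x := by
    intro i; simp only [dotProduct]; fun_prop
  have hqc : Continuous q := by
    apply Continuous.mul continuous_const
    apply continuous_finsetSum
    intro i _
    apply continuous_finsetSum
    intro j _
    exact continuous_const.mul ((((hdotc i).pow 2).sub ((hdotc j).pow 2)).pow 2)
  have hBL := slab_BL (w := fun _ : ι => (1 : ℝ)) hα (fun _ => one_pos) hu hiso
    (fun x => 1 + B.indicator q x) (by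
      intro x hx
      by_cases hxB : x ∈ B
      · rw [Set.indicator_of_mem hxB]
        have ht : ∀ i, 0 < tW (fun _ : ι => (1 : ℝ)) u x i := tW_pos u (fun _ => one_pos) x
        have htt : ∀ i, tW (fun _ : ι => (1 : ℝ)) u x i ≤ τ := by
          intro i
          simp only [tW, div_one]
          exact Wq_le (hBdot x hxB i)
        obtain ⟨h1, h2⟩ := logdet_ge α (tW (fun _ : ι => (1 : ℝ)) u x) u τ hα hu hiso ht htt
        have h3 : q x ≤ (1 / (4 * τ ^ 2)) * ∑ i, ∑ j, α i * α j * (u i ⬝ᵥ u j) ^ 2 *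
            (tW (fun _ : ι => (1 : ℝ)) u x i - tW (fun _ : ι => (1 : ℝ)) u x j) ^ 2 := by
          have h4 : q x = (1 / (4 * τ ^ 2)) * ∑ i, ∑ j, α i * α j * (u i ⬝ᵥ u j) ^ 2 *
              (((u i ⬝ᵥ x) ^ 2 - (u j ⬝ᵥ x) ^ 2) ^ 2 / 4) := by
            simp only [q]
            rw [Finset.mul_sum, Finset.mul_sum]
            refine Finset.sum_congr rfl fun i _ => ?_
            rw [Finset.mul_sum, Finset.mul_sum]
            refine Finset.sum_congr rfl fun j _ => ?_
            field_simp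
            ring
          rw [h4]
          apply mul_le_mul_of_nonneg_left _ (by positivity)
          refine Finset.sum_le_sum fun i _ => Finset.sum_le_sum fun j _ => ?_
          apply mul_le_mul_of_nonneg_left _ (hc0 i j)
          simp only [tW, div_one]
          have hi := hBdot x hxB i
          have hj := hBdot x hxB j
          exact Wq_diff_sq (abs_lt.1 (by linarith)) (abs_lt.1 (by linarith))
        have h5 : Real.exp (∑ i, α i * Real.log (tW (fun _ : ι => (1 : ℝ)) u x i)) * (1 + q x)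
            ≤ Real.exp (∑ i, α i * Real.log (tW (fun _ : ι => (1 : ℝ)) u x i)) *
              Real.exp (q x) :=
          mul_le_mul_of_nonneg_left (by rw [add_comm]; exact Real.add_one_le_exp _)
            (Real.exp_pos _).le
        refine h5.trans ?_
        rw [← Real.exp_add, ← Real.exp_log h1]
        exact Real.exp_le_exp.2 (by linarith)
      · rw [Set.indicator_of_notMem hxB, add_zero, mul_one]
        exact exp_le_det hα hu hiso (tW_pos u (fun _ => one_pos) x))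
  have hrhs : Real.exp (∑ i, α i * Real.log (2 * (1 : ℝ))) = 2 ^ k := by
    rw [← Finset.sum_mul, sum_alpha hu hiso, mul_one, ← Real.log_pow,
      Real.exp_log (by positivity)]
  rw [hrhs] at hBL
  -- lower bound of the left side
  have hlow : volume (slab (fun _ : ι => (1 : ℝ)) u) + ∫⁻ x in B, ENNReal.ofReal (q x)
      ≤ ∫⁻ x in slab (fun _ : ι => (1 : ℝ)) u, ENNReal.ofReal (1 + B.indicator q x) := by
    have h1 : ∀ x, ENNReal.ofReal (1 + B.indicator q x)
        = 1 + B.indicator (fun x => ENNReal.ofReal (q x)) x := by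
      intro x
      by_cases hx : x ∈ B
      · rw [Set.indicator_of_mem hx, Set.indicator_of_mem hx,
          ENNReal.ofReal_add zero_le_one (hq0 x), ENNReal.ofReal_one]
      · rw [Set.indicator_of_notMem hx, Set.indicator_of_notMem hx]; simp
    simp_rw [h1]
    rw [lintegral_add_left measurable_const, setLIntegral_one, lintegral_indicator hBm,
      Measure.restrict_restrict hBm, Set.inter_eq_left.2 hBs]
  -- lower bound of the defect integral
  have hdef : ENNReal.ofReal ((1 / (16 * τ ^ 2)) * (ck * eta α u))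
      ≤ ∫⁻ x in B, ENNReal.ofReal (q x) := by
    have h1 : ∀ x, ENNReal.ofReal (q x) = ∑ i, ∑ j,
        ENNReal.ofReal ((1 / (16 * τ ^ 2)) * (α i * α j * (u i ⬝ᵥ u j) ^ 2)) *
        ENNReal.ofReal (((u i ⬝ᵥ x) ^ 2 - (u j ⬝ᵥ x) ^ 2) ^ 2) := by
      intro x
      simp only [q]
      rw [Finset.mul_sum, ENNReal.ofReal_sum_of_nonneg (fun i _ => mul_nonneg (by positivity)
        (Finset.sum_nonneg fun j _ => mul_nonneg (hc0 i j) (by positivity)))]
      refine Finset.sum_congr rfl fun i _ => ?_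
      rw [Finset.mul_sum, ENNReal.ofReal_sum_of_nonneg (fun j _ => mul_nonneg (by positivity)
        (mul_nonneg (hc0 i j) (by positivity)))]
      refine Finset.sum_congr rfl fun j _ => ?_
      rw [← mul_assoc, ENNReal.ofReal_mul (mul_nonneg (by positivity) (hc0 i j))]
    simp_rw [h1]
    have hmeas : ∀ i j, Measurable fun x : Fin k → ℝ =>
        ENNReal.ofReal ((1 / (16 * τ ^ 2)) * (α i * α j * (u i ⬝ᵥ u j) ^ 2)) *
        ENNReal.ofReal (((u i ⬝ᵥ x) ^ 2 - (u j ⬝ᵥ x) ^ 2) ^ 2) := by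
      intro i j
      exact measurable_const.mul
        ((((hdotc i).pow 2).sub ((hdotc j).pow 2)).pow 2).measurable.ennreal_ofReal
    rw [lintegral_finsetSum _ (fun i _ => Finset.measurable_sum _ fun j _ => hmeas i j)]
    simp_rw [lintegral_finsetSum _ (fun j _ => hmeas _ j)]
    have h2 : ENNReal.ofReal ((1 / (16 * τ ^ 2)) * (ck * eta α u)) = ∑ i, ∑ j,
        ENNReal.ofReal ((1 / (16 * τ ^ 2)) * (α i * α j * (u i ⬝ᵥ u j) ^ 2)) *
        ENNReal.ofReal (ck * (1 - (u i ⬝ᵥ u j) ^ 2)) := by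
      have hρ : ∀ i j, 0 ≤ 1 - (u i ⬝ᵥ u j) ^ 2 := by
        intro i j
        have := cauchy_dot (u i) (u j)
        rw [hu, hu] at this
        linarith
      unfold eta
      rw [Finset.mul_sum, Finset.mul_sum, ENNReal.ofReal_sum_of_nonneg]
      · refine Finset.sum_congr rfl fun i _ => ?_
        rw [Finset.mul_sum, Finset.mul_sum, ENNReal.ofReal_sum_of_nonneg]
        · refine Finset.sum_congr rfl fun j _ => ?_
          rw [← ENNReal.ofReal_mul (mul_nonneg (by positivity) (hc0 i j))]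
          congr 1
          ring
        · intro j _
          exact mul_nonneg (by positivity) (mul_nonneg hck0.le (mul_nonneg (hc0 i j) (hρ i j)))
      · intro i _
        exact mul_nonneg (by positivity) (mul_nonneg hck0.le (Finset.sum_nonneg fun j _ =>
          mul_nonneg (hc0 i j) (hρ i j)))
    rw [h2]
    refine Finset.sum_le_sum fun i _ => Finset.sum_le_sum fun j _ => ?_
    rw [lintegral_const_mul' _ _ ENNReal.ofReal_ne_top]
    refine mul_le_mul_right ?_ _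
    obtain ⟨x0, hx0⟩ := pair_cube hk (hu i) (hu j)
    have hsub : Metric.closedBall x0 (1 / (8 * (k : ℝ))) ⊆ B := fun y hy => (hx0 y hy).1
    calc ENNReal.ofReal (ck * (1 - (u i ⬝ᵥ u j) ^ 2))
        = ENNReal.ofReal ((1 - (u i ⬝ᵥ u j) ^ 2) / 1024) *
          volume (Metric.closedBall x0 (1 / (8 * (k : ℝ)))) := by
          rw [Real.volume_pi_closedBall _ (by positivity), Fintype.card_fin,
            ← ENNReal.ofReal_mul' (by positivity)]
          congr 1
          rw [hck]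
          have : 2 * (1 / (8 * (k : ℝ))) = 1 / (4 * k) := by ring
          rw [this]
          ring
      _ = ∫⁻ _ in Metric.closedBall x0 (1 / (8 * (k : ℝ))),
            ENNReal.ofReal ((1 - (u i ⬝ᵥ u j) ^ 2) / 1024) := by
          rw [setLIntegral_const]
      _ ≤ ∫⁻ x in Metric.closedBall x0 (1 / (8 * (k : ℝ))),
            ENNReal.ofReal (((u i ⬝ᵥ x) ^ 2 - (u j ⬝ᵥ x) ^ 2) ^ 2) := by
          apply setLIntegral_mono' Metric.isClosed_closedBall.measurableSet
          intro y hy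
          exact ENNReal.ofReal_le_ofReal (hx0 y hy).2
      _ ≤ _ := lintegral_mono_set hsub
  have hfinal : ENNReal.ofReal (2 ^ k * (1 - δ) + (1 / (16 * τ ^ 2)) * (ck * eta α u))
      ≤ ENNReal.ofReal (2 ^ k) := by
    have heta0 : 0 ≤ eta α u := by
      unfold eta
      refine Finset.sum_nonneg fun i _ => Finset.sum_nonneg fun j _ => ?_
      have := cauchy_dot (u i) (u j)
      rw [hu, hu] at this
      exact mul_nonneg (hc0 i j) (by linarith)
    rw [ENNReal.ofReal_add (mul_nonneg (by positivity) (by linarith))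
      (mul_nonneg (by positivity) (mul_nonneg hck0.le heta0))]
    calc _ ≤ volume (slab (fun _ : ι => (1 : ℝ)) u) + ∫⁻ x in B, ENNReal.ofReal (q x) :=
          add_le_add hvol hdef
      _ ≤ _ := hlow.trans hBL
  have hreal := (ENNReal.ofReal_le_ofReal_iff (by positivity)).1 hfinal
  have h1 : (1 / (16 * τ ^ 2)) * (ck * eta α u) ≤ 2 ^ k * δ := by linarith
  rw [div_mul_eq_mul_div, le_div_iff₀ hck0]
  have h2 : (16 * τ ^ 2) * ((1 / (16 * τ ^ 2)) * (ck * eta α u)) ≤ (16 * τ ^ 2) * (2 ^ k * δ) :=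
    mul_le_mul_of_nonneg_left h1 (by positivity)
  have h3 : (16 * τ ^ 2) * ((1 / (16 * τ ^ 2)) * (ck * eta α u)) = ck * eta α u := by
    field_simp
  rw [h3] at h2
  linarith

end Pool.Agent.Work.MP_6cd513_gt
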