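import Pool.Agent.Work.MP_6cd513_gt.Merge

/-!
# Consequences of the merging inequality
-/

open Matrix Finset MeasureTheory

namespace Pool.Agent.Work.MP_6cd513_gt

/-- a polynomial form of the negation of the merging inequality -/
theorem merge_real {E S W Θ : ℝ} (hE0 : 0 ≤ E) (hE1 : E < 1) (hS0 : 0 < S)
    (hW0 : 0 ≤ W) (hΘ0 : 0 < Θ) (hΘ1 : Θ < 1)
    (h : 1 ≤ 1 / Real.sqrt ((1 - E) * (1 + S * (Θ / (1 - Θ)))) + W) :
    S * Θ ≤ (E + 2 * W) * (1 - (1 - S) * Θ) := by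
  by_contra hcon
  push Not at hcon
  have h1 : 0 < 1 - Θ := by linarith
  have hSΘ : 0 < S * Θ := mul_pos hS0 hΘ0
  have hDe : 1 - (1 - S) * Θ = (1 - Θ) + S * Θ := by ring
  have hD : 0 < 1 - (1 - S) * Θ := by rw [hDe]; linarith
  have hb : 1 + S * (Θ / (1 - Θ)) = (1 - (1 - S) * Θ) / (1 - Θ) := by
    field_simp
    ring
  have hR : 0 < (1 - E) * (1 + S * (Θ / (1 - Θ))) := by
    rw [hb]
    exact mul_pos (by linarith) (div_pos hD h1)
  have hW1 : W < 1 / 2 := by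
    by_contra hc
    push Not at hc
    have h6 : 1 * (1 - (1 - S) * Θ) ≤ (E + 2 * W) * (1 - (1 - S) * Θ) :=
      mul_le_mul_of_nonneg_right (by linarith) hD.le
    linarith
  -- the square root is large
  have hkey : 1 < (1 - W) ^ 2 * ((1 - E) * (1 + S * (Θ / (1 - Θ)))) := by
    rw [hb, ← mul_assoc, mul_div_assoc', lt_div_iff₀ h1, one_mul]
    have h2 : 1 - E - 2 * W ≤ (1 - W) ^ 2 * (1 - E) := by
      have e1 : (1 - W) ^ 2 * (1 - E) - (1 - E - 2 * W) = 2 * (W * E) + W ^ 2 * (1 - E) := by ring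
      have e2 := mul_nonneg hW0 hE0
      have e3 : 0 ≤ W ^ 2 * (1 - E) := mul_nonneg (sq_nonneg W) (by linarith)
      linarith
    have h3 : (1 - E - 2 * W) * (1 - (1 - S) * Θ) ≤ (1 - W) ^ 2 * (1 - E) * (1 - (1 - S) * Θ) :=
      mul_le_mul_of_nonneg_right h2 hD.le
    have h4 : (1 - E - 2 * W) * (1 - (1 - S) * Θ)
        = (1 - (1 - S) * Θ) - (E + 2 * W) * (1 - (1 - S) * Θ) := by ring
    linarith
  have h4 : 1 - W ≤ 1 / Real.sqrt ((1 - E) * (1 + S * (Θ / (1 - Θ)))) := by linarith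
  have h5 : (1 - W) ^ 2 ≤ 1 / ((1 - E) * (1 + S * (Θ / (1 - Θ)))) := by
    have h6 := pow_le_pow_left₀ (by linarith : (0 : ℝ) ≤ 1 - W) h4 2
    rwa [div_pow, one_pow, Real.sq_sqrt hR.le] at h6
  rw [le_div_iff₀ hR] at h5
  linarith

/-- the merging inequality in rational form: `t = tan (θ/2)` -/
theorem merge_rat {q t c Bc A B K Bb : ℝ} (hq : 0 < q) (hq1 : q ≤ 1 / 2) (ht : 0 < t) (ht1 : t ≤ 1)
    (hA : 0 < A) (hB : 0 < B) (hA1 : A ≤ 1 / 2) (hB1 : B ≤ 1 / 2) (hAB : A * B = q ^ 2)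
    (hdiff : |A - B| ≤ q ^ 2 * (4 * t ^ 2 / (1 + t ^ 2) ^ 2))
    (hK : K = q * ((1 - t ^ 2) / (1 + t ^ 2))) (hBb : Bb ≤ Bc) (hBb0 : 0 ≤ Bb)
    (hc : 0 < c) (hct : c * t < 1 / 2)
    (h : 1 ≤ 1 / Real.sqrt ((1 - (A + B - 2 * K) / 2) *
        (1 + (A + B + 2 * K) / 2 * ((1 / (1 - 2 * (c * t))) ^ 2 - 1)))
      + 4 * (c * t) ^ 2 * Bb / Real.sqrt (A * B - K ^ 2)) :
    4 * c * (1 - c * t) * (q / (1 + t ^ 2)) ≤
      (q * t / (1 + t ^ 2) + q ^ 3 * t ^ 3 / (1 + t ^ 2) ^ 4 + 2 * c ^ 2 * Bc * (1 + t ^ 2) / q) *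
        (1 - (1 - 2 * q / (1 + t ^ 2)) * (4 * (c * t) * (1 - c * t))) := by
  set T := 1 + t ^ 2 with hT
  have hT0 : 0 < T := by positivity
  have hT1 : 1 ≤ T := by have := sq_nonneg t; rw [hT]; linarith
  have hτ0 : 0 < c * t := mul_pos hc ht
  set Θ := 4 * (c * t) * (1 - c * t) with hΘ
  have hΘ0 : 0 < Θ := by
    have : 0 < 1 - c * t := by linarith
    positivity
  have h12 : 0 < 1 - 2 * (c * t) := by linarith
  have hΘ1 : 1 - Θ = (1 - 2 * (c * t)) ^ 2 := by rw [hΘ]; ring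
  have hΘ1' : Θ < 1 := by have := pow_pos h12 2; linarith
  have hσ : (1 / (1 - 2 * (c * t))) ^ 2 - 1 = Θ / (1 - Θ) := by
    rw [hΘ1, div_pow, one_pow, eq_div_iff (pow_pos h12 2).ne', sub_mul,
      div_mul_cancel₀ _ (pow_pos h12 2).ne', ← hΘ1]
    ring
  have hK0 : 0 ≤ K := by
    rw [hK]
    apply mul_nonneg hq.le
    apply div_nonneg _ hT0.le
    have := pow_le_one₀ ht.le ht1 (n := 2)
    linarith
  have hKq : K ≤ q := by
    rw [hK]
    have h0 : (1 - t ^ 2) / T ≤ 1 := by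
      rw [div_le_one hT0, hT]; have := sq_nonneg t; linarith
    calc q * ((1 - t ^ 2) / T) ≤ q * 1 := mul_le_mul_of_nonneg_left h0 hq.le
      _ = q := mul_one q
  -- the root
  have hroot : Real.sqrt (A * B - K ^ 2) = q * (2 * t / T) := by
    have e : A * B - K ^ 2 = (q * (2 * t / T)) ^ 2 := by
      rw [hAB, hK, hT]
      field_simp
      ring
    rw [e, Real.sqrt_sq (by positivity)]
  set y := 4 * t ^ 2 / T ^ 2 with hy
  have hy0 : 0 ≤ y := by positivity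
  -- bound of the sum
  have hsum1 : A + B ≤ 2 * q + q ^ 3 * y ^ 2 / 4 := by
    have h1 : (A + B) ^ 2 ≤ (2 * q + q ^ 3 * y ^ 2 / 4) ^ 2 := by
      have h2 : (A - B) ^ 2 ≤ (q ^ 2 * y) ^ 2 := by
        rw [← sq_abs (A - B)]
        exact pow_le_pow_left₀ (abs_nonneg _) hdiff 2
      have h3 : 0 ≤ (q ^ 3 * y ^ 2 / 4) ^ 2 := sq_nonneg _
      have e1 : (A + B) ^ 2 = (A - B) ^ 2 + 4 * (A * B) := by ring
      have e2 : (2 * q + q ^ 3 * y ^ 2 / 4) ^ 2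
          = 4 * q ^ 2 + (q ^ 2 * y) ^ 2 + (q ^ 3 * y ^ 2 / 4) ^ 2 := by ring
      rw [e1, e2, hAB]
      linarith
    exact abs_le_of_sq_le_sq' h1 (by positivity) |>.2
  have hsum2 : 2 * q ≤ A + B := by
    have h1 : (2 * q) ^ 2 ≤ (A + B) ^ 2 := by
      have e1 : (A + B) ^ 2 = (A - B) ^ 2 + 4 * (A * B) := by ring
      rw [e1, hAB]
      have := sq_nonneg (A - B)
      linarith
    exact abs_le_of_sq_le_sq' h1 (by linarith) |>.2
  set E := (A + B - 2 * K) / 2 with hE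
  set S := (A + B + 2 * K) / 2 with hS
  have hE0 : 0 ≤ E := by rw [hE]; linarith
  have hE1 : E < 1 := by rw [hE]; linarith
  have hS0 : 0 < S := by rw [hS]; linarith
  set W := 4 * (c * t) ^ 2 * Bb / Real.sqrt (A * B - K ^ 2) with hW
  have hW0 : 0 ≤ W := by rw [hW]; positivity
  rw [hσ] at h
  have h1 := merge_real hE0 hE1 hS0 hW0 hΘ0 hΘ1' h
  -- upper bounds
  have hE2 : E ≤ 2 * (t * (q * t / T + q ^ 3 * t ^ 3 / T ^ 4)) := by
    have e : 2 * (t * (q * t / T + q ^ 3 * t ^ 3 / T ^ 4))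
        = (2 * q + q ^ 3 * y ^ 2 / 4 - 2 * K) / 2 := by
      rw [hK, hy, hT]
      field_simp
      ring
    rw [e, hE]
    linarith
  have hW2 : W ≤ t * (2 * c ^ 2 * Bc * T / q) := by
    have e : t * (2 * c ^ 2 * Bc * T / q) = 4 * (c * t) ^ 2 * Bc / (q * (2 * t / T)) := by
      field_simp
      ring
    rw [e, hW, hroot]
    gcongr
  have hS2 : 2 * q / T ≤ S := by
    have e : 2 * q / T = q + K := by
      rw [hK, hT]; field_simp; ring
    rw [e, hS]; linarith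
  have hD : 0 ≤ 1 - (1 - S) * Θ := by
    have e : 1 - (1 - S) * Θ = (1 - Θ) + S * Θ := by ring
    have := mul_pos hS0 hΘ0
    rw [e]
    linarith
  set X := q * t / T + q ^ 3 * t ^ 3 / T ^ 4 + 2 * c ^ 2 * Bc * T / q with hX
  have h2 : E + 2 * W ≤ 2 * (t * X) := by
    rw [hX]
    have : 2 * (t * (q * t / T + q ^ 3 * t ^ 3 / T ^ 4 + 2 * c ^ 2 * Bc * T / q))
      = 2 * (t * (q * t / T + q ^ 3 * t ^ 3 / T ^ 4)) + 2 * (t * (2 * c ^ 2 * Bc * T / q)) := by ring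
    rw [this]
    linarith
  have h3 : S * Θ ≤ 2 * (t * X) * (1 - (1 - S) * Θ) :=
    h1.trans (mul_le_mul_of_nonneg_right h2 hD)
  by_contra hcon
  push Not at hcon
  -- monotone in `S`
  have hS3 : 2 * q / T ≤ 1 := by rw [div_le_one hT0]; linarith
  have hX0 : 0 ≤ X := by
    have : 0 ≤ Bc := hBb0.trans hBb
    rw [hX]; positivity
  have h4 : 2 * (t * X) * (1 - (1 - 2 * q / T) * Θ) < 2 * q / T * Θ := by
    have h5 := mul_lt_mul_of_pos_left hcon (by positivity : 0 < 2 * t)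
    have e : 2 * t * (4 * c * (1 - c * t) * (q / T)) = 2 * q / T * Θ := by rw [hΘ]; ring
    rw [e] at h5
    linarith
  -- `2 t X < 1`
  have h5 : 2 * (t * X) < 1 := by
    by_contra hc2
    push Not at hc2
    have e : 1 - (1 - 2 * q / T) * Θ = (1 - Θ) + 2 * q / T * Θ := by ring
    have e2 : 0 < 2 * q / T * Θ := by positivity
    have hD2 : 0 ≤ 1 - (1 - 2 * q / T) * Θ := by rw [e]; linarith
    have : 1 * (1 - (1 - 2 * q / T) * Θ) ≤ 2 * (t * X) * (1 - (1 - 2 * q / T) * Θ) :=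
      mul_le_mul_of_nonneg_right hc2 hD2
    linarith
  have e : S * Θ - 2 * (t * X) * (1 - (1 - S) * Θ) = (2 * q / T * Θ
      - 2 * (t * X) * (1 - (1 - 2 * q / T) * Θ)) + (S - 2 * q / T) * (Θ * (1 - 2 * (t * X))) := by
    ring
  have h6 : 0 ≤ (S - 2 * q / T) * (Θ * (1 - 2 * (t * X))) :=
    mul_nonneg (sub_nonneg.2 hS2) (mul_nonneg hΘ0.le (by linarith))
  linarith

namespace MaxData

variable {k l n : ℕ} {v : Fin n → Fin k → ℝ} {s : Fin n → ℝ}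

/-- every pair of non-parallel vectors satisfies the rational inequality -/
theorem excl_pair (M : MaxData k l n v s) (hl2 : 2 ≤ l) (hW : Wb k l n < Gs v s)
    (hP : ∀ k' < k, ∀ (N : ℕ) (v' : Fin N → Fin k' → ℝ) (s' : Fin N → ℝ), Gs v' s' ≤ Wb k' l N)
    {i j : Fin n} (hx : xx v i j ≠ 1) {Bc : ℝ}
    (hBc : Bq l (((grp v i).card : ℝ) + (grp v j).card) ≤ Bc) :
    ∃ t : ℝ, 0 < t ∧ t ≤ 1 ∧ 1 - xx v i j = 4 * t ^ 2 / (1 + t ^ 2) ^ 2 ∧
      ∀ c : ℝ, 0 < c → c * t < 1 / 2 → ∀ q : ℝ, 0 < q → q ^ 2 = (v i ⬝ᵥ v i) * (v j ⬝ᵥ v j) →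
        4 * c * (1 - c * t) * (q / (1 + t ^ 2)) ≤
          (q * t / (1 + t ^ 2) + q ^ 3 * t ^ 3 / (1 + t ^ 2) ^ 4
            + 2 * c ^ 2 * Bc * (1 + t ^ 2) / q) *
          (1 - (1 - 2 * q / (1 + t ^ 2)) * (4 * (c * t) * (1 - c * t))) := by
  have hi := M.lev_pos i
  have hj := M.lev_pos j
  have hl : (2 : ℝ) ≤ l := by exact_mod_cast hl2
  have hA1 : v i ⬝ᵥ v i ≤ 1 / 2 :=
    (M.lev_le i).trans (one_div_le_one_div_of_le (by norm_num) hl)
  have hB1 : v j ⬝ᵥ v j ≤ 1 / 2 :=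
    (M.lev_le j).trans (one_div_le_one_div_of_le (by norm_num) hl)
  set A := v i ⬝ᵥ v i with hA
  set B := v j ⬝ᵥ v j with hB
  set K := |v i ⬝ᵥ v j| with hK
  have hK0 : 0 ≤ K := abs_nonneg _
  have hK2 : K ^ 2 = (v i ⬝ᵥ v j) ^ 2 := sq_abs _
  have hx1 : xx v i j < 1 := lt_of_le_of_ne (M.xx_le_one i j) hx
  have hAB0 : 0 < A * B := mul_pos hi hj
  set q := Real.sqrt (A * B) with hq
  have hq0 : 0 < q := Real.sqrt_pos.2 hAB0
  have hq2 : q ^ 2 = A * B := Real.sq_sqrt hAB0.le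
  have hxm : xx v i j * (A * B) = K ^ 2 := by rw [hK2]; exact M.xx_mul i j
  have hKq : K < q := by
    apply lt_of_pow_lt_pow_left₀ 2 hq0.le
    rw [hq2, ← hxm]
    nlinarith
  -- half angle
  set cs := K / q with hcs
  have hcs0 : 0 ≤ cs := div_nonneg hK0 hq0.le
  have hcs1 : cs < 1 := (div_lt_one hq0).2 hKq
  have hcs2 : cs ^ 2 = xx v i j := by
    rw [hcs, div_pow, hq2, ← hxm, mul_div_assoc, div_self hAB0.ne', mul_one]
  set t := Real.sqrt ((1 - cs) / (1 + cs)) with ht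
  have hr0 : 0 < (1 - cs) / (1 + cs) := div_pos (by linarith) (by linarith)
  have ht0 : 0 < t := Real.sqrt_pos.2 hr0
  have ht2 : t ^ 2 = (1 - cs) / (1 + cs) := Real.sq_sqrt hr0.le
  have ht1 : t ≤ 1 := by
    rw [ht, Real.sqrt_le_one]
    rw [div_le_one (by linarith)]
    linarith
  have h1cs : (0 : ℝ) < 1 + cs := by linarith
  have hy : 1 - xx v i j = 4 * t ^ 2 / (1 + t ^ 2) ^ 2 := by
    rw [ht2, ← hcs2]
    field_simp
    ring
  refine ⟨t, ht0, ht1, hy, fun c hc hct q' hq'0 hq'2 => ?_⟩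
  have hqq : q' = q := by
    have : q' ^ 2 = q ^ 2 := by rw [hq'2, hq2]
    nlinarith
  rw [hqq]
  have hq1 : q ≤ 1 / 2 := by
    apply le_of_sq_le_sq _ (by norm_num)
    rw [hq2]
    nlinarith
  have hmerge := M.merge hl2 hW hP hx (τ := c * t) (mul_pos hc ht0) hct
  rw [← hK2] at hmerge
  refine merge_rat hq0 hq1 ht0 ht1 hi hj hA1 hB1 hq2.symm ?_ ?_ hBc (Real.exp_pos _).le hc hct hmerge
  · have h2 := M.abs_inv_sub_le i j
    rw [hy] at h2
    have h3 : 1 / A - 1 / B = -(A - B) / (A * B) := by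
      field_simp
      ring
    rw [← hA, ← hB, h3, abs_div, abs_neg, abs_of_pos hAB0, div_le_iff₀ hAB0] at h2
    rw [hq2]
    linarith
  · have h2 : (1 - t ^ 2) / (1 + t ^ 2) = cs := by
      rw [ht2]
      field_simp
      ring
    rw [h2, hcs]
    field_simp
    rfl

end MaxData

end Pool.Agent.Work.MP_6cd513_gt
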