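import Pool.Agent.Work.MP_6cd513_gt.Excl

/-!
# Explicit separation of non-parallel vectors of a maximiser, `2 ≤ l ≤ 5`
-/

open Matrix Finset MeasureTheory

namespace Pool.Agent.Work.MP_6cd513_gt

/-- the numerator -/
theorem P_pos {c B q0 t1 : ℝ} (hc : 0 < c) (hB : 0 < B) (hq0 : 0 < q0) (hq01 : q0 ≤ 1 / 2)
    (hct : c * t1 ≤ 1 / 2)
    (hn1 : 0 < 4 * c * (1 - c * t1) * q0 ^ 2 - (q0 ^ 2 * t1 + q0 ^ 4 * t1 ^ 3
      + 2 * c ^ 2 * B * (1 + t1 ^ 2) ^ 2) * (1 - (1 - 2 * q0) * (4 * c * t1 * (1 - c * t1))))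
    (hn2 : 8 * c * t1 * (q0 ^ 2 * t1 + q0 ^ 4 * t1 ^ 3 + 2 * c ^ 2 * B * (1 + t1 ^ 2) ^ 2)
      ≤ 2 * q0 * (4 * c * (1 - c * t1) - t1 * (1 + t1 ^ 2 / 2)))
    (hn3 : (1 - 2 * q0) * (4 * c) * (q0 ^ 2 * t1 + q0 ^ 4 * t1 ^ 3
      + 2 * c ^ 2 * B * (1 + t1 ^ 2) ^ 2)
      ≤ q0 ^ 2 * (1 - (1 - 2 * q0) * (4 * c * t1 * (1 - c * t1))))
    {q t : ℝ} (hq : q0 ≤ q) (hq1 : q ≤ 1 / 2) (ht : 0 ≤ t) (ht1 : t ≤ t1) :
    0 < 4 * c * (1 - c * t) * q ^ 2 - (q ^ 2 * t + q ^ 4 * t ^ 3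
      + 2 * c ^ 2 * B * (1 + t ^ 2) ^ 2) * (1 - (1 - 2 * q) * (4 * c * t * (1 - c * t))) := by
  have ht10 : 0 ≤ t1 := ht.trans ht1
  have hct' : c * t ≤ c * t1 := mul_le_mul_of_nonneg_left ht1 hc.le
  have hct0 : 0 ≤ c * t := mul_nonneg hc.le ht
  set N : ℝ := q0 ^ 2 * t + q0 ^ 4 * t ^ 3 + 2 * c ^ 2 * B * (1 + t ^ 2) ^ 2 with hN
  set N1 : ℝ := q0 ^ 2 * t1 + q0 ^ 4 * t1 ^ 3 + 2 * c ^ 2 * B * (1 + t1 ^ 2) ^ 2 with hN1
  have hN0 : 0 ≤ N := by positivity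
  have hNN : N + q0 ^ 2 * (t1 - t) ≤ N1 := by
    have h1 : t ^ 3 ≤ t1 ^ 3 := pow_le_pow_left₀ ht ht1 3
    have h2 : t ^ 2 ≤ t1 ^ 2 := pow_le_pow_left₀ ht ht1 2
    have h3 : (1 + t ^ 2) ^ 2 ≤ (1 + t1 ^ 2) ^ 2 := pow_le_pow_left₀ (by positivity) (by linarith) 2
    have h4 : q0 ^ 4 * t ^ 3 ≤ q0 ^ 4 * t1 ^ 3 := mul_le_mul_of_nonneg_left h1 (by positivity)
    have h5 : 2 * c ^ 2 * B * (1 + t ^ 2) ^ 2 ≤ 2 * c ^ 2 * B * (1 + t1 ^ 2) ^ 2 :=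
      mul_le_mul_of_nonneg_left h3 (by positivity)
    rw [hN, hN1]
    linarith
  have hN1' : N ≤ N1 := by
    have := mul_nonneg (sq_nonneg q0) (sub_nonneg.2 ht1)
    linarith
  -- first step: from `q` to `q0`
  set a : ℝ := 4 * c * t * (1 - c * t) with ha
  have ha0 : 0 ≤ a := by
    have : 0 ≤ 1 - c * t := by linarith
    rw [ha]; positivity
  have ha1 : a ≤ 4 * (c * t1) := by
    have h1 : a = 4 * (c * t) * (1 - c * t) := by rw [ha]; ring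
    rw [h1]
    have h2 : 4 * (c * t) * (1 - c * t) ≤ 4 * (c * t) * 1 :=
      mul_le_mul_of_nonneg_left (by linarith) (by linarith)
    linarith
  have hD1 : 1 - (1 - 2 * q) * a ≤ 1 := by
    have := mul_nonneg (by linarith : (0 : ℝ) ≤ 1 - 2 * q) ha0
    linarith
  have hD0 : 0 ≤ 1 - (1 - 2 * q) * a := by
    have h1 : (1 - 2 * q) * a ≤ 1 * a := mul_le_mul_of_nonneg_right (by linarith) ha0
    have h2 : a ≤ 1 := by
      have e : 1 - a = (1 - 2 * (c * t)) ^ 2 := by rw [ha]; ring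
      have := sq_nonneg (1 - 2 * (c * t))
      linarith
    linarith
  have hstep : (4 * c * (1 - c * t) * q ^ 2 - (q ^ 2 * t + q ^ 4 * t ^ 3
      + 2 * c ^ 2 * B * (1 + t ^ 2) ^ 2) * (1 - (1 - 2 * q) * a))
      - (4 * c * (1 - c * t) * q0 ^ 2 - N * (1 - (1 - 2 * q0) * a))
      = (q - q0) * ((q + q0) * (4 * c * (1 - c * t)
        - t * (1 + (q ^ 2 + q0 ^ 2) * t ^ 2) * (1 - (1 - 2 * q) * a)) - 2 * a * N) := by
    rw [hN]; ring
  have hbr : 4 * c * (1 - c * t1) - t1 * (1 + t1 ^ 2 / 2) ≤ 4 * c * (1 - c * t)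
        - t * (1 + (q ^ 2 + q0 ^ 2) * t ^ 2) * (1 - (1 - 2 * q) * a) := by
    have h1 : t * (1 + (q ^ 2 + q0 ^ 2) * t ^ 2) * (1 - (1 - 2 * q) * a)
        ≤ t * (1 + (q ^ 2 + q0 ^ 2) * t ^ 2) * 1 :=
      mul_le_mul_of_nonneg_left hD1 (by positivity)
    have h2 : (q ^ 2 + q0 ^ 2) * t ^ 2 ≤ t1 ^ 2 / 2 := by
      have h3 : q ^ 2 ≤ 1 / 4 := by
        have := pow_le_pow_left₀ (hq0.le.trans hq) hq1 2
        norm_num at this ⊢; linarith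
      have h4 : q0 ^ 2 ≤ 1 / 4 := by
        have := pow_le_pow_left₀ hq0.le hq01 2
        norm_num at this ⊢; linarith
      have h5 : t ^ 2 ≤ t1 ^ 2 := pow_le_pow_left₀ ht ht1 2
      calc (q ^ 2 + q0 ^ 2) * t ^ 2 ≤ (1 / 2) * t ^ 2 :=
            mul_le_mul_of_nonneg_right (by linarith) (sq_nonneg t)
        _ ≤ t1 ^ 2 / 2 := by linarith
    have h3 : t * (1 + (q ^ 2 + q0 ^ 2) * t ^ 2) ≤ t1 * (1 + t1 ^ 2 / 2) :=
      mul_le_mul ht1 (by linarith) (by positivity) ht10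
    have h4 : 4 * c * (1 - c * t1) ≤ 4 * c * (1 - c * t) :=
      mul_le_mul_of_nonneg_left (by linarith) (by linarith)
    linarith
  have hbr0 : 0 ≤ 4 * c * (1 - c * t1) - t1 * (1 + t1 ^ 2 / 2) := by
    have h1 : 0 ≤ 8 * c * t1 * N1 := by
      have : 0 ≤ N1 := hN0.trans hN1'
      positivity
    by_contra hcon
    push Not at hcon
    have := mul_neg_of_pos_of_neg (by linarith : 0 < 2 * q0) hcon
    linarith
  have hnn : 0 ≤ (q - q0) * ((q + q0) * (4 * c * (1 - c * t)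
        - t * (1 + (q ^ 2 + q0 ^ 2) * t ^ 2) * (1 - (1 - 2 * q) * a)) - 2 * a * N) := by
    apply mul_nonneg (sub_nonneg.2 hq)
    have h1 : 2 * q0 * (4 * c * (1 - c * t1) - t1 * (1 + t1 ^ 2 / 2)) ≤ (q + q0) *
        (4 * c * (1 - c * t) - t * (1 + (q ^ 2 + q0 ^ 2) * t ^ 2) * (1 - (1 - 2 * q) * a)) :=
      mul_le_mul (by linarith) hbr hbr0 (by linarith)
    have h2 : 2 * a * N ≤ 8 * c * t1 * N1 := by
      have : 2 * a ≤ 8 * c * t1 := by linarith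
      exact mul_le_mul this hN1' hN0 (by positivity)
    linarith
  -- second step: from `t` to `t1`
  set a1 : ℝ := 4 * c * t1 * (1 - c * t1) with ha1'
  have hβ0 : 0 ≤ (1 - 2 * q0) * (4 * c) := mul_nonneg (by linarith) (by linarith)
  have hDD : (1 - (1 - 2 * q0) * a) - (1 - (1 - 2 * q0) * a1)
      ≤ (1 - 2 * q0) * (4 * c) * (t1 - t) := by
    have e : (1 - (1 - 2 * q0) * a) - (1 - (1 - 2 * q0) * a1)
        = (1 - 2 * q0) * (4 * c) * (t1 - t) - (1 - 2 * q0) * (4 * c) * (c * (t1 ^ 2 - t ^ 2)) := by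
      rw [ha, ha1']; ring
    rw [e]
    have h2 : t ^ 2 ≤ t1 ^ 2 := pow_le_pow_left₀ ht ht1 2
    have := mul_nonneg hβ0 (mul_nonneg hc.le (sub_nonneg.2 h2))
    linarith
  have hD1' : 0 ≤ 1 - (1 - 2 * q0) * a1 := by
    have h2 : a1 ≤ 1 := by
      have e : 1 - a1 = (1 - 2 * (c * t1)) ^ 2 := by rw [ha1']; ring
      have := sq_nonneg (1 - 2 * (c * t1))
      linarith
    have h0 : 0 ≤ a1 := by
      have : 0 ≤ 1 - c * t1 := by linarith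
      rw [ha1']; positivity
    have h1 : (1 - 2 * q0) * a1 ≤ 1 * a1 := mul_le_mul_of_nonneg_right (by linarith) h0
    linarith
  have hfin : 4 * c * (1 - c * t1) * q0 ^ 2 - N1 * (1 - (1 - 2 * q0) * a1)
      ≤ 4 * c * (1 - c * t) * q0 ^ 2 - N * (1 - (1 - 2 * q0) * a) := by
    have e : (4 * c * (1 - c * t) * q0 ^ 2 - N * (1 - (1 - 2 * q0) * a))
        - (4 * c * (1 - c * t1) * q0 ^ 2 - N1 * (1 - (1 - 2 * q0) * a1))
        = 4 * c * q0 ^ 2 * (c * t1 - c * t) + (N1 - N) * (1 - (1 - 2 * q0) * a1)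
          - N * ((1 - (1 - 2 * q0) * a) - (1 - (1 - 2 * q0) * a1)) := by ring
    have h1 : 0 ≤ 4 * c * q0 ^ 2 * (c * t1 - c * t) := mul_nonneg (by positivity) (by linarith)
    have h2 : q0 ^ 2 * (t1 - t) * (1 - (1 - 2 * q0) * a1) ≤ (N1 - N) * (1 - (1 - 2 * q0) * a1) :=
      mul_le_mul_of_nonneg_right (by linarith) hD1'
    have h3 : N * ((1 - (1 - 2 * q0) * a) - (1 - (1 - 2 * q0) * a1))
        ≤ N * ((1 - 2 * q0) * (4 * c) * (t1 - t)) := mul_le_mul_of_nonneg_left hDD hN0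
    have h4 : N * ((1 - 2 * q0) * (4 * c) * (t1 - t))
        ≤ N1 * ((1 - 2 * q0) * (4 * c) * (t1 - t)) :=
      mul_le_mul_of_nonneg_right hN1' (mul_nonneg hβ0 (sub_nonneg.2 ht1))
    have h5 := mul_le_mul_of_nonneg_right hn3 (sub_nonneg.2 ht1)
    have e5 : (1 - 2 * q0) * (4 * c) * N1 * (t1 - t) = N1 * ((1 - 2 * q0) * (4 * c) * (t1 - t)) := by
      ring
    have e6 : q0 ^ 2 * (1 - (1 - 2 * q0) * a1) * (t1 - t)
        = q0 ^ 2 * (t1 - t) * (1 - (1 - 2 * q0) * a1) := by ring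
    rw [e5, e6] at h5
    linarith
  linarith

/-- the half-angle is at least `t1`; `q0` is a lower bound of the geometric mean of the levels -/
theorem excl_bound_gm {l : ℕ} {c B q0 t1 Y : ℝ} (hc : 0 < c) (hB : 0 < B) (hq0 : 0 < q0)
    (hq01 : q0 ≤ 1 / 2) (ht10 : 0 < t1) (ht11 : t1 ≤ 1) (hct : c * t1 < 1 / 2)
    (hn1 : 0 < 4 * c * (1 - c * t1) * q0 ^ 2 - (q0 ^ 2 * t1 + q0 ^ 4 * t1 ^ 3
      + 2 * c ^ 2 * B * (1 + t1 ^ 2) ^ 2) * (1 - (1 - 2 * q0) * (4 * c * t1 * (1 - c * t1))))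
    (hn2 : 8 * c * t1 * (q0 ^ 2 * t1 + q0 ^ 4 * t1 ^ 3 + 2 * c ^ 2 * B * (1 + t1 ^ 2) ^ 2)
      ≤ 2 * q0 * (4 * c * (1 - c * t1) - t1 * (1 + t1 ^ 2 / 2)))
    (hn3 : (1 - 2 * q0) * (4 * c) * (q0 ^ 2 * t1 + q0 ^ 4 * t1 ^ 3
      + 2 * c ^ 2 * B * (1 + t1 ^ 2) ^ 2)
      ≤ q0 ^ 2 * (1 - (1 - 2 * q0) * (4 * c * t1 * (1 - c * t1))))
    (hY : Y * (1 + t1 ^ 2) ^ 2 ≤ 4 * t1 ^ 2)
    {k n : ℕ} {v : Fin n → Fin k → ℝ} {s : Fin n → ℝ}
    (M : MaxData k l n v s) (hl2 : 2 ≤ l) (hW : Wb k l n < Gs v s)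
    (hP : ∀ k' < k, ∀ (N : ℕ) (v' : Fin N → Fin k' → ℝ) (s' : Fin N → ℝ), Gs v' s' ≤ Wb k' l N)
    {i j : Fin n} (hx : xx v i j ≠ 1) (hqq : q0 ^ 2 ≤ (v i ⬝ᵥ v i) * (v j ⬝ᵥ v j))
    (hBc : Bq l (((grp v i).card : ℝ) + (grp v j).card) ≤ B) :
    xx v i j ≤ 1 - Y := by
  obtain ⟨t, ht0, ht1, hy, hineq⟩ := M.excl_pair hl2 hW hP hx hBc
  have hi := M.lev_pos i
  have hj := M.lev_pos j
  have htt : t1 < t := by
    by_contra hcon
    push Not at hcon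
    have hct' : c * t < 1 / 2 := lt_of_le_of_lt (mul_le_mul_of_nonneg_left hcon hc.le) hct
    set q := Real.sqrt ((v i ⬝ᵥ v i) * (v j ⬝ᵥ v j)) with hq
    have hq0' : 0 < q := Real.sqrt_pos.2 (mul_pos hi hj)
    have hq2 : q ^ 2 = (v i ⬝ᵥ v i) * (v j ⬝ᵥ v j) := Real.sq_sqrt (mul_pos hi hj).le
    have hlow : q0 ≤ q := by
      apply le_of_sq_le_sq _ hq0'.le
      rw [hq2]
      exact hqq
    have hl : (2 : ℝ) ≤ l := by exact_mod_cast hl2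
    have hA1 : v i ⬝ᵥ v i ≤ 1 / 2 :=
      (M.lev_le i).trans (one_div_le_one_div_of_le (by norm_num) hl)
    have hB1 : v j ⬝ᵥ v j ≤ 1 / 2 :=
      (M.lev_le j).trans (one_div_le_one_div_of_le (by norm_num) hl)
    have hup : q ≤ 1 / 2 := by
      apply le_of_sq_le_sq _ (by norm_num)
      rw [hq2, sq]
      exact mul_le_mul hA1 hB1 hj.le (by norm_num)
    have h1 := P_pos hc hB hq0 hq01 hct.le hn1 hn2 hn3 hlow hup ht0.le hcon
    have h2 := hineq c hc hct' q hq0' hq2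
    -- compare
    set T := 1 + t ^ 2 with hT
    have hT0 : 0 < T := by positivity
    have hT1 : 1 ≤ T := by have := sq_nonneg t; rw [hT]; linarith
    have ha0 : 0 ≤ 4 * (c * t) * (1 - c * t) := by
      have h3 : 0 < c * t := mul_pos hc ht0
      have h4 : 0 < 1 - c * t := by linarith
      positivity
    have ha1 : 4 * (c * t) * (1 - c * t) ≤ 1 := by
      have e : 1 - 4 * (c * t) * (1 - c * t) = (1 - 2 * (c * t)) ^ 2 := by ring
      have := sq_nonneg (1 - 2 * (c * t))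
      linarith
    have h2qT : 2 * q / T ≤ 2 * q := div_le_self (by linarith) hT1
    have h2qT0 : 0 ≤ 2 * q / T := by positivity
    have hDle : 1 - (1 - 2 * q / T) * (4 * (c * t) * (1 - c * t))
        ≤ 1 - (1 - 2 * q) * (4 * c * t * (1 - c * t)) := by
      have h3 : (1 - 2 * q) * (4 * (c * t) * (1 - c * t))
          ≤ (1 - 2 * q / T) * (4 * (c * t) * (1 - c * t)) :=
        mul_le_mul_of_nonneg_right (by linarith) ha0
      have e : 4 * c * t * (1 - c * t) = 4 * (c * t) * (1 - c * t) := by ring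
      rw [e]
      linarith
    have hD0 : 0 ≤ 1 - (1 - 2 * q / T) * (4 * (c * t) * (1 - c * t)) := by
      have h3 : (1 - 2 * q / T) * (4 * (c * t) * (1 - c * t))
          ≤ 1 * (4 * (c * t) * (1 - c * t)) := mul_le_mul_of_nonneg_right (by linarith) ha0
      linarith
    have hXle : (q * t / T + q ^ 3 * t ^ 3 / T ^ 4 + 2 * c ^ 2 * B * T / q) * (q * T)
        ≤ q ^ 2 * t + q ^ 4 * t ^ 3 + 2 * c ^ 2 * B * (1 + t ^ 2) ^ 2 := by
      have e : (q * t / T + q ^ 3 * t ^ 3 / T ^ 4 + 2 * c ^ 2 * B * T / q) * (q * T)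
          = q ^ 2 * t + q ^ 4 * t ^ 3 / T ^ 3 + 2 * c ^ 2 * B * (1 + t ^ 2) ^ 2 := by
        rw [← hT]
        field_simp
      rw [e]
      have h3 : q ^ 4 * t ^ 3 / T ^ 3 ≤ q ^ 4 * t ^ 3 :=
        div_le_self (by positivity) (one_le_pow₀ hT1)
      linarith
    have hqT : 0 < q * T := mul_pos hq0' hT0
    have h3 := mul_le_mul_of_nonneg_right h2 hqT.le
    have e1 : 4 * c * (1 - c * t) * (q / T) * (q * T) = 4 * c * (1 - c * t) * q ^ 2 := by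
      field_simp
    have e2 : (q * t / T + q ^ 3 * t ^ 3 / T ^ 4 + 2 * c ^ 2 * B * T / q) *
        (1 - (1 - 2 * q / T) * (4 * (c * t) * (1 - c * t))) * (q * T)
        = ((q * t / T + q ^ 3 * t ^ 3 / T ^ 4 + 2 * c ^ 2 * B * T / q) * (q * T)) *
        (1 - (1 - 2 * q / T) * (4 * (c * t) * (1 - c * t))) := by ring
    rw [e1, e2] at h3
    have h4 : ((q * t / T + q ^ 3 * t ^ 3 / T ^ 4 + 2 * c ^ 2 * B * T / q) * (q * T)) *
        (1 - (1 - 2 * q / T) * (4 * (c * t) * (1 - c * t)))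
        ≤ (q ^ 2 * t + q ^ 4 * t ^ 3 + 2 * c ^ 2 * B * (1 + t ^ 2) ^ 2) *
        (1 - (1 - 2 * q) * (4 * c * t * (1 - c * t))) :=
      mul_le_mul hXle hDle hD0 (by positivity)
    linarith
  -- conclude
  have hmono : 4 * t1 ^ 2 / (1 + t1 ^ 2) ^ 2 ≤ 4 * t ^ 2 / (1 + t ^ 2) ^ 2 := by
    have h1 : 2 * t1 / (1 + t1 ^ 2) ≤ 2 * t / (1 + t ^ 2) := by
      rw [div_le_div_iff₀ (by positivity) (by positivity)]
      have e : 2 * t * (1 + t1 ^ 2) - 2 * t1 * (1 + t ^ 2) = 2 * ((t - t1) * (1 - t * t1)) := by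
        ring
      have h2 : t * t1 ≤ 1 := mul_le_one₀ ht1 ht10.le ht11
      have := mul_nonneg (sub_nonneg.2 htt.le) (sub_nonneg.2 h2)
      linarith
    have h2 := pow_le_pow_left₀ (by positivity) h1 2
    have e1 : (2 * t1 / (1 + t1 ^ 2)) ^ 2 = 4 * t1 ^ 2 / (1 + t1 ^ 2) ^ 2 := by
      rw [div_pow]; congr 1; ring
    have e2 : (2 * t / (1 + t ^ 2)) ^ 2 = 4 * t ^ 2 / (1 + t ^ 2) ^ 2 := by
      rw [div_pow]; congr 1; ring
    rwa [e1, e2] at h2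
  have hY' : Y ≤ 4 * t1 ^ 2 / (1 + t1 ^ 2) ^ 2 := by
    rw [le_div_iff₀ (by positivity)]
    exact hY
  linarith

/-- the same with lower bounds of both levels -/
theorem excl_bound {l : ℕ} {c B q0 t1 Y : ℝ} (hc : 0 < c) (hB : 0 < B) (hq0 : 0 < q0)
    (hq01 : q0 ≤ 1 / 2) (ht10 : 0 < t1) (ht11 : t1 ≤ 1) (hct : c * t1 < 1 / 2)
    (hn1 : 0 < 4 * c * (1 - c * t1) * q0 ^ 2 - (q0 ^ 2 * t1 + q0 ^ 4 * t1 ^ 3
      + 2 * c ^ 2 * B * (1 + t1 ^ 2) ^ 2) * (1 - (1 - 2 * q0) * (4 * c * t1 * (1 - c * t1))))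
    (hn2 : 8 * c * t1 * (q0 ^ 2 * t1 + q0 ^ 4 * t1 ^ 3 + 2 * c ^ 2 * B * (1 + t1 ^ 2) ^ 2)
      ≤ 2 * q0 * (4 * c * (1 - c * t1) - t1 * (1 + t1 ^ 2 / 2)))
    (hn3 : (1 - 2 * q0) * (4 * c) * (q0 ^ 2 * t1 + q0 ^ 4 * t1 ^ 3
      + 2 * c ^ 2 * B * (1 + t1 ^ 2) ^ 2)
      ≤ q0 ^ 2 * (1 - (1 - 2 * q0) * (4 * c * t1 * (1 - c * t1))))
    (hY : Y * (1 + t1 ^ 2) ^ 2 ≤ 4 * t1 ^ 2)
    {k n : ℕ} {v : Fin n → Fin k → ℝ} {s : Fin n → ℝ}
    (M : MaxData k l n v s) (hl2 : 2 ≤ l) (hW : Wb k l n < Gs v s)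
    (hP : ∀ k' < k, ∀ (N : ℕ) (v' : Fin N → Fin k' → ℝ) (s' : Fin N → ℝ), Gs v' s' ≤ Wb k' l N)
    {i j : Fin n} (hx : xx v i j ≠ 1) (hqi : q0 ≤ v i ⬝ᵥ v i) (hqj : q0 ≤ v j ⬝ᵥ v j)
    (hBc : Bq l (((grp v i).card : ℝ) + (grp v j).card) ≤ B) :
    xx v i j ≤ 1 - Y := by
  refine excl_bound_gm hc hB hq0 hq01 ht10 ht11 hct hn1 hn2 hn3 hY M hl2 hW hP hx ?_ hBc
  rw [sq]
  exact mul_le_mul hqi hqj hq0.le (M.lev_pos i).le

theorem Bq_le {l : ℕ} (hl : 1 ≤ l) {m : ℝ} (hm : 2 ≤ m) :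
    Bq l m ≤ (1 / (l : ℝ)) * (1 + 1 / (l : ℝ)) ^ (l - 1) := by
  have hl' : (1 : ℝ) ≤ l := by exact_mod_cast hl
  have hpos : 0 < 1 + 1 / (l : ℝ) := by positivity
  have hlog : 0 ≤ Real.log (1 + 1 / (l : ℝ)) := Real.log_nonneg (by
    have : 0 < 1 / (l : ℝ) := by positivity
    linarith)
  unfold Bq
  have h1 : -Real.log l + (l - m / 2) * Real.log (1 + 1 / (l : ℝ))
      ≤ -Real.log l + ((l - 1 : ℕ) : ℝ) * Real.log (1 + 1 / (l : ℝ)) := by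
    have : (l : ℝ) - m / 2 ≤ ((l - 1 : ℕ) : ℝ) := by
      rw [Nat.cast_sub hl]; push_cast; linarith
    have := mul_le_mul_of_nonneg_right this hlog
    linarith
  refine (Real.exp_le_exp.2 h1).trans (le_of_eq ?_)
  rw [Real.exp_add, Real.exp_neg, Real.exp_log (by linarith), ← Real.log_pow,
    Real.exp_log (by positivity), one_div]

/-- upper bounds of `Bq` through the square -/
theorem Bq_le_of_sq {l M0 : ℕ} (hl : 1 ≤ l) (hM : M0 ≤ 2 * l) {m B : ℝ} (hm : (M0 : ℝ) ≤ m)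
    (hB : 0 ≤ B) (h : (1 / (l : ℝ)) ^ 2 * (1 + 1 / (l : ℝ)) ^ (2 * l - M0) ≤ B ^ 2) :
    Bq l m ≤ B := by
  have hl' : (1 : ℝ) ≤ l := by exact_mod_cast hl
  have hpos : 0 < 1 + 1 / (l : ℝ) := by positivity
  have hlog : 0 ≤ Real.log (1 + 1 / (l : ℝ)) := Real.log_nonneg (by
    have : 0 < 1 / (l : ℝ) := by positivity
    linarith)
  apply le_of_sq_le_sq _ hB
  refine le_trans ?_ h
  unfold Bq
  rw [← Real.exp_nat_mul]
  have h1 : ((2 : ℕ) : ℝ) * (-Real.log l + (l - m / 2) * Real.log (1 + 1 / (l : ℝ)))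
      ≤ ((2 : ℕ) : ℝ) * (-Real.log l) + ((2 * l - M0 : ℕ) : ℝ) * Real.log (1 + 1 / (l : ℝ)) := by
    have : ((2 : ℕ) : ℝ) * (l - m / 2) ≤ ((2 * l - M0 : ℕ) : ℝ) := by
      rw [Nat.cast_sub hM]; push_cast; linarith
    have := mul_le_mul_of_nonneg_right this hlog
    push_cast at this ⊢
    linarith
  refine (Real.exp_le_exp.2 h1).trans (le_of_eq ?_)
  rw [Real.exp_add, Real.exp_nat_mul, Real.exp_neg, Real.exp_log (by linarith), ← Real.log_pow,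
    Real.exp_log (by positivity), one_div]

theorem two_le_cards {n k : ℕ} (v : Fin n → Fin k → ℝ) (i j : Fin n) :
    (2 : ℝ) ≤ ((grp v i).card : ℝ) + (grp v j).card := by
  have h1 : 1 ≤ (grp v i).card := Finset.card_pos.2 ⟨i, self_mem_grp v i⟩
  have h2 : 1 ≤ (grp v j).card := Finset.card_pos.2 ⟨j, self_mem_grp v j⟩
  have h3 : (1 : ℝ) ≤ (grp v i).card := by exact_mod_cast h1
  have h4 : (1 : ℝ) ≤ (grp v j).card := by exact_mod_cast h2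
  linarith

section
variable {k n : ℕ} {v : Fin n → Fin k → ℝ} {s : Fin n → ℝ} {i j : Fin n}

theorem excl2 (M : MaxData k 2 n v s) (hW : Wb k 2 n < Gs v s)
    (hP : ∀ k' < k, ∀ (N : ℕ) (v' : Fin N → Fin k' → ℝ) (s' : Fin N → ℝ), Gs v' s' ≤ Wb k' 2 N)
    (hx : xx v i j ≠ 1) : xx v i j ≤ 19 / 25 := by
  have h := excl_bound (l := 2) (c := 127 / 1000) (B := 3 / 4) (q0 := 1 / 3) (t1 := 262 / 1000) (Y := 6 / 25)
    (by norm_num) (by norm_num) (by norm_num) (by norm_num) (by norm_num)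
    (by norm_num) (by norm_num) (by norm_num) (by norm_num) (by norm_num)
    (by norm_num) M (by norm_num) hW hP hx (le_trans (by norm_num) (M.le_lev i)) (le_trans (by norm_num) (M.le_lev j))
    ((Bq_le (by norm_num) (two_le_cards v i j)).trans (by norm_num))
  linarith

theorem excl3 (M : MaxData k 3 n v s) (hW : Wb k 3 n < Gs v s)
    (hP : ∀ k' < k, ∀ (N : ℕ) (v' : Fin N → Fin k' → ℝ) (s' : Fin N → ℝ), Gs v' s' ≤ Wb k' 3 N)
    (hx : xx v i j ≠ 1) : xx v i j ≤ 171 / 200 := by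
  have h := excl_bound (l := 3) (c := 95 / 1000) (B := 16 / 27) (q0 := 1 / 4) (t1 := 198 / 1000) (Y := 29 / 200)
    (by norm_num) (by norm_num) (by norm_num) (by norm_num) (by norm_num)
    (by norm_num) (by norm_num) (by norm_num) (by norm_num) (by norm_num)
    (by norm_num) M (by norm_num) hW hP hx (le_trans (by norm_num) (M.le_lev i)) (le_trans (by norm_num) (M.le_lev j))
    ((Bq_le (by norm_num) (two_le_cards v i j)).trans (by norm_num))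
  linarith

theorem excl4 (M : MaxData k 4 n v s) (hW : Wb k 4 n < Gs v s)
    (hP : ∀ k' < k, ∀ (N : ℕ) (v' : Fin N → Fin k' → ℝ) (s' : Fin N → ℝ), Gs v' s' ≤ Wb k' 4 N)
    (hx : xx v i j ≠ 1) : xx v i j ≤ 181 / 200 := by
  have h := excl_bound (l := 4) (c := 77 / 1000) (B := 125 / 256) (q0 := 1 / 5) (t1 := 158 / 1000) (Y := 19 / 200)
    (by norm_num) (by norm_num) (by norm_num) (by norm_num) (by norm_num)
    (by norm_num) (by norm_num) (by norm_num) (by norm_num) (by norm_num)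
    (by norm_num) M (by norm_num) hW hP hx (le_trans (by norm_num) (M.le_lev i)) (le_trans (by norm_num) (M.le_lev j))
    ((Bq_le (by norm_num) (two_le_cards v i j)).trans (by norm_num))
  linarith

theorem excl5 (M : MaxData k 5 n v s) (hW : Wb k 5 n < Gs v s)
    (hP : ∀ k' < k, ∀ (N : ℕ) (v' : Fin N → Fin k' → ℝ) (s' : Fin N → ℝ), Gs v' s' ≤ Wb k' 5 N)
    (hx : xx v i j ≠ 1) : xx v i j ≤ 187 / 200 := by
  have h := excl_bound (l := 5) (c := 65 / 1000) (B := 1296 / 3125) (q0 := 1 / 6) (t1 := 1297 / 10000) (Y := 13 / 200)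
    (by norm_num) (by norm_num) (by norm_num) (by norm_num) (by norm_num)
    (by norm_num) (by norm_num) (by norm_num) (by norm_num) (by norm_num)
    (by norm_num) M (by norm_num) hW hP hx (le_trans (by norm_num) (M.le_lev i)) (le_trans (by norm_num) (M.le_lev j))
    ((Bq_le (by norm_num) (two_le_cards v i j)).trans (by norm_num))
  linarith

end

end Pool.Agent.Work.MP_6cd513_gt
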