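import Pool.Agent.Work.MP_6cd513_gt.Slice

/-!
# Density bounds for one and two coordinates of a section
-/

open Matrix Finset MeasureTheory

namespace Pool.Agent.Work.MP_6cd513_gt

variable {ι : Type} [Fintype ι] {k : ℕ}

/-- removing vectors that vanish -/
theorem gram_restrict [DecidableEq ι] {q : ι → Fin k → ℝ} (g : Finset ι) (hg : ∀ i ∈ g, q i = 0) :
    gramM (fun i : {i // i ∉ g} => q i) = gramM q := by
  ext a b
  rw [gramM_apply, gramM_apply]
  have h3 := (Finset.sum_subtype (F := inferInstance) (Finset.univ.filter fun i => i ∉ g)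
    (p := fun i => i ∉ g) (by simp) (fun i => q i a * q i b))
  rw [← h3, Finset.sum_filter]
  refine Finset.sum_congr rfl fun i _ => ?_
  split_ifs with h
  · rw [hg i h]; simp
  · rfl

theorem card_compl_subtype [DecidableEq ι] (g : Finset ι) {N : ℕ} (hN : Fintype.card ι = N + g.card) :
    Fintype.card {i // i ∉ g} = N := by
  rw [Fintype.card_subtype_compl, Fintype.card_coe]
  omega

omit [Fintype ι] in
theorem q_zero_of_parallel {w : ι → Fin (k + 1) → ℝ} {i0 : ι} (_h0 : 0 < w i0 ⬝ᵥ w i0)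
    {q : ι → Fin k → ℝ}
    (hq : ∀ i j, q i ⬝ᵥ q j = w i ⬝ᵥ w j - (w i ⬝ᵥ w i0) * (w j ⬝ᵥ w i0) / (w i0 ⬝ᵥ w i0))
    {i : ι} (hi : w i = w i0 ∨ w i = -w i0) : q i = 0 := by
  have h1 : q i ⬝ᵥ q i = 0 := by
    rw [hq i i]
    rcases hi with h | h <;> rw [h]
    · field_simp
      ring
    · simp only [neg_dotProduct, dotProduct_neg, neg_neg]
      field_simp
      ring
  exact dotProduct_self_eq_zero.1 h1

/-- density of one coordinate -/
theorem fiber1 {w : ι → Fin (k + 1) → ℝ} (hw : gramM w = 1) (s : ι → ℝ) (i0 : ι)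
    (h0 : 0 < w i0 ⬝ᵥ w i0) (g : Finset ι) (hg : ∀ i ∈ g, w i = w i0 ∨ w i = -w i0)
    {N : ℕ} (hN : Fintype.card ι = N + g.card) {C : ℝ}
    (hC : ∀ (κ : Type) [Fintype κ], Fintype.card κ = N →
      ∀ (v : κ → Fin k → ℝ) (s' : κ → ℝ), Gs v s' ≤ C)
    {T : Set ℝ} (hT : MeasurableSet T) :
    volume {x | x ∈ bodyS w s ∧ w i0 ⬝ᵥ x ∈ T}
      ≤ ENNReal.ofReal (C / Real.sqrt (w i0 ⬝ᵥ w i0)) * volume T := by
  classical
  obtain ⟨q, hq1, hq2, hq3⟩ := slice_vol hw i0 h0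
  set c := Real.sqrt (w i0 ⬝ᵥ w i0) with hc
  have hc0 : 0 < c := Real.sqrt_pos.2 h0
  have hcc : c * c = w i0 ⬝ᵥ w i0 := Real.mul_self_sqrt h0.le
  have hqz : ∀ i ∈ g, q i = 0 := fun i hi => q_zero_of_parallel h0 hq2 (hg i hi)
  have hqz0 : q i0 = 0 := q_zero_of_parallel h0 hq2 (Or.inl rfl)
  have hgr : gramM (fun i : {i // i ∉ g} => q i) = 1 := by rw [gram_restrict g hqz, hq1]
  let Q : Set (ι → ℝ) := {z | (∀ i, |z i - s i| ≤ 1 / 2) ∧ z i0 ∈ T}
  have hQ : MeasurableSet Q := by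
    apply MeasurableSet.inter
    · have : {z : ι → ℝ | ∀ i, |z i - s i| ≤ 1 / 2} = ⋂ i, {z | |z i - s i| ≤ 1 / 2} := by
        ext z; simp
      show MeasurableSet {z : ι → ℝ | ∀ i, |z i - s i| ≤ 1 / 2}
      rw [this]
      refine MeasurableSet.iInter fun i => ?_
      exact measurableSet_le (by fun_prop) measurable_const
    · exact measurable_pi_apply i0 hT
  have h1 := hq3 Q hQ
  have h2 : {x | x ∈ bodyS w s ∧ w i0 ⬝ᵥ x ∈ T} = {x | (fun i => w i ⬝ᵥ x) ∈ Q} := rfl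
  rw [h2, h1]
  have h3 : ∀ t : ℝ, volume {y : Fin k → ℝ | (fun i => (w i ⬝ᵥ w i0) / c * t + q i ⬝ᵥ y) ∈ Q}
      ≤ ((fun t : ℝ => c * t) ⁻¹' T).indicator (fun _ => ENNReal.ofReal C) t := by
    intro t
    by_cases ht : c * t ∈ T
    · rw [Set.indicator_of_mem (show t ∈ (fun t : ℝ => c * t) ⁻¹' T from ht)]
      have h4 : {y : Fin k → ℝ | (fun i => (w i ⬝ᵥ w i0) / c * t + q i ⬝ᵥ y) ∈ Q}
          ⊆ bodyS (fun i : {i // i ∉ g} => q i)
            (fun i : {i // i ∉ g} => s i - (w i ⬝ᵥ w i0) / c * t) := by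
        intro y hy i
        have := hy.1 i
        have e : q i ⬝ᵥ y - (s i - (w i ⬝ᵥ w i0) / c * t)
            = (w i ⬝ᵥ w i0) / c * t + q i ⬝ᵥ y - s i := by ring
        rw [e]
        exact this
      refine (measure_mono h4).trans ?_
      have h5 := hC {i // i ∉ g} (card_compl_subtype g hN) (fun i => q i)
        (fun i : {i // i ∉ g} => s i - (w i ⬝ᵥ w i0) / c * t)
      rw [Gs_tight hgr] at h5
      exact (ENNReal.le_ofReal_iff_toReal_le (bodyS_tight_finite hgr _)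
        (ENNReal.toReal_nonneg.trans h5)).2 h5
    · rw [Set.indicator_of_notMem (show t ∉ (fun t : ℝ => c * t) ⁻¹' T from ht)]
      have h4 : {y : Fin k → ℝ | (fun i => (w i ⬝ᵥ w i0) / c * t + q i ⬝ᵥ y) ∈ Q} = ∅ := by
        rw [Set.eq_empty_iff_forall_notMem]
        intro y hy
        have h5 : (w i0 ⬝ᵥ w i0) / c * t + q i0 ⬝ᵥ y ∈ T := hy.2
        rw [hqz0, zero_dotProduct, add_zero, ← hcc, mul_div_assoc, div_self hc0.ne', mul_one] at h5
        exact ht h5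
      rw [h4]
      simp
  refine (lintegral_mono h3).trans ?_
  have hm : MeasurableSet ((fun t : ℝ => c * t) ⁻¹' T) := (measurable_const_mul c) hT
  rw [lintegral_indicator hm, setLIntegral_const, Real.volume_preimage_mul_left hc0.ne',
    abs_of_pos (inv_pos.2 hc0)]
  have hC0 : 0 ≤ C ∨ C < 0 := le_or_gt 0 C
  rcases hC0 with hC0 | hC0
  · rw [← mul_assoc, ← ENNReal.ofReal_mul hC0, div_eq_mul_inv]
  · rw [ENNReal.ofReal_of_nonpos hC0.le, zero_mul]
    exact bot_le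

/-- density of two coordinates -/
theorem fiber2 {w : ι → Fin (k + 2) → ℝ} (hw : gramM w = 1) (s : ι → ℝ) (i0 j0 : ι)
    (h0 : 0 < w i0 ⬝ᵥ w i0)
    (hind : 0 < (w i0 ⬝ᵥ w i0) * (w j0 ⬝ᵥ w j0) - (w i0 ⬝ᵥ w j0) ^ 2)
    (g h : Finset ι) (hg : ∀ i ∈ g, w i = w i0 ∨ w i = -w i0)
    (hh : ∀ i ∈ h, w i = w j0 ∨ w i = -w j0) (hgh : Disjoint g h)
    {N : ℕ} (hN : Fintype.card ι = N + g.card + h.card) {C : ℝ} (hC0 : 0 ≤ C)
    (hC : ∀ (κ : Type) [Fintype κ], Fintype.card κ = N →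
      ∀ (v : κ → Fin k → ℝ) (s' : κ → ℝ), Gs v s' ≤ C)
    {T : Set (ℝ × ℝ)} (hT : MeasurableSet T) :
    volume {x | x ∈ bodyS w s ∧ (w i0 ⬝ᵥ x, w j0 ⬝ᵥ x) ∈ T}
      ≤ ENNReal.ofReal (C / Real.sqrt ((w i0 ⬝ᵥ w i0) * (w j0 ⬝ᵥ w j0) - (w i0 ⬝ᵥ w j0) ^ 2))
        * volume T := by
  classical
  obtain ⟨q, hq1, hq2, hq3⟩ := slice_vol hw i0 h0
  set c := Real.sqrt (w i0 ⬝ᵥ w i0) with hc
  have hc0 : 0 < c := Real.sqrt_pos.2 h0
  have hcc : c * c = w i0 ⬝ᵥ w i0 := Real.mul_self_sqrt h0.le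
  have hqz : ∀ i ∈ g, q i = 0 := fun i hi => q_zero_of_parallel h0 hq2 (hg i hi)
  have hqz0 : q i0 = 0 := q_zero_of_parallel h0 hq2 (Or.inl rfl)
  have hgr : gramM (fun i : {i // i ∉ g} => q i) = 1 := by rw [gram_restrict g hqz, hq1]
  -- `j0` is not in `g`
  have hqj : q j0 ⬝ᵥ q j0 = ((w i0 ⬝ᵥ w i0) * (w j0 ⬝ᵥ w j0) - (w i0 ⬝ᵥ w j0) ^ 2)
      / (w i0 ⬝ᵥ w i0) := by
    rw [hq2 j0 j0, dotProduct_comm (w j0) (w i0)]
    field_simp
  have hqj0 : 0 < q j0 ⬝ᵥ q j0 := by rw [hqj]; exact div_pos hind h0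
  have hj0 : j0 ∉ g := by
    intro hj
    rw [hqz j0 hj] at hqj0
    simp at hqj0
  have hqh : ∀ i ∈ h, q i = q j0 ∨ q i = -q j0 := by
    intro i hi
    rcases hh i hi with h1 | h1
    · left
      have h2 : (q i - q j0) ⬝ᵥ (q i - q j0) = 0 := by
        simp only [sub_dotProduct, dotProduct_sub, hq2, h1]
        ring
      exact sub_eq_zero.1 (dotProduct_self_eq_zero.1 h2)
    · right
      have h2 : (q i + q j0) ⬝ᵥ (q i + q j0) = 0 := by
        simp only [add_dotProduct, dotProduct_add, hq2, h1, neg_dotProduct, dotProduct_neg]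
        ring
      exact eq_neg_of_add_eq_zero_left (dotProduct_self_eq_zero.1 h2)
  let Q : Set (ι → ℝ) := {z | (∀ i, |z i - s i| ≤ 1 / 2) ∧ (z i0, z j0) ∈ T}
  have hQ : MeasurableSet Q := by
    apply MeasurableSet.inter
    · have : {z : ι → ℝ | ∀ i, |z i - s i| ≤ 1 / 2} = ⋂ i, {z | |z i - s i| ≤ 1 / 2} := by
        ext z; simp
      show MeasurableSet {z : ι → ℝ | ∀ i, |z i - s i| ≤ 1 / 2}
      rw [this]
      refine MeasurableSet.iInter fun i => ?_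
      exact measurableSet_le (by fun_prop) measurable_const
    · exact ((measurable_pi_apply i0).prodMk (measurable_pi_apply j0)) hT
  have h1 := hq3 Q hQ
  have h2 : {x | x ∈ bodyS w s ∧ (w i0 ⬝ᵥ x, w j0 ⬝ᵥ x) ∈ T}
      = {x | (fun i => w i ⬝ᵥ x) ∈ Q} := rfl
  rw [h2, h1]
  set d := Real.sqrt (q j0 ⬝ᵥ q j0) with hd
  have hd0 : 0 < d := Real.sqrt_pos.2 hqj0
  have hcd : c * d = Real.sqrt ((w i0 ⬝ᵥ w i0) * (w j0 ⬝ᵥ w j0) - (w i0 ⬝ᵥ w j0) ^ 2) := by
    rw [hc, hd, ← Real.sqrt_mul h0.le, hqj]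
    congr 1
    field_simp
  -- the set `h` inside the complement of `g`
  let h' : Finset {i // i ∉ g} := Finset.univ.filter fun i => (i : ι) ∈ h
  have hh'card : h'.card = h.card := by
    have : h'.map (Function.Embedding.subtype _) = h := by
      ext i
      simp only [h', Finset.mem_map, Finset.mem_filter, Finset.mem_univ, true_and,
        Function.Embedding.coe_subtype, Subtype.exists, exists_and_left, exists_prop,
        exists_eq_right_right]
      constructor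
      · rintro ⟨h1, -⟩; exact h1
      · intro h1
        exact ⟨h1, fun h2 => (Finset.disjoint_left.1 hgh h2 h1)⟩
    rw [← this, Finset.card_map]
  have hN' : Fintype.card {i // i ∉ g} = N + h'.card := by
    rw [card_compl_subtype g (N := N + h.card) (by omega), hh'card]
  have h3 : ∀ t : ℝ, volume {y : Fin (k + 1) → ℝ |
      (fun i => (w i ⬝ᵥ w i0) / c * t + q i ⬝ᵥ y) ∈ Q}
      ≤ ENNReal.ofReal (C / d) * volume (Prod.mk (c * t) ⁻¹' T) := by
    intro t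
    set b := (w j0 ⬝ᵥ w i0) / c * t with hb
    let T' : Set ℝ := (fun r => b + r) ⁻¹' (Prod.mk (c * t) ⁻¹' T)
    have hT' : MeasurableSet T' :=
      (measurable_const_add b) (measurable_prodMk_left hT)
    have h4 : {y : Fin (k + 1) → ℝ | (fun i => (w i ⬝ᵥ w i0) / c * t + q i ⬝ᵥ y) ∈ Q}
        ⊆ {y | y ∈ bodyS (fun i : {i // i ∉ g} => q i)
            (fun i : {i // i ∉ g} => s i - (w i ⬝ᵥ w i0) / c * t) ∧ q j0 ⬝ᵥ y ∈ T'} := by
      intro y hy
      refine ⟨fun i => ?_, ?_⟩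
      · have := hy.1 i
        have e : q i ⬝ᵥ y - (s i - (w i ⬝ᵥ w i0) / c * t)
            = (w i ⬝ᵥ w i0) / c * t + q i ⬝ᵥ y - s i := by ring
        show |q i ⬝ᵥ y - (s i - (w i ⬝ᵥ w i0) / c * t)| ≤ 1 / 2
        rw [e]
        exact this
      · have h5 : ((w i0 ⬝ᵥ w i0) / c * t + q i0 ⬝ᵥ y, (w j0 ⬝ᵥ w i0) / c * t + q j0 ⬝ᵥ y) ∈ T :=
          hy.2
        rw [hqz0, zero_dotProduct, add_zero, ← hcc, mul_div_assoc, div_self hc0.ne', mul_one] at h5
        exact h5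
    refine (measure_mono h4).trans ?_
    have h5 := fiber1 (w := fun i : {i // i ∉ g} => q i) hgr
      (fun i : {i // i ∉ g} => s i - (w i ⬝ᵥ w i0) / c * t) ⟨j0, hj0⟩ hqj0 h'
      (fun i hi => hqh i (Finset.mem_filter.1 hi).2) hN' hC hT'
    refine h5.trans (le_of_eq ?_)
    congr 1
    simp only [T']
    exact measure_preimage_add _ _ _
  refine (lintegral_mono h3).trans ?_
  rw [lintegral_const_mul' _ _ ENNReal.ofReal_ne_top]
  have h6 : ∫⁻ t : ℝ, volume (Prod.mk (c * t) ⁻¹' T) = ENNReal.ofReal c⁻¹ * volume T := by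
    have hm : Measurable fun r : ℝ => volume (Prod.mk r ⁻¹' T) := measurable_measure_prodMk_left hT
    have h7 : ∫⁻ t : ℝ, volume (Prod.mk (c * t) ⁻¹' T)
        = ∫⁻ r : ℝ, volume (Prod.mk r ⁻¹' T) ∂(Measure.map (fun t => c * t) volume) :=
      (lintegral_map hm (measurable_const_mul c)).symm
    rw [h7, Real.map_volume_mul_left hc0.ne', lintegral_smul_measure, smul_eq_mul,
      abs_of_pos (inv_pos.2 hc0), Measure.volume_eq_prod, Measure.prod_apply hT]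
  rw [h6, ← mul_assoc, ← ENNReal.ofReal_mul (by positivity), ← hcd]
  refine le_of_eq ?_
  congr 2
  field_simp

end Pool.Agent.Work.MP_6cd513_gt
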