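import Pool.Agent.Work.MP_6cd513_gt.MainStep2
import Pool.Agent.Work.MP_6cd513_gt.Defs

/-!
# Sections of the cube: the bound for all large `n`
-/

open Matrix Finset MeasureTheory

namespace Pool.Agent.Work.MP_6cd513_gt

/-- discrete smoothing inequality -/
theorem nat_le_pow {l : ℕ} (hl : 1 ≤ l) (m : ℕ) :
    (m : ℝ) * (((l : ℝ) + 1) / l) ^ l ≤ l * (((l : ℝ) + 1) / l) ^ m := by
  have hl' : (1 : ℝ) ≤ l := by exact_mod_cast hl
  set x : ℝ := ((l : ℝ) + 1) / l with hx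
  have hx0 : 0 < x := by positivity
  rcases le_total l m with h | h
  · obtain ⟨s, rfl⟩ := Nat.exists_eq_add_of_le h
    have h1 := one_add_mul_le_pow (a := 1 / (l : ℝ)) (by
      have : 0 ≤ 1 / (l : ℝ) := by positivity
      linarith) s
    have h2 : (1 : ℝ) + 1 / l = x := by rw [hx]; field_simp
    rw [h2] at h1
    rw [pow_add]
    have h3 : (((l + s : ℕ) : ℝ)) ≤ l * x ^ s := by
      push_cast
      have h4 : (l : ℝ) * (1 + s * (1 / l)) = l + s := by field_simp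
      rw [← h4]
      exact mul_le_mul_of_nonneg_left h1 (by positivity)
    calc (((l + s : ℕ) : ℝ)) * x ^ l ≤ (l * x ^ s) * x ^ l :=
          mul_le_mul_of_nonneg_right h3 (by positivity)
      _ = _ := by ring
  · obtain ⟨s, hs⟩ := Nat.exists_eq_add_of_le h
    have h1 := one_add_mul_le_pow (a := -(1 / ((l : ℝ) + 1))) (by
      have : 1 / ((l : ℝ) + 1) ≤ 1 := by rw [div_le_one (by positivity)]; linarith
      linarith) s
    have h2 : (1 : ℝ) + -(1 / ((l : ℝ) + 1)) = x⁻¹ := by rw [hx]; field_simp; ring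
    rw [h2] at h1
    have h3 : (m : ℝ) ≤ l * (x⁻¹) ^ s := by
      have h4 : (m : ℝ) ≤ l * (1 + s * -(1 / ((l : ℝ) + 1))) := by
        have hls : (l : ℝ) = m + s := by exact_mod_cast hs
        have h5 : (l : ℝ) * (1 + s * -(1 / ((l : ℝ) + 1))) = l * (l + 1 - s) / (l + 1) := by
          field_simp
          ring
        rw [h5, le_div_iff₀ (by positivity)]
        have h6 : (l : ℝ) + 1 - s = m + 1 := by linarith
        rw [h6]
        have hml : (m : ℝ) ≤ l := by exact_mod_cast h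
        nlinarith
      exact h4.trans (mul_le_mul_of_nonneg_left h1 (by positivity))
    have h4 : x ^ l = x ^ m * x ^ s := by rw [← pow_add, ← hs]
    rw [h4]
    calc (m : ℝ) * (x ^ m * x ^ s) ≤ (l * (x⁻¹) ^ s) * (x ^ m * x ^ s) :=
          mul_le_mul_of_nonneg_right h3 (by positivity)
      _ = l * x ^ m := by
          rw [inv_pow]
          field_simp

theorem prod_le {k l r : ℕ} (hl : 1 ≤ l) (m : Fin k → ℕ) (hm : ∑ q, m q = k * l + r) :
    ∏ q, (m q : ℝ) ≤ (l : ℝ) ^ k * (((l : ℝ) + 1) / l) ^ r := by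
  have hl' : (1 : ℝ) ≤ l := by exact_mod_cast hl
  set x : ℝ := ((l : ℝ) + 1) / l with hx
  have hx0 : 0 < x := by positivity
  have h1 : ∏ q, ((m q : ℝ) * x ^ l) ≤ ∏ q, (l * x ^ (m q)) :=
    Finset.prod_le_prod (fun q _ => by positivity) (fun q _ => nat_le_pow hl (m q))
  rw [Finset.prod_mul_distrib, Finset.prod_mul_distrib, Finset.prod_const, Finset.prod_const,
    Finset.prod_pow_eq_pow_sum, hm, Finset.card_univ, Fintype.card_fin, pow_add, ← pow_mul,
    mul_comm l k] at h1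
  have h2 : 0 < x ^ (k * l) := by positivity
  have h3 : (∏ q, (m q : ℝ)) * x ^ (k * l) ≤ ((l : ℝ) ^ k * x ^ r) * x ^ (k * l) := by
    calc _ ≤ _ := h1
      _ = _ := by ring
  exact le_of_mul_le_mul_right h3 h2

theorem window {k : ℕ} (hk : 1 ≤ k) : ∃ l0 : ℕ, ∀ l : ℕ, l0 ≤ l → ∀ r : ℕ, r < k →
    ∀ (ι : Type) [Fintype ι], Fintype.card ι = k * l + r → ∀ v : ι → Fin k → ℝ,
    Gv v ≤ Real.sqrt ((l : ℝ) ^ k * (((l : ℝ) + 1) / l) ^ r) := by
  classical
  have hk' : (1 : ℝ) ≤ k := by exact_mod_cast hk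
  have hmain : ∃ N0 : ℕ, ∀ N : ℕ, N0 ≤ N → ∀ (ι : Type) [Fintype ι]
      (w : ι → Fin k → ℝ), gramM w = 1 → (∀ i, 1 / (N : ℝ) < w i ⬝ᵥ w i) → 2 ≤ k →
      k * (N - 1) < Fintype.card ι → Real.sqrt (((N : ℝ) - 1) ^ k) ≤ Gv w →
      ∃ m : Fin k → ℕ, ∑ q, m q = Fintype.card ι ∧ Gv w ≤ Real.sqrt (∏ q, (m q : ℝ)) := by
    by_cases h2 : 2 ≤ k
    · obtain ⟨κ, rfl⟩ : ∃ κ, k = κ + 1 := ⟨k - 1, by omega⟩
      obtain ⟨N0, hN0⟩ := main_step (κ := κ) (by omega)
      exact ⟨N0, fun N hN ι _ w hw hα _ hc hG => hN0 N hN ι w hw hα hc hG⟩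
    · exact ⟨0, fun N _ ι _ w _ _ h => absurd h h2⟩
  obtain ⟨N0, hN0⟩ := hmain
  refine ⟨max N0 1, ?_⟩
  intro l hl r
  have hl1 : 1 ≤ l := le_trans (le_max_right _ _) hl
  have hlN : N0 ≤ l + 1 := le_trans (le_trans (le_max_left _ _) hl) (Nat.le_succ l)
  have hl' : (1 : ℝ) ≤ l := by exact_mod_cast hl1
  set x : ℝ := ((l : ℝ) + 1) / l with hx
  have hx0 : 0 < x := by positivity
  have hx1 : 1 ≤ x := by rw [hx, le_div_iff₀ (by positivity)]; linarith
  induction r with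
  | zero =>
    intro _ ι _ hcard v
    have h1 := ball_bound hk v
    rw [hcard] at h1
    have h2 : (((k * l + 0 : ℕ) : ℝ) / k) = l := by
      push_cast
      field_simp
      ring
    rw [h2] at h1
    rwa [pow_zero, mul_one]
  | succ r ih =>
    intro hr ι _ hcard v
    by_contra hcon
    push Not at hcon
    have hW0 : 0 ≤ Real.sqrt ((l : ℝ) ^ k * x ^ (r + 1)) := Real.sqrt_nonneg _
    have hv : (gramM v).det ≠ 0 := by
      intro h0
      unfold Gv at hcon
      rw [h0, Real.sqrt_zero, zero_mul] at hcon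
      linarith
    obtain ⟨w, U, hU, hw, rfl⟩ := exists_tight v hv
    rw [Gv_vecMul _ hU] at hcon
    have hα : ∀ i, 1 / (((l + 1 : ℕ) : ℝ)) < w i ⬝ᵥ w i := by
      intro i
      by_contra hi
      push Not at hi
      push_cast at hi
      have h1 : w i ⬝ᵥ w i < 1 := by
        refine lt_of_le_of_lt hi ?_
        rw [div_lt_one (by positivity)]
        linarith
      have h2 := Gv_drop hw i h1
      have h3 := ih (by omega) {j // j ≠ i} (by
        rw [Fintype.card_subtype_compl, Fintype.card_subtype_eq, hcard]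
        omega) (fun j => w j)
      have h4 : Real.sqrt x⁻¹ ≤ Real.sqrt (1 - w i ⬝ᵥ w i) := by
        apply Real.sqrt_le_sqrt
        have h5 : x⁻¹ = 1 - 1 / ((l : ℝ) + 1) := by
          rw [hx, inv_div, eq_sub_iff_add_eq, ← add_div, div_self (by positivity)]
        rw [h5]
        linarith
      have h5 : Gv w * Real.sqrt x⁻¹ ≤ Real.sqrt ((l : ℝ) ^ k * x ^ r) :=
        (mul_le_mul_of_nonneg_left h4 (hW0.trans hcon.le)).trans (h2.trans h3)
      have h6 : Real.sqrt x⁻¹ * Real.sqrt x = 1 := by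
        rw [← Real.sqrt_mul (by positivity), inv_mul_cancel₀ hx0.ne', Real.sqrt_one]
      have h7 : Gv w ≤ Real.sqrt ((l : ℝ) ^ k * x ^ r) * Real.sqrt x := by
        calc Gv w = Gv w * Real.sqrt x⁻¹ * Real.sqrt x := by rw [mul_assoc, h6, mul_one]
          _ ≤ _ := mul_le_mul_of_nonneg_right h5 (Real.sqrt_nonneg _)
      rw [← Real.sqrt_mul (by positivity), mul_assoc, ← pow_succ] at h7
      linarith
    have h1 : Real.sqrt ((((l + 1 : ℕ) : ℝ) - 1) ^ k) ≤ Gv w := by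
      refine le_trans ?_ hcon.le
      apply Real.sqrt_le_sqrt
      push_cast
      rw [add_sub_cancel_right]
      exact le_mul_of_one_le_right (by positivity) (one_le_pow₀ hx1)
    obtain ⟨m, hm1, hm2⟩ := hN0 (l + 1) hlN ι w hw hα (by omega) (by
      rw [hcard, Nat.add_sub_cancel]; omega) h1
    rw [hcard] at hm1
    have h2 := Real.sqrt_le_sqrt (prod_le hl1 m hm1)
    linarith

theorem maxVol_eq {k l r : ℕ} (hl : 1 ≤ l) (hr : r < k) :
    maxVol (k * l + r) k = Real.sqrt ((l : ℝ) ^ k * (((l : ℝ) + 1) / l) ^ r) := by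
  have hl' : (l : ℝ) ≠ 0 := by
    have : (1 : ℝ) ≤ l := by exact_mod_cast hl
    linarith
  have hk : 0 < k := by omega
  have h1 : (k * l + r) / k = l := by
    rw [Nat.mul_add_div hk, Nat.div_eq_of_lt hr, add_zero]
  have h2 : (k * l + r) % k = r := by
    rw [Nat.mul_add_mod, Nat.mod_eq_of_lt hr]
  unfold maxVol
  rw [h1, h2]
  congr 1
  rw [div_pow, mul_div_assoc', eq_div_iff (pow_ne_zero _ hl')]
  have h3 : (l : ℝ) ^ k = (l : ℝ) ^ (k - r) * (l : ℝ) ^ r := by
    rw [← pow_add, Nat.sub_add_cancel hr.le]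
  rw [h3]
  ring

theorem frames_bound {k : ℕ} (hk : 1 ≤ k) : ∃ n0 : ℕ, ∀ n : ℕ, n0 ≤ n →
    ∀ v : Fin n → Fin k → ℝ, Gv v ≤ maxVol n k := by
  obtain ⟨l0, hl0⟩ := window hk
  refine ⟨k * max l0 1, fun n hn v => ?_⟩
  have h1 : max l0 1 ≤ n / k := by
    rw [Nat.le_div_iff_mul_le (by omega), mul_comm]
    exact hn
  have h2 : k * (n / k) + n % k = n := Nat.div_add_mod n k
  have h3 : n % k < k := Nat.mod_lt _ (by omega)
  have h4 := hl0 (n / k) (le_trans (le_max_left _ _) h1) (n % k) h3 (Fin n) (by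
    rw [Fintype.card_fin]; exact h2.symm) v
  rw [← maxVol_eq (le_trans (le_max_right _ _) h1) h3, h2] at h4
  exact h4

end Pool.Agent.Work.MP_6cd513_gt
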