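import Pool.Agent.Work.MP_6cd513_gt.Defect
import Pool.Agent.Work.MP_6cd513_gt.Defs

/-!
# Sections of the cube: the bound for `n ≥ 6k`
-/

open Matrix Finset MeasureTheory

namespace Pool.Agent.Work.MP_6cd513_gt

theorem window6 {k : ℕ} (hk : 1 ≤ k) {l : ℕ} (hl : 6 ≤ l) : ∀ r : ℕ, r < k →
    ∀ (ι : Type) [Fintype ι], Fintype.card ι = k * l + r → ∀ v : ι → Fin k → ℝ,
    Gv v ≤ Real.sqrt ((l : ℝ) ^ k * (((l : ℝ) + 1) / l) ^ r) := by
  classical
  have hk' : (1 : ℝ) ≤ k := by exact_mod_cast hk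
  have hl' : (1 : ℝ) ≤ l := by
    have : 1 ≤ l := by omega
    exact_mod_cast this
  have hl0 : (0 : ℝ) < l := by linarith
  set x : ℝ := ((l : ℝ) + 1) / l with hx
  have hx0 : 0 < x := by positivity
  have hx1 : 1 ≤ x := by rw [hx, le_div_iff₀ (by positivity)]; linarith
  intro r
  induction r with
  | zero =>
    intro _ ι _ hcard v
    have h1 := ball_bound hk v
    rw [hcard] at h1
    have h2 : (((k * l + 0 : ℕ) : ℝ) / k) = l := by
      push_cast
      field_simp
      ring
    rw [h2] at h1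
    rwa [pow_zero, mul_one]
  | succ r ih =>
    intro hr ι _ hcard v
    by_contra hcon
    push Not at hcon
    have hW0 : 0 ≤ Real.sqrt ((l : ℝ) ^ k * x ^ (r + 1)) := Real.sqrt_nonneg _
    have hv : (gramM v).det ≠ 0 := by
      intro h0
      unfold Gv at hcon
      rw [h0, Real.sqrt_zero, zero_mul] at hcon
      linarith
    obtain ⟨w, U, hU, hw, rfl⟩ := exists_tight v hv
    rw [Gv_vecMul _ hU] at hcon
    have hα : ∀ i, 1 / ((l : ℝ) + 1) ≤ w i ⬝ᵥ w i := by
      intro i
      by_contra hi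
      push Not at hi
      have h1 : w i ⬝ᵥ w i < 1 := by
        refine lt_of_lt_of_le hi ?_
        rw [div_le_one (by positivity)]
        linarith
      have h2 := Gv_drop hw i h1
      have h3 := ih (by omega) {j // j ≠ i} (by
        rw [Fintype.card_subtype_compl, Fintype.card_subtype_eq, hcard]
        omega) (fun j => w j)
      have h4 : Real.sqrt x⁻¹ ≤ Real.sqrt (1 - w i ⬝ᵥ w i) := by
        apply Real.sqrt_le_sqrt
        have h5 : x⁻¹ = 1 - 1 / ((l : ℝ) + 1) := by
          rw [hx, inv_div, eq_sub_iff_add_eq, ← add_div, div_self (by positivity)]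
        rw [h5]
        linarith
      have h5 : Gv w * Real.sqrt x⁻¹ ≤ Real.sqrt ((l : ℝ) ^ k * x ^ r) :=
        (mul_le_mul_of_nonneg_left h4 (hW0.trans hcon.le)).trans (h2.trans h3)
      have h6 : Real.sqrt x⁻¹ * Real.sqrt x = 1 := by
        rw [← Real.sqrt_mul (by positivity), inv_mul_cancel₀ hx0.ne', Real.sqrt_one]
      have h7 : Gv w ≤ Real.sqrt ((l : ℝ) ^ k * x ^ r) * Real.sqrt x := by
        calc Gv w = Gv w * Real.sqrt x⁻¹ * Real.sqrt x := by rw [mul_assoc, h6, mul_one]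
          _ ≤ _ := mul_le_mul_of_nonneg_right h5 (Real.sqrt_nonneg _)
      rw [← Real.sqrt_mul (by positivity), mul_assoc, ← pow_succ] at h7
      linarith
    have h1 := tight_step hl hw hα
    have h2 : Real.exp ((1 / 2) * (k * Real.log l
      + ((Fintype.card ι : ℝ) - k * l) * Real.log (1 + 1 / (l : ℝ))))
        = Real.sqrt ((l : ℝ) ^ k * x ^ (r + 1)) := by
      rw [hcard, Real.sqrt_eq_rpow, Real.rpow_def_of_pos (by positivity),
        Real.log_mul (by positivity) (by positivity), Real.log_pow, Real.log_pow]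
      have h3 : x = 1 + 1 / (l : ℝ) := by rw [hx]; field_simp
      rw [h3]
      congr 1
      push_cast
      ring
    rw [h2] at h1
    linarith

theorem maxVol_eq' {k l r : ℕ} (hl : 1 ≤ l) (hr : r < k) :
    maxVol (k * l + r) k = Real.sqrt ((l : ℝ) ^ k * (((l : ℝ) + 1) / l) ^ r) := by
  have hl' : (l : ℝ) ≠ 0 := by
    have : (1 : ℝ) ≤ l := by exact_mod_cast hl
    linarith
  have hk : 0 < k := by omega
  have h1 : (k * l + r) / k = l := by
    rw [Nat.mul_add_div hk, Nat.div_eq_of_lt hr, add_zero]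
  have h2 : (k * l + r) % k = r := by
    rw [Nat.mul_add_mod, Nat.mod_eq_of_lt hr]
  unfold maxVol
  rw [h1, h2]
  congr 1
  rw [div_pow, mul_div_assoc', eq_div_iff (pow_ne_zero _ hl')]
  have h3 : (l : ℝ) ^ k = (l : ℝ) ^ (k - r) * (l : ℝ) ^ r := by
    rw [← pow_add, Nat.sub_add_cancel hr.le]
  rw [h3]
  ring

theorem frames_bound6 {k n : ℕ} (hk : 1 ≤ k) (hn : 6 * k ≤ n) (v : Fin n → Fin k → ℝ) :
    Gv v ≤ maxVol n k := by
  have h1 : 6 ≤ n / k := by
    rw [Nat.le_div_iff_mul_le (by omega)]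
    exact hn
  have h2 : k * (n / k) + n % k = n := Nat.div_add_mod n k
  have h3 : n % k < k := Nat.mod_lt _ (by omega)
  have h4 := window6 hk h1 (n % k) h3 (Fin n) (by
    rw [Fintype.card_fin]; exact h2.symm) v
  rw [← maxVol_eq' (by omega) h3, h2] at h4
  exact h4

end Pool.Agent.Work.MP_6cd513_gt
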