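import Pool.Agent.Work.MP_6cd513_gt.LLcell

/-!
# Light groups
-/

open Matrix Finset MeasureTheory

namespace Pool.Agent.Work.MP_6cd513_gt

theorem en_2_1_0 : ENum (77 / 500) (3 / 4) (3717 / 10000) (3041 / 10000) (3099 / 10000) :=
  ⟨by norm_num, by norm_num, by norm_num, by norm_num, by norm_num, by norm_num, by norm_num,
    by norm_num, by norm_num, by norm_num, by norm_num⟩

theorem po_2_1_0_0 {u : ℝ} (h0 : 0 ≤ u) (h1 : u ≤ 27 / 100) :
    u * (1 - u) * (946 / 10000 * (1 - u) + 730 / 10000 * u) * (2 + u) * ((2 + u + 2 * 1) * (5 * (2 + u) - 2 * 1))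
      ≤ 3093 / 10000 * (2 + u - 1) * (175 / 1000 * ((2 + u + 2 * 1) * (5 * (2 + u) - 2 * 1))
        - 7704 / 10000 * ((2 + u) * (2 + u - 1))) := by
  have p := sub_nonneg.2 h0
  have q := sub_nonneg.2 h1
  linarith [mul_nonneg (pow_nonneg p 0) (pow_nonneg q 6), mul_nonneg (pow_nonneg p 1) (pow_nonneg q 5), mul_nonneg (pow_nonneg p 2) (pow_nonneg q 4), mul_nonneg (pow_nonneg p 3) (pow_nonneg q 3), mul_nonneg (pow_nonneg p 4) (pow_nonneg q 2), mul_nonneg (pow_nonneg p 5) (pow_nonneg q 1), mul_nonneg (pow_nonneg p 6) (pow_nonneg q 0)]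

theorem po_2_1_0_1 {u : ℝ} (h0 : 27 / 100 ≤ u) (h1 : u ≤ 81 / 200) :
    u * (1 - u) * (946 / 10000 * (1 - u) + 730 / 10000 * u) * (2 + u) * ((2 + u + 2 * 1) * (5 * (2 + u) - 2 * 1))
      ≤ 3093 / 10000 * (2 + u - 1) * (175 / 1000 * ((2 + u + 2 * 1) * (5 * (2 + u) - 2 * 1))
        - 7704 / 10000 * ((2 + u) * (2 + u - 1))) := by
  have p := sub_nonneg.2 h0
  have q := sub_nonneg.2 h1
  linarith [mul_nonneg (pow_nonneg p 0) (pow_nonneg q 6), mul_nonneg (pow_nonneg p 1) (pow_nonneg q 5), mul_nonneg (pow_nonneg p 2) (pow_nonneg q 4), mul_nonneg (pow_nonneg p 3) (pow_nonneg q 3), mul_nonneg (pow_nonneg p 4) (pow_nonneg q 2), mul_nonneg (pow_nonneg p 5) (pow_nonneg q 1), mul_nonneg (pow_nonneg p 6) (pow_nonneg q 0)]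

theorem po_2_1_0_2 {u : ℝ} (h0 : 81 / 200 ≤ u) (h1 : u ≤ 59 / 125) :
    u * (1 - u) * (946 / 10000 * (1 - u) + 730 / 10000 * u) * (2 + u) * ((2 + u + 2 * 1) * (5 * (2 + u) - 2 * 1))
      ≤ 3093 / 10000 * (2 + u - 1) * (175 / 1000 * ((2 + u + 2 * 1) * (5 * (2 + u) - 2 * 1))
        - 7704 / 10000 * ((2 + u) * (2 + u - 1))) := by
  have p := sub_nonneg.2 h0
  have q := sub_nonneg.2 h1
  linarith [mul_nonneg (pow_nonneg p 0) (pow_nonneg q 6), mul_nonneg (pow_nonneg p 1) (pow_nonneg q 5), mul_nonneg (pow_nonneg p 2) (pow_nonneg q 4), mul_nonneg (pow_nonneg p 3) (pow_nonneg q 3), mul_nonneg (pow_nonneg p 4) (pow_nonneg q 2), mul_nonneg (pow_nonneg p 5) (pow_nonneg q 1), mul_nonneg (pow_nonneg p 6) (pow_nonneg q 0)]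

theorem po_2_1_0_3 {u : ℝ} (h0 : 59 / 125 ≤ u) (h1 : u ≤ 27 / 50) :
    u * (1 - u) * (946 / 10000 * (1 - u) + 730 / 10000 * u) * (2 + u) * ((2 + u + 2 * 1) * (5 * (2 + u) - 2 * 1))
      ≤ 3093 / 10000 * (2 + u - 1) * (175 / 1000 * ((2 + u + 2 * 1) * (5 * (2 + u) - 2 * 1))
        - 7704 / 10000 * ((2 + u) * (2 + u - 1))) := by
  have p := sub_nonneg.2 h0
  have q := sub_nonneg.2 h1
  linarith [mul_nonneg (pow_nonneg p 0) (pow_nonneg q 6), mul_nonneg (pow_nonneg p 1) (pow_nonneg q 5), mul_nonneg (pow_nonneg p 2) (pow_nonneg q 4), mul_nonneg (pow_nonneg p 3) (pow_nonneg q 3), mul_nonneg (pow_nonneg p 4) (pow_nonneg q 2), mul_nonneg (pow_nonneg p 5) (pow_nonneg q 1), mul_nonneg (pow_nonneg p 6) (pow_nonneg q 0)]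

theorem po_2_1_0 {u : ℝ} (h0 : 0 ≤ u) (h1 : u ≤ 27 / 50) :
    u * (1 - u) * (946 / 10000 * (1 - u) + 730 / 10000 * u) * (2 + u) * ((2 + u + 2 * 1) * (5 * (2 + u) - 2 * 1))
      ≤ 3093 / 10000 * (2 + u - 1) * (175 / 1000 * ((2 + u + 2 * 1) * (5 * (2 + u) - 2 * 1))
        - 7704 / 10000 * ((2 + u) * (2 + u - 1))) := by
  rcases le_total u (27 / 100) with f0 | g0
  · exact po_2_1_0_0 h0 f0
  rcases le_total u (81 / 200) with f1 | g1
  · exact po_2_1_0_1 g0 f1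
  rcases le_total u (59 / 125) with f2 | g2
  · exact po_2_1_0_2 g1 f2
  exact po_2_1_0_3 g2 h1

theorem en_2_1_1 : ENum (19 / 125) (3 / 4) (46 / 125) (3003 / 10000) (607 / 2000) :=
  ⟨by norm_num, by norm_num, by norm_num, by norm_num, by norm_num, by norm_num, by norm_num,
    by norm_num, by norm_num, by norm_num, by norm_num⟩

theorem po_2_1_1_0 {u : ℝ} (h0 : 27 / 50 ≤ u) (h1 : u ≤ 57 / 100) :
    u * (1 - u) * (946 / 10000 * (1 - u) + 730 / 10000 * u) * (2 + u) * ((2 + u + 2 * 1) * (5 * (2 + u) - 2 * 1))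
      ≤ 1511 / 5000 * (2 + u - 1) * (175 / 1000 * ((2 + u + 2 * 1) * (5 * (2 + u) - 2 * 1))
        - 7704 / 10000 * ((2 + u) * (2 + u - 1))) := by
  have p := sub_nonneg.2 h0
  have q := sub_nonneg.2 h1
  linarith [mul_nonneg (pow_nonneg p 0) (pow_nonneg q 6), mul_nonneg (pow_nonneg p 1) (pow_nonneg q 5), mul_nonneg (pow_nonneg p 2) (pow_nonneg q 4), mul_nonneg (pow_nonneg p 3) (pow_nonneg q 3), mul_nonneg (pow_nonneg p 4) (pow_nonneg q 2), mul_nonneg (pow_nonneg p 5) (pow_nonneg q 1), mul_nonneg (pow_nonneg p 6) (pow_nonneg q 0)]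

theorem po_2_1_1 {u : ℝ} (h0 : 27 / 50 ≤ u) (h1 : u ≤ 57 / 100) :
    u * (1 - u) * (946 / 10000 * (1 - u) + 730 / 10000 * u) * (2 + u) * ((2 + u + 2 * 1) * (5 * (2 + u) - 2 * 1))
      ≤ 1511 / 5000 * (2 + u - 1) * (175 / 1000 * ((2 + u + 2 * 1) * (5 * (2 + u) - 2 * 1))
        - 7704 / 10000 * ((2 + u) * (2 + u - 1))) := by
  exact po_2_1_1_0 h0 h1

theorem en_2_1_2 : ENum (149 / 1000) (3 / 4) (3631 / 10000) (2953 / 10000) (59 / 200) :=
  ⟨by norm_num, by norm_num, by norm_num, by norm_num, by norm_num, by norm_num, by norm_num,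
    by norm_num, by norm_num, by norm_num, by norm_num⟩

theorem po_2_1_2_0 {u : ℝ} (h0 : 57 / 100 ≤ u) (h1 : u ≤ 61 / 100) :
    u * (1 - u) * (946 / 10000 * (1 - u) + 730 / 10000 * u) * (2 + u) * ((2 + u + 2 * 1) * (5 * (2 + u) - 2 * 1))
      ≤ 1473 / 5000 * (2 + u - 1) * (175 / 1000 * ((2 + u + 2 * 1) * (5 * (2 + u) - 2 * 1))
        - 7704 / 10000 * ((2 + u) * (2 + u - 1))) := by
  have p := sub_nonneg.2 h0
  have q := sub_nonneg.2 h1
  linarith [mul_nonneg (pow_nonneg p 0) (pow_nonneg q 6), mul_nonneg (pow_nonneg p 1) (pow_nonneg q 5), mul_nonneg (pow_nonneg p 2) (pow_nonneg q 4), mul_nonneg (pow_nonneg p 3) (pow_nonneg q 3), mul_nonneg (pow_nonneg p 4) (pow_nonneg q 2), mul_nonneg (pow_nonneg p 5) (pow_nonneg q 1), mul_nonneg (pow_nonneg p 6) (pow_nonneg q 0)]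

theorem po_2_1_2 {u : ℝ} (h0 : 57 / 100 ≤ u) (h1 : u ≤ 61 / 100) :
    u * (1 - u) * (946 / 10000 * (1 - u) + 730 / 10000 * u) * (2 + u) * ((2 + u + 2 * 1) * (5 * (2 + u) - 2 * 1))
      ≤ 1473 / 5000 * (2 + u - 1) * (175 / 1000 * ((2 + u + 2 * 1) * (5 * (2 + u) - 2 * 1))
        - 7704 / 10000 * ((2 + u) * (2 + u - 1))) := by
  exact po_2_1_2_0 h0 h1

theorem en_2_1_3 : ENum (29 / 200) (3 / 4) (3561 / 10000) (2879 / 10000) (2827 / 10000) :=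
  ⟨by norm_num, by norm_num, by norm_num, by norm_num, by norm_num, by norm_num, by norm_num,
    by norm_num, by norm_num, by norm_num, by norm_num⟩

theorem po_2_1_3_0 {u : ℝ} (h0 : 61 / 100 ≤ u) (h1 : u ≤ 67 / 100) :
    u * (1 - u) * (946 / 10000 * (1 - u) + 730 / 10000 * u) * (2 + u) * ((2 + u + 2 * 1) * (5 * (2 + u) - 2 * 1))
      ≤ 2823 / 10000 * (2 + u - 1) * (175 / 1000 * ((2 + u + 2 * 1) * (5 * (2 + u) - 2 * 1))
        - 7704 / 10000 * ((2 + u) * (2 + u - 1))) := by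
  have p := sub_nonneg.2 h0
  have q := sub_nonneg.2 h1
  linarith [mul_nonneg (pow_nonneg p 0) (pow_nonneg q 6), mul_nonneg (pow_nonneg p 1) (pow_nonneg q 5), mul_nonneg (pow_nonneg p 2) (pow_nonneg q 4), mul_nonneg (pow_nonneg p 3) (pow_nonneg q 3), mul_nonneg (pow_nonneg p 4) (pow_nonneg q 2), mul_nonneg (pow_nonneg p 5) (pow_nonneg q 1), mul_nonneg (pow_nonneg p 6) (pow_nonneg q 0)]

theorem po_2_1_3 {u : ℝ} (h0 : 61 / 100 ≤ u) (h1 : u ≤ 67 / 100) :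
    u * (1 - u) * (946 / 10000 * (1 - u) + 730 / 10000 * u) * (2 + u) * ((2 + u + 2 * 1) * (5 * (2 + u) - 2 * 1))
      ≤ 2823 / 10000 * (2 + u - 1) * (175 / 1000 * ((2 + u + 2 * 1) * (5 * (2 + u) - 2 * 1))
        - 7704 / 10000 * ((2 + u) * (2 + u - 1))) := by
  exact po_2_1_3_0 h0 h1

theorem en_2_1_4 : ENum (69 / 500) (3 / 4) (137 / 400) (273 / 1000) (2581 / 10000) :=
  ⟨by norm_num, by norm_num, by norm_num, by norm_num, by norm_num, by norm_num, by norm_num,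
    by norm_num, by norm_num, by norm_num, by norm_num⟩

theorem po_2_1_4_0 {u : ℝ} (h0 : 67 / 100 ≤ u) (h1 : u ≤ 21 / 25) :
    u * (1 - u) * (946 / 10000 * (1 - u) + 730 / 10000 * u) * (2 + u) * ((2 + u + 2 * 1) * (5 * (2 + u) - 2 * 1))
      ≤ 161 / 625 * (2 + u - 1) * (175 / 1000 * ((2 + u + 2 * 1) * (5 * (2 + u) - 2 * 1))
        - 7704 / 10000 * ((2 + u) * (2 + u - 1))) := by
  have p := sub_nonneg.2 h0
  have q := sub_nonneg.2 h1
  linarith [mul_nonneg (pow_nonneg p 0) (pow_nonneg q 6), mul_nonneg (pow_nonneg p 1) (pow_nonneg q 5), mul_nonneg (pow_nonneg p 2) (pow_nonneg q 4), mul_nonneg (pow_nonneg p 3) (pow_nonneg q 3), mul_nonneg (pow_nonneg p 4) (pow_nonneg q 2), mul_nonneg (pow_nonneg p 5) (pow_nonneg q 1), mul_nonneg (pow_nonneg p 6) (pow_nonneg q 0)]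

theorem po_2_1_4 {u : ℝ} (h0 : 67 / 100 ≤ u) (h1 : u ≤ 21 / 25) :
    u * (1 - u) * (946 / 10000 * (1 - u) + 730 / 10000 * u) * (2 + u) * ((2 + u + 2 * 1) * (5 * (2 + u) - 2 * 1))
      ≤ 161 / 625 * (2 + u - 1) * (175 / 1000 * ((2 + u + 2 * 1) * (5 * (2 + u) - 2 * 1))
        - 7704 / 10000 * ((2 + u) * (2 + u - 1))) := by
  exact po_2_1_4_0 h0 h1

theorem en_2_1_5 : ENum (33 / 250) (3 / 4) (1 / 3) (1313 / 5000) (2413 / 10000) :=
  ⟨by norm_num, by norm_num, by norm_num, by norm_num, by norm_num, by norm_num, by norm_num,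
    by norm_num, by norm_num, by norm_num, by norm_num⟩

theorem po_2_1_5_0 {u : ℝ} (h0 : 21 / 25 ≤ u) (h1 : u ≤ 1) :
    u * (1 - u) * (946 / 10000 * (1 - u) + 730 / 10000 * u) * (2 + u) * ((2 + u + 2 * 1) * (5 * (2 + u) - 2 * 1))
      ≤ 1949 / 10000 * (2 + u - 1) * (175 / 1000 * ((2 + u + 2 * 1) * (5 * (2 + u) - 2 * 1))
        - 7704 / 10000 * ((2 + u) * (2 + u - 1))) := by
  have p := sub_nonneg.2 h0
  have q := sub_nonneg.2 h1
  linarith [mul_nonneg (pow_nonneg p 0) (pow_nonneg q 6), mul_nonneg (pow_nonneg p 1) (pow_nonneg q 5), mul_nonneg (pow_nonneg p 2) (pow_nonneg q 4), mul_nonneg (pow_nonneg p 3) (pow_nonneg q 3), mul_nonneg (pow_nonneg p 4) (pow_nonneg q 2), mul_nonneg (pow_nonneg p 5) (pow_nonneg q 1), mul_nonneg (pow_nonneg p 6) (pow_nonneg q 0)]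

theorem po_2_1_5 {u : ℝ} (h0 : 21 / 25 ≤ u) (h1 : u ≤ 1) :
    u * (1 - u) * (946 / 10000 * (1 - u) + 730 / 10000 * u) * (2 + u) * ((2 + u + 2 * 1) * (5 * (2 + u) - 2 * 1))
      ≤ 1949 / 10000 * (2 + u - 1) * (175 / 1000 * ((2 + u + 2 * 1) * (5 * (2 + u) - 2 * 1))
        - 7704 / 10000 * ((2 + u) * (2 + u - 1))) := by
  exact po_2_1_5_0 h0 h1

theorem LL_2_1 {k n : ℕ} {v : Fin n → Fin k → ℝ} {s : Fin n → ℝ}
    (M : MaxData k 2 n v s) (hW : Wb k 2 n < Gs v s)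
    (hP : ∀ k' < k, ∀ (N : ℕ) (v' : Fin N → Fin k' → ℝ) (s' : Fin N → ℝ), Gs v' s' ≤ Wb k' 2 N)
    {i j : Fin n} (hx : xx v i j ≠ 1) (hm : (grp v i).card = 1) {u : ℝ}
    (hu : v i ⬝ᵥ v i = 1 / ((((2 : ℕ)) : ℝ) + u)) (hu0 : 0 ≤ u) (hu1 : u ≤ 1) :
    Rv 2 (v i ⬝ᵥ v i) (grp v i).card ≤
      (1 - xx v i j) * (175 / 1000 - 856 / 10000 * c2f (1 - (grp v i).card * (v i ⬝ᵥ v i)) (2 / 3)) := by
  have hB : Bq 2 (((grp v i).card : ℝ) + (grp v j).card) ≤ 3 / 4 := by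
    apply Bq_le_of_sq (M0 := 2) (by norm_num) (by norm_num) _ (by norm_num) (by norm_num)
    have h2 : 1 ≤ (grp v j).card := Finset.card_pos.2 ⟨j, self_mem_grp v j⟩
    have h4 : (1 : ℝ) ≤ (grp v j).card := by exact_mod_cast h2
    rw [hm]
    push_cast
    linarith
  have hF := flog_two hu0 hu1
  rcases le_total u (27 / 50) with f0 | g0
  · refine LL_cell en_2_1_0 M (by norm_num) hW hP hx hu hu0 (by rw [hm]; norm_num) hB (27 / 50)
      (3093 / 10000) (2 + 27 / 50 + 3093 / 10000) _ f0 (Or.inr (by norm_num))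
      (by norm_num) (by norm_num) (by push_cast; exact hF) ?_
    rw [hm]
    push_cast
    have := po_2_1_0 hu0 f0
    linarith
  rcases le_total u (57 / 100) with f1 | g1
  · refine LL_cell en_2_1_1 M (by norm_num) hW hP hx hu hu0 (by rw [hm]; norm_num) hB (57 / 100)
      (1511 / 5000) (2 + 57 / 100 + 1511 / 5000) _ f1 (Or.inr (by norm_num))
      (by norm_num) (by norm_num) (by push_cast; exact hF) ?_
    rw [hm]
    push_cast
    have := po_2_1_1 g0 f1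
    linarith
  rcases le_total u (61 / 100) with f2 | g2
  · refine LL_cell en_2_1_2 M (by norm_num) hW hP hx hu hu0 (by rw [hm]; norm_num) hB (61 / 100)
      (1473 / 5000) (2 + 61 / 100 + 1473 / 5000) _ f2 (Or.inr (by norm_num))
      (by norm_num) (by norm_num) (by push_cast; exact hF) ?_
    rw [hm]
    push_cast
    have := po_2_1_2 g1 f2
    linarith
  rcases le_total u (67 / 100) with f3 | g3
  · refine LL_cell en_2_1_3 M (by norm_num) hW hP hx hu hu0 (by rw [hm]; norm_num) hB (67 / 100)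
      (2823 / 10000) (2 + 67 / 100 + 2823 / 10000) _ f3 (Or.inr (by norm_num))
      (by norm_num) (by norm_num) (by push_cast; exact hF) ?_
    rw [hm]
    push_cast
    have := po_2_1_3 g2 f3
    linarith
  rcases le_total u (21 / 25) with f4 | g4
  · refine LL_cell en_2_1_4 M (by norm_num) hW hP hx hu hu0 (by rw [hm]; norm_num) hB (21 / 25)
      (161 / 625) (2 + 1) _ f4 (Or.inl (by norm_num))
      (by norm_num) (by norm_num) (by push_cast; exact hF) ?_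
    rw [hm]
    push_cast
    have := po_2_1_4 g3 f4
    linarith
  refine LL_cell en_2_1_5 M (by norm_num) hW hP hx hu hu0 (by rw [hm]; norm_num) hB (1)
    (1949 / 10000) (2 + 1) _ hu1 (Or.inl (by norm_num))
    (by norm_num) (by norm_num) (by push_cast; exact hF) ?_
  rw [hm]
  push_cast
  have := po_2_1_5 g4 hu1
  linarith

theorem en_3_1_0 : ENum (11 / 100) (2963 / 5000) (131 / 500) (2193 / 10000) (1751 / 10000) :=
  ⟨by norm_num, by norm_num, by norm_num, by norm_num, by norm_num, by norm_num, by norm_num,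
    by norm_num, by norm_num, by norm_num, by norm_num⟩

theorem po_3_1_0_0 {u : ℝ} (h0 : 0 ≤ u) (h1 : u ≤ 73 / 200) :
    u * (1 - u) * (1 / (3 * (2 * 3 + 1))) * (3 + u) * ((3 + u + 2 * 1) * (5 * (3 + u) - 2 * 1))
      ≤ 109 / 625 * (3 + u - 1) * (175 / 1000 * ((3 + u + 2 * 1) * (5 * (3 + u) - 2 * 1))
        - 7704 / 10000 * ((3 + u) * (3 + u - 1))) := by
  have p := sub_nonneg.2 h0
  have q := sub_nonneg.2 h1
  linarith [mul_nonneg (pow_nonneg p 0) (pow_nonneg q 5), mul_nonneg (pow_nonneg p 1) (pow_nonneg q 4), mul_nonneg (pow_nonneg p 2) (pow_nonneg q 3), mul_nonneg (pow_nonneg p 3) (pow_nonneg q 2), mul_nonneg (pow_nonneg p 4) (pow_nonneg q 1), mul_nonneg (pow_nonneg p 5) (pow_nonneg q 0)]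

theorem po_3_1_0_1 {u : ℝ} (h0 : 73 / 200 ≤ u) (h1 : u ≤ 57 / 125) :
    u * (1 - u) * (1 / (3 * (2 * 3 + 1))) * (3 + u) * ((3 + u + 2 * 1) * (5 * (3 + u) - 2 * 1))
      ≤ 109 / 625 * (3 + u - 1) * (175 / 1000 * ((3 + u + 2 * 1) * (5 * (3 + u) - 2 * 1))
        - 7704 / 10000 * ((3 + u) * (3 + u - 1))) := by
  have p := sub_nonneg.2 h0
  have q := sub_nonneg.2 h1
  linarith [mul_nonneg (pow_nonneg p 0) (pow_nonneg q 5), mul_nonneg (pow_nonneg p 1) (pow_nonneg q 4), mul_nonneg (pow_nonneg p 2) (pow_nonneg q 3), mul_nonneg (pow_nonneg p 3) (pow_nonneg q 2), mul_nonneg (pow_nonneg p 4) (pow_nonneg q 1), mul_nonneg (pow_nonneg p 5) (pow_nonneg q 0)]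

theorem po_3_1_0_2 {u : ℝ} (h0 : 57 / 125 ≤ u) (h1 : u ≤ 137 / 250) :
    u * (1 - u) * (1 / (3 * (2 * 3 + 1))) * (3 + u) * ((3 + u + 2 * 1) * (5 * (3 + u) - 2 * 1))
      ≤ 109 / 625 * (3 + u - 1) * (175 / 1000 * ((3 + u + 2 * 1) * (5 * (3 + u) - 2 * 1))
        - 7704 / 10000 * ((3 + u) * (3 + u - 1))) := by
  have p := sub_nonneg.2 h0
  have q := sub_nonneg.2 h1
  linarith [mul_nonneg (pow_nonneg p 0) (pow_nonneg q 5), mul_nonneg (pow_nonneg p 1) (pow_nonneg q 4), mul_nonneg (pow_nonneg p 2) (pow_nonneg q 3), mul_nonneg (pow_nonneg p 3) (pow_nonneg q 2), mul_nonneg (pow_nonneg p 4) (pow_nonneg q 1), mul_nonneg (pow_nonneg p 5) (pow_nonneg q 0)]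

theorem po_3_1_0_3 {u : ℝ} (h0 : 137 / 250 ≤ u) (h1 : u ≤ 73 / 100) :
    u * (1 - u) * (1 / (3 * (2 * 3 + 1))) * (3 + u) * ((3 + u + 2 * 1) * (5 * (3 + u) - 2 * 1))
      ≤ 109 / 625 * (3 + u - 1) * (175 / 1000 * ((3 + u + 2 * 1) * (5 * (3 + u) - 2 * 1))
        - 7704 / 10000 * ((3 + u) * (3 + u - 1))) := by
  have p := sub_nonneg.2 h0
  have q := sub_nonneg.2 h1
  linarith [mul_nonneg (pow_nonneg p 0) (pow_nonneg q 5), mul_nonneg (pow_nonneg p 1) (pow_nonneg q 4), mul_nonneg (pow_nonneg p 2) (pow_nonneg q 3), mul_nonneg (pow_nonneg p 3) (pow_nonneg q 2), mul_nonneg (pow_nonneg p 4) (pow_nonneg q 1), mul_nonneg (pow_nonneg p 5) (pow_nonneg q 0)]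

theorem po_3_1_0 {u : ℝ} (h0 : 0 ≤ u) (h1 : u ≤ 73 / 100) :
    u * (1 - u) * (1 / (3 * (2 * 3 + 1))) * (3 + u) * ((3 + u + 2 * 1) * (5 * (3 + u) - 2 * 1))
      ≤ 109 / 625 * (3 + u - 1) * (175 / 1000 * ((3 + u + 2 * 1) * (5 * (3 + u) - 2 * 1))
        - 7704 / 10000 * ((3 + u) * (3 + u - 1))) := by
  rcases le_total u (73 / 200) with f0 | g0
  · exact po_3_1_0_0 h0 f0
  rcases le_total u (57 / 125) with f1 | g1
  · exact po_3_1_0_1 g0 f1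
  rcases le_total u (137 / 250) with f2 | g2
  · exact po_3_1_0_2 g1 f2
  exact po_3_1_0_3 g2 h1

theorem en_3_1_1 : ENum (101 / 1000) (2963 / 5000) (1 / 4) (2021 / 10000) (377 / 2500) :=
  ⟨by norm_num, by norm_num, by norm_num, by norm_num, by norm_num, by norm_num, by norm_num,
    by norm_num, by norm_num, by norm_num, by norm_num⟩

theorem po_3_1_1_0 {u : ℝ} (h0 : 73 / 100 ≤ u) (h1 : u ≤ 1) :
    u * (1 - u) * (1 / (3 * (2 * 3 + 1))) * (3 + u) * ((3 + u + 2 * 1) * (5 * (3 + u) - 2 * 1))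
      ≤ 289 / 2000 * (3 + u - 1) * (175 / 1000 * ((3 + u + 2 * 1) * (5 * (3 + u) - 2 * 1))
        - 7704 / 10000 * ((3 + u) * (3 + u - 1))) := by
  have p := sub_nonneg.2 h0
  have q := sub_nonneg.2 h1
  linarith [mul_nonneg (pow_nonneg p 0) (pow_nonneg q 5), mul_nonneg (pow_nonneg p 1) (pow_nonneg q 4), mul_nonneg (pow_nonneg p 2) (pow_nonneg q 3), mul_nonneg (pow_nonneg p 3) (pow_nonneg q 2), mul_nonneg (pow_nonneg p 4) (pow_nonneg q 1), mul_nonneg (pow_nonneg p 5) (pow_nonneg q 0)]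

theorem po_3_1_1 {u : ℝ} (h0 : 73 / 100 ≤ u) (h1 : u ≤ 1) :
    u * (1 - u) * (1 / (3 * (2 * 3 + 1))) * (3 + u) * ((3 + u + 2 * 1) * (5 * (3 + u) - 2 * 1))
      ≤ 289 / 2000 * (3 + u - 1) * (175 / 1000 * ((3 + u + 2 * 1) * (5 * (3 + u) - 2 * 1))
        - 7704 / 10000 * ((3 + u) * (3 + u - 1))) := by
  exact po_3_1_1_0 h0 h1

theorem LL_3_1 {k n : ℕ} {v : Fin n → Fin k → ℝ} {s : Fin n → ℝ}
    (M : MaxData k 3 n v s) (hW : Wb k 3 n < Gs v s)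
    (hP : ∀ k' < k, ∀ (N : ℕ) (v' : Fin N → Fin k' → ℝ) (s' : Fin N → ℝ), Gs v' s' ≤ Wb k' 3 N)
    {i j : Fin n} (hx : xx v i j ≠ 1) (hm : (grp v i).card = 1) {u : ℝ}
    (hu : v i ⬝ᵥ v i = 1 / ((((3 : ℕ)) : ℝ) + u)) (hu0 : 0 ≤ u) (hu1 : u ≤ 1) :
    Rv 3 (v i ⬝ᵥ v i) (grp v i).card ≤
      (1 - xx v i j) * (175 / 1000 - 856 / 10000 * c2f (1 - (grp v i).card * (v i ⬝ᵥ v i)) (2 / 3)) := by
  have hB : Bq 3 (((grp v i).card : ℝ) + (grp v j).card) ≤ 2963 / 5000 := by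
    apply Bq_le_of_sq (M0 := 2) (by norm_num) (by norm_num) _ (by norm_num) (by norm_num)
    have h2 : 1 ≤ (grp v j).card := Finset.card_pos.2 ⟨j, self_mem_grp v j⟩
    have h4 : (1 : ℝ) ≤ (grp v j).card := by exact_mod_cast h2
    rw [hm]
    push_cast
    linarith
  have hF := flog_gen (l := 3) (by norm_num) hu0 hu1
  rcases le_total u (73 / 100) with f0 | g0
  · refine LL_cell en_3_1_0 M (by norm_num) hW hP hx hu hu0 (by rw [hm]; norm_num) hB (73 / 100)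
      (109 / 625) (3 + 73 / 100 + 109 / 625) _ f0 (Or.inr (by norm_num))
      (by norm_num) (by norm_num) (by push_cast; exact hF) ?_
    rw [hm]
    push_cast
    have := po_3_1_0 hu0 f0
    linarith
  refine LL_cell en_3_1_1 M (by norm_num) hW hP hx hu hu0 (by rw [hm]; norm_num) hB (1)
    (289 / 2000) (3 + 1) _ hu1 (Or.inl (by norm_num))
    (by norm_num) (by norm_num) (by push_cast; exact hF) ?_
  rw [hm]
  push_cast
  have := po_3_1_1 g0 hu1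
  linarith

theorem en_3_2_0 : ENum (121 / 1000) (5133 / 10000) (2569 / 10000) (2413 / 10000) (2079 / 10000) :=
  ⟨by norm_num, by norm_num, by norm_num, by norm_num, by norm_num, by norm_num, by norm_num,
    by norm_num, by norm_num, by norm_num, by norm_num⟩

theorem po_3_2_0_0 {u : ℝ} (h0 : 0 ≤ u) (h1 : u ≤ 79 / 200) :
    u * (1 - u) * (1 / (3 * (2 * 3 + 1))) * (3 + u) * ((3 + u + 2 * 2) * (5 * (3 + u) - 2 * 2))
      ≤ 259 / 1250 * (3 + u - 2) * (175 / 1000 * ((3 + u + 2 * 2) * (5 * (3 + u) - 2 * 2))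
        - 7704 / 10000 * ((3 + u) * (3 + u - 2))) := by
  have p := sub_nonneg.2 h0
  have q := sub_nonneg.2 h1
  linarith [mul_nonneg (pow_nonneg p 0) (pow_nonneg q 5), mul_nonneg (pow_nonneg p 1) (pow_nonneg q 4), mul_nonneg (pow_nonneg p 2) (pow_nonneg q 3), mul_nonneg (pow_nonneg p 3) (pow_nonneg q 2), mul_nonneg (pow_nonneg p 4) (pow_nonneg q 1), mul_nonneg (pow_nonneg p 5) (pow_nonneg q 0)]

theorem po_3_2_0_1 {u : ℝ} (h0 : 79 / 200 ≤ u) (h1 : u ≤ 247 / 500) :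
    u * (1 - u) * (1 / (3 * (2 * 3 + 1))) * (3 + u) * ((3 + u + 2 * 2) * (5 * (3 + u) - 2 * 2))
      ≤ 259 / 1250 * (3 + u - 2) * (175 / 1000 * ((3 + u + 2 * 2) * (5 * (3 + u) - 2 * 2))
        - 7704 / 10000 * ((3 + u) * (3 + u - 2))) := by
  have p := sub_nonneg.2 h0
  have q := sub_nonneg.2 h1
  linarith [mul_nonneg (pow_nonneg p 0) (pow_nonneg q 5), mul_nonneg (pow_nonneg p 1) (pow_nonneg q 4), mul_nonneg (pow_nonneg p 2) (pow_nonneg q 3), mul_nonneg (pow_nonneg p 3) (pow_nonneg q 2), mul_nonneg (pow_nonneg p 4) (pow_nonneg q 1), mul_nonneg (pow_nonneg p 5) (pow_nonneg q 0)]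

theorem po_3_2_0_2 {u : ℝ} (h0 : 247 / 500 ≤ u) (h1 : u ≤ 74 / 125) :
    u * (1 - u) * (1 / (3 * (2 * 3 + 1))) * (3 + u) * ((3 + u + 2 * 2) * (5 * (3 + u) - 2 * 2))
      ≤ 259 / 1250 * (3 + u - 2) * (175 / 1000 * ((3 + u + 2 * 2) * (5 * (3 + u) - 2 * 2))
        - 7704 / 10000 * ((3 + u) * (3 + u - 2))) := by
  have p := sub_nonneg.2 h0
  have q := sub_nonneg.2 h1
  linarith [mul_nonneg (pow_nonneg p 0) (pow_nonneg q 5), mul_nonneg (pow_nonneg p 1) (pow_nonneg q 4), mul_nonneg (pow_nonneg p 2) (pow_nonneg q 3), mul_nonneg (pow_nonneg p 3) (pow_nonneg q 2), mul_nonneg (pow_nonneg p 4) (pow_nonneg q 1), mul_nonneg (pow_nonneg p 5) (pow_nonneg q 0)]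

theorem po_3_2_0_3 {u : ℝ} (h0 : 74 / 125 ≤ u) (h1 : u ≤ 79 / 100) :
    u * (1 - u) * (1 / (3 * (2 * 3 + 1))) * (3 + u) * ((3 + u + 2 * 2) * (5 * (3 + u) - 2 * 2))
      ≤ 259 / 1250 * (3 + u - 2) * (175 / 1000 * ((3 + u + 2 * 2) * (5 * (3 + u) - 2 * 2))
        - 7704 / 10000 * ((3 + u) * (3 + u - 2))) := by
  have p := sub_nonneg.2 h0
  have q := sub_nonneg.2 h1
  linarith [mul_nonneg (pow_nonneg p 0) (pow_nonneg q 5), mul_nonneg (pow_nonneg p 1) (pow_nonneg q 4), mul_nonneg (pow_nonneg p 2) (pow_nonneg q 3), mul_nonneg (pow_nonneg p 3) (pow_nonneg q 2), mul_nonneg (pow_nonneg p 4) (pow_nonneg q 1), mul_nonneg (pow_nonneg p 5) (pow_nonneg q 0)]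

theorem po_3_2_0 {u : ℝ} (h0 : 0 ≤ u) (h1 : u ≤ 79 / 100) :
    u * (1 - u) * (1 / (3 * (2 * 3 + 1))) * (3 + u) * ((3 + u + 2 * 2) * (5 * (3 + u) - 2 * 2))
      ≤ 259 / 1250 * (3 + u - 2) * (175 / 1000 * ((3 + u + 2 * 2) * (5 * (3 + u) - 2 * 2))
        - 7704 / 10000 * ((3 + u) * (3 + u - 2))) := by
  rcases le_total u (79 / 200) with f0 | g0
  · exact po_3_2_0_0 h0 f0
  rcases le_total u (247 / 500) with f1 | g1
  · exact po_3_2_0_1 g0 f1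
  rcases le_total u (74 / 125) with f2 | g2
  · exact po_3_2_0_2 g1 f2
  exact po_3_2_0_3 g2 h1

theorem en_3_2_1 : ENum (29 / 250) (5133 / 10000) (1 / 4) (144 / 625) (957 / 5000) :=
  ⟨by norm_num, by norm_num, by norm_num, by norm_num, by norm_num, by norm_num, by norm_num,
    by norm_num, by norm_num, by norm_num, by norm_num⟩

theorem po_3_2_1_0 {u : ℝ} (h0 : 79 / 100 ≤ u) (h1 : u ≤ 1) :
    u * (1 - u) * (1 / (3 * (2 * 3 + 1))) * (3 + u) * ((3 + u + 2 * 2) * (5 * (3 + u) - 2 * 2))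
      ≤ 4 / 25 * (3 + u - 2) * (175 / 1000 * ((3 + u + 2 * 2) * (5 * (3 + u) - 2 * 2))
        - 7704 / 10000 * ((3 + u) * (3 + u - 2))) := by
  have p := sub_nonneg.2 h0
  have q := sub_nonneg.2 h1
  linarith [mul_nonneg (pow_nonneg p 0) (pow_nonneg q 5), mul_nonneg (pow_nonneg p 1) (pow_nonneg q 4), mul_nonneg (pow_nonneg p 2) (pow_nonneg q 3), mul_nonneg (pow_nonneg p 3) (pow_nonneg q 2), mul_nonneg (pow_nonneg p 4) (pow_nonneg q 1), mul_nonneg (pow_nonneg p 5) (pow_nonneg q 0)]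

theorem po_3_2_1 {u : ℝ} (h0 : 79 / 100 ≤ u) (h1 : u ≤ 1) :
    u * (1 - u) * (1 / (3 * (2 * 3 + 1))) * (3 + u) * ((3 + u + 2 * 2) * (5 * (3 + u) - 2 * 2))
      ≤ 4 / 25 * (3 + u - 2) * (175 / 1000 * ((3 + u + 2 * 2) * (5 * (3 + u) - 2 * 2))
        - 7704 / 10000 * ((3 + u) * (3 + u - 2))) := by
  exact po_3_2_1_0 h0 h1

theorem LL_3_2 {k n : ℕ} {v : Fin n → Fin k → ℝ} {s : Fin n → ℝ}
    (M : MaxData k 3 n v s) (hW : Wb k 3 n < Gs v s)
    (hP : ∀ k' < k, ∀ (N : ℕ) (v' : Fin N → Fin k' → ℝ) (s' : Fin N → ℝ), Gs v' s' ≤ Wb k' 3 N)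
    {i j : Fin n} (hx : xx v i j ≠ 1) (hm : (grp v i).card = 2) {u : ℝ}
    (hu : v i ⬝ᵥ v i = 1 / ((((3 : ℕ)) : ℝ) + u)) (hu0 : 0 ≤ u) (hu1 : u ≤ 1) :
    Rv 3 (v i ⬝ᵥ v i) (grp v i).card ≤
      (1 - xx v i j) * (175 / 1000 - 856 / 10000 * c2f (1 - (grp v i).card * (v i ⬝ᵥ v i)) (2 / 3)) := by
  have hB : Bq 3 (((grp v i).card : ℝ) + (grp v j).card) ≤ 5133 / 10000 := by
    apply Bq_le_of_sq (M0 := 3) (by norm_num) (by norm_num) _ (by norm_num) (by norm_num)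
    have h2 : 1 ≤ (grp v j).card := Finset.card_pos.2 ⟨j, self_mem_grp v j⟩
    have h4 : (1 : ℝ) ≤ (grp v j).card := by exact_mod_cast h2
    rw [hm]
    push_cast
    linarith
  have hF := flog_gen (l := 3) (by norm_num) hu0 hu1
  rcases le_total u (79 / 100) with f0 | g0
  · refine LL_cell en_3_2_0 M (by norm_num) hW hP hx hu hu0 (by rw [hm]; norm_num) hB (79 / 100)
      (259 / 1250) (3 + 79 / 100 + 259 / 1250) _ f0 (Or.inr (by norm_num))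
      (by norm_num) (by norm_num) (by push_cast; exact hF) ?_
    rw [hm]
    push_cast
    have := po_3_2_0 hu0 f0
    linarith
  refine LL_cell en_3_2_1 M (by norm_num) hW hP hx hu hu0 (by rw [hm]; norm_num) hB (1)
    (4 / 25) (3 + 1) _ hu1 (Or.inl (by norm_num))
    (by norm_num) (by norm_num) (by push_cast; exact hF) ?_
  rw [hm]
  push_cast
  have := po_3_2_1 g0 hu1
  linarith

theorem en_4_1_0 : ENum (21 / 250) (4883 / 10000) (2047 / 10000) (421 / 2500) (67 / 625) :=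
  ⟨by norm_num, by norm_num, by norm_num, by norm_num, by norm_num, by norm_num, by norm_num,
    by norm_num, by norm_num, by norm_num, by norm_num⟩

theorem po_4_1_0_0 {u : ℝ} (h0 : 0 ≤ u) (h1 : u ≤ 83 / 200) :
    u * (1 - u) * (1 / (4 * (2 * 4 + 1))) * (4 + u) * ((4 + u + 2 * 1) * (5 * (4 + u) - 2 * 1))
      ≤ 267 / 2500 * (4 + u - 1) * (175 / 1000 * ((4 + u + 2 * 1) * (5 * (4 + u) - 2 * 1))
        - 7704 / 10000 * ((4 + u) * (4 + u - 1))) := by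
  have p := sub_nonneg.2 h0
  have q := sub_nonneg.2 h1
  linarith [mul_nonneg (pow_nonneg p 0) (pow_nonneg q 5), mul_nonneg (pow_nonneg p 1) (pow_nonneg q 4), mul_nonneg (pow_nonneg p 2) (pow_nonneg q 3), mul_nonneg (pow_nonneg p 3) (pow_nonneg q 2), mul_nonneg (pow_nonneg p 4) (pow_nonneg q 1), mul_nonneg (pow_nonneg p 5) (pow_nonneg q 0)]

theorem po_4_1_0_1 {u : ℝ} (h0 : 83 / 200 ≤ u) (h1 : u ≤ 259 / 500) :
    u * (1 - u) * (1 / (4 * (2 * 4 + 1))) * (4 + u) * ((4 + u + 2 * 1) * (5 * (4 + u) - 2 * 1))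
      ≤ 267 / 2500 * (4 + u - 1) * (175 / 1000 * ((4 + u + 2 * 1) * (5 * (4 + u) - 2 * 1))
        - 7704 / 10000 * ((4 + u) * (4 + u - 1))) := by
  have p := sub_nonneg.2 h0
  have q := sub_nonneg.2 h1
  linarith [mul_nonneg (pow_nonneg p 0) (pow_nonneg q 5), mul_nonneg (pow_nonneg p 1) (pow_nonneg q 4), mul_nonneg (pow_nonneg p 2) (pow_nonneg q 3), mul_nonneg (pow_nonneg p 3) (pow_nonneg q 2), mul_nonneg (pow_nonneg p 4) (pow_nonneg q 1), mul_nonneg (pow_nonneg p 5) (pow_nonneg q 0)]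

theorem po_4_1_0_2 {u : ℝ} (h0 : 259 / 500 ≤ u) (h1 : u ≤ 311 / 500) :
    u * (1 - u) * (1 / (4 * (2 * 4 + 1))) * (4 + u) * ((4 + u + 2 * 1) * (5 * (4 + u) - 2 * 1))
      ≤ 267 / 2500 * (4 + u - 1) * (175 / 1000 * ((4 + u + 2 * 1) * (5 * (4 + u) - 2 * 1))
        - 7704 / 10000 * ((4 + u) * (4 + u - 1))) := by
  have p := sub_nonneg.2 h0
  have q := sub_nonneg.2 h1
  linarith [mul_nonneg (pow_nonneg p 0) (pow_nonneg q 5), mul_nonneg (pow_nonneg p 1) (pow_nonneg q 4), mul_nonneg (pow_nonneg p 2) (pow_nonneg q 3), mul_nonneg (pow_nonneg p 3) (pow_nonneg q 2), mul_nonneg (pow_nonneg p 4) (pow_nonneg q 1), mul_nonneg (pow_nonneg p 5) (pow_nonneg q 0)]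

theorem po_4_1_0_3 {u : ℝ} (h0 : 311 / 500 ≤ u) (h1 : u ≤ 83 / 100) :
    u * (1 - u) * (1 / (4 * (2 * 4 + 1))) * (4 + u) * ((4 + u + 2 * 1) * (5 * (4 + u) - 2 * 1))
      ≤ 267 / 2500 * (4 + u - 1) * (175 / 1000 * ((4 + u + 2 * 1) * (5 * (4 + u) - 2 * 1))
        - 7704 / 10000 * ((4 + u) * (4 + u - 1))) := by
  have p := sub_nonneg.2 h0
  have q := sub_nonneg.2 h1
  linarith [mul_nonneg (pow_nonneg p 0) (pow_nonneg q 5), mul_nonneg (pow_nonneg p 1) (pow_nonneg q 4), mul_nonneg (pow_nonneg p 2) (pow_nonneg q 3), mul_nonneg (pow_nonneg p 3) (pow_nonneg q 2), mul_nonneg (pow_nonneg p 4) (pow_nonneg q 1), mul_nonneg (pow_nonneg p 5) (pow_nonneg q 0)]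

theorem po_4_1_0 {u : ℝ} (h0 : 0 ≤ u) (h1 : u ≤ 83 / 100) :
    u * (1 - u) * (1 / (4 * (2 * 4 + 1))) * (4 + u) * ((4 + u + 2 * 1) * (5 * (4 + u) - 2 * 1))
      ≤ 267 / 2500 * (4 + u - 1) * (175 / 1000 * ((4 + u + 2 * 1) * (5 * (4 + u) - 2 * 1))
        - 7704 / 10000 * ((4 + u) * (4 + u - 1))) := by
  rcases le_total u (83 / 200) with f0 | g0
  · exact po_4_1_0_0 h0 f0
  rcases le_total u (259 / 500) with f1 | g1
  · exact po_4_1_0_1 g0 f1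
  rcases le_total u (311 / 500) with f2 | g2
  · exact po_4_1_0_2 g1 f2
  exact po_4_1_0_3 g2 h1

theorem en_4_1_1 : ENum (81 / 1000) (4883 / 10000) (1 / 5) (1611 / 10000) (493 / 5000) :=
  ⟨by norm_num, by norm_num, by norm_num, by norm_num, by norm_num, by norm_num, by norm_num,
    by norm_num, by norm_num, by norm_num, by norm_num⟩

theorem po_4_1_1_0 {u : ℝ} (h0 : 83 / 100 ≤ u) (h1 : u ≤ 1) :
    u * (1 - u) * (1 / (4 * (2 * 4 + 1))) * (4 + u) * ((4 + u + 2 * 1) * (5 * (4 + u) - 2 * 1))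
      ≤ 799 / 10000 * (4 + u - 1) * (175 / 1000 * ((4 + u + 2 * 1) * (5 * (4 + u) - 2 * 1))
        - 7704 / 10000 * ((4 + u) * (4 + u - 1))) := by
  have p := sub_nonneg.2 h0
  have q := sub_nonneg.2 h1
  linarith [mul_nonneg (pow_nonneg p 0) (pow_nonneg q 5), mul_nonneg (pow_nonneg p 1) (pow_nonneg q 4), mul_nonneg (pow_nonneg p 2) (pow_nonneg q 3), mul_nonneg (pow_nonneg p 3) (pow_nonneg q 2), mul_nonneg (pow_nonneg p 4) (pow_nonneg q 1), mul_nonneg (pow_nonneg p 5) (pow_nonneg q 0)]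

theorem po_4_1_1 {u : ℝ} (h0 : 83 / 100 ≤ u) (h1 : u ≤ 1) :
    u * (1 - u) * (1 / (4 * (2 * 4 + 1))) * (4 + u) * ((4 + u + 2 * 1) * (5 * (4 + u) - 2 * 1))
      ≤ 799 / 10000 * (4 + u - 1) * (175 / 1000 * ((4 + u + 2 * 1) * (5 * (4 + u) - 2 * 1))
        - 7704 / 10000 * ((4 + u) * (4 + u - 1))) := by
  exact po_4_1_1_0 h0 h1

theorem LL_4_1 {k n : ℕ} {v : Fin n → Fin k → ℝ} {s : Fin n → ℝ}
    (M : MaxData k 4 n v s) (hW : Wb k 4 n < Gs v s)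
    (hP : ∀ k' < k, ∀ (N : ℕ) (v' : Fin N → Fin k' → ℝ) (s' : Fin N → ℝ), Gs v' s' ≤ Wb k' 4 N)
    {i j : Fin n} (hx : xx v i j ≠ 1) (hm : (grp v i).card = 1) {u : ℝ}
    (hu : v i ⬝ᵥ v i = 1 / ((((4 : ℕ)) : ℝ) + u)) (hu0 : 0 ≤ u) (hu1 : u ≤ 1) :
    Rv 4 (v i ⬝ᵥ v i) (grp v i).card ≤
      (1 - xx v i j) * (175 / 1000 - 856 / 10000 * c2f (1 - (grp v i).card * (v i ⬝ᵥ v i)) (2 / 3)) := by
  have hB : Bq 4 (((grp v i).card : ℝ) + (grp v j).card) ≤ 4883 / 10000 := by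
    apply Bq_le_of_sq (M0 := 2) (by norm_num) (by norm_num) _ (by norm_num) (by norm_num)
    have h2 : 1 ≤ (grp v j).card := Finset.card_pos.2 ⟨j, self_mem_grp v j⟩
    have h4 : (1 : ℝ) ≤ (grp v j).card := by exact_mod_cast h2
    rw [hm]
    push_cast
    linarith
  have hF := flog_gen (l := 4) (by norm_num) hu0 hu1
  rcases le_total u (83 / 100) with f0 | g0
  · refine LL_cell en_4_1_0 M (by norm_num) hW hP hx hu hu0 (by rw [hm]; norm_num) hB (83 / 100)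
      (267 / 2500) (4 + 83 / 100 + 267 / 2500) _ f0 (Or.inr (by norm_num))
      (by norm_num) (by norm_num) (by push_cast; exact hF) ?_
    rw [hm]
    push_cast
    have := po_4_1_0 hu0 f0
    linarith
  refine LL_cell en_4_1_1 M (by norm_num) hW hP hx hu hu0 (by rw [hm]; norm_num) hB (1)
    (799 / 10000) (4 + 1) _ hu1 (Or.inl (by norm_num))
    (by norm_num) (by norm_num) (by push_cast; exact hF) ?_
  rw [hm]
  push_cast
  have := po_4_1_1 g0 hu1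
  linarith

theorem en_4_2_0 : ENum (9 / 100) (273 / 625) (1 / 5) (359 / 2000) (1209 / 10000) :=
  ⟨by norm_num, by norm_num, by norm_num, by norm_num, by norm_num, by norm_num, by norm_num,
    by norm_num, by norm_num, by norm_num, by norm_num⟩

theorem po_4_2_0_0 {u : ℝ} (h0 : 0 ≤ u) (h1 : u ≤ 1 / 2) :
    u * (1 - u) * (1 / (4 * (2 * 4 + 1))) * (4 + u) * ((4 + u + 2 * 2) * (5 * (4 + u) - 2 * 2))
      ≤ 563 / 5000 * (4 + u - 2) * (175 / 1000 * ((4 + u + 2 * 2) * (5 * (4 + u) - 2 * 2))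
        - 7704 / 10000 * ((4 + u) * (4 + u - 2))) := by
  have p := sub_nonneg.2 h0
  have q := sub_nonneg.2 h1
  linarith [mul_nonneg (pow_nonneg p 0) (pow_nonneg q 5), mul_nonneg (pow_nonneg p 1) (pow_nonneg q 4), mul_nonneg (pow_nonneg p 2) (pow_nonneg q 3), mul_nonneg (pow_nonneg p 3) (pow_nonneg q 2), mul_nonneg (pow_nonneg p 4) (pow_nonneg q 1), mul_nonneg (pow_nonneg p 5) (pow_nonneg q 0)]

theorem po_4_2_0_1 {u : ℝ} (h0 : 1 / 2 ≤ u) (h1 : u ≤ 1) :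
    u * (1 - u) * (1 / (4 * (2 * 4 + 1))) * (4 + u) * ((4 + u + 2 * 2) * (5 * (4 + u) - 2 * 2))
      ≤ 563 / 5000 * (4 + u - 2) * (175 / 1000 * ((4 + u + 2 * 2) * (5 * (4 + u) - 2 * 2))
        - 7704 / 10000 * ((4 + u) * (4 + u - 2))) := by
  have p := sub_nonneg.2 h0
  have q := sub_nonneg.2 h1
  linarith [mul_nonneg (pow_nonneg p 0) (pow_nonneg q 5), mul_nonneg (pow_nonneg p 1) (pow_nonneg q 4), mul_nonneg (pow_nonneg p 2) (pow_nonneg q 3), mul_nonneg (pow_nonneg p 3) (pow_nonneg q 2), mul_nonneg (pow_nonneg p 4) (pow_nonneg q 1), mul_nonneg (pow_nonneg p 5) (pow_nonneg q 0)]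

theorem po_4_2_0 {u : ℝ} (h0 : 0 ≤ u) (h1 : u ≤ 1) :
    u * (1 - u) * (1 / (4 * (2 * 4 + 1))) * (4 + u) * ((4 + u + 2 * 2) * (5 * (4 + u) - 2 * 2))
      ≤ 563 / 5000 * (4 + u - 2) * (175 / 1000 * ((4 + u + 2 * 2) * (5 * (4 + u) - 2 * 2))
        - 7704 / 10000 * ((4 + u) * (4 + u - 2))) := by
  rcases le_total u (1 / 2) with f0 | g0
  · exact po_4_2_0_0 h0 f0
  exact po_4_2_0_1 g0 h1

theorem LL_4_2 {k n : ℕ} {v : Fin n → Fin k → ℝ} {s : Fin n → ℝ}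
    (M : MaxData k 4 n v s) (hW : Wb k 4 n < Gs v s)
    (hP : ∀ k' < k, ∀ (N : ℕ) (v' : Fin N → Fin k' → ℝ) (s' : Fin N → ℝ), Gs v' s' ≤ Wb k' 4 N)
    {i j : Fin n} (hx : xx v i j ≠ 1) (hm : (grp v i).card = 2) {u : ℝ}
    (hu : v i ⬝ᵥ v i = 1 / ((((4 : ℕ)) : ℝ) + u)) (hu0 : 0 ≤ u) (hu1 : u ≤ 1) :
    Rv 4 (v i ⬝ᵥ v i) (grp v i).card ≤
      (1 - xx v i j) * (175 / 1000 - 856 / 10000 * c2f (1 - (grp v i).card * (v i ⬝ᵥ v i)) (2 / 3)) := by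
  have hB : Bq 4 (((grp v i).card : ℝ) + (grp v j).card) ≤ 273 / 625 := by
    apply Bq_le_of_sq (M0 := 3) (by norm_num) (by norm_num) _ (by norm_num) (by norm_num)
    have h2 : 1 ≤ (grp v j).card := Finset.card_pos.2 ⟨j, self_mem_grp v j⟩
    have h4 : (1 : ℝ) ≤ (grp v j).card := by exact_mod_cast h2
    rw [hm]
    push_cast
    linarith
  have hF := flog_gen (l := 4) (by norm_num) hu0 hu1
  refine LL_cell en_4_2_0 M (by norm_num) hW hP hx hu hu0 (by rw [hm]; norm_num) hB (1)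
    (563 / 5000) (4 + 1) _ hu1 (Or.inl (by norm_num))
    (by norm_num) (by norm_num) (by push_cast; exact hF) ?_
  rw [hm]
  push_cast
  have := po_4_2_0 hu0 hu1
  linarith

theorem en_4_3_0 : ENum (1 / 10) (3907 / 10000) (1 / 5) (1997 / 10000) (59 / 400) :=
  ⟨by norm_num, by norm_num, by norm_num, by norm_num, by norm_num, by norm_num, by norm_num,
    by norm_num, by norm_num, by norm_num, by norm_num⟩

theorem po_4_3_0_0 {u : ℝ} (h0 : 0 ≤ u) (h1 : u ≤ 1 / 4) :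
    u * (1 - u) * (1 / (4 * (2 * 4 + 1))) * (4 + u) * ((4 + u + 2 * 3) * (5 * (4 + u) - 2 * 3))
      ≤ 731 / 5000 * (4 + u - 3) * (175 / 1000 * ((4 + u + 2 * 3) * (5 * (4 + u) - 2 * 3))
        - 7704 / 10000 * ((4 + u) * (4 + u - 3))) := by
  have p := sub_nonneg.2 h0
  have q := sub_nonneg.2 h1
  linarith [mul_nonneg (pow_nonneg p 0) (pow_nonneg q 5), mul_nonneg (pow_nonneg p 1) (pow_nonneg q 4), mul_nonneg (pow_nonneg p 2) (pow_nonneg q 3), mul_nonneg (pow_nonneg p 3) (pow_nonneg q 2), mul_nonneg (pow_nonneg p 4) (pow_nonneg q 1), mul_nonneg (pow_nonneg p 5) (pow_nonneg q 0)]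

theorem po_4_3_0_1 {u : ℝ} (h0 : 1 / 4 ≤ u) (h1 : u ≤ 3 / 8) :
    u * (1 - u) * (1 / (4 * (2 * 4 + 1))) * (4 + u) * ((4 + u + 2 * 3) * (5 * (4 + u) - 2 * 3))
      ≤ 731 / 5000 * (4 + u - 3) * (175 / 1000 * ((4 + u + 2 * 3) * (5 * (4 + u) - 2 * 3))
        - 7704 / 10000 * ((4 + u) * (4 + u - 3))) := by
  have p := sub_nonneg.2 h0
  have q := sub_nonneg.2 h1
  linarith [mul_nonneg (pow_nonneg p 0) (pow_nonneg q 5), mul_nonneg (pow_nonneg p 1) (pow_nonneg q 4), mul_nonneg (pow_nonneg p 2) (pow_nonneg q 3), mul_nonneg (pow_nonneg p 3) (pow_nonneg q 2), mul_nonneg (pow_nonneg p 4) (pow_nonneg q 1), mul_nonneg (pow_nonneg p 5) (pow_nonneg q 0)]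

theorem po_4_3_0_2 {u : ℝ} (h0 : 3 / 8 ≤ u) (h1 : u ≤ 1 / 2) :
    u * (1 - u) * (1 / (4 * (2 * 4 + 1))) * (4 + u) * ((4 + u + 2 * 3) * (5 * (4 + u) - 2 * 3))
      ≤ 731 / 5000 * (4 + u - 3) * (175 / 1000 * ((4 + u + 2 * 3) * (5 * (4 + u) - 2 * 3))
        - 7704 / 10000 * ((4 + u) * (4 + u - 3))) := by
  have p := sub_nonneg.2 h0
  have q := sub_nonneg.2 h1
  linarith [mul_nonneg (pow_nonneg p 0) (pow_nonneg q 5), mul_nonneg (pow_nonneg p 1) (pow_nonneg q 4), mul_nonneg (pow_nonneg p 2) (pow_nonneg q 3), mul_nonneg (pow_nonneg p 3) (pow_nonneg q 2), mul_nonneg (pow_nonneg p 4) (pow_nonneg q 1), mul_nonneg (pow_nonneg p 5) (pow_nonneg q 0)]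

theorem po_4_3_0_3 {u : ℝ} (h0 : 1 / 2 ≤ u) (h1 : u ≤ 1) :
    u * (1 - u) * (1 / (4 * (2 * 4 + 1))) * (4 + u) * ((4 + u + 2 * 3) * (5 * (4 + u) - 2 * 3))
      ≤ 731 / 5000 * (4 + u - 3) * (175 / 1000 * ((4 + u + 2 * 3) * (5 * (4 + u) - 2 * 3))
        - 7704 / 10000 * ((4 + u) * (4 + u - 3))) := by
  have p := sub_nonneg.2 h0
  have q := sub_nonneg.2 h1
  linarith [mul_nonneg (pow_nonneg p 0) (pow_nonneg q 5), mul_nonneg (pow_nonneg p 1) (pow_nonneg q 4), mul_nonneg (pow_nonneg p 2) (pow_nonneg q 3), mul_nonneg (pow_nonneg p 3) (pow_nonneg q 2), mul_nonneg (pow_nonneg p 4) (pow_nonneg q 1), mul_nonneg (pow_nonneg p 5) (pow_nonneg q 0)]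

theorem po_4_3_0 {u : ℝ} (h0 : 0 ≤ u) (h1 : u ≤ 1) :
    u * (1 - u) * (1 / (4 * (2 * 4 + 1))) * (4 + u) * ((4 + u + 2 * 3) * (5 * (4 + u) - 2 * 3))
      ≤ 731 / 5000 * (4 + u - 3) * (175 / 1000 * ((4 + u + 2 * 3) * (5 * (4 + u) - 2 * 3))
        - 7704 / 10000 * ((4 + u) * (4 + u - 3))) := by
  rcases le_total u (1 / 4) with f0 | g0
  · exact po_4_3_0_0 h0 f0
  rcases le_total u (3 / 8) with f1 | g1
  · exact po_4_3_0_1 g0 f1
  rcases le_total u (1 / 2) with f2 | g2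
  · exact po_4_3_0_2 g1 f2
  exact po_4_3_0_3 g2 h1

theorem LL_4_3 {k n : ℕ} {v : Fin n → Fin k → ℝ} {s : Fin n → ℝ}
    (M : MaxData k 4 n v s) (hW : Wb k 4 n < Gs v s)
    (hP : ∀ k' < k, ∀ (N : ℕ) (v' : Fin N → Fin k' → ℝ) (s' : Fin N → ℝ), Gs v' s' ≤ Wb k' 4 N)
    {i j : Fin n} (hx : xx v i j ≠ 1) (hm : (grp v i).card = 3) {u : ℝ}
    (hu : v i ⬝ᵥ v i = 1 / ((((4 : ℕ)) : ℝ) + u)) (hu0 : 0 ≤ u) (hu1 : u ≤ 1) :
    Rv 4 (v i ⬝ᵥ v i) (grp v i).card ≤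
      (1 - xx v i j) * (175 / 1000 - 856 / 10000 * c2f (1 - (grp v i).card * (v i ⬝ᵥ v i)) (2 / 3)) := by
  have hB : Bq 4 (((grp v i).card : ℝ) + (grp v j).card) ≤ 3907 / 10000 := by
    apply Bq_le_of_sq (M0 := 4) (by norm_num) (by norm_num) _ (by norm_num) (by norm_num)
    have h2 : 1 ≤ (grp v j).card := Finset.card_pos.2 ⟨j, self_mem_grp v j⟩
    have h4 : (1 : ℝ) ≤ (grp v j).card := by exact_mod_cast h2
    rw [hm]
    push_cast
    linarith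
  have hF := flog_gen (l := 4) (by norm_num) hu0 hu1
  refine LL_cell en_4_3_0 M (by norm_num) hW hP hx hu hu0 (by rw [hm]; norm_num) hB (1)
    (731 / 5000) (4 + 1) _ hu1 (Or.inl (by norm_num))
    (by norm_num) (by norm_num) (by push_cast; exact hF) ?_
  rw [hm]
  push_cast
  have := po_4_3_0 hu0 hu1
  linarith

theorem en_5_1_0 : ENum (7 / 100) (1037 / 2500) (213 / 1250) (1389 / 10000) (371 / 5000) :=
  ⟨by norm_num, by norm_num, by norm_num, by norm_num, by norm_num, by norm_num, by norm_num,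
    by norm_num, by norm_num, by norm_num, by norm_num⟩

theorem po_5_1_0_0 {u : ℝ} (h0 : 0 ≤ u) (h1 : u ≤ 83 / 200) :
    u * (1 - u) * (1 / (5 * (2 * 5 + 1))) * (5 + u) * ((5 + u + 2 * 1) * (5 * (5 + u) - 2 * 1))
      ≤ 37 / 500 * (5 + u - 1) * (175 / 1000 * ((5 + u + 2 * 1) * (5 * (5 + u) - 2 * 1))
        - 7704 / 10000 * ((5 + u) * (5 + u - 1))) := by
  have p := sub_nonneg.2 h0
  have q := sub_nonneg.2 h1
  linarith [mul_nonneg (pow_nonneg p 0) (pow_nonneg q 5), mul_nonneg (pow_nonneg p 1) (pow_nonneg q 4), mul_nonneg (pow_nonneg p 2) (pow_nonneg q 3), mul_nonneg (pow_nonneg p 3) (pow_nonneg q 2), mul_nonneg (pow_nonneg p 4) (pow_nonneg q 1), mul_nonneg (pow_nonneg p 5) (pow_nonneg q 0)]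

theorem po_5_1_0_1 {u : ℝ} (h0 : 83 / 200 ≤ u) (h1 : u ≤ 259 / 500) :
    u * (1 - u) * (1 / (5 * (2 * 5 + 1))) * (5 + u) * ((5 + u + 2 * 1) * (5 * (5 + u) - 2 * 1))
      ≤ 37 / 500 * (5 + u - 1) * (175 / 1000 * ((5 + u + 2 * 1) * (5 * (5 + u) - 2 * 1))
        - 7704 / 10000 * ((5 + u) * (5 + u - 1))) := by
  have p := sub_nonneg.2 h0
  have q := sub_nonneg.2 h1
  linarith [mul_nonneg (pow_nonneg p 0) (pow_nonneg q 5), mul_nonneg (pow_nonneg p 1) (pow_nonneg q 4), mul_nonneg (pow_nonneg p 2) (pow_nonneg q 3), mul_nonneg (pow_nonneg p 3) (pow_nonneg q 2), mul_nonneg (pow_nonneg p 4) (pow_nonneg q 1), mul_nonneg (pow_nonneg p 5) (pow_nonneg q 0)]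

theorem po_5_1_0_2 {u : ℝ} (h0 : 259 / 500 ≤ u) (h1 : u ≤ 311 / 500) :
    u * (1 - u) * (1 / (5 * (2 * 5 + 1))) * (5 + u) * ((5 + u + 2 * 1) * (5 * (5 + u) - 2 * 1))
      ≤ 37 / 500 * (5 + u - 1) * (175 / 1000 * ((5 + u + 2 * 1) * (5 * (5 + u) - 2 * 1))
        - 7704 / 10000 * ((5 + u) * (5 + u - 1))) := by
  have p := sub_nonneg.2 h0
  have q := sub_nonneg.2 h1
  linarith [mul_nonneg (pow_nonneg p 0) (pow_nonneg q 5), mul_nonneg (pow_nonneg p 1) (pow_nonneg q 4), mul_nonneg (pow_nonneg p 2) (pow_nonneg q 3), mul_nonneg (pow_nonneg p 3) (pow_nonneg q 2), mul_nonneg (pow_nonneg p 4) (pow_nonneg q 1), mul_nonneg (pow_nonneg p 5) (pow_nonneg q 0)]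

theorem po_5_1_0_3 {u : ℝ} (h0 : 311 / 500 ≤ u) (h1 : u ≤ 83 / 100) :
    u * (1 - u) * (1 / (5 * (2 * 5 + 1))) * (5 + u) * ((5 + u + 2 * 1) * (5 * (5 + u) - 2 * 1))
      ≤ 37 / 500 * (5 + u - 1) * (175 / 1000 * ((5 + u + 2 * 1) * (5 * (5 + u) - 2 * 1))
        - 7704 / 10000 * ((5 + u) * (5 + u - 1))) := by
  have p := sub_nonneg.2 h0
  have q := sub_nonneg.2 h1
  linarith [mul_nonneg (pow_nonneg p 0) (pow_nonneg q 5), mul_nonneg (pow_nonneg p 1) (pow_nonneg q 4), mul_nonneg (pow_nonneg p 2) (pow_nonneg q 3), mul_nonneg (pow_nonneg p 3) (pow_nonneg q 2), mul_nonneg (pow_nonneg p 4) (pow_nonneg q 1), mul_nonneg (pow_nonneg p 5) (pow_nonneg q 0)]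

theorem po_5_1_0 {u : ℝ} (h0 : 0 ≤ u) (h1 : u ≤ 83 / 100) :
    u * (1 - u) * (1 / (5 * (2 * 5 + 1))) * (5 + u) * ((5 + u + 2 * 1) * (5 * (5 + u) - 2 * 1))
      ≤ 37 / 500 * (5 + u - 1) * (175 / 1000 * ((5 + u + 2 * 1) * (5 * (5 + u) - 2 * 1))
        - 7704 / 10000 * ((5 + u) * (5 + u - 1))) := by
  rcases le_total u (83 / 200) with f0 | g0
  · exact po_5_1_0_0 h0 f0
  rcases le_total u (259 / 500) with f1 | g1
  · exact po_5_1_0_1 g0 f1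
  rcases le_total u (311 / 500) with f2 | g2
  · exact po_5_1_0_2 g1 f2
  exact po_5_1_0_3 g2 h1

theorem en_5_1_1 : ENum (67 / 1000) (1037 / 2500) (1 / 6) (133 / 1000) (683 / 10000) :=
  ⟨by norm_num, by norm_num, by norm_num, by norm_num, by norm_num, by norm_num, by norm_num,
    by norm_num, by norm_num, by norm_num, by norm_num⟩

theorem po_5_1_1_0 {u : ℝ} (h0 : 83 / 100 ≤ u) (h1 : u ≤ 1) :
    u * (1 - u) * (1 / (5 * (2 * 5 + 1))) * (5 + u) * ((5 + u + 2 * 1) * (5 * (5 + u) - 2 * 1))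
      ≤ 277 / 5000 * (5 + u - 1) * (175 / 1000 * ((5 + u + 2 * 1) * (5 * (5 + u) - 2 * 1))
        - 7704 / 10000 * ((5 + u) * (5 + u - 1))) := by
  have p := sub_nonneg.2 h0
  have q := sub_nonneg.2 h1
  linarith [mul_nonneg (pow_nonneg p 0) (pow_nonneg q 5), mul_nonneg (pow_nonneg p 1) (pow_nonneg q 4), mul_nonneg (pow_nonneg p 2) (pow_nonneg q 3), mul_nonneg (pow_nonneg p 3) (pow_nonneg q 2), mul_nonneg (pow_nonneg p 4) (pow_nonneg q 1), mul_nonneg (pow_nonneg p 5) (pow_nonneg q 0)]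

theorem po_5_1_1 {u : ℝ} (h0 : 83 / 100 ≤ u) (h1 : u ≤ 1) :
    u * (1 - u) * (1 / (5 * (2 * 5 + 1))) * (5 + u) * ((5 + u + 2 * 1) * (5 * (5 + u) - 2 * 1))
      ≤ 277 / 5000 * (5 + u - 1) * (175 / 1000 * ((5 + u + 2 * 1) * (5 * (5 + u) - 2 * 1))
        - 7704 / 10000 * ((5 + u) * (5 + u - 1))) := by
  exact po_5_1_1_0 h0 h1

theorem LL_5_1 {k n : ℕ} {v : Fin n → Fin k → ℝ} {s : Fin n → ℝ}
    (M : MaxData k 5 n v s) (hW : Wb k 5 n < Gs v s)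
    (hP : ∀ k' < k, ∀ (N : ℕ) (v' : Fin N → Fin k' → ℝ) (s' : Fin N → ℝ), Gs v' s' ≤ Wb k' 5 N)
    {i j : Fin n} (hx : xx v i j ≠ 1) (hm : (grp v i).card = 1) {u : ℝ}
    (hu : v i ⬝ᵥ v i = 1 / ((((5 : ℕ)) : ℝ) + u)) (hu0 : 0 ≤ u) (hu1 : u ≤ 1) :
    Rv 5 (v i ⬝ᵥ v i) (grp v i).card ≤
      (1 - xx v i j) * (175 / 1000 - 856 / 10000 * c2f (1 - (grp v i).card * (v i ⬝ᵥ v i)) (2 / 3)) := by
  have hB : Bq 5 (((grp v i).card : ℝ) + (grp v j).card) ≤ 1037 / 2500 := by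
    apply Bq_le_of_sq (M0 := 2) (by norm_num) (by norm_num) _ (by norm_num) (by norm_num)
    have h2 : 1 ≤ (grp v j).card := Finset.card_pos.2 ⟨j, self_mem_grp v j⟩
    have h4 : (1 : ℝ) ≤ (grp v j).card := by exact_mod_cast h2
    rw [hm]
    push_cast
    linarith
  have hF := flog_gen (l := 5) (by norm_num) hu0 hu1
  rcases le_total u (83 / 100) with f0 | g0
  · refine LL_cell en_5_1_0 M (by norm_num) hW hP hx hu hu0 (by rw [hm]; norm_num) hB (83 / 100)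
      (37 / 500) (5 + 83 / 100 + 37 / 500) _ f0 (Or.inr (by norm_num))
      (by norm_num) (by norm_num) (by push_cast; exact hF) ?_
    rw [hm]
    push_cast
    have := po_5_1_0 hu0 f0
    linarith
  refine LL_cell en_5_1_1 M (by norm_num) hW hP hx hu hu0 (by rw [hm]; norm_num) hB (1)
    (277 / 5000) (5 + 1) _ hu1 (Or.inl (by norm_num))
    (by norm_num) (by norm_num) (by push_cast; exact hF) ?_
  rw [hm]
  push_cast
  have := po_5_1_1 g0 hu1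
  linarith

theorem en_5_2_0 : ENum (73 / 1000) (1893 / 5000) (1 / 6) (91 / 625) (813 / 10000) :=
  ⟨by norm_num, by norm_num, by norm_num, by norm_num, by norm_num, by norm_num, by norm_num,
    by norm_num, by norm_num, by norm_num, by norm_num⟩

theorem po_5_2_0_0 {u : ℝ} (h0 : 0 ≤ u) (h1 : u ≤ 1 / 2) :
    u * (1 - u) * (1 / (5 * (2 * 5 + 1))) * (5 + u) * ((5 + u + 2 * 2) * (5 * (5 + u) - 2 * 2))
      ≤ 147 / 2000 * (5 + u - 2) * (175 / 1000 * ((5 + u + 2 * 2) * (5 * (5 + u) - 2 * 2))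
        - 7704 / 10000 * ((5 + u) * (5 + u - 2))) := by
  have p := sub_nonneg.2 h0
  have q := sub_nonneg.2 h1
  linarith [mul_nonneg (pow_nonneg p 0) (pow_nonneg q 5), mul_nonneg (pow_nonneg p 1) (pow_nonneg q 4), mul_nonneg (pow_nonneg p 2) (pow_nonneg q 3), mul_nonneg (pow_nonneg p 3) (pow_nonneg q 2), mul_nonneg (pow_nonneg p 4) (pow_nonneg q 1), mul_nonneg (pow_nonneg p 5) (pow_nonneg q 0)]

theorem po_5_2_0_1 {u : ℝ} (h0 : 1 / 2 ≤ u) (h1 : u ≤ 1) :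
    u * (1 - u) * (1 / (5 * (2 * 5 + 1))) * (5 + u) * ((5 + u + 2 * 2) * (5 * (5 + u) - 2 * 2))
      ≤ 147 / 2000 * (5 + u - 2) * (175 / 1000 * ((5 + u + 2 * 2) * (5 * (5 + u) - 2 * 2))
        - 7704 / 10000 * ((5 + u) * (5 + u - 2))) := by
  have p := sub_nonneg.2 h0
  have q := sub_nonneg.2 h1
  linarith [mul_nonneg (pow_nonneg p 0) (pow_nonneg q 5), mul_nonneg (pow_nonneg p 1) (pow_nonneg q 4), mul_nonneg (pow_nonneg p 2) (pow_nonneg q 3), mul_nonneg (pow_nonneg p 3) (pow_nonneg q 2), mul_nonneg (pow_nonneg p 4) (pow_nonneg q 1), mul_nonneg (pow_nonneg p 5) (pow_nonneg q 0)]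

theorem po_5_2_0 {u : ℝ} (h0 : 0 ≤ u) (h1 : u ≤ 1) :
    u * (1 - u) * (1 / (5 * (2 * 5 + 1))) * (5 + u) * ((5 + u + 2 * 2) * (5 * (5 + u) - 2 * 2))
      ≤ 147 / 2000 * (5 + u - 2) * (175 / 1000 * ((5 + u + 2 * 2) * (5 * (5 + u) - 2 * 2))
        - 7704 / 10000 * ((5 + u) * (5 + u - 2))) := by
  rcases le_total u (1 / 2) with f0 | g0
  · exact po_5_2_0_0 h0 f0
  exact po_5_2_0_1 g0 h1

theorem LL_5_2 {k n : ℕ} {v : Fin n → Fin k → ℝ} {s : Fin n → ℝ}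
    (M : MaxData k 5 n v s) (hW : Wb k 5 n < Gs v s)
    (hP : ∀ k' < k, ∀ (N : ℕ) (v' : Fin N → Fin k' → ℝ) (s' : Fin N → ℝ), Gs v' s' ≤ Wb k' 5 N)
    {i j : Fin n} (hx : xx v i j ≠ 1) (hm : (grp v i).card = 2) {u : ℝ}
    (hu : v i ⬝ᵥ v i = 1 / ((((5 : ℕ)) : ℝ) + u)) (hu0 : 0 ≤ u) (hu1 : u ≤ 1) :
    Rv 5 (v i ⬝ᵥ v i) (grp v i).card ≤
      (1 - xx v i j) * (175 / 1000 - 856 / 10000 * c2f (1 - (grp v i).card * (v i ⬝ᵥ v i)) (2 / 3)) := by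
  have hB : Bq 5 (((grp v i).card : ℝ) + (grp v j).card) ≤ 1893 / 5000 := by
    apply Bq_le_of_sq (M0 := 3) (by norm_num) (by norm_num) _ (by norm_num) (by norm_num)
    have h2 : 1 ≤ (grp v j).card := Finset.card_pos.2 ⟨j, self_mem_grp v j⟩
    have h4 : (1 : ℝ) ≤ (grp v j).card := by exact_mod_cast h2
    rw [hm]
    push_cast
    linarith
  have hF := flog_gen (l := 5) (by norm_num) hu0 hu1
  refine LL_cell en_5_2_0 M (by norm_num) hW hP hx hu hu0 (by rw [hm]; norm_num) hB (1)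
    (147 / 2000) (5 + 1) _ hu1 (Or.inl (by norm_num))
    (by norm_num) (by norm_num) (by push_cast; exact hF) ?_
  rw [hm]
  push_cast
  have := po_5_2_0 hu0 hu1
  linarith

theorem en_5_3_0 : ENum (2 / 25) (216 / 625) (1 / 6) (1593 / 10000) (193 / 2000) :=
  ⟨by norm_num, by norm_num, by norm_num, by norm_num, by norm_num, by norm_num, by norm_num,
    by norm_num, by norm_num, by norm_num, by norm_num⟩

theorem po_5_3_0_0 {u : ℝ} (h0 : 0 ≤ u) (h1 : u ≤ 1 / 2) :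
    u * (1 - u) * (1 / (5 * (2 * 5 + 1))) * (5 + u) * ((5 + u + 2 * 3) * (5 * (5 + u) - 2 * 3))
      ≤ 861 / 10000 * (5 + u - 3) * (175 / 1000 * ((5 + u + 2 * 3) * (5 * (5 + u) - 2 * 3))
        - 7704 / 10000 * ((5 + u) * (5 + u - 3))) := by
  have p := sub_nonneg.2 h0
  have q := sub_nonneg.2 h1
  linarith [mul_nonneg (pow_nonneg p 0) (pow_nonneg q 5), mul_nonneg (pow_nonneg p 1) (pow_nonneg q 4), mul_nonneg (pow_nonneg p 2) (pow_nonneg q 3), mul_nonneg (pow_nonneg p 3) (pow_nonneg q 2), mul_nonneg (pow_nonneg p 4) (pow_nonneg q 1), mul_nonneg (pow_nonneg p 5) (pow_nonneg q 0)]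

theorem po_5_3_0_1 {u : ℝ} (h0 : 1 / 2 ≤ u) (h1 : u ≤ 1) :
    u * (1 - u) * (1 / (5 * (2 * 5 + 1))) * (5 + u) * ((5 + u + 2 * 3) * (5 * (5 + u) - 2 * 3))
      ≤ 861 / 10000 * (5 + u - 3) * (175 / 1000 * ((5 + u + 2 * 3) * (5 * (5 + u) - 2 * 3))
        - 7704 / 10000 * ((5 + u) * (5 + u - 3))) := by
  have p := sub_nonneg.2 h0
  have q := sub_nonneg.2 h1
  linarith [mul_nonneg (pow_nonneg p 0) (pow_nonneg q 5), mul_nonneg (pow_nonneg p 1) (pow_nonneg q 4), mul_nonneg (pow_nonneg p 2) (pow_nonneg q 3), mul_nonneg (pow_nonneg p 3) (pow_nonneg q 2), mul_nonneg (pow_nonneg p 4) (pow_nonneg q 1), mul_nonneg (pow_nonneg p 5) (pow_nonneg q 0)]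

theorem po_5_3_0 {u : ℝ} (h0 : 0 ≤ u) (h1 : u ≤ 1) :
    u * (1 - u) * (1 / (5 * (2 * 5 + 1))) * (5 + u) * ((5 + u + 2 * 3) * (5 * (5 + u) - 2 * 3))
      ≤ 861 / 10000 * (5 + u - 3) * (175 / 1000 * ((5 + u + 2 * 3) * (5 * (5 + u) - 2 * 3))
        - 7704 / 10000 * ((5 + u) * (5 + u - 3))) := by
  rcases le_total u (1 / 2) with f0 | g0
  · exact po_5_3_0_0 h0 f0
  exact po_5_3_0_1 g0 h1

theorem LL_5_3 {k n : ℕ} {v : Fin n → Fin k → ℝ} {s : Fin n → ℝ}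
    (M : MaxData k 5 n v s) (hW : Wb k 5 n < Gs v s)
    (hP : ∀ k' < k, ∀ (N : ℕ) (v' : Fin N → Fin k' → ℝ) (s' : Fin N → ℝ), Gs v' s' ≤ Wb k' 5 N)
    {i j : Fin n} (hx : xx v i j ≠ 1) (hm : (grp v i).card = 3) {u : ℝ}
    (hu : v i ⬝ᵥ v i = 1 / ((((5 : ℕ)) : ℝ) + u)) (hu0 : 0 ≤ u) (hu1 : u ≤ 1) :
    Rv 5 (v i ⬝ᵥ v i) (grp v i).card ≤
      (1 - xx v i j) * (175 / 1000 - 856 / 10000 * c2f (1 - (grp v i).card * (v i ⬝ᵥ v i)) (2 / 3)) := by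
  have hB : Bq 5 (((grp v i).card : ℝ) + (grp v j).card) ≤ 216 / 625 := by
    apply Bq_le_of_sq (M0 := 4) (by norm_num) (by norm_num) _ (by norm_num) (by norm_num)
    have h2 : 1 ≤ (grp v j).card := Finset.card_pos.2 ⟨j, self_mem_grp v j⟩
    have h4 : (1 : ℝ) ≤ (grp v j).card := by exact_mod_cast h2
    rw [hm]
    push_cast
    linarith
  have hF := flog_gen (l := 5) (by norm_num) hu0 hu1
  refine LL_cell en_5_3_0 M (by norm_num) hW hP hx hu hu0 (by rw [hm]; norm_num) hB (1)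
    (861 / 10000) (5 + 1) _ hu1 (Or.inl (by norm_num))
    (by norm_num) (by norm_num) (by push_cast; exact hF) ?_
  rw [hm]
  push_cast
  have := po_5_3_0 hu0 hu1
  linarith

theorem en_5_4_0 : ENum (87 / 1000) (631 / 2000) (1 / 6) (871 / 5000) (1143 / 10000) :=
  ⟨by norm_num, by norm_num, by norm_num, by norm_num, by norm_num, by norm_num, by norm_num,
    by norm_num, by norm_num, by norm_num, by norm_num⟩

theorem po_5_4_0_0 {u : ℝ} (h0 : 0 ≤ u) (h1 : u ≤ 1 / 4) :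
    u * (1 - u) * (1 / (5 * (2 * 5 + 1))) * (5 + u) * ((5 + u + 2 * 4) * (5 * (5 + u) - 2 * 4))
      ≤ 113 / 1000 * (5 + u - 4) * (175 / 1000 * ((5 + u + 2 * 4) * (5 * (5 + u) - 2 * 4))
        - 7704 / 10000 * ((5 + u) * (5 + u - 4))) := by
  have p := sub_nonneg.2 h0
  have q := sub_nonneg.2 h1
  linarith [mul_nonneg (pow_nonneg p 0) (pow_nonneg q 5), mul_nonneg (pow_nonneg p 1) (pow_nonneg q 4), mul_nonneg (pow_nonneg p 2) (pow_nonneg q 3), mul_nonneg (pow_nonneg p 3) (pow_nonneg q 2), mul_nonneg (pow_nonneg p 4) (pow_nonneg q 1), mul_nonneg (pow_nonneg p 5) (pow_nonneg q 0)]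

theorem po_5_4_0_1 {u : ℝ} (h0 : 1 / 4 ≤ u) (h1 : u ≤ 1 / 2) :
    u * (1 - u) * (1 / (5 * (2 * 5 + 1))) * (5 + u) * ((5 + u + 2 * 4) * (5 * (5 + u) - 2 * 4))
      ≤ 113 / 1000 * (5 + u - 4) * (175 / 1000 * ((5 + u + 2 * 4) * (5 * (5 + u) - 2 * 4))
        - 7704 / 10000 * ((5 + u) * (5 + u - 4))) := by
  have p := sub_nonneg.2 h0
  have q := sub_nonneg.2 h1
  linarith [mul_nonneg (pow_nonneg p 0) (pow_nonneg q 5), mul_nonneg (pow_nonneg p 1) (pow_nonneg q 4), mul_nonneg (pow_nonneg p 2) (pow_nonneg q 3), mul_nonneg (pow_nonneg p 3) (pow_nonneg q 2), mul_nonneg (pow_nonneg p 4) (pow_nonneg q 1), mul_nonneg (pow_nonneg p 5) (pow_nonneg q 0)]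

theorem po_5_4_0_2 {u : ℝ} (h0 : 1 / 2 ≤ u) (h1 : u ≤ 1) :
    u * (1 - u) * (1 / (5 * (2 * 5 + 1))) * (5 + u) * ((5 + u + 2 * 4) * (5 * (5 + u) - 2 * 4))
      ≤ 113 / 1000 * (5 + u - 4) * (175 / 1000 * ((5 + u + 2 * 4) * (5 * (5 + u) - 2 * 4))
        - 7704 / 10000 * ((5 + u) * (5 + u - 4))) := by
  have p := sub_nonneg.2 h0
  have q := sub_nonneg.2 h1
  linarith [mul_nonneg (pow_nonneg p 0) (pow_nonneg q 5), mul_nonneg (pow_nonneg p 1) (pow_nonneg q 4), mul_nonneg (pow_nonneg p 2) (pow_nonneg q 3), mul_nonneg (pow_nonneg p 3) (pow_nonneg q 2), mul_nonneg (pow_nonneg p 4) (pow_nonneg q 1), mul_nonneg (pow_nonneg p 5) (pow_nonneg q 0)]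

theorem po_5_4_0 {u : ℝ} (h0 : 0 ≤ u) (h1 : u ≤ 1) :
    u * (1 - u) * (1 / (5 * (2 * 5 + 1))) * (5 + u) * ((5 + u + 2 * 4) * (5 * (5 + u) - 2 * 4))
      ≤ 113 / 1000 * (5 + u - 4) * (175 / 1000 * ((5 + u + 2 * 4) * (5 * (5 + u) - 2 * 4))
        - 7704 / 10000 * ((5 + u) * (5 + u - 4))) := by
  rcases le_total u (1 / 4) with f0 | g0
  · exact po_5_4_0_0 h0 f0
  rcases le_total u (1 / 2) with f1 | g1
  · exact po_5_4_0_1 g0 f1
  exact po_5_4_0_2 g1 h1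

theorem LL_5_4 {k n : ℕ} {v : Fin n → Fin k → ℝ} {s : Fin n → ℝ}
    (M : MaxData k 5 n v s) (hW : Wb k 5 n < Gs v s)
    (hP : ∀ k' < k, ∀ (N : ℕ) (v' : Fin N → Fin k' → ℝ) (s' : Fin N → ℝ), Gs v' s' ≤ Wb k' 5 N)
    {i j : Fin n} (hx : xx v i j ≠ 1) (hm : (grp v i).card = 4) {u : ℝ}
    (hu : v i ⬝ᵥ v i = 1 / ((((5 : ℕ)) : ℝ) + u)) (hu0 : 0 ≤ u) (hu1 : u ≤ 1) :
    Rv 5 (v i ⬝ᵥ v i) (grp v i).card ≤
      (1 - xx v i j) * (175 / 1000 - 856 / 10000 * c2f (1 - (grp v i).card * (v i ⬝ᵥ v i)) (2 / 3)) := by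
  have hB : Bq 5 (((grp v i).card : ℝ) + (grp v j).card) ≤ 631 / 2000 := by
    apply Bq_le_of_sq (M0 := 5) (by norm_num) (by norm_num) _ (by norm_num) (by norm_num)
    have h2 : 1 ≤ (grp v j).card := Finset.card_pos.2 ⟨j, self_mem_grp v j⟩
    have h4 : (1 : ℝ) ≤ (grp v j).card := by exact_mod_cast h2
    rw [hm]
    push_cast
    linarith
  have hF := flog_gen (l := 5) (by norm_num) hu0 hu1
  refine LL_cell en_5_4_0 M (by norm_num) hW hP hx hu hu0 (by rw [hm]; norm_num) hB (1)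
    (113 / 1000) (5 + 1) _ hu1 (Or.inl (by norm_num))
    (by norm_num) (by norm_num) (by push_cast; exact hF) ?_
  rw [hm]
  push_cast
  have := po_5_4_0 hu0 hu1
  linarith

/-- the light case -/
theorem LL_i {l k n : ℕ} {v : Fin n → Fin k → ℝ} {s : Fin n → ℝ}
    (M : MaxData k l n v s) (hl2 : 2 ≤ l) (hl5 : l ≤ 5) (hW : Wb k l n < Gs v s)
    (hP : ∀ k' < k, ∀ (N : ℕ) (v' : Fin N → Fin k' → ℝ) (s' : Fin N → ℝ), Gs v' s' ≤ Wb k' l N)
    {i j : Fin n} (hx : xx v i j ≠ 1) (hm : (grp v i).card < l) :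
    Rv l (v i ⬝ᵥ v i) (grp v i).card ≤
      (1 - xx v i j) * (175 / 1000 - 856 / 10000 * c2f (1 - (grp v i).card * (v i ⬝ᵥ v i)) (2 / 3)) := by
  have hi := M.lev_pos i
  have hl : (2 : ℝ) ≤ l := by exact_mod_cast hl2
  have h1 := M.lev_le i
  have h2 := M.le_lev i
  have hm1 : 1 ≤ (grp v i).card := Finset.card_pos.2 ⟨i, self_mem_grp v i⟩
  obtain ⟨u, hu⟩ : ∃ u : ℝ, u = 1 / (v i ⬝ᵥ v i) - l := ⟨_, rfl⟩
  have hu' : v i ⬝ᵥ v i = 1 / (l + u) := by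
    rw [hu]
    have : (l : ℝ) + (1 / (v i ⬝ᵥ v i) - l) = 1 / (v i ⬝ᵥ v i) := by ring
    rw [this, one_div_one_div]
  have hu0 : 0 ≤ u := by
    rw [hu]
    have : (l : ℝ) ≤ 1 / (v i ⬝ᵥ v i) := by
      rw [le_div_iff₀ hi]
      rw [le_div_iff₀ (by linarith)] at h1
      linarith
    linarith
  have hu1 : u ≤ 1 := by
    rw [hu]
    have : 1 / (v i ⬝ᵥ v i) ≤ l + 1 := by
      rw [div_le_iff₀ hi]
      rw [div_le_iff₀ (by linarith)] at h2
      linarith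
    linarith
  generalize hmm : (grp v i).card = m at hm hm1
  interval_cases l
  · have : m = 1 := by omega
    subst this
    have h := LL_2_1 M hW hP hx hmm hu' hu0 hu1
    rw [hmm] at h
    exact h
  · interval_cases m
    · have h := LL_3_1 M hW hP hx hmm hu' hu0 hu1
      rw [hmm] at h
      exact h
    · have h := LL_3_2 M hW hP hx hmm hu' hu0 hu1
      rw [hmm] at h
      exact h
  · interval_cases m
    · have h := LL_4_1 M hW hP hx hmm hu' hu0 hu1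
      rw [hmm] at h
      exact h
    · have h := LL_4_2 M hW hP hx hmm hu' hu0 hu1
      rw [hmm] at h
      exact h
    · have h := LL_4_3 M hW hP hx hmm hu' hu0 hu1
      rw [hmm] at h
      exact h
  · interval_cases m
    · have h := LL_5_1 M hW hP hx hmm hu' hu0 hu1
      rw [hmm] at h
      exact h
    · have h := LL_5_2 M hW hP hx hmm hu' hu0 hu1
      rw [hmm] at h
      exact h
    · have h := LL_5_3 M hW hP hx hmm hu' hu0 hu1
      rw [hmm] at h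
      exact h
    · have h := LL_5_4 M hW hP hx hmm hu' hu0 hu1
      rw [hmm] at h
      exact h

end Pool.Agent.Work.MP_6cd513_gt
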