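import Pool.Agent.Work.MP_6cd513_gt.Assemble
import Pool.Agent.Work.MP_6cd513_gt.LL
import Pool.Agent.Work.MP_6cd513_gt.Final2
import Pool.Agent.Work.MP_6cd513_gt.Bridge2

/-!
# Sections of the cube: the bound for `n ≥ 2k`
-/

open Matrix Finset MeasureTheory

namespace Pool.Agent.Work.MP_6cd513_gt

/-- the shifted bound in all dimensions for `2 ≤ l ≤ 5` -/
theorem all_bound {l : ℕ} (hl2 : 2 ≤ l) (hl5 : l ≤ 5) :
    ∀ (k n : ℕ) (v : Fin n → Fin k → ℝ) (s : Fin n → ℝ), Gs v s ≤ Wb k l n := by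
  apply bound_of_no_max (by omega)
  intro k n v s M hW hP
  have h := M.pair_assembly (M.pair_target hl2 hl5 fun i j hx hm =>
    LL_i M hl2 hl5 hW hP hx hm)
  linarith

theorem maxVol_eq'' {k n : ℕ} (hk : 1 ≤ k) (hn : k ≤ n) : maxVol n k
    = Real.sqrt (((n / k : ℕ) : ℝ) ^ k * ((((n / k : ℕ) : ℝ) + 1) / (n / k : ℕ)) ^ (n % k)) := by
  have h1 : 1 ≤ n / k := by
    rw [Nat.le_div_iff_mul_le (by omega)]
    omega
  have h2 : k * (n / k) + n % k = n := Nat.div_add_mod n k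
  have h3 : n % k < k := Nat.mod_lt _ (by omega)
  have h4 := maxVol_eq' (k := k) (l := n / k) h1 h3
  rwa [h2] at h4

/-- the bound for frames, `n ≥ 2k` -/
theorem frames_bound2 {k n : ℕ} (hk : 1 ≤ k) (hn : 2 * k ≤ n) (v : Fin n → Fin k → ℝ) :
    Gv v ≤ maxVol n k := by
  by_cases h6 : 6 * k ≤ n
  · exact frames_bound6 hk h6 v
  · push Not at h6
    have h2 : 2 ≤ n / k := by
      rw [Nat.le_div_iff_mul_le (by omega)]
      exact hn
    have h5 : n / k ≤ 5 := by
      have : n / k < 6 := Nat.div_lt_of_lt_mul (by linarith)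
      omega
    rw [maxVol_eq'' hk (by omega)]
    exact maxVol_bound (by omega) rfl (all_bound h2 h5 k n) v

end Pool.Agent.Work.MP_6cd513_gt
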