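import Pool.Agent.Work.MP_6cd513_gt.Frames

/-!
# The Fourier bound for central sections
-/

open Matrix Finset MeasureTheory Filter
open scoped Topology Pointwise

namespace Pool.Agent.Work.MP_6cd513_gt

/-- orthonormal coordinates adapted to a subspace preserve the volume -/
theorem mp_frames {n k m : ℕ} (hn : n = k + m) {w : Fin n → Fin k → ℝ} {z : Fin n → Fin m → ℝ}
    (hw : gramM w = 1) (hz : gramM z = 1) (hwz : ∀ a b, ∑ i, w i a * z i b = 0) :
    MeasurePreserving (fun p : (Fin k → ℝ) × (Fin m → ℝ) =>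
      fun i => w i ⬝ᵥ p.1 + z i ⬝ᵥ p.2) volume volume := by
  classical
  let col : Fin k ⊕ Fin m → EuclideanSpace ℝ (Fin n) :=
    Sum.elim (fun a => WithLp.toLp 2 fun i => w i a) (fun b => WithLp.toLp 2 fun i => z i b)
  have hcol : Orthonormal ℝ col := by
    rw [orthonormal_iff_ite]
    have h1 : ∀ a b, ∑ i, w i a * w i b = if a = b then 1 else 0 := by
      intro a b
      have h := congrFun (congrFun hw a) b
      rwa [gramM_apply, Matrix.one_apply] at h
    have h2 : ∀ a b, ∑ i, z i a * z i b = if a = b then 1 else 0 := by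
      intro a b
      have h := congrFun (congrFun hz a) b
      rwa [gramM_apply, Matrix.one_apply] at h
    rintro (a | a) (b | b)
    · rw [EuclideanSpace.inner_eq_star_dotProduct]
      simp only [star_trivial, dotProduct, col, Sum.elim_inl, Sum.inl.injEq]
      rw [h1 b a]
      simp only [eq_comm]
    · rw [EuclideanSpace.inner_eq_star_dotProduct]
      simp only [star_trivial, dotProduct, col, Sum.elim_inl, Sum.elim_inr, reduceCtorEq, if_false]
      rw [← hwz a b]
      exact Finset.sum_congr rfl fun i _ => mul_comm _ _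
    · rw [EuclideanSpace.inner_eq_star_dotProduct]
      simp only [star_trivial, dotProduct, col, Sum.elim_inl, Sum.elim_inr, reduceCtorEq, if_false]
      exact hwz b a
    · rw [EuclideanSpace.inner_eq_star_dotProduct]
      simp only [star_trivial, dotProduct, col, Sum.elim_inr, Sum.inr.injEq]
      rw [h2 b a]
      simp only [eq_comm]
  obtain ⟨b, hb⟩ := Orthonormal.exists_orthonormalBasis_extension_of_card_eq (𝕜 := ℝ)
    (E := EuclideanSpace ℝ (Fin n)) (ι := Fin k ⊕ Fin m) (by simp [hn]) (v := col)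
    (s := Set.univ) (hcol.comp _ Subtype.val_injective)
  have h1 : MeasurePreserving (MeasurableEquiv.sumPiEquivProdPi
      (fun _ : Fin k ⊕ Fin m => ℝ)).symm volume volume :=
    volume_measurePreserving_sumPiEquivProdPi_symm _
  have h2 : MeasurePreserving (fun p : Fin k ⊕ Fin m → ℝ => b.repr.symm (WithLp.toLp 2 p))
      volume volume :=
    b.measurePreserving_repr_symm.comp (PiLp.volume_preserving_toLp (Fin k ⊕ Fin m))
  have h3 := (PiLp.volume_preserving_ofLp (Fin n)).comp (h2.comp h1)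
  have heq : (fun p : (Fin k → ℝ) × (Fin m → ℝ) => fun i => w i ⬝ᵥ p.1 + z i ⬝ᵥ p.2)
      = WithLp.ofLp ∘ (fun p => b.repr.symm (WithLp.toLp 2 p)) ∘
        ⇑(MeasurableEquiv.sumPiEquivProdPi fun _ : Fin k ⊕ Fin m => ℝ).symm := by
    funext p i
    simp only [Function.comp_apply]
    rw [← b.sum_repr_symm]
    have h4 : ∀ j, b j = col j := fun j => hb j (Set.mem_univ j)
    simp only [h4]
    rw [WithLp.ofLp_sum, Finset.sum_apply, Fintype.sum_sum_type]
    congr 1
    · rw [dotProduct]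
      refine Finset.sum_congr rfl fun a _ => ?_
      show w i a * p.1 a = p.1 a * w i a
      ring
    · rw [dotProduct]
      refine Finset.sum_congr rfl fun a _ => ?_
      show z i a * p.2 a = p.2 a * z i a
      ring
  rw [heq]
  exact h3

/-- the standard Gaussian density -/
noncomputable def phg (m : ℕ) (y : Fin m → ℝ) : ℝ := Real.exp (-(Real.pi * ∑ j, (y j) ^ 2))

theorem phg_pos (m : ℕ) (y : Fin m → ℝ) : 0 < phg m y := Real.exp_pos _

theorem phg_continuous (m : ℕ) : Continuous (phg m) := by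
  unfold phg
  fun_prop

theorem phg_eq (m : ℕ) : phg m = fun y => ∏ j, (fun t : ℝ => Real.exp (-Real.pi * t ^ 2)) (y j) := by
  ext y
  unfold phg
  simp only
  rw [← Real.exp_sum, ← Finset.mul_sum, neg_mul]

theorem phg_integrable (m : ℕ) : Integrable (phg m) := by
  rw [phg_eq]
  exact Integrable.fintype_prod (fun _ => integrable_exp_neg_mul_sq Real.pi_pos)

theorem phg_integral (m : ℕ) : ∫ y, phg m y = 1 := by
  rw [phg_eq, integral_fintype_prod_volume_eq_pow (fun t : ℝ => Real.exp (-Real.pi * t ^ 2)),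
    integral_gaussian, div_self Real.pi_pos.ne', Real.sqrt_one, one_pow]

theorem phg_ball_tendsto (m : ℕ) {r : ℝ} (hr : 0 < r) :
    Tendsto (fun c : ℝ => ∫ y in Metric.closedBall (0 : Fin m → ℝ) r, c ^ m * phg m (c • y))
      atTop (𝓝 1) := by
  have h1 : Tendsto (fun c : ℝ => c * r) atTop atTop := tendsto_id.atTop_mul_const hr
  have h2 := (aecover_closedBall (μ := (volume : Measure (Fin m → ℝ))) (x := 0)
    h1).integral_tendsto_of_countably_generated (phg_integrable m)
  rw [phg_integral] at h2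
  apply h2.congr'
  filter_upwards [Ioi_mem_atTop (0 : ℝ)] with c hc
  have hc' : (0 : ℝ) < c := hc
  rw [integral_const_mul, Measure.setIntegral_comp_smul_of_pos _ _ _ hc',
    _root_.smul_closedBall _ _ hr.le, smul_zero, Real.norm_of_nonneg hc'.le, smul_eq_mul,
    Module.finrank_fin_fun, ← mul_assoc, mul_inv_cancel₀ (by positivity), one_mul]

theorem int_exp_sinc (s : ℝ) : ∫ q in Set.Icc (-(1 / 2) : ℝ) (1 / 2),
    Complex.exp (2 * Real.pi * Complex.I * s * q) = (Real.sinc (Real.pi * s) : ℂ) := by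
  rw [integral_Icc_eq_integral_Ioc, ← intervalIntegral.integral_of_le (by norm_num)]
  by_cases hs : s = 0
  · rw [hs]
    simp
    norm_num
  · have hc : (2 * Real.pi * s) ≠ 0 := by
      have := Real.pi_pos.ne'
      positivity
    have h1 : ∀ q : ℝ, Complex.exp (2 * Real.pi * Complex.I * s * q)
        = (fun t : ℝ => Complex.exp (t * Complex.I)) (2 * Real.pi * s * q) := by
      intro q
      simp only
      push_cast
      congr 1
      ring
    rw [intervalIntegral.integral_congr fun q _ => h1 q,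
      intervalIntegral.integral_comp_mul_left (fun t : ℝ => Complex.exp (t * Complex.I)) hc]
    have h2 : 2 * Real.pi * s * -(1 / 2) = -(Real.pi * s) := by ring
    have h3 : 2 * Real.pi * s * (1 / 2) = Real.pi * s := by ring
    rw [h2, h3, integral_exp_mul_I_eq_sinc]
    rw [Complex.real_smul]
    push_cast
    have h4 : (s : ℂ) ≠ 0 := by exact_mod_cast hs
    have h5 : (Real.pi : ℂ) ≠ 0 := by exact_mod_cast Real.pi_pos.ne'
    field_simp

theorem gaussian_ft {m : ℕ} {c : ℝ} (hc : 0 < c) (y : Fin m → ℝ) :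
    ∫ a : Fin m → ℝ, Complex.exp (-((Real.pi / c ^ 2 : ℝ) : ℂ) * ∑ j, (a j : ℂ) ^ 2
      + ∑ j, (2 * Real.pi * Complex.I * y j) * a j) = ((c ^ m * phg m (c • y) : ℝ) : ℂ) := by
  have hb : 0 < (((Real.pi / c ^ 2 : ℝ) : ℂ)).re := by
    rw [Complex.ofReal_re]
    have := Real.pi_pos
    positivity
  have h5 : (Real.pi : ℂ) ≠ 0 := by exact_mod_cast Real.pi_pos.ne'
  have h6 : (c : ℂ) ≠ 0 := by exact_mod_cast hc.ne'
  rw [GaussianFourier.integral_cexp_neg_mul_sum_add hb]
  have h1 : (Real.pi : ℂ) / ((Real.pi / c ^ 2 : ℝ) : ℂ) = ((c ^ 2 : ℝ) : ℂ) := by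
    push_cast
    field_simp
  have h2 : ((c ^ 2 : ℝ) : ℂ) ^ ((Fintype.card (Fin m) : ℂ) / 2) = ((c ^ m : ℝ) : ℂ) := by
    have h3 : ((Fintype.card (Fin m) : ℂ) / 2) = (((m : ℝ) / 2 : ℝ) : ℂ) := by
      rw [Fintype.card_fin]
      push_cast
      ring
    rw [h3, ← Complex.ofReal_cpow (by positivity)]
    congr 1
    rw [← Real.rpow_natCast c 2, ← Real.rpow_mul hc.le, ← Real.rpow_natCast c m]
    congr 1
    push_cast
    ring
  have h4 : (∑ j, (2 * Real.pi * Complex.I * (y j : ℂ)) ^ 2) / (4 * ((Real.pi / c ^ 2 : ℝ) : ℂ))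
      = ((-(Real.pi * ∑ j, ((c • y) j) ^ 2) : ℝ) : ℂ) := by
    rw [Finset.sum_div]
    push_cast
    rw [Finset.mul_sum, ← Finset.sum_neg_distrib]
    refine Finset.sum_congr rfl fun j _ => ?_
    simp only [Pi.smul_apply, smul_eq_mul]
    push_cast
    field_simp
    rw [Complex.I_sq]
    ring
  rw [h1, h2, h4, ← Complex.ofReal_exp, ← Complex.ofReal_mul]
  rfl

/-- the cube in coordinates -/
def Qn (n : ℕ) : Set (Fin n → ℝ) := Set.univ.pi fun _ => Set.Icc (-(1 / 2) : ℝ) (1 / 2)

theorem measurableSet_Qn (n : ℕ) : MeasurableSet (Qn n) :=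
  MeasurableSet.univ_pi fun _ => measurableSet_Icc

theorem restrict_Qn (n : ℕ) : (volume : Measure (Fin n → ℝ)).restrict (Qn n)
    = Measure.pi fun _ => (volume : Measure ℝ).restrict (Set.Icc (-(1 / 2) : ℝ) (1 / 2)) := by
  rw [volume_pi, Qn, Measure.restrict_pi_pi]

/-- the Fourier transform of the cube -/
theorem cube_ft {n m : ℕ} (z : Fin n → Fin m → ℝ) (a : Fin m → ℝ) :
    ∫ q in Qn n, Complex.exp (∑ j, (2 * Real.pi * Complex.I * ((∑ i, q i * z i j : ℝ) : ℂ)) * a j)
      = ((∏ i, Real.sinc (Real.pi * (z i ⬝ᵥ a)) : ℝ) : ℂ) := by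
  have h1 : ∀ q : Fin n → ℝ, Complex.exp (∑ j, (2 * Real.pi * Complex.I *
      ((∑ i, q i * z i j : ℝ) : ℂ)) * a j)
        = ∏ i, (fun t : ℝ => Complex.exp (2 * Real.pi * Complex.I * ((z i ⬝ᵥ a : ℝ) : ℂ) * t)) (q i) := by
    intro q
    simp only
    rw [← Complex.exp_sum]
    congr 1
    simp only [dotProduct]
    push_cast
    simp only [Finset.mul_sum, Finset.sum_mul]
    rw [Finset.sum_comm]
    refine Finset.sum_congr rfl fun i _ => Finset.sum_congr rfl fun j _ => ?_
    ring
  rw [integral_congr_ae (Filter.Eventually.of_forall h1), restrict_Qn,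
    integral_fintype_prod_eq_prod (fun i (t : ℝ) =>
      Complex.exp (2 * Real.pi * Complex.I * ((z i ⬝ᵥ a : ℝ) : ℂ) * t))]
  push_cast
  exact Finset.prod_congr rfl fun i _ => int_exp_sinc _

theorem fourier_upper {n m : ℕ} (z : Fin n → Fin m → ℝ) {c : ℝ} (hc : 0 < c) :
    ENNReal.ofReal (∫ q in Qn n, c ^ m * phg m (c • fun j => ∑ i, q i * z i j))
      ≤ ∫⁻ a : Fin m → ℝ, ∏ i, ENNReal.ofReal |Real.sinc (Real.pi * (z i ⬝ᵥ a))| := by
  set b : ℂ := ((Real.pi / c ^ 2 : ℝ) : ℂ) with hb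
  have hb0 : 0 < Real.pi / c ^ 2 := by have := Real.pi_pos; positivity
  set K : (Fin n → ℝ) → (Fin m → ℝ) → ℂ := fun q a => Complex.exp (-b * ∑ j, (a j : ℂ) ^ 2
      + ∑ j, (2 * Real.pi * Complex.I * ((∑ i, q i * z i j : ℝ) : ℂ)) * a j) with hK
  have hKn : ∀ q a, ‖K q a‖ = Real.exp (-(Real.pi / c ^ 2) * ∑ j, a j ^ 2) := by
    intro q a
    simp only [hK]
    rw [Complex.norm_exp]
    congr 1
    rw [Complex.add_re]
    have e1 : (-b * ∑ j, (a j : ℂ) ^ 2) = ((-(Real.pi / c ^ 2) * ∑ j, a j ^ 2 : ℝ) : ℂ) := by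
      rw [hb]; push_cast; ring
    have e2 : (∑ j, (2 * Real.pi * Complex.I * ((∑ i, q i * z i j : ℝ) : ℂ)) * a j)
        = Complex.I * ((∑ j, 2 * Real.pi * (∑ i, q i * z i j) * a j : ℝ) : ℂ) := by
      rw [Complex.ofReal_sum, Finset.mul_sum]
      refine Finset.sum_congr rfl fun j _ => ?_
      push_cast
      ring
    rw [e1, e2, Complex.ofReal_re, Complex.I_mul_re, Complex.ofReal_im]
    ring
  have hKc : Continuous (Function.uncurry K) := by
    simp only [hK, Function.uncurry_def]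
    fun_prop
  have hg : Integrable (fun a : Fin m → ℝ => Real.exp (-(Real.pi / c ^ 2) * ∑ j, a j ^ 2)) := by
    have h1 : (fun a : Fin m → ℝ => Real.exp (-(Real.pi / c ^ 2) * ∑ j, a j ^ 2))
        = fun a => ∏ j, (fun t : ℝ => Real.exp (-(Real.pi / c ^ 2) * t ^ 2)) (a j) := by
      ext a
      simp only
      rw [← Real.exp_sum, ← Finset.mul_sum]
    rw [h1]
    exact Integrable.fintype_prod (fun _ => integrable_exp_neg_mul_sq hb0)
  have hfin : IsFiniteMeasure ((volume : Measure (Fin n → ℝ)).restrict (Qn n)) := by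
    rw [restrict_Qn]
    infer_instance
  have hKi : Integrable (Function.uncurry K)
      (((volume : Measure (Fin n → ℝ)).restrict (Qn n)).prod volume) := by
    have h1 : Integrable (fun p : (Fin n → ℝ) × (Fin m → ℝ) =>
        (1 : ℝ) * Real.exp (-(Real.pi / c ^ 2) * ∑ j, p.2 j ^ 2))
        (((volume : Measure (Fin n → ℝ)).restrict (Qn n)).prod volume) :=
      (integrable_const (1 : ℝ)).mul_prod hg
    refine h1.mono' hKc.aestronglyMeasurable (Filter.Eventually.of_forall fun p => ?_)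
    rw [Function.uncurry_def]
    simp only
    rw [hKn, one_mul]
  have hswap := integral_integral_swap hKi
  have hL : ∫ q in Qn n, ∫ a, K q a
      = ((∫ q in Qn n, c ^ m * phg m (c • fun j => ∑ i, q i * z i j) : ℝ) : ℂ) := by
    refine Eq.trans ?_ integral_complex_ofReal
    refine integral_congr_ae (Filter.Eventually.of_forall fun q => ?_)
    exact gaussian_ft hc (fun j => ∑ i, q i * z i j)
  have hR : ∀ a, ∫ q in Qn n, K q a = Complex.exp (-b * ∑ j, (a j : ℂ) ^ 2) *
      ((∏ i, Real.sinc (Real.pi * (z i ⬝ᵥ a)) : ℝ) : ℂ) := by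
    intro a
    rw [← cube_ft z a, ← integral_const_mul]
    refine integral_congr_ae (Filter.Eventually.of_forall fun q => ?_)
    simp only [hK]
    rw [Complex.exp_add]
  rw [hL] at hswap
  set J : ℝ := ∫ q in Qn n, c ^ m * phg m (c • fun j => ∑ i, q i * z i j) with hJ
  have hJ0 : 0 ≤ J := integral_nonneg fun q => mul_nonneg (by positivity) (phg_pos _ _).le
  have h1 : ENNReal.ofReal J = ‖((J : ℝ) : ℂ)‖ₑ := by
    rw [← ofReal_norm, Complex.norm_of_nonneg hJ0]
  rw [h1, hswap]
  refine (enorm_integral_le_lintegral_enorm _).trans (lintegral_mono fun a => ?_)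
  simp only
  rw [hR a, ← ofReal_norm, norm_mul, ← ENNReal.ofReal_prod_of_nonneg fun i _ => abs_nonneg _]
  apply ENNReal.ofReal_le_ofReal
  have h2 : ‖Complex.exp (-b * ∑ j, (a j : ℂ) ^ 2)‖ ≤ 1 := by
    have e1 : (-b * ∑ j, (a j : ℂ) ^ 2) = ((-(Real.pi / c ^ 2) * ∑ j, a j ^ 2 : ℝ) : ℂ) := by
      rw [hb]; push_cast; ring
    rw [e1, Complex.norm_exp, Complex.ofReal_re, Real.exp_le_one_iff]
    have : 0 ≤ ∑ j, a j ^ 2 := Finset.sum_nonneg fun j _ => sq_nonneg _
    nlinarith
  have h3 : ‖((∏ i, Real.sinc (Real.pi * (z i ⬝ᵥ a)) : ℝ) : ℂ)‖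
      = ∏ i, |Real.sinc (Real.pi * (z i ⬝ᵥ a))| := by
    rw [Complex.norm_real, Real.norm_eq_abs, Finset.abs_prod]
  rw [h3]
  have h4 : 0 ≤ ∏ i, |Real.sinc (Real.pi * (z i ⬝ᵥ a))| :=
    Finset.prod_nonneg fun i _ => abs_nonneg _
  calc ‖Complex.exp (-b * ∑ j, (a j : ℂ) ^ 2)‖ * ∏ i, |Real.sinc (Real.pi * (z i ⬝ᵥ a))|
      ≤ 1 * ∏ i, |Real.sinc (Real.pi * (z i ⬝ᵥ a))| := mul_le_mul_of_nonneg_right h2 h4
    _ = _ := one_mul _

/-- the lower bound by localisation near the subspace -/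
theorem fourier_lower {n k m : ℕ} (hn : n = k + m) {w : Fin n → Fin k → ℝ}
    {z : Fin n → Fin m → ℝ} (hw : gramM w = 1) (hz : gramM z = 1)
    (hwz : ∀ a b, ∑ i, w i a * z i b = 0) {lam r c : ℝ} (hlam : 0 < lam)
    (_hr0 : 0 ≤ r) (hr : r * m ≤ (1 - lam) / 2) (hc : 0 < c) :
    ENNReal.ofReal (lam ^ k) * volume (bodyK w) *
      ENNReal.ofReal (∫ y in Metric.closedBall (0 : Fin m → ℝ) r, c ^ m * phg m (c • y))
      ≤ ENNReal.ofReal (∫ q in Qn n, c ^ m * phg m (c • fun j => ∑ i, q i * z i j)) := by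
  have hmp := mp_frames hn hw hz hwz
  set Φ : (Fin k → ℝ) × (Fin m → ℝ) → (Fin n → ℝ) := fun p i => w i ⬝ᵥ p.1 + z i ⬝ᵥ p.2 with hΦ
  have hgc : Continuous fun y : Fin m → ℝ => c ^ m * phg m (c • y) :=
    continuous_const.mul ((phg_continuous m).comp (continuous_const_smul c))
  have hg0 : ∀ y : Fin m → ℝ, 0 ≤ c ^ m * phg m (c • y) := fun y =>
    mul_nonneg (by positivity) (phg_pos _ _).le
  have hgi : Integrable fun y : Fin m → ℝ => c ^ m * phg m (c • y) :=
    ((phg_integrable m).comp_smul hc.ne').const_mul _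
  have hAc : Continuous fun q : Fin n → ℝ => fun j => ∑ i, q i * z i j := by fun_prop
  have hfin : IsFiniteMeasure ((volume : Measure (Fin n → ℝ)).restrict (Qn n)) := by
    rw [restrict_Qn]
    infer_instance
  have hFi : Integrable (fun q : Fin n → ℝ => c ^ m * phg m (c • fun j => ∑ i, q i * z i j))
      ((volume : Measure (Fin n → ℝ)).restrict (Qn n)) := by
    refine (integrable_const (c ^ m)).mono' ((hgc.comp hAc).aestronglyMeasurable)
      (Filter.Eventually.of_forall fun q => ?_)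
    rw [Real.norm_of_nonneg (hg0 _)]
    have h1 : phg m (c • fun j => ∑ i, q i * z i j) ≤ 1 := by
      unfold phg
      rw [Real.exp_le_one_iff]
      have h2 : 0 ≤ ∑ j, ((c • fun j => ∑ i, q i * z i j) j) ^ 2 :=
        Finset.sum_nonneg fun j _ => sq_nonneg _
      have := Real.pi_pos
      nlinarith
    calc c ^ m * phg m (c • fun j => ∑ i, q i * z i j) ≤ c ^ m * 1 :=
          mul_le_mul_of_nonneg_left h1 (by positivity)
      _ = c ^ m := mul_one _
  rw [ofReal_integral_eq_lintegral_ofReal hFi (Filter.Eventually.of_forall fun q => hg0 _),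
    ofReal_integral_eq_lintegral_ofReal hgi.integrableOn
      (Filter.Eventually.of_forall fun y => hg0 y)]
  -- change of variables
  have h1 : ∫⁻ q in Qn n, ENNReal.ofReal (c ^ m * phg m (c • fun j => ∑ i, q i * z i j))
      = ∫⁻ p in Φ ⁻¹' Qn n, ENNReal.ofReal (c ^ m * phg m (c • p.2)) := by
    have h0 := hmp.setLIntegral_comp_preimage (measurableSet_Qn n)
      (f := fun q => ENNReal.ofReal (c ^ m * phg m (c • fun j => ∑ i, q i * z i j)))
      (((hgc.comp hAc).measurable).ennreal_ofReal)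
    rw [← h0]
    refine lintegral_congr fun p => ?_
    congr 3
    ext j
    simp only [Pi.smul_apply, smul_eq_mul]
    congr 1
    have e1 : ∑ i, (w i ⬝ᵥ p.1 + z i ⬝ᵥ p.2) * z i j
        = ∑ a, p.1 a * (∑ i, w i a * z i j) + ∑ b, p.2 b * (∑ i, z i b * z i j) := by
      simp only [dotProduct, add_mul, Finset.sum_add_distrib, Finset.sum_mul, Finset.mul_sum]
      rw [Finset.sum_comm]
      congr 1
      · exact Finset.sum_congr rfl fun a _ => Finset.sum_congr rfl fun i _ => by ring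
      · rw [Finset.sum_comm]
        exact Finset.sum_congr rfl fun a _ => Finset.sum_congr rfl fun i _ => by ring
    show ∑ i, (w i ⬝ᵥ p.1 + z i ⬝ᵥ p.2) * z i j = p.2 j
    rw [e1]
    have e2 : ∀ b, ∑ i, z i b * z i j = if b = j then 1 else 0 := by
      intro b
      have h := congrFun (congrFun hz b) j
      rwa [gramM_apply, Matrix.one_apply] at h
    simp only [hwz, e2, mul_zero, Finset.sum_const_zero, zero_add]
    simp
  rw [h1]
  have hz1 : ∀ i b, |z i b| ≤ 1 := by
    intro i b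
    have h := congrFun (congrFun hz b) b
    rw [gramM_apply, Matrix.one_apply_eq] at h
    have h2 : z i b * z i b ≤ ∑ i, z i b * z i b :=
      Finset.single_le_sum (f := fun i => z i b * z i b) (fun i _ => mul_self_nonneg _)
        (Finset.mem_univ i)
    rw [h] at h2
    rw [abs_le]
    constructor <;> nlinarith
  have hsub : (lam • bodyK w) ×ˢ Metric.closedBall (0 : Fin m → ℝ) r ⊆ Φ ⁻¹' Qn n := by
    rintro ⟨x, y⟩ ⟨hx, hy⟩
    obtain ⟨x', hx', rfl⟩ := hx
    rw [Set.mem_preimage, Qn, Set.mem_univ_pi]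
    intro i
    have h2 : |w i ⬝ᵥ (lam • x')| ≤ lam / 2 := by
      rw [dotProduct_smul, smul_eq_mul, abs_mul, abs_of_pos hlam]
      have := mul_le_mul_of_nonneg_left (hx' i) hlam.le
      linarith
    have h3 : |z i ⬝ᵥ y| ≤ (1 - lam) / 2 := by
      rw [dotProduct]
      refine (Finset.abs_sum_le_sum_abs _ _).trans ?_
      refine le_trans (Finset.sum_le_sum (g := fun _ => r) fun b _ => ?_) ?_
      · rw [abs_mul]
        have h4 : |y b| ≤ r := by
          have h5 := mem_closedBall_zero_iff.1 hy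
          exact (norm_le_pi_norm y b).trans h5
        calc |z i b| * |y b| ≤ 1 * r := mul_le_mul (hz1 i b) h4 (abs_nonneg _) zero_le_one
          _ = r := one_mul r
      · rw [Finset.sum_const, Finset.card_univ, Fintype.card_fin, nsmul_eq_mul]
        linarith
    have h4 := abs_add_le (w i ⬝ᵥ (lam • x')) (z i ⬝ᵥ y)
    have h5 : |w i ⬝ᵥ (lam • x') + z i ⬝ᵥ y| ≤ 1 / 2 := by linarith
    rw [abs_le] at h5
    exact ⟨h5.1, h5.2⟩
  refine le_trans ?_ (lintegral_mono_set hsub)
  rw [Measure.volume_eq_prod, ← Measure.prod_restrict]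
  have h2 := lintegral_prod_mul (μ := (volume : Measure (Fin k → ℝ)).restrict (lam • bodyK w))
    (ν := (volume : Measure (Fin m → ℝ)).restrict (Metric.closedBall 0 r))
    (f := fun _ => 1) (g := fun y => ENNReal.ofReal (c ^ m * phg m (c • y)))
    aemeasurable_const (hgc.measurable.ennreal_ofReal.aemeasurable)
  simp only [one_mul] at h2
  rw [h2, lintegral_one, Measure.restrict_apply_univ, Measure.addHaar_smul,
    abs_of_pos (pow_pos hlam _), Module.finrank_fin_fun]

/-- **The Fourier bound**: the volume of a central section is at most the integral of the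
absolute value of the Fourier transform of the cube over the orthogonal complement -/
theorem fourier_step {n k m : ℕ} (hn : n = k + m) {w : Fin n → Fin k → ℝ}
    {z : Fin n → Fin m → ℝ} (hw : gramM w = 1) (hz : gramM z = 1)
    (hwz : ∀ a b, ∑ i, w i a * z i b = 0) : volume (bodyK w)
      ≤ ∫⁻ a : Fin m → ℝ, ∏ i, ENNReal.ofReal |Real.sinc (Real.pi * (z i ⬝ᵥ a))| := by
  set R : ENNReal := ∫⁻ a : Fin m → ℝ, ∏ i, ENNReal.ofReal |Real.sinc (Real.pi * (z i ⬝ᵥ a))| with hR
  have hV := bodyK_tight_finite hw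
  have h1 : ∀ lam : ℝ, 0 < lam → lam < 1 → ENNReal.ofReal (lam ^ k) * volume (bodyK w) ≤ R := by
    intro lam h0 h1
    set r : ℝ := (1 - lam) / (2 * (m + 1)) with hr
    have hm : (0 : ℝ) < (m : ℝ) + 1 := by positivity
    have hr0 : 0 < r := div_pos (by linarith) (by linarith)
    have hrm : r * m ≤ (1 - lam) / 2 := by
      have h2 : r * (m + 1) = (1 - lam) / 2 := by
        rw [hr]; field_simp
      nlinarith
    have h3 := phg_ball_tendsto m hr0
    have h4 : Tendsto (fun c : ℝ => ENNReal.ofReal (lam ^ k) * volume (bodyK w) *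
        ENNReal.ofReal (∫ y in Metric.closedBall (0 : Fin m → ℝ) r, c ^ m * phg m (c • y)))
        atTop (𝓝 (ENNReal.ofReal (lam ^ k) * volume (bodyK w) * ENNReal.ofReal 1)) := by
      apply ENNReal.Tendsto.const_mul (ENNReal.tendsto_ofReal h3)
      right
      exact ENNReal.mul_ne_top ENNReal.ofReal_ne_top hV
    rw [ENNReal.ofReal_one, mul_one] at h4
    apply le_of_tendsto h4
    filter_upwards [Ioi_mem_atTop (0 : ℝ)] with c hc
    exact (fourier_lower hn hw hz hwz h0 hr0.le hrm hc).trans (fourier_upper z hc)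
  have h2 : Tendsto (fun lam : ℝ => ENNReal.ofReal (lam ^ k) * volume (bodyK w))
      (𝓝[<] 1) (𝓝 (ENNReal.ofReal (1 ^ k) * volume (bodyK w))) := by
    apply Tendsto.mono_left _ nhdsWithin_le_nhds
    apply ENNReal.Tendsto.mul_const _ (Or.inr hV)
    exact (ENNReal.continuous_ofReal.comp (continuous_pow k)).tendsto 1
  rw [one_pow, ENNReal.ofReal_one, one_mul] at h2
  apply le_of_tendsto h2
  filter_upwards [Ioo_mem_nhdsLT (show (0 : ℝ) < 1 by norm_num)] with lam hlam
  exact h1 lam hlam.1 hlam.2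

end Pool.Agent.Work.MP_6cd513_gt
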