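import Pool.Agent.Work.MP_6cd513_gt.SincBL
import Pool.Agent.Work.MP_6cd513_gt.Complement
import Pool.Agent.Work.MP_6cd513_gt.Defs

/-!
# The range `k ≤ n < 2k` (Ball's bound)
-/

open Matrix Finset MeasureTheory

namespace Pool.Agent.Work.MP_6cd513_gt

/-- the Fourier step, as a hypothesis -/
def FourierStep : Prop := ∀ (n k m : ℕ), n = k + m → ∀ (w : Fin n → Fin k → ℝ)
  (z : Fin n → Fin m → ℝ), gramM w = 1 → gramM z = 1 → (∀ a b, ∑ i, w i a * z i b = 0) →
  volume (bodyK w) ≤ ∫⁻ a : Fin m → ℝ, ∏ i, ENNReal.ofReal |Real.sinc (Real.pi * (z i ⬝ᵥ a))|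

theorem lev_le_one_of_tight {ι : Type} [Fintype ι] {k : ℕ} {w : ι → Fin k → ℝ}
    (hw : gramM w = 1) (i : ι) : w i ⬝ᵥ w i ≤ 1 := by
  classical
  have h1 : ∑ j, (w j ⬝ᵥ w i) ^ 2 = w i ⬝ᵥ w i := by
    have h := iso_dot (α := fun _ => (1 : ℝ)) (u := w) hw (w i) (w i)
    rw [← h]
    exact Finset.sum_congr rfl fun j _ => by ring
  have h2 : (w i ⬝ᵥ w i) ^ 2 ≤ ∑ j, (w j ⬝ᵥ w i) ^ 2 :=
    Finset.single_le_sum (f := fun j => (w j ⬝ᵥ w i) ^ 2) (fun j _ => sq_nonneg _)
      (Finset.mem_univ i)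
  rw [h1] at h2
  by_contra hcon
  push Not at hcon
  nlinarith

theorem trace_tight {ι : Type} [Fintype ι] {k : ℕ} {w : ι → Fin k → ℝ}
    (hw : gramM w = 1) : ∑ i, w i ⬝ᵥ w i = k := by
  have h : (gramM w).trace = k := by rw [hw]; simp
  rw [← h, trace]
  simp only [diag_apply, gramM_apply, dotProduct]
  exact Finset.sum_comm

theorem window1 (hB : BallIneq) (hF : FourierStep) : ∀ (m k : ℕ) (ι : Type) [Fintype ι],
    Fintype.card ι = k + m → ∀ v : ι → Fin k → ℝ, Gv v ≤ Real.sqrt (2 ^ m) := by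
  classical
  intro m
  induction m with
  | zero =>
    intro k ι _ hcard v
    by_contra hcon
    push Not at hcon
    have hv : (gramM v).det ≠ 0 := by
      intro h0
      unfold Gv at hcon
      rw [h0, Real.sqrt_zero, zero_mul] at hcon
      have := Real.sqrt_nonneg ((2 : ℝ) ^ 0)
      linarith
    obtain ⟨w, U, hU, hw, rfl⟩ := exists_tight v hv
    rw [Gv_vecMul _ hU] at hcon
    let e : ι ≃ Fin (k + 0) := Fintype.equivFinOfCardEq hcard
    set w' : Fin (k + 0) → Fin k → ℝ := fun i => w (e.symm i) with hw'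
    have hg : gramM w' = 1 := by
      rw [← hw]
      ext p q
      rw [gramM_apply, gramM_apply]
      exact Equiv.sum_comp e.symm (fun i => w i p * w i q)
    have hb : bodyK w' = bodyK w := by
      ext x
      simp only [bodyK, Set.mem_ofPred_eq, hw']
      exact ⟨fun h i => by have := h (e i); rwa [e.symm_apply_apply] at this, fun h i => h _⟩
    obtain ⟨z, hz, hwz, hsum⟩ := exists_complement rfl hg
    have h1 := hF (k + 0) k 0 rfl w' z hg hz hwz
    have h2 := sinc_BL hB hz (fun i => by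
      rw [dotProduct]
      simp)
    have h3 := h1.trans h2
    rw [hb] at h3
    rw [Gv_tight hw] at hcon
    have h4 := ENNReal.toReal_mono ENNReal.ofReal_ne_top h3
    rw [ENNReal.toReal_ofReal (Real.sqrt_nonneg _)] at h4
    linarith
  | succ m ih =>
    intro k ι _ hcard v
    by_contra hcon
    push Not at hcon
    have hv : (gramM v).det ≠ 0 := by
      intro h0
      unfold Gv at hcon
      rw [h0, Real.sqrt_zero, zero_mul] at hcon
      have := Real.sqrt_nonneg ((2 : ℝ) ^ (m + 1))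
      linarith
    obtain ⟨w, U, hU, hw, rfl⟩ := exists_tight v hv
    rw [Gv_vecMul _ hU] at hcon
    by_cases hsmall : ∃ i, w i ⬝ᵥ w i < 1 / 2
    · obtain ⟨i, hi⟩ := hsmall
      have h1 := Gv_drop hw i (by linarith)
      have h2 := ih k {j // j ≠ i} (by
        rw [Fintype.card_subtype_compl, Fintype.card_subtype_eq, hcard]
        omega) (fun j => w j)
      have h3 : Real.sqrt (1 / 2) ≤ Real.sqrt (1 - w i ⬝ᵥ w i) := Real.sqrt_le_sqrt (by linarith)
      have hG : 0 ≤ Gv w := (Real.sqrt_nonneg _).trans hcon.le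
      have h4 : Gv w * Real.sqrt (1 / 2) ≤ Real.sqrt (2 ^ m) :=
        (mul_le_mul_of_nonneg_left h3 hG).trans (h1.trans h2)
      have h5 : Real.sqrt (1 / 2) * Real.sqrt 2 = 1 := by
        rw [← Real.sqrt_mul (by norm_num)]
        norm_num
      have h6 : Gv w ≤ Real.sqrt (2 ^ m) * Real.sqrt 2 := by
        calc Gv w = Gv w * Real.sqrt (1 / 2) * Real.sqrt 2 := by rw [mul_assoc, h5, mul_one]
          _ ≤ _ := mul_le_mul_of_nonneg_right h4 (Real.sqrt_nonneg _)
      rw [← Real.sqrt_mul (by positivity), ← pow_succ] at h6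
      linarith
    · push Not at hsmall
      let e : ι ≃ Fin (k + (m + 1)) := Fintype.equivFinOfCardEq hcard
      set w' : Fin (k + (m + 1)) → Fin k → ℝ := fun i => w (e.symm i) with hw'
      have hg : gramM w' = 1 := by
        rw [← hw]
        ext p q
        rw [gramM_apply, gramM_apply]
        exact Equiv.sum_comp e.symm (fun i => w i p * w i q)
      have hb : bodyK w' = bodyK w := by
        ext x
        simp only [bodyK, Set.mem_ofPred_eq, hw']
        exact ⟨fun h i => by have := h (e i); rwa [e.symm_apply_apply] at this, fun h i => h _⟩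
      obtain ⟨z, hz, hwz, hsum⟩ := exists_complement rfl hg
      have h1 := hF (k + (m + 1)) k (m + 1) rfl w' z hg hz hwz
      have h2 := sinc_BL hB hz (fun i => by
        have h3 := hsum i
        have h4 : 1 / 2 ≤ w' i ⬝ᵥ w' i := hsmall (e.symm i)
        linarith)
      have h3 := h1.trans h2
      rw [hb] at h3
      rw [Gv_tight hw] at hcon
      have h4 := ENNReal.toReal_mono ENNReal.ofReal_ne_top h3
      rw [ENNReal.toReal_ofReal (Real.sqrt_nonneg _)] at h4
      linarith

theorem frames_bound1 (hB : BallIneq) (hF : FourierStep) {k n : ℕ} (_hk : 1 ≤ k) (hkn : k ≤ n)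
    (hn : n < 2 * k) (v : Fin n → Fin k → ℝ) : Gv v ≤ maxVol n k := by
  have h1 : n / k = 1 := by
    apply Nat.div_eq_of_lt_le <;> omega
  have h2 : n % k = n - k := by
    have := Nat.div_add_mod n k
    rw [h1] at this
    omega
  have h3 : maxVol n k = Real.sqrt (2 ^ (n - k)) := by
    unfold maxVol
    rw [h1, h2]
    norm_num
  rw [h3]
  exact window1 hB hF (n - k) k (Fin n) (by rw [Fintype.card_fin]; omega) v

end Pool.Agent.Work.MP_6cd513_gt
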