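import Pool.Agent.Work.MP_6cd513_gt.Final3
import Pool.Agent.Work.MP_6cd513_gt.WindowOne
import Pool.Agent.Work.MP_6cd513_gt.FourierStep
import Pool.Agent.Work.MP_6cd513_gt.BallInt

/-!
# Sections of the cube: the bound for all `1 ≤ k ≤ n`
-/

open Matrix Finset MeasureTheory

namespace Pool.Agent.Work.MP_6cd513_gt

theorem ballIneq : BallIneq := fun _ hp => ball_int hp

theorem fourierStep : FourierStep := fun _ _ _ hn _ _ hw hz hwz => fourier_step hn hw hz hwz

/-- the bound for frames, all `1 ≤ k ≤ n` -/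
theorem frames_bound {k n : ℕ} (hk : 1 ≤ k) (hn : k ≤ n) (v : Fin n → Fin k → ℝ) :
    Gv v ≤ maxVol n k := by
  by_cases h : 2 * k ≤ n
  · exact frames_bound2 hk h v
  · push Not at h
    exact frames_bound1 ballIneq fourierStep hk hn h v

end Pool.Agent.Work.MP_6cd513_gt
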