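import Mathlib

/-!
# The upper bound in the Fourier step
-/

open Finset MeasureTheory

namespace Pool.Agent.Work.MP_6cd513_gt

open Real in
theorem integral_cexp_Icc (τ : ℝ) :
    ∫ x in Set.Icc (-(1 / 2) : ℝ) (1 / 2), Complex.exp ((2 * π * τ * Complex.I : ℂ) * (x : ℂ))
      = ((sinc (π * τ) : ℝ) : ℂ) := by
  rw [integral_Icc_eq_integral_Ioc, ← intervalIntegral.integral_of_le (by norm_num)]
  rcases eq_or_ne τ 0 with rfl | h0
  · simp; norm_num
  · have hτ : (τ : ℂ) ≠ 0 := by exact_mod_cast h0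
    have hpi : (π : ℂ) ≠ 0 := by exact_mod_cast pi_ne_zero
    have hc : (2 * π * τ * Complex.I : ℂ) ≠ 0 :=
      mul_ne_zero (mul_ne_zero (mul_ne_zero two_ne_zero hpi) hτ) Complex.I_ne_zero
    rw [integral_exp_mul_complex hc, sinc_of_ne_zero (mul_ne_zero pi_ne_zero h0)]
    have e1 : (2 * π * τ * Complex.I : ℂ) * (((1 / 2 : ℝ)) : ℂ) = ((π * τ : ℝ) : ℂ) * Complex.I := by
      push_cast; ring
    have e2 : (2 * π * τ * Complex.I : ℂ) * (((-(1 / 2) : ℝ)) : ℂ)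
        = -((π * τ : ℝ) : ℂ) * Complex.I := by
      push_cast; ring
    rw [e1, e2]
    have h1 := Complex.two_sin ((π * τ : ℝ) : ℂ)
    have h2 : Complex.exp (((π * τ : ℝ) : ℂ) * Complex.I) - Complex.exp (-((π * τ : ℝ) : ℂ) * Complex.I)
        = 2 * Complex.sin ((π * τ : ℝ) : ℂ) * Complex.I := by
      rw [h1]
      have h3 := Complex.I_mul_I
      linear_combination (Complex.exp (((π * τ : ℝ) : ℂ) * Complex.I)
        - Complex.exp (-((π * τ : ℝ) : ℂ) * Complex.I)) * h3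
    rw [h2, ← Complex.ofReal_sin]
    push_cast
    have := Complex.I_ne_zero
    field_simp

open Real in
theorem fourier_upper {n m : ℕ} (z : Fin n → Fin m → ℝ) {t : ℝ} (ht : 0 < t) :
    ∫⁻ q : Fin n → ℝ in Set.pi Set.univ (fun _ => Set.Icc (-(1 / 2)) (1 / 2)),
        ENNReal.ofReal ((π / t) ^ ((m : ℝ) / 2) *
          exp (-(π ^ 2 / t) * ((∑ i, q i • z i) ⬝ᵥ (∑ i, q i • z i))))
      ≤ ∫⁻ a : Fin m → ℝ, ∏ i, ENNReal.ofReal |sinc (π * (z i ⬝ᵥ a))| := by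
  set ν : Measure ℝ := volume.restrict (Set.Icc (-(1 / 2) : ℝ) (1 / 2)) with hν
  have : IsFiniteMeasure ν := by
    rw [hν]; infer_instance
  set μ : Measure (Fin n → ℝ) := Measure.pi fun _ => ν with hμ
  have hμeq : (volume : Measure (Fin n → ℝ)).restrict
      (Set.pi Set.univ fun _ => Set.Icc (-(1 / 2) : ℝ) (1 / 2)) = μ := by
    rw [hμ, hν, ← Measure.restrict_pi_pi]
    rfl
  rw [hμeq]
  set F : (Fin n → ℝ) → ℝ := fun q => (π / t) ^ ((m : ℝ) / 2) *
          exp (-(π ^ 2 / t) * ((∑ i, q i • z i) ⬝ᵥ (∑ i, q i • z i))) with hF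
  have hFc : Continuous F := by
    simp only [hF, dotProduct, Finset.sum_apply, Pi.smul_apply, smul_eq_mul]
    fun_prop
  have hF0 : ∀ q, 0 ≤ F q := fun q => by simp only [hF]; positivity
  have hFb : ∀ q, ‖F q‖ ≤ (π / t) ^ ((m : ℝ) / 2) := by
    intro q
    rw [norm_of_nonneg (hF0 q)]
    refine mul_le_of_le_one_right (by positivity) (exp_le_one_iff.2 ?_)
    have h1 : 0 ≤ (∑ i, q i • z i) ⬝ᵥ (∑ i, q i • z i) :=
      Finset.sum_nonneg fun i _ => mul_self_nonneg _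
    have h2 : 0 ≤ π ^ 2 / t := by positivity
    nlinarith
  have hFi : Integrable F μ :=
    Integrable.of_bound hFc.aestronglyMeasurable _ (ae_of_all _ hFb)
  rw [← ofReal_integral_eq_lintegral_ofReal hFi (ae_of_all _ hF0)]
  -- the kernel
  set K : (Fin n → ℝ) → (Fin m → ℝ) → ℂ := fun q a =>
    Complex.exp (-(t : ℂ) * ∑ j, (a j : ℂ) ^ 2
      + ∑ j, (2 * π * (((∑ i, q i • z i) j : ℝ) : ℂ) * Complex.I) * (a j : ℂ)) with hK
  have hKint : ∀ q, ∫ a, K q a = ((F q : ℝ) : ℂ) := by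
    intro q
    simp only [hK]
    rw [GaussianFourier.integral_cexp_neg_mul_sum_add (b := (t : ℂ)) (by simpa using ht)]
    simp only [hF]
    push_cast
    rw [Complex.ofReal_cpow (by positivity)]
    have e1 : (∑ j, (2 * (π : ℂ) * (((∑ i, q i • z i) j : ℝ) : ℂ) * Complex.I) ^ 2) / (4 * (t : ℂ))
        = -((π : ℂ) ^ 2 / t) * (((∑ i, q i • z i) ⬝ᵥ (∑ i, q i • z i) : ℝ) : ℂ) := by
      have ht' : (t : ℂ) ≠ 0 := by exact_mod_cast ht.ne'
      simp only [dotProduct]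
      push_cast
      rw [Finset.mul_sum, Finset.sum_div]
      refine Finset.sum_congr rfl fun j _ => ?_
      have hI := Complex.I_sq
      field_simp
      rw [hI]; ring
    rw [e1]
    simp
  have hKe : ∀ q a, K q a = Complex.exp (-(t : ℂ) * ∑ j, (a j : ℂ) ^ 2)
      * ∏ i, Complex.exp ((2 * π * ((z i ⬝ᵥ a : ℝ) : ℂ) * Complex.I) * (q i : ℂ)) := by
    intro q a
    simp only [hK]
    rw [← Complex.exp_sum, ← Complex.exp_add]
    congr 2
    have h1 : ∑ j, (2 * (π : ℂ) * (((∑ i, q i • z i) j : ℝ) : ℂ) * Complex.I) * (a j : ℂ)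
        = 2 * π * Complex.I * ((∑ j, (∑ i, q i • z i) j * a j : ℝ) : ℂ) := by
      push_cast
      rw [Finset.mul_sum]
      refine Finset.sum_congr rfl fun j _ => by ring
    have h2 : ∑ i, (2 * (π : ℂ) * ((z i ⬝ᵥ a : ℝ) : ℂ) * Complex.I) * (q i : ℂ)
        = 2 * π * Complex.I * ((∑ i, q i * (z i ⬝ᵥ a) : ℝ) : ℂ) := by
      push_cast
      rw [Finset.mul_sum]
      refine Finset.sum_congr rfl fun j _ => by ring
    rw [h1, h2]
    congr 2
    simp only [dotProduct, Finset.sum_apply, Pi.smul_apply, smul_eq_mul, Finset.sum_mul,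
      Finset.mul_sum]
    rw [Finset.sum_comm]
    refine Finset.sum_congr rfl fun i _ => Finset.sum_congr rfl fun j _ => by ring
  have hKc : Continuous (Function.uncurry K) := by
    simp only [hK, Function.uncurry_def, Finset.sum_apply, Pi.smul_apply, smul_eq_mul]
    fun_prop
  have hKn : ∀ q a, ‖K q a‖ = exp (-t * ∑ j, (a j) ^ 2) := by
    intro q a
    rw [hKe, norm_mul, norm_prod]
    have h1 : ∀ i, ‖Complex.exp ((2 * π * ((z i ⬝ᵥ a : ℝ) : ℂ) * Complex.I) * (q i : ℂ))‖ = 1 := by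
      intro i
      have : (2 * (π : ℂ) * ((z i ⬝ᵥ a : ℝ) : ℂ) * Complex.I) * (q i : ℂ)
          = ((2 * π * (z i ⬝ᵥ a) * q i : ℝ) : ℂ) * Complex.I := by push_cast; ring
      rw [this, Complex.norm_exp_ofReal_mul_I]
    simp only [h1, Finset.prod_const_one, mul_one]
    have h2 : -(t : ℂ) * ∑ j, (a j : ℂ) ^ 2 = ((-t * ∑ j, (a j) ^ 2 : ℝ) : ℂ) := by push_cast; ring
    rw [h2, Complex.norm_exp_ofReal]
  have hgi : Integrable fun a : Fin m → ℝ => exp (-t * ∑ j, (a j) ^ 2) := by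
    have h1 := GaussianFourier.integrable_cexp_neg_mul_sum_add (ι := Fin m) (b := (t : ℂ))
      (by simpa using ht) (fun _ => 0)
    refine h1.norm.congr (ae_of_all _ fun a => ?_)
    simp only [zero_mul, Finset.sum_const_zero, add_zero]
    have h2 : -(t : ℂ) * ∑ j, (a j : ℂ) ^ 2 = ((-t * ∑ j, (a j) ^ 2 : ℝ) : ℂ) := by push_cast; ring
    rw [h2, Complex.norm_exp_ofReal]
  have hKi : Integrable (Function.uncurry K) (μ.prod volume) := by
    refine (hgi.comp_snd μ).mono' hKc.aestronglyMeasurable (ae_of_all _ fun p => ?_)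
    exact (hKn p.1 p.2).le
  have hswap : ∫ q, ∫ a, K q a ∂volume ∂μ = ∫ a, ∫ q, K q a ∂μ ∂volume :=
    integral_integral_swap hKi
  have hinner : ∀ a, ∫ q, K q a ∂μ = Complex.exp (-(t : ℂ) * ∑ j, (a j : ℂ) ^ 2)
      * ∏ i, ((sinc (π * (z i ⬝ᵥ a)) : ℝ) : ℂ) := by
    intro a
    simp_rw [hKe]
    rw [integral_const_mul, hμ, integral_fintype_prod_eq_prod (E := fun _ : Fin n => ℝ) (μ := fun _ : Fin n => ν)
      (fun i (x : ℝ) => Complex.exp ((2 * π * ((z i ⬝ᵥ a : ℝ) : ℂ) * Complex.I) * (x : ℂ)))]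
    congr 1
    refine Finset.prod_congr rfl fun i _ => ?_
    exact integral_cexp_Icc _
  simp_rw [hKint, hinner] at hswap
  rw [integral_complex_ofReal] at hswap
  have h1 : ENNReal.ofReal (∫ q, F q ∂μ) ≤ ‖((∫ q, F q ∂μ : ℝ) : ℂ)‖ₑ := by
    rw [← ofReal_norm, Complex.norm_real]
    exact ENNReal.ofReal_le_ofReal (le_norm_self _)
  refine h1.trans ?_
  rw [hswap]
  refine (enorm_integral_le_lintegral_enorm _).trans (lintegral_mono fun a => ?_)
  rw [enorm_mul]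
  have h2 : ‖Complex.exp (-(t : ℂ) * ∑ j, (a j : ℂ) ^ 2)‖ₑ ≤ 1 := by
    rw [← ofReal_norm]
    have h2 : -(t : ℂ) * ∑ j, (a j : ℂ) ^ 2 = ((-t * ∑ j, (a j) ^ 2 : ℝ) : ℂ) := by push_cast; ring
    rw [h2, Complex.norm_exp_ofReal]
    rw [ENNReal.ofReal_le_one]
    apply exp_le_one_iff.2
    have : 0 ≤ ∑ j, (a j) ^ 2 := Finset.sum_nonneg fun j _ => sq_nonneg _
    nlinarith
  have h3 : ‖∏ i, ((sinc (π * (z i ⬝ᵥ a)) : ℝ) : ℂ)‖ₑ = ∏ i, ENNReal.ofReal |sinc (π * (z i ⬝ᵥ a))| := by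
    rw [← ofReal_norm, norm_prod, ENNReal.ofReal_prod_of_nonneg fun i _ => norm_nonneg _]
    refine Finset.prod_congr rfl fun i _ => ?_
    rw [Complex.norm_real, norm_eq_abs]
  rw [h3]
  exact mul_le_of_le_one_left zero_le h2

end Pool.Agent.Work.MP_6cd513_gt
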