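import Pool.Agent.Work.MP_6cd513_gt.LocalVol2

/-!
# The local lemma
-/

open Matrix Finset MeasureTheory

namespace Pool.Agent.Work.MP_6cd513_gt

variable {ι : Type*} [Fintype ι] {κ : ℕ}

namespace Clus

theorem gram_diag {k : ℕ} (c : Clus ι k) (q : Fin k) :
    gramM c.v q q = c.D q + ∑ i, c.a i ^ 2 * c.σ i q ^ 2 := by
  rw [gramM_apply]
  have h1 : ∀ i, c.v i q * c.v i q = (if c.j i = q then c.a i ^ 2 else 0)
      + 2 * (if c.j i = q then c.a i ^ 2 * c.σ i q else 0) + c.a i ^ 2 * c.σ i q ^ 2 := by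
    intro i
    simp only [v]
    by_cases h : c.j i = q
    · rw [if_pos h.symm, if_pos h, if_pos h]; ring
    · rw [if_neg (fun h' => h h'.symm), if_neg h, if_neg h]; ring
  simp_rw [h1]
  rw [Finset.sum_add_distrib, Finset.sum_add_distrib, ← Finset.mul_sum, ← Finset.sum_filter,
    ← Finset.sum_filter, c.h1]
  simp [D]

theorem E_le {k : ℕ} (c : Clus ι k) {t1 : ℝ} (hown : ∀ i, |c.σ i (c.j i)| ≤ c.o i)
    (hD : ∀ q r, c.D q ≤ 16 * c.D r) (ht : ∀ i, c.o i ≤ t1) {X : ℝ}
    (hX : ∀ q, ∑ i with c.j i = q, c.p i * c.o i ≤ X) :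
    ∑ q, (gramM c.v q q - c.D q) / c.D q ≤ 32 * t1 * k * X := by
  have h1 : ∀ q, (gramM c.v q q - c.D q) / c.D q ≤ ∑ i, 16 * (c.p i * c.σ i q ^ 2) := by
    intro q
    rw [c.gram_diag, add_sub_cancel_left, Finset.sum_div]
    refine Finset.sum_le_sum fun i _ => ?_
    have hDq := c.D_pos q
    have hDj := c.D_pos (c.j i)
    have h2 := hD (c.j i) q
    rw [p, div_le_iff₀ hDq]
    have h3 : 16 * (c.a i ^ 2 / c.D (c.j i) * c.σ i q ^ 2) * c.D q
        = (c.a i ^ 2 * c.σ i q ^ 2) * (16 * c.D q / c.D (c.j i)) := by ring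
    rw [h3]
    have h4 : 1 ≤ 16 * c.D q / c.D (c.j i) := by rw [le_div_iff₀ hDj]; linarith
    nlinarith [mul_nonneg (sq_nonneg (c.a i)) (sq_nonneg (c.σ i q))]
  have h2 : ∀ i, ∑ q, c.σ i q ^ 2 ≤ 2 * (t1 * c.o i) := by
    intro i
    rw [← Finset.add_sum_erase _ _ (Finset.mem_univ (c.j i))]
    have h3 : c.σ i (c.j i) ^ 2 ≤ c.o i ^ 2 := by
      rw [← sq_abs]
      exact pow_le_pow_left₀ (abs_nonneg _) (hown i) 2
    have h4 : ∑ q ∈ Finset.univ.erase (c.j i), c.σ i q ^ 2 ≤ c.o i ^ 2 := by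
      rw [sq (c.o i)]
      calc ∑ q ∈ Finset.univ.erase (c.j i), c.σ i q ^ 2
          ≤ ∑ q ∈ Finset.univ.erase (c.j i), |c.σ i q| * c.o i := by
            refine Finset.sum_le_sum fun q hq => ?_
            rw [← sq_abs, sq]
            apply mul_le_mul_of_nonneg_left _ (abs_nonneg _)
            exact Finset.single_le_sum (f := fun q => |c.σ i q|) (fun r _ => abs_nonneg _) hq
        _ = c.o i * c.o i := by rw [← Finset.sum_mul]; rfl
    have h5 := ht i
    have h6 := c.o_nonneg i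
    nlinarith
  calc ∑ q, (gramM c.v q q - c.D q) / c.D q ≤ ∑ q, ∑ i, 16 * (c.p i * c.σ i q ^ 2) :=
        Finset.sum_le_sum fun q _ => h1 q
    _ = ∑ i, 16 * (c.p i * ∑ q, c.σ i q ^ 2) := by
        rw [Finset.sum_comm]
        refine Finset.sum_congr rfl fun i _ => ?_
        rw [Finset.mul_sum, Finset.mul_sum]
    _ ≤ ∑ i, 16 * (c.p i * (2 * (t1 * c.o i))) := by
        refine Finset.sum_le_sum fun i _ => ?_
        apply mul_le_mul_of_nonneg_left _ (by norm_num)
        exact mul_le_mul_of_nonneg_left (h2 i) (c.p_pos i).le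
    _ = 32 * t1 * ∑ i, c.p i * c.o i := by
        rw [Finset.mul_sum]
        exact Finset.sum_congr rfl fun i _ => by ring
    _ = 32 * t1 * ∑ q, ∑ i with c.j i = q, c.p i * c.o i := by
        rw [Finset.sum_fiberwise]
    _ ≤ 32 * t1 * (k * X) := by
        have ht0 : 0 ≤ 32 * t1 ∨ IsEmpty ι := by
          by_cases h : Nonempty ι
          · left
            obtain ⟨i⟩ := h
            linarith [(c.o_nonneg i).trans (ht i)]
          · right
            exact not_nonempty_iff.1 h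
        rcases ht0 with ht0 | hemp
        · apply mul_le_mul_of_nonneg_left _ ht0
          calc _ ≤ ∑ _q : Fin k, X := Finset.sum_le_sum fun q _ => hX q
            _ = k * X := by simp
        · have hk0 : k = 0 := by
            by_contra hk
            obtain ⟨i, _⟩ := c.hne ⟨0, Nat.pos_of_ne_zero hk⟩
            exact hemp.elim i
          subst hk0
          simp
    _ = _ := by ring

/-- **Local lemma.** -/
theorem local_lemma (c : Clus ι (κ + 1)) (hκ : 1 ≤ κ) {R t1 : ℝ} (hR : 1 ≤ R)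
    (hβR : ∀ q r, c.β q ≤ R * c.β r) (ht : ∀ i, c.o i ≤ t1)
    (ht1 : t1 * (128 * κ * (κ + 1) * R) ≤ 1)
    (hown : ∀ i, |c.σ i (c.j i)| ≤ c.o i) (hD : ∀ q r, c.D q ≤ 16 * c.D r) :
    Real.sqrt (gramM c.v).det * (volume c.K).toReal ≤
      Real.sqrt (∏ q, ((Finset.univ.filter (fun i => c.j i = q)).card : ℝ)) := by
  have hκ' : (1 : ℝ) ≤ κ := by exact_mod_cast hκ
  have hR0 : 0 < R := by linarith
  have ht0 : 0 ≤ t1 := by
    obtain ⟨i, _⟩ := c.hne 0
    exact (c.o_nonneg i).trans (ht i)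
  have hRt : R * t1 ≤ 2 := by
    have h1 : 1 ≤ 128 * (κ : ℝ) * (κ + 1) := by nlinarith
    have h2 : t1 * R * 1 ≤ t1 * R * (128 * (κ : ℝ) * (κ + 1)) :=
      mul_le_mul_of_nonneg_left h1 (by positivity)
    nlinarith
  -- the cluster with the largest tilt
  obtain ⟨q0, _, hq0⟩ := Finset.exists_max_image Finset.univ
    (fun q => ∑ i with c.j i = q, c.p i * c.o i) ⟨(0 : Fin (κ + 1)), Finset.mem_univ _⟩
  set X := ∑ i with c.j i = q0, c.p i * c.o i with hX
  have hX0 : 0 ≤ X := Finset.sum_nonneg fun i _ => mul_nonneg (c.p_pos i).le (c.o_nonneg i)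
  have hE := c.E_le hown hD ht (X := X) (fun q => hq0 q (Finset.mem_univ q))
  have hdet := det_gram_le c.v c.D c.D_pos
  have hvol := c.vol_K hκ hR hβR ht hRt q0
  rw [← hX] at hvol
  set y := X / (8 * κ * R) with hy
  have hy0 : 0 ≤ y := by positivity
  have hE2 : (∑ q, (gramM c.v q q - c.D q) / c.D q) / 2 ≤ y := by
    have h1 : 32 * t1 * ((κ + 1 : ℕ) : ℝ) * X / 2 ≤ y := by
      rw [hy, le_div_iff₀ (by positivity)]
      push_cast
      have h2 : t1 * (128 * κ * (κ + 1) * R) * X ≤ 1 * X := mul_le_mul_of_nonneg_right ht1 hX0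
      linarith
    linarith
  have hP0 : 0 < ∏ q, c.D q := Finset.prod_pos fun q _ => c.D_pos q
  have hs1 : Real.sqrt (gramM c.v).det ≤ Real.sqrt (∏ q, c.D q) * Real.exp y := by
    have h1 : (gramM c.v).det ≤ (∏ q, c.D q) * (Real.exp y) ^ 2 := by
      refine hdet.trans ?_
      apply mul_le_mul_of_nonneg_left _ hP0.le
      rw [← Real.exp_nat_mul]
      apply Real.exp_le_exp.2
      push_cast
      linarith
    calc Real.sqrt (gramM c.v).det ≤ Real.sqrt ((∏ q, c.D q) * (Real.exp y) ^ 2) :=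
          Real.sqrt_le_sqrt h1
      _ = _ := by rw [Real.sqrt_mul hP0.le, Real.sqrt_sq (Real.exp_pos _).le]
  have hB0 : 0 < ∏ r, (2 * c.β r) := Finset.prod_pos fun r _ => by
    have := c.β_pos r; positivity
  have h2 : Real.sqrt (gramM c.v).det * (volume c.K).toReal ≤
      Real.sqrt (∏ q, c.D q) * ∏ r, (2 * c.β r) := by
    calc Real.sqrt (gramM c.v).det * (volume c.K).toReal
        ≤ (Real.sqrt (∏ q, c.D q) * Real.exp y) * ((∏ r, (2 * c.β r)) * (1 - y)) :=
          mul_le_mul hs1 hvol ENNReal.toReal_nonneg (by positivity)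
      _ = Real.sqrt (∏ q, c.D q) * (∏ r, (2 * c.β r)) * (Real.exp y * (1 - y)) := by ring
      _ ≤ Real.sqrt (∏ q, c.D q) * (∏ r, (2 * c.β r)) * 1 := by
          apply mul_le_mul_of_nonneg_left _ (by positivity)
          have h3 : 1 - y ≤ Real.exp (-y) := by
            have := Real.add_one_le_exp (-y); linarith
          calc Real.exp y * (1 - y) ≤ Real.exp y * Real.exp (-y) :=
                mul_le_mul_of_nonneg_left h3 (Real.exp_pos _).le
            _ = 1 := by rw [← Real.exp_add, add_neg_cancel, Real.exp_zero]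
      _ = _ := by rw [mul_one]
  refine h2.trans ?_
  apply Real.le_sqrt_of_sq_le
  rw [mul_pow, Real.sq_sqrt hP0.le, ← Finset.prod_pow, ← Finset.prod_mul_distrib]
  refine Finset.prod_le_prod (fun q _ => ?_) (fun q _ => ?_)
  · have := c.D_pos q; positivity
  · have hDq := c.D_pos q
    have h3 : c.D q * (2 * c.β q) ^ 2 = c.S q ^ 2 / c.D q := by
      unfold β
      field_simp
    rw [h3, div_le_iff₀ hDq]
    exact sq_sum_le_card_mul_sum_sq

end Clus

end Pool.Agent.Work.MP_6cd513_gt
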