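import Pool.Agent.Work.MP_6cd513_gt.Corner
import Pool.Agent.Work.MP_6cd513_gt.LocalFinal

/-!
# The functional `G(v) = sqrt(det ∑ v_i v_iᵀ) · vol {x : |v_i·x| ≤ 1/2}`
-/

open Matrix Finset MeasureTheory

namespace Pool.Agent.Work.MP_6cd513_gt

variable {ι : Type} [Fintype ι] {k : ℕ}

/-- the symmetric polytope -/
def bodyK (v : ι → Fin k → ℝ) : Set (Fin k → ℝ) := {x | ∀ i, |v i ⬝ᵥ x| ≤ 1 / 2}

/-- the `GL_k`-invariant functional -/
noncomputable def Gv (v : ι → Fin k → ℝ) : ℝ :=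
  Real.sqrt (gramM v).det * (volume (bodyK v)).toReal

theorem gramM_eq (w : ι → Fin k → ℝ) : gramM w = (Matrix.of w)ᵀ * Matrix.of w := by
  ext p q
  rw [gramM_apply, mul_apply]
  rfl

theorem gramM_vecMul (w : ι → Fin k → ℝ) (U : Matrix (Fin k) (Fin k) ℝ) :
    gramM (fun i => w i ᵥ* U) = Uᵀ * gramM w * U := by
  have h : Matrix.of (fun i => w i ᵥ* U) = Matrix.of w * U := by
    ext i p
    rw [mul_apply]
    rfl
  rw [gramM_eq, h, transpose_mul, gramM_eq]
  simp only [Matrix.mul_assoc]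

omit [Fintype ι] in
theorem bodyK_vecMul (w : ι → Fin k → ℝ) (U : Matrix (Fin k) (Fin k) ℝ) :
    bodyK (fun i => w i ᵥ* U) = {x | U *ᵥ x ∈ bodyK w} := by
  ext x
  simp only [bodyK, Set.mem_ofPred_eq, ← dotProduct_mulVec]

theorem Gv_vecMul (w : ι → Fin k → ℝ) {U : Matrix (Fin k) (Fin k) ℝ} (hU : U.det ≠ 0) :
    Gv (fun i => w i ᵥ* U) = Gv w := by
  unfold Gv
  rw [gramM_vecMul, bodyK_vecMul, vol_preimage hU, det_mul, det_mul, det_transpose,
    ENNReal.toReal_mul, ENNReal.toReal_ofReal (abs_nonneg _)]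
  have h1 : U.det * (gramM w).det * U.det = |U.det| ^ 2 * (gramM w).det := by
    rw [sq_abs]; ring
  rw [h1, Real.sqrt_mul (sq_nonneg _), Real.sqrt_sq (abs_nonneg _), abs_inv]
  have h2 : |U.det| ≠ 0 := abs_ne_zero.2 hU
  field_simp

theorem Gv_sign {v v' : ι → Fin k → ℝ} (h : ∀ i, v' i = v i ∨ v' i = -v i) : Gv v' = Gv v := by
  have h1 : gramM v' = gramM v := by
    ext p q
    rw [gramM_apply, gramM_apply]
    refine Finset.sum_congr rfl fun i _ => ?_
    rcases h i with h' | h' <;> rw [h']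
    simp
  have h2 : bodyK v' = bodyK v := by
    ext x
    simp only [bodyK, Set.mem_ofPred_eq]
    refine forall_congr' fun i => ?_
    rcases h i with h' | h' <;> rw [h']
    rw [neg_dotProduct, abs_neg]
  unfold Gv
  rw [h1, h2]

/-- every nondegenerate family is the image of a tight frame -/
theorem exists_tight (v : ι → Fin k → ℝ) (hv : (gramM v).det ≠ 0) :
    ∃ (w : ι → Fin k → ℝ) (U : Matrix (Fin k) (Fin k) ℝ), U.det ≠ 0 ∧ gramM w = 1 ∧
      v = fun i => w i ᵥ* U := by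
  classical
  set hH := frameM_isHermitian (fun _ => (1 : ℝ)) v
  let f : Fin k → Fin k → ℝ := fun m => ⇑(hH.eigenvectorBasis m)
  let lam : Fin k → ℝ := hH.eigenvalues
  have hMf : ∀ m, gramM v *ᵥ f m = lam m • f m := fun m => hH.mulVec_eigenvectorBasis m
  have hlam0 : ∀ m, 0 ≤ lam m := gram_eigen_nonneg v
  have hpars : ∀ x y : Fin k → ℝ, ∑ m, (x ⬝ᵥ f m) * (y ⬝ᵥ f m) = x ⬝ᵥ y := by
    intro x y
    have h := hH.eigenvectorBasis.sum_inner_mul_inner (WithLp.toLp 2 x) (WithLp.toLp 2 y)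
    simp only [EuclideanSpace.inner_eq_star_dotProduct, star_trivial] at h
    rw [dotProduct_comm x y, ← h]
    refine Finset.sum_congr rfl fun m _ => ?_
    rw [dotProduct_comm x]
  let U : Matrix (Fin k) (Fin k) ℝ := Matrix.of fun m p => Real.sqrt (lam m) * f m p
  have hsymm : ∀ x y : Fin k → ℝ, x ⬝ᵥ (gramM v *ᵥ y) = y ⬝ᵥ (gramM v *ᵥ x) := by
    intro x y
    rw [gramM, dot_frameM_mulVec, dot_frameM_mulVec]
    exact Finset.sum_congr rfl fun i _ => by ring
  have hUU : Uᵀ * U = gramM v := by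
    ext p q
    rw [mul_apply]
    have h1 : gramM v p q = (Pi.single p 1) ⬝ᵥ (gramM v *ᵥ (Pi.single q 1)) := by
      rw [mulVec_single_one, single_one_dotProduct]; rfl
    rw [h1, ← hpars]
    refine Finset.sum_congr rfl fun m _ => ?_
    rw [dotProduct_comm (gramM v *ᵥ Pi.single q 1), hsymm, hMf m, dotProduct_smul,
      single_one_dotProduct, single_one_dotProduct]
    simp only [U, transpose_apply, of_apply, smul_eq_mul]
    have := Real.mul_self_sqrt (hlam0 m)
    calc Real.sqrt (lam m) * f m p * (Real.sqrt (lam m) * f m q)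
        = (Real.sqrt (lam m) * Real.sqrt (lam m)) * (f m p * f m q) := by ring
      _ = _ := by rw [this]; ring
  have hdet : U.det ≠ 0 := by
    intro h0
    apply hv
    rw [← hUU, det_mul, h0, mul_zero]
  have hunit : IsUnit U.det := isUnit_iff_ne_zero.2 hdet
  refine ⟨fun i => v i ᵥ* U⁻¹, U, hdet, ?_, ?_⟩
  · rw [gramM_vecMul, ← hUU, transpose_nonsing_inv]
    have hunitT : IsUnit (Uᵀ).det := by rw [det_transpose]; exact hunit
    rw [← Matrix.mul_assoc, nonsing_inv_mul _ hunitT, Matrix.one_mul, mul_nonsing_inv _ hunit]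
  · ext i p
    simp only [vecMul_vecMul, nonsing_inv_mul _ hunit, vecMul_one]

/-- tight frames have bounded body -/
theorem bodyK_tight_finite {w : ι → Fin k → ℝ} (hw : gramM w = 1) : volume (bodyK w) ≠ ⊤ := by
  have hsub : bodyK w ⊆ Metric.closedBall 0 (Fintype.card ι) := by
    intro x hx
    rw [mem_closedBall_zero_iff, pi_norm_le_iff_of_nonneg (by positivity)]
    intro p
    have h1 := iso_dot (α := fun _ => (1 : ℝ)) (u := w) hw x x
    have h2 : x ⬝ᵥ x ≤ (Fintype.card ι : ℝ) := by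
      rw [← h1]
      calc ∑ i, 1 * (w i ⬝ᵥ x * (w i ⬝ᵥ x)) ≤ ∑ _i : ι, (1 : ℝ) := by
            refine Finset.sum_le_sum fun i _ => ?_
            have h3 := abs_le.1 (hx i)
            nlinarith [h3.1, h3.2]
        _ = Fintype.card ι := by simp
    have h3 : x p * x p ≤ x ⬝ᵥ x := by
      rw [dotProduct]
      exact Finset.single_le_sum (f := fun r => x r * x r) (fun r _ => mul_self_nonneg _)
        (Finset.mem_univ p)
    rw [Real.norm_eq_abs]
    by_cases hc : Fintype.card ι = 0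
    · rw [hc] at h2 ⊢
      push_cast at h2 ⊢
      have : x p * x p = 0 := le_antisymm (h3.trans h2) (mul_self_nonneg _)
      rw [mul_self_eq_zero.1 this]
      simp
    · have hc1 : (1 : ℝ) ≤ Fintype.card ι := by exact_mod_cast Nat.one_le_iff_ne_zero.2 hc
      apply abs_le_of_sq_le_sq _ (by positivity)
      nlinarith
  exact ne_top_of_le_ne_top (by
    rw [Real.volume_pi_closedBall _ (by positivity)]
    exact ENNReal.ofReal_ne_top) (measure_mono hsub)

theorem bodyK_finite {v : ι → Fin k → ℝ} (hv : (gramM v).det ≠ 0) : volume (bodyK v) ≠ ⊤ := by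
  obtain ⟨w, U, hU, hw, rfl⟩ := exists_tight v hv
  rw [bodyK_vecMul, vol_preimage hU]
  exact ENNReal.mul_ne_top ENNReal.ofReal_ne_top (bodyK_tight_finite hw)

theorem Gv_tight {w : ι → Fin k → ℝ} (hw : gramM w = 1) : Gv w = (volume (bodyK w)).toReal := by
  unfold Gv
  rw [hw, det_one, Real.sqrt_one, one_mul]

/-- dropping one vector of a tight frame -/
theorem Gv_drop [DecidableEq ι] {w : ι → Fin k → ℝ} (hw : gramM w = 1) (i0 : ι)
    (hα : w i0 ⬝ᵥ w i0 < 1) :
    Gv w * Real.sqrt (1 - w i0 ⬝ᵥ w i0) ≤ Gv (fun i : {i // i ≠ i0} => w i) := by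
  have h1 : gramM (fun i : {i // i ≠ i0} => w i) = 1 - vecMulVec (w i0) (w i0) := by
    ext p q
    rw [gramM_apply, Matrix.sub_apply, ← hw, gramM_apply, vecMulVec_apply]
    have h2 := Finset.sum_erase_eq_sub (f := fun i => w i p * w i q) (Finset.mem_univ i0)
    rw [← h2]
    exact (Finset.sum_subtype (Finset.univ.erase i0) (by simp) (fun i => w i p * w i q)).symm
  have h2 : (1 - vecMulVec (w i0) (w i0)).det = 1 - w i0 ⬝ᵥ w i0 := by
    have h3 : (1 : Matrix (Fin k) (Fin k) ℝ) - vecMulVec (w i0) (w i0)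
        = 1 + replicateCol Unit (-w i0) * replicateRow Unit (w i0) := by
      rw [← vecMulVec_eq, neg_vecMulVec, sub_eq_add_neg]
    rw [h3, det_one_add_replicateCol_mul_replicateRow, dotProduct_neg, sub_eq_add_neg]
  have hdet : (gramM (fun i : {i // i ≠ i0} => w i)).det ≠ 0 := by
    rw [h1, h2]; linarith
  have hsub : bodyK w ⊆ bodyK (fun i : {i // i ≠ i0} => w i) := fun x hx i => hx i
  rw [Gv_tight hw]
  unfold Gv
  rw [h1, h2, mul_comm]
  apply mul_le_mul_of_nonneg_left _ (Real.sqrt_nonneg _)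
  exact ENNReal.toReal_mono (bodyK_finite hdet) (measure_mono hsub)

end Pool.Agent.Work.MP_6cd513_gt
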