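import Mathlib

/-!
# Polynomial inequalities for the pairs with a heavy group
-/

set_option linter.unusedVariables false

namespace Pool.Agent.Work.MP_6cd513_gt

/-- heavy-light polynomial, `l = 2`, light multiplicity `1` -/
theorem hl_poly_2_1 {u v : ℝ} (h0 : 0 ≤ u) (h1 : u ≤ 1) (k0 : 0 ≤ v) (k1 : v ≤ 1) :
    0 ≤ (350 / 1000 * (2 + u) * ((2 + v) ^ 2 - 4 / 9 * (2 + v - 1) ^ 2) - 856 / 10000 * (263 / 250 * u * ((2 + v) ^ 2 - 4 / 9 * (2 + v - 1) ^ 2) + (2 + v - 1) * (2 + v) * (2 + u))) * (1 - u * (2 + v - 1) / (2 * 1)) * (2 + v - 1)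
      - (2 + u) ^ 2 * (1 - u) * (946 / 10000 * (1 - u) + 730 / 10000 * u) * ((2 + v) ^ 2 - 4 / 9 * (2 + v - 1) ^ 2) * (2 + v - 1) - (2 + v) * v * (1 - v) * (946 / 10000 * (1 - v) + 730 / 10000 * v) * (2 + u) * ((2 + v) ^ 2 - 4 / 9 * (2 + v - 1) ^ 2) := by
  obtain ⟨w, hw⟩ : ∃ w, w = 1 - u := ⟨_, rfl⟩
  obtain ⟨z, hz⟩ : ∃ z, z = 1 - v := ⟨_, rfl⟩
  have hw0 : 0 ≤ w := by linarith
  have hz0 : 0 ≤ z := by linarith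
  have key : (350 / 1000 * (2 + u) * ((2 + v) ^ 2 - 4 / 9 * (2 + v - 1) ^ 2) - 856 / 10000 * (263 / 250 * u * ((2 + v) ^ 2 - 4 / 9 * (2 + v - 1) ^ 2) + (2 + v - 1) * (2 + v) * (2 + u))) * (1 - u * (2 + v - 1) / (2 * 1)) * (2 + v - 1)
      - (2 + u) ^ 2 * (1 - u) * (946 / 10000 * (1 - u) + 730 / 10000 * u) * ((2 + v) ^ 2 - 4 / 9 * (2 + v - 1) ^ 2) * (2 + v - 1) - (2 + v) * v * (1 - v) * (946 / 10000 * (1 - v) + 730 / 10000 * v) * (2 + u) * ((2 + v) ^ 2 - 4 / 9 * (2 + v - 1) ^ 2) =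
      1502/1875 * w ^ 4 * z ^ 6 + 26713/5625 * w ^ 4 * v * z ^ 5
      + 67646/5625 * w ^ 4 * v ^ 2 * z ^ 4 + 200353/11250 * w ^ 4 * v ^ 3 * z ^ 3
      + 386983/22500 * w ^ 4 * v ^ 4 * z ^ 2 + 75623/7500 * w ^ 4 * v ^ 5 * z
      + 4858/1875 * w ^ 4 * v ^ 6 + 2243872/703125 * u * w ^ 3 * z ^ 6
      + 12056992/703125 * u * w ^ 3 * v * z ^ 5
      + 104175617/2812500 * u * w ^ 3 * v ^ 2 * z ^ 4
      + 126125593/2812500 * u * w ^ 3 * v ^ 3 * z ^ 3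
      + 212813749/5625000 * u * w ^ 3 * v ^ 4 * z ^ 2
      + 126356177/5625000 * u * w ^ 3 * v ^ 5 * z + 883496/140625 * u * w ^ 3 * v ^ 6
      + 506249/93750 * u ^ 2 * w ^ 2 * z ^ 6 + 8627339/312500 * u ^ 2 * w ^ 2 * v * z ^ 5
      + 6606319/125000 * u ^ 2 * w ^ 2 * v ^ 2 * z ^ 4
      + 92087401/1875000 * u ^ 2 * w ^ 2 * v ^ 3 * z ^ 3
      + 6646546/234375 * u ^ 2 * w ^ 2 * v ^ 4 * z ^ 2
      + 3455251/234375 * u ^ 2 * w ^ 2 * v ^ 5 * z + 292127/62500 * u ^ 2 * w ^ 2 * v ^ 6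
      + 3189619/703125 * u ^ 3 * w * z ^ 6 + 16595237/703125 * u ^ 3 * w * v * z ^ 5
      + 255241133/5625000 * u ^ 3 * w * v ^ 2 * z ^ 4
      + 222123473/5625000 * u ^ 3 * w * v ^ 3 * z ^ 3
      + 45829043/2812500 * u ^ 3 * w * v ^ 4 * z ^ 2
      + 2129491/468750 * u ^ 3 * w * v ^ 5 * z + 728059/562500 * u ^ 3 * w * v ^ 6
      + 2038747/1406250 * u ^ 4 * z ^ 6 + 4381073/562500 * u ^ 4 * v * z ^ 5
      + 10960814/703125 * u ^ 4 * v ^ 2 * z ^ 4 + 9918307/703125 * u ^ 4 * v ^ 3 * z ^ 3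
      + 30753481/5625000 * u ^ 4 * v ^ 4 * z ^ 2 + 728059/1125000 * u ^ 4 * v ^ 5 * z := by
    rw [hw, hz]; ring
  rw [key]; positivity

/-- heavy-light polynomial, `l = 3`, light multiplicity `1` -/
theorem hl_poly_3_1 {u v : ℝ} (h0 : 0 ≤ u) (h1 : u ≤ 1) (k0 : 0 ≤ v) (k1 : v ≤ 1) :
    0 ≤ (350 / 1000 * (3 + u) * ((3 + v) ^ 2 - 4 / 9 * (3 + v - 1) ^ 2) - 856 / 10000 * (103 / 100 * u * ((3 + v) ^ 2 - 4 / 9 * (3 + v - 1) ^ 2) + (3 + v - 1) * (3 + v) * (3 + u))) * (1 - u * (3 + v - 1) / (3 * 1)) * (3 + v - 1)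
      - (3 + u) ^ 2 * (1 - u) * (1 / 21 : ℝ) * ((3 + v) ^ 2 - 4 / 9 * (3 + v - 1) ^ 2) * (3 + v - 1) - (3 + v) * v * (1 - v) * (1 / 21 : ℝ) * (3 + u) * ((3 + v) ^ 2 - 4 / 9 * (3 + v - 1) ^ 2) := by
  obtain ⟨w, hw⟩ : ∃ w, w = 1 - u := ⟨_, rfl⟩
  obtain ⟨z, hz⟩ : ∃ z, z = 1 - v := ⟨_, rfl⟩
  have hw0 : 0 ≤ w := by linarith
  have hz0 : 0 ≤ z := by linarith
  have key : (350 / 1000 * (3 + u) * ((3 + v) ^ 2 - 4 / 9 * (3 + v - 1) ^ 2) - 856 / 10000 * (103 / 100 * u * ((3 + v) ^ 2 - 4 / 9 * (3 + v - 1) ^ 2) + (3 + v - 1) * (3 + v) * (3 + u))) * (1 - u * (3 + v - 1) / (3 * 1)) * (3 + v - 1)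
      - (3 + u) ^ 2 * (1 - u) * (1 / 21 : ℝ) * ((3 + v) ^ 2 - 4 / 9 * (3 + v - 1) ^ 2) * (3 + v - 1) - (3 + v) * v * (1 - v) * (1 / 21 : ℝ) * (3 + u) * ((3 + v) ^ 2 - 4 / 9 * (3 + v - 1) ^ 2) =
      154733/26250 * w ^ 3 * z ^ 5 + 560081/17500 * w ^ 3 * v * z ^ 4
      + 5578907/78750 * w ^ 3 * v ^ 2 * z ^ 3 + 4280659/52500 * w ^ 3 * v ^ 3 * z ^ 2
      + 62313/1250 * w ^ 3 * v ^ 4 * z + 57429/4375 * w ^ 3 * v ^ 5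
      + 11375729/787500 * u * w ^ 2 * z ^ 5 + 563100623/7875000 * u * w ^ 2 * v * z ^ 4
      + 1675871929/11812500 * u * w ^ 2 * v ^ 2 * z ^ 3
      + 230940637/1575000 * u * w ^ 2 * v ^ 3 * z ^ 2
      + 18345039/218750 * u * w ^ 2 * v ^ 4 * z + 4880727/218750 * u * w ^ 2 * v ^ 5
      + 560419/43750 * u ^ 2 * w * z ^ 5 + 165372344/2953125 * u ^ 2 * w * v * z ^ 4
      + 2150593061/23625000 * u ^ 2 * w * v ^ 2 * z ^ 3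
      + 550665379/7875000 * u ^ 2 * w * v ^ 3 * z ^ 2
      + 19205069/656250 * u ^ 2 * w * v ^ 4 * z + 1634277/218750 * u ^ 2 * w * v ^ 5
      + 1669487/337500 * u ^ 3 * z ^ 5 + 488661233/23625000 * u ^ 3 * v * z ^ 4
      + 711521303/23625000 * u ^ 3 * v ^ 2 * z ^ 3
      + 33421511/1968750 * u ^ 3 * v ^ 3 * z ^ 2 + 544759/218750 * u ^ 3 * v ^ 4 * z := by
    rw [hw, hz]; ring
  rw [key]; positivity

/-- heavy-light polynomial, `l = 3`, light multiplicity `2` -/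
theorem hl_poly_3_2 {u v : ℝ} (h0 : 0 ≤ u) (h1 : u ≤ 1) (k0 : 0 ≤ v) (k1 : v ≤ 1) :
    0 ≤ (350 / 1000 * (3 + u) * ((3 + v) ^ 2 - 4 / 9 * (3 + v - 2) ^ 2) - 856 / 10000 * (103 / 100 * u * ((3 + v) ^ 2 - 4 / 9 * (3 + v - 2) ^ 2) + (3 + v - 2) * (3 + v) * (3 + u))) * (1 - u * (3 + v - 2) / (3 * 2)) * (3 + v - 2)
      - (3 + u) ^ 2 * (1 - u) * (1 / 21 : ℝ) * ((3 + v) ^ 2 - 4 / 9 * (3 + v - 2) ^ 2) * (3 + v - 2) - (3 + v) * v * (1 - v) * (1 / 21 : ℝ) * (3 + u) * ((3 + v) ^ 2 - 4 / 9 * (3 + v - 2) ^ 2) := by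
  obtain ⟨w, hw⟩ : ∃ w, w = 1 - u := ⟨_, rfl⟩
  obtain ⟨z, hz⟩ : ∃ z, z = 1 - v := ⟨_, rfl⟩
  have hw0 : 0 ≤ w := by linarith
  have hz0 : 0 ≤ z := by linarith
  have key : (350 / 1000 * (3 + u) * ((3 + v) ^ 2 - 4 / 9 * (3 + v - 2) ^ 2) - 856 / 10000 * (103 / 100 * u * ((3 + v) ^ 2 - 4 / 9 * (3 + v - 2) ^ 2) + (3 + v - 2) * (3 + v) * (3 + u))) * (1 - u * (3 + v - 2) / (3 * 2)) * (3 + v - 2)
      - (3 + u) ^ 2 * (1 - u) * (1 / 21 : ℝ) * ((3 + v) ^ 2 - 4 / 9 * (3 + v - 2) ^ 2) * (3 + v - 2) - (3 + v) * v * (1 - v) * (1 / 21 : ℝ) * (3 + u) * ((3 + v) ^ 2 - 4 / 9 * (3 + v - 2) ^ 2) =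
      34097/7500 * w ^ 3 * z ^ 5 + 338099/13125 * w ^ 3 * v * z ^ 4
      + 9460777/157500 * w ^ 3 * v ^ 2 * z ^ 3 + 5799251/78750 * w ^ 3 * v ^ 3 * z ^ 2
      + 380162/7875 * w ^ 3 * v ^ 4 * z + 178072/13125 * w ^ 3 * v ^ 5
      + 8704979/562500 * u * w ^ 2 * z ^ 5 + 227618483/2625000 * u * w ^ 2 * v * z ^ 4
      + 4693020767/23625000 * u * w ^ 2 * v ^ 2 * z ^ 3
      + 2813077297/11812500 * u * w ^ 2 * v ^ 3 * z ^ 2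
      + 90204524/590625 * u * w ^ 2 * v ^ 4 * z + 4621944/109375 * u * w ^ 2 * v ^ 5
      + 42792121/2250000 * u ^ 2 * w * z ^ 5 + 5060623433/47250000 * u ^ 2 * w * v * z ^ 4
      + 103163878/421875 * u ^ 2 * w * v ^ 2 * z ^ 3
      + 3413423333/11812500 * u ^ 2 * w * v ^ 3 * z ^ 2
      + 177958966/984375 * u ^ 2 * w * v ^ 4 * z + 28680656/590625 * u ^ 2 * w * v ^ 5
      + 11470783/1350000 * u ^ 3 * z ^ 5 + 109887959/2250000 * u ^ 3 * v * z ^ 4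
      + 2667397951/23625000 * u ^ 3 * v ^ 2 * z ^ 3
      + 787179343/5906250 * u ^ 3 * v ^ 3 * z ^ 2 + 241665028/2953125 * u ^ 3 * v ^ 4 * z
      + 8953856/421875 * u ^ 3 * v ^ 5 := by
    rw [hw, hz]; ring
  rw [key]; positivity

/-- heavy-light polynomial, `l = 4`, light multiplicity `1` -/
theorem hl_poly_4_1 {u v : ℝ} (h0 : 0 ≤ u) (h1 : u ≤ 1) (k0 : 0 ≤ v) (k1 : v ≤ 1) :
    0 ≤ (350 / 1000 * (4 + u) * ((4 + v) ^ 2 - 4 / 9 * (4 + v - 1) ^ 2) - 856 / 10000 * (1019 / 1000 * u * ((4 + v) ^ 2 - 4 / 9 * (4 + v - 1) ^ 2) + (4 + v - 1) * (4 + v) * (4 + u))) * (1 - u * (4 + v - 1) / (4 * 1)) * (4 + v - 1)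
      - (4 + u) ^ 2 * (1 - u) * (1 / 36 : ℝ) * ((4 + v) ^ 2 - 4 / 9 * (4 + v - 1) ^ 2) * (4 + v - 1) - (4 + v) * v * (1 - v) * (1 / 36 : ℝ) * (4 + u) * ((4 + v) ^ 2 - 4 / 9 * (4 + v - 1) ^ 2) := by
  obtain ⟨w, hw⟩ : ∃ w, w = 1 - u := ⟨_, rfl⟩
  obtain ⟨z, hz⟩ : ∃ z, z = 1 - v := ⟨_, rfl⟩
  have hw0 : 0 ≤ w := by linarith
  have hz0 : 0 ≤ z := by linarith
  have key : (350 / 1000 * (4 + u) * ((4 + v) ^ 2 - 4 / 9 * (4 + v - 1) ^ 2) - 856 / 10000 * (1019 / 1000 * u * ((4 + v) ^ 2 - 4 / 9 * (4 + v - 1) ^ 2) + (4 + v - 1) * (4 + v) * (4 + u))) * (1 - u * (4 + v - 1) / (4 * 1)) * (4 + v - 1)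
      - (4 + u) ^ 2 * (1 - u) * (1 / 36 : ℝ) * ((4 + v) ^ 2 - 4 / 9 * (4 + v - 1) ^ 2) * (4 + v - 1) - (4 + v) * v * (1 - v) * (1 / 36 : ℝ) * (4 + u) * ((4 + v) ^ 2 - 4 / 9 * (4 + v - 1) ^ 2) =
      13796/625 * w ^ 3 * z ^ 5 + 677762/5625 * w ^ 3 * v * z ^ 4
      + 4490819/16875 * w ^ 3 * v ^ 2 * z ^ 3 + 15147524/50625 * w ^ 3 * v ^ 3 * z ^ 2
      + 8729104/50625 * w ^ 3 * v ^ 4 * z + 414956/10125 * w ^ 3 * v ^ 5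
      + 16263703/312500 * u * w ^ 2 * z ^ 5 + 189538639/703125 * u * w ^ 2 * v * z ^ 4
      + 19024824211/33750000 * u * w ^ 2 * v ^ 2 * z ^ 3
      + 30490168769/50625000 * u * w ^ 2 * v ^ 3 * z ^ 2
      + 33809231381/101250000 * u * w ^ 2 * v ^ 4 * z
      + 1974888683/25312500 * u * w ^ 2 * v ^ 5 + 10020803/250000 * u ^ 2 * w * z ^ 5
      + 2128397203/11250000 * u ^ 2 * w * v * z ^ 4
      + 47585282807/135000000 * u ^ 2 * w * v ^ 2 * z ^ 3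
      + 4951068863/15000000 * u ^ 2 * w * v ^ 3 * z ^ 2
      + 113574806/703125 * u ^ 2 * w * v ^ 4 * z + 887186183/25312500 * u ^ 2 * w * v ^ 5
      + 13891203/1250000 * u ^ 3 * z ^ 5 + 172100993/3750000 * u ^ 3 * v * z ^ 4
      + 9208787963/135000000 * u ^ 3 * v ^ 2 * z ^ 3
      + 17120201149/405000000 * u ^ 3 * v ^ 3 * z ^ 2
      + 887186183/101250000 * u ^ 3 * v ^ 4 * z := by
    rw [hw, hz]; ring
  rw [key]; positivity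

/-- heavy-light polynomial, `l = 4`, light multiplicity `2` -/
theorem hl_poly_4_2 {u v : ℝ} (h0 : 0 ≤ u) (h1 : u ≤ 1) (k0 : 0 ≤ v) (k1 : v ≤ 1) :
    0 ≤ (350 / 1000 * (4 + u) * ((4 + v) ^ 2 - 4 / 9 * (4 + v - 2) ^ 2) - 856 / 10000 * (1019 / 1000 * u * ((4 + v) ^ 2 - 4 / 9 * (4 + v - 2) ^ 2) + (4 + v - 2) * (4 + v) * (4 + u))) * (1 - u * (4 + v - 2) / (4 * 2)) * (4 + v - 2)
      - (4 + u) ^ 2 * (1 - u) * (1 / 36 : ℝ) * ((4 + v) ^ 2 - 4 / 9 * (4 + v - 2) ^ 2) * (4 + v - 2) - (4 + v) * v * (1 - v) * (1 / 36 : ℝ) * (4 + u) * ((4 + v) ^ 2 - 4 / 9 * (4 + v - 2) ^ 2) := by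
  obtain ⟨w, hw⟩ : ∃ w, w = 1 - u := ⟨_, rfl⟩
  obtain ⟨z, hz⟩ : ∃ z, z = 1 - v := ⟨_, rfl⟩
  have hw0 : 0 ≤ w := by linarith
  have hz0 : 0 ≤ z := by linarith
  have key : (350 / 1000 * (4 + u) * ((4 + v) ^ 2 - 4 / 9 * (4 + v - 2) ^ 2) - 856 / 10000 * (1019 / 1000 * u * ((4 + v) ^ 2 - 4 / 9 * (4 + v - 2) ^ 2) + (4 + v - 2) * (4 + v) * (4 + u))) * (1 - u * (4 + v - 2) / (4 * 2)) * (4 + v - 2)
      - (4 + u) ^ 2 * (1 - u) * (1 / 36 : ℝ) * ((4 + v) ^ 2 - 4 / 9 * (4 + v - 2) ^ 2) * (4 + v - 2) - (4 + v) * v * (1 - v) * (1 / 36 : ℝ) * (4 + u) * ((4 + v) ^ 2 - 4 / 9 * (4 + v - 2) ^ 2) =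
      1098656/50625 * w ^ 3 * z ^ 5 + 244664/2025 * w ^ 3 * v * z ^ 4
      + 13795918/50625 * w ^ 3 * v ^ 2 * z ^ 3 + 1057117/3375 * w ^ 3 * v ^ 3 * z ^ 2
      + 1038139/5625 * w ^ 3 * v ^ 4 * z + 5599/125 * w ^ 3 * v ^ 5
      + 436295248/6328125 * u * w ^ 2 * z ^ 5 + 480167057/1265625 * u * w ^ 2 * v * z ^ 4
      + 42753545479/50625000 * u * w ^ 2 * v ^ 2 * z ^ 3
      + 32313048403/33750000 * u * w ^ 2 * v ^ 3 * z ^ 2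
      + 3132765733/5625000 * u * w ^ 2 * v ^ 4 * z + 167227171/1250000 * u * w ^ 2 * v ^ 5
      + 485936434/6328125 * u ^ 2 * w * z ^ 5 + 3539015207/8437500 * u ^ 2 * w * v * z ^ 4
      + 4159737349/4500000 * u ^ 2 * w * v ^ 2 * z ^ 3
      + 6987072463/6750000 * u ^ 2 * w * v ^ 3 * z ^ 2
      + 53445829597/90000000 * u ^ 2 * w * v ^ 4 * z
      + 1406739473/10000000 * u ^ 2 * w * v ^ 5 + 7110118/234375 * u ^ 3 * z ^ 5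
      + 4190754481/25312500 * u ^ 3 * v * z ^ 4
      + 73598920789/202500000 * u ^ 3 * v ^ 2 * z ^ 3
      + 3407824103/8437500 * u ^ 3 * v ^ 3 * z ^ 2
      + 6870600623/30000000 * u ^ 3 * v ^ 4 * z + 106868421/2000000 * u ^ 3 * v ^ 5 := by
    rw [hw, hz]; ring
  rw [key]; positivity

/-- heavy-light polynomial, `l = 4`, light multiplicity `3` -/
theorem hl_poly_4_3 {u v : ℝ} (h0 : 0 ≤ u) (h1 : u ≤ 1) (k0 : 0 ≤ v) (k1 : v ≤ 1) :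
    0 ≤ (350 / 1000 * (4 + u) * ((4 + v) ^ 2 - 4 / 9 * (4 + v - 3) ^ 2) - 856 / 10000 * (1019 / 1000 * u * ((4 + v) ^ 2 - 4 / 9 * (4 + v - 3) ^ 2) + (4 + v - 3) * (4 + v) * (4 + u))) * (1 - u * (4 + v - 3) / (4 * 3)) * (4 + v - 3)
      - (4 + u) ^ 2 * (1 - u) * (1 / 36 : ℝ) * ((4 + v) ^ 2 - 4 / 9 * (4 + v - 3) ^ 2) * (4 + v - 3) - (4 + v) * v * (1 - v) * (1 / 36 : ℝ) * (4 + u) * ((4 + v) ^ 2 - 4 / 9 * (4 + v - 3) ^ 2) := by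
  obtain ⟨w, hw⟩ : ∃ w, w = 1 - u := ⟨_, rfl⟩
  obtain ⟨z, hz⟩ : ∃ z, z = 1 - v := ⟨_, rfl⟩
  have hw0 : 0 ≤ w := by linarith
  have hz0 : 0 ≤ z := by linarith
  have key : (350 / 1000 * (4 + u) * ((4 + v) ^ 2 - 4 / 9 * (4 + v - 3) ^ 2) - 856 / 10000 * (1019 / 1000 * u * ((4 + v) ^ 2 - 4 / 9 * (4 + v - 3) ^ 2) + (4 + v - 3) * (4 + v) * (4 + u))) * (1 - u * (4 + v - 3) / (4 * 3)) * (4 + v - 3)
      - (4 + u) ^ 2 * (1 - u) * (1 / 36 : ℝ) * ((4 + v) ^ 2 - 4 / 9 * (4 + v - 3) ^ 2) * (4 + v - 3) - (4 + v) * v * (1 - v) * (1 / 36 : ℝ) * (4 + u) * ((4 + v) ^ 2 - 4 / 9 * (4 + v - 3) ^ 2) =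
      683164/50625 * w ^ 3 * z ^ 5 + 148382/1875 * w ^ 3 * v * z ^ 4
      + 9562987/50625 * w ^ 3 * v ^ 2 * z ^ 3 + 11687258/50625 * w ^ 3 * v ^ 3 * z ^ 2
      + 2448122/16875 * w ^ 3 * v ^ 4 * z + 380014/10125 * w ^ 3 * v ^ 5
      + 232799521/5062500 * u * w ^ 2 * z ^ 5 + 1136209813/4218750 * u * w ^ 2 * v * z ^ 4
      + 12958642471/20250000 * u * w ^ 2 * v ^ 2 * z ^ 3
      + 4911986638/6328125 * u * w ^ 2 * v ^ 3 * z ^ 2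
      + 16305796433/33750000 * u * w ^ 2 * v ^ 4 * z
      + 6263041427/50625000 * u * w ^ 2 * v ^ 5 + 1097529361/20250000 * u ^ 2 * w * z ^ 5
      + 32244331613/101250000 * u ^ 2 * w * v * z ^ 4
      + 306132396191/405000000 * u ^ 2 * w * v ^ 2 * z ^ 3
      + 369252835507/405000000 * u ^ 2 * w * v ^ 3 * z ^ 2
      + 3556498846/6328125 * u ^ 2 * w * v ^ 4 * z
      + 14389061899/101250000 * u ^ 2 * w * v ^ 5 + 149448959/6750000 * u ^ 3 * z ^ 5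
      + 13270424101/101250000 * u ^ 3 * v * z ^ 4
      + 14035521419/45000000 * u ^ 3 * v ^ 2 * z ^ 3
      + 2025716729/5400000 * u ^ 3 * v ^ 3 * z ^ 2
      + 23216886737/101250000 * u ^ 3 * v ^ 4 * z + 386249603/6750000 * u ^ 3 * v ^ 5 := by
    rw [hw, hz]; ring
  rw [key]; positivity

/-- heavy-light polynomial, `l = 5`, light multiplicity `1` -/
theorem hl_poly_5_1 {u v : ℝ} (h0 : 0 ≤ u) (h1 : u ≤ 1) (k0 : 0 ≤ v) (k1 : v ≤ 1) :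
    0 ≤ (350 / 1000 * (5 + u) * ((5 + v) ^ 2 - 4 / 9 * (5 + v - 1) ^ 2) - 856 / 10000 * (1013 / 1000 * u * ((5 + v) ^ 2 - 4 / 9 * (5 + v - 1) ^ 2) + (5 + v - 1) * (5 + v) * (5 + u))) * (1 - u * (5 + v - 1) / (5 * 1)) * (5 + v - 1)
      - (5 + u) ^ 2 * (1 - u) * (1 / 55 : ℝ) * ((5 + v) ^ 2 - 4 / 9 * (5 + v - 1) ^ 2) * (5 + v - 1) - (5 + v) * v * (1 - v) * (1 / 55 : ℝ) * (5 + u) * ((5 + v) ^ 2 - 4 / 9 * (5 + v - 1) ^ 2) := by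
  obtain ⟨w, hw⟩ : ∃ w, w = 1 - u := ⟨_, rfl⟩
  obtain ⟨z, hz⟩ : ∃ z, z = 1 - v := ⟨_, rfl⟩
  have hw0 : 0 ≤ w := by linarith
  have hz0 : 0 ≤ z := by linarith
  have key : (350 / 1000 * (5 + u) * ((5 + v) ^ 2 - 4 / 9 * (5 + v - 1) ^ 2) - 856 / 10000 * (1013 / 1000 * u * ((5 + v) ^ 2 - 4 / 9 * (5 + v - 1) ^ 2) + (5 + v - 1) * (5 + v) * (5 + u))) * (1 - u * (5 + v - 1) / (5 * 1)) * (5 + v - 1)
      - (5 + u) ^ 2 * (1 - u) * (1 / 55 : ℝ) * ((5 + v) ^ 2 - 4 / 9 * (5 + v - 1) ^ 2) * (5 + v - 1) - (5 + v) * v * (1 - v) * (1 / 55 : ℝ) * (5 + u) * ((5 + v) ^ 2 - 4 / 9 * (5 + v - 1) ^ 2) =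
      48227/825 * w ^ 3 * z ^ 5 + 15679309/49500 * w ^ 3 * v * z ^ 4
      + 8559592/12375 * w ^ 3 * v ^ 2 * z ^ 3 + 37773889/49500 * w ^ 3 * v ^ 3 * z ^ 2
      + 704027/1650 * w ^ 3 * v ^ 4 * z + 16007/165 * w ^ 3 * v ^ 5
      + 4148469539/30937500 * u * w ^ 2 * z ^ 5
      + 86711260487/123750000 * u * w ^ 2 * v * z ^ 4
      + 553373177/375000 * u * w ^ 2 * v ^ 2 * z ^ 3
      + 21647296707/13750000 * u * w ^ 2 * v ^ 3 * z ^ 2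
      + 267641609/312500 * u * w ^ 2 * v ^ 4 * z + 295952161/1546875 * u * w ^ 2 * v ^ 5
      + 7342144867/77343750 * u ^ 2 * w * z ^ 5
      + 142651657633/309375000 * u ^ 2 * w * v * z ^ 4
      + 184409968543/206250000 * u ^ 2 * w * v ^ 2 * z ^ 3
      + 60092396511/68750000 * u ^ 2 * w * v ^ 3 * z ^ 2
      + 301129093/687500 * u ^ 2 * w * v ^ 4 * z + 142386536/1546875 * u ^ 2 * w * v ^ 5
      + 289614049/14062500 * u ^ 3 * z ^ 5 + 52254625331/618750000 * u ^ 3 * v * z ^ 4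
      + 26085421193/206250000 * u ^ 3 * v ^ 2 * z ^ 3
      + 12543269821/154687500 * u ^ 3 * v ^ 3 * z ^ 2
      + 142386536/7734375 * u ^ 3 * v ^ 4 * z := by
    rw [hw, hz]; ring
  rw [key]; positivity

/-- heavy-light polynomial, `l = 5`, light multiplicity `2` -/
theorem hl_poly_5_2 {u v : ℝ} (h0 : 0 ≤ u) (h1 : u ≤ 1) (k0 : 0 ≤ v) (k1 : v ≤ 1) :
    0 ≤ (350 / 1000 * (5 + u) * ((5 + v) ^ 2 - 4 / 9 * (5 + v - 2) ^ 2) - 856 / 10000 * (1013 / 1000 * u * ((5 + v) ^ 2 - 4 / 9 * (5 + v - 2) ^ 2) + (5 + v - 2) * (5 + v) * (5 + u))) * (1 - u * (5 + v - 2) / (5 * 2)) * (5 + v - 2)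
      - (5 + u) ^ 2 * (1 - u) * (1 / 55 : ℝ) * ((5 + v) ^ 2 - 4 / 9 * (5 + v - 2) ^ 2) * (5 + v - 2) - (5 + v) * v * (1 - v) * (1 / 55 : ℝ) * (5 + u) * ((5 + v) ^ 2 - 4 / 9 * (5 + v - 2) ^ 2) := by
  obtain ⟨w, hw⟩ : ∃ w, w = 1 - u := ⟨_, rfl⟩
  obtain ⟨z, hz⟩ : ∃ z, z = 1 - v := ⟨_, rfl⟩
  have hw0 : 0 ≤ w := by linarith
  have hz0 : 0 ≤ z := by linarith
  have key : (350 / 1000 * (5 + u) * ((5 + v) ^ 2 - 4 / 9 * (5 + v - 2) ^ 2) - 856 / 10000 * (1013 / 1000 * u * ((5 + v) ^ 2 - 4 / 9 * (5 + v - 2) ^ 2) + (5 + v - 2) * (5 + v) * (5 + u))) * (1 - u * (5 + v - 2) / (5 * 2)) * (5 + v - 2)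
      - (5 + u) ^ 2 * (1 - u) * (1 / 55 : ℝ) * ((5 + v) ^ 2 - 4 / 9 * (5 + v - 2) ^ 2) * (5 + v - 2) - (5 + v) * v * (1 - v) * (1 / 55 : ℝ) * (5 + u) * ((5 + v) ^ 2 - 4 / 9 * (5 + v - 2) ^ 2) =
      68589/1100 * w ^ 3 * z ^ 5 + 938397/2750 * w ^ 3 * v * z ^ 4
      + 12418871/16500 * w ^ 3 * v ^ 2 * z ^ 3 + 10379113/12375 * w ^ 3 * v ^ 3 * z ^ 2
      + 651059/1375 * w ^ 3 * v ^ 4 * z + 448012/4125 * w ^ 3 * v ^ 5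
      + 2608111287/13750000 * u * w ^ 2 * z ^ 5
      + 3533544123/3437500 * u * w ^ 2 * v * z ^ 4
      + 92576934667/41250000 * u * w ^ 2 * v ^ 2 * z ^ 3
      + 7659164969/3093750 * u * w ^ 2 * v ^ 3 * z ^ 2
      + 42835849141/30937500 * u * w ^ 2 * v ^ 4 * z
      + 487412687/1546875 * u * w ^ 2 * v ^ 5 + 27333528129/137500000 * u ^ 2 * w * z ^ 5
      + 146847962577/137500000 * u ^ 2 * w * v * z ^ 4
      + 238136832431/103125000 * u ^ 2 * w * v ^ 2 * z ^ 3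
      + 779931971941/309375000 * u ^ 2 * w * v ^ 3 * z ^ 2
      + 107910030749/77343750 * u ^ 2 * w * v ^ 4 * z
      + 2431607396/7734375 * u ^ 2 * w * v ^ 5 + 907594569/12500000 * u ^ 3 * z ^ 5
      + 53321047657/137500000 * u ^ 3 * v * z ^ 4
      + 57222043009/68750000 * u ^ 3 * v ^ 2 * z ^ 3
      + 278643300041/309375000 * u ^ 3 * v ^ 3 * z ^ 2
      + 76333703293/154687500 * u ^ 3 * v ^ 4 * z + 25782317/234375 * u ^ 3 * v ^ 5 := by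
    rw [hw, hz]; ring
  rw [key]; positivity

/-- heavy-light polynomial, `l = 5`, light multiplicity `3` -/
theorem hl_poly_5_3 {u v : ℝ} (h0 : 0 ≤ u) (h1 : u ≤ 1) (k0 : 0 ≤ v) (k1 : v ≤ 1) :
    0 ≤ (350 / 1000 * (5 + u) * ((5 + v) ^ 2 - 4 / 9 * (5 + v - 3) ^ 2) - 856 / 10000 * (1013 / 1000 * u * ((5 + v) ^ 2 - 4 / 9 * (5 + v - 3) ^ 2) + (5 + v - 3) * (5 + v) * (5 + u))) * (1 - u * (5 + v - 3) / (5 * 3)) * (5 + v - 3)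
      - (5 + u) ^ 2 * (1 - u) * (1 / 55 : ℝ) * ((5 + v) ^ 2 - 4 / 9 * (5 + v - 3) ^ 2) * (5 + v - 3) - (5 + v) * v * (1 - v) * (1 / 55 : ℝ) * (5 + u) * ((5 + v) ^ 2 - 4 / 9 * (5 + v - 3) ^ 2) := by
  obtain ⟨w, hw⟩ : ∃ w, w = 1 - u := ⟨_, rfl⟩
  obtain ⟨z, hz⟩ : ∃ z, z = 1 - v := ⟨_, rfl⟩
  have hw0 : 0 ≤ w := by linarith
  have hz0 : 0 ≤ z := by linarith
  have key : (350 / 1000 * (5 + u) * ((5 + v) ^ 2 - 4 / 9 * (5 + v - 3) ^ 2) - 856 / 10000 * (1013 / 1000 * u * ((5 + v) ^ 2 - 4 / 9 * (5 + v - 3) ^ 2) + (5 + v - 3) * (5 + v) * (5 + u))) * (1 - u * (5 + v - 3) / (5 * 3)) * (5 + v - 3)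
      - (5 + u) ^ 2 * (1 - u) * (1 / 55 : ℝ) * ((5 + v) ^ 2 - 4 / 9 * (5 + v - 3) ^ 2) * (5 + v - 3) - (5 + v) * v * (1 - v) * (1 / 55 : ℝ) * (5 + u) * ((5 + v) ^ 2 - 4 / 9 * (5 + v - 3) ^ 2) =
      7741/150 * w ^ 3 * z ^ 5 + 14285311/49500 * w ^ 3 * v * z ^ 4
      + 1074559/1650 * w ^ 3 * v ^ 2 * z ^ 3 + 4088687/5500 * w ^ 3 * v ^ 3 * z ^ 2
      + 47337/110 * w ^ 3 * v ^ 4 * z + 139221/1375 * w ^ 3 * v ^ 5
      + 2840183843/16875000 * u * w ^ 2 * z ^ 5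
      + 348074706359/371250000 * u * w ^ 2 * v * z ^ 4
      + 32571503651/15468750 * u * w ^ 2 * v ^ 2 * z ^ 3
      + 32865491469/13750000 * u * w ^ 2 * v ^ 3 * z ^ 2
      + 945521129/687500 * u * w ^ 2 * v ^ 4 * z + 276385569/859375 * u * w ^ 2 * v ^ 5
      + 1982730421/10546875 * u ^ 2 * w * z ^ 5
      + 969922126501/928125000 * u ^ 2 * w * v * z ^ 4
      + 1447211641351/618750000 * u ^ 2 * w * v ^ 2 * z ^ 3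
      + 181668273213/68750000 * u ^ 2 * w * v ^ 3 * z ^ 2
      + 25977838147/17187500 * u ^ 2 * w * v ^ 4 * z
      + 1508409996/4296875 * u ^ 2 * w * v ^ 5 + 6086486653/84375000 * u ^ 3 * z ^ 5
      + 67667830337/168750000 * u ^ 3 * v * z ^ 4
      + 554426120311/618750000 * u ^ 3 * v ^ 2 * z ^ 3
      + 8670394171/8593750 * u ^ 3 * v ^ 3 * z ^ 2
      + 2466866543/4296875 * u ^ 3 * v ^ 4 * z + 51731616/390625 * u ^ 3 * v ^ 5 := by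
    rw [hw, hz]; ring
  rw [key]; positivity

/-- heavy-light polynomial, `l = 5`, light multiplicity `4` -/
theorem hl_poly_5_4 {u v : ℝ} (h0 : 0 ≤ u) (h1 : u ≤ 1) (k0 : 0 ≤ v) (k1 : v ≤ 1) :
    0 ≤ (350 / 1000 * (5 + u) * ((5 + v) ^ 2 - 4 / 9 * (5 + v - 4) ^ 2) - 856 / 10000 * (1013 / 1000 * u * ((5 + v) ^ 2 - 4 / 9 * (5 + v - 4) ^ 2) + (5 + v - 4) * (5 + v) * (5 + u))) * (1 - u * (5 + v - 4) / (5 * 4)) * (5 + v - 4)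
      - (5 + u) ^ 2 * (1 - u) * (1 / 55 : ℝ) * ((5 + v) ^ 2 - 4 / 9 * (5 + v - 4) ^ 2) * (5 + v - 4) - (5 + v) * v * (1 - v) * (1 / 55 : ℝ) * (5 + u) * ((5 + v) ^ 2 - 4 / 9 * (5 + v - 4) ^ 2) := by
  obtain ⟨w, hw⟩ : ∃ w, w = 1 - u := ⟨_, rfl⟩
  obtain ⟨z, hz⟩ : ∃ z, z = 1 - v := ⟨_, rfl⟩
  have hw0 : 0 ≤ w := by linarith
  have hz0 : 0 ≤ z := by linarith
  have key : (350 / 1000 * (5 + u) * ((5 + v) ^ 2 - 4 / 9 * (5 + v - 4) ^ 2) - 856 / 10000 * (1013 / 1000 * u * ((5 + v) ^ 2 - 4 / 9 * (5 + v - 4) ^ 2) + (5 + v - 4) * (5 + v) * (5 + u))) * (1 - u * (5 + v - 4) / (5 * 4)) * (5 + v - 4)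
      - (5 + u) ^ 2 * (1 - u) * (1 / 55 : ℝ) * ((5 + v) ^ 2 - 4 / 9 * (5 + v - 4) ^ 2) * (5 + v - 4) - (5 + v) * v * (1 - v) * (1 / 55 : ℝ) * (5 + u) * ((5 + v) ^ 2 - 4 / 9 * (5 + v - 4) ^ 2) =
      97913/3300 * w ^ 3 * z ^ 5 + 2179201/12375 * w ^ 3 * v * z ^ 4
      + 20888839/49500 * w ^ 3 * v ^ 2 * z ^ 3 + 12664541/24750 * w ^ 3 * v ^ 3 * z ^ 2
      + 1297199/4125 * w ^ 3 * v ^ 4 * z + 29398/375 * w ^ 3 * v ^ 5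
      + 1542301513/15468750 * u * w ^ 2 * z ^ 5
      + 73244359817/123750000 * u * w ^ 2 * v * z ^ 4
      + 58390540597/41250000 * u * w ^ 2 * v ^ 2 * z ^ 3
      + 35262312751/20625000 * u * w ^ 2 * v ^ 3 * z ^ 2
      + 10776908251/10312500 * u * w ^ 2 * v ^ 4 * z
      + 364030643/1406250 * u * w ^ 2 * v ^ 5
      + 282430135181/2475000000 * u ^ 2 * w * z ^ 5
      + 1680150801509/2475000000 * u ^ 2 * w * v * z ^ 4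
      + 20915842933/12890625 * u ^ 2 * w * v ^ 2 * z ^ 3
      + 18314677529/9375000 * u ^ 2 * w * v ^ 3 * z ^ 2
      + 12248352221/10312500 * u ^ 2 * w * v ^ 4 * z
      + 4108385467/14062500 * u ^ 2 * w * v ^ 5 + 10018331191/225000000 * u ^ 3 * z ^ 5
      + 658143805169/2475000000 * u ^ 3 * v * z ^ 4
      + 131199696443/206250000 * u ^ 3 * v ^ 2 * z ^ 3
      + 59110044923/77343750 * u ^ 3 * v ^ 3 * z ^ 2
      + 130046131/281250 * u ^ 3 * v ^ 4 * z + 176444893/1562500 * u ^ 3 * v ^ 5 := by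
    rw [hw, hz]; ring
  rw [key]; positivity

/-- heavy-heavy polynomial, `l = 2` -/
theorem hh_poly_2 {u : ℝ} (h0 : 0 ≤ u) (h1 : u ≤ 1) :
    0 ≤ (2030 / 10000 * (2 + u) - 1773 / 10000 * (1077 / 1000 * u)) * (1 - u / 4)
      - (2 + u) ^ 2 * (1 - u) * (946 / 10000 * (1 - u) + 730 / 10000 * u) := by
  obtain ⟨w, hw⟩ : ∃ w, w = 1 - u := ⟨_, rfl⟩
  have hw0 : 0 ≤ w := by linarith
  have key : (2030 / 10000 * (2 + u) - 1773 / 10000 * (1077 / 1000 * u)) * (1 - u / 4)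
      - (2 + u) ^ 2 * (1 - u) * (946 / 10000 * (1 - u) + 730 / 10000 * u) =
      69/2500 * w ^ 4 + 1073479/10000000 * u * w ^ 3 + 17489269/40000000 * u ^ 2 * w ^ 2
      + 2770479/4000000 * u ^ 3 * w + 12541437/40000000 * u ^ 4 := by
    rw [hw]; ring
  rw [key]; positivity

/-- heavy-heavy polynomial, `l = 3` -/
theorem hh_poly_3 {u : ℝ} (h0 : 0 ≤ u) (h1 : u ≤ 1) :
    0 ≤ (2030 / 10000 * (3 + u) - 1773 / 10000 * (521 / 500 * u)) * (1 - u / 9)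
      - (3 + u) ^ 2 * (1 - u) * (1 / 21 : ℝ) := by
  obtain ⟨w, hw⟩ : ∃ w, w = 1 - u := ⟨_, rfl⟩
  have hw0 : 0 ≤ w := by linarith
  have key : (2030 / 10000 * (3 + u) - 1773 / 10000 * (521 / 500 * u)) * (1 - u / 9)
      - (3 + u) ^ 2 * (1 - u) * (1 / 21 : ℝ) =
      1263/7000 * w ^ 3 + 66646607/105000000 * u * w ^ 2 + 303735773/315000000 * u ^ 2 * w
      + 3136267/5625000 * u ^ 3 := by
    rw [hw]; ring
  rw [key]; positivity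

/-- heavy-heavy polynomial, `l = 4` -/
theorem hh_poly_4 {u : ℝ} (h0 : 0 ≤ u) (h1 : u ≤ 1) :
    0 ≤ (2030 / 10000 * (4 + u) - 1773 / 10000 * (1027 / 1000 * u)) * (1 - u / 16)
      - (4 + u) ^ 2 * (1 - u) * (1 / 36 : ℝ) := by
  obtain ⟨w, hw⟩ : ∃ w, w = 1 - u := ⟨_, rfl⟩
  have hw0 : 0 ≤ w := by linarith
  have key : (2030 / 10000 * (4 + u) - 1773 / 10000 * (1027 / 1000 * u)) * (1 - u / 16)
      - (4 + u) ^ 2 * (1 - u) * (1 / 36 : ℝ) =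
      827/2250 * w ^ 3 + 116554661/90000000 * u * w ^ 2
      + 2420026991/1440000000 * u ^ 2 * w + 24987387/32000000 * u ^ 3 := by
    rw [hw]; ring
  rw [key]; positivity

/-- heavy-heavy polynomial, `l = 5` -/
theorem hh_poly_5 {u : ℝ} (h0 : 0 ≤ u) (h1 : u ≤ 1) :
    0 ≤ (2030 / 10000 * (5 + u) - 1773 / 10000 * (1019 / 1000 * u)) * (1 - u / 25)
      - (5 + u) ^ 2 * (1 - u) * (1 / 55 : ℝ) := by
  obtain ⟨w, hw⟩ : ∃ w, w = 1 - u := ⟨_, rfl⟩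
  have hw0 : 0 ≤ w := by linarith
  have key : (2030 / 10000 * (5 + u) - 1773 / 10000 * (1019 / 1000 * u)) * (1 - u / 25)
      - (5 + u) ^ 2 * (1 - u) * (1 / 55 : ℝ) =
      1233/2200 * w ^ 3 + 212940443/110000000 * u * w ^ 2
      + 6470815707/2750000000 * u ^ 2 * w + 31119939/31250000 * u ^ 3 := by
    rw [hw]; ring
  rw [key]; positivity

end Pool.Agent.Work.MP_6cd513_gt
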