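import Pool.Agent.Work.MP_6cd513_gt.RvDef
import Pool.Agent.Work.MP_6cd513_gt.PolyHL

/-!
# The pairs with a heavy group
-/

open Matrix Finset MeasureTheory

namespace Pool.Agent.Work.MP_6cd513_gt

theorem Rv_le {l : ℕ} {m u H : ℝ} (hl : 1 ≤ l) (hu0 : 0 ≤ u) (hm : m < l + u)
    (hH : Real.log (1 + u / l) - u * Real.log (1 + 1 / (l : ℝ)) ≤ u * (1 - u) * H) :
    Rv l (1 / (l + u)) m ≤ (l + u) * (u * (1 - u) * H) / (l + u - m) := by
  have hl' : (1 : ℝ) ≤ l := by exact_mod_cast hl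
  have hlu : (0 : ℝ) < l + u := by linarith
  have hd : (0 : ℝ) < l + u - m := by linarith
  have e1 : (1 : ℝ) / (l * (1 / (l + u))) = 1 + u / l := by
    field_simp
  have e2 : (1 : ℝ) / (1 / (l + u)) = l + u := by
    field_simp
  have e3 : (1 : ℝ) - m * (1 / (l + u)) = (l + u - m) / (l + u) := by
    field_simp
  unfold Rv
  rw [e1, e2, e3, add_sub_cancel_left, div_div_eq_mul_div, mul_comm _ ((l : ℝ) + u)]
  apply div_le_div_of_nonneg_right _ hd.le
  exact mul_le_mul_of_nonneg_left hH hlu.le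

/-- the correction of a heavy group -/
theorem c2f_heavy {l u b ch : ℝ} (hl : 1 ≤ l) (hu0 : 0 ≤ u) (hu1 : u ≤ 1) (_hb0 : 0 ≤ b)
    (_hb1 : b < 1) (hch0 : 0 ≤ ch) (hch : 1 ≤ ch * (1 - b ^ 2 * (1 / (l + 1)) ^ 2)) :
    c2f (1 - l * (1 / (l + u))) b ≤ ch * u / (l + u) := by
  have hlu : 0 < l + u := by linarith
  have e3 : (1 : ℝ) - l * (1 / (l + u)) = u / (l + u) := by
    field_simp
    ring
  have h1 : u / (l + u) ≤ 1 / (l + 1) := by
    rw [div_le_div_iff₀ hlu (by linarith)]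
    have h := mul_le_mul_of_nonneg_right hu1 (by linarith : (0 : ℝ) ≤ l)
    linarith
  have h0 : 0 ≤ u / (l + u) := by positivity
  have h2 : (u / (l + u)) ^ 2 ≤ (1 / (l + 1)) ^ 2 := pow_le_pow_left₀ h0 h1 2
  have h3 : b ^ 2 * (u / (l + u)) ^ 2 ≤ b ^ 2 * (1 / (l + 1)) ^ 2 :=
    mul_le_mul_of_nonneg_left h2 (sq_nonneg b)
  have h4 : 1 ≤ ch * (1 - (u / (l + u)) ^ 2 * b ^ 2) := by
    refine hch.trans (mul_le_mul_of_nonneg_left (by linarith) hch0)
  have h5 : 0 < 1 - (u / (l + u)) ^ 2 * b ^ 2 := by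
    by_contra hcon
    push Not at hcon
    have := mul_nonpos_of_nonneg_of_nonpos hch0 hcon
    linarith
  rw [e3, c2f, div_le_iff₀ h5]
  calc u / (l + u) = u / (l + u) * 1 := (mul_one _).symm
    _ ≤ u / (l + u) * (ch * (1 - (u / (l + u)) ^ 2 * b ^ 2)) := mul_le_mul_of_nonneg_left h4 h0
    _ = ch * u / (l + u) * (1 - (u / (l + u)) ^ 2 * b ^ 2) := by ring

/-- the correction of a light group -/
theorem c2f_light {l v m : ℝ} (hl : 0 < l + v) (_hD : 0 < (l + v) ^ 2 - 4 / 9 * (l + v - m) ^ 2) :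
    c2f (1 - m * (1 / (l + v))) (2 / 3)
      = (l + v - m) * (l + v) / ((l + v) ^ 2 - 4 / 9 * (l + v - m) ^ 2) := by
  have e3 : (1 : ℝ) - m * (1 / (l + v)) = (l + v - m) / (l + v) := by
    field_simp
  rw [e3, c2f]
  have h1 : 1 - ((l + v - m) / (l + v)) ^ 2 * (2 / 3) ^ 2
      = ((l + v) ^ 2 - 4 / 9 * (l + v - m) ^ 2) / (l + v) ^ 2 := by
    field_simp
    ring
  rw [h1]
  field_simp

/-- from the polynomial inequality to the heavy-light inequality -/
theorem hl_ded {l m u v Hu Hv ch y : ℝ} (hl : 2 ≤ l) (hm1 : 1 ≤ m) (hml : m + 1 ≤ l)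
    (hu0 : 0 < u) (hu1 : u ≤ 1) (hv0 : 0 ≤ v) (_hv1 : v ≤ 1) (hch0 : 0 ≤ ch) (hch1 : ch ≤ 11 / 10)
    (hch : 1 ≤ ch * (1 - (2 / 3) ^ 2 * (1 / (l + 1)) ^ 2))
    (hp : 0 ≤ (350 / 1000 * (l + u) * ((l + v) ^ 2 - 4 / 9 * (l + v - m) ^ 2)
        - 856 / 10000 * (ch * u * ((l + v) ^ 2 - 4 / 9 * (l + v - m) ^ 2)
          + (l + v - m) * (l + v) * (l + u))) * (1 - u * (l + v - m) / (l * m)) * (l + v - m)
      - (l + u) ^ 2 * (1 - u) * Hu * ((l + v) ^ 2 - 4 / 9 * (l + v - m) ^ 2) * (l + v - m)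
      - (l + v) * v * (1 - v) * Hv * (l + u) * ((l + v) ^ 2 - 4 / 9 * (l + v - m) ^ 2))
    (hy0 : 0 ≤ y) (hy : 1 - u * (l + v - m) / (l * m) ≤ y) :
    (l + u) * (u * (1 - u) * Hu) / (l + u - l) + (l + v) * (v * (1 - v) * Hv) / (l + v - m)
      ≤ y * (175 / 1000 - 856 / 10000 * c2f (1 - l * (1 / (l + u))) (2 / 3))
        + y * (175 / 1000 - 856 / 10000 * c2f (1 - m * (1 / (l + v))) (2 / 3)) := by
  have hlu : 0 < l + u := by linarith
  have hlv : 0 < l + v := by linarith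
  have hN : 0 < l + v - m := by linarith
  have hNl : l + v - m ≤ l + v := by linarith
  have hN2 : (l + v - m) ^ 2 ≤ (l + v) ^ 2 := pow_le_pow_left₀ hN.le hNl 2
  have hlv2 : 0 < (l + v) ^ 2 := by positivity
  have hD : 0 < (l + v) ^ 2 - 4 / 9 * (l + v - m) ^ 2 := by linarith
  have hCi := c2f_heavy (l := l) (u := u) (b := 2 / 3) (ch := ch) (by linarith) hu0.le hu1
    (by norm_num) (by norm_num) hch0 hch
  rw [c2f_light hlv hD]
  set Ci := c2f (1 - l * (1 / (l + u))) (2 / 3) with hCid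
  set D := (l + v) ^ 2 - 4 / 9 * (l + v - m) ^ 2 with hDd
  set N := l + v - m with hNd
  have hCj : N * (l + v) / D ≤ 9 / 5 := by
    rw [div_le_iff₀ hD]
    have h1 : N * (l + v) ≤ (l + v) * (l + v) := mul_le_mul_of_nonneg_right hNl hlv.le
    have h2 : 5 / 9 * (l + v) ^ 2 ≤ D := by rw [hDd]; linarith
    rw [sq] at h2
    linarith
  have hCj0 : 0 ≤ N * (l + v) / D := by positivity
  have hCi1 : ch * u / (l + u) ≤ 1 := by
    rw [div_le_one hlu]
    have := mul_le_mul_of_nonneg_left hu1 hch0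
    linarith
  have hK : 0 ≤ 350 / 1000 - 856 / 10000 * (ch * u / (l + u) + N * (l + v) / D) := by linarith
  have e0 : (l + u) * (u * (1 - u) * Hu) / (l + u - l) = (l + u) * (1 - u) * Hu := by
    have : l + u - l = u := by ring
    rw [this]
    field_simp
  rw [e0]
  have e : (350 / 1000 - 856 / 10000 * (ch * u / (l + u) + N * (l + v) / D))
        * (1 - u * N / (l * m)) - (l + u) * (1 - u) * Hu - (l + v) * (v * (1 - v) * Hv) / N
      = ((350 / 1000 * (l + u) * D - 856 / 10000 * (ch * u * D + N * (l + v) * (l + u)))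
          * (1 - u * N / (l * m)) * N - (l + u) ^ 2 * (1 - u) * Hu * D * N
          - (l + v) * v * (1 - v) * Hv * (l + u) * D) / ((l + u) * D * N) := by
    have hl0 : l ≠ 0 := by linarith
    have hm0 : m ≠ 0 := by linarith
    field_simp
  have h1 := div_nonneg hp (by positivity : 0 ≤ (l + u) * D * N)
  rw [← e] at h1
  have h2 : (350 / 1000 - 856 / 10000 * (ch * u / (l + u) + N * (l + v) / D))
      * (1 - u * N / (l * m))
      ≤ (350 / 1000 - 856 / 10000 * (ch * u / (l + u) + N * (l + v) / D)) * y :=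
    mul_le_mul_of_nonneg_left hy hK
  have h3 : y * Ci ≤ y * (ch * u / (l + u)) := mul_le_mul_of_nonneg_left hCi hy0
  have h4 : y * (175 / 1000 - 856 / 10000 * Ci) + y * (175 / 1000 - 856 / 10000 *
      (N * (l + v) / D)) = 350 / 1000 * y - 856 / 10000 * (y * Ci)
        - 856 / 10000 * (y * (N * (l + v) / D)) := by ring
  have h5 : (350 / 1000 - 856 / 10000 * (ch * u / (l + u) + N * (l + v) / D)) * y
      = 350 / 1000 * y - 856 / 10000 * (y * (ch * u / (l + u)))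
        - 856 / 10000 * (y * (N * (l + v) / D)) := by ring
  rw [h4]
  rw [h5] at h2
  linarith

/-- from the polynomial inequality to the heavy-heavy inequality -/
theorem hh_ded {l u Hu ch y : ℝ} (hl : 2 ≤ l)
    (hu0 : 0 < u) (hu1 : u ≤ 1) (hch0 : 0 ≤ ch) (hch1 : ch ≤ 11 / 10)
    (hch : 1 ≤ ch * (1 - (4 / 5) ^ 2 * (1 / (l + 1)) ^ 2))
    (hp : 0 ≤ (2030 / 10000 * (l + u) - 1773 / 10000 * (ch * u)) * (1 - u / l ^ 2)
      - (l + u) ^ 2 * (1 - u) * Hu)
    (hy0 : 0 ≤ y) (hy : 1 - u / l ^ 2 ≤ y) :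
    (l + u) * (u * (1 - u) * Hu) / (l + u - l)
      ≤ y * (2030 / 10000 - 1773 / 10000 * c2f (1 - l * (1 / (l + u))) (4 / 5)) := by
  have hlu : 0 < l + u := by linarith
  have hCi := c2f_heavy (l := l) (u := u) (b := 4 / 5) (ch := ch) (by linarith) hu0.le hu1
    (by norm_num) (by norm_num) hch0 hch
  set Ci := c2f (1 - l * (1 / (l + u))) (4 / 5) with hCid
  have hCi1 : ch * u / (l + u) ≤ 1 := by
    rw [div_le_one hlu]
    have := mul_le_mul_of_nonneg_left hu1 hch0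
    linarith
  have e0 : (l + u) * (u * (1 - u) * Hu) / (l + u - l) = (l + u) * (1 - u) * Hu := by
    have : l + u - l = u := by ring
    rw [this]
    field_simp
  rw [e0]
  have e : (2030 / 10000 - 1773 / 10000 * (ch * u / (l + u))) * (1 - u / l ^ 2)
        - (l + u) * (1 - u) * Hu
      = ((2030 / 10000 * (l + u) - 1773 / 10000 * (ch * u)) * (1 - u / l ^ 2)
      - (l + u) ^ 2 * (1 - u) * Hu) / (l + u) := by
    have hl0 : l ≠ 0 := by linarith
    field_simp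
  have h1 := div_nonneg hp hlu.le
  rw [← e] at h1
  have h2 : (2030 / 10000 - 1773 / 10000 * (ch * u / (l + u))) * (1 - u / l ^ 2)
      ≤ (2030 / 10000 - 1773 / 10000 * (ch * u / (l + u))) * y :=
    mul_le_mul_of_nonneg_left hy (by linarith)
  have h3 : y * Ci ≤ y * (ch * u / (l + u)) := mul_le_mul_of_nonneg_left hCi hy0
  have h4 : y * (2030 / 10000 - 1773 / 10000 * Ci)
      = 2030 / 10000 * y - 1773 / 10000 * (y * Ci) := by ring
  have h5 : (2030 / 10000 - 1773 / 10000 * (ch * u / (l + u))) * y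
      = 2030 / 10000 * y - 1773 / 10000 * (y * (ch * u / (l + u))) := by ring
  rw [h4]
  rw [h5] at h2
  linarith

end Pool.Agent.Work.MP_6cd513_gt
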