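import Pool.Agent.Work.MP_6cd513_gt.HLH

/-!
# The pairs with a heavy group: numerical form
-/

open Matrix Finset MeasureTheory

namespace Pool.Agent.Work.MP_6cd513_gt

theorem Rv_num_2 {m u : ℝ} (hu0 : 0 ≤ u) (hu1 : u ≤ 1) (hm : m < 2 + u) :
    Rv 2 (1 / (((2 : ℕ) : ℝ) + u)) m
      ≤ (2 + u) * (u * (1 - u) * (946 / 10000 * (1 - u) + 730 / 10000 * u)) / (2 + u - m) := by
  have hf := flog_two hu0 hu1
  have h := Rv_le (l := 2) (m := m) (u := u) (H := 946 / 10000 * (1 - u) + 730 / 10000 * u) (by norm_num) hu0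
    (by push_cast; linarith) (by push_cast; norm_num at hf ⊢; linarith)
  push_cast at h ⊢
  exact h

theorem Rv_num_3 {m u : ℝ} (hu0 : 0 ≤ u) (hu1 : u ≤ 1) (hm : m < 3 + u) :
    Rv 3 (1 / (((3 : ℕ) : ℝ) + u)) m
      ≤ (3 + u) * (u * (1 - u) * (1 / 21)) / (3 + u - m) := by
  have hf := flog_gen (l := 3) (by norm_num) hu0 hu1
  have h := Rv_le (l := 3) (m := m) (u := u) (H := 1 / 21) (by norm_num) hu0
    (by push_cast; linarith) (by push_cast; norm_num at hf ⊢; linarith)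
  push_cast at h ⊢
  exact h

theorem Rv_num_4 {m u : ℝ} (hu0 : 0 ≤ u) (hu1 : u ≤ 1) (hm : m < 4 + u) :
    Rv 4 (1 / (((4 : ℕ) : ℝ) + u)) m
      ≤ (4 + u) * (u * (1 - u) * (1 / 36)) / (4 + u - m) := by
  have hf := flog_gen (l := 4) (by norm_num) hu0 hu1
  have h := Rv_le (l := 4) (m := m) (u := u) (H := 1 / 36) (by norm_num) hu0
    (by push_cast; linarith) (by push_cast; norm_num at hf ⊢; linarith)
  push_cast at h ⊢
  exact h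

theorem Rv_num_5 {m u : ℝ} (hu0 : 0 ≤ u) (hu1 : u ≤ 1) (hm : m < 5 + u) :
    Rv 5 (1 / (((5 : ℕ) : ℝ) + u)) m
      ≤ (5 + u) * (u * (1 - u) * (1 / 55)) / (5 + u - m) := by
  have hf := flog_gen (l := 5) (by norm_num) hu0 hu1
  have h := Rv_le (l := 5) (m := m) (u := u) (H := 1 / 55) (by norm_num) hu0
    (by push_cast; linarith) (by push_cast; norm_num at hf ⊢; linarith)
  push_cast at h ⊢
  exact h

theorem hl_num_2_1 {u v y : ℝ} (hu0 : 0 < u) (hu1 : u ≤ 1) (hv0 : 0 ≤ v) (hv1 : v ≤ 1)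
    (hy0 : 0 ≤ y) (hy : 1 - u * (2 + v - 1) / (2 * 1) ≤ y) :
    Rv 2 (1 / (((2 : ℕ) : ℝ) + u)) 2 + Rv 2 (1 / (((2 : ℕ) : ℝ) + v)) 1
      ≤ y * (175 / 1000 - 856 / 10000 * c2f (1 - 2 * (1 / (2 + u))) (2 / 3))
        + y * (175 / 1000 - 856 / 10000 * c2f (1 - 1 * (1 / (2 + v))) (2 / 3)) := by
  have h := hl_ded (l := 2) (m := 1) (Hu := 946 / 10000 * (1 - u) + 730 / 10000 * u) (Hv := 946 / 10000 * (1 - v) + 730 / 10000 * v)
    (ch := 263 / 250) (by norm_num) (by norm_num) (by norm_num) hu0 hu1 hv0 hv1 (by norm_num)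
    (by norm_num) (by norm_num) (hl_poly_2_1 hu0.le hu1 hv0 hv1) hy0 hy
  exact (add_le_add (Rv_num_2 hu0.le hu1 (by linarith)) (Rv_num_2 hv0 hv1 (by linarith))).trans h

theorem hl_num_3_1 {u v y : ℝ} (hu0 : 0 < u) (hu1 : u ≤ 1) (hv0 : 0 ≤ v) (hv1 : v ≤ 1)
    (hy0 : 0 ≤ y) (hy : 1 - u * (3 + v - 1) / (3 * 1) ≤ y) :
    Rv 3 (1 / (((3 : ℕ) : ℝ) + u)) 3 + Rv 3 (1 / (((3 : ℕ) : ℝ) + v)) 1
      ≤ y * (175 / 1000 - 856 / 10000 * c2f (1 - 3 * (1 / (3 + u))) (2 / 3))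
        + y * (175 / 1000 - 856 / 10000 * c2f (1 - 1 * (1 / (3 + v))) (2 / 3)) := by
  have h := hl_ded (l := 3) (m := 1) (Hu := 1 / 21) (Hv := 1 / 21)
    (ch := 103 / 100) (by norm_num) (by norm_num) (by norm_num) hu0 hu1 hv0 hv1 (by norm_num)
    (by norm_num) (by norm_num) (hl_poly_3_1 hu0.le hu1 hv0 hv1) hy0 hy
  exact (add_le_add (Rv_num_3 hu0.le hu1 (by linarith)) (Rv_num_3 hv0 hv1 (by linarith))).trans h

theorem hl_num_3_2 {u v y : ℝ} (hu0 : 0 < u) (hu1 : u ≤ 1) (hv0 : 0 ≤ v) (hv1 : v ≤ 1)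
    (hy0 : 0 ≤ y) (hy : 1 - u * (3 + v - 2) / (3 * 2) ≤ y) :
    Rv 3 (1 / (((3 : ℕ) : ℝ) + u)) 3 + Rv 3 (1 / (((3 : ℕ) : ℝ) + v)) 2
      ≤ y * (175 / 1000 - 856 / 10000 * c2f (1 - 3 * (1 / (3 + u))) (2 / 3))
        + y * (175 / 1000 - 856 / 10000 * c2f (1 - 2 * (1 / (3 + v))) (2 / 3)) := by
  have h := hl_ded (l := 3) (m := 2) (Hu := 1 / 21) (Hv := 1 / 21)
    (ch := 103 / 100) (by norm_num) (by norm_num) (by norm_num) hu0 hu1 hv0 hv1 (by norm_num)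
    (by norm_num) (by norm_num) (hl_poly_3_2 hu0.le hu1 hv0 hv1) hy0 hy
  exact (add_le_add (Rv_num_3 hu0.le hu1 (by linarith)) (Rv_num_3 hv0 hv1 (by linarith))).trans h

theorem hl_num_4_1 {u v y : ℝ} (hu0 : 0 < u) (hu1 : u ≤ 1) (hv0 : 0 ≤ v) (hv1 : v ≤ 1)
    (hy0 : 0 ≤ y) (hy : 1 - u * (4 + v - 1) / (4 * 1) ≤ y) :
    Rv 4 (1 / (((4 : ℕ) : ℝ) + u)) 4 + Rv 4 (1 / (((4 : ℕ) : ℝ) + v)) 1
      ≤ y * (175 / 1000 - 856 / 10000 * c2f (1 - 4 * (1 / (4 + u))) (2 / 3))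
        + y * (175 / 1000 - 856 / 10000 * c2f (1 - 1 * (1 / (4 + v))) (2 / 3)) := by
  have h := hl_ded (l := 4) (m := 1) (Hu := 1 / 36) (Hv := 1 / 36)
    (ch := 1019 / 1000) (by norm_num) (by norm_num) (by norm_num) hu0 hu1 hv0 hv1 (by norm_num)
    (by norm_num) (by norm_num) (hl_poly_4_1 hu0.le hu1 hv0 hv1) hy0 hy
  exact (add_le_add (Rv_num_4 hu0.le hu1 (by linarith)) (Rv_num_4 hv0 hv1 (by linarith))).trans h

theorem hl_num_4_2 {u v y : ℝ} (hu0 : 0 < u) (hu1 : u ≤ 1) (hv0 : 0 ≤ v) (hv1 : v ≤ 1)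
    (hy0 : 0 ≤ y) (hy : 1 - u * (4 + v - 2) / (4 * 2) ≤ y) :
    Rv 4 (1 / (((4 : ℕ) : ℝ) + u)) 4 + Rv 4 (1 / (((4 : ℕ) : ℝ) + v)) 2
      ≤ y * (175 / 1000 - 856 / 10000 * c2f (1 - 4 * (1 / (4 + u))) (2 / 3))
        + y * (175 / 1000 - 856 / 10000 * c2f (1 - 2 * (1 / (4 + v))) (2 / 3)) := by
  have h := hl_ded (l := 4) (m := 2) (Hu := 1 / 36) (Hv := 1 / 36)
    (ch := 1019 / 1000) (by norm_num) (by norm_num) (by norm_num) hu0 hu1 hv0 hv1 (by norm_num)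
    (by norm_num) (by norm_num) (hl_poly_4_2 hu0.le hu1 hv0 hv1) hy0 hy
  exact (add_le_add (Rv_num_4 hu0.le hu1 (by linarith)) (Rv_num_4 hv0 hv1 (by linarith))).trans h

theorem hl_num_4_3 {u v y : ℝ} (hu0 : 0 < u) (hu1 : u ≤ 1) (hv0 : 0 ≤ v) (hv1 : v ≤ 1)
    (hy0 : 0 ≤ y) (hy : 1 - u * (4 + v - 3) / (4 * 3) ≤ y) :
    Rv 4 (1 / (((4 : ℕ) : ℝ) + u)) 4 + Rv 4 (1 / (((4 : ℕ) : ℝ) + v)) 3
      ≤ y * (175 / 1000 - 856 / 10000 * c2f (1 - 4 * (1 / (4 + u))) (2 / 3))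
        + y * (175 / 1000 - 856 / 10000 * c2f (1 - 3 * (1 / (4 + v))) (2 / 3)) := by
  have h := hl_ded (l := 4) (m := 3) (Hu := 1 / 36) (Hv := 1 / 36)
    (ch := 1019 / 1000) (by norm_num) (by norm_num) (by norm_num) hu0 hu1 hv0 hv1 (by norm_num)
    (by norm_num) (by norm_num) (hl_poly_4_3 hu0.le hu1 hv0 hv1) hy0 hy
  exact (add_le_add (Rv_num_4 hu0.le hu1 (by linarith)) (Rv_num_4 hv0 hv1 (by linarith))).trans h

theorem hl_num_5_1 {u v y : ℝ} (hu0 : 0 < u) (hu1 : u ≤ 1) (hv0 : 0 ≤ v) (hv1 : v ≤ 1)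
    (hy0 : 0 ≤ y) (hy : 1 - u * (5 + v - 1) / (5 * 1) ≤ y) :
    Rv 5 (1 / (((5 : ℕ) : ℝ) + u)) 5 + Rv 5 (1 / (((5 : ℕ) : ℝ) + v)) 1
      ≤ y * (175 / 1000 - 856 / 10000 * c2f (1 - 5 * (1 / (5 + u))) (2 / 3))
        + y * (175 / 1000 - 856 / 10000 * c2f (1 - 1 * (1 / (5 + v))) (2 / 3)) := by
  have h := hl_ded (l := 5) (m := 1) (Hu := 1 / 55) (Hv := 1 / 55)
    (ch := 1013 / 1000) (by norm_num) (by norm_num) (by norm_num) hu0 hu1 hv0 hv1 (by norm_num)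
    (by norm_num) (by norm_num) (hl_poly_5_1 hu0.le hu1 hv0 hv1) hy0 hy
  exact (add_le_add (Rv_num_5 hu0.le hu1 (by linarith)) (Rv_num_5 hv0 hv1 (by linarith))).trans h

theorem hl_num_5_2 {u v y : ℝ} (hu0 : 0 < u) (hu1 : u ≤ 1) (hv0 : 0 ≤ v) (hv1 : v ≤ 1)
    (hy0 : 0 ≤ y) (hy : 1 - u * (5 + v - 2) / (5 * 2) ≤ y) :
    Rv 5 (1 / (((5 : ℕ) : ℝ) + u)) 5 + Rv 5 (1 / (((5 : ℕ) : ℝ) + v)) 2
      ≤ y * (175 / 1000 - 856 / 10000 * c2f (1 - 5 * (1 / (5 + u))) (2 / 3))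
        + y * (175 / 1000 - 856 / 10000 * c2f (1 - 2 * (1 / (5 + v))) (2 / 3)) := by
  have h := hl_ded (l := 5) (m := 2) (Hu := 1 / 55) (Hv := 1 / 55)
    (ch := 1013 / 1000) (by norm_num) (by norm_num) (by norm_num) hu0 hu1 hv0 hv1 (by norm_num)
    (by norm_num) (by norm_num) (hl_poly_5_2 hu0.le hu1 hv0 hv1) hy0 hy
  exact (add_le_add (Rv_num_5 hu0.le hu1 (by linarith)) (Rv_num_5 hv0 hv1 (by linarith))).trans h

theorem hl_num_5_3 {u v y : ℝ} (hu0 : 0 < u) (hu1 : u ≤ 1) (hv0 : 0 ≤ v) (hv1 : v ≤ 1)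
    (hy0 : 0 ≤ y) (hy : 1 - u * (5 + v - 3) / (5 * 3) ≤ y) :
    Rv 5 (1 / (((5 : ℕ) : ℝ) + u)) 5 + Rv 5 (1 / (((5 : ℕ) : ℝ) + v)) 3
      ≤ y * (175 / 1000 - 856 / 10000 * c2f (1 - 5 * (1 / (5 + u))) (2 / 3))
        + y * (175 / 1000 - 856 / 10000 * c2f (1 - 3 * (1 / (5 + v))) (2 / 3)) := by
  have h := hl_ded (l := 5) (m := 3) (Hu := 1 / 55) (Hv := 1 / 55)
    (ch := 1013 / 1000) (by norm_num) (by norm_num) (by norm_num) hu0 hu1 hv0 hv1 (by norm_num)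
    (by norm_num) (by norm_num) (hl_poly_5_3 hu0.le hu1 hv0 hv1) hy0 hy
  exact (add_le_add (Rv_num_5 hu0.le hu1 (by linarith)) (Rv_num_5 hv0 hv1 (by linarith))).trans h

theorem hl_num_5_4 {u v y : ℝ} (hu0 : 0 < u) (hu1 : u ≤ 1) (hv0 : 0 ≤ v) (hv1 : v ≤ 1)
    (hy0 : 0 ≤ y) (hy : 1 - u * (5 + v - 4) / (5 * 4) ≤ y) :
    Rv 5 (1 / (((5 : ℕ) : ℝ) + u)) 5 + Rv 5 (1 / (((5 : ℕ) : ℝ) + v)) 4
      ≤ y * (175 / 1000 - 856 / 10000 * c2f (1 - 5 * (1 / (5 + u))) (2 / 3))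
        + y * (175 / 1000 - 856 / 10000 * c2f (1 - 4 * (1 / (5 + v))) (2 / 3)) := by
  have h := hl_ded (l := 5) (m := 4) (Hu := 1 / 55) (Hv := 1 / 55)
    (ch := 1013 / 1000) (by norm_num) (by norm_num) (by norm_num) hu0 hu1 hv0 hv1 (by norm_num)
    (by norm_num) (by norm_num) (hl_poly_5_4 hu0.le hu1 hv0 hv1) hy0 hy
  exact (add_le_add (Rv_num_5 hu0.le hu1 (by linarith)) (Rv_num_5 hv0 hv1 (by linarith))).trans h

theorem hh_num_2 {u y : ℝ} (hu0 : 0 < u) (hu1 : u ≤ 1)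
    (hy0 : 0 ≤ y) (hy : 1 - u / 2 ^ 2 ≤ y) :
    Rv 2 (1 / (((2 : ℕ) : ℝ) + u)) 2
      ≤ y * (2030 / 10000 - 1773 / 10000 * c2f (1 - 2 * (1 / (2 + u))) (4 / 5)) := by
  have hp := hh_poly_2 hu0.le hu1
  have h := hh_ded (l := 2) (Hu := 946 / 10000 * (1 - u) + 730 / 10000 * u)
    (ch := 1077 / 1000) (by norm_num) hu0 hu1 (by norm_num)
    (by norm_num) (by norm_num) (by norm_num at hp ⊢; linarith) hy0 hy
  exact (Rv_num_2 hu0.le hu1 (by linarith)).trans h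

theorem hh_num_3 {u y : ℝ} (hu0 : 0 < u) (hu1 : u ≤ 1)
    (hy0 : 0 ≤ y) (hy : 1 - u / 3 ^ 2 ≤ y) :
    Rv 3 (1 / (((3 : ℕ) : ℝ) + u)) 3
      ≤ y * (2030 / 10000 - 1773 / 10000 * c2f (1 - 3 * (1 / (3 + u))) (4 / 5)) := by
  have hp := hh_poly_3 hu0.le hu1
  have h := hh_ded (l := 3) (Hu := 1 / 21)
    (ch := 521 / 500) (by norm_num) hu0 hu1 (by norm_num)
    (by norm_num) (by norm_num) (by norm_num at hp ⊢; linarith) hy0 hy
  exact (Rv_num_3 hu0.le hu1 (by linarith)).trans h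

theorem hh_num_4 {u y : ℝ} (hu0 : 0 < u) (hu1 : u ≤ 1)
    (hy0 : 0 ≤ y) (hy : 1 - u / 4 ^ 2 ≤ y) :
    Rv 4 (1 / (((4 : ℕ) : ℝ) + u)) 4
      ≤ y * (2030 / 10000 - 1773 / 10000 * c2f (1 - 4 * (1 / (4 + u))) (4 / 5)) := by
  have hp := hh_poly_4 hu0.le hu1
  have h := hh_ded (l := 4) (Hu := 1 / 36)
    (ch := 1027 / 1000) (by norm_num) hu0 hu1 (by norm_num)
    (by norm_num) (by norm_num) (by norm_num at hp ⊢; linarith) hy0 hy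
  exact (Rv_num_4 hu0.le hu1 (by linarith)).trans h

theorem hh_num_5 {u y : ℝ} (hu0 : 0 < u) (hu1 : u ≤ 1)
    (hy0 : 0 ≤ y) (hy : 1 - u / 5 ^ 2 ≤ y) :
    Rv 5 (1 / (((5 : ℕ) : ℝ) + u)) 5
      ≤ y * (2030 / 10000 - 1773 / 10000 * c2f (1 - 5 * (1 / (5 + u))) (4 / 5)) := by
  have hp := hh_poly_5 hu0.le hu1
  have h := hh_ded (l := 5) (Hu := 1 / 55)
    (ch := 1019 / 1000) (by norm_num) hu0 hu1 (by norm_num)
    (by norm_num) (by norm_num) (by norm_num at hp ⊢; linarith) hy0 hy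
  exact (Rv_num_5 hu0.le hu1 (by linarith)).trans h

/-- heavy-light pairs -/
theorem hl_num {l m : ℕ} (hl2 : 2 ≤ l) (hl5 : l ≤ 5) (hm1 : 1 ≤ m) (hml : m < l) {u v y : ℝ}
    (hu0 : 0 < u) (hu1 : u ≤ 1) (hv0 : 0 ≤ v) (hv1 : v ≤ 1)
    (hy0 : 0 ≤ y) (hy : 1 - u * (l + v - m) / (l * m) ≤ y) :
    Rv l (1 / ((l : ℝ) + u)) l + Rv l (1 / ((l : ℝ) + v)) m
      ≤ y * (175 / 1000 - 856 / 10000 * c2f (1 - l * (1 / (l + u))) (2 / 3))
        + y * (175 / 1000 - 856 / 10000 * c2f (1 - m * (1 / (l + v))) (2 / 3)) := by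
  interval_cases l
  · interval_cases m
    · have h := hl_num_2_1 hu0 hu1 hv0 hv1 hy0 (by push_cast at hy; exact hy)
      push_cast at h ⊢
      exact h
  · interval_cases m
    · have h := hl_num_3_1 hu0 hu1 hv0 hv1 hy0 (by push_cast at hy; exact hy)
      push_cast at h ⊢
      exact h
    · have h := hl_num_3_2 hu0 hu1 hv0 hv1 hy0 (by push_cast at hy; exact hy)
      push_cast at h ⊢
      exact h
  · interval_cases m
    · have h := hl_num_4_1 hu0 hu1 hv0 hv1 hy0 (by push_cast at hy; exact hy)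
      push_cast at h ⊢
      exact h
    · have h := hl_num_4_2 hu0 hu1 hv0 hv1 hy0 (by push_cast at hy; exact hy)
      push_cast at h ⊢
      exact h
    · have h := hl_num_4_3 hu0 hu1 hv0 hv1 hy0 (by push_cast at hy; exact hy)
      push_cast at h ⊢
      exact h
  · interval_cases m
    · have h := hl_num_5_1 hu0 hu1 hv0 hv1 hy0 (by push_cast at hy; exact hy)
      push_cast at h ⊢
      exact h
    · have h := hl_num_5_2 hu0 hu1 hv0 hv1 hy0 (by push_cast at hy; exact hy)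
      push_cast at h ⊢
      exact h
    · have h := hl_num_5_3 hu0 hu1 hv0 hv1 hy0 (by push_cast at hy; exact hy)
      push_cast at h ⊢
      exact h
    · have h := hl_num_5_4 hu0 hu1 hv0 hv1 hy0 (by push_cast at hy; exact hy)
      push_cast at h ⊢
      exact h

/-- heavy-heavy pairs -/
theorem hh_num {l : ℕ} (hl2 : 2 ≤ l) (hl5 : l ≤ 5) {u y : ℝ}
    (hu0 : 0 < u) (hu1 : u ≤ 1) (hy0 : 0 ≤ y) (hy : 1 - u / l ^ 2 ≤ y) :
    Rv l (1 / ((l : ℝ) + u)) l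
      ≤ y * (2030 / 10000 - 1773 / 10000 * c2f (1 - l * (1 / (l + u))) (4 / 5)) := by
  interval_cases l
  · have h := hh_num_2 hu0 hu1 hy0 (by push_cast at hy; exact hy)
    push_cast at h ⊢
    exact h
  · have h := hh_num_3 hu0 hu1 hy0 (by push_cast at hy; exact hy)
    push_cast at h ⊢
    exact h
  · have h := hh_num_4 hu0 hu1 hy0 (by push_cast at hy; exact hy)
    push_cast at h ⊢
    exact h
  · have h := hh_num_5 hu0 hu1 hy0 (by push_cast at hy; exact hy)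
    push_cast at h ⊢
    exact h

end Pool.Agent.Work.MP_6cd513_gt
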