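import Pool.Agent.Work.MP_6cd513_gt.DetIneq

/-!
# An exponential form of Hadamard's inequality for frame matrices
-/

open Matrix Finset

namespace Pool.Agent.Work.MP_6cd513_gt

variable {ι : Type*} [Fintype ι] {k : ℕ}

/-- the frame matrix `∑ v_i v_iᵀ` -/
noncomputable abbrev gramM (v : ι → Fin k → ℝ) : Matrix (Fin k) (Fin k) ℝ :=
  frameM (fun _ => (1 : ℝ)) v

theorem gramM_apply (v : ι → Fin k → ℝ) (p q : Fin k) :
    gramM v p q = ∑ i, v i p * v i q := by
  rw [gramM, frameM_apply]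
  simp

theorem gram_eigen_nonneg (v : ι → Fin k → ℝ) (m : Fin k) :
    0 ≤ (frameM_isHermitian (fun _ => (1 : ℝ)) v).eigenvalues m := by
  set hH := frameM_isHermitian (fun _ => (1 : ℝ)) v
  let f : Fin k → ℝ := ⇑(hH.eigenvectorBasis m)
  have hMf : frameM (fun _ => (1 : ℝ)) v *ᵥ f = hH.eigenvalues m • f :=
    hH.mulVec_eigenvectorBasis m
  have hff : f ⬝ᵥ f = 1 := by
    have h := hH.eigenvectorBasis.orthonormal.1 m
    have h2 : inner ℝ (hH.eigenvectorBasis m) (hH.eigenvectorBasis m) = (1 : ℝ) := by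
      rw [real_inner_self_eq_norm_sq, h]; norm_num
    rw [EuclideanSpace.inner_eq_star_dotProduct] at h2
    simpa [f] using h2
  have h := dot_frameM_mulVec (fun _ => (1 : ℝ)) v f f
  rw [hMf, dotProduct_smul, hff, smul_eq_mul, mul_one] at h
  rw [h]
  exact Finset.sum_nonneg fun i _ => by rw [one_mul]; exact mul_self_nonneg _

theorem det_gram_nonneg (v : ι → Fin k → ℝ) : 0 ≤ (gramM v).det := by
  have h := (frameM_isHermitian (fun _ => (1 : ℝ)) v).det_eq_prod_eigenvalues
  rw [gramM, h]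
  exact Finset.prod_nonneg fun m _ => gram_eigen_nonneg v m

theorem det_gram_le_exp (v : ι → Fin k → ℝ) :
    (gramM v).det ≤ Real.exp ((∑ q, gramM v q q) - k) := by
  have h := (frameM_isHermitian (fun _ => (1 : ℝ)) v).det_eq_prod_eigenvalues
  have h2 := (frameM_isHermitian (fun _ => (1 : ℝ)) v).trace_eq_sum_eigenvalues
  rw [trace] at h2
  simp only [diag_apply, RCLike.ofReal_real_eq_id, id_eq] at h2 h
  rw [gramM, h, h2]
  have h3 : ∑ i, (frameM_isHermitian (fun _ => (1 : ℝ)) v).eigenvalues i - (k : ℝ)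
      = ∑ i, ((frameM_isHermitian (fun _ => (1 : ℝ)) v).eigenvalues i - 1) := by
    rw [Finset.sum_sub_distrib]; simp
  rw [h3, Real.exp_sum]
  refine Finset.prod_le_prod (fun m _ => gram_eigen_nonneg v m) (fun m _ => ?_)
  have := Real.add_one_le_exp ((frameM_isHermitian (fun _ => (1 : ℝ)) v).eigenvalues m - 1)
  linarith

/-- scaling of the coordinates -/
theorem det_gram_scale (v : ι → Fin k → ℝ) (s : Fin k → ℝ) :
    (gramM fun i q => s q * v i q).det = (∏ q, s q) ^ 2 * (gramM v).det := by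
  have h : gramM (fun i q => s q * v i q) = diagonal s * gramM v * diagonal s := by
    ext p q
    rw [gramM_apply, mul_diagonal, diagonal_mul, gramM_apply, Finset.mul_sum, Finset.sum_mul]
    exact Finset.sum_congr rfl fun i _ => by ring
  rw [h, det_mul, det_mul, det_diagonal]
  ring

theorem det_gram_le (v : ι → Fin k → ℝ) (D : Fin k → ℝ) (hD : ∀ q, 0 < D q) :
    (gramM v).det ≤ (∏ q, D q) * Real.exp (∑ q, (gramM v q q - D q) / D q) := by
  have h1 := det_gram_le_exp (fun i q => (Real.sqrt (D q))⁻¹ * v i q)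
  rw [det_gram_scale v (fun q => (Real.sqrt (D q))⁻¹)] at h1
  have h2 : ∀ q, gramM (fun i q => (Real.sqrt (D q))⁻¹ * v i q) q q = gramM v q q / D q := by
    intro q
    rw [gramM_apply, gramM_apply, Finset.sum_div]
    refine Finset.sum_congr rfl fun i _ => ?_
    have h3 : Real.sqrt (D q) ^ 2 = D q := Real.sq_sqrt (hD q).le
    have h4 : Real.sqrt (D q) ≠ 0 := (Real.sqrt_pos.2 (hD q)).ne'
    calc (Real.sqrt (D q))⁻¹ * v i q * ((Real.sqrt (D q))⁻¹ * v i q)
        = v i q * v i q / (Real.sqrt (D q) ^ 2) := by field_simp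
      _ = _ := by rw [h3]
  have h3 : (∏ q, (Real.sqrt (D q))⁻¹) ^ 2 = (∏ q, D q)⁻¹ := by
    rw [← Finset.prod_pow, ← Finset.prod_inv_distrib]
    refine Finset.prod_congr rfl fun q _ => ?_
    rw [inv_pow, Real.sq_sqrt (hD q).le]
  have h4 : ∑ q, gramM (fun i q => (Real.sqrt (D q))⁻¹ * v i q) q q - (k : ℝ)
      = ∑ q, (gramM v q q - D q) / D q := by
    simp_rw [h2]
    have : (k : ℝ) = ∑ _q : Fin k, (1 : ℝ) := by simp
    rw [this, ← Finset.sum_sub_distrib]
    refine Finset.sum_congr rfl fun q _ => ?_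
    rw [sub_div, div_self (hD q).ne']
  rw [h3, h4] at h1
  have hP : 0 < ∏ q, D q := Finset.prod_pos fun q _ => hD q
  rwa [inv_mul_le_iff₀ hP] at h1

end Pool.Agent.Work.MP_6cd513_gt
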