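import Pool.Agent.Work.MP_6cd513_gt.Merge

/-!
# The induction on the dimension
-/

open Matrix Finset MeasureTheory

namespace Pool.Agent.Work.MP_6cd513_gt

/-- the bound for a fixed `l` in all dimensions, if no maximiser can violate it -/
theorem bound_of_no_max {l : ℕ} (hl : 1 ≤ l)
    (H : ∀ (k n : ℕ) (v : Fin n → Fin k → ℝ) (s : Fin n → ℝ), MaxData k l n v s →
      Wb k l n < Gs v s →
      (∀ k' < k, ∀ (N : ℕ) (v' : Fin N → Fin k' → ℝ) (s' : Fin N → ℝ), Gs v' s' ≤ Wb k' l N) →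
      False) :
    ∀ (k n : ℕ) (v : Fin n → Fin k → ℝ) (s : Fin n → ℝ), Gs v s ≤ Wb k l n := by
  intro k
  induction k using Nat.strong_induction_on with
  | _ k ih =>
    intro n v s
    by_contra hcon
    push Not at hcon
    obtain ⟨n', v', s', htight, hbig, hmax⟩ := exists_global_max hl ⟨n, v, s, hcon⟩
    exact H k n' v' s' ⟨hl, htight, (Wb_pos _ _ _).trans hbig, hmax⟩ hbig
      (fun k' hk' N v'' s'' => ih k' hk' N v'' s'')

/-- the unshifted bound in the window `l` -/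
theorem maxVol_bound {k l n : ℕ} (hl : 1 ≤ l) (hn : n / k = l)
    (H : ∀ (v : Fin n → Fin k → ℝ) (s : Fin n → ℝ), Gs v s ≤ Wb k l n)
    (v : Fin n → Fin k → ℝ) : Gv v ≤ Real.sqrt ((l : ℝ) ^ k * (((l : ℝ) + 1) / l) ^ (n % k)) := by
  have h1 := H v (fun _ => 0)
  rw [Gs_zero] at h1
  refine h1.trans (le_of_eq ?_)
  have hl' : (1 : ℝ) ≤ l := by exact_mod_cast hl
  have h2 : k * l + n % k = n := by rw [← hn]; exact Nat.div_add_mod n k
  have h3 : (n : ℝ) = k * l + (n % k : ℕ) := by exact_mod_cast h2.symm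
  unfold Wb
  rw [Real.sqrt_eq_rpow, Real.rpow_def_of_pos (by positivity),
    Real.log_mul (by positivity) (by positivity), Real.log_pow, Real.log_pow]
  have h4 : ((l : ℝ) + 1) / l = 1 + 1 / (l : ℝ) := by field_simp
  rw [h4, h3]
  congr 1
  ring

end Pool.Agent.Work.MP_6cd513_gt
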