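import Pool.Agent.Work.MP_6cd513_gt.RvDef
import Pool.Agent.Work.MP_6cd513_gt.ExclNum

/-!
# Light groups: the cell lemma
-/

open Matrix Finset MeasureTheory

namespace Pool.Agent.Work.MP_6cd513_gt

/-- the numerical conditions of the exclusion bound -/
structure ENum (c B q0 t1 Y : ℝ) : Prop where
  hc : 0 < c
  hB : 0 < B
  hq0 : 0 < q0
  hq01 : q0 ≤ 1 / 2
  ht10 : 0 < t1
  ht11 : t1 ≤ 1
  hct : c * t1 < 1 / 2
  hn1 : 0 < 4 * c * (1 - c * t1) * q0 ^ 2 - (q0 ^ 2 * t1 + q0 ^ 4 * t1 ^ 3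
      + 2 * c ^ 2 * B * (1 + t1 ^ 2) ^ 2) * (1 - (1 - 2 * q0) * (4 * c * t1 * (1 - c * t1)))
  hn2 : 8 * c * t1 * (q0 ^ 2 * t1 + q0 ^ 4 * t1 ^ 3 + 2 * c ^ 2 * B * (1 + t1 ^ 2) ^ 2)
      ≤ 2 * q0 * (4 * c * (1 - c * t1) - t1 * (1 + t1 ^ 2 / 2))
  hn3 : (1 - 2 * q0) * (4 * c) * (q0 ^ 2 * t1 + q0 ^ 4 * t1 ^ 3
      + 2 * c ^ 2 * B * (1 + t1 ^ 2) ^ 2)
      ≤ q0 ^ 2 * (1 - (1 - 2 * q0) * (4 * c * t1 * (1 - c * t1)))
  hY : Y * (1 + t1 ^ 2) ^ 2 ≤ 4 * t1 ^ 2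

/-- separation of two directions in a cell of levels -/
theorem y_cell {l : ℕ} {c B q0 t1 Y : ℝ} (E : ENum c B q0 t1 Y)
    {k n : ℕ} {v : Fin n → Fin k → ℝ} {s : Fin n → ℝ}
    (M : MaxData k l n v s) (hl2 : 2 ≤ l) (hW : Wb k l n < Gs v s)
    (hP : ∀ k' < k, ∀ (N : ℕ) (v' : Fin N → Fin k' → ℝ) (s' : Fin N → ℝ), Gs v' s' ≤ Wb k' l N)
    {i j : Fin n} (hx : xx v i j ≠ 1) {u ub y0 w : ℝ} (hu : v i ⬝ᵥ v i = 1 / (l + u))
    (hu0 : 0 ≤ u) (hub : u ≤ ub) (hw : w = l + 1 ∨ w = l + ub + y0)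
    (hq : q0 ^ 2 * ((l + ub) * w) ≤ 1) (hY0 : y0 ≤ Y)
    (hBc : Bq l (((grp v i).card : ℝ) + (grp v j).card) ≤ B) :
    y0 ≤ 1 - xx v i j := by
  by_contra hcon
  push Not at hcon
  have hl : (2 : ℝ) ≤ l := by exact_mod_cast hl2
  have hj := M.lev_pos j
  have h1 := (abs_le.1 (M.abs_inv_sub_le i j)).1
  have h2 : 1 / (v i ⬝ᵥ v i) = l + u := by rw [hu, one_div_one_div]
  rw [h2] at h1
  have h3 : 1 / (v j ⬝ᵥ v j) ≤ l + 1 := by
    have := M.le_lev j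
    rw [div_le_iff₀ hj]
    rw [div_le_iff₀ (by linarith)] at this
    linarith
  have h4 : 1 / (v j ⬝ᵥ v j) ≤ w := by
    rcases hw with hw | hw <;> rw [hw]
    · exact h3
    · linarith
  have hinv : 0 < 1 / (v j ⬝ᵥ v j) := one_div_pos.2 hj
  have hw0 : 0 < w := lt_of_lt_of_le hinv h4
  have h5 : 1 / w ≤ v j ⬝ᵥ v j := by
    rw [div_le_iff₀ hw0]
    rw [div_le_iff₀ hj] at h4
    linarith
  have hlu : 0 < (l : ℝ) + u := by linarith
  have hlub : 0 < (l : ℝ) + ub := by linarith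
  have hqq : q0 ^ 2 ≤ (v i ⬝ᵥ v i) * (v j ⬝ᵥ v j) := by
    have h6 : 1 / (l + ub) * (1 / w) ≤ (v i ⬝ᵥ v i) * (v j ⬝ᵥ v j) := by
      rw [hu]
      apply mul_le_mul _ h5 (by positivity) (by positivity)
      exact one_div_le_one_div_of_le hlu (by linarith)
    refine le_trans ?_ h6
    rw [one_div_mul_one_div, le_div_iff₀ (by positivity)]
    exact hq
  have h7 := excl_bound_gm E.hc E.hB E.hq0 E.hq01 E.ht10 E.ht11 E.hct E.hn1 E.hn2 E.hn3 E.hY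
    M hl2 hW hP hx hqq hBc
  linarith

theorem k_nonneg {ρ : ℝ} (h0 : 0 ≤ ρ) (h1 : ρ ≤ 1) :
    0 ≤ 175 / 1000 - 856 / 10000 * c2f ρ (2 / 3) := by
  have h2 : c2f ρ (2 / 3) ≤ 9 / 5 := by
    unfold c2f
    have h3 : ρ ^ 2 ≤ 1 := pow_le_one₀ h0 h1
    rw [div_le_iff₀ (by linarith)]
    linarith
  linarith

/-- the value of the local term against a polynomial inequality -/
theorem Rv_le_of_poly {l : ℕ} (hl : 1 ≤ l) {m u H y0 : ℝ} (hu0 : 0 ≤ u) (hm0 : 0 < m)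
    (hml : m < l + u)
    (hF : Real.log (1 + u / l) - u * Real.log (1 + 1 / l) ≤ u * (1 - u) * H)
    (hP : u * (1 - u) * H * (l + u) * ((l + u + 2 * m) * (5 * (l + u) - 2 * m))
      ≤ y0 * (l + u - m) * (175 / 1000 * ((l + u + 2 * m) * (5 * (l + u) - 2 * m))
        - 7704 / 10000 * ((l + u) * (l + u - m)))) :
    Rv l (1 / (l + u)) m ≤ y0 * (175 / 1000 - 856 / 10000 * c2f (1 - m * (1 / (l + u))) (2 / 3)) := by
  have hl1 : (1 : ℝ) ≤ l := by exact_mod_cast hl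
  have hl0 : (0 : ℝ) < l := by linarith
  set A : ℝ := l + u with hA
  have hA0 : 0 < A := by linarith
  have hAm : 0 < A - m := by linarith
  have hD1 : 0 < A + 2 * m := by linarith
  have hD2 : 0 < 5 * A - 2 * m := by linarith
  have e1 : 1 / (l * (1 / A)) = 1 + u / l := by
    rw [hA]; field_simp
  have e2 : 1 / (1 / A) - l = u := by
    rw [one_div_one_div, hA]; ring
  have e3 : 1 - m * (1 / A) = (A - m) / A := by field_simp
  have e4 : c2f ((A - m) / A) (2 / 3) = 9 * (A * (A - m)) / ((A + 2 * m) * (5 * A - 2 * m)) := by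
    unfold c2f
    have h1 : 1 - ((A - m) / A) ^ 2 * (2 / 3) ^ 2 = (A + 2 * m) * (5 * A - 2 * m) / (9 * A ^ 2) := by
      field_simp
      ring
    rw [h1, div_div_eq_mul_div]
    congr 1
    field_simp
  unfold Rv
  rw [e1, e2, e3, e4, div_div_eq_mul_div, div_le_iff₀ hAm]
  refine (mul_le_mul_of_nonneg_right hF hA0.le).trans ?_
  have hD : 0 < (A + 2 * m) * (5 * A - 2 * m) := mul_pos hD1 hD2
  have e5 : y0 * (175 / 1000 - 856 / 10000 * (9 * (A * (A - m)) / ((A + 2 * m) * (5 * A - 2 * m))))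
      * (A - m) = y0 * (A - m) * (175 / 1000 * ((A + 2 * m) * (5 * A - 2 * m))
        - 7704 / 10000 * (A * (A - m))) / ((A + 2 * m) * (5 * A - 2 * m)) := by
    have hne := hD.ne'
    generalize (A + 2 * m) * (5 * A - 2 * m) = D at hne
    field_simp
    ring
  rw [e5, le_div_iff₀ hD]
  linarith

/-- one cell of the light case -/
theorem LL_cell {l : ℕ} {c B q0 t1 Y : ℝ} (E : ENum c B q0 t1 Y)
    {k n : ℕ} {v : Fin n → Fin k → ℝ} {s : Fin n → ℝ}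
    (M : MaxData k l n v s) (hl2 : 2 ≤ l) (hW : Wb k l n < Gs v s)
    (hP : ∀ k' < k, ∀ (N : ℕ) (v' : Fin N → Fin k' → ℝ) (s' : Fin N → ℝ), Gs v' s' ≤ Wb k' l N)
    {i j : Fin n} (hx : xx v i j ≠ 1) {u : ℝ} (hu : v i ⬝ᵥ v i = 1 / (l + u))
    (hu0 : 0 ≤ u) (hm : (grp v i).card < l)
    (hBc : Bq l (((grp v i).card : ℝ) + (grp v j).card) ≤ B) (ub y0 w H : ℝ)
    (hub : u ≤ ub) (hw : w = l + 1 ∨ w = l + ub + y0)
    (hq : q0 ^ 2 * ((l + ub) * w) ≤ 1) (hY0 : y0 ≤ Y)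
    (hF : Real.log (1 + u / l) - u * Real.log (1 + 1 / l) ≤ u * (1 - u) * H)
    (hPo : u * (1 - u) * H * (l + u) * ((l + u + 2 * (grp v i).card) *
        (5 * (l + u) - 2 * (grp v i).card))
      ≤ y0 * (l + u - (grp v i).card) * (175 / 1000 * ((l + u + 2 * (grp v i).card) *
        (5 * (l + u) - 2 * (grp v i).card))
        - 7704 / 10000 * ((l + u) * (l + u - (grp v i).card)))) :
    Rv l (v i ⬝ᵥ v i) (grp v i).card ≤
      (1 - xx v i j) * (175 / 1000 - 856 / 10000 * c2f (1 - (grp v i).card * (v i ⬝ᵥ v i)) (2 / 3)) := by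
  have hy := y_cell E M hl2 hW hP hx hu hu0 hub hw hq hY0 hBc
  have hl : (2 : ℝ) ≤ l := by exact_mod_cast hl2
  have hm1 : (1 : ℝ) ≤ ((grp v i).card : ℝ) := by
    have h1 : 1 ≤ (grp v i).card := Finset.card_pos.2 ⟨i, self_mem_grp v i⟩
    exact_mod_cast h1
  have hml : ((grp v i).card : ℝ) < l := by exact_mod_cast hm
  have h2 := Rv_le_of_poly (l := l) (by omega) (m := ((grp v i).card : ℝ)) (y0 := y0) hu0
    (by linarith) (by linarith) hF hPo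
  rw [← hu] at h2
  refine h2.trans (mul_le_mul_of_nonneg_right hy ?_)
  apply k_nonneg
  · have := M.grp_mass_le i
    linarith
  · have := mul_nonneg (by linarith : (0 : ℝ) ≤ ((grp v i).card : ℝ)) (M.lev_pos i).le
    linarith

end Pool.Agent.Work.MP_6cd513_gt
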