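import Pool.Agent.Work.MP_6cd513_gt.Had

/-!
# The local lemma: geometric part
-/

open Matrix Finset

namespace Pool.Agent.Work.MP_6cd513_gt

variable {ι : Type*} [Fintype ι] {k : ℕ}

/-- data of a clustered family in normal form -/
structure Clus (ι : Type*) [Fintype ι] (k : ℕ) where
  j : ι → Fin k
  a : ι → ℝ
  σ : ι → Fin k → ℝ
  ha : ∀ i, 0 < a i
  h1 : ∀ q r, ∑ i with j i = q, a i ^ 2 * σ i r = 0
  hne : ∀ q, ∃ i, j i = q

namespace Clus

variable (c : Clus ι k)

/-- weights -/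
noncomputable def D (q : Fin k) : ℝ := ∑ i with c.j i = q, c.a i ^ 2
noncomputable def S (q : Fin k) : ℝ := ∑ i with c.j i = q, c.a i
noncomputable def β (q : Fin k) : ℝ := c.S q / (2 * c.D q)
noncomputable def p (i : ι) : ℝ := c.a i ^ 2 / c.D (c.j i)

/-- the vectors -/
noncomputable def v (i : ι) : Fin k → ℝ := fun r => c.a i * ((if r = c.j i then 1 else 0) + c.σ i r)

/-- the body -/
def K : Set (Fin k → ℝ) := {x | ∀ i, |c.v i ⬝ᵥ x| ≤ 1 / 2}

theorem D_pos (q : Fin k) : 0 < c.D q := by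
  obtain ⟨i, hi⟩ := c.hne q
  exact Finset.sum_pos (fun i _ => pow_pos (c.ha i) 2) ⟨i, by simp [hi]⟩

theorem S_pos (q : Fin k) : 0 < c.S q := by
  obtain ⟨i, hi⟩ := c.hne q
  exact Finset.sum_pos (fun i _ => c.ha i) ⟨i, by simp [hi]⟩

theorem β_pos (q : Fin k) : 0 < c.β q := div_pos (c.S_pos q) (mul_pos two_pos (c.D_pos q))

theorem p_pos (i : ι) : 0 < c.p i := div_pos (pow_pos (c.ha i) 2) (c.D_pos _)

theorem sum_p (q : Fin k) : ∑ i with c.j i = q, c.p i = 1 := by
  have : ∀ i ∈ Finset.univ.filter (fun i => c.j i = q), c.p i = c.a i ^ 2 / c.D q := by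
    intro i hi
    rw [p, (Finset.mem_filter.1 hi).2]
  rw [Finset.sum_congr rfl this, ← Finset.sum_div]
  exact div_self (c.D_pos q).ne'

theorem sum_p_σ (q r : Fin k) : ∑ i with c.j i = q, c.p i * c.σ i r = 0 := by
  have : ∀ i ∈ Finset.univ.filter (fun i => c.j i = q),
      c.p i * c.σ i r = c.a i ^ 2 * c.σ i r / c.D q := by
    intro i hi
    rw [p, (Finset.mem_filter.1 hi).2]
    ring
  rw [Finset.sum_congr rfl this, ← Finset.sum_div, c.h1, zero_div]

theorem v_dot (i : ι) (x : Fin k → ℝ) : c.v i ⬝ᵥ x = c.a i * (x (c.j i) + c.σ i ⬝ᵥ x) := by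
  simp only [v, dotProduct, add_mul, mul_assoc, mul_add, Finset.sum_add_distrib, ite_mul, one_mul,
    zero_mul, mul_ite, mul_zero]
  rw [Finset.sum_ite_eq' Finset.univ (c.j i)]
  simp [Finset.mul_sum]

/-- slack of the slab widths -/
noncomputable def d (i : ι) : ℝ := 1 / (2 * c.a i) - c.β (c.j i)

theorem sum_p_d (q : Fin k) : ∑ i with c.j i = q, c.p i * c.d i = 0 := by
  have : ∀ i ∈ Finset.univ.filter (fun i => c.j i = q),
      c.p i * c.d i = c.a i / (2 * c.D q) - c.p i * c.β q := by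
    intro i hi
    have h := c.ha i
    have hD := c.D_pos q
    rw [d, p, (Finset.mem_filter.1 hi).2]
    field_simp
  rw [Finset.sum_congr rfl this, Finset.sum_sub_distrib, ← Finset.sum_div, ← Finset.sum_mul,
    c.sum_p, one_mul]
  simp [β, S]

noncomputable def Γ (q : Fin k) (x : Fin k → ℝ) : ℝ :=
  (1 / 2) * ∑ i with c.j i = q, c.p i * |c.σ i ⬝ᵥ x - c.d i|

theorem L1 {x : Fin k → ℝ} (hx : x ∈ c.K) (q : Fin k) : x q + c.Γ q x ≤ c.β q := by
  set M := c.β q - x q with hM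
  have hh : ∀ i, c.j i = q → c.σ i ⬝ᵥ x - c.d i ≤ M := by
    intro i hi
    have h1 := hx i
    rw [c.v_dot, hi] at h1
    have h2 := (abs_le.1 h1).2
    have ha := c.ha i
    have h3 : x q + c.σ i ⬝ᵥ x ≤ 1 / (2 * c.a i) := by
      rw [le_div_iff₀ (by positivity)]
      linarith
    rw [d, hi, hM]
    linarith
  have hsum0 : ∑ i with c.j i = q, c.p i * (c.σ i ⬝ᵥ x - c.d i) = 0 := by
    simp_rw [mul_sub]
    rw [Finset.sum_sub_distrib, c.sum_p_d, sub_zero]
    simp only [dotProduct, Finset.mul_sum]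
    rw [Finset.sum_comm]
    refine Finset.sum_eq_zero fun r _ => ?_
    have := c.sum_p_σ q r
    calc ∑ i with c.j i = q, c.p i * (c.σ i r * x r)
        = (∑ i with c.j i = q, c.p i * c.σ i r) * x r := by
          rw [Finset.sum_mul]; exact Finset.sum_congr rfl fun i _ => by ring
      _ = 0 := by rw [this, zero_mul]
  have hM0 : 0 ≤ M := by
    have h1 : ∑ i with c.j i = q, c.p i * (c.σ i ⬝ᵥ x - c.d i) ≤ ∑ i with c.j i = q, c.p i * M :=
      Finset.sum_le_sum fun i hi => mul_le_mul_of_nonneg_left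
        (hh i (Finset.mem_filter.1 hi).2) (c.p_pos i).le
    rw [hsum0, ← Finset.sum_mul, c.sum_p, one_mul] at h1
    exact h1
  have hG : ∑ i with c.j i = q, c.p i * |c.σ i ⬝ᵥ x - c.d i| ≤ 2 * M := by
    have h1 : ∀ i ∈ Finset.univ.filter (fun i => c.j i = q), c.p i * |c.σ i ⬝ᵥ x - c.d i|
        ≤ c.p i * (2 * M) - c.p i * (c.σ i ⬝ᵥ x - c.d i) := by
      intro i hi
      rw [← mul_sub]
      apply mul_le_mul_of_nonneg_left _ (c.p_pos i).le
      have := hh i (Finset.mem_filter.1 hi).2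
      rw [abs_le]
      constructor <;> linarith
    have h2 := Finset.sum_le_sum h1
    rw [Finset.sum_sub_distrib, hsum0, ← Finset.sum_mul, c.sum_p, one_mul, sub_zero] at h2
    exact h2
  unfold Γ
  linarith

theorem K_neg {x : Fin k → ℝ} (hx : x ∈ c.K) : -x ∈ c.K := by
  intro i
  rw [dotProduct_neg, abs_neg]
  exact hx i

theorem Γ_nonneg (q : Fin k) (x : Fin k → ℝ) : 0 ≤ c.Γ q x :=
  mul_nonneg (by norm_num) (Finset.sum_nonneg fun i _ =>
    mul_nonneg (c.p_pos i).le (abs_nonneg _))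

theorem K_box {x : Fin k → ℝ} (hx : x ∈ c.K) (q : Fin k) : |x q| ≤ c.β q := by
  rw [abs_le]
  have h1 := c.L1 hx q
  have h2 := c.L1 (c.K_neg hx) q
  have h3 := c.Γ_nonneg q x
  have h4 := c.Γ_nonneg q (-x)
  rw [Pi.neg_apply] at h2
  constructor <;> linarith

/-- sign flips of coordinates -/
def flip (s : Fin k → Prop) [DecidablePred s] (x : Fin k → ℝ) : Fin k → ℝ :=
  fun r => if s r then -x r else x r

/-- the part of `σ_i · x` not involving the coordinate `j i` -/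
noncomputable def ν (i : ι) (x : Fin k → ℝ) : ℝ :=
  ∑ r ∈ Finset.univ.erase (c.j i), c.σ i r * x r

theorem σ_dot (i : ι) (x : Fin k → ℝ) : c.σ i ⬝ᵥ x = c.σ i (c.j i) * x (c.j i) + c.ν i x :=
  (Finset.add_sum_erase _ _ (Finset.mem_univ (c.j i))).symm

theorem σ_dot_flip (i : ι) (x : Fin k → ℝ) :
    c.σ i ⬝ᵥ (flip (fun r => r = c.j i) x) = -(c.σ i (c.j i) * x (c.j i)) + c.ν i x := by
  rw [c.σ_dot]
  congr 1
  · simp [flip]
  · refine Finset.sum_congr rfl fun r hr => ?_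
    simp [flip, Finset.ne_of_mem_erase hr]

noncomputable def γ (q : Fin k) (x : Fin k → ℝ) : ℝ :=
  (1 / 2) * ∑ i with c.j i = q, c.p i * |c.ν i x|

theorem ΓΓ_ge (q : Fin k) (x : Fin k → ℝ) :
    2 * c.γ q x ≤ c.Γ q x + c.Γ q (-flip (fun r => r = q) x) := by
  unfold γ Γ
  rw [← mul_add, ← Finset.sum_add_distrib]
  have : ∑ i with c.j i = q, 2 * (c.p i * |c.ν i x|) ≤ ∑ i with c.j i = q,
      (c.p i * |c.σ i ⬝ᵥ x - c.d i| + c.p i * |c.σ i ⬝ᵥ (-flip (fun r => r = q) x) - c.d i|) := by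
    refine Finset.sum_le_sum fun i hi => ?_
    have hi' : c.j i = q := (Finset.mem_filter.1 hi).2
    rw [← mul_add, mul_left_comm]
    apply mul_le_mul_of_nonneg_left _ (c.p_pos i).le
    have h1 : c.σ i ⬝ᵥ (-flip (fun r => r = q) x) = c.σ i q * x q - c.ν i x := by
      subst hi'
      rw [dotProduct_neg, c.σ_dot_flip]
      ring
    have h2 : c.σ i ⬝ᵥ x = c.σ i q * x q + c.ν i x := by
      subst hi'
      exact c.σ_dot i x
    rw [h1, h2]
    have h3 := abs_sub (c.σ i q * x q + c.ν i x - c.d i) (c.σ i q * x q - c.ν i x - c.d i)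
    have h4 : (c.σ i q * x q + c.ν i x - c.d i) - (c.σ i q * x q - c.ν i x - c.d i)
        = 2 * c.ν i x := by ring
    rw [h4, abs_mul, abs_two] at h3
    linarith
  rw [← Finset.mul_sum] at this
  linarith

theorem L2 {x : Fin k → ℝ} (hx : x ∈ c.K) (q : Fin k) (hx' : flip (fun r => r = q) x ∈ c.K) :
    |x q| ≤ c.β q - c.γ q x := by
  have h1 := c.L1 hx q
  have h2 := c.L1 (c.K_neg hx') q
  have h3 := c.L1 (c.K_neg hx) q
  have h4 := c.L1 hx' q
  have h5 := c.ΓΓ_ge q x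
  have h6 := c.ΓΓ_ge q (-x)
  have e1 : (-flip (fun r => r = q) x) q = x q := by simp [flip]
  have e2 : flip (fun r => r = q) x q = -x q := by simp [flip]
  have e3 : -flip (fun r => r = q) (-x) = flip (fun r => r = q) x := by
    ext r; simp only [flip, Pi.neg_apply]; split_ifs <;> simp
  have e4 : c.γ q (-x) = c.γ q x := by
    unfold γ
    congr 1
    refine Finset.sum_congr rfl fun i _ => ?_
    have : c.ν i (-x) = -c.ν i x := by simp [ν]
    rw [this, abs_neg]
  rw [e1] at h2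
  rw [Pi.neg_apply] at h3
  rw [e2] at h4
  rw [e3, e4] at h6
  rw [abs_le]
  constructor <;> linarith

end Clus

end Pool.Agent.Work.MP_6cd513_gt
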