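import Pool.Agent.Work.MP_6cd513_gt.LocalGeo

/-!
# The local lemma: volume part
-/

open Matrix Finset MeasureTheory

namespace Pool.Agent.Work.MP_6cd513_gt

theorem flip_mp {k : ℕ} (s : Fin k → Prop) [DecidablePred s] :
    MeasurePreserving (Clus.flip s) (volume : Measure (Fin k → ℝ)) volume := by
  have h := volume_preserving_pi (α' := fun _ : Fin k => ℝ) (β' := fun _ : Fin k => ℝ)
    (f := fun r : Fin k => if s r then (fun t : ℝ => -t) else id) (fun r => by
      split_ifs
      · exact Measure.measurePreserving_neg volume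
      · exact MeasurePreserving.id volume)
  have h2 : Clus.flip s = fun (a : Fin k → ℝ) r => (if s r then (fun t : ℝ => -t) else id) (a r) := by
    ext x r
    simp only [Clus.flip]
    split_ifs <;> rfl
  rw [h2]
  exact h

/-- the box -/
def box {k : ℕ} (β : Fin k → ℝ) : Set (Fin k → ℝ) := Set.univ.pi fun r => Set.Icc (-β r) (β r)

theorem mem_box {k : ℕ} {β : Fin k → ℝ} {x : Fin k → ℝ} : x ∈ box β ↔ ∀ r, |x r| ≤ β r := by
  simp only [box, Set.mem_univ_pi, Set.mem_Icc, abs_le]

theorem box_measurable {k : ℕ} (β : Fin k → ℝ) : MeasurableSet (box β) :=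
  MeasurableSet.univ_pi fun _ => measurableSet_Icc

theorem box_volume {k : ℕ} {β : Fin k → ℝ} (hβ : ∀ r, 0 < β r) :
    volume (box β) = ENNReal.ofReal (∏ r, (2 * β r)) := by
  rw [box, volume_pi, Measure.pi_pi, ENNReal.ofReal_prod_of_nonneg (fun r _ => by
    have := hβ r; positivity)]
  refine Finset.prod_congr rfl fun r _ => ?_
  rw [Real.volume_Icc]
  congr 1
  ring

theorem box_volume_real {k : ℕ} {β : Fin k → ℝ} (hβ : ∀ r, 0 < β r) :
    (volume : Measure (Fin k → ℝ)).real (box β) = ∏ r, (2 * β r) := by
  rw [Measure.real, box_volume hβ, ENNReal.toReal_ofReal (Finset.prod_nonneg fun r _ => by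
    have := hβ r; positivity)]

theorem flip_mem_box {k : ℕ} {β : Fin k → ℝ} (s : Fin k → Prop) [DecidablePred s]
    (x : Fin k → ℝ) : Clus.flip s x ∈ box β ↔ x ∈ box β := by
  rw [mem_box, mem_box]
  refine forall_congr' fun r => ?_
  simp only [Clus.flip]
  split_ifs
  · rw [abs_neg]
  · rfl

theorem integral_abs_Icc {b : ℝ} (hb : 0 < b) : ∫ t in Set.Icc (-b) b, |t| = b ^ 2 := by
  rw [integral_Icc_eq_integral_Ioc, ← intervalIntegral.integral_of_le (by linarith)]
  have h1 : ∫ t in (-b)..b, |t| = (∫ t in (-b)..0, |t|) + ∫ t in (0 : ℝ)..b, |t| :=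
    (intervalIntegral.integral_add_adjacent_intervals (continuous_abs.intervalIntegrable _ _)
      (continuous_abs.intervalIntegrable _ _)).symm
  have h2 : ∫ t in (0 : ℝ)..b, |t| = b ^ 2 / 2 := by
    rw [intervalIntegral.integral_congr (g := fun t => t) (fun t ht => by
      rw [Set.uIcc_of_le hb.le] at ht
      exact abs_of_nonneg ht.1), integral_id]
    ring
  have h3 : ∫ t in (-b)..0, |t| = b ^ 2 / 2 := by
    rw [intervalIntegral.integral_congr (g := fun t => -t) (fun t ht => by
      rw [Set.uIcc_of_le (by linarith)] at ht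
      exact abs_of_nonpos ht.2), intervalIntegral.integral_neg, integral_id]
    ring
  rw [h1, h2, h3]
  ring

theorem integral_coord {k : ℕ} {β : Fin k → ℝ} (hβ : ∀ r, 0 < β r) (r0 : Fin k) :
    ∫ y in box β, |y r0| = (β r0 / 2) * ∏ r, (2 * β r) := by
  classical
  let f : Fin k → ℝ → ℝ := fun r => (Set.Icc (-β r) (β r)).indicator
    (fun t => if r = r0 then |t| else 1)
  have h1 := integral_fintype_prod_volume_eq_prod (𝕜 := ℝ) f
  have h2 : ∫ y in box β, |y r0| = ∫ y : Fin k → ℝ, ∏ r, f r (y r) := by
    rw [← integral_indicator (box_measurable β)]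
    congr 1
    ext y
    by_cases hy : y ∈ box β
    · rw [Set.indicator_of_mem hy]
      have : ∀ r, f r (y r) = if r = r0 then |y r| else 1 := by
        intro r
        have hr : y r ∈ Set.Icc (-β r) (β r) := hy r (Set.mem_univ r)
        simp only [f, Set.indicator_of_mem hr]
      simp_rw [this]
      rw [Finset.prod_ite_eq' Finset.univ r0]
      simp
    · rw [Set.indicator_of_notMem hy]
      have : ∃ r, y r ∉ Set.Icc (-β r) (β r) := by
        by_contra hcon
        push Not at hcon
        exact hy fun r _ => hcon r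
      obtain ⟨r, hr⟩ := this
      symm
      apply Finset.prod_eq_zero (Finset.mem_univ r)
      simp only [f, Set.indicator_of_notMem hr]
  rw [h2, h1]
  have h3 : ∀ r, ∫ t, f r t = if r = r0 then β r ^ 2 else 2 * β r := by
    intro r
    simp only [f]
    rw [integral_indicator measurableSet_Icc]
    split_ifs
    · exact integral_abs_Icc (hβ r)
    · rw [setIntegral_const, Measure.real, Real.volume_Icc, ENNReal.toReal_ofReal (by
        have := hβ r; linarith)]
      simp; ring
  simp_rw [h3]
  rw [← Finset.mul_prod_erase _ _ (Finset.mem_univ r0),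
    ← Finset.mul_prod_erase _ (fun r => 2 * β r) (Finset.mem_univ r0), if_pos rfl]
  have h4 : ∏ x ∈ Finset.univ.erase r0, (if x = r0 then β x ^ 2 else 2 * β x)
      = ∏ x ∈ Finset.univ.erase r0, (2 * β x) :=
    Finset.prod_congr rfl fun r hr => by rw [if_neg (Finset.ne_of_mem_erase hr)]
  rw [h4]
  ring

theorem box_compact {k : ℕ} (β : Fin k → ℝ) : IsCompact (box β) :=
  isCompact_univ_pi fun _ => isCompact_Icc

theorem integral_lin_ge {k : ℕ} {β : Fin k → ℝ} (hβ : ∀ r, 0 < β r) (s : Fin k → ℝ)
    (r0 : Fin k) :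
    |s r0| * ((β r0 / 2) * ∏ r, (2 * β r)) ≤ ∫ y in box β, |∑ r, s r * y r| := by
  classical
  have hcont : ∀ g : (Fin k → ℝ) → ℝ, Continuous g →
      IntegrableOn g (box β) volume := fun g hg =>
    hg.continuousOn.integrableOn_compact (box_compact β)
  let F := Clus.flip (fun r : Fin k => r ≠ r0)
  have hF : MeasurePreserving F (volume : Measure (Fin k → ℝ)) volume := flip_mp _
  have hFc : Continuous F := by
    apply continuous_pi
    intro r
    simp only [F, Clus.flip]
    split_ifs <;> fun_prop
  have hFe : MeasurableEmbedding F := by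
    have hinv : Function.Involutive F := by
      intro x
      ext r
      simp only [F, Clus.flip]
      split_ifs <;> simp
    exact (MeasurableEquiv.ofInvolutive F hinv hFc.measurable).measurableEmbedding
  have h1 : ∫ y in box β, |∑ r, s r * y r| = ∫ y in box β, |∑ r, s r * F y r| := by
    have h2 := hF.setIntegral_preimage_emb hFe (fun y => |∑ r, s r * y r|) (box β)
    rw [← h2]
    have h3 : F ⁻¹' box β = box β := by
      ext y
      exact flip_mem_box _ y
    rw [h3]
  have hc1 : Continuous fun y : Fin k → ℝ => |∑ r, s r * y r| := by fun_prop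
  have hc2 : Continuous fun y : Fin k → ℝ => |∑ r, s r * F y r| := by
    have : ∀ r, Continuous fun y => F y r := fun r => (continuous_apply r).comp hFc
    fun_prop
  have h2 : 2 * ∫ y in box β, |∑ r, s r * y r|
      = ∫ y in box β, (|∑ r, s r * y r| + |∑ r, s r * F y r|) := by
    rw [integral_add (hcont _ hc1) (hcont _ hc2), ← h1]
    ring
  have h3 : ∫ y in box β, 2 * |s r0| * |y r0| ≤
      ∫ y in box β, (|∑ r, s r * y r| + |∑ r, s r * F y r|) := by
    apply setIntegral_mono (hcont _ (by fun_prop)) (hcont _ (hc1.add hc2))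
    intro y
    simp only
    have h4 : (∑ r, s r * y r) + ∑ r, s r * F y r = 2 * (s r0 * y r0) := by
      rw [← Finset.sum_add_distrib]
      rw [← Finset.add_sum_erase _ _ (Finset.mem_univ r0)]
      have h5 : ∑ x ∈ Finset.univ.erase r0, (s x * y x + s x * F y x) = 0 := by
        refine Finset.sum_eq_zero fun r hr => ?_
        simp only [F, Clus.flip]
        rw [if_pos (Finset.ne_of_mem_erase hr)]
        ring
      rw [h5]
      simp only [F, Clus.flip]
      rw [if_neg (by simp)]
      ring
    have h5 := abs_add_le (∑ r, s r * y r) (∑ r, s r * F y r)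
    rw [h4, abs_mul, abs_mul, abs_two] at h5
    simp only [Pi.add_apply]
    linarith
  rw [integral_const_mul, integral_coord hβ r0] at h3
  linarith

end Pool.Agent.Work.MP_6cd513_gt
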