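import Pool.Agent.Work.MP_6cd513_gt.LocalVol

/-!
# The local lemma: volume of the clustered body
-/

open Matrix Finset MeasureTheory

namespace Pool.Agent.Work.MP_6cd513_gt

variable {ι : Type*} [Fintype ι] {κ : ℕ}

theorem erase_sum_eq {q : Fin (κ + 1)} (f : Fin (κ + 1) → ℝ) :
    ∑ r ∈ Finset.univ.erase q, f r = ∑ r : Fin κ, f (q.succAbove r) := by
  have h1 := Finset.add_sum_erase Finset.univ f (Finset.mem_univ q)
  have h2 := Fin.sum_univ_succAbove f q
  linarith

namespace Clus

/-- off-diagonal `ℓ¹` tilt -/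
noncomputable def o {k : ℕ} (c : Clus ι k) (i : ι) : ℝ :=
  ∑ r ∈ Finset.univ.erase (c.j i), |c.σ i r|

theorem o_nonneg {k : ℕ} (c : Clus ι k) (i : ι) : 0 ≤ c.o i :=
  Finset.sum_nonneg fun _ _ => abs_nonneg _

theorem K_closed {k : ℕ} (c : Clus ι k) : IsClosed c.K := by
  have : c.K = ⋂ i, {x | |c.v i ⬝ᵥ x| ≤ 1 / 2} := by
    ext x; simp [K]
  rw [this]
  apply isClosed_iInter
  intro i
  have hc : Continuous fun x : Fin k → ℝ => c.v i ⬝ᵥ x := by
    simp only [dotProduct]
    fun_prop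
  exact isClosed_le hc.abs continuous_const

theorem K_sub_box {k : ℕ} (c : Clus ι k) : c.K ⊆ box c.β := fun _ hx =>
  mem_box.2 fun q => c.K_box hx q

variable (c : Clus ι (κ + 1))

/-- `γ` as a function of the remaining coordinates -/
noncomputable def γ' (q : Fin (κ + 1)) (y : Fin κ → ℝ) : ℝ :=
  (1 / 2) * ∑ i with c.j i = q, c.p i * |∑ r, c.σ i (q.succAbove r) * y r|

theorem γ_eq (q : Fin (κ + 1)) (x : Fin (κ + 1) → ℝ) :
    c.γ q x = c.γ' q (fun r => x (q.succAbove r)) := by
  unfold γ γ'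
  congr 1
  refine Finset.sum_congr rfl fun i hi => ?_
  have hi' : c.j i = q := (Finset.mem_filter.1 hi).2
  rw [ν, hi', erase_sum_eq]

theorem o_eq (q : Fin (κ + 1)) (i : ι) (hi : c.j i = q) :
    c.o i = ∑ r, |c.σ i (q.succAbove r)| := by
  rw [o, hi, erase_sum_eq]

theorem γ'_cont (q : Fin (κ + 1)) : Continuous (c.γ' q) := by
  unfold γ'
  fun_prop

theorem vol_W (hκ : 1 ≤ κ) {R t1 : ℝ} (hR : 1 ≤ R) (hβR : ∀ q r, c.β q ≤ R * c.β r)
    (ht : ∀ i, c.o i ≤ t1) (hRt : R * t1 ≤ 2) (q : Fin (κ + 1)) :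
    volume {x : Fin (κ + 1) → ℝ | |x q| ≤ c.β q - c.γ q x ∧ x ∈ box c.β} ≤
      ENNReal.ofReal ((∏ r, (2 * c.β r)) *
        (1 - (∑ i with c.j i = q, c.p i * c.o i) / (4 * κ * R))) := by
  have hκ' : (1 : ℝ) ≤ κ := by exact_mod_cast hκ
  have hR0 : 0 < R := by linarith
  set β' : Fin κ → ℝ := fun r => c.β (q.succAbove r) with hβ'
  have hβ'0 : ∀ r, 0 < β' r := fun r => c.β_pos _
  set V' : ℝ := ∏ r, (2 * β' r) with hV'
  have hV'0 : 0 < V' := Finset.prod_pos fun r _ => by have := hβ'0 r; positivity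
  have hV : ∏ r, (2 * c.β r) = (2 * c.β q) * V' := Fin.prod_univ_succAbove _ q
  have hβq := c.β_pos q
  -- the set in product coordinates
  let W' : Set (ℝ × (Fin κ → ℝ)) := {z | |z.1| ≤ c.β q - c.γ' q z.2 ∧ z.2 ∈ box β'}
  have hW'm : MeasurableSet W' := by
    apply IsClosed.measurableSet
    have e1 : IsClosed {z : ℝ × (Fin κ → ℝ) | |z.1| ≤ c.β q - c.γ' q z.2} :=
      isClosed_le (by fun_prop) (continuous_const.sub ((c.γ'_cont q).comp continuous_snd))
    have e2 : IsClosed {z : ℝ × (Fin κ → ℝ) | z.2 ∈ box β'} :=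
      (box_compact β').isClosed.preimage continuous_snd
    exact e1.inter e2
  have hmp := volume_preserving_piFinSuccAbove (fun _ : Fin (κ + 1) => ℝ) q
  have hsub : {x : Fin (κ + 1) → ℝ | |x q| ≤ c.β q - c.γ q x ∧ x ∈ box c.β} ⊆
      (MeasurableEquiv.piFinSuccAbove (fun _ : Fin (κ + 1) => ℝ) q) ⁻¹' W' := by
    rintro x ⟨hx1, hx2⟩
    refine ⟨?_, ?_⟩
    · rw [c.γ_eq] at hx1
      exact hx1
    · rw [mem_box] at hx2 ⊢
      intro r
      exact hx2 (q.succAbove r)
  refine (measure_mono hsub).trans ?_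
  rw [hmp.measure_preimage hW'm.nullMeasurableSet, Measure.volume_eq_prod,
    Measure.prod_apply_symm hW'm]
  have hslice : ∀ y : Fin κ → ℝ, volume ((fun t : ℝ => (t, y)) ⁻¹' W') ≤
      (box β').indicator (fun y => ENNReal.ofReal (2 * (c.β q - c.γ' q y))) y := by
    intro y
    by_cases hy : y ∈ box β'
    · rw [Set.indicator_of_mem hy]
      have : (fun t : ℝ => (t, y)) ⁻¹' W' = Set.Icc (-(c.β q - c.γ' q y)) (c.β q - c.γ' q y) := by
        ext t
        simp only [W', Set.mem_preimage, Set.mem_ofPred_eq, Set.mem_Icc, abs_le]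
        exact ⟨fun h => h.1, fun h => ⟨h, hy⟩⟩
      rw [this, Real.volume_Icc]
      apply ENNReal.ofReal_le_ofReal
      linarith
    · rw [Set.indicator_of_notMem hy]
      have : (fun t : ℝ => (t, y)) ⁻¹' W' = ∅ := by
        ext t
        simp only [W', Set.mem_preimage, Set.mem_ofPred_eq, Set.mem_empty_iff_false, iff_false]
        exact fun h => hy h.2
      rw [this, measure_empty]
  refine (lintegral_mono hslice).trans ?_
  rw [lintegral_indicator (box_measurable β')]
  -- bound on γ'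
  have hγle : ∀ y ∈ box β', c.γ' q y ≤ c.β q := by
    intro y hy
    rw [mem_box] at hy
    have h1 : ∀ i ∈ Finset.univ.filter (fun i => c.j i = q),
        c.p i * |∑ r, c.σ i (q.succAbove r) * y r| ≤ c.p i * (2 * c.β q) := by
      intro i hi
      have hi' : c.j i = q := (Finset.mem_filter.1 hi).2
      apply mul_le_mul_of_nonneg_left _ (c.p_pos i).le
      calc |∑ r, c.σ i (q.succAbove r) * y r| ≤ ∑ r, |c.σ i (q.succAbove r) * y r| :=
            Finset.abs_sum_le_sum_abs _ _
        _ ≤ ∑ r, |c.σ i (q.succAbove r)| * (R * c.β q) := by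
            refine Finset.sum_le_sum fun r _ => ?_
            rw [abs_mul]
            exact mul_le_mul_of_nonneg_left ((hy r).trans (hβR _ _)) (abs_nonneg _)
        _ = c.o i * (R * c.β q) := by rw [← Finset.sum_mul, c.o_eq q i hi']
        _ ≤ t1 * (R * c.β q) := mul_le_mul_of_nonneg_right (ht i) (by positivity)
        _ = (R * t1) * c.β q := by ring
        _ ≤ 2 * c.β q := mul_le_mul_of_nonneg_right hRt hβq.le
    have h2 := Finset.sum_le_sum h1
    rw [← Finset.sum_mul, c.sum_p, one_mul] at h2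
    unfold γ'
    linarith
  have hcont : Continuous fun y => 2 * (c.β q - c.γ' q y) :=
    continuous_const.mul (continuous_const.sub (c.γ'_cont q))
  have hint : ∀ g : (Fin κ → ℝ) → ℝ, Continuous g → IntegrableOn g (box β') volume :=
    fun g hg => hg.continuousOn.integrableOn_compact (box_compact β')
  rw [← ofReal_integral_eq_lintegral_ofReal (hint _ hcont) (by
    filter_upwards [ae_restrict_mem (box_measurable β')] with y hy
    have := hγle y hy
    simp only [Pi.zero_apply]
    linarith)]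
  apply ENNReal.ofReal_le_ofReal
  -- compute the integral
  have hvolr : (volume : Measure (Fin κ → ℝ)).real (box β') = V' := box_volume_real hβ'0
  have h1 : ∫ y in box β', 2 * (c.β q - c.γ' q y)
      = 2 * c.β q * V' - ∑ i with c.j i = q, c.p i *
        ∫ y in box β', |∑ r, c.σ i (q.succAbove r) * y r| := by
    have h2 : ∀ y, 2 * (c.β q - c.γ' q y) = 2 * c.β q -
        ∑ i with c.j i = q, c.p i * |∑ r, c.σ i (q.succAbove r) * y r| := by
      intro y; unfold γ'; ring
    simp_rw [h2]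
    rw [integral_sub (hint _ continuous_const) (hint _ (by fun_prop)), setIntegral_const, hvolr,
      smul_eq_mul, mul_comm V', integral_finsetSum _ (fun i _ => hint _ (by fun_prop))]
    congr 1
    refine Finset.sum_congr rfl fun i _ => ?_
    rw [integral_const_mul]
  rw [h1, hV]
  have h3 : ∀ i ∈ Finset.univ.filter (fun i => c.j i = q),
      c.p i * (c.o i * (c.β q / (2 * κ * R)) * V') ≤
        c.p i * ∫ y in box β', |∑ r, c.σ i (q.succAbove r) * y r| := by
    intro i hi
    have hi' : c.j i = q := (Finset.mem_filter.1 hi).2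
    apply mul_le_mul_of_nonneg_left _ (c.p_pos i).le
    set I := ∫ y in box β', |∑ r, c.σ i (q.succAbove r) * y r| with hI
    have h4 : ∀ r, |c.σ i (q.succAbove r)| * (c.β q / (2 * R) * V') ≤ I := by
      intro r
      refine le_trans ?_ (integral_lin_ge hβ'0 (fun r => c.σ i (q.succAbove r)) r)
      apply mul_le_mul_of_nonneg_left _ (abs_nonneg _)
      apply mul_le_mul_of_nonneg_right _ hV'0.le
      rw [div_le_div_iff₀ (by positivity) (by positivity)]
      have := hβR q (q.succAbove r)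
      simp only [hβ']
      nlinarith
    have h5 : c.o i * (c.β q / (2 * R) * V') ≤ κ * I := by
      rw [c.o_eq q i hi', Finset.sum_mul]
      calc _ ≤ ∑ _r : Fin κ, I := Finset.sum_le_sum fun r _ => h4 r
        _ = κ * I := by simp
    have h6 : c.o i * (c.β q / (2 * κ * R)) * V' = (c.o i * (c.β q / (2 * R) * V')) / κ := by
      field_simp
    rw [h6, div_le_iff₀ (by positivity)]
    linarith
  have h4 := Finset.sum_le_sum h3
  have h5 : ∑ i with c.j i = q, c.p i * (c.o i * (c.β q / (2 * κ * R)) * V')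
      = 2 * c.β q * V' * ((∑ i with c.j i = q, c.p i * c.o i) / (4 * κ * R)) := by
    rw [Finset.sum_div, Finset.mul_sum]
    refine Finset.sum_congr rfl fun i _ => ?_
    field_simp
    ring
  rw [h5] at h4
  linarith

theorem vol_K (hκ : 1 ≤ κ) {R t1 : ℝ} (hR : 1 ≤ R) (hβR : ∀ q r, c.β q ≤ R * c.β r)
    (ht : ∀ i, c.o i ≤ t1) (hRt : R * t1 ≤ 2) (q : Fin (κ + 1)) :
    (volume c.K).toReal ≤ (∏ r, (2 * c.β r)) *
        (1 - (∑ i with c.j i = q, c.p i * c.o i) / (8 * κ * R)) := by
  set V := ∏ r, (2 * c.β r) with hV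
  have hV0 : 0 < V := Finset.prod_pos fun r _ => by have := c.β_pos r; positivity
  set X := ∑ i with c.j i = q, c.p i * c.o i with hX
  have hκ' : (1 : ℝ) ≤ κ := by exact_mod_cast hκ
  have hR0 : 0 < R := by linarith
  have hbox : volume (box c.β) = ENNReal.ofReal V := box_volume c.β_pos
  let F := flip (fun r : Fin (κ + 1) => r = q)
  have hF : MeasurePreserving F (volume : Measure (Fin (κ + 1) → ℝ)) volume := flip_mp _
  have hK' : volume (F ⁻¹' c.K) = volume c.K :=
    hF.measure_preimage c.K_closed.measurableSet.nullMeasurableSet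
  have hKm := c.K_closed.measurableSet
  have hunion : c.K ∪ F ⁻¹' c.K ⊆ box c.β := by
    apply Set.union_subset c.K_sub_box
    intro x hx
    exact (flip_mem_box _ x).1 (c.K_sub_box hx)
  have hinter : c.K ∩ F ⁻¹' c.K ⊆ {x | |x q| ≤ c.β q - c.γ q x ∧ x ∈ box c.β} := by
    rintro x ⟨hx1, hx2⟩
    exact ⟨c.L2 hx1 q hx2, c.K_sub_box hx1⟩
  have hsum := measure_union_add_inter (μ := volume) c.K (hF.measurable hKm)
  rw [hK'] at hsum
  have h1 : volume c.K + volume c.K ≤ ENNReal.ofReal V +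
      ENNReal.ofReal (V * (1 - X / (4 * κ * R))) := by
    rw [← hsum]
    apply add_le_add
    · rw [← hbox]; exact measure_mono hunion
    · exact (measure_mono hinter).trans (c.vol_W hκ hR hβR ht hRt q)
  have hfin : volume c.K ≠ ⊤ := by
    apply ne_top_of_le_ne_top _ (measure_mono c.K_sub_box)
    rw [hbox]; exact ENNReal.ofReal_ne_top
  have ht1 : X / (4 * κ * R) ≤ 1 := by
    rw [div_le_one (by positivity)]
    have h2 : X ≤ t1 := by
      calc X ≤ ∑ i with c.j i = q, c.p i * t1 := Finset.sum_le_sum fun i _ =>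
            mul_le_mul_of_nonneg_left (ht i) (c.p_pos i).le
        _ = t1 := by rw [← Finset.sum_mul, c.sum_p, one_mul]
    have ht0 : 0 ≤ t1 := by
      obtain ⟨i, _⟩ := c.hne q
      exact (c.o_nonneg i).trans (ht i)
    nlinarith
  have h2 := (ENNReal.toReal_le_toReal (ENNReal.add_ne_top.2 ⟨hfin, hfin⟩)
    (ENNReal.add_ne_top.2 ⟨ENNReal.ofReal_ne_top, ENNReal.ofReal_ne_top⟩)).2 h1
  rw [ENNReal.toReal_add hfin hfin, ENNReal.toReal_add ENNReal.ofReal_ne_top
    ENNReal.ofReal_ne_top, ENNReal.toReal_ofReal hV0.le,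
    ENNReal.toReal_ofReal (mul_nonneg hV0.le (by linarith))] at h2
  have h3 : X / (8 * κ * R) = (X / (4 * κ * R)) / 2 := by
    field_simp
    ring
  rw [h3]
  linarith

end Clus

end Pool.Agent.Work.MP_6cd513_gt
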