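import Pool.Agent.Work.MP_6cd513_gt.MainStep

/-!
# The main step: a nearly extremal tight frame with all norms above the threshold
-/

open Matrix Finset MeasureTheory

namespace Pool.Agent.Work.MP_6cd513_gt

theorem main_step {κ : ℕ} (hκ : 1 ≤ κ) : ∃ N0 : ℕ, ∀ N : ℕ, N0 ≤ N → ∀ (ι : Type) [Fintype ι]
    (w : ι → Fin (κ + 1) → ℝ), gramM w = 1 → (∀ i, 1 / (N : ℝ) < w i ⬝ᵥ w i) →
    (κ + 1) * (N - 1) < Fintype.card ι → Real.sqrt (((N : ℝ) - 1) ^ (κ + 1)) ≤ Gv w →
    ∃ m : Fin (κ + 1) → ℕ, ∑ q, m q = Fintype.card ι ∧ Gv w ≤ Real.sqrt (∏ q, (m q : ℝ)) := by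
  classical
  set k := κ + 1 with hk
  have hk1 : 1 ≤ k := by omega
  have hκ' : (1 : ℝ) ≤ κ := by exact_mod_cast hκ
  have hkr : (k : ℝ) = κ + 1 := by rw [hk]; push_cast; ring
  have hk' : (1 : ℝ) ≤ k := by exact_mod_cast hk1
  set θ : ℝ := 1 / (200000 * (k : ℝ) ^ 2) with hθ
  have hθ0 : 0 < θ := by positivity
  have hθk : θ * (k : ℝ) ^ 2 = 1 / 200000 := by rw [hθ]; field_simp
  have hθ16 : θ ≤ 1 / (16 * k) := by
    rw [hθ]
    apply one_div_le_one_div_of_le (by positivity)
    nlinarith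
  have hθs : θ ≤ 1 / 200000 := by
    rw [hθ]
    apply one_div_le_one_div_of_le (by norm_num)
    nlinarith
  obtain ⟨δ0, hδ0, hcluster⟩ := cluster hk1 hθ0 hθ16
  obtain ⟨N1, hN1⟩ := exists_nat_gt ((k : ℝ) / δ0)
  refine ⟨max (max 2 (4 * k)) N1, ?_⟩
  intro N hN ι _ w hw hα hcard hG
  have hN2 : 2 ≤ N := le_trans (le_trans (le_max_left _ _) (le_max_left _ _)) hN
  have hN4 : 4 * k ≤ N := le_trans (le_trans (le_max_right _ _) (le_max_left _ _)) hN
  have hNN1 : N1 ≤ N := le_trans (le_max_right _ _) hN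
  have hNr2 : (2 : ℝ) ≤ N := by exact_mod_cast hN2
  have hNr4 : 4 * (k : ℝ) ≤ N := by exact_mod_cast hN4
  have hNr0 : (0 : ℝ) < N := by linarith
  have hkN : (k : ℝ) / N ≤ δ0 := by
    have h1 : (N1 : ℝ) ≤ N := by exact_mod_cast hNN1
    rw [div_lt_iff₀ hδ0] at hN1
    rw [div_le_iff₀ hNr0]
    nlinarith
  have hpos : ∀ i, 0 < w i ⬝ᵥ w i := fun i => lt_trans (by positivity) (hα i)
  obtain ⟨hu, hiso⟩ := normalise hw hpos
  set α : ι → ℝ := fun i => w i ⬝ᵥ w i with hαdef
  set u : ι → Fin k → ℝ := fun i => (Real.sqrt (w i ⬝ᵥ w i))⁻¹ • w i with hu'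
  have hsum := sum_alpha hu hiso
  -- volume of the equal-width slab body
  have hsub : bodyK w ⊆ slab (fun _ : ι => Real.sqrt N / 2) u := by
    intro x hx i
    refine lt_of_le_of_lt (dot_sqrt_inv (hpos i) (hx i)) ?_
    have h1 : 1 / Real.sqrt N < Real.sqrt (w i ⬝ᵥ w i) := by
      rw [← Real.sqrt_one, ← Real.sqrt_div (by norm_num)]
      apply Real.sqrt_lt_sqrt (by positivity)
      simpa using hα i
    have hsN : 0 < Real.sqrt N := Real.sqrt_pos.2 hNr0
    have hsw : 0 < Real.sqrt (w i ⬝ᵥ w i) := Real.sqrt_pos.2 (hpos i)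
    rw [div_lt_iff₀ hsN] at h1
    simp only
    rw [div_lt_div_iff₀ (by positivity) (by norm_num)]
    nlinarith
  have hvol : ENNReal.ofReal (2 ^ k * (1 - δ0)) ≤ volume (slab (fun _ : ι => (1 : ℝ)) u) := by
    by_cases hδ1 : 1 - δ0 ≤ 0
    · rw [ENNReal.ofReal_of_nonpos (mul_nonpos_of_nonneg_of_nonpos (by positivity) hδ1)]
      exact zero_le
    push Not at hδ1
    have h1 := measure_mono (μ := volume) hsub
    have hsN : 0 < Real.sqrt N := Real.sqrt_pos.2 hNr0
    rw [slab_scale u (by positivity)] at h1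
    have h2 : ENNReal.ofReal (Real.sqrt (((N : ℝ) - 1) ^ k)) ≤ volume (bodyK w) := by
      rw [Gv_tight hw] at hG
      exact ENNReal.ofReal_le_of_le_toReal hG
    have h3 := h2.trans h1
    have h4 : ENNReal.ofReal ((Real.sqrt N / 2) ^ k) * ENNReal.ofReal (2 ^ k * (1 - δ0)) ≤
        ENNReal.ofReal ((Real.sqrt N / 2) ^ k) * volume (slab (fun _ : ι => (1 : ℝ)) u) := by
      refine le_trans ?_ h3
      rw [← ENNReal.ofReal_mul (by positivity)]
      apply ENNReal.ofReal_le_ofReal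
      rw [← mul_assoc, ← mul_pow, div_mul_cancel₀ _ (by norm_num : (2 : ℝ) ≠ 0)]
      apply Real.le_sqrt_of_sq_le
      rw [mul_pow, ← pow_mul, mul_comm k 2, pow_mul, Real.sq_sqrt hNr0.le]
      have h5 : (N : ℝ) ^ k * (1 - 1 / (N : ℝ)) ^ k = ((N : ℝ) - 1) ^ k := by
        rw [← mul_pow]
        congr 1
        field_simp
      rw [← h5]
      apply mul_le_mul_of_nonneg_left _ (by positivity)
      have h6 : 1 - (k : ℝ) / N ≤ (1 - 1 / (N : ℝ)) ^ k := by
        have h7 := one_add_mul_le_pow (a := -(1 / (N : ℝ))) (by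
          have : 1 / (N : ℝ) ≤ 1 := by rw [div_le_one hNr0]; linarith
          linarith) k
        calc 1 - (k : ℝ) / N = 1 + (k : ℝ) * (-(1 / (N : ℝ))) := by ring
          _ ≤ (1 + -(1 / (N : ℝ))) ^ k := h7
          _ = _ := by rw [← sub_eq_add_neg]
      nlinarith
    exact (ENNReal.mul_le_mul_iff_right (ENNReal.ofReal_pos.2 (by positivity)).ne'
      ENNReal.ofReal_ne_top).1 h4
  obtain ⟨U, j, lam, hU, hlam, hrest, hbnd, hwt⟩ := hcluster ι α u (fun i => (hpos i).le) hu hiso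
    hvol
  -- normal form data
  have hl0 : ∀ i, 0 < |lam i (j i)| := fun i => lt_of_lt_of_le (by linarith) (hbnd i).1
  have hlne : ∀ i, lam i (j i) ≠ 0 := fun i => abs_pos.1 (hl0 i)
  have hsα : ∀ i, 0 < Real.sqrt (α i) := fun i => Real.sqrt_pos.2 (hpos i)
  let a : ι → ℝ := fun i => Real.sqrt (α i) * |lam i (j i)|
  have ha : ∀ i, 0 < a i := fun i => mul_pos (hsα i) (hl0 i)
  let τ : ι → Fin k → ℝ := fun i r => if r = j i then 0 else lam i r / lam i (j i)
  have hτ0 : ∀ i, τ i (j i) = 0 := fun i => by simp [τ]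
  have hτ : ∀ i, ∑ r, |τ i r| ≤ θ := by
    intro i
    rw [← Finset.add_sum_erase _ _ (Finset.mem_univ (j i)), hτ0, abs_zero, zero_add]
    have h1 : ∑ r ∈ Finset.univ.erase (j i), |τ i r|
        = (∑ r ∈ Finset.univ.erase (j i), |lam i r|) / |lam i (j i)| := by
      rw [Finset.sum_div]
      refine Finset.sum_congr rfl fun r hr => ?_
      simp only [τ]
      rw [if_neg (Finset.ne_of_mem_erase hr), abs_div]
    rw [h1, div_le_iff₀ (hl0 i)]
    exact hrest i
  have hne : ∀ q, ∃ i, j i = q := by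
    intro q
    by_contra hcon
    push Not at hcon
    have h1 := (hwt q).1
    rw [Finset.filter_false_of_mem (fun i _ => hcon i), Finset.sum_empty] at h1
    linarith
  obtain ⟨c, hcj, hca, hGc, hown, ho⟩ := normal_form j a τ ha hne hθ0.le (by linarith) hτ0 hτ
  -- relation of the functionals
  have hGw : Gv w = Gv (cv j a τ) := by
    have h1 : w = fun i => (Real.sqrt (α i) • lam i) ᵥ* U := by
      ext i r
      have h2 : w i = Real.sqrt (α i) • u i := by
        simp only [hu']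
        rw [smul_smul, mul_inv_cancel₀ (hsα i).ne', one_smul]
      rw [h2, hlam i, smul_vecMul]
    conv_lhs => rw [h1]
    rw [Gv_vecMul _ hU]
    symm
    apply Gv_sign
    intro i
    rcases lt_or_gt_of_ne (hlne i) with h | h
    · right
      ext r
      simp only [cv, a, τ, Pi.neg_apply, Pi.smul_apply, smul_eq_mul]
      rw [abs_of_neg h]
      split_ifs with h'
      · subst h'; ring
      · have := hlne i
        field_simp
        ring
    · left
      ext r
      simp only [cv, a, τ, Pi.smul_apply, smul_eq_mul]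
      rw [abs_of_pos h]
      split_ifs with h'
      · subst h'; ring
      · have := hlne i
        field_simp
        ring
  -- sizes of the clusters
  let m : Fin k → ℕ := fun q => (Finset.univ.filter (fun i => j i = q)).card
  have hm : ∑ q, m q = Fintype.card ι := by
    simp only [m]
    rw [← Finset.card_eq_sum_card_fiberwise (f := j) (s := Finset.univ) (t := Finset.univ)
      (fun _ _ => Finset.mem_univ _), Finset.card_univ]
  have hmup : ∀ q, (m q : ℝ) ≤ 2 * N := by
    intro q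
    have h1 : ∑ _i with j _i = q, 1 / (N : ℝ) ≤ ∑ i with j i = q, α i :=
      Finset.sum_le_sum fun i _ => (hα i).le
    rw [Finset.sum_const, nsmul_eq_mul] at h1
    have h2 := (hwt q).2
    have h3 : (m q : ℝ) * (1 / N) ≤ 2 := h1.trans h2
    rw [mul_one_div, div_le_iff₀ hNr0] at h3
    exact h3
  have hmlow : ∀ q, (N : ℝ) / 4 ≤ m q := by
    intro q
    have h1 : ∑ i with j i = q, (α i - 1 / (N : ℝ)) ≤ ∑ i, (α i - 1 / (N : ℝ)) := by
      apply Finset.sum_le_sum_of_subset_of_nonneg (Finset.filter_subset _ _)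
      intro i _ _
      have := hα i
      simp only [hαdef]
      linarith
    rw [Finset.sum_sub_distrib, Finset.sum_sub_distrib, hsum, Finset.sum_const, Finset.sum_const,
      nsmul_eq_mul, nsmul_eq_mul, Finset.card_univ] at h1
    have h2 := (hwt q).1
    have h3 : ((k * (N - 1) : ℕ) : ℝ) < Fintype.card ι := by exact_mod_cast hcard
    rw [Nat.cast_mul, Nat.cast_sub (by omega), Nat.cast_one] at h3
    have h4 : (k : ℝ) - (Fintype.card ι : ℝ) * (1 / N) ≤ k / N := by
      rw [mul_one_div, sub_le_iff_le_add, ← add_div, le_div_iff₀ hNr0]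
      linarith
    have h5 : (1 / 2 : ℝ) - (m q : ℝ) * (1 / N) ≤ k / N := by
      have : ((Finset.univ.filter (fun i => j i = q)).card : ℝ) = m q := rfl
      rw [this] at h1
      linarith
    rw [mul_one_div, sub_le_iff_le_add, ← add_div, le_div_iff₀ hNr0] at h5
    linarith
  -- D
  have hDq : ∀ q, c.D q = ∑ i with j i = q, α i * |lam i (j i)| ^ 2 := by
    intro q
    unfold Clus.D
    rw [hcj, hca]
    refine Finset.sum_congr rfl fun i _ => ?_
    simp only [a]
    rw [mul_pow, Real.sq_sqrt (hpos i).le]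
  have hDlow : ∀ q, 1 / 4 ≤ c.D q := by
    intro q
    rw [hDq]
    calc (1 / 4 : ℝ) ≤ (1 - θ) ^ 2 * (1 / 2) := by nlinarith
      _ ≤ (1 - θ) ^ 2 * ∑ i with j i = q, α i :=
          mul_le_mul_of_nonneg_left (hwt q).1 (sq_nonneg _)
      _ = ∑ i with j i = q, α i * (1 - θ) ^ 2 := by
          rw [Finset.mul_sum]; exact Finset.sum_congr rfl fun i _ => by ring
      _ ≤ _ := Finset.sum_le_sum fun i _ => mul_le_mul_of_nonneg_left
          (pow_le_pow_left₀ (by linarith) (hbnd i).1 2) (hpos i).le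
  have hDup : ∀ q, c.D q ≤ 3 := by
    intro q
    rw [hDq]
    calc ∑ i with j i = q, α i * |lam i (j i)| ^ 2 ≤ ∑ i with j i = q, α i * (1 + θ) ^ 2 :=
          Finset.sum_le_sum fun i _ => mul_le_mul_of_nonneg_left
            (pow_le_pow_left₀ (abs_nonneg _) (hbnd i).2 2) (hpos i).le
      _ = (1 + θ) ^ 2 * ∑ i with j i = q, α i := by
          rw [Finset.mul_sum]; exact Finset.sum_congr rfl fun i _ => by ring
      _ ≤ (1 + θ) ^ 2 * 2 := mul_le_mul_of_nonneg_left (hwt q).2 (sq_nonneg _)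
      _ ≤ 3 := by nlinarith
  have hD16 : ∀ q r, c.D q ≤ 16 * c.D r := fun q r => by
    linarith [hDup q, hDlow r]
  -- S and β
  have hsN : 0 < Real.sqrt N := Real.sqrt_pos.2 hNr0
  have hsNN : Real.sqrt N * Real.sqrt N = N := Real.mul_self_sqrt hNr0.le
  have hSlow : ∀ q, Real.sqrt N / 8 ≤ c.S q := by
    intro q
    have h1 : ∀ i, 1 / (2 * Real.sqrt N) ≤ a i := by
      intro i
      have h2 : 1 / Real.sqrt N ≤ Real.sqrt (α i) := by
        rw [← Real.sqrt_one, ← Real.sqrt_div (by norm_num)]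
        apply Real.sqrt_le_sqrt
        simpa using (hα i).le
      have h3 : 1 / 2 ≤ |lam i (j i)| := by linarith [(hbnd i).1]
      calc 1 / (2 * Real.sqrt N) = 1 / Real.sqrt N * (1 / 2) := by field_simp
        _ ≤ Real.sqrt (α i) * |lam i (j i)| := mul_le_mul h2 h3 (by norm_num) (hsα i).le
    have h2 : ∑ _i with j _i = q, 1 / (2 * Real.sqrt N) ≤ c.S q := by
      unfold Clus.S
      rw [hcj, hca]
      exact Finset.sum_le_sum fun i _ => h1 i
    rw [Finset.sum_const, nsmul_eq_mul] at h2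
    refine le_trans ?_ h2
    have h3 := hmlow q
    have h4 : ((Finset.univ.filter (fun i => j i = q)).card : ℝ) = m q := rfl
    rw [h4, mul_one_div, le_div_iff₀ (by positivity)]
    calc Real.sqrt N / 8 * (2 * Real.sqrt N) = (Real.sqrt N * Real.sqrt N) / 4 := by ring
      _ = N / 4 := by rw [hsNN]
      _ ≤ m q := h3
  have hSup : ∀ q, c.S q ≤ 5 / 2 * Real.sqrt N := by
    intro q
    have h1 : c.S q ^ 2 ≤ (m q : ℝ) * c.D q := by
      unfold Clus.S Clus.D
      rw [hcj]
      exact sq_sum_le_card_mul_sum_sq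
    have h2 : (m q : ℝ) * c.D q ≤ 2 * N * 3 :=
      mul_le_mul (hmup q) (hDup q) (c.D_pos q).le (by positivity)
    have h3 : c.S q ^ 2 ≤ (5 / 2 * Real.sqrt N) ^ 2 := by
      rw [mul_pow, Real.sq_sqrt hNr0.le]
      linarith
    exact le_of_sq_le_sq h3 (by positivity)
  have hβR : ∀ q r, c.β q ≤ 240 * c.β r := by
    intro q r
    have h1 : c.β q ≤ 5 * Real.sqrt N := by
      unfold Clus.β
      have hD := c.D_pos q
      rw [div_le_iff₀ (by positivity)]
      calc c.S q ≤ 5 / 2 * Real.sqrt N := hSup q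
        _ = 5 * Real.sqrt N * (2 * (1 / 4)) := by ring
        _ ≤ _ := mul_le_mul_of_nonneg_left (by linarith [hDlow q]) (by positivity)
    have h2 : Real.sqrt N / 48 ≤ c.β r := by
      unfold Clus.β
      have hD := c.D_pos r
      rw [le_div_iff₀ (by positivity)]
      calc Real.sqrt N / 48 * (2 * c.D r) ≤ Real.sqrt N / 48 * (2 * 3) :=
            mul_le_mul_of_nonneg_left (by linarith [hDup r]) (by positivity)
        _ = Real.sqrt N / 8 := by ring
        _ ≤ _ := hSlow r
    linarith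
  have hfin := c.local_lemma hκ (R := 240) (t1 := 4 * θ) (by norm_num) hβR ho (by
    have h1 : (κ : ℝ) * (κ + 1) ≤ (k : ℝ) ^ 2 := by rw [hkr]; nlinarith
    calc 4 * θ * (128 * κ * (κ + 1) * 240) = 122880 * (θ * (κ * (κ + 1))) := by ring
      _ ≤ 122880 * (θ * (k : ℝ) ^ 2) := by
          apply mul_le_mul_of_nonneg_left _ (by norm_num)
          exact mul_le_mul_of_nonneg_left h1 hθ0.le
      _ ≤ 1 := by rw [hθk]; norm_num) hown hD16
  refine ⟨m, hm, ?_⟩
  rw [hGw, hGc]
  have h1 : Gv c.v = Real.sqrt (gramM c.v).det * (volume c.K).toReal := rfl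
  rw [h1]
  refine hfin.trans (le_of_eq ?_)
  rw [hcj]

end Pool.Agent.Work.MP_6cd513_gt
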