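import Pool.Agent.Work.MP_6cd513_gt.Shift

/-!
# Existence of maximisers
-/

open Matrix Finset MeasureTheory Filter Topology

namespace Pool.Agent.Work.MP_6cd513_gt

variable {ι : Type} [Fintype ι] {k : ℕ}

/-- the slightly larger bodies -/
def bodyE (v : ι → Fin k → ℝ) (s : ι → ℝ) (R ε : ℝ) : Set (Fin k → ℝ) :=
  {x | (∀ i, |v i ⬝ᵥ x - s i| ≤ 1 / 2 + ε) ∧ x ∈ Metric.closedBall 0 R}

omit [Fintype ι] in
theorem bodyE_measurable (v : ι → Fin k → ℝ) (s : ι → ℝ) (R ε : ℝ) [Finite ι] :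
    MeasurableSet (bodyE v s R ε) := by
  have h1 : IsClosed (bodyE v s R ε) := by
    have h1 : bodyE v s R ε = (⋂ i, {x | |v i ⬝ᵥ x - s i| ≤ 1 / 2 + ε}) ∩
        Metric.closedBall 0 R := by
      ext x; simp [bodyE]
    rw [h1]
    refine IsClosed.inter (isClosed_iInter fun i => ?_) Metric.isClosed_closedBall
    have hc : Continuous fun x : Fin k → ℝ => v i ⬝ᵥ x - s i := by
      simp only [dotProduct]
      fun_prop
    exact isClosed_le hc.abs continuous_const
  exact h1.measurableSet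

theorem bodyE_tendsto (v : ι → Fin k → ℝ) (s : ι → ℝ) (R : ℝ) :
    Tendsto (fun m : ℕ => volume (bodyE v s R (1 / ((m : ℝ) + 1)))) atTop
      (𝓝 (volume (bodyE v s R 0))) := by
  have h1 : bodyE v s R 0 = ⋂ m : ℕ, bodyE v s R (1 / ((m : ℝ) + 1)) := by
    ext x
    simp only [bodyE, Set.mem_ofPred_eq, Set.mem_iInter, add_zero]
    constructor
    · intro h m
      refine ⟨fun i => (h.1 i).trans ?_, h.2⟩
      have : (0 : ℝ) ≤ 1 / ((m : ℝ) + 1) := by positivity
      linarith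
    · intro h
      refine ⟨fun i => ?_, (h 0).2⟩
      have h2 : Tendsto (fun m : ℕ => (1 : ℝ) / 2 + 1 / ((m : ℝ) + 1)) atTop (𝓝 (1 / 2 + 0)) :=
        tendsto_const_nhds.add tendsto_one_div_add_atTop_nhds_zero_nat
      rw [add_zero] at h2
      exact ge_of_tendsto h2 (Eventually.of_forall fun m => (h m).1 i)
  rw [h1]
  apply tendsto_measure_iInter_atTop
  · intro m
    exact (bodyE_measurable v s R _).nullMeasurableSet
  · intro a b hab x hx
    refine ⟨fun i => (hx.1 i).trans ?_, hx.2⟩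
    have : 1 / ((b : ℝ) + 1) ≤ 1 / ((a : ℝ) + 1) := by
      apply one_div_le_one_div_of_le (by positivity)
      have : (a : ℝ) ≤ b := by exact_mod_cast hab
      linarith
    linarith
  · refine ⟨0, ne_top_of_le_ne_top ?_ (measure_mono (fun x hx => hx.2))⟩
    exact (isCompact_closedBall _ _).measure_lt_top.ne

/-- upper semicontinuity of the volume on bounded families -/
theorem usc_vol (C : Set ((ι → Fin k → ℝ) × (ι → ℝ))) (R : ℝ) (hR : 0 < R)
    (hC : ∀ p ∈ C, bodyS p.1 p.2 ⊆ Metric.closedBall 0 R) :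
    UpperSemicontinuousOn (fun p : (ι → Fin k → ℝ) × (ι → ℝ) => volume (bodyS p.1 p.2)) C := by
  intro p hp c hc
  have h0 : volume (bodyE p.1 p.2 R 0) < c := by
    refine lt_of_le_of_lt (measure_mono fun x hx => ?_) hc
    intro i
    have := hx.1 i
    rwa [add_zero] at this
  have h1 := ((bodyE_tendsto p.1 p.2 R).eventually (gt_mem_nhds h0)).exists
  obtain ⟨m, hm⟩ := h1
  set ε : ℝ := 1 / ((m : ℝ) + 1) with hε
  have hε0 : 0 < ε := by positivity
  -- continuity
  let δ : ℝ := ε / (k * R + 1)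
  have hδ : 0 < δ := by positivity
  have h2 : ∀ᶠ q in 𝓝[C] p, dist q p < δ :=
    mem_nhdsWithin_of_mem_nhds (Metric.ball_mem_nhds p hδ)
  filter_upwards [h2, self_mem_nhdsWithin] with q hq hqC
  refine lt_of_le_of_lt (measure_mono fun x hx => ?_) hm
  have hxR := hC q hqC hx
  refine ⟨fun i => ?_, hxR⟩
  have h3 := hx i
  rw [mem_closedBall_zero_iff] at hxR
  have hd1 : dist q.1 p.1 < δ := lt_of_le_of_lt (le_max_left _ _) hq
  have hd2 : dist q.2 p.2 < δ := lt_of_le_of_lt (le_max_right _ _) hq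
  have h4 : |(p.1 i - q.1 i) ⬝ᵥ x| ≤ k * (δ * R) := by
    rw [dotProduct]
    refine (Finset.abs_sum_le_sum_abs _ _).trans ?_
    have : ∀ r ∈ (Finset.univ : Finset (Fin k)), |(p.1 i - q.1 i) r * x r| ≤ δ * R := by
      intro r _
      rw [abs_mul]
      apply mul_le_mul _ _ (abs_nonneg _) hδ.le
      · have e1 : dist (q.1 i r) (p.1 i r) ≤ dist q.1 p.1 :=
          (dist_le_pi_dist (q.1 i) (p.1 i) r).trans (dist_le_pi_dist q.1 p.1 i)
        rw [Real.dist_eq, abs_sub_comm] at e1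
        exact e1.trans hd1.le
      · exact (norm_le_pi_norm x r).trans hxR
    refine (Finset.sum_le_card_nsmul _ _ _ this).trans ?_
    simp
  have h5 : |q.2 i - p.2 i| ≤ δ := by
    have e1 : dist (q.2 i) (p.2 i) ≤ dist q.2 p.2 := dist_le_pi_dist q.2 p.2 i
    rw [Real.dist_eq] at e1
    exact e1.trans hd2.le
  have e3 : p.1 i ⬝ᵥ x - p.2 i = (q.1 i ⬝ᵥ x - q.2 i) + (p.1 i - q.1 i) ⬝ᵥ x
      + (q.2 i - p.2 i) := by
    rw [sub_dotProduct]; ring
  have h6 : δ * (k * R + 1) = ε := by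
    simp only [δ]
    field_simp
  calc |p.1 i ⬝ᵥ x - p.2 i| ≤ |q.1 i ⬝ᵥ x - q.2 i| + |(p.1 i - q.1 i) ⬝ᵥ x|
        + |q.2 i - p.2 i| := by rw [e3]; exact abs_add_three _ _ _
    _ ≤ 1 / 2 + k * (δ * R) + δ := by linarith
    _ = 1 / 2 + ε := by rw [← h6]; ring

theorem continuous_gram (p q : Fin k) :
    Continuous fun v : ι → Fin k → ℝ => gramM v p q := by
  simp only [gramM_apply]
  fun_prop

/-- the compact set of tight frames and small shifts -/
theorem isCompact_tight : IsCompact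
    {p : (ι → Fin k → ℝ) × (ι → ℝ) | gramM p.1 = 1 ∧ ∀ i, |p.2 i| ≤ 1 / 2} := by
  have hset : {p : (ι → Fin k → ℝ) × (ι → ℝ) | gramM p.1 = 1 ∧ ∀ i, |p.2 i| ≤ 1 / 2}
      = (⋂ a, ⋂ b, {p : (ι → Fin k → ℝ) × (ι → ℝ) |
          gramM p.1 a b = (1 : Matrix (Fin k) (Fin k) ℝ) a b}) ∩
        (⋂ i, {p : (ι → Fin k → ℝ) × (ι → ℝ) | |p.2 i| ≤ 1 / 2}) := by
    ext p
    rw [Set.mem_inter_iff, Set.mem_iInter₂, Set.mem_iInter]
    constructor
    · intro h
      exact ⟨fun a b => by rw [Set.mem_ofPred_eq, h.1], fun i => h.2 i⟩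
    · intro h
      exact ⟨by ext a b; exact h.1 a b, fun i => h.2 i⟩
  apply Metric.isCompact_of_isClosed_isBounded
  · rw [hset]
    refine IsClosed.inter (isClosed_iInter fun a => isClosed_iInter fun b => ?_)
      (isClosed_iInter fun i => ?_)
    · exact isClosed_eq ((continuous_gram a b).comp continuous_fst) continuous_const
    · exact isClosed_le (by fun_prop) continuous_const
  · rw [isBounded_iff_forall_norm_le]
    refine ⟨1, fun p hp => ?_⟩
    rw [Prod.norm_def]
    apply max_le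
    · rw [pi_norm_le_iff_of_nonneg zero_le_one]
      intro i
      rw [pi_norm_le_iff_of_nonneg zero_le_one]
      intro r
      have h1 : gramM p.1 r r = 1 := by rw [hp.1]; simp
      rw [gramM_apply] at h1
      have h2 : p.1 i r * p.1 i r ≤ 1 := by
        rw [← h1]
        exact Finset.single_le_sum (f := fun i => p.1 i r * p.1 i r)
          (fun r _ => mul_self_nonneg _) (Finset.mem_univ i)
      rw [Real.norm_eq_abs]
      exact abs_le_of_sq_le_sq (by nlinarith) zero_le_one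
    · rw [pi_norm_le_iff_of_nonneg zero_le_one]
      intro i
      rw [Real.norm_eq_abs]
      have := hp.2 i
      linarith

/-- for a fixed number of vectors the maximum is attained -/
theorem exists_max_fixed (h : ∃ v : ι → Fin k → ℝ, gramM v = 1) :
    ∃ (v : ι → Fin k → ℝ) (s : ι → ℝ), gramM v = 1 ∧
      ∀ (v' : ι → Fin k → ℝ) (s' : ι → ℝ), Gs v' s' ≤ Gs v s := by
  obtain ⟨v0, hv0⟩ := h
  set C : Set ((ι → Fin k → ℝ) × (ι → ℝ)) :=
    {p | gramM p.1 = 1 ∧ ∀ i, |p.2 i| ≤ 1 / 2} with hC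
  have hne : C.Nonempty := ⟨(v0, fun _ => 0), hv0, fun i => by simp⟩
  have husc := usc_vol C ((Fintype.card ι : ℝ) + 1) (by positivity) (fun p hp =>
    (bodyS_tight_sub hp.1 hp.2).trans (Metric.closedBall_subset_closedBall (by linarith)))
  obtain ⟨p, hp, hmax⟩ := husc.exists_isMaxOn hne isCompact_tight
  refine ⟨p.1, p.2, hp.1, fun v' s' => ?_⟩
  by_cases hdet : (gramM v').det = 0
  · have : Gs v' s' = 0 := by unfold Gs; rw [hdet, Real.sqrt_zero, zero_mul]
    rw [this]
    exact Gs_nonneg _ _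
  · obtain ⟨w, U, hU, hw, rfl⟩ := exists_tight v' hdet
    rw [Gs_vecMul _ _ hU]
    rcases Set.eq_empty_or_nonempty (bodyS w s') with h | h
    · have : Gs w s' = 0 := by unfold Gs; rw [h]; simp
      rw [this]
      exact Gs_nonneg _ _
    · obtain ⟨s'', hs'', hvol⟩ := exists_small_shift w s' h
      rw [Gs_tight hw, Gs_tight hp.1, ← hvol]
      exact ENNReal.toReal_mono (bodyS_tight_finite hp.1 _) (hmax (show (w, s'') ∈ C from ⟨hw, hs''⟩))

/-- the conjectured bound in the window `l` -/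
noncomputable def Wb (k l : ℕ) (n : ℝ) : ℝ :=
  Real.exp ((1 / 2) * (k * Real.log l + (n - k * l) * Real.log (1 + 1 / (l : ℝ))))

theorem Wb_pos (k l : ℕ) (n : ℝ) : 0 < Wb k l n := Real.exp_pos _

theorem Wb_shift (k l : ℕ) (n m : ℝ) :
    Wb k l m = Wb k l n * Real.exp ((1 / 2) * ((m - n) * Real.log (1 + 1 / (l : ℝ)))) := by
  unfold Wb
  rw [← Real.exp_add]
  congr 1
  ring

/-- existence of a global maximiser of the normalised functional, if the bound fails -/
theorem exists_global_max {k l : ℕ} (hl : 1 ≤ l)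
    (hfail : ∃ (n : ℕ) (v : Fin n → Fin k → ℝ) (s : Fin n → ℝ), Wb k l n < Gs v s) :
    ∃ (n : ℕ) (v : Fin n → Fin k → ℝ) (s : Fin n → ℝ), gramM v = 1 ∧ Wb k l n < Gs v s ∧
      ∀ (ι : Type) [Fintype ι] (v' : ι → Fin k → ℝ) (s' : ι → ℝ),
        Gs v' s' ≤ Gs v s *
          Real.exp ((1 / 2) * (((Fintype.card ι : ℝ) - n) * Real.log (1 + 1 / (l : ℝ)))) := by
  classical
  obtain ⟨n0, v0, s0, h0⟩ := hfail
  have hl' : (1 : ℝ) ≤ l := by exact_mod_cast hl
  set c : ℝ := Real.log (1 + 1 / (l : ℝ)) with hc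
  have hc0 : 0 < c := Real.log_pos (by
    have : 0 < 1 / (l : ℝ) := by positivity
    linarith)
  -- the normalised functional
  let Φ : ∀ n : ℕ, (Fin n → Fin k → ℝ) → (Fin n → ℝ) → ℝ := fun n v s =>
    Gs v s * Real.exp (-((1 / 2) * (n * c)))
  set r0 := Φ n0 v0 s0 with hr0
  have hr0pos : 0 < r0 := mul_pos ((Wb_pos _ _ _).trans h0) (Real.exp_pos _)
  -- decay
  have hdecay : ∃ N : ℕ, ∀ n : ℕ, N ≤ n → ∀ (v : Fin n → Fin k → ℝ) (s : Fin n → ℝ),
      Φ n v s < r0 := by
    have h1 : Tendsto (fun x : ℝ => (4 / c) ^ k * (x ^ k * Real.exp (-x))) atTop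
        (𝓝 ((4 / c) ^ k * 0)) :=
      (Real.tendsto_pow_mul_exp_neg_atTop_nhds_zero k).const_mul _
    rw [mul_zero] at h1
    have h2 : Tendsto (fun n : ℕ => (1 / 2 * c) * (n : ℝ)) atTop atTop :=
      tendsto_natCast_atTop_atTop.const_mul_atTop (by positivity)
    have h3 := h1.comp h2
    obtain ⟨N, hN⟩ := (h3.eventually (gt_mem_nhds hr0pos)).exists_forall_of_atTop
    refine ⟨N, fun n hn v s => lt_of_le_of_lt ?_ (hN n hn)⟩
    have h4 : Gs v s ≤ (2 * (n : ℝ)) ^ k := by
      by_cases hdet : (gramM v).det = 0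
      · have : Gs v s = 0 := by unfold Gs; rw [hdet, Real.sqrt_zero, zero_mul]
        rw [this]; positivity
      · obtain ⟨w, U, hU, hw, rfl⟩ := exists_tight v hdet
        rw [Gs_vecMul _ _ hU]
        have := Gs_tight_le hw s
        rwa [Fintype.card_fin] at this
    have h5 : (4 / c) ^ k * ((1 / 2 * c * (n : ℝ)) ^ k * Real.exp (-(1 / 2 * c * n)))
        = (2 * (n : ℝ)) ^ k * Real.exp (-((1 / 2) * (n * c))) := by
      have e1 : 4 / c * (1 / 2 * c * (n : ℝ)) = 2 * n := by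
        field_simp
        ring
      have e2 : 1 / 2 * c * (n : ℝ) = (1 / 2) * (n * c) := by ring
      rw [← mul_assoc, ← mul_pow, e1, e2]
    simp only [Function.comp]
    rw [h5]
    exact mul_le_mul_of_nonneg_right h4 (Real.exp_pos _).le
  obtain ⟨N, hN⟩ := hdecay
  -- choose maximisers for every n
  have hch : ∀ n : ℕ, ∃ (v : Fin n → Fin k → ℝ) (s : Fin n → ℝ),
      ((∃ v : Fin n → Fin k → ℝ, gramM v = 1) → gramM v = 1) ∧
      ∀ (v' : Fin n → Fin k → ℝ) (s' : Fin n → ℝ), Φ n v' s' ≤ Φ n v s := by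
    intro n
    by_cases h : ∃ v : Fin n → Fin k → ℝ, gramM v = 1
    · obtain ⟨v, s, hv, hm⟩ := exists_max_fixed h
      exact ⟨v, s, fun _ => hv, fun v' s' =>
        mul_le_mul_of_nonneg_right (hm v' s') (Real.exp_pos _).le⟩
    · refine ⟨fun _ _ => 0, fun _ => 0, fun h' => absurd h' h, fun v' s' => ?_⟩
      have hdet : (gramM v').det = 0 := by
        by_contra hdet
        obtain ⟨w, U, hU, hw, -⟩ := exists_tight v' hdet
        exact h ⟨w, hw⟩
      have : Gs v' s' = 0 := by unfold Gs; rw [hdet, Real.sqrt_zero, zero_mul]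
      simp only [Φ]
      rw [this, zero_mul]
      exact mul_nonneg (Gs_nonneg _ _) (Real.exp_pos _).le
  choose V S hV hmax using hch
  obtain ⟨n, hn, hnmax⟩ := Finset.exists_max_image (Finset.range (max N n0 + 1))
    (fun n => Φ n (V n) (S n)) ⟨0, by simp⟩
  have hall : ∀ (m : ℕ) (v' : Fin m → Fin k → ℝ) (s' : Fin m → ℝ), Φ m v' s' ≤ Φ n (V n) (S n) := by
    have hr : r0 ≤ Φ n (V n) (S n) := by
      refine (hmax n0 v0 s0).trans (hnmax n0 ?_)
      rw [Finset.mem_range]
      have := le_max_right N n0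
      omega
    intro m v' s'
    by_cases hm : m < max N n0 + 1
    · exact (hmax m v' s').trans (hnmax m (Finset.mem_range.2 hm))
    · have : N ≤ m := by
        have := le_max_left N n0
        omega
      exact (hN m this v' s').le.trans hr
  have hbig : Wb k l n < Gs (V n) (S n) := by
    have h1 := hall n0 v0 s0
    have h2 : Wb k l n0 * Real.exp (-((1 / 2) * (n0 * c))) < Φ n (V n) (S n) :=
      lt_of_lt_of_le (mul_lt_mul_of_pos_right h0 (Real.exp_pos _)) h1
    have h3 : Wb k l n0 * Real.exp (-((1 / 2) * (n0 * c)))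
        = Wb k l n * Real.exp (-((1 / 2) * (n * c))) := by
      rw [Wb_shift k l n n0, mul_assoc, ← Real.exp_add]
      congr 2
      ring
    rw [h3] at h2
    exact lt_of_mul_lt_mul_right h2 (Real.exp_pos _).le
  have htight : gramM (V n) = 1 := by
    apply hV
    by_contra h
    have hdet : (gramM (V n)).det = 0 := by
      by_contra hdet
      obtain ⟨w, U, hU, hw, -⟩ := exists_tight (V n) hdet
      exact h ⟨w, hw⟩
    have : Gs (V n) (S n) = 0 := by unfold Gs; rw [hdet, Real.sqrt_zero, zero_mul]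
    rw [this] at hbig
    exact absurd hbig (Wb_pos _ _ _).le.not_gt
  refine ⟨n, V n, S n, htight, hbig, fun ι _ v' s' => ?_⟩
  let e : Fin (Fintype.card ι) ≃ ι := (Fintype.equivFin ι).symm
  have h1 := hall (Fintype.card ι) (fun j => v' (e j)) (fun j => s' (e j))
  simp only [Φ] at h1
  rw [Gs_reindex e] at h1
  have h2 : Gs v' s' = Gs v' s' * Real.exp (-((1 / 2) * ((Fintype.card ι : ℝ) * c))) *
      Real.exp ((1 / 2) * ((Fintype.card ι : ℝ) * c)) := by
    rw [mul_assoc, ← Real.exp_add]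
    simp
  rw [h2]
  refine (mul_le_mul_of_nonneg_right h1 (Real.exp_pos _).le).trans (le_of_eq ?_)
  rw [mul_assoc, ← Real.exp_add]
  congr 2
  ring

end Pool.Agent.Work.MP_6cd513_gt
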