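import Pool.Agent.Work.MP_6cd513_gt.MaxProps

/-!
# Further properties of a global maximiser: parallel classes, two groups
-/

open Matrix Finset MeasureTheory

namespace Pool.Agent.Work.MP_6cd513_gt

variable {k : ℕ}

/-- the squared cosine of two vectors of a family -/
noncomputable def xx {n : ℕ} (v : Fin n → Fin k → ℝ) (i j : Fin n) : ℝ :=
  (v i ⬝ᵥ v j) ^ 2 / ((v i ⬝ᵥ v i) * (v j ⬝ᵥ v j))

theorem xx_comm {n : ℕ} (v : Fin n → Fin k → ℝ) (i j : Fin n) : xx v i j = xx v j i := by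
  unfold xx
  rw [dotProduct_comm (v i) (v j), mul_comm (v i ⬝ᵥ v i)]

/-- the vectors parallel to `v i` (all of the same length for a maximiser) -/
noncomputable def grp {n : ℕ} (v : Fin n → Fin k → ℝ) (i : Fin n) : Finset (Fin n) := by
  classical exact Finset.univ.filter fun j => v j = v i ∨ v j = -v i

theorem mem_grp {n : ℕ} {v : Fin n → Fin k → ℝ} {i j : Fin n} :
    j ∈ grp v i ↔ v j = v i ∨ v j = -v i := by
  classical
  unfold grp
  rw [Finset.mem_filter]
  simp

theorem self_mem_grp {n : ℕ} (v : Fin n → Fin k → ℝ) (i : Fin n) : i ∈ grp v i :=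
  mem_grp.2 (Or.inl rfl)

namespace MaxData

variable {l n : ℕ} {v : Fin n → Fin k → ℝ} {s : Fin n → ℝ} (M : MaxData k l n v s)
include M

theorem inv_sub_le (i j : Fin n) :
    1 / (v i ⬝ᵥ v i) - 1 / (v j ⬝ᵥ v j) ≤ 1 - xx v i j := by
  have h1 := M.swap i j
  have hi := M.lev_pos i
  have hj := M.lev_pos j
  unfold xx
  rw [div_sub_div _ _ hi.ne' hj.ne', one_sub_div (mul_pos hi hj).ne',
    div_le_div_iff_of_pos_right (mul_pos hi hj)]
  nlinarith

/-- the swap inequality in the form of `F2` -/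
theorem abs_inv_sub_le (i j : Fin n) :
    |1 / (v i ⬝ᵥ v i) - 1 / (v j ⬝ᵥ v j)| ≤ 1 - xx v i j := by
  rw [abs_le]
  have h1 := M.inv_sub_le i j
  have h2 := M.inv_sub_le j i
  rw [xx_comm v j i] at h2
  constructor <;> linarith

theorem xx_le_one (i j : Fin n) : xx v i j ≤ 1 := by
  have := M.abs_inv_sub_le i j
  have h := abs_nonneg (1 / (v i ⬝ᵥ v i) - 1 / (v j ⬝ᵥ v j))
  linarith

theorem xx_nonneg (i j : Fin n) : 0 ≤ xx v i j :=
  div_nonneg (sq_nonneg _) (mul_pos (M.lev_pos i) (M.lev_pos j)).le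

theorem xx_mul (i j : Fin n) :
    xx v i j * ((v i ⬝ᵥ v i) * (v j ⬝ᵥ v j)) = (v i ⬝ᵥ v j) ^ 2 := by
  unfold xx
  exact div_mul_cancel₀ _ (mul_pos (M.lev_pos i) (M.lev_pos j)).ne'

/-- parallel vectors are equal up to sign -/
theorem parallel_iff (i j : Fin n) : xx v i j = 1 ↔ j ∈ grp v i := by
  rw [mem_grp]
  have hi := M.lev_pos i
  have hj := M.lev_pos j
  constructor
  · intro hx
    have h1 := M.abs_inv_sub_le i j
    rw [hx, sub_self] at h1
    have h2 : 1 / (v i ⬝ᵥ v i) = 1 / (v j ⬝ᵥ v j) := by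
      have := abs_nonpos_iff.1 h1
      linarith
    have h3 : v i ⬝ᵥ v i = v j ⬝ᵥ v j := by
      rw [one_div, one_div] at h2
      exact inv_injective h2
    have h4 := M.xx_mul i j
    rw [hx, one_mul, ← h3] at h4
    have h5 : (v i ⬝ᵥ v j - v i ⬝ᵥ v i) * (v i ⬝ᵥ v j + v i ⬝ᵥ v i) = 0 := by nlinarith
    rcases mul_eq_zero.1 h5 with h | h
    · left
      have h6 : (v j - v i) ⬝ᵥ (v j - v i) = 0 := by
        simp only [sub_dotProduct, dotProduct_sub]
        rw [dotProduct_comm (v j) (v i), ← h3]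
        linarith
      exact sub_eq_zero.1 (dotProduct_self_eq_zero.1 h6)
    · right
      have h6 : (v j + v i) ⬝ᵥ (v j + v i) = 0 := by
        simp only [add_dotProduct, dotProduct_add]
        rw [dotProduct_comm (v j) (v i), ← h3]
        linarith
      exact eq_neg_of_add_eq_zero_left (dotProduct_self_eq_zero.1 h6)
  · intro h
    unfold xx
    rw [div_eq_one_iff_eq (mul_pos hi hj).ne']
    rcases h with h | h <;> rw [h]
    · ring
    · simp only [dotProduct_neg, neg_dotProduct, neg_neg]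
      ring

/-- the sum of squares over all vectors -/
theorem parseval (x : Fin k → ℝ) : ∑ m, (v m ⬝ᵥ x) ^ 2 = x ⬝ᵥ x := by
  have h1 := iso_dot (α := fun _ => (1 : ℝ)) (u := v) M.tight x x
  rw [← h1]
  exact Finset.sum_congr rfl fun i _ => by ring

theorem row_sum (i : Fin n) : ∑ j, (v j ⬝ᵥ v j) * xx v i j = 1 := by
  have h1 := M.parseval (v i)
  have hi := M.lev_pos i
  have h2 : ∀ j, (v j ⬝ᵥ v j) * xx v i j = (v j ⬝ᵥ v i) ^ 2 / (v i ⬝ᵥ v i) := by
    intro j
    have hj := M.lev_pos j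
    unfold xx
    rw [dotProduct_comm (v i) (v j)]
    field_simp
  simp_rw [h2]
  rw [← Finset.sum_div, h1, div_self hi.ne']

theorem two_groups_form (g h : Finset (Fin n)) (hgh : Disjoint g h) (a b : Fin k → ℝ)
    (hg : ∀ m ∈ g, v m = a ∨ v m = -a) (hh : ∀ m ∈ h, v m = b ∨ v m = -b) (x : Fin k → ℝ) :
    g.card * (a ⬝ᵥ x) ^ 2 + h.card * (b ⬝ᵥ x) ^ 2 ≤ x ⬝ᵥ x := by
  classical
  rw [← M.parseval x]
  have h1 : ∑ m ∈ g, (v m ⬝ᵥ x) ^ 2 = g.card * (a ⬝ᵥ x) ^ 2 := by
    rw [← nsmul_eq_mul, ← Finset.sum_const]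
    refine Finset.sum_congr rfl fun m hm => ?_
    rcases hg m hm with h | h <;> rw [h]
    rw [neg_dotProduct, neg_sq]
  have h2 : ∑ m ∈ h, (v m ⬝ᵥ x) ^ 2 = h.card * (b ⬝ᵥ x) ^ 2 := by
    rw [← nsmul_eq_mul, ← Finset.sum_const]
    refine Finset.sum_congr rfl fun m hm => ?_
    rcases hh m hm with h | h <;> rw [h]
    rw [neg_dotProduct, neg_sq]
  rw [← h1, ← h2, ← Finset.sum_union hgh]
  exact Finset.sum_le_sum_of_subset_of_nonneg (Finset.subset_univ _) fun m _ _ => sq_nonneg _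

/-- one group has mass at most one -/
theorem grp_mass_le (i : Fin n) : ((grp v i).card : ℝ) * (v i ⬝ᵥ v i) ≤ 1 := by
  have h1 := M.two_groups_form (grp v i) ∅ (Finset.disjoint_empty_right _) (v i) 0
    (fun m hm => mem_grp.1 hm) (fun m hm => absurd hm (Finset.notMem_empty m)) (v i)
  have hi := M.lev_pos i
  simp only [Finset.card_empty, Nat.cast_zero, zero_mul, add_zero] at h1
  have h2 : ((grp v i).card : ℝ) * (v i ⬝ᵥ v i) * (v i ⬝ᵥ v i) ≤ 1 * (v i ⬝ᵥ v i) := by
    rw [one_mul]; linarith [h1, sq (v i ⬝ᵥ v i)]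
  exact le_of_mul_le_mul_right h2 hi

theorem grp_disjoint {i j : Fin n} (hx : xx v i j ≠ 1) : Disjoint (grp v i) (grp v j) := by
  rw [Finset.disjoint_left]
  intro m hm1 hm2
  apply hx
  rw [M.parallel_iff, mem_grp]
  rw [mem_grp] at hm1 hm2
  rcases hm1 with h1 | h1 <;> rcases hm2 with h2 | h2
  · left; rw [← h1, ← h2]
  · right
    have : v j = -v m := by rw [h2, neg_neg]
    rw [this, h1]
  · right; rw [← h2, h1]
  · left
    have : v j = -v m := by rw [h2, neg_neg]
    rw [this, h1, neg_neg]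

/-- `OP`: the positivity of `1 - m_i v_i v_iᵀ - m_j v_j v_jᵀ` -/
theorem two_groups {i j : Fin n} (hx : xx v i j ≠ 1) :
    ((grp v i).card * (v i ⬝ᵥ v i)) * ((grp v j).card * (v j ⬝ᵥ v j)) * xx v i j
      ≤ (1 - (grp v i).card * (v i ⬝ᵥ v i)) * (1 - (grp v j).card * (v j ⬝ᵥ v j)) := by
  set m : ℝ := ((grp v i).card : ℝ) with hm
  set m' : ℝ := ((grp v j).card : ℝ) with hm'
  set A := v i ⬝ᵥ v i with hA
  set B := v j ⬝ᵥ v j with hB
  set K := v i ⬝ᵥ v j with hK
  have hA0 : 0 < A := M.lev_pos i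
  have hB0 : 0 < B := M.lev_pos j
  have hm0 : 0 ≤ m := Nat.cast_nonneg _
  have hm0' : 0 ≤ m' := Nat.cast_nonneg _
  have h1 : m * A ≤ 1 := M.grp_mass_le i
  have h2 : m' * B ≤ 1 := M.grp_mass_le j
  have hform := M.two_groups_form (grp v i) (grp v j) (M.grp_disjoint hx) (v i) (v j)
    (fun m hm => mem_grp.1 hm) (fun m hm => mem_grp.1 hm)
  have h3 := hform ((1 - m' * B) • v i + (m' * K) • v j)
  rw [← hm, ← hm'] at h3
  simp only [dotProduct_add, add_dotProduct, dotProduct_smul, smul_dotProduct, smul_eq_mul] at h3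
  rw [dotProduct_comm (v j) (v i), ← hA, ← hB, ← hK] at h3
  set t := (1 - m' * B) * A + m' * K * K with ht
  have h4 : 0 ≤ t * ((1 - m' * B) - m * t) := by
    have e : t * ((1 - m' * B) - m * t) = ((1 - m' * B) * ((1 - m' * B) * A) + m' * K * ((1 - m' * B) * K)
        + ((1 - m' * B) * (m' * K * K) + m' * K * (m' * K * B)))
        - (m * t ^ 2 + m' * ((1 - m' * B) * K + m' * K * B) ^ 2) := by
      rw [ht]; ring
    rw [e]
    nlinarith [h3]
  have h5 : xx v i j * (A * B) = K ^ 2 := M.xx_mul i j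
  have h6 : m * A * (m' * B) * xx v i j = m * m' * K ^ 2 := by rw [← h5]; ring
  rw [h6]
  have ht0 : 0 ≤ t := by
    have : 0 ≤ (1 - m' * B) * A := mul_nonneg (by linarith) hA0.le
    have : 0 ≤ m' * K * K := by rw [mul_assoc]; exact mul_nonneg hm0' (mul_self_nonneg K)
    rw [ht]; linarith
  rcases ht0.eq_or_lt with ht1 | ht1
  · -- degenerate case
    have h7 : m' * K ^ 2 = 0 := by
      have h8 : 0 ≤ (1 - m' * B) * A := mul_nonneg (by linarith) hA0.le
      have h9 : 0 ≤ m' * K * K := by rw [mul_assoc]; exact mul_nonneg hm0' (mul_self_nonneg K)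
      have : m' * K * K = 0 := by linarith
      rw [sq, ← mul_assoc]; exact this
    have h8 : m * m' * K ^ 2 = m * (m' * K ^ 2) := by ring
    rw [h8, h7, mul_zero]
    exact mul_nonneg (by linarith) (by linarith)
  · have h7 : 0 ≤ (1 - m' * B) - m * t := by
      by_contra hcon
      push Not at hcon
      have := mul_neg_of_pos_of_neg ht1 hcon
      linarith
    have h8 : (1 - m * A) * (1 - m' * B) - m * m' * K ^ 2 = (1 - m' * B) - m * t := by
      rw [ht]; ring
    linarith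

end MaxData

end Pool.Agent.Work.MP_6cd513_gt
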