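import Pool.Agent.Work.MP_6cd513_gt.MaxExist

/-!
# First properties of a global maximiser: drop, duplicate, swap
-/

open Matrix Finset MeasureTheory

namespace Pool.Agent.Work.MP_6cd513_gt

variable {k : ℕ}

/-- the data of a global maximiser of the normalised functional -/
structure MaxData (k l n : ℕ) (v : Fin n → Fin k → ℝ) (s : Fin n → ℝ) : Prop where
  hl : 1 ≤ l
  tight : gramM v = 1
  pos : 0 < Gs v s
  max : ∀ (ι : Type) [Fintype ι] (v' : ι → Fin k → ℝ) (s' : ι → ℝ),
    Gs v' s' ≤ Gs v s *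
      Real.exp ((1 / 2) * (((Fintype.card ι : ℝ) - n) * Real.log (1 + 1 / (l : ℝ))))

/-- rank one update of the identity -/
theorem det_one_add_smul_vec (a : Fin k → ℝ) (t : ℝ) :
    ((1 : Matrix (Fin k) (Fin k) ℝ) + t • vecMulVec a a).det = 1 + t * (a ⬝ᵥ a) := by
  have h3 : (1 : Matrix (Fin k) (Fin k) ℝ) + t • vecMulVec a a
      = 1 + replicateCol Unit (t • a) * replicateRow Unit a := by
    rw [← vecMulVec_eq, smul_vecMulVec]
  rw [h3, det_one_add_replicateCol_mul_replicateRow, dotProduct_smul, smul_eq_mul]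

/-- rank two update of the identity -/
theorem det_one_add_two (a b : Fin k → ℝ) (p q : ℝ) :
    ((1 : Matrix (Fin k) (Fin k) ℝ) + p • vecMulVec a a + q • vecMulVec b b).det
      = (1 + p * (a ⬝ᵥ a)) * (1 + q * (b ⬝ᵥ b)) - p * q * (a ⬝ᵥ b) ^ 2 := by
  let A : Matrix (Fin k) (Fin 2) ℝ := Matrix.of fun i j => ![p * a i, q * b i] j
  let B : Matrix (Fin 2) (Fin k) ℝ := Matrix.of fun j i => ![a i, b i] j
  have h1 : (1 : Matrix (Fin k) (Fin k) ℝ) + p • vecMulVec a a + q • vecMulVec b b
      = 1 + A * B := by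
    ext i j
    simp only [A, B, Matrix.add_apply, Matrix.smul_apply, vecMulVec_apply, mul_apply,
      Fin.sum_univ_two, of_apply, cons_val_zero, cons_val_one, smul_eq_mul]
    ring
  rw [h1, det_one_add_mul_comm, det_fin_two]
  simp only [A, B, Matrix.add_apply, mul_apply, of_apply, cons_val_zero, cons_val_one, one_apply_eq]
  have e1 : ∑ x, a x * (p * a x) = p * (a ⬝ᵥ a) := by
    rw [dotProduct, Finset.mul_sum]; exact Finset.sum_congr rfl fun i _ => by ring
  have e2 : ∑ x, b x * (q * b x) = q * (b ⬝ᵥ b) := by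
    rw [dotProduct, Finset.mul_sum]; exact Finset.sum_congr rfl fun i _ => by ring
  have e3 : ∑ x, a x * (q * b x) = q * (a ⬝ᵥ b) := by
    rw [dotProduct, Finset.mul_sum]; exact Finset.sum_congr rfl fun i _ => by ring
  have e4 : ∑ x, b x * (p * a x) = p * (a ⬝ᵥ b) := by
    rw [dotProduct, Finset.mul_sum]; exact Finset.sum_congr rfl fun i _ => by ring
  rw [e1, e2, e3, e4]
  rw [one_apply_ne (by decide : (0 : Fin 2) ≠ 1), one_apply_ne (by decide : (1 : Fin 2) ≠ 0)]
  ring

namespace MaxData

variable {l n : ℕ} {v : Fin n → Fin k → ℝ} {s : Fin n → ℝ} (M : MaxData k l n v s)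
include M

theorem gpos : 0 < (volume (bodyS v s)).toReal := by
  have := M.pos
  rwa [Gs_tight M.tight] at this

theorem logpos : 0 < Real.log (1 + 1 / (l : ℝ)) := by
  have hl : (1 : ℝ) ≤ l := by exact_mod_cast M.hl
  exact Real.log_pos (by
    have : 0 < 1 / (l : ℝ) := by positivity
    linarith)

/-- comparison with another family whose body contains `S` -/
theorem compare {ι : Type} [Fintype ι] (v' : ι → Fin k → ℝ) (s' : ι → ℝ)
    (hdet : 0 < (gramM v').det) {S : Set (Fin k → ℝ)} (hS : S ⊆ bodyS v' s') :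
    Real.sqrt (gramM v').det * (volume S).toReal ≤ (volume (bodyS v s)).toReal *
      Real.exp ((1 / 2) * (((Fintype.card ι : ℝ) - n) * Real.log (1 + 1 / (l : ℝ)))) := by
  have h1 := M.max ι v' s'
  rw [Gs_tight M.tight] at h1
  exact (Gs_ge_of_subset v' s' hdet.ne' hS).trans h1

/-- comparison with a family whose body contains `bodyS v s` -/
theorem compare_self {ι : Type} [Fintype ι] (v' : ι → Fin k → ℝ) (s' : ι → ℝ)
    (hdet : 0 < (gramM v').det) (hS : bodyS v s ⊆ bodyS v' s') :
    (gramM v').det ≤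
      Real.exp (((Fintype.card ι : ℝ) - n) * Real.log (1 + 1 / (l : ℝ))) := by
  have h1 := M.compare v' s' hdet hS
  rw [mul_comm] at h1
  have h2 := le_of_mul_le_mul_left h1 M.gpos
  have h3 := pow_le_pow_left₀ (Real.sqrt_nonneg _) h2 2
  rw [Real.sq_sqrt hdet.le, ← Real.exp_nat_mul] at h3
  refine h3.trans (le_of_eq ?_)
  congr 1
  push_cast
  ring

/-- leverages are at most one -/
theorem lev_le_one (i : Fin n) : v i ⬝ᵥ v i ≤ 1 := by
  have h1 := iso_dot (α := fun _ => (1 : ℝ)) (u := v) M.tight (v i) (v i)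
  have h2 : (v i ⬝ᵥ v i) * (v i ⬝ᵥ v i) ≤ v i ⬝ᵥ v i := by
    conv_rhs => rw [← h1]
    have := Finset.single_le_sum (f := fun j => 1 * (v j ⬝ᵥ v i * (v j ⬝ᵥ v i)))
      (fun j _ => by rw [one_mul]; exact mul_self_nonneg _) (Finset.mem_univ i)
    simpa using this
  by_contra hcon
  push Not at hcon
  nlinarith

theorem gram_add (i : Fin n) :
    gramM (fun o : Option (Fin n) => o.elim (v i) v) = 1 + (1 : ℝ) • vecMulVec (v i) (v i) := by
  ext p q
  rw [gramM_apply, Fintype.sum_option, Matrix.add_apply, ← M.tight, gramM_apply, Matrix.smul_apply,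
    vecMulVec_apply]
  simp only [Option.elim_none, Option.elim_some, smul_eq_mul, one_mul]
  ring

/-- duplicating a vector -/
theorem lev_le (i : Fin n) : v i ⬝ᵥ v i ≤ 1 / (l : ℝ) := by
  have hl : (1 : ℝ) ≤ l := by exact_mod_cast M.hl
  have h0 : 0 ≤ v i ⬝ᵥ v i := by
    simp only [dotProduct]; exact Finset.sum_nonneg fun j _ => mul_self_nonneg _
  have hg := M.gram_add i
  have hd : (gramM (fun o : Option (Fin n) => o.elim (v i) v)).det = 1 + v i ⬝ᵥ v i := by
    rw [hg, det_one_add_smul_vec, one_mul]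
  have h1 := M.compare_self (fun o : Option (Fin n) => o.elim (v i) v)
    (fun o : Option (Fin n) => o.elim (s i) s) (by rw [hd]; linarith) (by
      intro x hx o
      cases o with
      | none => exact hx i
      | some j => exact hx j)
  rw [hd, Fintype.card_option, Fintype.card_fin] at h1
  have h2 : (((n + 1 : ℕ) : ℝ) - n) * Real.log (1 + 1 / (l : ℝ)) = Real.log (1 + 1 / (l : ℝ)) := by
    push_cast; ring
  rw [h2, Real.exp_log (by positivity)] at h1
  linarith

theorem gram_erase (i0 : Fin n) :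
    gramM (fun i : {i // i ≠ i0} => v i) = 1 + (-1 : ℝ) • vecMulVec (v i0) (v i0) := by
  ext p q
  rw [gramM_apply, Matrix.add_apply, ← M.tight, gramM_apply, Matrix.smul_apply, vecMulVec_apply]
  have h2 := Finset.sum_erase_eq_sub (f := fun i => v i p * v i q) (Finset.mem_univ i0)
  have h3 := (Finset.sum_subtype (F := inferInstance) (Finset.univ.erase i0)
    (p := fun i => i ≠ i0) (by simp) (fun i => v i p * v i q))
  rw [← h3, h2]
  simp only [smul_eq_mul]
  ring

/-- dropping a vector -/
theorem le_lev (i : Fin n) : 1 / ((l : ℝ) + 1) ≤ v i ⬝ᵥ v i := by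
  have hl : (1 : ℝ) ≤ l := by exact_mod_cast M.hl
  by_contra hcon
  push Not at hcon
  have hlt : v i ⬝ᵥ v i < 1 := hcon.trans_le (by rw [div_le_one (by positivity)]; linarith)
  have hg := M.gram_erase i
  have hd : (gramM (fun j : {j // j ≠ i} => v j)).det = 1 - v i ⬝ᵥ v i := by
    rw [hg, det_one_add_smul_vec]; ring
  have h1 := M.compare_self (fun j : {j // j ≠ i} => v j) (fun j : {j // j ≠ i} => s j)
    (by rw [hd]; linarith) (fun x hx j => hx j)
  rw [hd, Fintype.card_subtype_compl, Fintype.card_subtype_eq, Fintype.card_fin] at h1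
  have hn : 1 ≤ n := i.pos
  have h2 : (((n - 1 : ℕ) : ℝ) - n) * Real.log (1 + 1 / (l : ℝ))
      = -Real.log (1 + 1 / (l : ℝ)) := by
    rw [Nat.cast_sub hn]; push_cast; ring
  rw [h2, Real.exp_neg, Real.exp_log (by positivity)] at h1
  have h3 : (1 + 1 / (l : ℝ))⁻¹ = 1 - 1 / ((l : ℝ) + 1) := by
    field_simp
    ring
  rw [h3] at h1
  linarith

theorem lev_pos (i : Fin n) : 0 < v i ⬝ᵥ v i :=
  lt_of_lt_of_le (by positivity) (M.le_lev i)

theorem gram_update (i : Fin n) (w : Fin k → ℝ) :
    gramM (Function.update v i w)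
      = 1 + (-1 : ℝ) • vecMulVec (v i) (v i) + (1 : ℝ) • vecMulVec w w := by
  ext p q
  rw [gramM_apply, Matrix.add_apply, Matrix.add_apply, ← M.tight, gramM_apply, Matrix.smul_apply,
    vecMulVec_apply, Matrix.smul_apply, vecMulVec_apply,
    ← Finset.add_sum_erase _ _ (Finset.mem_univ i),
    ← Finset.add_sum_erase _ (fun j => v j p * v j q) (Finset.mem_univ i)]
  have h1 : ∑ j ∈ Finset.univ.erase i, Function.update v i w j p * Function.update v i w j q
      = ∑ j ∈ Finset.univ.erase i, v j p * v j q := by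
    refine Finset.sum_congr rfl fun j hj => ?_
    rw [Function.update_of_ne (Finset.ne_of_mem_erase hj)]
  rw [h1, Function.update_self]
  simp only [smul_eq_mul]
  ring

/-- swapping a vector -/
theorem swap (i j : Fin n) :
    (1 - v i ⬝ᵥ v i) * (1 + v j ⬝ᵥ v j) + (v i ⬝ᵥ v j) ^ 2 ≤ 1 := by
  have hd : (gramM (Function.update v i (v j))).det
      = (1 - v i ⬝ᵥ v i) * (1 + v j ⬝ᵥ v j) + (v i ⬝ᵥ v j) ^ 2 := by
    rw [M.gram_update i (v j), det_one_add_two]
    ring
  by_cases hpos : 0 < (gramM (Function.update v i (v j))).det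
  · have h1 := M.compare_self (Function.update v i (v j)) (Function.update s i (s j)) hpos (by
      intro x hx m
      by_cases hm : m = i
      · subst hm
        rw [Function.update_self, Function.update_self]
        exact hx j
      · rw [Function.update_of_ne hm, Function.update_of_ne hm]
        exact hx m)
    rw [Fintype.card_fin, sub_self, zero_mul, Real.exp_zero, hd] at h1
    exact h1
  · rw [hd] at hpos
    push Not at hpos
    linarith

end MaxData

end Pool.Agent.Work.MP_6cd513_gt
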