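import Pool.Agent.Work.MP_6cd513_gt.MaxFacts
import Pool.Agent.Work.MP_6cd513_gt.Fiber

/-!
# The merging inequality
-/

open Matrix Finset MeasureTheory

namespace Pool.Agent.Work.MP_6cd513_gt

variable {k : ℕ}

/-- the two corners cut off in the plane of two coordinates -/
def corner2 (a b e τ : ℝ) : Set (ℝ × ℝ) :=
  {p | |p.1 - a| ≤ 1 / 2 ∧ |p.2 - b| ≤ 1 / 2 ∧ 1 - 2 * τ < |(p.1 - a) + e * (p.2 - b)|}

theorem corner2_measurable (a b e τ : ℝ) : MeasurableSet (corner2 a b e τ) := by
  have h1 : Measurable fun p : ℝ × ℝ => |p.1 - a| := by fun_prop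
  have h2 : Measurable fun p : ℝ × ℝ => |p.2 - b| := by fun_prop
  have h3 : Measurable fun p : ℝ × ℝ => |(p.1 - a) + e * (p.2 - b)| := by fun_prop
  exact (measurableSet_le h1 measurable_const).inter
    ((measurableSet_le h2 measurable_const).inter (measurableSet_lt measurable_const h3))

theorem vol_tri {τ : ℝ} (h0 : 0 ≤ τ) :
    ∫⁻ u : ℝ, ((Set.Icc (1 / 2 - 2 * τ) (1 / 2)).indicator
      (fun u => ENNReal.ofReal (u - (1 / 2 - 2 * τ)))) u = ENNReal.ofReal (2 * τ ^ 2) := by
  rw [lintegral_indicator measurableSet_Icc]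
  have hle : 1 / 2 - 2 * τ ≤ 1 / 2 := by linarith
  have hint : IntegrableOn (fun u : ℝ => u - (1 / 2 - 2 * τ)) (Set.Icc (1 / 2 - 2 * τ) (1 / 2)) :=
    (by fun_prop : Continuous fun u : ℝ => u - (1 / 2 - 2 * τ)).integrableOn_Icc
  rw [← ofReal_integral_eq_lintegral_ofReal hint ?_]
  · congr 1
    rw [integral_Icc_eq_integral_Ioc, ← intervalIntegral.integral_of_le hle]
    simp only [intervalIntegral.integral_sub intervalIntegral.intervalIntegrable_id
      intervalIntegrable_const, integral_id, intervalIntegral.integral_const, smul_eq_mul]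
    ring
  · rw [Filter.EventuallyLE, ae_restrict_iff' measurableSet_Icc]
    exact Filter.Eventually.of_forall fun u hu => sub_nonneg.2 hu.1

theorem vol_corner2 (a b : ℝ) {e τ : ℝ} (he : e = 1 ∨ e = -1) (h0 : 0 ≤ τ) :
    volume (corner2 a b e τ) ≤ ENNReal.ofReal (4 * τ ^ 2) := by
  let f : ℝ → ENNReal := (Set.Icc (1 / 2 - 2 * τ) (1 / 2)).indicator
    (fun u => ENNReal.ofReal (u - (1 / 2 - 2 * τ)))
  have hslice : ∀ r : ℝ, volume (Prod.mk r ⁻¹' corner2 a b e τ) ≤ f (r - a) + f (-(r - a)) := by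
    intro r
    set u := r - a with hu
    by_cases hu2 : |u| ≤ 1 / 2
    · obtain ⟨hu3, hu4⟩ := abs_le.1 hu2
      have hsub : Prod.mk r ⁻¹' corner2 a b e τ ⊆
          {z | e * (z - b) ∈ Set.Ioc (1 - 2 * τ - u) (1 / 2)} ∪
          {z | e * (z - b) ∈ Set.Ico (-(1 / 2)) (-(1 - 2 * τ) - u)} := by
        intro z hz
        obtain ⟨-, hz2, hz3⟩ := hz
        simp only [] at hz2 hz3
        have hz4 : |e * (z - b)| ≤ 1 / 2 := by
          rw [abs_mul]
          rcases he with he | he <;> rw [he] <;> simpa using hz2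
        obtain ⟨hz5, hz6⟩ := abs_le.1 hz4
        rcases lt_abs.1 hz3 with h | h
        · left
          constructor
          · linarith
          · exact hz6
        · right
          constructor
          · exact hz5
          · linarith
      have hm1 : volume {z : ℝ | e * (z - b) ∈ Set.Ioc (1 - 2 * τ - u) (1 / 2)}
          ≤ ENNReal.ofReal (u - (1 / 2 - 2 * τ)) := by
        rcases he with he | he
        · have : {z : ℝ | e * (z - b) ∈ Set.Ioc (1 - 2 * τ - u) (1 / 2)}
              = Set.Ioc (1 - 2 * τ - u + b) (1 / 2 + b) := by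
            ext z; simp only [he, one_mul, Set.mem_ofPred_eq, Set.mem_Ioc]
            constructor <;> rintro ⟨h1, h2⟩ <;> constructor <;> linarith
          rw [this, Real.volume_Ioc]
          apply ENNReal.ofReal_le_ofReal
          linarith
        · have : {z : ℝ | e * (z - b) ∈ Set.Ioc (1 - 2 * τ - u) (1 / 2)}
              = Set.Ico (b - 1 / 2) (b - (1 - 2 * τ - u)) := by
            ext z; simp only [he, Set.mem_ofPred_eq, Set.mem_Ioc, Set.mem_Ico]
            constructor <;> rintro ⟨h1, h2⟩ <;> constructor <;> linarith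
          rw [this, Real.volume_Ico]
          apply ENNReal.ofReal_le_ofReal
          linarith
      have hm2 : volume {z : ℝ | e * (z - b) ∈ Set.Ico (-(1 / 2)) (-(1 - 2 * τ) - u)}
          ≤ ENNReal.ofReal (-u - (1 / 2 - 2 * τ)) := by
        rcases he with he | he
        · have : {z : ℝ | e * (z - b) ∈ Set.Ico (-(1 / 2)) (-(1 - 2 * τ) - u)}
              = Set.Ico (b - 1 / 2) (b + (-(1 - 2 * τ) - u)) := by
            ext z; simp only [he, one_mul, Set.mem_ofPred_eq, Set.mem_Ico]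
            constructor <;> rintro ⟨h1, h2⟩ <;> constructor <;> linarith
          rw [this, Real.volume_Ico]
          apply ENNReal.ofReal_le_ofReal
          linarith
        · have : {z : ℝ | e * (z - b) ∈ Set.Ico (-(1 / 2)) (-(1 - 2 * τ) - u)}
              = Set.Ioc (b - (-(1 - 2 * τ) - u)) (b + 1 / 2) := by
            ext z; simp only [he, Set.mem_ofPred_eq, Set.mem_Ioc, Set.mem_Ico]
            constructor <;> rintro ⟨h1, h2⟩ <;> constructor <;> linarith
          rw [this, Real.volume_Ioc]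
          apply ENNReal.ofReal_le_ofReal
          linarith
      refine (measure_mono hsub).trans ((measure_union_le _ _).trans (add_le_add ?_ ?_))
      · by_cases h : 1 / 2 - 2 * τ ≤ u
        · have : f u = ENNReal.ofReal (u - (1 / 2 - 2 * τ)) :=
            Set.indicator_of_mem (Set.mem_Icc.2 ⟨h, hu4⟩) _
          rw [this]
          exact hm1
        · rw [ENNReal.ofReal_of_nonpos (by linarith)] at hm1
          exact hm1.trans bot_le
      · by_cases h : 1 / 2 - 2 * τ ≤ -u
        · have : f (-u) = ENNReal.ofReal (-u - (1 / 2 - 2 * τ)) :=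
            Set.indicator_of_mem (Set.mem_Icc.2 ⟨h, by linarith⟩) _
          rw [this]
          exact hm2
        · rw [ENNReal.ofReal_of_nonpos (by linarith)] at hm2
          exact hm2.trans bot_le
    · have : Prod.mk r ⁻¹' corner2 a b e τ = ∅ := by
        rw [Set.eq_empty_iff_forall_notMem]
        intro z hz
        exact hu2 hz.1
      rw [this]
      simp
  rw [Measure.volume_eq_prod, Measure.prod_apply (corner2_measurable a b e τ)]
  refine (lintegral_mono hslice).trans ?_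
  have hfm : Measurable f := by
    refine Measurable.indicator ?_ measurableSet_Icc
    fun_prop
  have e1 : ∫⁻ r : ℝ, f (r - a) = ∫⁻ u : ℝ, f u := lintegral_sub_right_eq_self f a
  have e2 : ∫⁻ r : ℝ, f (-(r - a)) = ∫⁻ u : ℝ, f u := by
    rw [lintegral_sub_right_eq_self (fun r => f (-r)) a]
    exact lintegral_neg_eq_self f
  have hfm1 : Measurable fun r : ℝ => f (r - a) := hfm.comp (measurable_id.sub_const a)
  rw [lintegral_add_left hfm1, e1, e2]
  have e3 : ∫⁻ u : ℝ, f u = ENNReal.ofReal (2 * τ ^ 2) := vol_tri h0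
  rw [e3, ← ENNReal.ofReal_add (by positivity) (by positivity)]
  apply le_of_eq
  congr 1
  ring

/-- the ratio of section bounds -/
noncomputable def Bq (l : ℕ) (m : ℝ) : ℝ :=
  Real.exp (-Real.log l + (l - m / 2) * Real.log (1 + 1 / (l : ℝ)))

theorem Wb_ratio (k l : ℕ) (N n m : ℝ) (hn : n = N + m) :
    Wb k l N = Wb (k + 2) l n * Bq l m := by
  unfold Wb Bq
  rw [← Real.exp_add]
  congr 1
  rw [hn]
  push_cast
  ring

theorem pair_indep {n : ℕ} {v : Fin n → Fin k → ℝ} {i j : Fin n} (hi : 0 < v i ⬝ᵥ v i)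
    (hx : (v i ⬝ᵥ v j) ^ 2 < (v i ⬝ᵥ v i) * (v j ⬝ᵥ v j)) : ∃ k', k = k' + 2 := by
  match k, v, hi, hx with
  | 0, v, hi, _ => simp at hi
  | 1, v, _, hx =>
    simp only [dotProduct, Fin.sum_univ_one] at hx
    nlinarith
  | k + 2, _, _, _ => exact ⟨k, rfl⟩

namespace MaxData

variable {l n : ℕ} {v : Fin n → Fin k → ℝ} {s : Fin n → ℝ}

/-- replacing one copy of `v i` and one copy of `v j` -/
theorem gram_two (M : MaxData k l n v s) {i j : Fin n} (hij : i ≠ j) (w : Fin k → ℝ) :
    gramM (Function.update (Function.update v i w) j w)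
      = 1 + (-1 : ℝ) • vecMulVec (v i) (v i) + (-1 : ℝ) • vecMulVec (v j) (v j)
        + (2 : ℝ) • vecMulVec w w := by
  ext p q
  rw [gramM_apply, Matrix.add_apply, Matrix.add_apply, Matrix.add_apply, ← M.tight, gramM_apply,
    Matrix.smul_apply, vecMulVec_apply, Matrix.smul_apply, vecMulVec_apply, Matrix.smul_apply,
    vecMulVec_apply]
  have hj : j ∈ Finset.univ.erase i := Finset.mem_erase.2 ⟨hij.symm, Finset.mem_univ j⟩
  rw [← Finset.add_sum_erase _ _ (Finset.mem_univ i),
    ← Finset.add_sum_erase _ (fun m => v m p * v m q) (Finset.mem_univ i),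
    ← Finset.add_sum_erase _ _ hj, ← Finset.add_sum_erase _ (fun m => v m p * v m q) hj]
  have h1 : ∑ m ∈ (Finset.univ.erase i).erase j,
      Function.update (Function.update v i w) j w m p *
        Function.update (Function.update v i w) j w m q
      = ∑ m ∈ (Finset.univ.erase i).erase j, v m p * v m q := by
    refine Finset.sum_congr rfl fun m hm => ?_
    have hm1 := Finset.ne_of_mem_erase hm
    have hm2 := Finset.ne_of_mem_erase (Finset.mem_of_mem_erase hm)
    rw [Function.update_of_ne hm1, Function.update_of_ne hm2]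
  rw [h1, Function.update_self, Function.update_of_ne hij, Function.update_self]
  simp only [smul_eq_mul]
  ring

/-- **The merging inequality.** -/
theorem merge (M : MaxData k l n v s) (hl2 : 2 ≤ l) (hW : Wb k l n < Gs v s)
    (hP : ∀ k' < k, ∀ (N : ℕ) (v' : Fin N → Fin k' → ℝ) (s' : Fin N → ℝ), Gs v' s' ≤ Wb k' l N)
    {i j : Fin n} (hx : xx v i j ≠ 1) {τ : ℝ} (h0 : 0 < τ) (h1 : τ < 1 / 2) :
    1 ≤ 1 / Real.sqrt ((1 - (v i ⬝ᵥ v i + v j ⬝ᵥ v j - 2 * |v i ⬝ᵥ v j|) / 2) *
        (1 + (v i ⬝ᵥ v i + v j ⬝ᵥ v j + 2 * |v i ⬝ᵥ v j|) / 2 * ((1 / (1 - 2 * τ)) ^ 2 - 1)))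
      + 4 * τ ^ 2 * Bq l (((grp v i).card : ℝ) + (grp v j).card)
        / Real.sqrt ((v i ⬝ᵥ v i) * (v j ⬝ᵥ v j) - (v i ⬝ᵥ v j) ^ 2) := by
  classical
  have hi := M.lev_pos i
  have hj := M.lev_pos j
  have hx1 : xx v i j < 1 := lt_of_le_of_ne (M.xx_le_one i j) hx
  have hind : (v i ⬝ᵥ v j) ^ 2 < (v i ⬝ᵥ v i) * (v j ⬝ᵥ v j) := by
    rw [← M.xx_mul i j]
    have := mul_pos hi hj
    nlinarith
  have hij : i ≠ j := by
    intro h; rw [h] at hind; nlinarith
  obtain ⟨k', rfl⟩ := pair_indep hi hind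
  -- sign
  obtain ⟨e, he, heK⟩ : ∃ e : ℝ, (e = 1 ∨ e = -1) ∧ e * (v i ⬝ᵥ v j) = |v i ⬝ᵥ v j| := by
    rcases le_total 0 (v i ⬝ᵥ v j) with h | h
    · exact ⟨1, Or.inl rfl, by rw [one_mul, abs_of_nonneg h]⟩
    · exact ⟨-1, Or.inr rfl, by rw [abs_of_nonpos h]; ring⟩
  have hee : e * e = 1 := by rcases he with h | h <;> rw [h] <;> norm_num
  set K := |v i ⬝ᵥ v j| with hK
  have hK0 : 0 ≤ K := abs_nonneg _
  set A := v i ⬝ᵥ v i with hA
  set B := v j ⬝ᵥ v j with hB
  set E := (A + B - 2 * K) / 2 with hE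
  set S := (A + B + 2 * K) / 2 with hS
  set σ := 1 / (1 - 2 * τ) with hσ
  have h12 : 0 < 1 - 2 * τ := by linarith
  have hσ1 : 1 < σ := by
    rw [hσ, lt_div_iff₀ h12]; linarith
  have hσ0 : 0 < σ := by linarith
  have hl : (2 : ℝ) ≤ l := by exact_mod_cast hl2
  have hA1 : A ≤ 1 / 2 := (M.lev_le i).trans (one_div_le_one_div_of_le (by norm_num) hl)
  have hB1 : B ≤ 1 / 2 := (M.lev_le j).trans (one_div_le_one_div_of_le (by norm_num) hl)
  have hE1 : E ≤ 1 / 2 := by rw [hE]; linarith
  have hS0 : 0 < S := by rw [hS]; linarith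
  -- the new vector
  let w : Fin (k' + 2) → ℝ := (1 / 2 : ℝ) • (v i + e • v j)
  let δ : Fin (k' + 2) → ℝ := v i - e • v j
  let v' := Function.update (Function.update v i (σ • w)) j (σ • w)
  let sw : ℝ := (s i + e * s j) / 2
  let s' := Function.update (Function.update s i (σ * sw)) j (σ * sw)
  have hwx : ∀ x, w ⬝ᵥ x = (v i ⬝ᵥ x + e * (v j ⬝ᵥ x)) / 2 := by
    intro x
    simp only [w, smul_dotProduct, add_dotProduct, smul_eq_mul]
    ring
  have hww : 2 * (w ⬝ᵥ w) = S := by
    rw [hwx w]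
    simp only [w, dotProduct_smul, dotProduct_add, smul_eq_mul]
    rw [dotProduct_comm (v j) (v i), hS]
    have : e * (v i ⬝ᵥ v j) = K := heK
    nlinarith [hee]
  have hδδ : δ ⬝ᵥ δ = 2 * E := by
    simp only [δ, sub_dotProduct, dotProduct_sub, smul_dotProduct, dotProduct_smul, smul_eq_mul]
    rw [dotProduct_comm (v j) (v i), hE]
    have : e * (v i ⬝ᵥ v j) = K := heK
    nlinarith [hee]
  have hgram : gramM v' = 1 + (-(1 / 2) : ℝ) • vecMulVec δ δ
      + (2 * (σ ^ 2 - 1)) • vecMulVec w w := by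
    rw [M.gram_two hij (σ • w)]
    ext p q
    simp only [Matrix.add_apply, Matrix.smul_apply, vecMulVec_apply, smul_eq_mul, Pi.smul_apply,
      δ, w, Pi.sub_apply, Pi.add_apply]
    have : e ^ 2 = 1 := by rw [sq]; exact hee
    ring_nf
    rw [this]
    ring
  have hdet : (1 - E) * (1 + S * (σ ^ 2 - 1)) ≤ (gramM v').det := by
    rw [hgram, det_one_add_two, hδδ]
    have h2 : 0 ≤ σ ^ 2 - 1 := by nlinarith
    have h3 : (1 + -(1 / 2) * (2 * E)) * (1 + 2 * (σ ^ 2 - 1) * (w ⬝ᵥ w))
        - -(1 / 2) * (2 * (σ ^ 2 - 1)) * (δ ⬝ᵥ w) ^ 2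
        = (1 - E) * (1 + S * (σ ^ 2 - 1)) + (σ ^ 2 - 1) * (δ ⬝ᵥ w) ^ 2 := by
      rw [← hww]; ring
    rw [h3]
    have := mul_nonneg h2 (sq_nonneg (δ ⬝ᵥ w))
    linarith
  have hlow : 0 < (1 - E) * (1 + S * (σ ^ 2 - 1)) := by
    have h2 : 0 < σ ^ 2 - 1 := by nlinarith
    have := mul_pos hS0 h2
    exact mul_pos (by linarith) (by linarith)
  have hdet0 : 0 < (gramM v').det := hlow.trans_le hdet
  -- the common part
  let bad : Set (Fin (k' + 2) → ℝ) :=
    {x | x ∈ bodyS v s ∧ (v i ⬝ᵥ x, v j ⬝ᵥ x) ∈ corner2 (s i) (s j) e τ}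
  let good : Set (Fin (k' + 2) → ℝ) := {x | x ∈ bodyS v s ∧ |w ⬝ᵥ x - sw| ≤ 1 / 2 - τ}
  have hcover : bodyS v s ⊆ good ∪ bad := by
    intro x hx
    by_cases h : |w ⬝ᵥ x - sw| ≤ 1 / 2 - τ
    · exact Or.inl ⟨hx, h⟩
    · right
      refine ⟨hx, hx i, hx j, ?_⟩
      push Not at h
      have h2 : (v i ⬝ᵥ x - s i) + e * (v j ⬝ᵥ x - s j) = 2 * (w ⬝ᵥ x - sw) := by
        rw [hwx]; simp only [sw]; ring
      simp only []
      rw [h2, abs_mul, abs_two]
      linarith
  have hgood : good ⊆ bodyS v' s' := by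
    intro x hx m
    have hslab : |σ • w ⬝ᵥ x - σ * sw| ≤ 1 / 2 := by
      rw [smul_dotProduct, smul_eq_mul, ← mul_sub, abs_mul, abs_of_pos hσ0]
      calc σ * |w ⬝ᵥ x - sw| ≤ σ * (1 / 2 - τ) := mul_le_mul_of_nonneg_left hx.2 hσ0.le
        _ = 1 / 2 := by rw [hσ]; field_simp
    by_cases hmj : m = j
    · subst hmj
      simp only [v', s', Function.update_self]
      exact hslab
    · by_cases hmi : m = i
      · subst hmi
        simp only [v', s', Function.update_of_ne hmj, Function.update_self]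
        exact hslab
      · simp only [v', s', Function.update_of_ne hmj, Function.update_of_ne hmi]
        exact hx.1 m
  set V := (volume (bodyS v s)).toReal with hV
  have hVpos : 0 < V := M.gpos
  have hfin := bodyS_tight_finite M.tight s
  -- comparison
  have hcmp := M.compare v' s' hdet0 hgood
  rw [Fintype.card_fin, sub_self, zero_mul, mul_zero, Real.exp_zero, mul_one, ← hV] at hcmp
  have hgood_fin : volume good ≠ ⊤ := ne_top_of_le_ne_top hfin (measure_mono fun x hx => hx.1)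
  have hbad_fin : volume bad ≠ ⊤ := ne_top_of_le_ne_top hfin (measure_mono fun x hx => hx.1)
  -- the bad part
  obtain ⟨N, hN⟩ : ∃ N : ℕ, n = N + (grp v i).card + (grp v j).card := by
    have h2 : (grp v i).card + (grp v j).card ≤ n := by
      rw [← Finset.card_union_of_disjoint (M.grp_disjoint hx)]
      exact (Finset.card_le_univ _).trans (by rw [Fintype.card_fin])
    exact ⟨n - ((grp v i).card + (grp v j).card), by omega⟩
  set C := Wb k' l N with hC
  have hCpos : 0 < C := Wb_pos _ _ _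
  set D := Real.sqrt (A * B - (v i ⬝ᵥ v j) ^ 2) with hD
  have hD0 : 0 < D := Real.sqrt_pos.2 (by linarith)
  have hbad : (volume bad).toReal ≤ C / D * (4 * τ ^ 2) := by
    have h2 := fiber2 M.tight s i j hi (by linarith) (grp v i) (grp v j)
      (fun m hm => mem_grp.1 hm) (fun m hm => mem_grp.1 hm) (M.grp_disjoint hx)
      (N := N) (by rw [Fintype.card_fin]; exact hN) hCpos.le
      (by
        intro κ _ hκ v'' s''
        let e' : Fin N ≃ κ := (Fintype.equivFinOfCardEq hκ).symm
        rw [← Gs_reindex e']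
        exact hP k' (by omega) N _ _)
      (corner2_measurable (s i) (s j) e τ)
    have h3 : volume bad ≤ ENNReal.ofReal (C / D * (4 * τ ^ 2)) := by
      refine h2.trans ?_
      rw [ENNReal.ofReal_mul (by positivity)]
      gcongr
      exact vol_corner2 _ _ he h0.le
    have h4 := ENNReal.toReal_mono ENNReal.ofReal_ne_top h3
    rwa [ENNReal.toReal_ofReal (by positivity)] at h4
  have hsum : V ≤ (volume good).toReal + (volume bad).toReal := by
    rw [← ENNReal.toReal_add hgood_fin hbad_fin, hV]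
    exact ENNReal.toReal_mono (ENNReal.add_ne_top.2 ⟨hgood_fin, hbad_fin⟩)
      ((measure_mono hcover).trans (measure_union_le _ _))
  -- divide
  have hCV : C / V ≤ Bq l (((grp v i).card : ℝ) + (grp v j).card) := by
    rw [Gs_tight M.tight, ← hV] at hW
    rw [div_le_iff₀ hVpos, hC, Wb_ratio k' l N n (((grp v i).card : ℝ) + (grp v j).card)
      (by
        have : (n : ℝ) = ((N + (grp v i).card + (grp v j).card : ℕ) : ℝ) := by exact_mod_cast hN
        rw [this]; push_cast; ring), mul_comm]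
    exact mul_le_mul_of_nonneg_left hW.le (Real.exp_pos _).le
  have hroot : Real.sqrt ((1 - E) * (1 + S * (σ ^ 2 - 1))) ≤ Real.sqrt (gramM v').det :=
    Real.sqrt_le_sqrt hdet
  have hroot0 : 0 < Real.sqrt ((1 - E) * (1 + S * (σ ^ 2 - 1))) := Real.sqrt_pos.2 hlow
  have hg : (volume good).toReal ≤ V / Real.sqrt ((1 - E) * (1 + S * (σ ^ 2 - 1))) := by
    rw [le_div_iff₀ hroot0, mul_comm]
    exact (mul_le_mul_of_nonneg_right hroot ENNReal.toReal_nonneg).trans hcmp
  have hfinal : V * 1 ≤ V * (1 / Real.sqrt ((1 - E) * (1 + S * (σ ^ 2 - 1)))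
      + 4 * τ ^ 2 * Bq l (((grp v i).card : ℝ) + (grp v j).card) / D) := by
    have h2 : C / D * (4 * τ ^ 2) ≤ V * (4 * τ ^ 2 *
        Bq l (((grp v i).card : ℝ) + (grp v j).card) / D) := by
      have h3 : C ≤ Bq l (((grp v i).card : ℝ) + (grp v j).card) * V := (div_le_iff₀ hVpos).1 hCV
      have e1 : V * (4 * τ ^ 2 * Bq l (((grp v i).card : ℝ) + (grp v j).card) / D)
          = (Bq l (((grp v i).card : ℝ) + (grp v j).card) * V) / D * (4 * τ ^ 2) := by ring
      rw [e1]
      gcongr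
    have e2 : V * (1 / Real.sqrt ((1 - E) * (1 + S * (σ ^ 2 - 1))))
        = V / Real.sqrt ((1 - E) * (1 + S * (σ ^ 2 - 1))) := by ring
    rw [mul_one, mul_add, e2]
    linarith
  exact le_of_mul_le_mul_left hfinal hVpos

end MaxData

end Pool.Agent.Work.MP_6cd513_gt
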