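import Pool.Agent.Work.MP_6cd513_gt.Frames

/-!
# Normal form of a clustered family
-/

open Matrix Finset MeasureTheory

namespace Pool.Agent.Work.MP_6cd513_gt

variable {ι : Type} [Fintype ι] {k : ℕ}

/-- a clustered family -/
noncomputable def cv (j : ι → Fin k) (a : ι → ℝ) (τ : ι → Fin k → ℝ) (i : ι) : Fin k → ℝ :=
  fun r => a i * ((if r = j i then 1 else 0) + τ i r)

theorem normal_form (j : ι → Fin k) (a : ι → ℝ) (τ : ι → Fin k → ℝ) (ha : ∀ i, 0 < a i)
    (hne : ∀ q, ∃ i, j i = q) {θ : ℝ} (hθ0 : 0 ≤ θ) (hθ : θ ≤ 1 / 8)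
    (hτ0 : ∀ i, τ i (j i) = 0) (hτ : ∀ i, ∑ r, |τ i r| ≤ θ) :
    ∃ c : Clus ι k, c.j = j ∧ c.a = a ∧ Gv (cv j a τ) = Gv c.v ∧
      (∀ i, |c.σ i (c.j i)| ≤ c.o i) ∧ ∀ i, c.o i ≤ 4 * θ := by
  classical
  let D : Fin k → ℝ := fun q => ∑ i with j i = q, a i ^ 2
  have hD : ∀ q, 0 < D q := by
    intro q
    obtain ⟨i, hi⟩ := hne q
    exact Finset.sum_pos (fun i _ => pow_pos (ha i) 2) ⟨i, by simp [hi]⟩
  -- mean tilt
  let tb : Fin k → Fin k → ℝ := fun q r => (∑ i with j i = q, a i ^ 2 * τ i r) / D q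
  have htb0 : ∀ q, tb q q = 0 := by
    intro q
    simp only [tb]
    rw [Finset.sum_eq_zero, zero_div]
    intro i hi
    have : j i = q := (Finset.mem_filter.1 hi).2
    rw [← this, hτ0, mul_zero]
  have htb : ∀ q, ∑ r, |tb q r| ≤ θ := by
    intro q
    have h1 : ∀ r, |tb q r| ≤ (∑ i with j i = q, a i ^ 2 * |τ i r|) / D q := by
      intro r
      simp only [tb]
      rw [abs_div, abs_of_pos (hD q)]
      apply div_le_div_of_nonneg_right _ (hD q).le
      refine (Finset.abs_sum_le_sum_abs _ _).trans (le_of_eq ?_)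
      refine Finset.sum_congr rfl fun i _ => ?_
      rw [abs_mul, abs_of_nonneg (sq_nonneg _)]
    calc ∑ r, |tb q r| ≤ ∑ r, (∑ i with j i = q, a i ^ 2 * |τ i r|) / D q :=
          Finset.sum_le_sum fun r _ => h1 r
      _ = (∑ i with j i = q, a i ^ 2 * ∑ r, |τ i r|) / D q := by
          rw [← Finset.sum_div, Finset.sum_comm]
          congr 1
          exact Finset.sum_congr rfl fun i _ => by rw [Finset.mul_sum]
      _ ≤ (∑ i with j i = q, a i ^ 2 * θ) / D q := by
          apply div_le_div_of_nonneg_right _ (hD q).le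
          exact Finset.sum_le_sum fun i _ => mul_le_mul_of_nonneg_left (hτ i) (sq_nonneg _)
      _ = θ := by
          rw [← Finset.sum_mul]
          exact mul_div_cancel_left₀ θ (hD q).ne'
  let Z : Matrix (Fin k) (Fin k) ℝ := Matrix.of fun q r => (if r = q then 1 else 0) + tb q r
  have hZ : Z.det ≠ 0 := by
    apply det_ne_zero_of_sum_row_lt_diag
    intro q
    have h1 : Z q q = 1 := by simp [Z, htb0]
    rw [h1, norm_one]
    have h2 : ∑ r ∈ Finset.univ.erase q, ‖Z q r‖ ≤ θ := by
      calc ∑ r ∈ Finset.univ.erase q, ‖Z q r‖ = ∑ r ∈ Finset.univ.erase q, |tb q r| := by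
            refine Finset.sum_congr rfl fun r hr => ?_
            simp [Z, Finset.ne_of_mem_erase hr]
        _ ≤ ∑ r, |tb q r| := Finset.sum_le_sum_of_subset_of_nonneg (Finset.erase_subset _ _)
            fun _ _ _ => abs_nonneg _
        _ ≤ θ := htb q
    linarith
  have hunit : IsUnit Z.det := isUnit_iff_ne_zero.2 hZ
  let σ : ι → Fin k → ℝ := fun i => (fun r => τ i r - tb (j i) r) ᵥ* Z⁻¹
  have hσZ : ∀ i, σ i ᵥ* Z = fun r => τ i r - tb (j i) r := by
    intro i
    simp only [σ]
    rw [vecMul_vecMul, nonsing_inv_mul _ hunit, vecMul_one]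
  have hσr : ∀ i r, σ i r + ∑ q, σ i q * tb q r = τ i r - tb (j i) r := by
    intro i r
    have h1 := congrFun (hσZ i) r
    simp only [vecMul, dotProduct, Z, of_apply, mul_add, Finset.sum_add_distrib, mul_ite, mul_one,
      mul_zero] at h1
    rw [Finset.sum_ite_eq Finset.univ r] at h1
    simpa using h1
  have hH1 : ∀ q r, ∑ i with j i = q, a i ^ 2 * σ i r = 0 := by
    intro q r
    have h1 : (∑ i with j i = q, a i ^ 2 • σ i) = (0 : Fin k → ℝ) := by
      have h2 : (∑ i with j i = q, a i ^ 2 • σ i) = (∑ i with j i = q, a i ^ 2 •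
          (fun r => τ i r - tb (j i) r : Fin k → ℝ)) ᵥ* Z⁻¹ := by
        rw [sum_vecMul]
        refine Finset.sum_congr rfl fun i _ => ?_
        simp only [σ]
        rw [smul_vecMul]
      rw [h2]
      have h3 : (∑ i with j i = q, a i ^ 2 • (fun r => τ i r - tb (j i) r : Fin k → ℝ)) = 0 := by
        ext r
        simp only [Finset.sum_apply, Pi.smul_apply, smul_eq_mul, Pi.zero_apply]
        have h4 : ∀ i ∈ Finset.univ.filter (fun i => j i = q),
            a i ^ 2 * (τ i r - tb (j i) r) = a i ^ 2 * τ i r - a i ^ 2 * tb q r := by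
          intro i hi
          rw [(Finset.mem_filter.1 hi).2]; ring
        rw [Finset.sum_congr rfl h4, Finset.sum_sub_distrib, ← Finset.sum_mul]
        simp only [tb]
        have hDq := (hD q).ne'
        have : (∑ i with j i = q, a i ^ 2) = D q := rfl
        rw [this, mul_div_cancel₀ _ hDq, sub_self]
      rw [h3, zero_vecMul]
    have h5 := congrFun h1 r
    simpa using h5
  let c : Clus ι k := ⟨j, a, σ, ha, hH1, hne⟩
  have ho : ∀ i, c.o i = ∑ r ∈ Finset.univ.erase (j i), |σ i r| := fun i => rfl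
  have hl1 : ∀ i, ∑ r, |σ i r| = |σ i (j i)| + c.o i := by
    intro i
    rw [ho]
    exact (Finset.add_sum_erase _ (fun r => |σ i r|) (Finset.mem_univ (j i))).symm
  have hown : ∀ i, |σ i (j i)| ≤ θ * c.o i := by
    intro i
    have h1 := hσr i (j i)
    rw [hτ0, htb0, sub_zero] at h1
    have h2 : σ i (j i) = -∑ q ∈ Finset.univ.erase (j i), σ i q * tb q (j i) := by
      rw [← Finset.add_sum_erase _ _ (Finset.mem_univ (j i)), htb0, mul_zero, zero_add] at h1
      linarith
    rw [h2, abs_neg, ho, Finset.mul_sum]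
    refine (Finset.abs_sum_le_sum_abs _ _).trans (Finset.sum_le_sum fun q _ => ?_)
    rw [abs_mul, mul_comm]
    apply mul_le_mul_of_nonneg_right _ (abs_nonneg _)
    exact (Finset.single_le_sum (f := fun r => |tb q r|) (fun _ _ => abs_nonneg _)
      (Finset.mem_univ (j i))).trans (htb q)
  have honn : ∀ i, 0 ≤ c.o i := c.o_nonneg
  have ho4 : ∀ i, c.o i ≤ 4 * θ := by
    intro i
    have h1 : c.o i ≤ ∑ r, (|τ i r| + |tb (j i) r| + ∑ q, |σ i q| * |tb q r|) := by
      rw [ho]
      calc ∑ r ∈ Finset.univ.erase (j i), |σ i r| ≤ ∑ r, |σ i r| :=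
            Finset.sum_le_sum_of_subset_of_nonneg (Finset.erase_subset _ _)
              fun _ _ _ => abs_nonneg _
        _ ≤ _ := by
            refine Finset.sum_le_sum fun r _ => ?_
            have h2 : σ i r = τ i r - tb (j i) r - ∑ q, σ i q * tb q r := by
              linarith [hσr i r]
            rw [h2]
            calc |τ i r - tb (j i) r - ∑ q, σ i q * tb q r|
                ≤ |τ i r - tb (j i) r| + |∑ q, σ i q * tb q r| := abs_sub _ _
              _ ≤ (|τ i r| + |tb (j i) r|) + ∑ q, |σ i q| * |tb q r| := by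
                  apply add_le_add (abs_sub _ _)
                  refine (Finset.abs_sum_le_sum_abs _ _).trans (le_of_eq ?_)
                  exact Finset.sum_congr rfl fun q _ => abs_mul _ _
    rw [Finset.sum_add_distrib, Finset.sum_add_distrib, Finset.sum_comm] at h1
    have h3 : ∑ q, ∑ r, |σ i q| * |tb q r| ≤ θ * ∑ q, |σ i q| := by
      rw [Finset.mul_sum]
      refine Finset.sum_le_sum fun q _ => ?_
      rw [← Finset.mul_sum, mul_comm]
      exact mul_le_mul_of_nonneg_right (htb q) (abs_nonneg _)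
    have h4 := hτ i
    have h5 := htb (j i)
    have h6 := hown i
    have h7 := honn i
    rw [hl1 i] at h3
    have h8 : |σ i (j i)| + c.o i ≤ 2 * c.o i := by nlinarith
    have h9 : θ * (|σ i (j i)| + c.o i) ≤ (1 / 8) * (2 * c.o i) :=
      mul_le_mul hθ h8 (add_nonneg (abs_nonneg _) h7) (by norm_num)
    linarith
  refine ⟨c, rfl, rfl, ?_, ?_, ho4⟩
  · have h1 : cv j a τ = fun i => c.v i ᵥ* Z := by
      ext i r
      have h2 : (c.v i ᵥ* Z) r = a i * (Z (j i) r + (σ i ᵥ* Z) r) := by
        have h3 : c.v i = a i • (Pi.single (j i) (1 : ℝ) + σ i) := by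
          ext q
          simp only [Clus.v, Pi.smul_apply, Pi.add_apply, smul_eq_mul, Pi.single_apply]
          rfl
        rw [h3, smul_vecMul, add_vecMul, single_one_vecMul]
        simp
      rw [h2, hσZ i]
      simp only [cv, Z, of_apply]
      ring
    rw [h1, Gv_vecMul _ hZ]
  · intro i
    have h1 := hown i
    have h2 := honn i
    show |σ i (j i)| ≤ c.o i
    nlinarith

end Pool.Agent.Work.MP_6cd513_gt
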