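import Mathlib

/-!
# Two-sided anchored bounds for the logarithm
-/

namespace Pool.Agent.Work.MP_6cd513_gt

theorem pade_upper {x : ℝ} (hx : 0 ≤ x) :
    Real.log (1 + x) ≤ x * (6 + x) / (6 + 4 * x) := by
  have hd : ∀ z ∈ Set.Ioi (-1 : ℝ), HasDerivAt (fun z : ℝ => Real.log (1 + z)) (1 / (1 + z)) z := by
    intro z hz
    have h1 : (1 : ℝ) + z ≠ 0 := by have : -1 < z := hz; linarith
    have := ((hasDerivAt_id z).const_add 1).log h1
    simpa using this
  let g : ℝ → ℝ := fun z => z * (6 + z) / (6 + 4 * z) - Real.log (1 + z)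
  have hg : ∀ z ∈ Set.Ioi (-1 : ℝ), HasDerivAt g (4 * z ^ 3 / ((6 + 4 * z) ^ 2 * (1 + z))) z := by
    intro z hz
    have hz' : -1 < z := hz
    have h1 : (1 : ℝ) + z ≠ 0 := by linarith
    have h2 : (6 : ℝ) + 4 * z ≠ 0 := by linarith
    have d1 : HasDerivAt (fun z : ℝ => z * (6 + z)) (1 * (6 + z) + z * 1) z := by
      have := (hasDerivAt_id' z).fun_mul ((hasDerivAt_id' z).const_add 6)
      exact this
    have d2 : HasDerivAt (fun z : ℝ => 6 + 4 * z) 4 z := by
      have := ((hasDerivAt_id z).const_mul 4).const_add 6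
      simpa using this
    have d3 := (d1.div d2 h2).sub (hd z hz)
    refine d3.congr_deriv ?_
    rw [div_sub_div _ _ (pow_ne_zero 2 h2) h1, div_eq_div_iff
      (mul_ne_zero (pow_ne_zero 2 h2) h1) (mul_ne_zero (pow_ne_zero 2 h2) h1)]
    ring
  have hmono : MonotoneOn g (Set.Ici 0) := by
    apply monotoneOn_of_deriv_nonneg (convex_Ici 0)
    · intro z hz
      have : (0 : ℝ) ≤ z := hz
      exact (hg z (by show (-1 : ℝ) < z; linarith)).continuousAt.continuousWithinAt
    · intro z hz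
      rw [interior_Ici] at hz
      have : (0 : ℝ) < z := hz
      exact (hg z (by show (-1 : ℝ) < z; linarith)).differentiableAt.differentiableWithinAt
    · intro z hz
      rw [interior_Ici] at hz
      have h0 : (0 : ℝ) < z := hz
      rw [(hg z (by show (-1 : ℝ) < z; linarith)).deriv]
      positivity
  have h := hmono (Set.mem_Ici.2 le_rfl) (Set.mem_Ici.2 hx) hx
  simp only [g] at h
  norm_num at h
  linarith

theorem pade_lower {x : ℝ} (hx : 0 ≤ x) :
    3 * x * (2 + x) / (6 + 6 * x + x ^ 2) ≤ Real.log (1 + x) := by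
  have hd : ∀ z ∈ Set.Ici (0 : ℝ), HasDerivAt (fun z : ℝ => Real.log (1 + z)) (1 / (1 + z)) z := by
    intro z hz
    have h1 : (1 : ℝ) + z ≠ 0 := by have : 0 ≤ z := hz; linarith
    have := ((hasDerivAt_id z).const_add 1).log h1
    simpa using this
  let g : ℝ → ℝ := fun z => Real.log (1 + z) - 3 * z * (2 + z) / (6 + 6 * z + z ^ 2)
  have hg : ∀ z ∈ Set.Ici (0 : ℝ), HasDerivAt g (z ^ 4 / ((6 + 6 * z + z ^ 2) ^ 2 * (1 + z))) z := by
    intro z hz
    have hz' : 0 ≤ z := hz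
    have h1 : (1 : ℝ) + z ≠ 0 := by linarith
    have h2 : (6 : ℝ) + 6 * z + z ^ 2 ≠ 0 := by positivity
    have d1 : HasDerivAt (fun z : ℝ => 3 * z * (2 + z)) (3 * (2 + z) + 3 * z * 1) z := by
      have := ((hasDerivAt_id' z).const_mul 3).fun_mul ((hasDerivAt_id' z).const_add 2)
      refine this.congr_deriv ?_
      ring
    have d2 : HasDerivAt (fun z : ℝ => 6 + 6 * z + z ^ 2) (6 + 2 * z) z := by
      have := (((hasDerivAt_id' z).const_mul 6).const_add 6).fun_add ((hasDerivAt_id' z).fun_pow 2)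
      refine this.congr_deriv ?_
      norm_num
    have d3 := (hd z hz).sub (d1.div d2 h2)
    refine d3.congr_deriv ?_
    have h3 := pow_ne_zero 2 h2
    rw [div_sub_div _ _ h1 h3, div_eq_div_iff (mul_ne_zero h1 h3) (mul_ne_zero h3 h1)]
    ring
  have hmono : MonotoneOn g (Set.Ici 0) := by
    apply monotoneOn_of_deriv_nonneg (convex_Ici 0)
    · intro z hz
      exact (hg z hz).continuousAt.continuousWithinAt
    · intro z hz
      rw [interior_Ici] at hz
      have : (0 : ℝ) < z := hz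
      exact (hg z (by show (0 : ℝ) ≤ z; linarith)).differentiableAt.differentiableWithinAt
    · intro z hz
      rw [interior_Ici] at hz
      have h0 : (0 : ℝ) < z := hz
      rw [(hg z (by show (0 : ℝ) ≤ z; linarith)).deriv]
      positivity
  have h := hmono (Set.mem_Ici.2 le_rfl) (Set.mem_Ici.2 hx) hx
  simp only [g] at h
  norm_num at h
  linarith

/-- the two-sided anchored bound -/
theorem flog_le {l u : ℝ} (hl : 1 ≤ l) (hu0 : 0 ≤ u) (hu1 : u ≤ 1) :
    Real.log (1 + u / l) - u * Real.log (1 + 1 / l) ≤ u * (1 - u) *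
      ((6 * l + u) / (l * (6 * l + 4 * u))
        - 3 * (2 * l + 1 + u) / (6 * (l + u) * (l + 1) + (1 - u) ^ 2)) := by
  have hl0 : 0 < l := by linarith
  have h1 := pade_upper (x := u / l) (by positivity)
  have hz : 0 ≤ 1 - u := by linarith
  have h2 := pade_lower (x := (1 - u) / (l + u)) (by positivity)
  have h3 : Real.log (1 + 1 / l) = Real.log (1 + u / l) + Real.log (1 + (1 - u) / (l + u)) := by
    rw [← Real.log_mul (by positivity) (by positivity)]
    congr 1
    field_simp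
    ring
  rw [h3]
  have h4 : Real.log (1 + u / l) - u * (Real.log (1 + u / l) + Real.log (1 + (1 - u) / (l + u)))
      = (1 - u) * Real.log (1 + u / l) - u * Real.log (1 + (1 - u) / (l + u)) := by ring
  rw [h4]
  have h5 := mul_le_mul_of_nonneg_left h1 hz
  have h6 := mul_le_mul_of_nonneg_left h2 hu0
  have h7 : (1 - u) * (u / l * (6 + u / l) / (6 + 4 * (u / l)))
      = u * (1 - u) * ((6 * l + u) / (l * (6 * l + 4 * u))) := by
    field_simp
  have hD : 0 < 6 * (l + u) * (l + 1) + (1 - u) ^ 2 := by positivity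
  have h8 : u * (3 * ((1 - u) / (l + u)) * (2 + (1 - u) / (l + u)) /
      (6 + 6 * ((1 - u) / (l + u)) + ((1 - u) / (l + u)) ^ 2))
      = u * (1 - u) * (3 * (2 * l + 1 + u) / (6 * (l + u) * (l + 1) + (1 - u) ^ 2)) := by
    have hlu : 0 < l + u := by linarith
    have hD2 : 0 < 6 + 6 * ((1 - u) / (l + u)) + ((1 - u) / (l + u)) ^ 2 := by positivity
    have e1 : 6 + 6 * ((1 - u) / (l + u)) + ((1 - u) / (l + u)) ^ 2
        = (6 * (l + u) * (l + 1) + (1 - u) ^ 2) / (l + u) ^ 2 := by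
      field_simp
      ring
    rw [e1]
    field_simp
    ring
  rw [h7] at h5
  rw [h8] at h6
  calc _ ≤ u * (1 - u) * ((6 * l + u) / (l * (6 * l + 4 * u)))
        - u * (1 - u) * (3 * (2 * l + 1 + u) / (6 * (l + u) * (l + 1) + (1 - u) ^ 2)) := by
        linarith
    _ = _ := by ring

theorem flog_two {u : ℝ} (hu0 : 0 ≤ u) (hu1 : u ≤ 1) :
    Real.log (1 + u / 2) - u * Real.log (1 + 1 / 2)
      ≤ u * (1 - u) * (946 / 10000 * (1 - u) + 730 / 10000 * u) := by
  refine (flog_le (l := 2) (by norm_num) hu0 hu1).trans ?_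
  apply mul_le_mul_of_nonneg_left _ (mul_nonneg hu0 (by linarith))
  rw [sub_le_iff_le_add, div_le_iff₀ (by positivity)]
  have hD : 0 < 6 * (2 + u) * (2 + 1) + (1 - u) ^ 2 := by positivity
  have h1 : (946 / 10000 * (1 - u) + 730 / 10000 * u +
      3 * (2 * 2 + 1 + u) / (6 * (2 + u) * (2 + 1) + (1 - u) ^ 2)) * (2 * (6 * 2 + 4 * u))
      = ((946 / 10000 * (1 - u) + 730 / 10000 * u) * (6 * (2 + u) * (2 + 1) + (1 - u) ^ 2) +
      3 * (2 * 2 + 1 + u)) * (2 * (6 * 2 + 4 * u)) / (6 * (2 + u) * (2 + 1) + (1 - u) ^ 2) := by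
    field_simp
  rw [h1, le_div_iff₀ hD]
  have hz : 0 ≤ 1 - u := by linarith
  nlinarith [mul_nonneg hu0 hz, mul_nonneg (mul_nonneg hu0 hz) hu0,
    mul_nonneg (mul_nonneg hu0 hz) (mul_nonneg hu0 hz), mul_nonneg (mul_nonneg hu0 hu0) hu0]

theorem flog_gen {l u : ℝ} (hl : 1 ≤ l) (hu0 : 0 ≤ u) (hu1 : u ≤ 1) :
    Real.log (1 + u / l) - u * Real.log (1 + 1 / l)
      ≤ u * (1 - u) * (1 / (l * (2 * l + 1))) := by
  have hl0 : 0 < l := by linarith
  refine (flog_le hl hu0 hu1).trans ?_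
  apply mul_le_mul_of_nonneg_left _ (mul_nonneg hu0 (by linarith))
  have hz : 0 ≤ 1 - u := by linarith
  have hD : 0 < 6 * (l + u) * (l + 1) + (1 - u) ^ 2 := by positivity
  have hE : 0 < 2 * l + 1 + u := by linarith
  have h1 : 2 / (2 * l + 1 + u) ≤ 3 * (2 * l + 1 + u) / (6 * (l + u) * (l + 1) + (1 - u) ^ 2) := by
    rw [div_le_div_iff₀ hE hD]
    nlinarith [sq_nonneg (1 - u)]
  have h2 : (6 * l + u) / (l * (6 * l + 4 * u)) - 2 / (2 * l + 1 + u) ≤ 1 / (l * (2 * l + 1)) := by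
    rw [div_sub_div _ _ (by positivity) hE.ne', div_le_div_iff₀ (by positivity) (by positivity)]
    nlinarith [mul_nonneg hu0 hz, mul_nonneg hu0 hl0.le, mul_nonneg (mul_nonneg hu0 hl0.le) hl0.le,
      mul_nonneg (mul_nonneg hu0 hz) hl0.le, mul_nonneg (mul_nonneg hu0 hu0) hl0.le,
      mul_nonneg (mul_nonneg (mul_nonneg hu0 hl0.le) hl0.le) hl0.le,
      mul_nonneg (mul_nonneg (mul_nonneg hu0 hu0) hl0.le) hl0.le,
      mul_nonneg (mul_nonneg (mul_nonneg hu0 hz) hl0.le) hl0.le]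
  linarith

end Pool.Agent.Work.MP_6cd513_gt
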