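import Mathlib

/-!
# The kernel `ψ₀(d) = e^{-|d|} - 1 + |d|` as a mixture of squared differences
-/

open MeasureTheory Set

namespace Pool.Agent.Work.MP_6cd513_gt

/-- `ψ₀(d) = e^{-|d|} - 1 + |d|` -/
noncomputable def psi0 (d : ℝ) : ℝ := Real.exp (-|d|) - 1 + |d|

/-- `g_x(a) = 1 - e^{-(a-x)₊}` -/
noncomputable def gx (x a : ℝ) : ℝ := 1 - Real.exp (-max (a - x) 0)

theorem psi0_neg (d : ℝ) : psi0 (-d) = psi0 d := by unfold psi0; rw [abs_neg]

theorem psi0_nonneg (d : ℝ) : 0 ≤ psi0 d := by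
  unfold psi0
  have := Real.add_one_le_exp (-|d|)
  linarith

theorem gx_meas (a : ℝ) : Measurable fun x => gx x a := by
  unfold gx
  fun_prop

theorem gx_mix_aux {a b : ℝ} (hab : b ≤ a) :
    Integrable (fun x => (gx x a - gx x b) ^ 2) ∧
      ∫ x, (gx x a - gx x b) ^ 2 = psi0 (a - b) := by
  -- on `Iic b`
  have h1 : ∀ x ∈ Iic b, (gx x a - gx x b) ^ 2
      = Real.exp (2 * x) * (Real.exp (-b) - Real.exp (-a)) ^ 2 := by
    intro x hx
    have hx' : x ≤ b := hx
    unfold gx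
    rw [max_eq_left (by linarith : (0 : ℝ) ≤ a - x), max_eq_left (by linarith : (0 : ℝ) ≤ b - x)]
    have e1 : Real.exp (-(a - x)) = Real.exp x * Real.exp (-a) := by
      rw [← Real.exp_add]; congr 1; ring
    have e2 : Real.exp (-(b - x)) = Real.exp x * Real.exp (-b) := by
      rw [← Real.exp_add]; congr 1; ring
    have e3 : Real.exp (2 * x) = Real.exp x * Real.exp x := by
      rw [← Real.exp_add]; congr 1; ring
    rw [e1, e2, e3]
    ring
  have h2 : ∀ x ∈ Ioc b a, (gx x a - gx x b) ^ 2 = (1 - Real.exp (x - a)) ^ 2 := by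
    intro x hx
    unfold gx
    rw [max_eq_left (by linarith [hx.2] : (0 : ℝ) ≤ a - x),
      max_eq_right (by linarith [hx.1] : b - x ≤ 0)]
    rw [neg_zero, Real.exp_zero, neg_sub]
    ring
  have h3 : ∀ x ∈ Ioi a, (gx x a - gx x b) ^ 2 = 0 := by
    intro x hx
    have hx' : a < x := hx
    unfold gx
    rw [max_eq_right (by linarith : a - x ≤ 0), max_eq_right (by linarith : b - x ≤ 0)]
    ring
  have i0 : IntegrableOn (fun x : ℝ => Real.exp (2 * x)) (Iic b) :=
    integrableOn_exp_mul_Iic (by norm_num) b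
  have i1 : IntegrableOn (fun x => (gx x a - gx x b) ^ 2) (Iic b) := by
    refine IntegrableOn.congr_fun (f := fun x =>
      Real.exp (2 * x) * (Real.exp (-b) - Real.exp (-a)) ^ 2) ?_
      (fun x hx => (h1 x hx).symm) measurableSet_Iic
    exact i0.mul_const _
  have hc : Continuous fun x : ℝ => (1 - Real.exp (x - a)) ^ 2 := by fun_prop
  have i2 : IntegrableOn (fun x => (gx x a - gx x b) ^ 2) (Ioc b a) := by
    refine IntegrableOn.congr_fun (f := fun x => (1 - Real.exp (x - a)) ^ 2) ?_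
      (fun x hx => (h2 x hx).symm) measurableSet_Ioc
    exact (hc.integrableOn_Icc (a := b) (b := a)).mono_set Ioc_subset_Icc_self
  have i3 : IntegrableOn (fun x => (gx x a - gx x b) ^ 2) (Ioi a) := by
    refine IntegrableOn.congr_fun (f := fun _ => (0 : ℝ)) ?_
      (fun x hx => (h3 x hx).symm) measurableSet_Ioi
    exact integrableOn_zero
  have hU : (univ : Set ℝ) = Iic b ∪ (Ioc b a ∪ Ioi a) := by
    rw [Ioc_union_Ioi_eq_Ioi hab, Iic_union_Ioi]
  have hint : Integrable (fun x => (gx x a - gx x b) ^ 2) := by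
    rw [← integrableOn_univ, hU]
    exact i1.union (i2.union i3)
  refine ⟨hint, ?_⟩
  have s1 : ∫ x, (gx x a - gx x b) ^ 2 = (∫ x in Iic b, (gx x a - gx x b) ^ 2)
      + ((∫ x in Ioc b a, (gx x a - gx x b) ^ 2) + ∫ x in Ioi a, (gx x a - gx x b) ^ 2) := by
    rw [← setIntegral_union (Ioc_disjoint_Ioi_same) measurableSet_Ioi i2 i3,
      Ioc_union_Ioi_eq_Ioi hab,
      ← setIntegral_union (Iic_disjoint_Ioi le_rfl) measurableSet_Ioi i1
        (hint.integrableOn), Iic_union_Ioi, setIntegral_univ]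
  rw [s1, setIntegral_congr_fun measurableSet_Iic h1, setIntegral_congr_fun measurableSet_Ioc h2,
    setIntegral_congr_fun measurableSet_Ioi h3, integral_zero, add_zero, integral_mul_const,
    integral_exp_mul_Iic (by norm_num : (0 : ℝ) < 2) b]
  have hI : ∫ x in Ioc b a, (1 - Real.exp (x - a)) ^ 2
      = (a - 2 * Real.exp (a - a) + Real.exp (2 * (a - a)) / 2)
        - (b - 2 * Real.exp (b - a) + Real.exp (2 * (b - a)) / 2) := by
    rw [← intervalIntegral.integral_of_le hab]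
    apply intervalIntegral.integral_eq_sub_of_hasDerivAt (f := fun x =>
      x - 2 * Real.exp (x - a) + Real.exp (2 * (x - a)) / 2)
    · intro x _
      have d1 : HasDerivAt (fun x : ℝ => Real.exp (x - a)) (Real.exp (x - a)) x := by
        simpa using ((hasDerivAt_id x).sub_const a).exp
      have d2 : HasDerivAt (fun x : ℝ => Real.exp (2 * (x - a)))
          (Real.exp (2 * (x - a)) * 2) x := by
        simpa using (((hasDerivAt_id x).sub_const a).const_mul 2).exp
      have d3 := ((hasDerivAt_id x).sub (d1.const_mul 2)).add (d2.div_const 2)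
      refine d3.congr_deriv ?_
      have e : Real.exp (2 * (x - a)) = Real.exp (x - a) * Real.exp (x - a) := by
        rw [← Real.exp_add]; congr 1; ring
      rw [e]
      ring
    · exact hc.intervalIntegrable _ _
  rw [hI]
  unfold psi0
  rw [abs_of_nonneg (by linarith : (0 : ℝ) ≤ a - b)]
  have e1 : Real.exp (2 * b) = Real.exp b * Real.exp b := by
    rw [← Real.exp_add]; congr 1; ring
  have e2 : Real.exp (2 * (b - a)) = (Real.exp b * Real.exp (-a)) * (Real.exp b * Real.exp (-a)) := by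
    rw [← Real.exp_add, ← Real.exp_add]; congr 1; ring
  have e3 : Real.exp (b - a) = Real.exp b * Real.exp (-a) := by
    rw [← Real.exp_add]; congr 1
  have e4 : Real.exp (-(a - b)) = Real.exp b * Real.exp (-a) := by
    rw [← Real.exp_add]; congr 1; ring
  have e5 : Real.exp b * Real.exp (-b) = 1 := by rw [← Real.exp_add]; simp
  rw [sub_self, mul_zero, Real.exp_zero, e1, e2, e3, e4]
  have e6 : Real.exp b * Real.exp b / 2 * (Real.exp (-b) - Real.exp (-a)) ^ 2
      = ((Real.exp b * Real.exp (-b)) - Real.exp b * Real.exp (-a)) ^ 2 / 2 := by ring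
  rw [e6, e5]
  ring

theorem gx_mix (a b : ℝ) :
    Integrable (fun x => (gx x a - gx x b) ^ 2) ∧
      ∫ x, (gx x a - gx x b) ^ 2 = psi0 (a - b) := by
  rcases le_total b a with h | h
  · exact gx_mix_aux h
  · obtain ⟨h1, h2⟩ := gx_mix_aux h
    have e : (fun x => (gx x a - gx x b) ^ 2) = fun x => (gx x b - gx x a) ^ 2 := by
      ext x; ring
    rw [e]
    refine ⟨h1, ?_⟩
    rw [h2, ← psi0_neg, neg_sub]

/-- `e^d - 1 - d ≥ ψ₀(d)` -/
theorem psi0_le (d : ℝ) : psi0 d ≤ Real.exp d - 1 - d := by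
  unfold psi0
  rcases le_total 0 d with h | h
  · rw [abs_of_nonneg h]
    have := Real.self_le_sinh_iff.2 h
    rw [Real.sinh_eq] at this
    linarith
  · rw [abs_of_nonpos h, neg_neg]
    linarith

/-- Young's inequality for `ψ₀` -/
theorem young_psi0 {p : ℝ} (hp : |p| ≤ 1 / 2) (d : ℝ) : p * d ≤ psi0 d + 16 / 25 * p ^ 2 := by
  set P := |p| with hP
  have hP0 : 0 ≤ P := abs_nonneg p
  have hP1 : P < 1 := by linarith
  have h1 : p * d ≤ P * |d| := by
    calc p * d ≤ |p * d| := le_abs_self _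
      _ = P * |d| := abs_mul _ _
  have h2 : p ^ 2 = P ^ 2 := by rw [hP, sq_abs]
  rw [h2]
  -- the logarithmic series
  have hs := Real.hasSum_pow_div_log_of_abs_lt_one (x := P) (by rw [abs_of_nonneg hP0]; exact hP1)
  have h3 := hs.summable.sum_le_tsum (Finset.range 5) (fun i _ => by positivity)
  rw [hs.tsum_eq] at h3
  simp only [Finset.sum_range_succ, Finset.sum_range_zero] at h3
  norm_num at h3
  have h4 : Real.exp (-|d|) ≥ (1 - P) * (1 - |d| - Real.log (1 - P)) := by
    have h5 := Real.add_one_le_exp (-|d| - Real.log (1 - P))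
    rw [Real.exp_sub, Real.exp_log (by linarith)] at h5
    rw [le_div_iff₀ (by linarith)] at h5
    linarith
  unfold psi0
  have h6 : (1 - P) * (1 - |d| - Real.log (1 - P)) ≥ (1 - P) * (1 - |d|
      + (P + P ^ 2 / 2 + P ^ 3 / 3 + P ^ 4 / 4 + P ^ 5 / 5)) := by
    apply mul_le_mul_of_nonneg_left _ (by linarith)
    linarith
  have h7 : (1 - P) * (1 - |d| + (P + P ^ 2 / 2 + P ^ 3 / 3 + P ^ 4 / 4 + P ^ 5 / 5))
      = 1 - |d| + P * |d| - P ^ 2 * (1 / 2 + P / 6 + P ^ 2 / 12 + P ^ 3 / 20 + P ^ 4 / 5) := by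
    ring
  have h8 : 1 / 2 + P / 6 + P ^ 2 / 12 + P ^ 3 / 20 + P ^ 4 / 5 ≤ 16 / 25 := by
    have hP2 : P ≤ 1 / 2 := hp
    have a2 : P ^ 2 ≤ (1 / 2) ^ 2 := pow_le_pow_left₀ hP0 hP2 2
    have a3 : P ^ 3 ≤ (1 / 2) ^ 3 := pow_le_pow_left₀ hP0 hP2 3
    have a4 : P ^ 4 ≤ (1 / 2) ^ 4 := pow_le_pow_left₀ hP0 hP2 4
    linarith
  have h9 := mul_le_mul_of_nonneg_left h8 (sq_nonneg P)
  linarith

end Pool.Agent.Work.MP_6cd513_gt
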