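import Pool.Agent.Work.MP_6cd513_gt.Eta
import Pool.Agent.Work.MP_6cd513_gt.Psi

/-!
# A lower bound for the determinant defect by pair oscillations
-/

open Matrix Finset MeasureTheory

namespace Pool.Agent.Work.MP_6cd513_gt

variable {ι : Type*} [Fintype ι] {k : ℕ}

/-- spectral data of the weighted frame matrix -/
theorem spectral_data (α t : ι → ℝ) (u : ι → Fin k → ℝ)
    (hα : ∀ i, 0 ≤ α i) (hu : ∀ i, u i ⬝ᵥ u i = 1) (hiso : frameM α u = 1)
    (ht : ∀ i, 0 < t i) :
    ∃ (lam : Fin k → ℝ) (w : ι → Fin k → ℝ), (∀ m, 0 < lam m) ∧ (∀ i m, 0 ≤ w i m) ∧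
      (∀ m, ∑ i, w i m = 1) ∧ (∀ i, ∑ m, w i m = α i) ∧ (∀ m, lam m = ∑ i, w i m * t i) ∧
      (frameM (fun i => α i * t i) u).det = ∏ m, lam m ∧
      ∀ g : ι → ℝ, ∑ m, (∑ i, w i m * g i) ^ 2
        ≤ ∑ i, ∑ j, α i * α j * (u i ⬝ᵥ u j) ^ 2 * (g i * g j) := by
  classical
  set M := frameM (fun i => α i * t i) u with hM
  have hH : M.IsHermitian := frameM_isHermitian _ _
  let f : Fin k → Fin k → ℝ := fun m => ⇑(hH.eigenvectorBasis m)
  let lam : Fin k → ℝ := hH.eigenvalues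
  have hMf : ∀ m, M *ᵥ f m = lam m • f m := fun m => hH.mulVec_eigenvectorBasis m
  have hff : ∀ m, f m ⬝ᵥ f m = 1 := by
    intro m
    have h := hH.eigenvectorBasis.orthonormal.1 m
    have h2 : inner ℝ (hH.eigenvectorBasis m) (hH.eigenvectorBasis m) = (1 : ℝ) := by
      rw [real_inner_self_eq_norm_sq, h]; norm_num
    rw [EuclideanSpace.inner_eq_star_dotProduct] at h2
    simpa [f] using h2
  have hpars : ∀ x y : Fin k → ℝ, ∑ m, (x ⬝ᵥ f m) * (y ⬝ᵥ f m) = x ⬝ᵥ y := by
    intro x y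
    have h := hH.eigenvectorBasis.sum_inner_mul_inner (WithLp.toLp 2 x) (WithLp.toLp 2 y)
    simp only [EuclideanSpace.inner_eq_star_dotProduct, star_trivial] at h
    rw [dotProduct_comm x y, ← h]
    refine Finset.sum_congr rfl fun m _ => ?_
    rw [dotProduct_comm x]
  let w : ι → Fin k → ℝ := fun i m => α i * (u i ⬝ᵥ f m) ^ 2
  have hw0 : ∀ i m, 0 ≤ w i m := fun i m => mul_nonneg (hα i) (sq_nonneg _)
  have hw1 : ∀ m, ∑ i, w i m = 1 := by
    intro m
    have h := iso_dot hiso (f m) (f m)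
    rw [hff m] at h
    rw [← h]
    exact Finset.sum_congr rfl fun i _ => by simp only [w]; ring
  have hw2 : ∀ i, ∑ m, w i m = α i := by
    intro i
    have h := hpars (u i) (u i)
    simp only [w]
    rw [← Finset.mul_sum]
    have h2 : ∑ m, (u i ⬝ᵥ f m) ^ 2 = 1 := by
      rw [← hu i, ← h]
      exact Finset.sum_congr rfl fun m _ => by ring
    rw [h2, mul_one]
  have hlam : ∀ m, lam m = ∑ i, w i m * t i := by
    intro m
    have h := dot_frameM_mulVec (fun i => α i * t i) u (f m) (f m)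
    rw [← hM, hMf m, dotProduct_smul, hff m, smul_eq_mul, mul_one] at h
    rw [h]
    exact Finset.sum_congr rfl fun i _ => by simp only [w]; ring
  have hlampos : ∀ m, 0 < lam m := by
    intro m
    rw [hlam m]
    have hex : ∃ i, 0 < w i m := by
      by_contra hcon
      push Not at hcon
      have : ∑ i, w i m ≤ 0 := Finset.sum_nonpos fun i _ => hcon i
      rw [hw1 m] at this
      linarith
    obtain ⟨i, hi⟩ := hex
    exact Finset.sum_pos' (fun i _ => mul_nonneg (hw0 i m) (ht i).le) ⟨i, Finset.mem_univ i,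
      mul_pos hi (ht i)⟩
  have hdet : M.det = ∏ m, lam m := by
    have := hH.det_eq_prod_eigenvalues
    simpa [lam] using this
  refine ⟨lam, w, hlampos, hw0, hw1, hw2, hlam, hdet, ?_⟩
  intro g
  have h1 : ∀ m, (∑ i, w i m * g i) ^ 2 ≤ ∑ i, ∑ j, α i * g i * (α j * g j) * (u i ⬝ᵥ u j) *
      ((u i ⬝ᵥ f m) * (u j ⬝ᵥ f m)) := by
    intro m
    have h2 : f m ⬝ᵥ (frameM (fun i => α i * g i) u *ᵥ f m) = ∑ i, w i m * g i := by
      rw [dot_frameM_mulVec]
      exact Finset.sum_congr rfl fun i _ => by simp only [w]; ring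
    have h3 := cauchy_dot (f m) (frameM (fun i => α i * g i) u *ᵥ f m)
    rw [h2, hff m, one_mul] at h3
    refine h3.trans (le_of_eq ?_)
    rw [frameM_mulVec, sum_dotProduct]
    refine Finset.sum_congr rfl fun i _ => ?_
    rw [dotProduct_sum]
    refine Finset.sum_congr rfl fun j _ => ?_
    rw [smul_dotProduct, dotProduct_smul]
    simp only [smul_eq_mul]
    ring
  refine (Finset.sum_le_sum fun m _ => h1 m).trans (le_of_eq ?_)
  rw [Finset.sum_comm]
  refine Finset.sum_congr rfl fun i _ => ?_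
  rw [Finset.sum_comm]
  refine Finset.sum_congr rfl fun j _ => ?_
  rw [← Finset.mul_sum, hpars (u i) (u j)]
  ring

theorem row_one' {α : ι → ℝ} {u : ι → Fin k → ℝ} (hu : ∀ i, u i ⬝ᵥ u i = 1)
    (hiso : frameM α u = 1) (i : ι) : ∑ j, α j * (u i ⬝ᵥ u j) ^ 2 = 1 := by
  have h := iso_dot hiso (u i) (u i)
  rw [hu i] at h
  rw [← h]
  refine Finset.sum_congr rfl fun j _ => ?_
  rw [dotProduct_comm (u i)]
  ring

/-- symmetric double sums of squared differences -/
theorem sum_sq_diff {α : ι → ℝ} {u : ι → Fin k → ℝ} (hu : ∀ i, u i ⬝ᵥ u i = 1)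
    (hiso : frameM α u = 1) (g : ι → ℝ) :
    ∑ i, ∑ j, α i * α j * (u i ⬝ᵥ u j) ^ 2 * (g i - g j) ^ 2
      = 2 * (∑ i, α i * g i ^ 2 - ∑ i, ∑ j, α i * α j * (u i ⬝ᵥ u j) ^ 2 * (g i * g j)) := by
  have e1 : ∑ i, ∑ j, α i * α j * (u i ⬝ᵥ u j) ^ 2 * (g i) ^ 2 = ∑ i, α i * g i ^ 2 := by
    refine Finset.sum_congr rfl fun i _ => ?_
    have : ∑ j, α i * α j * (u i ⬝ᵥ u j) ^ 2 * (g i) ^ 2
        = α i * g i ^ 2 * ∑ j, α j * (u i ⬝ᵥ u j) ^ 2 := by
      rw [Finset.mul_sum]
      exact Finset.sum_congr rfl fun j _ => by ring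
    rw [this, row_one' hu hiso i, mul_one]
  have e2 : ∑ i, ∑ j, α i * α j * (u i ⬝ᵥ u j) ^ 2 * (g j) ^ 2 = ∑ i, α i * g i ^ 2 := by
    rw [Finset.sum_comm]
    refine Finset.sum_congr rfl fun j _ => ?_
    have : ∑ i, α i * α j * (u i ⬝ᵥ u j) ^ 2 * (g j) ^ 2
        = α j * g j ^ 2 * ∑ i, α i * (u j ⬝ᵥ u i) ^ 2 := by
      rw [Finset.mul_sum]
      exact Finset.sum_congr rfl fun i _ => by rw [dotProduct_comm (u i)]; ring
    rw [this, row_one' hu hiso j, mul_one]
  have e3 : ∑ i, ∑ j, α i * α j * (u i ⬝ᵥ u j) ^ 2 * (g i - g j) ^ 2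
      = ∑ i, ∑ j, α i * α j * (u i ⬝ᵥ u j) ^ 2 * (g i) ^ 2
        + ∑ i, ∑ j, α i * α j * (u i ⬝ᵥ u j) ^ 2 * (g j) ^ 2
        - 2 * ∑ i, ∑ j, α i * α j * (u i ⬝ᵥ u j) ^ 2 * (g i * g j) := by
    rw [Finset.mul_sum, ← Finset.sum_add_distrib, ← Finset.sum_sub_distrib]
    refine Finset.sum_congr rfl fun i _ => ?_
    rw [Finset.mul_sum, ← Finset.sum_add_distrib, ← Finset.sum_sub_distrib]
    exact Finset.sum_congr rfl fun j _ => by ring
  rw [e3, e1, e2]
  ring

/-- **Determinant defect is bounded below by pair oscillations.** -/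
theorem det_osc (α t : ι → ℝ) (u : ι → Fin k → ℝ)
    (hα : ∀ i, 0 ≤ α i) (hu : ∀ i, u i ⬝ᵥ u i = 1) (hiso : frameM α u = 1)
    (ht : ∀ i, 0 < t i) :
    (1 / 2) * ∑ i, ∑ j, α i * α j * (u i ⬝ᵥ u j) ^ 2 * psi0 (Real.log (t i) - Real.log (t j))
      ≤ Real.log (frameM (fun i => α i * t i) u).det - ∑ i, α i * Real.log (t i) := by
  obtain ⟨lam, w, hlampos, hw0, hw1, hw2, hlam, hdet, hS⟩ := spectral_data α t u hα hu hiso ht
  rw [hdet, Real.log_prod (fun m _ => (hlampos m).ne')]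
  -- step 1: the defect as a double sum
  have h1 : ∑ m, ∑ i, w i m * (t i / lam m - 1 - (Real.log (t i) - Real.log (lam m)))
      = ∑ m, Real.log (lam m) - ∑ i, α i * Real.log (t i) := by
    have h2 : ∀ m, ∑ i, w i m * (t i / lam m - 1 - (Real.log (t i) - Real.log (lam m)))
        = Real.log (lam m) - ∑ i, w i m * Real.log (t i) := by
      intro m
      have h3 : ∑ i, w i m * (t i / lam m - 1 - (Real.log (t i) - Real.log (lam m)))
          = (∑ i, w i m * t i) / lam m - ∑ i, w i m - ∑ i, w i m * Real.log (t i)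
            + (∑ i, w i m) * Real.log (lam m) := by
        rw [Finset.sum_div, Finset.sum_mul, ← Finset.sum_sub_distrib, ← Finset.sum_sub_distrib,
          ← Finset.sum_add_distrib]
        exact Finset.sum_congr rfl fun i _ => by ring
      rw [h3, ← hlam m, hw1 m, div_self (hlampos m).ne']
      ring
    rw [Finset.sum_congr rfl fun m _ => h2 m, Finset.sum_sub_distrib, Finset.sum_comm]
    congr 1
    refine Finset.sum_congr rfl fun i _ => ?_
    rw [← Finset.sum_mul, hw2 i]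
  rw [← h1]
  -- step 2: replace by psi0
  have h2 : ∑ m, ∑ i, w i m * psi0 (Real.log (t i) - Real.log (lam m))
      ≤ ∑ m, ∑ i, w i m * (t i / lam m - 1 - (Real.log (t i) - Real.log (lam m))) := by
    refine Finset.sum_le_sum fun m _ => Finset.sum_le_sum fun i _ =>
      mul_le_mul_of_nonneg_left ?_ (hw0 i m)
    have h3 := psi0_le (Real.log (t i) - Real.log (lam m))
    rwa [Real.exp_sub, Real.exp_log (ht i), Real.exp_log (hlampos m)] at h3
  refine le_trans ?_ h2
  -- step 3: integrate the squared-difference inequality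
  have h4 : ∀ x : ℝ, (1 / 2) * ∑ i, ∑ j, α i * α j * (u i ⬝ᵥ u j) ^ 2 *
        (gx x (Real.log (t i)) - gx x (Real.log (t j))) ^ 2
      ≤ ∑ m, ∑ i, w i m * (gx x (Real.log (t i)) - gx x (Real.log (lam m))) ^ 2 := by
    intro x
    set g : ι → ℝ := fun i => gx x (Real.log (t i)) with hg
    set ν : Fin k → ℝ := fun m => gx x (Real.log (lam m)) with hν
    rw [sum_sq_diff hu hiso g]
    have h5 := hS g
    have h6 : ∀ m, ∑ i, w i m * g i ^ 2 - (∑ i, w i m * g i) ^ 2
        ≤ ∑ i, w i m * (g i - ν m) ^ 2 := by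
      intro m
      have h7 : ∑ i, w i m * (g i - ν m) ^ 2 = ∑ i, w i m * g i ^ 2
          - 2 * ν m * ∑ i, w i m * g i + ν m ^ 2 * ∑ i, w i m := by
        rw [Finset.mul_sum, Finset.mul_sum, ← Finset.sum_sub_distrib, ← Finset.sum_add_distrib]
        exact Finset.sum_congr rfl fun i _ => by ring
      rw [h7, hw1 m]
      nlinarith [sq_nonneg (∑ i, w i m * g i - ν m)]
    have h8 := Finset.sum_le_sum fun m (_ : m ∈ (Finset.univ : Finset (Fin k))) => h6 m
    rw [Finset.sum_sub_distrib, Finset.sum_comm] at h8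
    have h9 : ∑ i, ∑ m, w i m * g i ^ 2 = ∑ i, α i * g i ^ 2 := by
      refine Finset.sum_congr rfl fun i _ => ?_
      rw [← Finset.sum_mul, hw2 i]
    rw [h9] at h8
    linarith
  have hL : ∫ x, (1 / 2) * ∑ i, ∑ j, α i * α j * (u i ⬝ᵥ u j) ^ 2 *
        (gx x (Real.log (t i)) - gx x (Real.log (t j))) ^ 2
      = (1 / 2) * ∑ i, ∑ j, α i * α j * (u i ⬝ᵥ u j) ^ 2 *
        psi0 (Real.log (t i) - Real.log (t j)) := by
    rw [integral_const_mul]
    congr 1
    rw [integral_finsetSum _ (fun i _ => integrable_finsetSum _ fun j _ =>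
      (gx_mix _ _).1.const_mul _)]
    refine Finset.sum_congr rfl fun i _ => ?_
    rw [integral_finsetSum _ (fun j _ => (gx_mix _ _).1.const_mul _)]
    refine Finset.sum_congr rfl fun j _ => ?_
    rw [integral_const_mul, (gx_mix _ _).2]
  have hR : ∫ x, ∑ m, ∑ i, w i m * (gx x (Real.log (t i)) - gx x (Real.log (lam m))) ^ 2
      = ∑ m, ∑ i, w i m * psi0 (Real.log (t i) - Real.log (lam m)) := by
    rw [integral_finsetSum _ (fun i _ => integrable_finsetSum _ fun j _ =>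
      (gx_mix _ _).1.const_mul _)]
    refine Finset.sum_congr rfl fun i _ => ?_
    rw [integral_finsetSum _ (fun j _ => (gx_mix _ _).1.const_mul _)]
    refine Finset.sum_congr rfl fun j _ => ?_
    rw [integral_const_mul, (gx_mix _ _).2]
  rw [← hL, ← hR]
  apply integral_mono
  · exact (integrable_finsetSum _ fun i _ => integrable_finsetSum _ fun j _ =>
      (gx_mix _ _).1.const_mul _).const_mul _
  · exact integrable_finsetSum _ fun i _ => integrable_finsetSum _ fun j _ =>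
      (gx_mix _ _).1.const_mul _
  · exact h4

end Pool.Agent.Work.MP_6cd513_gt
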