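import Mathlib

/-!
# The one-dimensional Prekopa-Leindler inequality
-/

open MeasureTheory Set
open scoped ENNReal Pointwise

namespace Pool.Agent.Work.MP_6cd513_gt

/-- translates of a compact set inside `C` -/
theorem vol_le_of_translate {K C : Set ℝ} (a : ℝ) (h : ∀ x ∈ K, a + x ∈ C) :
    volume K ≤ volume C := by
  have h1 : (fun x => a + x) '' K ⊆ C := by
    rintro _ ⟨x, hx, rfl⟩
    exact h x hx
  have h2 := measure_mono (μ := (volume : Measure ℝ)) h1
  rwa [image_add_left, measure_preimage_add] at h2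

theorem bm_compact {K1 K2 C : Set ℝ} (h1 : IsCompact K1) (h2 : IsCompact K2)
    (n1 : K1.Nonempty) (n2 : K2.Nonempty) (h : ∀ a ∈ K1, ∀ b ∈ K2, a + b ∈ C) :
    volume K1 + volume K2 ≤ volume C := by
  have hM := h1.sSup_mem n1
  have hm := h2.sInf_mem n2
  set M := sSup K1
  set m := sInf K2
  set S1 : Set ℝ := (fun x => m + x) '' K1 with hS1
  set S2 : Set ℝ := (fun x => M + x) '' K2 with hS2
  have v1 : volume S1 = volume K1 := by
    rw [hS1, image_add_left, measure_preimage_add]
  have v2 : volume S2 = volume K2 := by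
    rw [hS2, image_add_left, measure_preimage_add]
  have c2 : IsCompact S2 := h2.image (continuous_const.add continuous_id)
  have hsub : S1 ∪ S2 ⊆ C := by
    rintro x (⟨y, hy, rfl⟩ | ⟨y, hy, rfl⟩)
    · show m + y ∈ C
      rw [add_comm]
      exact h y hy m hm
    · exact h M hM y hy
  have hint : volume (S1 ∩ S2) = 0 := by
    refine measure_mono_null (t := {m + M}) ?_ (by simp)
    rintro x ⟨⟨y, hy, rfl⟩, ⟨z, hz, hzy⟩⟩
    have hy1 : y ≤ M := le_csSup h1.bddAbove hy
    have hz1 : m ≤ z := csInf_le h2.bddBelow hz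
    simp only at hzy
    simp only [mem_singleton_iff]
    linarith
  have hadd := measure_union_add_inter (μ := (volume : Measure ℝ)) S1 c2.measurableSet
  rw [hint, add_zero, v1, v2] at hadd
  rw [← hadd]
  exact measure_mono hsub

/-- Brunn-Minkowski on the line -/
theorem bm_line {A B C : Set ℝ} (hA : MeasurableSet A) (hB : MeasurableSet B)
    (hAn : A.Nonempty) (hBn : B.Nonempty) (h : ∀ a ∈ A, ∀ b ∈ B, a + b ∈ C) :
    volume A + volume B ≤ volume C := by
  obtain ⟨a0, ha0⟩ := hAn
  obtain ⟨b0, hb0⟩ := hBn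
  have hAC : volume A ≤ volume C := vol_le_of_translate b0 fun x hx => by
    rw [add_comm]; exact h x hx b0 hb0
  have hBC : volume B ≤ volume C := vol_le_of_translate a0 fun x hx => h a0 ha0 x hx
  by_cases hC : volume C = ⊤
  · rw [hC]; exact le_top
  have hAt : volume A ≠ ⊤ := ne_top_of_le_ne_top hC hAC
  have hBt : volume B ≠ ⊤ := ne_top_of_le_ne_top hC hBC
  -- compact pieces
  have hK : ∀ K1 ⊆ A, IsCompact K1 → ∀ K2 ⊆ B, IsCompact K2 →
      volume K1 + volume K2 ≤ volume C := by
    intro K1 hs1 h1 K2 hs2 h2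
    rcases K1.eq_empty_or_nonempty with rfl | n1
    · rw [measure_empty, zero_add]
      exact (measure_mono hs2).trans hBC
    rcases K2.eq_empty_or_nonempty with rfl | n2
    · rw [measure_empty, add_zero]
      exact (measure_mono hs1).trans hAC
    exact bm_compact h1 h2 n1 n2 fun a ha b hb => h a (hs1 ha) b (hs2 hb)
  have hK1B : ∀ K1 ⊆ A, IsCompact K1 → volume K1 + volume B ≤ volume C := by
    intro K1 hs1 h1
    have ht : volume K1 ≠ ⊤ := ne_top_of_le_ne_top hAt (measure_mono hs1)
    have h3 : volume B ≤ volume C - volume K1 := by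
      rw [hB.measure_eq_iSup_isCompact volume]
      refine iSup_le fun K2 => iSup_le fun hs2 => iSup_le fun h2 => ?_
      exact ENNReal.le_sub_of_add_le_left ht (hK K1 hs1 h1 K2 hs2 h2)
    exact add_le_of_le_tsub_left_of_le ((measure_mono hs1).trans hAC) h3
  have h3 : volume A ≤ volume C - volume B := by
    rw [hA.measure_eq_iSup_isCompact volume]
    refine iSup_le fun K1 => iSup_le fun hs1 => iSup_le fun h1 => ?_
    exact ENNReal.le_sub_of_add_le_right hBt (hK1B K1 hs1 h1)
  exact add_le_of_le_tsub_right_of_le hBC h3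

/-- the weighted version -/
theorem bm_line_weighted {s : ℝ} (hs0 : 0 < s) (hs1 : s < 1) {A B C : Set ℝ}
    (hA : MeasurableSet A) (hB : MeasurableSet B)
    (hAn : A.Nonempty) (hBn : B.Nonempty) (h : ∀ a ∈ A, ∀ b ∈ B, (1 - s) * a + s * b ∈ C) :
    ENNReal.ofReal (1 - s) * volume A + ENNReal.ofReal s * volume B ≤ volume C := by
  have h1s : 0 < 1 - s := by linarith
  have key : ∀ {r : ℝ} (hr : 0 < r) (S : Set ℝ),
      volume ((fun x => r * x) '' S) = ENNReal.ofReal r * volume S := by
    intro r hr S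
    have : (fun x => r * x) '' S = r • S := rfl
    rw [this, Measure.addHaar_smul]
    simp [abs_of_pos hr]
  rw [← key h1s A, ← key hs0 B]
  have mk : ∀ {r : ℝ} (hr : 0 < r) {S : Set ℝ}, MeasurableSet S →
      MeasurableSet ((fun x => r * x) '' S) := by
    intro r hr S hS
    have : (fun x => r * x) '' S = r • S := rfl
    rw [this]
    exact hS.const_smul₀ r
  refine bm_line (mk h1s hA) (mk hs0 hB) (hAn.image _) (hBn.image _) ?_
  rintro _ ⟨x, hx, rfl⟩ _ ⟨y, hy, rfl⟩
  exact h x hx y hy


theorem pl_lintegral {s : ℝ} (hs0 : 0 < s) (hs1 : s < 1) {u v h : ℝ → ℝ}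
    (hu : Measurable u) (hv : Measurable v) (hh : Measurable h)
    (hu0 : ∀ x, 0 ≤ u x) (hv0 : ∀ x, 0 ≤ v x) (hh0 : ∀ x, 0 ≤ h x)
    (hu1 : ∀ x, u x ≤ 1) (hv1 : ∀ x, v x ≤ 1)
    (hus : ∀ t < 1, ∃ x, t < u x) (hvs : ∀ t < 1, ∃ x, t < v x)
    (H : ∀ x y, (u x) ^ (1 - s) * (v y) ^ s ≤ h ((1 - s) * x + s * y)) :
    ENNReal.ofReal (1 - s) * (∫⁻ x, ENNReal.ofReal (u x)) +
      ENNReal.ofReal s * (∫⁻ x, ENNReal.ofReal (v x)) ≤ ∫⁻ x, ENNReal.ofReal (h x) := by
  have h1s : 0 < 1 - s := by linarith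
  rw [lintegral_eq_lintegral_meas_lt volume (Filter.Eventually.of_forall hu0) hu.aemeasurable,
    lintegral_eq_lintegral_meas_lt volume (Filter.Eventually.of_forall hv0) hv.aemeasurable,
    lintegral_eq_lintegral_meas_lt volume (Filter.Eventually.of_forall hh0) hh.aemeasurable]
  have hanti : ∀ f : ℝ → ℝ, Measurable fun t => volume {a : ℝ | t < f a} := by
    intro f
    apply Antitone.measurable
    intro a b hab
    exact measure_mono fun x hx => lt_of_le_of_lt hab hx
  rw [← lintegral_const_mul _ (hanti u), ← lintegral_const_mul _ (hanti v),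
    ← lintegral_add_left ((hanti u).const_mul _)]
  apply setLIntegral_mono' measurableSet_Ioi
  intro t ht
  have ht0 : 0 < t := ht
  rcases lt_or_ge t 1 with h1 | h1
  · refine bm_line_weighted hs0 hs1 (measurableSet_lt measurable_const hu)
      (measurableSet_lt measurable_const hv) (hus t h1) (hvs t h1) ?_
    intro a ha b hb
    have ha' : t < u a := ha
    have hb' : t < v b := hb
    show t < h ((1 - s) * a + s * b)
    refine lt_of_lt_of_le ?_ (H a b)
    calc t = t ^ (1 - s) * t ^ s := by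
          rw [← Real.rpow_add ht0, sub_add_cancel, Real.rpow_one]
      _ < u a ^ (1 - s) * v b ^ s := by
          apply mul_lt_mul'' (Real.rpow_lt_rpow ht0.le ha' h1s) (Real.rpow_lt_rpow ht0.le hb' hs0)
            (Real.rpow_nonneg ht0.le _) (Real.rpow_nonneg ht0.le _)
  · have e1 : {a : ℝ | t < u a} = ∅ := by
      ext x
      simp only [mem_setOf_eq, mem_empty_iff_false, iff_false, not_lt]
      exact (hu1 x).trans h1
    have e2 : {a : ℝ | t < v a} = ∅ := by
      ext x
      simp only [mem_setOf_eq, mem_empty_iff_false, iff_false, not_lt]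
      exact (hv1 x).trans h1
    rw [e1, e2]
    simp

/-- **Prekopa-Leindler on the line** for bounded integrable functions. -/
theorem pl1 {s : ℝ} (hs0 : 0 < s) (hs1 : s < 1) {u v h : ℝ → ℝ}
    (hu : Measurable u) (hv : Measurable v) (hh : Measurable h)
    (hu0 : ∀ x, 0 ≤ u x) (hv0 : ∀ x, 0 ≤ v x) (hh0 : ∀ x, 0 ≤ h x)
    (hub : BddAbove (range u)) (hvb : BddAbove (range v))
    (hui : Integrable u) (hvi : Integrable v) (hhi : Integrable h)
    (H : ∀ x y, (u x) ^ (1 - s) * (v y) ^ s ≤ h ((1 - s) * x + s * y)) :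
    (∫ x, u x) ^ (1 - s) * (∫ x, v x) ^ s ≤ ∫ x, h x := by
  have h1s : 0 < 1 - s := by linarith
  have hI0 : 0 ≤ ∫ x, h x := integral_nonneg hh0
  set U := sSup (range u) with hU
  set V := sSup (range v) with hV
  have huU : ∀ x, u x ≤ U := fun x => le_csSup hub (mem_range_self x)
  have hvV : ∀ x, v x ≤ V := fun x => le_csSup hvb (mem_range_self x)
  rcases (hu0 0 |>.trans (huU 0)).eq_or_lt with h0 | hUpos
  · have : ∀ x, u x = 0 := fun x => le_antisymm (h0 ▸ huU x) (hu0 x)
    simp only [this, integral_zero]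
    rw [Real.zero_rpow h1s.ne', zero_mul]
    exact hI0
  rcases (hv0 0 |>.trans (hvV 0)).eq_or_lt with h0 | hVpos
  · have : ∀ x, v x = 0 := fun x => le_antisymm (h0 ▸ hvV x) (hv0 x)
    simp only [this, integral_zero]
    rw [Real.zero_rpow hs0.ne', mul_zero]
    exact hI0
  set C : ℝ := U ^ (1 - s) * V ^ s with hC
  have hC0 : 0 < C := mul_pos (Real.rpow_pos_of_pos hUpos _) (Real.rpow_pos_of_pos hVpos _)
  have key := pl_lintegral hs0 hs1 (u := fun x => u x / U) (v := fun x => v x / V)
    (h := fun x => h x / C) (hu.div_const _) (hv.div_const _) (hh.div_const _)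
    (fun x => div_nonneg (hu0 x) hUpos.le) (fun x => div_nonneg (hv0 x) hVpos.le)
    (fun x => div_nonneg (hh0 x) hC0.le)
    (fun x => (div_le_one hUpos).2 (huU x)) (fun x => (div_le_one hVpos).2 (hvV x))
    (fun t ht => by
      obtain ⟨_, ⟨x, rfl⟩, hx⟩ := exists_lt_of_lt_csSup (range_nonempty u)
        (show t * U < sSup (range u) by rw [← hU]; nlinarith)
      exact ⟨x, by rw [lt_div_iff₀ hUpos]; exact hx⟩)
    (fun t ht => by
      obtain ⟨_, ⟨x, rfl⟩, hx⟩ := exists_lt_of_lt_csSup (range_nonempty v)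
        (show t * V < sSup (range v) by rw [← hV]; nlinarith)
      exact ⟨x, by rw [lt_div_iff₀ hVpos]; exact hx⟩)
    (fun x y => by
      rw [Real.div_rpow (hu0 x) hUpos.le, Real.div_rpow (hv0 y) hVpos.le, div_mul_div_comm]
      exact div_le_div_of_nonneg_right (H x y) hC0.le)
  rw [← ofReal_integral_eq_lintegral_ofReal (hui.div_const _)
      (Filter.Eventually.of_forall fun x => div_nonneg (hu0 x) hUpos.le),
    ← ofReal_integral_eq_lintegral_ofReal (hvi.div_const _)
      (Filter.Eventually.of_forall fun x => div_nonneg (hv0 x) hVpos.le),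
    ← ofReal_integral_eq_lintegral_ofReal (hhi.div_const _)
      (Filter.Eventually.of_forall fun x => div_nonneg (hh0 x) hC0.le),
    integral_div, integral_div, integral_div,
    ← ENNReal.ofReal_mul h1s.le, ← ENNReal.ofReal_mul hs0.le] at key
  have a1 : 0 ≤ (∫ x, u x) / U := div_nonneg (integral_nonneg hu0) hUpos.le
  have a2 : 0 ≤ (∫ x, v x) / V := div_nonneg (integral_nonneg hv0) hVpos.le
  rw [← ENNReal.ofReal_add (mul_nonneg h1s.le a1) (mul_nonneg hs0.le a2),
    ENNReal.ofReal_le_ofReal_iff (div_nonneg hI0 hC0.le)] at key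
  have hag := Real.geom_mean_le_arith_mean2_weighted h1s.le hs0.le a1 a2 (by ring)
  rw [Real.div_rpow (integral_nonneg hu0) hUpos.le, Real.div_rpow (integral_nonneg hv0) hVpos.le,
    div_mul_div_comm] at hag
  have h3 := hag.trans key
  rwa [div_le_div_iff_of_pos_right hC0] at h3

end Pool.Agent.Work.MP_6cd513_gt
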