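import Pool.Agent.Work.MP_6cd513_gt.CertE

/-!
# Numerical lower bound for the pair expectation
-/

namespace Pool.Agent.Work.MP_6cd513_gt

theorem inv_sqrt3_le : 1 / Real.sqrt 3 ≤ 57736 / 100000 := by
  rw [div_le_iff₀ (Real.sqrt_pos.2 (by norm_num))]
  have : (100000 / 57736 : ℝ) ≤ Real.sqrt 3 := Real.le_sqrt_of_sq_le (by norm_num)
  nlinarith

theorem inv_sqrt2_ge : (17677 / 100000 : ℝ) ≤ 1 / (4 * Real.sqrt 2) := by
  rw [le_div_iff₀ (mul_pos (by norm_num) (Real.sqrt_pos.2 (by norm_num)))]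
  have : Real.sqrt 2 ≤ 141422 / 100000 := Real.sqrt_le_iff.2 ⟨by norm_num, by norm_num⟩
  nlinarith

/-- the reduction of the pair estimate to a polynomial inequality -/
theorem Tf_ge {c2 c3 κ y : ℝ} (hc2 : 0 ≤ c2) (hc3 : 0 ≤ c3) (hy0 : 0 ≤ y) (hy1 : y ≤ 1)
    (hP : 57736 / 100000 * (1 - y / 8) ^ 2 * (c2 / 18 * (1 + y) *
        (1 + (1 - y / 8) + (1 - y / 8) ^ 2) + 8 / 75)
      ≤ (1 + (1 - y / 8)) * (17677 / 100000 - κ + c3 * y / 48)) :
    κ * y ≤ Tf c2 c3 y := by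
  set g : ℝ := 1 - y / 8 with hg
  have hg0 : 0 < g := by rw [hg]; linarith
  set b : ℝ := 1 / Real.sqrt 3 with hb
  set a : ℝ := 1 / Real.sqrt (3 + y) with ha
  have hs3 : 0 < Real.sqrt 3 := Real.sqrt_pos.2 (by norm_num)
  have hsy : 0 < Real.sqrt (3 + y) := Real.sqrt_pos.2 (by linarith)
  have hb0 : 0 < b := one_div_pos.2 hs3
  have ha0 : 0 < a := one_div_pos.2 hsy
  have hb2 : b ^ 2 = 1 / 3 := by rw [hb, div_pow, Real.sq_sqrt (by norm_num)]; norm_num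
  have ha2 : a ^ 2 = 1 / (3 + y) := by rw [ha, div_pow, Real.sq_sqrt (by linarith)]; norm_num
  have hbU : b ≤ 57736 / 100000 := inv_sqrt3_le
  -- `a ≤ g b`
  have hagb : a ≤ g * b := by
    apply le_of_sq_le_sq _ (by positivity)
    rw [mul_pow, ha2, hb2, hg]
    rw [div_le_iff₀ (by linarith)]
    have h1 : 0 ≤ y * (1 - y) := mul_nonneg hy0 (by linarith)
    nlinarith [mul_nonneg hy0 h1, mul_nonneg (mul_nonneg hy0 hy0) hy0]
  -- `b - a`
  have hba : b - a = y * (a ^ 2 * b ^ 2) / (a + b) := by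
    rw [eq_div_iff (by positivity)]
    have h1 : (b - a) * (a + b) = b ^ 2 - a ^ 2 := by ring
    rw [h1, ha2, hb2]
    have : (3 : ℝ) + y ≠ 0 := by linarith
    field_simp
    ring
  have hba2 : b - a ≤ y * (g ^ 2 * b) / (3 * (1 + g)) := by
    rw [hba, hb2, div_le_div_iff₀ (by positivity) (by positivity)]
    have h2 : a ^ 2 * (1 + g) ≤ g ^ 2 * b * (a + b) := by
      -- `a²(1+g) ≤ g²b(a+b)` follows from `a ≤ g b`
      have h3 : g ^ 2 * b * (a + b) - a ^ 2 * (1 + g) = (g * b - a) * (g * b + (1 + g) * a) := by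
        ring
      have h4 : 0 ≤ (g * b - a) * (g * b + (1 + g) * a) :=
        mul_nonneg (sub_nonneg.2 hagb) (by positivity)
      linarith
    have h5 := mul_le_mul_of_nonneg_left h2 hy0
    nlinarith
  have hb3 : b ^ 3 - a ^ 3 ≤ y * (g ^ 2 * b * (1 + g + g ^ 2)) / (9 * (1 + g)) := by
    have h1 : b ^ 3 - a ^ 3 = (b - a) * (b ^ 2 + a * b + a ^ 2) := by ring
    have h2 : b ^ 2 + a * b + a ^ 2 ≤ (1 + g + g ^ 2) / 3 := by
      have h3 : a * b ≤ g * b ^ 2 := by nlinarith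
      have h4 : a ^ 2 ≤ g ^ 2 * b ^ 2 := by
        rw [← mul_pow]; exact pow_le_pow_left₀ ha0.le hagb 2
      rw [hb2] at h3 h4 ⊢
      linarith
    have h5 : 0 ≤ y * (g ^ 2 * b) / (3 * (1 + g)) := by positivity
    rw [h1]
    calc (b - a) * (b ^ 2 + a * b + a ^ 2)
        ≤ (y * (g ^ 2 * b) / (3 * (1 + g))) * ((1 + g + g ^ 2) / 3) :=
          mul_le_mul hba2 h2 (by positivity) h5
      _ = _ := by
          field_simp
          ring
  -- the cubic term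
  set r := Real.sqrt (4 + 2 * y) with hr
  have hr0 : 0 < r := Real.sqrt_pos.2 (by linarith)
  set c : ℝ := 1 / r with hc
  have hc0 : 0 < c := one_div_pos.2 hr0
  have hc2' : c ^ 2 = 1 / (4 + 2 * y) := by rw [hc, div_pow, Real.sq_sqrt (by linarith)]; norm_num
  have hcle : c ≤ 1 / 2 := by
    apply le_of_sq_le_sq _ (by norm_num)
    rw [hc2']
    rw [div_le_iff₀ (by linarith)]
    nlinarith
  have hc6 : 1 / 6 ≤ c ^ 2 := by
    rw [hc2']
    apply one_div_le_one_div_of_le (by linarith)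
    linarith
  have hc3' : y / 18 ≤ 1 / 8 - c ^ 3 := by
    have h1 : (1 / 2 - c) * (2 * (1 / 2 + c)) = y * c ^ 2 := by
      have h2 : (1 / 2 - c) * (2 * (1 / 2 + c)) = 1 / 2 - 2 * c ^ 2 := by ring
      rw [h2, hc2']
      have : (4 : ℝ) + 2 * y ≠ 0 := by linarith
      field_simp
      ring
    have h3 : 1 / 8 - c ^ 3 = (1 / 2 - c) * (1 / 4 + c / 2 + c ^ 2) := by ring
    have h4 : y * c ^ 2 * (1 / 4 + c / 2 + c ^ 2) = (1 / 8 - c ^ 3) * (2 * (1 / 2 + c)) := by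
      rw [h3, ← h1]; ring
    have h5 : (1 / 18) * (2 * (1 / 2 + c)) ≤ c ^ 2 * (1 / 4 + c / 2 + c ^ 2) := by
      have h6 : 1 / 6 * (1 / 4 + c / 2 + 1 / 6) ≤ c ^ 2 * (1 / 4 + c / 2 + c ^ 2) :=
        mul_le_mul hc6 (by linarith) (by positivity) (sq_nonneg c)
      nlinarith
    have h7 := mul_le_mul_of_nonneg_left h5 hy0
    have h8 : 0 < 2 * (1 / 2 + c) := by positivity
    have h9 : (y / 18) * (2 * (1 / 2 + c)) ≤ (1 / 8 - c ^ 3) * (2 * (1 / 2 + c)) := by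
      rw [← h4]; linarith
    exact le_of_mul_le_mul_right h9 h8
  -- assemble
  have e1 : 1 / (3 * Real.sqrt 3) = b ^ 3 := by
    have : b ^ 3 = b ^ 2 * b := by ring
    rw [this, hb2, hb]; field_simp
  have e2 : 1 / ((3 + y) * Real.sqrt (3 + y)) = a ^ 3 := by
    have : a ^ 3 = a ^ 2 * a := by ring
    rw [this, ha2, ha]; field_simp
  have e3 : 1 / ((4 + 2 * y) * r) = c ^ 3 := by
    have : c ^ 3 = c ^ 2 * c := by ring
    rw [this, hc2', hc]; field_simp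
  unfold Tf
  rw [← hr, e1, e2, e3, ← hb, ← ha]
  have t1 : 17677 / 100000 * y ≤ y / (4 * Real.sqrt 2) := by
    have := mul_le_mul_of_nonneg_right inv_sqrt2_ge hy0
    calc 17677 / 100000 * y ≤ 1 / (4 * Real.sqrt 2) * y := this
      _ = _ := by ring
  have t2 : c2 / 2 * ((1 + y) * (b ^ 3 - a ^ 3))
      ≤ c2 / 2 * ((1 + y) * (y * (g ^ 2 * b * (1 + g + g ^ 2)) / (9 * (1 + g)))) :=
    mul_le_mul_of_nonneg_left (mul_le_mul_of_nonneg_left hb3 (by linarith)) (by positivity)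
  have t3 : 3 * c3 / 8 * (y * (y / 18)) ≤ 3 * c3 / 8 * (y * (1 / 8 - c ^ 3)) :=
    mul_le_mul_of_nonneg_left (mul_le_mul_of_nonneg_left hc3' hy0) (by positivity)
  have t4 : 8 / 25 * (b - a) ≤ 8 / 25 * (y * (g ^ 2 * b) / (3 * (1 + g))) :=
    mul_le_mul_of_nonneg_left hba2 (by norm_num)
  have hmain : κ * y ≤ 17677 / 100000 * y
      - c2 / 2 * ((1 + y) * (y * (g ^ 2 * b * (1 + g + g ^ 2)) / (9 * (1 + g))))
      + 3 * c3 / 8 * (y * (y / 18)) - 8 / 25 * (y * (g ^ 2 * b) / (3 * (1 + g))) := by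
    have hP2 : b * g ^ 2 * (c2 / 18 * (1 + y) * (1 + g + g ^ 2) + 8 / 75)
        ≤ (1 + g) * (17677 / 100000 - κ + c3 * y / 48) := by
      refine le_trans ?_ hP
      apply mul_le_mul_of_nonneg_right (mul_le_mul_of_nonneg_right hbU (sq_nonneg g))
      positivity
    have e4 : 17677 / 100000 * y
      - c2 / 2 * ((1 + y) * (y * (g ^ 2 * b * (1 + g + g ^ 2)) / (9 * (1 + g))))
      + 3 * c3 / 8 * (y * (y / 18)) - 8 / 25 * (y * (g ^ 2 * b) / (3 * (1 + g))) - κ * y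
      = y / (1 + g) * ((1 + g) * (17677 / 100000 - κ + c3 * y / 48)
        - b * g ^ 2 * (c2 / 18 * (1 + y) * (1 + g + g ^ 2) + 8 / 75)) := by
      field_simp
      ring
    have h1 : 0 ≤ y / (1 + g) * ((1 + g) * (17677 / 100000 - κ + c3 * y / 48)
        - b * g ^ 2 * (c2 / 18 * (1 + y) * (1 + g + g ^ 2) + 8 / 75)) :=
      mul_nonneg (by positivity) (sub_nonneg.2 hP2)
    linarith
  linarith

theorem bern5 {y : ℝ} (hy0 : 0 ≤ y) (hy1 : y ≤ 1) :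
    0 ≤ (1 - y) ^ 5 ∧ 0 ≤ y * (1 - y) ^ 4 ∧ 0 ≤ y ^ 2 * (1 - y) ^ 3 ∧ 0 ≤ y ^ 3 * (1 - y) ^ 2 ∧
      0 ≤ y ^ 4 * (1 - y) ∧ 0 ≤ y ^ 5 := by
  have h : 0 ≤ 1 - y := by linarith
  refine ⟨?_, ?_, ?_, ?_, ?_, ?_⟩ <;> positivity

theorem Tf_num1 {y : ℝ} (hy0 : 0 ≤ y) (hy1 : y ≤ 1) :
    898 / 10000 * y ≤ Tf (21 / 20) (9 / 10) y := by
  apply Tf_ge (by norm_num) (by norm_num) hy0 hy1
  obtain ⟨h0, h1, h2, h3, h4, h5⟩ := bern5 hy0 hy1
  nlinarith [h0, h1, h2, h3, h4, h5]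

theorem Tf_num2 {y : ℝ} (hy0 : 0 ≤ y) (hy1 : y ≤ 1) :
    762 / 10000 * y ≤ Tf (4 / 3) (4 / 3) y := by
  apply Tf_ge (by norm_num) (by norm_num) hy0 hy1
  obtain ⟨h0, h1, h2, h3, h4, h5⟩ := bern5 hy0 hy1
  nlinarith [h0, h1, h2, h3, h4, h5]

theorem par1 : Par (6 / 7) (21 / 20) (9 / 10) :=
  ⟨by norm_num, by norm_num, by norm_num, by norm_num⟩

theorem par2 : Par 1 (4 / 3) (4 / 3) :=
  ⟨by norm_num, by norm_num, by norm_num, by norm_num⟩

end Pool.Agent.Work.MP_6cd513_gt
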