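import Pool.Agent.Work.MP_6cd513_gt.HLnum

/-!
# The pair inequality for a maximiser
-/

open Matrix Finset MeasureTheory

namespace Pool.Agent.Work.MP_6cd513_gt

variable {k : ℕ}

theorem card_grp_pos {n : ℕ} (v : Fin n → Fin k → ℝ) (i : Fin n) : 1 ≤ (grp v i).card :=
  Finset.card_pos.2 ⟨i, self_mem_grp v i⟩

theorem bA_comm {n : ℕ} (l : ℕ) (v : Fin n → Fin k → ℝ) (i j : Fin n) : bA l v j i = bA l v i j := by
  unfold bA
  simp only [and_comm]

theorem cA_comm {n : ℕ} (l : ℕ) (v : Fin n → Fin k → ℝ) (i j : Fin n) : cA l v j i = cA l v i j := by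
  unfold cA
  simp only [and_comm]

namespace MaxData

variable {l n : ℕ} {v : Fin n → Fin k → ℝ} {s : Fin n → ℝ} (M : MaxData k l n v s)
include M

/-- the parameter `u` with `α_i = 1 / (l + u)` -/
theorem exists_u (i : Fin n) : ∃ u : ℝ, 0 ≤ u ∧ u ≤ 1 ∧ v i ⬝ᵥ v i = 1 / (l + u) := by
  have hl : (1 : ℝ) ≤ l := by exact_mod_cast M.hl
  have h1 := M.lev_le i
  have h2 := M.le_lev i
  have h0 := M.lev_pos i
  refine ⟨1 / (v i ⬝ᵥ v i) - l, ?_, ?_, ?_⟩
  · rw [sub_nonneg, le_div_iff₀ h0]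
    rw [le_div_iff₀ (by linarith)] at h1
    linarith
  · rw [sub_le_iff_le_add, div_le_iff₀ h0]
    rw [div_le_iff₀ (by linarith)] at h2
    linarith
  · rw [add_sub_cancel, one_div_one_div]

/-- non-parallel non-orthogonal vectors have groups of mass less than one -/
theorem mass_lt {i j : Fin n} (hx : xx v i j ≠ 1) (hx0 : 0 < xx v i j) :
    ((grp v i).card : ℝ) * (v i ⬝ᵥ v i) < 1 := by
  have h := M.two_groups hx
  have hi := M.lev_pos i
  have hj := M.lev_pos j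
  have ci : (1 : ℝ) ≤ (grp v i).card := by exact_mod_cast card_grp_pos v i
  have cj : (1 : ℝ) ≤ (grp v j).card := by exact_mod_cast card_grp_pos v j
  rcases (M.grp_mass_le i).lt_or_eq with h1 | h1
  · exact h1
  · exfalso
    rw [h1, sub_self, zero_mul] at h
    have : 0 < 1 * (((grp v j).card : ℝ) * (v j ⬝ᵥ v j)) * xx v i j := by positivity
    linarith

theorem card_le {i j : Fin n} (hx : xx v i j ≠ 1) (hx0 : 0 < xx v i j) :
    (grp v i).card ≤ l := by
  have h := M.mass_lt hx hx0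
  have h2 := M.le_lev i
  have hl : (0 : ℝ) < (l : ℝ) + 1 := by positivity
  have h3 : ((grp v i).card : ℝ) * (1 / ((l : ℝ) + 1)) < 1 :=
    lt_of_le_of_lt (mul_le_mul_of_nonneg_left h2 (Nat.cast_nonneg _)) h
  rw [mul_one_div, div_lt_one hl] at h3
  have : (grp v i).card < l + 1 := by exact_mod_cast h3
  omega

/-- the heavy-light pairs -/
theorem pair_HL (hl2 : 2 ≤ l) (hl5 : l ≤ 5) {i j : Fin n} (hx : xx v i j ≠ 1)
    (hx0 : 0 < xx v i j) (hi : (grp v i).card = l) (hj : (grp v j).card < l) :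
    Rv l (v i ⬝ᵥ v i) (grp v i).card + Rv l (v j ⬝ᵥ v j) (grp v j).card
      ≤ (1 - xx v i j) * (175 / 1000 - 856 / 10000 *
          c2f (1 - (grp v i).card * (v i ⬝ᵥ v i)) (2 / 3))
        + (1 - xx v i j) * (175 / 1000 - 856 / 10000 *
          c2f (1 - (grp v j).card * (v j ⬝ᵥ v j)) (2 / 3)) := by
  have hl : (2 : ℝ) ≤ l := by exact_mod_cast hl2
  have h := M.two_groups hx
  have hmi := M.mass_lt hx hx0
  obtain ⟨u, hu0, hu1, hu⟩ := M.exists_u i
  obtain ⟨w, hw0, hw1, hw⟩ := M.exists_u j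
  have cj := card_grp_pos v j
  have cj' : (1 : ℝ) ≤ (grp v j).card := by exact_mod_cast cj
  rw [hi, hu] at hmi
  rw [hi, hu, hw] at h
  rw [hi, hu, hw]
  have hlu : (0 : ℝ) < l + u := by linarith
  have hlw : (0 : ℝ) < l + w := by linarith
  have hu0' : 0 < u := by
    rw [mul_one_div, div_lt_one hlu] at hmi
    linarith
  set m := (grp v j).card with hm
  refine hl_num hl2 hl5 cj hj hu0' hu1 hw0 hw1 (by linarith [M.xx_le_one i j]) ?_
  have e : (1 - (l : ℝ) * (1 / (l + u))) * (1 - m * (1 / (l + w)))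
      = (l * (1 / (l + u))) * (m * (1 / (l + w))) * (u * (l + w - m) / (l * m)) := by
    field_simp
    ring
  rw [e] at h
  have hpos : 0 < ((l : ℝ) * (1 / (l + u))) * (m * (1 / (l + w))) := by positivity
  have h2 := le_of_mul_le_mul_left h hpos
  linarith

/-- the heavy-heavy pairs -/
theorem pair_HH (hl2 : 2 ≤ l) (hl5 : l ≤ 5) {i j : Fin n} (hx : xx v i j ≠ 1)
    (hx0 : 0 < xx v i j) (hi : (grp v i).card = l) (hj : (grp v j).card = l) :
    3 / 4 ≤ 1 - xx v i j ∧ Rv l (v i ⬝ᵥ v i) (grp v i).card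
      ≤ (1 - xx v i j) * (2030 / 10000 - 1773 / 10000 *
          c2f (1 - (grp v i).card * (v i ⬝ᵥ v i)) (4 / 5)) := by
  have hl : (2 : ℝ) ≤ l := by exact_mod_cast hl2
  have h := M.two_groups hx
  have hmi := M.mass_lt hx hx0
  obtain ⟨u, hu0, hu1, hu⟩ := M.exists_u i
  obtain ⟨w, hw0, hw1, hw⟩ := M.exists_u j
  rw [hi, hu] at hmi
  rw [hi, hj, hu, hw] at h
  rw [hi, hu]
  have hlu : (0 : ℝ) < l + u := by linarith
  have hlw : (0 : ℝ) < l + w := by linarith
  have hu0' : 0 < u := by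
    rw [mul_one_div, div_lt_one hlu] at hmi
    linarith
  have e : (1 - (l : ℝ) * (1 / (l + u))) * (1 - l * (1 / (l + w)))
      = (l * (1 / (l + u))) * (l * (1 / (l + w))) * (u * w / l ^ 2) := by
    field_simp
    ring
  rw [e] at h
  have hpos : 0 < ((l : ℝ) * (1 / (l + u))) * (l * (1 / (l + w))) := by positivity
  have h2 := le_of_mul_le_mul_left h hpos
  have h3 : u * w / (l : ℝ) ^ 2 ≤ u / l ^ 2 := by
    apply div_le_div_of_nonneg_right _ (by positivity)
    nlinarith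
  have h4 : u / (l : ℝ) ^ 2 ≤ 1 / 4 := by
    rw [div_le_div_iff₀ (by positivity) (by norm_num)]
    nlinarith
  exact ⟨by linarith, hh_num hl2 hl5 hu0' hu1 (by linarith [M.xx_le_one i j]) (by linarith)⟩

/-- the pair inequality, given the light-light case -/
theorem pair_target (hl2 : 2 ≤ l) (hl5 : l ≤ 5)
    (hLL : ∀ i j, xx v i j ≠ 1 → (grp v i).card < l →
      Rv l (v i ⬝ᵥ v i) (grp v i).card ≤ (1 - xx v i j) * (175 / 1000 - 856 / 10000 *
          c2f (1 - (grp v i).card * (v i ⬝ᵥ v i)) (2 / 3)))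
    (i j : Fin n) (hx : xx v i j ≠ 1) (hx0 : 0 < xx v i j) :
    Rv l (v i ⬝ᵥ v i) (grp v i).card + Rv l (v j ⬝ᵥ v j) (grp v j).card
      ≤ Tp (bA l v i j) (cA l v i j) (1 - (grp v i).card * (v i ⬝ᵥ v i)) (1 - xx v i j)
        + Tp (bA l v i j) (cA l v i j) (1 - (grp v j).card * (v j ⬝ᵥ v j)) (1 - xx v i j) := by
  have hx' : xx v j i ≠ 1 := by rwa [xx_comm]
  have hx0' : 0 < xx v j i := by rwa [xx_comm]
  have hmi := M.mass_lt hx hx0
  have hmj := M.mass_lt hx' hx0'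
  have hci := M.card_le hx hx0
  have hcj := M.card_le hx' hx0'
  have hi := M.lev_pos i
  have hj := M.lev_pos j
  have hri0 : 0 ≤ 1 - (grp v i).card * (v i ⬝ᵥ v i) := by linarith
  have hri1 : 1 - (grp v i).card * (v i ⬝ᵥ v i) ≤ 1 := by
    have : 0 ≤ ((grp v i).card : ℝ) * (v i ⬝ᵥ v i) := by positivity
    linarith
  have hrj0 : 0 ≤ 1 - (grp v j).card * (v j ⬝ᵥ v j) := by linarith
  have hrj1 : 1 - (grp v j).card * (v j ⬝ᵥ v j) ≤ 1 := by
    have : 0 ≤ ((grp v j).card : ℝ) * (v j ⬝ᵥ v j) := by positivity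
    linarith
  have hy0 : 0 ≤ 1 - xx v i j := by linarith [M.xx_le_one i j]
  have hy1 : 1 - xx v i j ≤ 1 := by linarith
  have t1 := Tp_23 hri0 hri1 hy0 hy1
  have t2 := Tp_23 hrj0 hrj1 hy0 hy1
  by_cases h1 : (grp v i).card = l
  · by_cases h2 : (grp v j).card = l
    · have hb : bA l v i j = 4 / 5 := by unfold bA; rw [if_pos ⟨h1, h2⟩]
      have hc : cA l v i j = 3 / 4 := by unfold cA; rw [if_pos ⟨h1, h2⟩]
      obtain ⟨hy, ha⟩ := M.pair_HH hl2 hl5 hx hx0 h1 h2
      obtain ⟨hy', hb'⟩ := M.pair_HH hl2 hl5 hx' hx0' h2 h1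
      rw [xx_comm v j i] at hb'
      rw [hb, hc]
      exact add_le_add (ha.trans (Tp_45 hri0 hri1 hy hy1)) (hb'.trans (Tp_45 hrj0 hrj1 hy hy1))
    · have hb : bA l v i j = 2 / 3 := by unfold bA; rw [if_neg (fun h => h2 h.2)]
      have hc : cA l v i j = 17 / 25 := by unfold cA; rw [if_neg (fun h => h2 h.2)]
      rw [hb, hc]
      exact (M.pair_HL hl2 hl5 hx hx0 h1 (lt_of_le_of_ne hcj h2)).trans (add_le_add t1 t2)
  · have hb : bA l v i j = 2 / 3 := by unfold bA; rw [if_neg (fun h => h1 h.1)]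
    have hc : cA l v i j = 17 / 25 := by unfold cA; rw [if_neg (fun h => h1 h.1)]
    rw [hb, hc]
    have h1' := lt_of_le_of_ne hci h1
    by_cases h2 : (grp v j).card = l
    · have h3 := M.pair_HL hl2 hl5 hx' hx0' h2 h1'
      rw [xx_comm v j i] at h3
      linarith
    · have h2' := lt_of_le_of_ne hcj h2
      have a1 := hLL i j hx h1'
      have a2 := hLL j i hx' h2'
      rw [xx_comm v j i] at a2
      linarith

end MaxData

end Pool.Agent.Work.MP_6cd513_gt
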