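import Pool.Agent.Work.MP_6cd513_gt.Psi

/-!
# Young's inequality for `ψ₀` with larger dual variables
-/

namespace Pool.Agent.Work.MP_6cd513_gt

/-- Young's inequality with the exact conjugate replaced by a partial sum of its series -/
theorem young_series {P p : ℝ} (hP : P = |p|) (hP1 : P < 1) (N : ℕ) (d S : ℝ)
    (hS : P - (1 - P) * ∑ i ∈ Finset.range N, P ^ (i + 1) / (i + 1) ≤ S) :
    p * d ≤ psi0 d + S := by
  have hP0 : 0 ≤ P := by rw [hP]; exact abs_nonneg p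
  have h1 : p * d ≤ P * |d| := by
    calc p * d ≤ |p * d| := le_abs_self _
      _ = P * |d| := by rw [hP]; exact abs_mul _ _
  have hs := Real.hasSum_pow_div_log_of_abs_lt_one (x := P) (by rw [abs_of_nonneg hP0]; exact hP1)
  have h3 := hs.summable.sum_le_tsum (Finset.range N) (fun i _ => by positivity)
  rw [hs.tsum_eq] at h3
  have h4 : Real.exp (-|d|) ≥ (1 - P) * (1 - |d| - Real.log (1 - P)) := by
    have h5 := Real.add_one_le_exp (-|d| - Real.log (1 - P))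
    rw [Real.exp_sub, Real.exp_log (by linarith)] at h5
    rw [le_div_iff₀ (by linarith)] at h5
    linarith
  unfold psi0
  have h6 : (1 - P) * (1 - |d| - Real.log (1 - P)) ≥ (1 - P) * (1 - |d|
      + ∑ i ∈ Finset.range N, P ^ (i + 1) / (i + 1)) := by
    apply mul_le_mul_of_nonneg_left _ (by linarith)
    linarith
  have h7 : (1 - P) * (1 - |d| + ∑ i ∈ Finset.range N, P ^ (i + 1) / (i + 1))
      = 1 - |d| + P * |d| - (P - (1 - P) * ∑ i ∈ Finset.range N, P ^ (i + 1) / (i + 1)) := by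
    ring
  linarith

theorem young_23 {p : ℝ} (hp : |p| ≤ 2 / 3) (d : ℝ) : p * d ≤ psi0 d + 17 / 25 * p ^ 2 := by
  set P := |p| with hP
  have hP0 : 0 ≤ P := abs_nonneg p
  have h2 : p ^ 2 = P ^ 2 := by rw [hP, sq_abs]
  rw [h2]
  apply young_series hP (by linarith) 12
  simp only [Finset.sum_range_succ, Finset.sum_range_zero]
  have h7 : P - (1 - P) * (0 + P ^ (0 + 1) / ((0 : ℕ) + 1) + P ^ (1 + 1) / ((1 : ℕ) + 1)
      + P ^ (2 + 1) / ((2 : ℕ) + 1) + P ^ (3 + 1) / ((3 : ℕ) + 1) + P ^ (4 + 1) / ((4 : ℕ) + 1)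
      + P ^ (5 + 1) / ((5 : ℕ) + 1) + P ^ (6 + 1) / ((6 : ℕ) + 1) + P ^ (7 + 1) / ((7 : ℕ) + 1)
      + P ^ (8 + 1) / ((8 : ℕ) + 1) + P ^ (9 + 1) / ((9 : ℕ) + 1) + P ^ (10 + 1) / ((10 : ℕ) + 1)
      + P ^ (11 + 1) / ((11 : ℕ) + 1))
      = P ^ 2 * (1 / 2 + P / 6 + P ^ 2 / 12 + P ^ 3 / 20 + P ^ 4 / 30 + P ^ 5 / 42 + P ^ 6 / 56
        + P ^ 7 / 72 + P ^ 8 / 90 + P ^ 9 / 110 + P ^ 10 / 132 + P ^ 11 / 12) := by
    push_cast
    ring
  rw [h7]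
  have hm : ∀ n : ℕ, P ^ n ≤ (2 / 3) ^ n := fun n => pow_le_pow_left₀ hP0 hp n
  have h8 : 1 / 2 + P / 6 + P ^ 2 / 12 + P ^ 3 / 20 + P ^ 4 / 30 + P ^ 5 / 42 + P ^ 6 / 56
        + P ^ 7 / 72 + P ^ 8 / 90 + P ^ 9 / 110 + P ^ 10 / 132 + P ^ 11 / 12 ≤ 17 / 25 := by
    have := hm 2
    have := hm 3
    have := hm 4
    have := hm 5
    have := hm 6
    have := hm 7
    have := hm 8
    have := hm 9
    have := hm 10
    have := hm 11
    norm_num at *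
    linarith
  have h9 := mul_le_mul_of_nonneg_left h8 (sq_nonneg P)
  linarith

theorem young_45 {p : ℝ} (hp : |p| ≤ 4 / 5) (d : ℝ) : p * d ≤ psi0 d + 3 / 4 * p ^ 2 := by
  set P := |p| with hP
  have hP0 : 0 ≤ P := abs_nonneg p
  have h2 : p ^ 2 = P ^ 2 := by rw [hP, sq_abs]
  rw [h2]
  apply young_series hP (by linarith) 18
  simp only [Finset.sum_range_succ, Finset.sum_range_zero]
  have h7 : P - (1 - P) * (0 + P ^ (0 + 1) / ((0 : ℕ) + 1) + P ^ (1 + 1) / ((1 : ℕ) + 1)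
      + P ^ (2 + 1) / ((2 : ℕ) + 1) + P ^ (3 + 1) / ((3 : ℕ) + 1) + P ^ (4 + 1) / ((4 : ℕ) + 1)
      + P ^ (5 + 1) / ((5 : ℕ) + 1) + P ^ (6 + 1) / ((6 : ℕ) + 1) + P ^ (7 + 1) / ((7 : ℕ) + 1)
      + P ^ (8 + 1) / ((8 : ℕ) + 1) + P ^ (9 + 1) / ((9 : ℕ) + 1) + P ^ (10 + 1) / ((10 : ℕ) + 1)
      + P ^ (11 + 1) / ((11 : ℕ) + 1) + P ^ (12 + 1) / ((12 : ℕ) + 1)
      + P ^ (13 + 1) / ((13 : ℕ) + 1) + P ^ (14 + 1) / ((14 : ℕ) + 1)
      + P ^ (15 + 1) / ((15 : ℕ) + 1) + P ^ (16 + 1) / ((16 : ℕ) + 1)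
      + P ^ (17 + 1) / ((17 : ℕ) + 1))
      = P ^ 2 * (1 / 2 + P / 6 + P ^ 2 / 12 + P ^ 3 / 20 + P ^ 4 / 30 + P ^ 5 / 42 + P ^ 6 / 56
        + P ^ 7 / 72 + P ^ 8 / 90 + P ^ 9 / 110 + P ^ 10 / 132 + P ^ 11 / 156 + P ^ 12 / 182
        + P ^ 13 / 210 + P ^ 14 / 240 + P ^ 15 / 272 + P ^ 16 / 306 + P ^ 17 / 18) := by
    push_cast
    ring
  rw [h7]
  have hm : ∀ n : ℕ, P ^ n ≤ (4 / 5) ^ n := fun n => pow_le_pow_left₀ hP0 hp n
  have h8 : 1 / 2 + P / 6 + P ^ 2 / 12 + P ^ 3 / 20 + P ^ 4 / 30 + P ^ 5 / 42 + P ^ 6 / 56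
        + P ^ 7 / 72 + P ^ 8 / 90 + P ^ 9 / 110 + P ^ 10 / 132 + P ^ 11 / 156 + P ^ 12 / 182
        + P ^ 13 / 210 + P ^ 14 / 240 + P ^ 15 / 272 + P ^ 16 / 306 + P ^ 17 / 18 ≤ 3 / 4 := by
    have := hm 2
    have := hm 3
    have := hm 4
    have := hm 5
    have := hm 6
    have := hm 7
    have := hm 8
    have := hm 9
    have := hm 10
    have := hm 11
    have := hm 12
    have := hm 13
    have := hm 14
    have := hm 15
    have := hm 16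
    have := hm 17
    norm_num at *
    linarith
  have h9 := mul_le_mul_of_nonneg_left h8 (sq_nonneg P)
  linarith

end Pool.Agent.Work.MP_6cd513_gt
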