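import Pool.Agent.Work.MP_6cd513_gt.TpB
import Pool.Agent.Work.MP_6cd513_gt.NumF
import Pool.Agent.Work.MP_6cd513_gt.Defect2
import Pool.Agent.Work.MP_6cd513_gt.Young
import Pool.Agent.Work.MP_6cd513_gt.Induct

/-!
# The interface between the certificate and the numerical inequalities
-/

namespace Pool.Agent.Work.MP_6cd513_gt

/-- twice the normalised entropy defect of a group of `m` parallel vectors of leverage `α` -/
noncomputable def Rv (l : ℕ) (α m : ℝ) : ℝ :=
  (Real.log (1 / (l * α)) - (1 / α - l) * Real.log (1 + 1 / (l : ℝ))) / (1 - m * α)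

/-- the amplitude of a pair: `4/5` if both groups are heavy (`l` vectors), `2/3` otherwise -/
noncomputable def bA {k n : ℕ} (l : ℕ) (v : Fin n → Fin k → ℝ) (i j : Fin n) : ℝ :=
  if (grp v i).card = l ∧ (grp v j).card = l then 4 / 5 else 2 / 3

/-- the Young constant of a pair -/
noncomputable def cA {k n : ℕ} (l : ℕ) (v : Fin n → Fin k → ℝ) (i j : Fin n) : ℝ :=
  if (grp v i).card = l ∧ (grp v j).card = l then 3 / 4 else 17 / 25

end Pool.Agent.Work.MP_6cd513_gt
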