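import Pool.Agent.Work.MP_6cd513_gt.BLgen
import Pool.Agent.Work.MP_6cd513_gt.MainStep

/-!
# The product of sinc functions
-/

open Matrix Finset MeasureTheory

namespace Pool.Agent.Work.MP_6cd513_gt

/-- Ball's integral inequality, as a hypothesis -/
def BallIneq : Prop := ∀ p : ℝ, 2 ≤ p →
  ∫⁻ t : ℝ, ENNReal.ofReal (|Real.sinc (Real.pi * t)| ^ p) ≤ ENNReal.ofReal (Real.sqrt (2 / p))

theorem sinc_pow_continuous {p c : ℝ} (hp : 0 < p) :
    Continuous fun t : ℝ => |Real.sinc (Real.pi * (c * t))| ^ p :=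
  ((Real.continuous_sinc.comp (by fun_prop)).abs).rpow_const fun _ => Or.inr hp.le

theorem sinc_int (hB : BallIneq) {c : ℝ} (hc0 : 0 < c) (hc : c ≤ 1 / 2) :
    Integrable (fun t : ℝ => |Real.sinc (Real.pi * (Real.sqrt c * t))| ^ (1 / c)) ∧
      ∫ t : ℝ, |Real.sinc (Real.pi * (Real.sqrt c * t))| ^ (1 / c) ≤ Real.sqrt 2 := by
  have hp : 2 ≤ 1 / c := by
    rw [le_div_iff₀ hc0]
    linarith
  have hp0 : 0 < 1 / c := by linarith
  have hs : 0 < Real.sqrt c := Real.sqrt_pos.2 hc0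
  have h1 := hB (1 / c) hp
  set g : ℝ → ℝ := fun t => |Real.sinc (Real.pi * t)| ^ (1 / c) with hg
  have hgc : Continuous g := by
    have h := sinc_pow_continuous (p := 1 / c) (c := 1) hp0
    simp only [one_mul] at h
    exact h
  have hg0 : ∀ t, 0 ≤ g t := fun t => Real.rpow_nonneg (abs_nonneg _) _
  have hgi : Integrable g := by
    refine ⟨hgc.aestronglyMeasurable, ?_⟩
    rw [hasFiniteIntegral_iff_ofReal (Filter.Eventually.of_forall hg0)]
    exact lt_of_le_of_lt h1 ENNReal.ofReal_lt_top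
  have hgv : ∫ t, g t ≤ Real.sqrt (2 / (1 / c)) := by
    rw [integral_eq_lintegral_of_nonneg_ae (Filter.Eventually.of_forall hg0)
      hgc.aestronglyMeasurable]
    have h2 := ENNReal.toReal_mono ENNReal.ofReal_ne_top h1
    rwa [ENNReal.toReal_ofReal (Real.sqrt_nonneg _)] at h2
  have hcomp : (fun t : ℝ => |Real.sinc (Real.pi * (Real.sqrt c * t))| ^ (1 / c))
      = fun t => g (Real.sqrt c * t) := rfl
  rw [hcomp]
  refine ⟨hgi.comp_mul_left' hs.ne', ?_⟩
  rw [Measure.integral_comp_mul_left, smul_eq_mul, abs_of_pos (inv_pos.2 hs)]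
  have h3 : Real.sqrt (2 / (1 / c)) = Real.sqrt 2 * Real.sqrt c := by
    rw [← Real.sqrt_mul (by norm_num)]
    congr 1
    field_simp
  rw [h3] at hgv
  calc (Real.sqrt c)⁻¹ * ∫ t, g t ≤ (Real.sqrt c)⁻¹ * (Real.sqrt 2 * Real.sqrt c) :=
        mul_le_mul_of_nonneg_left hgv (inv_pos.2 hs).le
    _ = Real.sqrt 2 := by field_simp

theorem sinc_BL (hB : BallIneq) {n m : ℕ} {z : Fin n → Fin m → ℝ} (hz : gramM z = 1)
    (hc : ∀ i, z i ⬝ᵥ z i ≤ 1 / 2) :
    ∫⁻ a : Fin m → ℝ, ∏ i, ENNReal.ofReal |Real.sinc (Real.pi * (z i ⬝ᵥ a))|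
      ≤ ENNReal.ofReal (Real.sqrt (2 ^ m)) := by
  classical
  -- the nonzero vectors
  have hzero : ∀ i, ¬ 0 < z i ⬝ᵥ z i → z i = 0 := by
    intro i hi
    have h1 : 0 ≤ z i ⬝ᵥ z i := by
      rw [dotProduct]
      exact Finset.sum_nonneg fun p _ => mul_self_nonneg _
    exact dotProduct_self_eq_zero.1 (le_antisymm (not_lt.1 hi) h1)
  set z' : {i // 0 < z i ⬝ᵥ z i} → Fin m → ℝ := fun i => z i with hz'
  have hgram : gramM z' = 1 := by
    rw [← hz]
    ext p q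
    rw [gramM_apply, gramM_apply]
    have h1 : ∑ i, z i p * z i q = ∑ i ∈ Finset.univ.filter (fun i => 0 < z i ⬝ᵥ z i),
        z i p * z i q := by
      rw [Finset.sum_filter]
      refine Finset.sum_congr rfl fun i _ => ?_
      by_cases h : 0 < z i ⬝ᵥ z i
      · rw [if_pos h]
      · rw [if_neg h, hzero i h]
        simp
    rw [h1]
    exact (Finset.sum_subtype _ (by simp) (fun i => z i p * z i q)).symm
  have hpos : ∀ i, 0 < z' i ⬝ᵥ z' i := fun i => i.2
  obtain ⟨hu, hiso⟩ := normalise hgram hpos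
  set α : {i // 0 < z i ⬝ᵥ z i} → ℝ := fun i => z' i ⬝ᵥ z' i with hα
  set u : {i // 0 < z i ⬝ᵥ z i} → Fin m → ℝ := fun i => (Real.sqrt (z' i ⬝ᵥ z' i))⁻¹ • z' i with hu'
  have hsum := sum_alpha hu hiso
  have hα2 : ∀ i, α i ≤ 1 / 2 := fun i => hc i
  have hα0 : ∀ i, 0 < α i := hpos
  -- Gaussian bump
  have hgauss : Integrable (fun t : ℝ => Real.exp (-1 * t ^ 2)) := integrable_exp_neg_mul_sq one_pos
  set E : ℝ := ∫ t : ℝ, Real.exp (-1 * t ^ 2) with hE
  have key : ∀ ε : ℝ, 0 < ε →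
      ∫⁻ a : Fin m → ℝ, ∏ i, ENNReal.ofReal |Real.sinc (Real.pi * (z i ⬝ᵥ a))|
        ≤ ENNReal.ofReal ((Real.sqrt 2 + ε * E) ^ m) := by
    intro ε hε
    set g : {i // 0 < z i ⬝ᵥ z i} → ℝ → ℝ :=
      fun i t => |Real.sinc (Real.pi * (Real.sqrt (α i) * t))| ^ (1 / α i) with hg
    set f : {i // 0 < z i ⬝ᵥ z i} → ℝ → ℝ := fun i t => g i t + ε * Real.exp (-1 * t ^ 2) with hf
    have hgc : ∀ i, Continuous (g i) := fun i =>
      sinc_pow_continuous (one_div_pos.2 (hα0 i))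
    have hg0 : ∀ i t, 0 ≤ g i t := fun i t => Real.rpow_nonneg (abs_nonneg _) _
    have hfp : ∀ i t, 0 < f i t := fun i t =>
      add_pos_of_nonneg_of_pos (hg0 i t) (mul_pos hε (Real.exp_pos _))
    have hfc : ∀ i, Continuous (f i) := fun i => (hgc i).add (by fun_prop)
    have hgi := fun i => sinc_int hB (hα0 i) (hα2 i)
    have hfi : ∀ i, Integrable (f i) := fun i => (hgi i).1.add (hgauss.const_mul ε)
    have hfv : ∀ i, ∫ t, f i t ≤ Real.sqrt 2 + ε * E := by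
      intro i
      have h1 : ∫ t, f i t = (∫ t, g i t) + ε * E := by
        simp only [hf]
        rw [integral_add (hgi i).1 (hgauss.const_mul ε), integral_const_mul]
      rw [h1]
      exact add_le_add_left (hgi i).2 _
    have hmain := BL_fun (fun i => (hα0 i).le) hu hiso hfc hfp hfi
    have hE0 : 0 ≤ E := integral_nonneg fun t => (Real.exp_pos _).le
    have hC0 : 0 < Real.sqrt 2 + ε * E := by
      have := Real.sqrt_pos.2 (show (0 : ℝ) < 2 by norm_num)
      positivity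
    have hub : Real.exp (∑ i, α i * Real.log (∫ s, f i s)) ≤ (Real.sqrt 2 + ε * E) ^ m := by
      have h1 : (Real.sqrt 2 + ε * E) ^ m
          = Real.exp (∑ i, α i * Real.log (Real.sqrt 2 + ε * E)) := by
        rw [← Finset.sum_mul, hsum, ← Real.log_pow, Real.exp_log (pow_pos hC0 m)]
      rw [h1]
      apply Real.exp_le_exp.2
      refine Finset.sum_le_sum fun i _ => mul_le_mul_of_nonneg_left ?_ (hα0 i).le
      exact Real.log_le_log (int_pos (hfc i) (hfp i) (hfi i)) (hfv i)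
    refine le_trans ?_ (hmain.trans (ENNReal.ofReal_le_ofReal hub))
    refine lintegral_mono fun a => ?_
    have h1 : ∏ i, ENNReal.ofReal |Real.sinc (Real.pi * (z i ⬝ᵥ a))|
        = ∏ i : {i // 0 < z i ⬝ᵥ z i}, ENNReal.ofReal |Real.sinc (Real.pi * (z i ⬝ᵥ a))| := by
      have h2 : ∏ i, ENNReal.ofReal |Real.sinc (Real.pi * (z i ⬝ᵥ a))|
          = ∏ i ∈ Finset.univ.filter (fun i => 0 < z i ⬝ᵥ z i),
            ENNReal.ofReal |Real.sinc (Real.pi * (z i ⬝ᵥ a))| := by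
        rw [Finset.prod_filter]
        refine Finset.prod_congr rfl fun i _ => ?_
        by_cases h : 0 < z i ⬝ᵥ z i
        · rw [if_pos h]
        · rw [if_neg h, hzero i h, zero_dotProduct, mul_zero, Real.sinc_zero]
          simp
      rw [h2]
      exact Finset.prod_subtype _ (by simp)
        (fun i => ENNReal.ofReal |Real.sinc (Real.pi * (z i ⬝ᵥ a))|)
    simp only
    rw [h1, ← ENNReal.ofReal_prod_of_nonneg fun i _ => abs_nonneg _]
    apply ENNReal.ofReal_le_ofReal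
    rw [Real.exp_sum]
    refine Finset.prod_le_prod (fun i _ => abs_nonneg _) fun i _ => ?_
    have hs : 0 < Real.sqrt (α i) := Real.sqrt_pos.2 (hα0 i)
    have h3 : Real.sqrt (α i) * (u i ⬝ᵥ a) = z i ⬝ᵥ a := by
      simp only [hu', smul_dotProduct, smul_eq_mul]
      show Real.sqrt (z' i ⬝ᵥ z' i) * ((Real.sqrt (z' i ⬝ᵥ z' i))⁻¹ * (z' i ⬝ᵥ a)) = z' i ⬝ᵥ a
      have h0 : Real.sqrt (z' i ⬝ᵥ z' i) ≠ 0 := hs.ne'
      field_simp
    have h4 : g i (u i ⬝ᵥ a) = |Real.sinc (Real.pi * (z i ⬝ᵥ a))| ^ (1 / α i) := by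
      simp only [hg]
      rw [h3]
    have h5 : g i (u i ⬝ᵥ a) ≤ f i (u i ⬝ᵥ a) := by
      simp only [hf]
      have := mul_pos hε (Real.exp_pos (-1 * (u i ⬝ᵥ a) ^ 2))
      linarith
    have h6 : Real.exp (α i * Real.log (f i (u i ⬝ᵥ a))) = f i (u i ⬝ᵥ a) ^ α i := by
      rw [Real.rpow_def_of_pos (hfp i _), mul_comm]
    rw [h6]
    calc |Real.sinc (Real.pi * (z i ⬝ᵥ a))|
        = (|Real.sinc (Real.pi * (z i ⬝ᵥ a))| ^ (1 / α i)) ^ α i := by
          rw [← Real.rpow_mul (abs_nonneg _), one_div, inv_mul_cancel₀ (hα0 i).ne', Real.rpow_one]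
      _ ≤ f i (u i ⬝ᵥ a) ^ α i := by
          rw [← h4]
          exact Real.rpow_le_rpow (hg0 i _) h5 (hα0 i).le
  have hlim : Filter.Tendsto (fun ε : ℝ => ENNReal.ofReal ((Real.sqrt 2 + ε * E) ^ m))
      (nhdsWithin 0 (Set.Ioi 0)) (nhds (ENNReal.ofReal ((Real.sqrt 2 + 0 * E) ^ m))) := by
    apply Filter.Tendsto.mono_left _ nhdsWithin_le_nhds
    have hc : Continuous fun ε : ℝ => ENNReal.ofReal ((Real.sqrt 2 + ε * E) ^ m) := by
      apply ENNReal.continuous_ofReal.comp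
      fun_prop
    exact hc.tendsto 0
  have hfin : ENNReal.ofReal (Real.sqrt (2 ^ m)) = ENNReal.ofReal ((Real.sqrt 2 + 0 * E) ^ m) := by
    congr 1
    rw [zero_mul, add_zero]
    rw [Real.sqrt_eq_iff_mul_self_eq (by positivity) (by positivity), ← mul_pow,
      Real.mul_self_sqrt (by norm_num)]
  rw [hfin]
  apply ge_of_tendsto hlim
  filter_upwards [self_mem_nhdsWithin] with ε hε
  exact key ε hε

end Pool.Agent.Work.MP_6cd513_gt
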