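import Pool.Agent.Work.MP_6cd513_gt.Shift

/-!
# Slicing a tight frame along one of its vectors
-/

open Matrix Finset MeasureTheory

namespace Pool.Agent.Work.MP_6cd513_gt

variable {ι : Type} [Fintype ι] {k : ℕ}

/-- an orthogonal matrix rotating a given vector to the first axis -/
theorem exists_rot (a : Fin (k + 1) → ℝ) (ha : 0 < a ⬝ᵥ a) :
    ∃ U : Matrix (Fin (k + 1)) (Fin (k + 1)) ℝ, Uᵀ * U = 1 ∧ U * Uᵀ = 1 ∧
      (a ᵥ* U) 0 = Real.sqrt (a ⬝ᵥ a) ∧ ∀ j : Fin k, (a ᵥ* U) j.succ = 0 := by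
  set c := Real.sqrt (a ⬝ᵥ a) with hc
  have hc0 : 0 < c := Real.sqrt_pos.2 ha
  have hcc : c * c = a ⬝ᵥ a := Real.mul_self_sqrt ha.le
  let e : EuclideanSpace ℝ (Fin (k + 1)) := WithLp.toLp 2 (c⁻¹ • a)
  have hee : inner ℝ e e = (1 : ℝ) := by
    simp only [e, EuclideanSpace.inner_eq_star_dotProduct, star_trivial, dotProduct_smul,
      smul_dotProduct, smul_eq_mul]
    rw [← hcc]
    field_simp
  have hnorm : ‖e‖ = 1 := by
    have h := real_inner_self_eq_norm_sq e
    rw [hee] at h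
    nlinarith [norm_nonneg e]
  have hon : Orthonormal ℝ (({0} : Set (Fin (k + 1))).domRestrict
      (fun _ : Fin (k + 1) => e)) := by
    constructor
    · intro i; exact hnorm
    · intro i j hij
      exact absurd (Subtype.ext (i.2.trans j.2.symm)) hij
  obtain ⟨b, hb⟩ := hon.exists_orthonormalBasis_extension_of_card_eq (by simp)
  have hb0 : b 0 = e := hb 0 rfl
  let U : Matrix (Fin (k + 1)) (Fin (k + 1)) ℝ := Matrix.of fun p q => b q p
  have hUU : Uᵀ * U = 1 := by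
    ext p q
    rw [mul_apply]
    have h1 := (orthonormal_iff_ite.1 b.orthonormal) p q
    rw [EuclideanSpace.inner_eq_star_dotProduct] at h1
    simp only [star_trivial, dotProduct] at h1
    rw [Matrix.one_apply, ← h1]
    refine Finset.sum_congr rfl fun r _ => ?_
    simp only [U, transpose_apply, of_apply]
    ring
  have hUU' : U * Uᵀ = 1 := mul_eq_one_comm.1 hUU
  refine ⟨U, hUU, hUU', ?_, fun j => ?_⟩
  all_goals
    have hval : ∀ q, (a ᵥ* U) q = c * inner ℝ (b 0) (b q) := by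
      intro q
      rw [hb0, EuclideanSpace.inner_eq_star_dotProduct]
      simp only [e, star_trivial, vecMul, U, dotProduct, of_apply, Pi.smul_apply, smul_eq_mul]
      rw [Finset.mul_sum]
      refine Finset.sum_congr rfl fun r _ => ?_
      field_simp
  · rw [hval, (orthonormal_iff_ite.1 b.orthonormal) 0 0, if_pos rfl, mul_one]
  · rw [hval, (orthonormal_iff_ite.1 b.orthonormal) 0 j.succ, if_neg (Fin.succ_ne_zero j).symm,
      mul_zero]

/-- Fubini along the first coordinate -/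
theorem vol_cons {S : Set (Fin (k + 1) → ℝ)} (hS : MeasurableSet S) :
    volume S = ∫⁻ t : ℝ, volume {y : Fin k → ℝ | (Fin.cons t y : Fin (k + 1) → ℝ) ∈ S} := by
  let e := MeasurableEquiv.piFinSuccAbove (fun _ : Fin (k + 1) => ℝ) 0
  have hmp := (volume_preserving_piFinSuccAbove (fun _ : Fin (k + 1) => ℝ) 0).symm
  have h1 : volume S = (volume : Measure (ℝ × (Fin k → ℝ))) (e.symm ⁻¹' S) :=
    (hmp.measure_preimage hS.nullMeasurableSet).symm
  have hcons : ∀ p : ℝ × (Fin k → ℝ), e.symm p = (Fin.cons p.1 p.2 : Fin (k + 1) → ℝ) := by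
    intro p
    ext i
    refine Fin.cases ?_ (fun j => ?_) i <;> simp [e, MeasurableEquiv.piFinSuccAbove]
  rw [h1, Measure.volume_eq_prod, Measure.prod_apply (e.symm.measurable hS)]
  refine lintegral_congr fun t => ?_
  congr 1
  ext y
  simp only [Set.mem_preimage, Set.mem_ofPred_eq, hcons]

theorem slice_vol {w : ι → Fin (k + 1) → ℝ} (hw : gramM w = 1) (i0 : ι)
    (h0 : 0 < w i0 ⬝ᵥ w i0) :
    ∃ q : ι → Fin k → ℝ, gramM q = 1 ∧
      (∀ i j, q i ⬝ᵥ q j = w i ⬝ᵥ w j - (w i ⬝ᵥ w i0) * (w j ⬝ᵥ w i0) / (w i0 ⬝ᵥ w i0)) ∧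
      ∀ Q : Set (ι → ℝ), MeasurableSet Q →
        volume {x : Fin (k + 1) → ℝ | (fun i => w i ⬝ᵥ x) ∈ Q} = ∫⁻ t : ℝ,
          volume {y : Fin k → ℝ | (fun i => (w i ⬝ᵥ w i0) / Real.sqrt (w i0 ⬝ᵥ w i0) * t
            + q i ⬝ᵥ y) ∈ Q} := by
  obtain ⟨U, hUU, hUU', hU0, hUs⟩ := exists_rot (w i0) h0
  set c := Real.sqrt (w i0 ⬝ᵥ w i0) with hc
  have hc0 : 0 < c := Real.sqrt_pos.2 h0
  have hcc : c * c = w i0 ⬝ᵥ w i0 := Real.mul_self_sqrt h0.le
  let w' : ι → Fin (k + 1) → ℝ := fun i => w i ᵥ* U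
  have hdot : ∀ i j, w' i ⬝ᵥ w' j = w i ⬝ᵥ w j := by
    intro i j
    simp only [w']
    rw [← dotProduct_mulVec]
    have h2 : U *ᵥ (w j ᵥ* U) = w j := by
      rw [← mulVec_transpose, mulVec_mulVec, hUU', one_mulVec]
    rw [h2]
  have hfirst : ∀ i, w' i 0 = (w i ⬝ᵥ w i0) / c := by
    intro i
    rw [← hdot i i0, eq_div_iff hc0.ne', dotProduct, Fin.sum_univ_succ]
    have h1 : w' i0 0 = c := hU0
    have h2 : ∀ j : Fin k, w' i0 j.succ = 0 := hUs
    simp only [h1, h2, mul_zero, Finset.sum_const_zero, add_zero]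
  have hgram : gramM w' = 1 := by
    have : gramM w' = Uᵀ * gramM w * U := gramM_vecMul w U
    rw [this, hw, Matrix.mul_one, hUU]
  refine ⟨fun i j => w' i j.succ, ?_, ?_, ?_⟩
  · ext p q
    rw [gramM_apply]
    have h1 : gramM w' p.succ q.succ = (1 : Matrix (Fin (k + 1)) (Fin (k + 1)) ℝ) p.succ q.succ := by
      rw [hgram]
    rw [gramM_apply] at h1
    rw [h1, Matrix.one_apply, Matrix.one_apply]
    simp
  · intro i j
    have h1 := hdot i j
    rw [dotProduct, Fin.sum_univ_succ, hfirst, hfirst] at h1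
    have h2 : (w i ⬝ᵥ w i0) / c * ((w j ⬝ᵥ w i0) / c)
        = (w i ⬝ᵥ w i0) * (w j ⬝ᵥ w i0) / (w i0 ⬝ᵥ w i0) := by
      rw [div_mul_div_comm, hcc]
    rw [h2] at h1
    rw [← h1, dotProduct]
    ring
  · intro Q hQ
    have hmeas : Measurable fun x : Fin (k + 1) → ℝ => (fun i => w' i ⬝ᵥ x) := by
      rw [measurable_pi_iff]
      intro i
      simp only [dotProduct]
      fun_prop
    have hdetU : U.det ≠ 0 := by
      intro h
      have := congrArg Matrix.det hUU
      rw [det_mul, h, mul_zero, det_one] at this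
      exact zero_ne_one this
    have habs : |(U.det)⁻¹| = 1 := by
      have h1 := congrArg Matrix.det hUU
      rw [det_mul, det_transpose, det_one] at h1
      have h2 : |U.det| * |U.det| = 1 := by rw [← abs_mul, h1, abs_one]
      have h3 : |U.det| = 1 := by nlinarith [abs_nonneg U.det]
      rw [abs_inv, h3, inv_one]
    have h1 : {x : Fin (k + 1) → ℝ | (fun i => w' i ⬝ᵥ x) ∈ Q}
        = {x | U *ᵥ x ∈ {x : Fin (k + 1) → ℝ | (fun i => w i ⬝ᵥ x) ∈ Q}} := by
      ext x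
      simp only [Set.mem_ofPred_eq, w', ← dotProduct_mulVec]
    have h2 : volume {x : Fin (k + 1) → ℝ | (fun i => w i ⬝ᵥ x) ∈ Q}
        = volume {x : Fin (k + 1) → ℝ | (fun i => w' i ⬝ᵥ x) ∈ Q} := by
      rw [h1, vol_preimage hdetU, habs, ENNReal.ofReal_one, one_mul]
    have hS : MeasurableSet {x : Fin (k + 1) → ℝ | (fun i => w' i ⬝ᵥ x) ∈ Q} := hmeas hQ
    rw [h2, vol_cons hS]
    refine lintegral_congr fun t => ?_
    congr 1
    ext y
    simp only [Set.mem_ofPred_eq]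
    have h3 : (fun i => w' i ⬝ᵥ (Fin.cons t y : Fin (k + 1) → ℝ))
        = fun i => (w i ⬝ᵥ w i0) / c * t + (fun j : Fin k => w' i j.succ) ⬝ᵥ y := by
      funext i
      rw [dotProduct, Fin.sum_univ_succ, Fin.cons_zero, hfirst]
      simp only [Fin.cons_succ, dotProduct]
    rw [h3]

end Pool.Agent.Work.MP_6cd513_gt
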