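import Pool.Agent.Work.MP_6cd513_gt.PL

/-!
# The dual form of Talagrand's transport inequality for the Gaussian measure
-/

open MeasureTheory Set ProbabilityTheory Matrix
open scoped ENNReal

namespace Pool.Agent.Work.MP_6cd513_gt

/-- the constant in the Gaussian density -/
noncomputable def kap : ℝ := -Real.log (Real.sqrt (2 * Real.pi))

theorem rho_eq (x : ℝ) : gaussianPDFReal 0 1 x = Real.exp (kap - x ^ 2 / 2) := by
  unfold gaussianPDFReal kap
  have h : 0 < Real.sqrt (2 * Real.pi) := Real.sqrt_pos.2 (by positivity)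
  have e : Real.exp (-Real.log (Real.sqrt (2 * Real.pi)) - x ^ 2 / 2)
      = (Real.sqrt (2 * Real.pi))⁻¹ * Real.exp (-(x ^ 2) / 2) := by
    rw [show -Real.log (Real.sqrt (2 * Real.pi)) - x ^ 2 / 2
      = -Real.log (Real.sqrt (2 * Real.pi)) + -(x ^ 2) / 2 by ring, Real.exp_add, Real.exp_neg,
      Real.exp_log h]
  rw [e]
  simp

/-- the one-dimensional dual transport inequality -/
theorem t2_one {s : ℝ} (hs0 : 0 < s) (hs1 : s < 1) {g : ℝ → ℝ≥0∞} (hg : Measurable g)
    {q : ℝ → ℝ} (hq : Measurable q) {B : ℝ} (hB : ∀ x, |q x| ≤ B)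
    (H : ∀ x y, g y ≤ ENNReal.ofReal (Real.exp (-q x + (1 - s) / 2 * (x - y) ^ 2))) :
    ∫⁻ y, g y ∂(gaussianReal 0 1) ≤
      ENNReal.ofReal (Real.exp (-∫ x, q x ∂(gaussianReal 0 1))) := by
  have h1s : 0 < 1 - s := by linarith
  have hB0 : 0 ≤ B := (abs_nonneg _).trans (hB 0)
  set lam : ℝ := s / (1 - s) with hlam
  have hlam0 : 0 < lam := div_pos hs0 h1s
  have hg1 : ∀ y, g y ≤ ENNReal.ofReal (Real.exp B) := by
    intro y
    refine (H y y).trans (ENNReal.ofReal_le_ofReal (Real.exp_le_exp.2 ?_))
    have := (abs_le.1 (hB y)).1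
    rw [sub_self]
    nlinarith
  have hgt : ∀ y, g y ≠ ⊤ := fun y => ne_top_of_le_ne_top ENNReal.ofReal_ne_top (hg1 y)
  have hgr : ∀ y, (g y).toReal ≤ Real.exp B := fun y => by
    have := ENNReal.toReal_mono ENNReal.ofReal_ne_top (hg1 y)
    rwa [ENNReal.toReal_ofReal (Real.exp_pos _).le] at this
  have hrho : ∀ x, gaussianPDFReal 0 1 x ≤ Real.exp kap := fun x => by
    rw [rho_eq]
    apply Real.exp_le_exp.2
    nlinarith [sq_nonneg x]
  have hrho0 : ∀ x, 0 ≤ gaussianPDFReal 0 1 x := fun x => gaussianPDFReal_nonneg _ _ _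
  have hrm : Measurable (gaussianPDFReal 0 1) := measurable_gaussianPDFReal 0 1
  have hri : Integrable (gaussianPDFReal 0 1) := integrable_gaussianPDFReal 0 1
  let u : ℝ → ℝ := fun x => Real.exp (lam * q x) * gaussianPDFReal 0 1 x
  let v : ℝ → ℝ := fun y => (g y).toReal * gaussianPDFReal 0 1 y
  have hum : Measurable u := ((hq.const_mul lam).exp).mul hrm
  have hvm : Measurable v := hg.ennreal_toReal.mul hrm
  have hexp : ∀ x, Real.exp (lam * q x) ≤ Real.exp (lam * B) := fun x => by
    apply Real.exp_le_exp.2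
    exact mul_le_mul_of_nonneg_left (abs_le.1 (hB x)).2 hlam0.le
  have hub : BddAbove (range u) := by
    refine ⟨Real.exp (lam * B) * Real.exp kap, ?_⟩
    rintro _ ⟨x, rfl⟩
    exact mul_le_mul (hexp x) (hrho x) (hrho0 x) (Real.exp_pos _).le
  have hvb : BddAbove (range v) := by
    refine ⟨Real.exp B * Real.exp kap, ?_⟩
    rintro _ ⟨x, rfl⟩
    exact mul_le_mul (hgr x) (hrho x) (hrho0 x) (Real.exp_pos _).le
  have hui : Integrable u := by
    refine hri.bdd_mul (c := Real.exp (lam * B)) (hq.const_mul lam).exp.aestronglyMeasurable ?_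
    exact Filter.Eventually.of_forall fun x => by
      rw [Real.norm_eq_abs, abs_of_pos (Real.exp_pos _)]
      exact hexp x
  have hvi : Integrable v := by
    refine hri.bdd_mul (c := Real.exp B) hg.ennreal_toReal.aestronglyMeasurable ?_
    exact Filter.Eventually.of_forall fun x => by
      rw [Real.norm_eq_abs, abs_of_nonneg ENNReal.toReal_nonneg]
      exact hgr x
  have hPL := pl1 hs0 hs1 hum hvm hrm
    (fun x => mul_nonneg (Real.exp_pos _).le (hrho0 x))
    (fun x => mul_nonneg ENNReal.toReal_nonneg (hrho0 x)) hrho0 hub hvb hui hvi hri (by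
      intro x y
      have h1 : v y ≤ Real.exp (-q x + (1 - s) / 2 * (x - y) ^ 2 + (kap - y ^ 2 / 2)) := by
        rw [Real.exp_add, ← rho_eq]
        apply mul_le_mul_of_nonneg_right _ (hrho0 y)
        have := ENNReal.toReal_mono ENNReal.ofReal_ne_top (H x y)
        rwa [ENNReal.toReal_ofReal (Real.exp_pos _).le] at this
      have h2 : u x = Real.exp (lam * q x + (kap - x ^ 2 / 2)) := by
        simp only [u]
        rw [rho_eq, ← Real.exp_add]
      have h3 : (v y) ^ s ≤
          Real.exp ((-q x + (1 - s) / 2 * (x - y) ^ 2 + (kap - y ^ 2 / 2)) * s) := by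
        rw [Real.exp_mul]
        exact Real.rpow_le_rpow (mul_nonneg ENNReal.toReal_nonneg (hrho0 y)) h1 hs0.le
      rw [h2, ← Real.exp_mul, rho_eq]
      refine (mul_le_mul_of_nonneg_left h3 (Real.exp_pos _).le).trans (le_of_eq ?_)
      rw [← Real.exp_add]
      congr 1
      rw [hlam]
      field_simp
      ring)
  rw [integral_gaussianPDFReal_eq_one 0 one_ne_zero] at hPL
  set m : ℝ := ∫ x, q x ∂(gaussianReal 0 1) with hm
  have hqi : Integrable q (gaussianReal 0 1) :=
    Integrable.of_bound hq.aestronglyMeasurable B (Filter.Eventually.of_forall fun x => by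
      rw [Real.norm_eq_abs]; exact hB x)
  -- Jensen
  have hu1 : Real.exp (lam * m) ≤ ∫ x, u x := by
    have e1 : ∫ x, u x = ∫ x, Real.exp (lam * q x) ∂(gaussianReal 0 1) := by
      rw [integral_gaussianReal_eq_integral_smul one_ne_zero]
      refine integral_congr_ae (Filter.Eventually.of_forall fun x => ?_)
      simp only [u, smul_eq_mul]
      ring
    rw [e1]
    have h1 : ∀ x, Real.exp (lam * m) * (1 + lam * (q x - m)) ≤ Real.exp (lam * q x) := by
      intro x
      have h2 := Real.add_one_le_exp (lam * (q x - m))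
      calc Real.exp (lam * m) * (1 + lam * (q x - m))
          ≤ Real.exp (lam * m) * Real.exp (lam * (q x - m)) :=
            mul_le_mul_of_nonneg_left (by linarith) (Real.exp_pos _).le
        _ = Real.exp (lam * q x) := by rw [← Real.exp_add]; ring_nf
    have h2 : ∫ x, Real.exp (lam * m) * (1 + lam * (q x - m)) ∂(gaussianReal 0 1)
        = Real.exp (lam * m) := by
      have i1 : Integrable (fun x => lam * (q x - m)) (gaussianReal 0 1) :=
        (hqi.sub (integrable_const _)).const_mul _
      rw [integral_const_mul, integral_add (integrable_const _) i1, integral_const_mul,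
        integral_sub hqi (integrable_const _)]
      simp [← hm]
    rw [← h2]
    apply integral_mono
    · exact ((integrable_const _).add ((hqi.sub (integrable_const _)).const_mul _)).const_mul _
    · refine Integrable.of_bound (hq.const_mul lam).exp.aestronglyMeasurable (Real.exp (lam * B))
        (Filter.Eventually.of_forall fun x => ?_)
      rw [Real.norm_eq_abs, abs_of_pos (Real.exp_pos _)]
      exact hexp x
    · exact h1
  have hv0 : 0 ≤ ∫ x, v x := integral_nonneg fun x => mul_nonneg ENNReal.toReal_nonneg (hrho0 x)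
  have hfin : ∫ x, v x ≤ Real.exp (-m) := by
    have h1 : (Real.exp (lam * m)) ^ (1 - s) * (∫ x, v x) ^ s ≤ 1 := by
      refine le_trans ?_ hPL
      exact mul_le_mul_of_nonneg_right (Real.rpow_le_rpow (Real.exp_pos _).le hu1 h1s.le)
        (Real.rpow_nonneg hv0 _)
    have h2 : (Real.exp (lam * m)) ^ (1 - s) = (Real.exp m) ^ s := by
      rw [← Real.exp_mul, ← Real.exp_mul]
      congr 1
      rw [hlam]
      field_simp
    rw [h2, ← Real.mul_rpow (Real.exp_pos _).le hv0] at h1
    have h3 : Real.exp m * ∫ x, v x ≤ 1 := by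
      by_contra hcon
      push Not at hcon
      have := Real.one_lt_rpow hcon hs0
      linarith
    rw [Real.exp_neg, ← one_div, le_div_iff₀ (Real.exp_pos _), mul_comm]
    exact h3
  have e2 : ∫⁻ y, g y ∂(gaussianReal 0 1) = ENNReal.ofReal (∫ x, v x) := by
    rw [ofReal_integral_eq_lintegral_ofReal hvi
      (Filter.Eventually.of_forall fun x => mul_nonneg ENNReal.toReal_nonneg (hrho0 x))]
    rw [gaussianReal_of_var_ne_zero 0 one_ne_zero,
      lintegral_withDensity_eq_lintegral_mul _ (measurable_gaussianPDF 0 1) hg]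
    refine lintegral_congr fun x => ?_
    simp only [Pi.mul_apply, v]
    rw [ENNReal.ofReal_mul ENNReal.toReal_nonneg, ENNReal.ofReal_toReal (hgt x), mul_comm]
    rfl
  rw [e2]
  exact ENNReal.ofReal_le_ofReal hfin

/-- the standard Gaussian measure on `Fin k → ℝ` -/
noncomputable def gk (k : ℕ) : Measure (Fin k → ℝ) := Measure.pi fun _ => gaussianReal 0 1

instance (k : ℕ) : IsProbabilityMeasure (gk k) := by
  unfold gk; infer_instance

theorem gk_mp (k : ℕ) : MeasurePreserving
    (MeasurableEquiv.piFinSuccAbove (fun _ : Fin (k + 1) => ℝ) 0).symm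
    ((gaussianReal 0 1).prod (gk k)) (gk (k + 1)) :=
  (measurePreserving_piFinSuccAbove (fun _ : Fin (k + 1) => gaussianReal 0 1) 0).symm _

theorem sq_dot_cons (k : ℕ) (a b : ℝ) (x y : Fin k → ℝ) :
    ((Fin.cons a x : Fin (k + 1) → ℝ) - Fin.cons b y) ⬝ᵥ
      ((Fin.cons a x : Fin (k + 1) → ℝ) - Fin.cons b y)
      = (a - b) ^ 2 + (x - y) ⬝ᵥ (x - y) := by
  simp only [dotProduct, Fin.sum_univ_succ, Pi.sub_apply, Fin.cons_zero, Fin.cons_succ]
  ring

/-- the dual transport inequality in dimension `k` -/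
theorem t2_pi {s : ℝ} (hs0 : 0 < s) (hs1 : s < 1) (k : ℕ) :
    ∀ g : (Fin k → ℝ) → ℝ≥0∞, Measurable g → ∀ q : (Fin k → ℝ) → ℝ, Measurable q →
    ∀ B : ℝ, (∀ x, |q x| ≤ B) →
    (∀ x y, g y ≤ ENNReal.ofReal (Real.exp (-q x + (1 - s) / 2 * ((x - y) ⬝ᵥ (x - y))))) →
    ∫⁻ y, g y ∂(gk k) ≤ ENNReal.ofReal (Real.exp (-∫ x, q x ∂(gk k))) := by
  induction k with
  | zero =>
    intro g hg q hq B hB H
    have h1 : ∀ y, g y ≤ ENNReal.ofReal (Real.exp (-q default)) := by
      intro y
      refine (H default y).trans (le_of_eq ?_)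
      simp
    have h2 : ∫ x, q x ∂(gk 0) = q default := by
      have : ∀ x, q x = q default := fun x => by rw [Subsingleton.elim x default]
      simp_rw [this]
      simp
    rw [h2]
    calc ∫⁻ y, g y ∂(gk 0) ≤ ∫⁻ _, ENNReal.ofReal (Real.exp (-q default)) ∂(gk 0) :=
          lintegral_mono h1
      _ = _ := by simp
  | succ k ih =>
    intro g hg q hq B hB H
    have hcm : Measurable fun p : ℝ × (Fin k → ℝ) => (Fin.cons p.1 p.2 : Fin (k + 1) → ℝ) := by
      rw [measurable_pi_iff]
      intro i
      refine Fin.cases ?_ (fun j => ?_) i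
      · simpa using measurable_fst
      · simp only [Fin.cons_succ]
        exact (measurable_pi_apply j).comp measurable_snd
    have hcons : ∀ p : ℝ × (Fin k → ℝ),
        (MeasurableEquiv.piFinSuccAbove (fun _ : Fin (k + 1) => ℝ) 0).symm p
          = Fin.cons p.1 p.2 := by
      intro p
      ext i
      refine Fin.cases ?_ (fun j => ?_) i <;> simp [MeasurableEquiv.piFinSuccAbove]
    have hgc : Measurable fun p : ℝ × (Fin k → ℝ) => g (Fin.cons p.1 p.2) := hg.comp hcm
    have hqc : Measurable fun p : ℝ × (Fin k → ℝ) => q (Fin.cons p.1 p.2) := hq.comp hcm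
    have e1 : ∫⁻ y, g y ∂(gk (k + 1))
        = ∫⁻ y, ∫⁻ t, g (Fin.cons t y) ∂(gaussianReal 0 1) ∂(gk k) := by
      rw [← (gk_mp k).lintegral_comp hg]
      simp_rw [hcons]
      rw [lintegral_prod_symm _ hgc.aemeasurable]
    have hqint : Integrable (fun p : ℝ × (Fin k → ℝ) => q (Fin.cons p.1 p.2))
        ((gaussianReal 0 1).prod (gk k)) :=
      Integrable.of_bound hqc.aestronglyMeasurable B (Filter.Eventually.of_forall fun x => by
        rw [Real.norm_eq_abs]; exact hB _)
    have e2 : ∫ y, q y ∂(gk (k + 1))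
        = ∫ y, ∫ t, q (Fin.cons t y) ∂(gaussianReal 0 1) ∂(gk k) := by
      rw [← (gk_mp k).integral_comp (MeasurableEquiv.measurableEmbedding _) q]
      simp_rw [hcons]
      rw [integral_prod_symm _ hqint]
    rw [e1, e2]
    refine ih _ ?_ _ ?_ B ?_ ?_
    · exact Measurable.lintegral_prod_left' hgc
    · exact (hqc.stronglyMeasurable.integral_prod_left').measurable
    · intro x
      have h1 : ‖∫ t, q (Fin.cons t x) ∂(gaussianReal 0 1)‖ ≤ B *
          (gaussianReal 0 1).real univ :=
        norm_integral_le_of_norm_le_const (Filter.Eventually.of_forall fun t => by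
          rw [Real.norm_eq_abs]; exact hB _)
      simpa using h1
    · intro x y
      have h1 := t2_one hs0 hs1 (g := fun t => g (Fin.cons t y))
        (q := fun t => q (Fin.cons t x) - (1 - s) / 2 * ((x - y) ⬝ᵥ (x - y)))
        (B := B + |(1 - s) / 2 * ((x - y) ⬝ᵥ (x - y))|)
        (hgc.comp (measurable_id.prodMk measurable_const))
        ((hqc.comp (measurable_id.prodMk measurable_const)).sub_const _)
        (fun t => (abs_sub _ _).trans (add_le_add (hB _) le_rfl))
        (by
          intro a b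
          refine (H (Fin.cons a x) (Fin.cons b y)).trans (le_of_eq ?_)
          rw [sq_dot_cons]
          congr 2
          ring)
      refine h1.trans (le_of_eq ?_)
      congr 2
      rw [integral_sub]
      · simp
        ring
      · exact Integrable.of_bound
          (hqc.comp (measurable_id.prodMk measurable_const)).aestronglyMeasurable B
          (Filter.Eventually.of_forall fun x => by
            rw [Real.norm_eq_abs]; exact hB _)
      · exact integrable_const _

end Pool.Agent.Work.MP_6cd513_gt
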