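import Pool.Agent.Work.MP_6cd513_gt.Cert2
import Pool.Agent.Work.MP_6cd513_gt.PairNum

/-!
# Lower bounds for the pair expectation
-/

namespace Pool.Agent.Work.MP_6cd513_gt

theorem d1_poly {y : ℝ} (h0 : 0 ≤ y) (h1 : y ≤ 1) :
    0 ≤ (963 / 10000 - 176 / 10000 * y) * (3 * (1 + (1 - y / 8))) -
      (1 - y / 8) ^ 2 * (57736 / 100000) := by
  obtain ⟨w, hw⟩ : ∃ w, w = 1 - y := ⟨_, rfl⟩
  have hw0 : 0 ≤ w := by linarith
  have key : (963 / 10000 - 176 / 10000 * y) * (3 * (1 + (1 - y / 8))) -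
      (1 - y / 8) ^ 2 * (57736 / 100000) =
      11/25000 * w ^ 2 + 1403/400000 * y * w + 517/800000 * y ^ 2 := by
    rw [hw]; ring
  rw [key]; positivity

theorem d3_poly {y : ℝ} (h0 : 0 ≤ y) (h1 : y ≤ 1) :
    0 ≤ (963 / 10000 + 665 / 10000 * y - 243 / 10000 * y ^ 2) * (9 * (1 + (1 - y / 8))) -
      (1 + y) * ((1 - y / 8) ^ 2 * (1 + (1 - y / 8) + (1 - y / 8) ^ 2)) * (57736 / 100000) := by
  obtain ⟨w, hw⟩ : ∃ w, w = 1 - y := ⟨_, rfl⟩
  have hw0 : 0 ≤ w := by linarith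
  have key : (963 / 10000 + 665 / 10000 * y - 243 / 10000 * y ^ 2) * (9 * (1 + (1 - y / 8))) -
      (1 + y) * ((1 - y / 8) ^ 2 * (1 + (1 - y / 8) + (1 - y / 8) ^ 2)) * (57736 / 100000) =
      33/25000 * w ^ 7 + 6141/400000 * y * w ^ 6 + 223/2000 * y ^ 2 * w ^ 5
      + 80941/256000 * y ^ 3 * w ^ 4 + 21301783/51200000 * y ^ 4 * w ^ 3
      + 3371369/12800000 * y ^ 5 * w ^ 2 + 3517603/51200000 * y ^ 6 * w
      + 68023/25600000 * y ^ 7 := by
    rw [hw]; ring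
  rw [key]; positivity

/-- the elementary estimates behind the pair expectation -/
theorem D_bounds {y : ℝ} (hy0 : 0 ≤ y) (hy1 : y ≤ 1) :
    1 / Real.sqrt 3 - 1 / Real.sqrt (3 + y) ≤ y * (963 / 10000 - 176 / 10000 * y) ∧
    (1 + y) * (1 / (3 * Real.sqrt 3) - 1 / ((3 + y) * Real.sqrt (3 + y)))
      ≤ y * (963 / 10000 + 665 / 10000 * y - 243 / 10000 * y ^ 2) ∧
    y / 18 ≤ 1 / 8 - 1 / ((4 + 2 * y) * Real.sqrt (4 + 2 * y)) := by
  set g : ℝ := 1 - y / 8 with hg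
  have hg0 : 0 < g := by rw [hg]; linarith
  set b : ℝ := 1 / Real.sqrt 3 with hb
  set a : ℝ := 1 / Real.sqrt (3 + y) with ha
  have hs3 : 0 < Real.sqrt 3 := Real.sqrt_pos.2 (by norm_num)
  have hsy : 0 < Real.sqrt (3 + y) := Real.sqrt_pos.2 (by linarith)
  have hb0 : 0 < b := one_div_pos.2 hs3
  have ha0 : 0 < a := one_div_pos.2 hsy
  have hb2 : b ^ 2 = 1 / 3 := by rw [hb, div_pow, Real.sq_sqrt (by norm_num)]; norm_num
  have ha2 : a ^ 2 = 1 / (3 + y) := by rw [ha, div_pow, Real.sq_sqrt (by linarith)]; norm_num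
  have hbU : b ≤ 57736 / 100000 := inv_sqrt3_le
  -- `a ≤ g b`
  have hagb : a ≤ g * b := by
    apply le_of_sq_le_sq _ (by positivity)
    rw [mul_pow, ha2, hb2, hg]
    rw [div_le_iff₀ (by linarith)]
    have h1 : 0 ≤ y * (1 - y) := mul_nonneg hy0 (by linarith)
    nlinarith [mul_nonneg hy0 h1, mul_nonneg (mul_nonneg hy0 hy0) hy0]
  -- `b - a`
  have hba : b - a = y * (a ^ 2 * b ^ 2) / (a + b) := by
    rw [eq_div_iff (by positivity)]
    have h1 : (b - a) * (a + b) = b ^ 2 - a ^ 2 := by ring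
    rw [h1, ha2, hb2]
    have : (3 : ℝ) + y ≠ 0 := by linarith
    field_simp
    ring
  have hba2 : b - a ≤ y * (g ^ 2 * b) / (3 * (1 + g)) := by
    rw [hba, hb2, div_le_div_iff₀ (by positivity) (by positivity)]
    have h2 : a ^ 2 * (1 + g) ≤ g ^ 2 * b * (a + b) := by
      have h3 : g ^ 2 * b * (a + b) - a ^ 2 * (1 + g) = (g * b - a) * (g * b + (1 + g) * a) := by
        ring
      have h4 : 0 ≤ (g * b - a) * (g * b + (1 + g) * a) :=
        mul_nonneg (sub_nonneg.2 hagb) (by positivity)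
      linarith
    have h5 := mul_le_mul_of_nonneg_left h2 hy0
    nlinarith
  have hb3 : b ^ 3 - a ^ 3 ≤ y * (g ^ 2 * b * (1 + g + g ^ 2)) / (9 * (1 + g)) := by
    have h1 : b ^ 3 - a ^ 3 = (b - a) * (b ^ 2 + a * b + a ^ 2) := by ring
    have h2 : b ^ 2 + a * b + a ^ 2 ≤ (1 + g + g ^ 2) / 3 := by
      have h3 : a * b ≤ g * b ^ 2 := by nlinarith
      have h4 : a ^ 2 ≤ g ^ 2 * b ^ 2 := by
        rw [← mul_pow]; exact pow_le_pow_left₀ ha0.le hagb 2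
      rw [hb2] at h3 h4 ⊢
      linarith
    have h5 : 0 ≤ y * (g ^ 2 * b) / (3 * (1 + g)) := by positivity
    rw [h1]
    calc (b - a) * (b ^ 2 + a * b + a ^ 2)
        ≤ (y * (g ^ 2 * b) / (3 * (1 + g))) * ((1 + g + g ^ 2) / 3) :=
          mul_le_mul hba2 h2 (by positivity) h5
      _ = _ := by
          field_simp
          ring
  -- the cubic term
  set r := Real.sqrt (4 + 2 * y) with hr
  have hr0 : 0 < r := Real.sqrt_pos.2 (by linarith)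
  set c : ℝ := 1 / r with hc
  have hc0 : 0 < c := one_div_pos.2 hr0
  have hc2' : c ^ 2 = 1 / (4 + 2 * y) := by rw [hc, div_pow, Real.sq_sqrt (by linarith)]; norm_num
  have hcle : c ≤ 1 / 2 := by
    apply le_of_sq_le_sq _ (by norm_num)
    rw [hc2']
    rw [div_le_iff₀ (by linarith)]
    nlinarith
  have hc6 : 1 / 6 ≤ c ^ 2 := by
    rw [hc2']
    apply one_div_le_one_div_of_le (by linarith)
    linarith
  have hc3' : y / 18 ≤ 1 / 8 - c ^ 3 := by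
    have h1 : (1 / 2 - c) * (2 * (1 / 2 + c)) = y * c ^ 2 := by
      have h2 : (1 / 2 - c) * (2 * (1 / 2 + c)) = 1 / 2 - 2 * c ^ 2 := by ring
      rw [h2, hc2']
      have : (4 : ℝ) + 2 * y ≠ 0 := by linarith
      field_simp
      ring
    have h3 : 1 / 8 - c ^ 3 = (1 / 2 - c) * (1 / 4 + c / 2 + c ^ 2) := by ring
    have h4 : y * c ^ 2 * (1 / 4 + c / 2 + c ^ 2) = (1 / 8 - c ^ 3) * (2 * (1 / 2 + c)) := by
      rw [h3, ← h1]; ring
    have h5 : (1 / 18) * (2 * (1 / 2 + c)) ≤ c ^ 2 * (1 / 4 + c / 2 + c ^ 2) := by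
      have h6 : 1 / 6 * (1 / 4 + c / 2 + 1 / 6) ≤ c ^ 2 * (1 / 4 + c / 2 + c ^ 2) :=
        mul_le_mul hc6 (by linarith) (by positivity) (sq_nonneg c)
      nlinarith
    have h7 := mul_le_mul_of_nonneg_left h5 hy0
    have h8 : 0 < 2 * (1 / 2 + c) := by positivity
    have h9 : (y / 18) * (2 * (1 / 2 + c)) ≤ (1 / 8 - c ^ 3) * (2 * (1 / 2 + c)) := by
      rw [← h4]; linarith
    exact le_of_mul_le_mul_right h9 h8
  have e1 : 1 / (3 * Real.sqrt 3) = b ^ 3 := by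
    have : b ^ 3 = b ^ 2 * b := by ring
    rw [this, hb2, hb]; field_simp
  have e2 : 1 / ((3 + y) * Real.sqrt (3 + y)) = a ^ 3 := by
    have : a ^ 3 = a ^ 2 * a := by ring
    rw [this, ha2, ha]; field_simp
  have e3 : 1 / ((4 + 2 * y) * r) = c ^ 3 := by
    have : c ^ 3 = c ^ 2 * c := by ring
    rw [this, hc2', hc]; field_simp
  rw [e1, e2, e3]
  have hz0 : 0 ≤ 1 - y := by linarith
  refine ⟨?_, ?_, hc3'⟩
  · refine hba2.trans ?_
    rw [mul_div_assoc]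
    apply mul_le_mul_of_nonneg_left _ hy0
    rw [div_le_iff₀ (by positivity)]
    have h1 : g ^ 2 * b ≤ g ^ 2 * (57736 / 100000) := mul_le_mul_of_nonneg_left hbU (sq_nonneg g)
    refine h1.trans ?_
    rw [hg]
    linarith [d1_poly hy0 hy1]
  · have h0 : (1 + y) * (b ^ 3 - a ^ 3)
        ≤ (1 + y) * (y * (g ^ 2 * b * (1 + g + g ^ 2)) / (9 * (1 + g))) :=
      mul_le_mul_of_nonneg_left hb3 (by linarith)
    refine h0.trans ?_
    have h1 : (1 + y) * (y * (g ^ 2 * b * (1 + g + g ^ 2)) / (9 * (1 + g)))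
        = y * ((1 + y) * (g ^ 2 * (1 + g + g ^ 2)) * b / (9 * (1 + g))) := by ring
    rw [h1]
    apply mul_le_mul_of_nonneg_left _ hy0
    rw [div_le_iff₀ (by positivity)]
    have h2 : (1 + y) * (g ^ 2 * (1 + g + g ^ 2)) * b
        ≤ (1 + y) * (g ^ 2 * (1 + g + g ^ 2)) * (57736 / 100000) :=
      mul_le_mul_of_nonneg_left hbU (by positivity)
    refine h2.trans ?_
    rw [hg]
    linarith [d3_poly hy0 hy1]

theorem inv_sqrt2_ge' : (35354 / 100000 : ℝ) ≤ 1 / (2 * Real.sqrt 2) := by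
  rw [le_div_iff₀ (mul_pos (by norm_num) (Real.sqrt_pos.2 (by norm_num)))]
  have : Real.sqrt 2 ≤ 141422 / 100000 := Real.sqrt_le_iff.2 ⟨by norm_num, by norm_num⟩
  nlinarith

/-- general polynomial lower bound for the pair value -/
theorem Tb_ge {b c2 c3 cc y : ℝ} (hb : 0 ≤ b) (hc2 : 0 ≤ c2) (hc3 : 0 ≤ c3) (hcc : 0 ≤ cc)
    (hy0 : 0 ≤ y) (hy1 : y ≤ 1) :
    y * (35354 / 100000 * b - 2 * b ^ 2 * c2 * (963 / 10000 + 665 / 10000 * y
      - 243 / 10000 * y ^ 2) + b ^ 3 * c3 * y / 6 - 2 * cc * b ^ 2 *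
      (963 / 10000 - 176 / 10000 * y)) ≤ Tb b c2 c3 cc y := by
  obtain ⟨h1, h2, h3⟩ := D_bounds hy0 hy1
  unfold Tb
  have t1 : 35354 / 100000 * (b * y) ≤ b * y / (2 * Real.sqrt 2) := by
    have := mul_le_mul_of_nonneg_right inv_sqrt2_ge' (mul_nonneg hb hy0)
    calc 35354 / 100000 * (b * y) ≤ 1 / (2 * Real.sqrt 2) * (b * y) := this
      _ = _ := by ring
  have t2 := mul_le_mul_of_nonneg_left h2 (show 0 ≤ 2 * b ^ 2 * c2 by positivity)
  have t3 := mul_le_mul_of_nonneg_left h3 (show 0 ≤ 3 * b ^ 3 * c3 * y by positivity)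
  have t4 := mul_le_mul_of_nonneg_left h1 (show 0 ≤ 2 * cc * b ^ 2 by positivity)
  have e : y * (35354 / 100000 * b - 2 * b ^ 2 * c2 * (963 / 10000 + 665 / 10000 * y
      - 243 / 10000 * y ^ 2) + b ^ 3 * c3 * y / 6 - 2 * cc * b ^ 2 *
      (963 / 10000 - 176 / 10000 * y)) = 35354 / 100000 * (b * y)
      - 2 * b ^ 2 * c2 * (y * (963 / 10000 + 665 / 10000 * y - 243 / 10000 * y ^ 2))
      + 3 * b ^ 3 * c3 * y * (y / 18)
      - 2 * cc * b ^ 2 * (y * (963 / 10000 - 176 / 10000 * y)) := by ring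
  rw [e]
  have e2 : 3 * b ^ 3 * c3 * (y * (1 / 8 - 1 / ((4 + 2 * y) * Real.sqrt (4 + 2 * y))))
      = 3 * b ^ 3 * c3 * y * (1 / 8 - 1 / ((4 + 2 * y) * Real.sqrt (4 + 2 * y))) := by ring
  rw [e2]
  linarith

theorem c2f_nonneg {ρ b : ℝ} (hρ0 : 0 ≤ ρ) (hρ1 : ρ ≤ 1) (hb0 : 0 ≤ b) (hb1 : b < 1) :
    0 ≤ c2f ρ b := by
  have := den_pos hρ0 hρ1 hb0 hb1
  unfold c2f
  positivity

theorem tp_box_00 {s t : ℝ} (h0 : 0 ≤ s) (h1 : s ≤ 1) (k0 : 0 ≤ t) (k1 : t ≤ 1) :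
    0 ≤ (2484 / 1000000 + 10637 / 1000000 * (0 + t / 3)) * (1 - 4 / 9 * (0 + s / 3) ^ 2) -
      (0 + s / 3) * (0 + t / 3) * (59112 / 1000000 - 21599 / 1000000 * (0 + t / 3) - 49382 / 1000000 * (0 + s / 3)) := by
  obtain ⟨w, hw⟩ : ∃ w, w = 1 - s := ⟨_, rfl⟩
  obtain ⟨z, hz⟩ : ∃ z, z = 1 - t := ⟨_, rfl⟩
  have hw0 : 0 ≤ w := by linarith
  have hz0 : 0 ≤ z := by linarith
  have key : (2484 / 1000000 + 10637 / 1000000 * (0 + t / 3)) * (1 - 4 / 9 * (0 + s / 3) ^ 2) -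
      (0 + s / 3) * (0 + t / 3) * (59112 / 1000000 - 21599 / 1000000 * (0 + t / 3) - 49382 / 1000000 * (0 + s / 3)) =
      621/250000 * w ^ 2 * z ^ 2 + 25541/3000000 * w ^ 2 * t * z
      + 18089/3000000 * w ^ 2 * t ^ 2 + 621/125000 * s * w * z ^ 2
      + 15689/1500000 * s * w * t * z + 33973/5400000 * s * w * t ^ 2
      + 1771/750000 * s ^ 2 * z ^ 2 + 815071/243000000 * s ^ 2 * t * z
      + 217829/121500000 * s ^ 2 * t ^ 2 := by
    rw [hw, hz]; ring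
  rw [key]; positivity

theorem tp_box_01 {s t : ℝ} (h0 : 0 ≤ s) (h1 : s ≤ 1) (k0 : 0 ≤ t) (k1 : t ≤ 1) :
    0 ≤ (2484 / 1000000 + 10637 / 1000000 * (1/3 + t / 3)) * (1 - 4 / 9 * (0 + s / 3) ^ 2) -
      (0 + s / 3) * (1/3 + t / 3) * (59112 / 1000000 - 21599 / 1000000 * (1/3 + t / 3) - 49382 / 1000000 * (0 + s / 3)) := by
  obtain ⟨w, hw⟩ : ∃ w, w = 1 - s := ⟨_, rfl⟩
  obtain ⟨z, hz⟩ : ∃ z, z = 1 - t := ⟨_, rfl⟩
  have hw0 : 0 ≤ w := by linarith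
  have hz0 : 0 ≤ z := by linarith
  have key : (2484 / 1000000 + 10637 / 1000000 * (1/3 + t / 3)) * (1 - 4 / 9 * (0 + s / 3) ^ 2) -
      (0 + s / 3) * (1/3 + t / 3) * (59112 / 1000000 - 21599 / 1000000 * (1/3 + t / 3) - 49382 / 1000000 * (0 + s / 3)) =
      18089/3000000 * w ^ 2 * z ^ 2 + 3121/200000 * w ^ 2 * t * z
      + 14363/1500000 * w ^ 2 * t ^ 2 + 33973/5400000 * s * w * z ^ 2
      + 198529/13500000 * s * w * t * z + 31099/3375000 * s * w * t ^ 2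
      + 217829/121500000 * s ^ 2 * z ^ 2 + 309187/81000000 * s ^ 2 * t * z
      + 343147/121500000 * s ^ 2 * t ^ 2 := by
    rw [hw, hz]; ring
  rw [key]; positivity

theorem tp_box_02 {s t : ℝ} (h0 : 0 ≤ s) (h1 : s ≤ 1) (k0 : 0 ≤ t) (k1 : t ≤ 1) :
    0 ≤ (2484 / 1000000 + 10637 / 1000000 * (2/3 + t / 3)) * (1 - 4 / 9 * (0 + s / 3) ^ 2) -
      (0 + s / 3) * (2/3 + t / 3) * (59112 / 1000000 - 21599 / 1000000 * (2/3 + t / 3) - 49382 / 1000000 * (0 + s / 3)) := by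
  obtain ⟨w, hw⟩ : ∃ w, w = 1 - s := ⟨_, rfl⟩
  obtain ⟨z, hz⟩ : ∃ z, z = 1 - t := ⟨_, rfl⟩
  have hw0 : 0 ≤ w := by linarith
  have hz0 : 0 ≤ z := by linarith
  have key : (2484 / 1000000 + 10637 / 1000000 * (2/3 + t / 3)) * (1 - 4 / 9 * (0 + s / 3) ^ 2) -
      (0 + s / 3) * (2/3 + t / 3) * (59112 / 1000000 - 21599 / 1000000 * (2/3 + t / 3) - 49382 / 1000000 * (0 + s / 3)) =
      14363/1500000 * w ^ 2 * z ^ 2 + 68089/3000000 * w ^ 2 * t * z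
      + 13121/1000000 * w ^ 2 * t ^ 2 + 31099/3375000 * s * w * z ^ 2
      + 19937/900000 * s * w * t * z + 41213/3000000 * s * w * t ^ 2
      + 343147/121500000 * s ^ 2 * z ^ 2 + 363523/48600000 * s ^ 2 * t * z
      + 27619/5062500 * s ^ 2 * t ^ 2 := by
    rw [hw, hz]; ring
  rw [key]; positivity

theorem tp_box_10 {s t : ℝ} (h0 : 0 ≤ s) (h1 : s ≤ 1) (k0 : 0 ≤ t) (k1 : t ≤ 1) :
    0 ≤ (2484 / 1000000 + 10637 / 1000000 * (0 + t / 3)) * (1 - 4 / 9 * (1/3 + s / 3) ^ 2) -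
      (1/3 + s / 3) * (0 + t / 3) * (59112 / 1000000 - 21599 / 1000000 * (0 + t / 3) - 49382 / 1000000 * (1/3 + s / 3)) := by
  obtain ⟨w, hw⟩ : ∃ w, w = 1 - s := ⟨_, rfl⟩
  obtain ⟨z, hz⟩ : ∃ z, z = 1 - t := ⟨_, rfl⟩
  have hw0 : 0 ≤ w := by linarith
  have hz0 : 0 ≤ z := by linarith
  have key : (2484 / 1000000 + 10637 / 1000000 * (0 + t / 3)) * (1 - 4 / 9 * (1/3 + s / 3) ^ 2) -
      (1/3 + s / 3) * (0 + t / 3) * (59112 / 1000000 - 21599 / 1000000 * (0 + t / 3) - 49382 / 1000000 * (1/3 + s / 3)) =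
      1771/750000 * w ^ 2 * z ^ 2 + 815071/243000000 * w ^ 2 * t * z
      + 217829/121500000 * w ^ 2 * t ^ 2 + 1679/375000 * s * w * z ^ 2
      + 359333/121500000 * s * w * t * z + 213847/243000000 * s * w * t ^ 2
      + 299/150000 * s ^ 2 * z ^ 2 + 245869/243000000 * s ^ 2 * t * z
      + 150271/243000000 * s ^ 2 * t ^ 2 := by
    rw [hw, hz]; ring
  rw [key]; positivity

theorem tp_box_11 {s t : ℝ} (h0 : 0 ≤ s) (h1 : s ≤ 1) (k0 : 0 ≤ t) (k1 : t ≤ 1) :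
    0 ≤ (2484 / 1000000 + 10637 / 1000000 * (1/3 + t / 3)) * (1 - 4 / 9 * (1/3 + s / 3) ^ 2) -
      (1/3 + s / 3) * (1/3 + t / 3) * (59112 / 1000000 - 21599 / 1000000 * (1/3 + t / 3) - 49382 / 1000000 * (1/3 + s / 3)) := by
  obtain ⟨w, hw⟩ : ∃ w, w = 1 - s := ⟨_, rfl⟩
  obtain ⟨z, hz⟩ : ∃ z, z = 1 - t := ⟨_, rfl⟩
  have hw0 : 0 ≤ w := by linarith
  have hz0 : 0 ≤ z := by linarith
  have key : (2484 / 1000000 + 10637 / 1000000 * (1/3 + t / 3)) * (1 - 4 / 9 * (1/3 + s / 3) ^ 2) -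
      (1/3 + s / 3) * (1/3 + t / 3) * (59112 / 1000000 - 21599 / 1000000 * (1/3 + t / 3) - 49382 / 1000000 * (1/3 + s / 3)) =
      217829/121500000 * w ^ 2 * z ^ 2 + 309187/81000000 * w ^ 2 * t * z
      + 343147/121500000 * w ^ 2 * t ^ 2 + 213847/243000000 * s * w * z ^ 2
      + 22787/40500000 * s * w * t * z + 7907/3796875 * s * w * t ^ 2
      + 150271/243000000 * s ^ 2 * z ^ 2 + 23681/16200000 * s ^ 2 * t * z
      + 296863/121500000 * s ^ 2 * t ^ 2 := by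
    rw [hw, hz]; ring
  rw [key]; positivity

theorem tp_box_12 {s t : ℝ} (h0 : 0 ≤ s) (h1 : s ≤ 1) (k0 : 0 ≤ t) (k1 : t ≤ 1) :
    0 ≤ (2484 / 1000000 + 10637 / 1000000 * (2/3 + t / 3)) * (1 - 4 / 9 * (1/3 + s / 3) ^ 2) -
      (1/3 + s / 3) * (2/3 + t / 3) * (59112 / 1000000 - 21599 / 1000000 * (2/3 + t / 3) - 49382 / 1000000 * (1/3 + s / 3)) := by
  obtain ⟨w, hw⟩ : ∃ w, w = 1 - s := ⟨_, rfl⟩
  obtain ⟨z, hz⟩ : ∃ z, z = 1 - t := ⟨_, rfl⟩
  have hw0 : 0 ≤ w := by linarith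
  have hz0 : 0 ≤ z := by linarith
  have key : (2484 / 1000000 + 10637 / 1000000 * (2/3 + t / 3)) * (1 - 4 / 9 * (1/3 + s / 3) ^ 2) -
      (1/3 + s / 3) * (2/3 + t / 3) * (59112 / 1000000 - 21599 / 1000000 * (2/3 + t / 3) - 49382 / 1000000 * (1/3 + s / 3)) =
      343147/121500000 * w ^ 2 * z ^ 2 + 363523/48600000 * w ^ 2 * t * z
      + 27619/5062500 * w ^ 2 * t ^ 2 + 7907/3796875 * s * w * z ^ 2
      + 188747/24300000 * s * w * t * z + 130973/16200000 * s * w * t ^ 2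
      + 296863/121500000 * s ^ 2 * z ^ 2 + 2019689/243000000 * s ^ 2 * t * z
      + 120983/16200000 * s ^ 2 * t ^ 2 := by
    rw [hw, hz]; ring
  rw [key]; positivity

theorem tp_box_20 {s t : ℝ} (h0 : 0 ≤ s) (h1 : s ≤ 1) (k0 : 0 ≤ t) (k1 : t ≤ 1) :
    0 ≤ (2484 / 1000000 + 10637 / 1000000 * (0 + t / 3)) * (1 - 4 / 9 * (2/3 + s / 3) ^ 2) -
      (2/3 + s / 3) * (0 + t / 3) * (59112 / 1000000 - 21599 / 1000000 * (0 + t / 3) - 49382 / 1000000 * (2/3 + s / 3)) := by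
  obtain ⟨w, hw⟩ : ∃ w, w = 1 - s := ⟨_, rfl⟩
  obtain ⟨z, hz⟩ : ∃ z, z = 1 - t := ⟨_, rfl⟩
  have hw0 : 0 ≤ w := by linarith
  have hz0 : 0 ≤ z := by linarith
  have key : (2484 / 1000000 + 10637 / 1000000 * (0 + t / 3)) * (1 - 4 / 9 * (2/3 + s / 3) ^ 2) -
      (2/3 + s / 3) * (0 + t / 3) * (59112 / 1000000 - 21599 / 1000000 * (0 + t / 3) - 49382 / 1000000 * (2/3 + s / 3)) =
      299/150000 * w ^ 2 * z ^ 2 + 245869/243000000 * w ^ 2 * t * z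
      + 150271/243000000 * w ^ 2 * t ^ 2 + 437/125000 * s * w * z ^ 2
      + 8827/8100000 * s * w * t * z + 129079/81000000 * s * w * t ^ 2
      + 69/50000 * s ^ 2 * z ^ 2 + 8027/5400000 * s ^ 2 * t * z
      + 8459/3375000 * s ^ 2 * t ^ 2 := by
    rw [hw, hz]; ring
  rw [key]; positivity

theorem tp_box_21 {s t : ℝ} (h0 : 0 ≤ s) (h1 : s ≤ 1) (k0 : 0 ≤ t) (k1 : t ≤ 1) :
    0 ≤ (2484 / 1000000 + 10637 / 1000000 * (1/3 + t / 3)) * (1 - 4 / 9 * (2/3 + s / 3) ^ 2) -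
      (2/3 + s / 3) * (1/3 + t / 3) * (59112 / 1000000 - 21599 / 1000000 * (1/3 + t / 3) - 49382 / 1000000 * (2/3 + s / 3)) := by
  obtain ⟨w, hw⟩ : ∃ w, w = 1 - s := ⟨_, rfl⟩
  obtain ⟨z, hz⟩ : ∃ z, z = 1 - t := ⟨_, rfl⟩
  have hw0 : 0 ≤ w := by linarith
  have hz0 : 0 ≤ z := by linarith
  have key : (2484 / 1000000 + 10637 / 1000000 * (1/3 + t / 3)) * (1 - 4 / 9 * (2/3 + s / 3) ^ 2) -
      (2/3 + s / 3) * (1/3 + t / 3) * (59112 / 1000000 - 21599 / 1000000 * (1/3 + t / 3) - 49382 / 1000000 * (2/3 + s / 3)) =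
      150271/243000000 * w ^ 2 * z ^ 2 + 23681/16200000 * w ^ 2 * t * z
      + 296863/121500000 * w ^ 2 * t ^ 2 + 129079/81000000 * s * w * z ^ 2
      + 71341/13500000 * s * w * t * z + 77869/10125000 * s * w * t ^ 2
      + 8459/3375000 * s ^ 2 * z ^ 2 + 8539/1000000 * s ^ 2 * t * z
      + 113839/13500000 * s ^ 2 * t ^ 2 := by
    rw [hw, hz]; ring
  rw [key]; positivity

theorem tp_box_22 {s t : ℝ} (h0 : 0 ≤ s) (h1 : s ≤ 1) (k0 : 0 ≤ t) (k1 : t ≤ 1) :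
    0 ≤ (2484 / 1000000 + 10637 / 1000000 * (2/3 + t / 3)) * (1 - 4 / 9 * (2/3 + s / 3) ^ 2) -
      (2/3 + s / 3) * (2/3 + t / 3) * (59112 / 1000000 - 21599 / 1000000 * (2/3 + t / 3) - 49382 / 1000000 * (2/3 + s / 3)) := by
  obtain ⟨w, hw⟩ : ∃ w, w = 1 - s := ⟨_, rfl⟩
  obtain ⟨z, hz⟩ : ∃ z, z = 1 - t := ⟨_, rfl⟩
  have hw0 : 0 ≤ w := by linarith
  have hz0 : 0 ≤ z := by linarith
  have key : (2484 / 1000000 + 10637 / 1000000 * (2/3 + t / 3)) * (1 - 4 / 9 * (2/3 + s / 3) ^ 2) -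
      (2/3 + s / 3) * (2/3 + t / 3) * (59112 / 1000000 - 21599 / 1000000 * (2/3 + t / 3) - 49382 / 1000000 * (2/3 + s / 3)) =
      296863/121500000 * w ^ 2 * z ^ 2 + 2019689/243000000 * w ^ 2 * t * z
      + 120983/16200000 * w ^ 2 * t ^ 2 + 77869/10125000 * s * w * z ^ 2
      + 1031881/40500000 * s * w * t * z + 117653/5400000 * s * w * t ^ 2
      + 113839/13500000 * s ^ 2 * z ^ 2 + 680159/27000000 * s ^ 2 * t * z
      + 86213/4500000 * s ^ 2 * t ^ 2 := by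
    rw [hw, hz]; ring
  rw [key]; positivity

theorem tp_key {ρ y : ℝ} (hρ0 : 0 ≤ ρ) (hρ1 : ρ ≤ 1) (hy0 : 0 ≤ y) (hy1 : y ≤ 1) :
    0 ≤ (2484 / 1000000 + 10637 / 1000000 * y) * (1 - 4 / 9 * ρ ^ 2) -
      ρ * y * (59112 / 1000000 - 21599 / 1000000 * y - 49382 / 1000000 * ρ) := by
  have e0 : ∀ x : ℝ, 0 + (3 * x) / 3 = x := fun x => by ring
  have e1 : ∀ x : ℝ, 1/3 + (3 * x - 1) / 3 = x := fun x => by ring
  have e2 : ∀ x : ℝ, 2/3 + (3 * x - 2) / 3 = x := fun x => by ring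
  rcases le_total ρ (1 / 3) with a | a
  · rcases le_total y (1 / 3) with b | b
    · have := tp_box_00 (s := 3 * ρ) (t := 3 * y) (by linarith) (by linarith) (by linarith)
        (by linarith)
      rwa [e0, e0] at this
    · rcases le_total y (2 / 3) with c | c
      · have := tp_box_01 (s := 3 * ρ) (t := 3 * y - 1) (by linarith) (by linarith) (by linarith)
          (by linarith)
        rwa [e0, e1] at this
      · have := tp_box_02 (s := 3 * ρ) (t := 3 * y - 2) (by linarith) (by linarith) (by linarith)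
          (by linarith)
        rwa [e0, e2] at this
  · rcases le_total ρ (2 / 3) with a' | a'
    · rcases le_total y (1 / 3) with b | b
      · have := tp_box_10 (s := 3 * ρ - 1) (t := 3 * y) (by linarith) (by linarith) (by linarith)
          (by linarith)
        rwa [e1, e0] at this
      · rcases le_total y (2 / 3) with c | c
        · have := tp_box_11 (s := 3 * ρ - 1) (t := 3 * y - 1) (by linarith) (by linarith)
            (by linarith) (by linarith)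
          rwa [e1, e1] at this
        · have := tp_box_12 (s := 3 * ρ - 1) (t := 3 * y - 2) (by linarith) (by linarith)
            (by linarith) (by linarith)
          rwa [e1, e2] at this
    · rcases le_total y (1 / 3) with b | b
      · have := tp_box_20 (s := 3 * ρ - 2) (t := 3 * y) (by linarith) (by linarith) (by linarith)
          (by linarith)
        rwa [e2, e0] at this
      · rcases le_total y (2 / 3) with c | c
        · have := tp_box_21 (s := 3 * ρ - 2) (t := 3 * y - 1) (by linarith) (by linarith)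
            (by linarith) (by linarith)
          rwa [e2, e1] at this
        · have := tp_box_22 (s := 3 * ρ - 2) (t := 3 * y - 2) (by linarith) (by linarith)
            (by linarith) (by linarith)
          rwa [e2, e2] at this

/-- the bound for pairs that are not both heavy -/
theorem Tp_23 {ρ y : ℝ} (hρ0 : 0 ≤ ρ) (hρ1 : ρ ≤ 1) (hy0 : 0 ≤ y) (hy1 : y ≤ 1) :
    y * (175 / 1000 - 856 / 10000 * c2f ρ (2 / 3)) ≤ Tp (2 / 3) (17 / 25) ρ y := by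
  have hD := den_pos hρ0 hρ1 (by norm_num : (0 : ℝ) ≤ 2 / 3) (by norm_num)
  have hc := c2f_nonneg hρ0 hρ1 (by norm_num : (0 : ℝ) ≤ 2 / 3) (by norm_num)
  refine le_trans ?_ (Tb_ge (by norm_num) hc (mul_nonneg hρ0 hc) (by norm_num) hy0 hy1)
  apply mul_le_mul_of_nonneg_left _ hy0
  have hce : c2f ρ (2 / 3) * (1 - ρ ^ 2 * (2 / 3) ^ 2) = ρ := by
    unfold c2f; exact div_mul_cancel₀ _ hD.ne'
  set c := c2f ρ (2 / 3) with hcd
  -- reduce to the polynomial inequality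
  have key : c * y * (59112 / 1000000 - 21599 / 1000000 * y - 49382 / 1000000 * ρ)
      ≤ 2484 / 1000000 + 10637 / 1000000 * y := by
    have h1 := tp_key hρ0 hρ1 hy0 hy1
    have h2 : c * y * (59112 / 1000000 - 21599 / 1000000 * y - 49382 / 1000000 * ρ) *
        (1 - ρ ^ 2 * (2 / 3) ^ 2)
        ≤ (2484 / 1000000 + 10637 / 1000000 * y) * (1 - ρ ^ 2 * (2 / 3) ^ 2) := by
      calc _ = (c * (1 - ρ ^ 2 * (2 / 3) ^ 2)) * y * (59112 / 1000000 - 21599 / 1000000 * y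
            - 49382 / 1000000 * ρ) := by ring
        _ ≤ _ := by rw [hce]; linarith
    exact le_of_mul_le_mul_right h2 hD
  have hcρ : 0 ≤ c * ρ * y := mul_nonneg (mul_nonneg hc hρ0) hy0
  have hcy : 0 ≤ c * y := mul_nonneg hc hy0
  have hcy2 : 0 ≤ c * y ^ 2 := mul_nonneg hc (sq_nonneg y)
  nlinarith [key, hcρ, hcy, hcy2, hc]

/-- the bound for pairs of heavy vectors -/
theorem Tp_45 {ρ y : ℝ} (hρ0 : 0 ≤ ρ) (hρ1 : ρ ≤ 1) (hy0 : 3 / 4 ≤ y) (hy1 : y ≤ 1) :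
    y * (2030 / 10000 - 1773 / 10000 * c2f ρ (4 / 5)) ≤ Tp (4 / 5) (3 / 4) ρ y := by
  have hc := c2f_nonneg hρ0 hρ1 (by norm_num : (0 : ℝ) ≤ 4 / 5) (by norm_num)
  have hy0' : 0 ≤ y := by linarith
  refine le_trans ?_ (Tb_ge (by norm_num) hc (mul_nonneg hρ0 hc) (by norm_num) hy0' hy1)
  apply mul_le_mul_of_nonneg_left _ hy0'
  set c := c2f ρ (4 / 5) with hcd
  have h1 : 0 ≤ c * (1 - y) := mul_nonneg hc (by linarith)
  have h2 : 0 ≤ c * (1 - y) ^ 2 := mul_nonneg hc (sq_nonneg _)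
  have h3 : 0 ≤ ρ * c * y := mul_nonneg (mul_nonneg hρ0 hc) hy0'
  nlinarith [h1, h2, h3]

end Pool.Agent.Work.MP_6cd513_gt
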