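import Pool.Agent.Work.MP_6cd513_gt.T2
import Pool.Agent.Work.MP_6cd513_gt.Eta

/-!
# Slab volumes: a dimension-free defect in Ball's bound
-/

open MeasureTheory ProbabilityTheory Matrix Finset
open scoped ENNReal

namespace Pool.Agent.Work.MP_6cd513_gt

theorem gk_density (k : ℕ) : (volume : Measure (Fin k → ℝ)).withDensity
    (fun y => ENNReal.ofReal (Real.exp (k * kap - (y ⬝ᵥ y) / 2))) = gk k := by
  symm
  unfold gk
  apply Measure.pi_eq
  intro s hs
  have hms : MeasurableSet (Set.pi Set.univ s) := MeasurableSet.univ_pi hs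
  rw [withDensity_apply _ hms]
  have hprod : ∀ y : Fin k → ℝ, Real.exp (k * kap - (y ⬝ᵥ y) / 2)
      = ∏ i, gaussianPDFReal 0 1 (y i) := by
    intro y
    simp_rw [rho_eq]
    rw [← Real.exp_sum]
    congr 1
    rw [Finset.sum_sub_distrib, Finset.sum_const, Finset.card_univ, Fintype.card_fin,
      nsmul_eq_mul, ← Finset.sum_div]
    congr 2
    simp only [dotProduct]
    exact Finset.sum_congr rfl fun i _ => by ring
  simp_rw [hprod]
  rw [show (volume : Measure (Fin k → ℝ)) = Measure.pi (fun _ => volume) from rfl,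
    Measure.restrict_pi_pi]
  have hri : ∀ i, Integrable (gaussianPDFReal 0 1) ((volume : Measure ℝ).restrict (s i)) :=
    fun i => (integrable_gaussianPDFReal 0 1).integrableOn
  have hint : Integrable (fun y : Fin k → ℝ => ∏ i, gaussianPDFReal 0 1 (y i))
      (Measure.pi fun i => (volume : Measure ℝ).restrict (s i)) :=
    Integrable.fintype_prod hri
  rw [← ofReal_integral_eq_lintegral_ofReal hint (Filter.Eventually.of_forall fun y =>
    Finset.prod_nonneg fun i _ => gaussianPDFReal_nonneg _ _ _)]
  rw [integral_fintype_prod_eq_prod, ENNReal.ofReal_prod_of_nonneg]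
  · refine Finset.prod_congr rfl fun i _ => ?_
    rw [gaussianReal_apply_eq_integral 0 one_ne_zero]
  · intro i _
    exact integral_nonneg fun x => gaussianPDFReal_nonneg _ _ _

theorem gauss_weight (k : ℕ) {F : (Fin k → ℝ) → ℝ≥0∞} (hF : Measurable F) :
    ∫⁻ y, F y * ENNReal.ofReal (Real.exp (-(y ⬝ᵥ y) / 2))
      = ENNReal.ofReal ((2 * gam) ^ k) * ∫⁻ y, F y ∂(gk k) := by
  have hc : Continuous fun y : Fin k → ℝ => Real.exp (k * kap - (y ⬝ᵥ y) / 2) := by
    simp only [dotProduct]; fun_prop
  rw [← gk_density, lintegral_withDensity_eq_lintegral_mul _ hc.measurable.ennreal_ofReal hF,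
    ← lintegral_const_mul' _ _ ENNReal.ofReal_ne_top]
  refine lintegral_congr fun y => ?_
  simp only [Pi.mul_apply]
  rw [← mul_assoc, mul_comm, ← ENNReal.ofReal_mul (by have := gam_pos; positivity)]
  congr 2
  have h1 : (2 * gam) ^ k = Real.exp (-(k * kap)) := by
    have h2 : 2 * gam = Real.exp (-kap) := by
      unfold kap gam
      rw [neg_neg, Real.exp_log (Real.sqrt_pos.2 (by positivity))]
      have h6 : 2 * Real.pi = 2 ^ 2 * (Real.pi / 2) := by ring
      rw [h6, Real.sqrt_mul (by positivity), Real.sqrt_sq (by positivity)]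
    rw [h2, ← Real.exp_nat_mul]
    congr 1
    ring
  rw [h1, ← Real.exp_add]
  congr 1
  ring

variable {ι : Type*} [Fintype ι] {k : ℕ}

/-- the determinant defect as a function of the quantile values -/
noncomputable def detDef (α w : ι → ℝ) (u : ι → Fin k → ℝ) (t : ι → ℝ) : ℝ :=
  Real.log (frameM (fun i => α i * (gam * Real.exp (t i ^ 2 / 2) / w i)) u).det
    - ∑ i, α i * Real.log (gam * Real.exp (t i ^ 2 / 2) / w i)

/-- **Transport bound with dimension-free defect.** -/
theorem transport_bound {α w : ι → ℝ} {u : ι → Fin k → ℝ} (hα : ∀ i, 0 ≤ α i)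
    (hw : ∀ i, 0 < w i) (hu : ∀ i, u i ⬝ᵥ u i = 1) (hiso : frameM α u = 1)
    {q : (Fin k → ℝ) → ℝ} (hq : Measurable q) {B : ℝ} (hB : ∀ x, |q x| ≤ B)
    (H : ∀ (t : ι → ℝ) (z : Fin k → ℝ), q z ≤ detDef α w u t
      + (1 / 2) * ∑ i, α i * (t i - u i ⬝ᵥ z) ^ 2) :
    volume (slab w u) ≤ ENNReal.ofReal (Real.exp (∑ i, α i * Real.log (2 * w i)
      - ∫ x, q x ∂(gk k))) := by
  have hms : MeasurableSet (slab w u) := (isOpen_slab w u).measurableSet
  -- for every s
  have hmain : ∀ s : ℝ, 0 < s → s < 1 → volume (slab w u) ≤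
      ENNReal.ofReal (Real.exp (∑ i, α i * Real.log (2 * w i) - (1 - s) * ∫ x, q x ∂(gk k))) := by
    intro s hs0 hs1
    have h1s : 0 < 1 - s := by linarith
    let G : (Fin k → ℝ) → ℝ≥0∞ := fun y => ⨅ z : Fin k → ℝ,
      ENNReal.ofReal (Real.exp ((1 - s) * (-q z + (1 / 2) * ((y - z) ⬝ᵥ (y - z)))))
    have hGm : Measurable G := by
      apply UpperSemicontinuous.measurable
      apply upperSemicontinuous_iInf
      intro z
      apply Continuous.upperSemicontinuous
      apply ENNReal.continuous_ofReal.comp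
      simp only [dotProduct]
      fun_prop
    have hGk : ∫⁻ y, G y ∂(gk k) ≤ ENNReal.ofReal (Real.exp (-((1 - s) * ∫ x, q x ∂(gk k)))) := by
      rw [← integral_const_mul]
      refine t2_pi hs0 hs1 k G hGm (fun x => (1 - s) * q x) (hq.const_mul _) ((1 - s) * B) ?_ ?_
      · intro x
        rw [abs_mul, abs_of_pos h1s]
        exact mul_le_mul_of_nonneg_left (hB x) h1s.le
      · intro x y
        refine (iInf_le _ x).trans (le_of_eq ?_)
        have e : (y - x) ⬝ᵥ (y - x) = (x - y) ⬝ᵥ (x - y) := by
          rw [← neg_sub x y, neg_dotProduct, dotProduct_neg, neg_neg]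
        rw [e]
        congr 2
        ring
    have hchg := lintegral_image_eq_lintegral_abs_det_fderiv_mul
      (volume : Measure (Fin k → ℝ)) hms
      (fun x hx => (Theta_hasFDerivAt (α := α) hw hx).hasFDerivWithinAt)
      (Theta_injOn hα hw hiso) (fun y => G y * ENNReal.ofReal (Real.exp (-(y ⬝ᵥ y) / 2)))
    have hle : ∫⁻ y in Theta α w u '' slab w u, G y * ENNReal.ofReal (Real.exp (-(y ⬝ᵥ y) / 2))
        ≤ ENNReal.ofReal ((2 * gam) ^ k) *
          ENNReal.ofReal (Real.exp (-((1 - s) * ∫ x, q x ∂(gk k)))) := by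
      refine (setLIntegral_le_lintegral _ _).trans ?_
      rw [gauss_weight k hGm]
      exact mul_le_mul_right hGk _
    rw [hchg] at hle
    set c : ℝ := Real.exp (∑ i, α i * (Real.log gam - Real.log (w i))) with hc
    have hcpos : 0 < c := Real.exp_pos _
    have hpt : ∀ x ∈ slab w u, ENNReal.ofReal c ≤
        ENNReal.ofReal |(LinearMap.toContinuousLinearMap (toLin'
          (frameM (fun i => α i * tW w u x i) u))).det| *
          (G (Theta α w u x) *
            ENNReal.ofReal (Real.exp (-(Theta α w u x ⬝ᵥ Theta α w u x) / 2))) := by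
      intro x hx
      have hdet : (LinearMap.toContinuousLinearMap (toLin'
          (frameM (fun i => α i * tW w u x i) u))).det
          = (frameM (fun i => α i * tW w u x i) u).det := by
        rw [ContinuousLinearMap.det]
        simp
      rw [hdet]
      set t : ι → ℝ := fun i => Tq ((u i ⬝ᵥ x) / w i) with ht
      set y := Theta α w u x with hy
      have htw : ∀ i, tW w u x i = gam * Real.exp (t i ^ 2 / 2) / w i := fun i => rfl
      have hD := exp_le_det hα hu hiso (tW_pos u hw x)
      have hDpos : 0 < (frameM (fun i => α i * tW w u x i) u).det :=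
        lt_of_lt_of_le (Real.exp_pos _) hD
      have hdd : detDef α w u t = Real.log (frameM (fun i => α i * tW w u x i) u).det
          - ∑ i, α i * Real.log (tW w u x i) := by
        unfold detDef
        simp only [htw]
      have hdd0 : 0 ≤ detDef α w u t := by
        rw [hdd, sub_nonneg]
        have := Real.log_le_log (Real.exp_pos _) hD
        rwa [Real.log_exp] at this
      have hR1 := Theta_sq_le (w := w) hα hiso x
      set R : ℝ := detDef α w u t + (1 / 2) * (∑ i, α i * t i ^ 2 - y ⬝ᵥ y) with hR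
      have hR0 : 0 ≤ R := by
        have : 0 ≤ ∑ i, α i * t i ^ 2 - y ⬝ᵥ y := by
          simp only [ht, hy]; linarith
        rw [hR]; linarith
      have hyz : ∀ z : Fin k → ℝ, y ⬝ᵥ z = ∑ i, α i * (t i * (u i ⬝ᵥ z)) := by
        intro z
        rw [hy, Theta, sum_dotProduct]
        refine Finset.sum_congr rfl fun i _ => ?_
        rw [smul_dotProduct, smul_eq_mul]
        ring
      have hGy : ENNReal.ofReal (Real.exp (-R)) ≤ G y := by
        refine le_iInf fun z => ENNReal.ofReal_le_ofReal (Real.exp_le_exp.2 ?_)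
        have h1 := H t z
        have h2 : ∑ i, α i * (t i - u i ⬝ᵥ z) ^ 2
            = ∑ i, α i * t i ^ 2 - 2 * (y ⬝ᵥ z) + z ⬝ᵥ z := by
          rw [hyz z, ← iso_dot hiso z z, Finset.mul_sum, ← Finset.sum_sub_distrib,
            ← Finset.sum_add_distrib]
          exact Finset.sum_congr rfl fun i _ => by ring
        have h3 : (y - z) ⬝ᵥ (y - z) = y ⬝ᵥ y - 2 * (y ⬝ᵥ z) + z ⬝ᵥ z := by
          rw [sub_dotProduct, dotProduct_sub, dotProduct_sub, dotProduct_comm z y]
          ring
        have h4 : -R ≤ -q z + (1 / 2) * ((y - z) ⬝ᵥ (y - z)) := by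
          rw [h3, hR]
          rw [h2] at h1
          linarith
        have h5 : -R ≤ (1 - s) * (-R) := by nlinarith
        exact h5.trans (mul_le_mul_of_nonneg_left h4 h1s.le)
      refine le_trans ?_ (mul_le_mul_right (mul_le_mul_left hGy _) _)
      rw [← ENNReal.ofReal_mul (Real.exp_pos _).le, ← ENNReal.ofReal_mul (abs_nonneg _)]
      apply ENNReal.ofReal_le_ofReal
      rw [abs_of_pos hDpos]
      conv_rhs => rw [← Real.exp_log hDpos]
      rw [← Real.exp_add, ← Real.exp_add, hc]
      apply le_of_eq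
      congr 1
      rw [hR, hdd]
      have hlog : ∀ i, Real.log (tW w u x i) = Real.log gam + t i ^ 2 / 2
          - Real.log (w i) := by
        intro i
        rw [htw, Real.log_div (mul_pos gam_pos (Real.exp_pos _)).ne' (hw i).ne',
          Real.log_mul gam_pos.ne' (Real.exp_pos _).ne', Real.log_exp]
      have h6 : ∑ i, α i * Real.log (tW w u x i) = ∑ i, α i * (Real.log gam - Real.log (w i))
          + (1 / 2) * ∑ i, α i * t i ^ 2 := by
        rw [Finset.mul_sum, ← Finset.sum_add_distrib]
        refine Finset.sum_congr rfl fun i _ => ?_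
        rw [hlog i]; ring
      rw [h6]
      ring
    have hle2 : ENNReal.ofReal c * volume (slab w u)
        ≤ ENNReal.ofReal ((2 * gam) ^ k) *
          ENNReal.ofReal (Real.exp (-((1 - s) * ∫ x, q x ∂(gk k)))) := by
      rw [← setLIntegral_const]
      exact (setLIntegral_mono' hms hpt).trans hle
    have hfin : ENNReal.ofReal ((2 * gam) ^ k) *
          ENNReal.ofReal (Real.exp (-((1 - s) * ∫ x, q x ∂(gk k)))) = ENNReal.ofReal c *
        ENNReal.ofReal (Real.exp (∑ i, α i * Real.log (2 * w i)
          - (1 - s) * ∫ x, q x ∂(gk k))) := by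
      rw [← ENNReal.ofReal_mul hcpos.le, ← ENNReal.ofReal_mul (by have := gam_pos; positivity)]
      congr 1
      have h1 : ∑ i, α i * (Real.log gam - Real.log (w i)) + ∑ i, α i * Real.log (2 * w i)
          = k * Real.log (2 * gam) := by
        rw [← Finset.sum_add_distrib, ← sum_alpha hu hiso, Finset.sum_mul]
        refine Finset.sum_congr rfl fun i _ => ?_
        rw [Real.log_mul (by norm_num) (hw i).ne', Real.log_mul (by norm_num) gam_pos.ne']
        ring
      have h2 : (2 * gam) ^ k = Real.exp (k * Real.log (2 * gam)) := by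
        rw [← Real.log_pow, Real.exp_log (by have := gam_pos; positivity)]
      rw [h2, hc, ← Real.exp_add, ← Real.exp_add, ← h1]
      congr 1
      ring
    rw [hfin] at hle2
    exact (ENNReal.mul_le_mul_iff_right (ENNReal.ofReal_pos.2 hcpos).ne'
      ENNReal.ofReal_ne_top).1 hle2
  -- s → 0
  have hlim : Filter.Tendsto (fun s : ℝ => ENNReal.ofReal (Real.exp
      (∑ i, α i * Real.log (2 * w i) - (1 - s) * ∫ x, q x ∂(gk k))))
      (nhdsWithin 0 (Set.Ioi 0)) (nhds (ENNReal.ofReal (Real.exp
      (∑ i, α i * Real.log (2 * w i) - (1 - 0) * ∫ x, q x ∂(gk k))))) := by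
    apply Filter.Tendsto.mono_left _ nhdsWithin_le_nhds
    have hc : Continuous fun s : ℝ => ENNReal.ofReal (Real.exp
      (∑ i, α i * Real.log (2 * w i) - (1 - s) * ∫ x, q x ∂(gk k))) := by
      apply ENNReal.continuous_ofReal.comp
      fun_prop
    exact hc.tendsto 0
  rw [sub_zero, one_mul] at hlim
  apply ge_of_tendsto hlim
  filter_upwards [Ioo_mem_nhdsGT (show (0 : ℝ) < 1 by norm_num)] with s hs
  exact hmain s hs.1 hs.2

end Pool.Agent.Work.MP_6cd513_gt
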