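import Pool.Agent.Work.MP_6cd513_gt.Cert

/-!
# The transport bound for shifted slabs
-/

open MeasureTheory ProbabilityTheory Matrix Finset
open scoped ENNReal

namespace Pool.Agent.Work.MP_6cd513_gt

variable {ι : Type*} [Fintype ι] {k : ℕ}

/-- the open slab body with shifts -/
def slabS (w : ι → ℝ) (u : ι → Fin k → ℝ) (sh : ι → ℝ) : Set (Fin k → ℝ) :=
  {x | ∀ i, |u i ⬝ᵥ x - sh i| < w i}

theorem isOpen_slabS (w : ι → ℝ) (u : ι → Fin k → ℝ) (sh : ι → ℝ) :
    IsOpen (slabS w u sh) := by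
  have : slabS w u sh = ⋂ i, {x | |dotL (u i) x - sh i| < w i} := by
    ext x; simp [slabS]
  rw [this]
  exact isOpen_iInter_of_finite fun i =>
    isOpen_lt (((dotL (u i)).continuous.sub continuous_const).abs) continuous_const

/-- the transport map -/
noncomputable def ThetaS (α w : ι → ℝ) (u : ι → Fin k → ℝ) (sh : ι → ℝ) (x : Fin k → ℝ) : Fin k → ℝ :=
  ∑ i, (α i * Tq ((u i ⬝ᵥ x - sh i) / w i)) • u i

/-- its derivative weights -/
noncomputable def tWS (w : ι → ℝ) (u : ι → Fin k → ℝ) (sh : ι → ℝ) (x : Fin k → ℝ)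
    (i : ι) : ℝ :=
  Wq ((u i ⬝ᵥ x - sh i) / w i) / w i

omit [Fintype ι] in
theorem mem_slabS_div {w : ι → ℝ} {u : ι → Fin k → ℝ} {sh : ι → ℝ} (hw : ∀ i, 0 < w i) {x : Fin k → ℝ}
    (hx : x ∈ slabS w u sh) (i : ι) : (u i ⬝ᵥ x - sh i) / w i ∈ Set.Ioo (-1 : ℝ) 1 := by
  have h := hx i
  rw [Set.mem_Ioo, ← abs_lt, abs_div, abs_of_pos (hw i), div_lt_one (hw i)]
  exact h

theorem ThetaS_hasFDerivAt {α w : ι → ℝ} {u : ι → Fin k → ℝ} {sh : ι → ℝ} (hw : ∀ i, 0 < w i)
    {x : Fin k → ℝ} (hx : x ∈ slabS w u sh) :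
    HasFDerivAt (ThetaS α w u sh)
      (LinearMap.toContinuousLinearMap (toLin' (frameM (fun i => α i * tWS w u sh x i) u))) x := by
  have h1 : ∀ i ∈ (Finset.univ : Finset ι), HasFDerivAt
      (fun x => (α i * Tq ((u i ⬝ᵥ x - sh i) / w i)) • u i)
      (((α i * tWS w u sh x i) • dotL (u i)).smulRight (u i)) x := by
    intro i _
    have h2 : HasFDerivAt (fun x => (u i ⬝ᵥ x - sh i) / w i) ((w i)⁻¹ • dotL (u i)) x := by
      have h3 : (fun x => (u i ⬝ᵥ x - sh i) / w i)
          = fun x => ((w i)⁻¹ • dotL (u i)) x - sh i / w i := by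
        ext y
        simp only [_root_.smul_apply, dotL_apply, smul_eq_mul]
        ring
      rw [h3]
      exact ((w i)⁻¹ • dotL (u i)).hasFDerivAt.sub_const _
    have h4 := (Tq_hasDerivAt (mem_slabS_div hw hx i)).comp_hasFDerivAt x h2
    have h5 := (h4.const_mul (α i)).smul_const (u i)
    refine h5.congr_fderiv ?_
    ext y p
    simp only [ContinuousLinearMap.smulRight_apply, _root_.smul_apply, dotL_apply, smul_eq_mul,
      Pi.smul_apply, tWS]
    ring
  have h2 := HasFDerivAt.fun_sum h1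
  have h3 : ThetaS α w u sh = fun x => ∑ i, (α i * Tq ((u i ⬝ᵥ x - sh i) / w i)) • u i := rfl
  rw [h3]
  refine h2.congr_fderiv ?_
  ext y p
  simp only [_root_.sum_apply, ContinuousLinearMap.smulRight_apply,
    _root_.smul_apply, dotL_apply, LinearMap.coe_toContinuousLinearMap', toLin'_apply,
    frameM_mulVec, smul_eq_mul]

theorem ThetaS_injOn {α w : ι → ℝ} {u : ι → Fin k → ℝ} {sh : ι → ℝ} (hα : ∀ i, 0 ≤ α i) (hw : ∀ i, 0 < w i)
    (hiso : frameM α u = 1) : Set.InjOn (ThetaS α w u sh) (slabS w u sh) := by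
  intro x hx y hy hxy
  have h1 : ∑ i, (α i * (Tq ((u i ⬝ᵥ x - sh i) / w i) - Tq ((u i ⬝ᵥ y - sh i) / w i))) * (u i ⬝ᵥ (x - y))
      = 0 := by
    have h2 : (ThetaS α w u sh x - ThetaS α w u sh y) ⬝ᵥ (x - y) = 0 := by rw [hxy]; simp
    rw [← h2]
    unfold ThetaS
    rw [← Finset.sum_sub_distrib, sum_dotProduct]
    refine Finset.sum_congr rfl fun i _ => ?_
    rw [← sub_smul, smul_dotProduct, smul_eq_mul]
    ring
  have hnn : ∀ i, 0 ≤ (α i * (Tq ((u i ⬝ᵥ x - sh i) / w i) - Tq ((u i ⬝ᵥ y - sh i) / w i))) *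
      (u i ⬝ᵥ (x - y)) := by
    intro i
    rw [mul_assoc]
    refine mul_nonneg (hα i) ?_
    have hx' := mem_slabS_div hw hx i
    have hy' := mem_slabS_div hw hy i
    have hdot : u i ⬝ᵥ (x - y) = ((u i ⬝ᵥ x - sh i) / w i - (u i ⬝ᵥ y - sh i) / w i) * w i := by
      rw [dotProduct_sub]
      have := (hw i).ne'
      field_simp
      ring
    rw [hdot]
    rcases le_total ((u i ⬝ᵥ x - sh i) / w i) ((u i ⬝ᵥ y - sh i) / w i) with h | h
    · have := Tq_strictMonoOn.monotoneOn hx' hy' h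
      nlinarith [mul_nonneg (mul_nonneg (sub_nonneg.2 this) (sub_nonneg.2 h)) (hw i).le]
    · have := Tq_strictMonoOn.monotoneOn hy' hx' h
      exact mul_nonneg (sub_nonneg.2 this) (mul_nonneg (sub_nonneg.2 h) (hw i).le)
  have h0 := (Finset.sum_eq_zero_iff_of_nonneg (fun i _ => hnn i)).1 h1
  have h2 : ∀ i, α i * (u i ⬝ᵥ (x - y)) = 0 := by
    intro i
    have h3 := h0 i (Finset.mem_univ i)
    rcases mul_eq_zero.1 h3 with h | h
    · rcases mul_eq_zero.1 h with h' | h'
      · rw [h', zero_mul]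
      · have h4 : (u i ⬝ᵥ x - sh i) / w i = (u i ⬝ᵥ y - sh i) / w i :=
          Tq_strictMonoOn.injOn (mem_slabS_div hw hx i) (mem_slabS_div hw hy i)
            (sub_eq_zero.1 h')
        have h5 : u i ⬝ᵥ x = u i ⬝ᵥ y := by
          have := (hw i).ne'
          field_simp at h4
          linarith
        rw [dotProduct_sub, h5, sub_self, mul_zero]
    · rw [h, mul_zero]
  have h3 : x - y = 0 := by
    have h4 := frameM_mulVec α u (x - y)
    rw [hiso, one_mulVec] at h4
    rw [h4]
    refine Finset.sum_eq_zero fun i _ => ?_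
    rw [h2 i, zero_smul]
  exact sub_eq_zero.1 h3

theorem ThetaS_sq_le {α w : ι → ℝ} {u : ι → Fin k → ℝ} {sh : ι → ℝ} (hα : ∀ i, 0 ≤ α i)
    (hiso : frameM α u = 1) (x : Fin k → ℝ) :
    ThetaS α w u sh x ⬝ᵥ ThetaS α w u sh x ≤ ∑ i, α i * Tq ((u i ⬝ᵥ x - sh i) / w i) ^ 2 := by
  have h1' : ∀ z : Fin k → ℝ, ThetaS α w u sh x ⬝ᵥ z
      = ∑ i, α i * (Tq ((u i ⬝ᵥ x - sh i) / w i) * (u i ⬝ᵥ z)) := by
    intro z
    rw [ThetaS, sum_dotProduct]
    refine Finset.sum_congr rfl fun i _ => ?_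
    rw [smul_dotProduct, smul_eq_mul]
    ring
  have h1 := h1' (ThetaS α w u sh x)
  set y := ThetaS α w u sh x with hy
  have h2 := iso_dot hiso y y
  have h3 : 0 ≤ ∑ i, α i * (Tq ((u i ⬝ᵥ x - sh i) / w i) - (u i ⬝ᵥ y)) ^ 2 :=
    Finset.sum_nonneg fun i _ => mul_nonneg (hα i) (sq_nonneg _)
  have h4 : ∑ i, α i * (Tq ((u i ⬝ᵥ x - sh i) / w i) - (u i ⬝ᵥ y)) ^ 2
      = ∑ i, α i * Tq ((u i ⬝ᵥ x - sh i) / w i) ^ 2
        - 2 * ∑ i, α i * (Tq ((u i ⬝ᵥ x - sh i) / w i) * (u i ⬝ᵥ y))
        + ∑ i, α i * ((u i ⬝ᵥ y) * (u i ⬝ᵥ y)) := by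
    rw [Finset.mul_sum, ← Finset.sum_sub_distrib, ← Finset.sum_add_distrib]
    exact Finset.sum_congr rfl fun i _ => by ring
  rw [h4, ← h1, h2] at h3
  linarith


omit [Fintype ι] in
theorem tWS_pos {w : ι → ℝ} (u : ι → Fin k → ℝ) (sh : ι → ℝ) (hw : ∀ i, 0 < w i)
    (x : Fin k → ℝ) (i : ι) : 0 < tWS w u sh x i := by
  unfold tWS Wq
  exact div_pos (mul_pos gam_pos (Real.exp_pos _)) (hw i)

/-- **Transport bound with dimension-free defect.** -/
theorem transport_boundS {α w : ι → ℝ} {u : ι → Fin k → ℝ} {sh : ι → ℝ} (hα : ∀ i, 0 ≤ α i)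
    (hw : ∀ i, 0 < w i) (hu : ∀ i, u i ⬝ᵥ u i = 1) (hiso : frameM α u = 1)
    {q : (Fin k → ℝ) → ℝ} (hq : Measurable q) {B : ℝ} (hB : ∀ x, |q x| ≤ B)
    (H : ∀ (t : ι → ℝ) (z : Fin k → ℝ), q z ≤ detDef α w u t
      + (1 / 2) * ∑ i, α i * (t i - u i ⬝ᵥ z) ^ 2) :
    volume (slabS w u sh) ≤ ENNReal.ofReal (Real.exp (∑ i, α i * Real.log (2 * w i)
      - ∫ x, q x ∂(gk k))) := by
  have hms : MeasurableSet (slabS w u sh) := (isOpen_slabS w u sh).measurableSet
  -- for every s
  have hmain : ∀ s : ℝ, 0 < s → s < 1 → volume (slabS w u sh) ≤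
      ENNReal.ofReal (Real.exp (∑ i, α i * Real.log (2 * w i) - (1 - s) * ∫ x, q x ∂(gk k))) := by
    intro s hs0 hs1
    have h1s : 0 < 1 - s := by linarith
    let G : (Fin k → ℝ) → ℝ≥0∞ := fun y => ⨅ z : Fin k → ℝ,
      ENNReal.ofReal (Real.exp ((1 - s) * (-q z + (1 / 2) * ((y - z) ⬝ᵥ (y - z)))))
    have hGm : Measurable G := by
      apply UpperSemicontinuous.measurable
      apply upperSemicontinuous_iInf
      intro z
      apply Continuous.upperSemicontinuous
      apply ENNReal.continuous_ofReal.comp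
      simp only [dotProduct]
      fun_prop
    have hGk : ∫⁻ y, G y ∂(gk k) ≤ ENNReal.ofReal (Real.exp (-((1 - s) * ∫ x, q x ∂(gk k)))) := by
      rw [← integral_const_mul]
      refine t2_pi hs0 hs1 k G hGm (fun x => (1 - s) * q x) (hq.const_mul _) ((1 - s) * B) ?_ ?_
      · intro x
        rw [abs_mul, abs_of_pos h1s]
        exact mul_le_mul_of_nonneg_left (hB x) h1s.le
      · intro x y
        refine (iInf_le _ x).trans (le_of_eq ?_)
        have e : (y - x) ⬝ᵥ (y - x) = (x - y) ⬝ᵥ (x - y) := by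
          rw [← neg_sub x y, neg_dotProduct, dotProduct_neg, neg_neg]
        rw [e]
        congr 2
        ring
    have hchg := lintegral_image_eq_lintegral_abs_det_fderiv_mul
      (volume : Measure (Fin k → ℝ)) hms
      (fun x hx => (ThetaS_hasFDerivAt (α := α) hw hx).hasFDerivWithinAt)
      (ThetaS_injOn hα hw hiso) (fun y => G y * ENNReal.ofReal (Real.exp (-(y ⬝ᵥ y) / 2)))
    have hle : ∫⁻ y in ThetaS α w u sh '' slabS w u sh, G y * ENNReal.ofReal (Real.exp (-(y ⬝ᵥ y) / 2))
        ≤ ENNReal.ofReal ((2 * gam) ^ k) *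
          ENNReal.ofReal (Real.exp (-((1 - s) * ∫ x, q x ∂(gk k)))) := by
      refine (setLIntegral_le_lintegral _ _).trans ?_
      rw [gauss_weight k hGm]
      exact mul_le_mul_right hGk _
    rw [hchg] at hle
    set c : ℝ := Real.exp (∑ i, α i * (Real.log gam - Real.log (w i))) with hc
    have hcpos : 0 < c := Real.exp_pos _
    have hpt : ∀ x ∈ slabS w u sh, ENNReal.ofReal c ≤
        ENNReal.ofReal |(LinearMap.toContinuousLinearMap (toLin'
          (frameM (fun i => α i * tWS w u sh x i) u))).det| *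
          (G (ThetaS α w u sh x) *
            ENNReal.ofReal (Real.exp (-(ThetaS α w u sh x ⬝ᵥ ThetaS α w u sh x) / 2))) := by
      intro x hx
      have hdet : (LinearMap.toContinuousLinearMap (toLin'
          (frameM (fun i => α i * tWS w u sh x i) u))).det
          = (frameM (fun i => α i * tWS w u sh x i) u).det := by
        rw [ContinuousLinearMap.det]
        simp
      rw [hdet]
      set t : ι → ℝ := fun i => Tq ((u i ⬝ᵥ x - sh i) / w i) with ht
      set y := ThetaS α w u sh x with hy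
      have htw : ∀ i, tWS w u sh x i = gam * Real.exp (t i ^ 2 / 2) / w i := fun i => rfl
      have hD := exp_le_det hα hu hiso (tWS_pos u sh hw x)
      have hDpos : 0 < (frameM (fun i => α i * tWS w u sh x i) u).det :=
        lt_of_lt_of_le (Real.exp_pos _) hD
      have hdd : detDef α w u t = Real.log (frameM (fun i => α i * tWS w u sh x i) u).det
          - ∑ i, α i * Real.log (tWS w u sh x i) := by
        unfold detDef
        simp only [htw]
      have hdd0 : 0 ≤ detDef α w u t := by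
        rw [hdd, sub_nonneg]
        have := Real.log_le_log (Real.exp_pos _) hD
        rwa [Real.log_exp] at this
      have hR1 := ThetaS_sq_le (w := w) (sh := sh) hα hiso x
      set R : ℝ := detDef α w u t + (1 / 2) * (∑ i, α i * t i ^ 2 - y ⬝ᵥ y) with hR
      have hR0 : 0 ≤ R := by
        have : 0 ≤ ∑ i, α i * t i ^ 2 - y ⬝ᵥ y := by
          simp only [ht, hy]; linarith
        rw [hR]; linarith
      have hyz : ∀ z : Fin k → ℝ, y ⬝ᵥ z = ∑ i, α i * (t i * (u i ⬝ᵥ z)) := by
        intro z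
        rw [hy, ThetaS, sum_dotProduct]
        refine Finset.sum_congr rfl fun i _ => ?_
        rw [smul_dotProduct, smul_eq_mul]
        ring
      have hGy : ENNReal.ofReal (Real.exp (-R)) ≤ G y := by
        refine le_iInf fun z => ENNReal.ofReal_le_ofReal (Real.exp_le_exp.2 ?_)
        have h1 := H t z
        have h2 : ∑ i, α i * (t i - u i ⬝ᵥ z) ^ 2
            = ∑ i, α i * t i ^ 2 - 2 * (y ⬝ᵥ z) + z ⬝ᵥ z := by
          rw [hyz z, ← iso_dot hiso z z, Finset.mul_sum, ← Finset.sum_sub_distrib,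
            ← Finset.sum_add_distrib]
          exact Finset.sum_congr rfl fun i _ => by ring
        have h3 : (y - z) ⬝ᵥ (y - z) = y ⬝ᵥ y - 2 * (y ⬝ᵥ z) + z ⬝ᵥ z := by
          rw [sub_dotProduct, dotProduct_sub, dotProduct_sub, dotProduct_comm z y]
          ring
        have h4 : -R ≤ -q z + (1 / 2) * ((y - z) ⬝ᵥ (y - z)) := by
          rw [h3, hR]
          rw [h2] at h1
          linarith
        have h5 : -R ≤ (1 - s) * (-R) := by nlinarith
        exact h5.trans (mul_le_mul_of_nonneg_left h4 h1s.le)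
      refine le_trans ?_ (mul_le_mul_right (mul_le_mul_left hGy _) _)
      rw [← ENNReal.ofReal_mul (Real.exp_pos _).le, ← ENNReal.ofReal_mul (abs_nonneg _)]
      apply ENNReal.ofReal_le_ofReal
      rw [abs_of_pos hDpos]
      conv_rhs => rw [← Real.exp_log hDpos]
      rw [← Real.exp_add, ← Real.exp_add, hc]
      apply le_of_eq
      congr 1
      rw [hR, hdd]
      have hlog : ∀ i, Real.log (tWS w u sh x i) = Real.log gam + t i ^ 2 / 2
          - Real.log (w i) := by
        intro i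
        rw [htw, Real.log_div (mul_pos gam_pos (Real.exp_pos _)).ne' (hw i).ne',
          Real.log_mul gam_pos.ne' (Real.exp_pos _).ne', Real.log_exp]
      have h6 : ∑ i, α i * Real.log (tWS w u sh x i) = ∑ i, α i * (Real.log gam - Real.log (w i))
          + (1 / 2) * ∑ i, α i * t i ^ 2 := by
        rw [Finset.mul_sum, ← Finset.sum_add_distrib]
        refine Finset.sum_congr rfl fun i _ => ?_
        rw [hlog i]; ring
      rw [h6]
      ring
    have hle2 : ENNReal.ofReal c * volume (slabS w u sh)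
        ≤ ENNReal.ofReal ((2 * gam) ^ k) *
          ENNReal.ofReal (Real.exp (-((1 - s) * ∫ x, q x ∂(gk k)))) := by
      rw [← setLIntegral_const]
      exact (setLIntegral_mono' hms hpt).trans hle
    have hfin : ENNReal.ofReal ((2 * gam) ^ k) *
          ENNReal.ofReal (Real.exp (-((1 - s) * ∫ x, q x ∂(gk k)))) = ENNReal.ofReal c *
        ENNReal.ofReal (Real.exp (∑ i, α i * Real.log (2 * w i)
          - (1 - s) * ∫ x, q x ∂(gk k))) := by
      rw [← ENNReal.ofReal_mul hcpos.le, ← ENNReal.ofReal_mul (by have := gam_pos; positivity)]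
      congr 1
      have h1 : ∑ i, α i * (Real.log gam - Real.log (w i)) + ∑ i, α i * Real.log (2 * w i)
          = k * Real.log (2 * gam) := by
        rw [← Finset.sum_add_distrib, ← sum_alpha hu hiso, Finset.sum_mul]
        refine Finset.sum_congr rfl fun i _ => ?_
        rw [Real.log_mul (by norm_num) (hw i).ne', Real.log_mul (by norm_num) gam_pos.ne']
        ring
      have h2 : (2 * gam) ^ k = Real.exp (k * Real.log (2 * gam)) := by
        rw [← Real.log_pow, Real.exp_log (by have := gam_pos; positivity)]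
      rw [h2, hc, ← Real.exp_add, ← Real.exp_add, ← h1]
      congr 1
      ring
    rw [hfin] at hle2
    exact (ENNReal.mul_le_mul_iff_right (ENNReal.ofReal_pos.2 hcpos).ne'
      ENNReal.ofReal_ne_top).1 hle2
  -- s → 0
  have hlim : Filter.Tendsto (fun s : ℝ => ENNReal.ofReal (Real.exp
      (∑ i, α i * Real.log (2 * w i) - (1 - s) * ∫ x, q x ∂(gk k))))
      (nhdsWithin 0 (Set.Ioi 0)) (nhds (ENNReal.ofReal (Real.exp
      (∑ i, α i * Real.log (2 * w i) - (1 - 0) * ∫ x, q x ∂(gk k))))) := by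
    apply Filter.Tendsto.mono_left _ nhdsWithin_le_nhds
    have hc : Continuous fun s : ℝ => ENNReal.ofReal (Real.exp
      (∑ i, α i * Real.log (2 * w i) - (1 - s) * ∫ x, q x ∂(gk k))) := by
      apply ENNReal.continuous_ofReal.comp
      fun_prop
    exact hc.tendsto 0
  rw [sub_zero, one_mul] at hlim
  apply ge_of_tendsto hlim
  filter_upwards [Ioo_mem_nhdsGT (show (0 : ℝ) < 1 by norm_num)] with s hs
  exact hmain s hs.1 hs.2

/-- transport bound for integrable certificates that are bounded below -/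
theorem transport_boundS' {α w : ι → ℝ} {u : ι → Fin k → ℝ} {sh : ι → ℝ} (hα : ∀ i, 0 ≤ α i)
    (hw : ∀ i, 0 < w i) (hu : ∀ i, u i ⬝ᵥ u i = 1) (hiso : frameM α u = 1)
    {q : (Fin k → ℝ) → ℝ} (hq : Measurable q) (hqi : Integrable q (gk k)) {B : ℝ}
    (hB : ∀ x, -B ≤ q x)
    (H : ∀ (t : ι → ℝ) (z : Fin k → ℝ), q z ≤ detDef α w u t
      + (1 / 2) * ∑ i, α i * (t i - u i ⬝ᵥ z) ^ 2) :
    volume (slabS w u sh) ≤ ENNReal.ofReal (Real.exp (∑ i, α i * Real.log (2 * w i)
      - ∫ x, q x ∂(gk k))) := by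
  have h1 : ∀ N : ℕ, volume (slabS w u sh) ≤ ENNReal.ofReal (Real.exp
      (∑ i, α i * Real.log (2 * w i) - ∫ x, min (q x) N ∂(gk k))) := by
    intro N
    refine transport_boundS hα hw hu hiso (B := |B| + N) (hq.min measurable_const) ?_ ?_
    · intro x
      have hN : (0 : ℝ) ≤ N := Nat.cast_nonneg N
      rw [abs_le]
      constructor
      · rw [le_min_iff]
        constructor
        · have := hB x
          have := le_abs_self B
          linarith
        · have := abs_nonneg B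
          linarith
      · refine (min_le_right _ _).trans ?_
        have := abs_nonneg B
        linarith
    · intro t z
      exact (min_le_left _ _).trans (H t z)
  have h2 : Filter.Tendsto (fun N : ℕ => ∫ x, min (q x) N ∂(gk k)) Filter.atTop
      (nhds (∫ x, q x ∂(gk k))) := by
    apply tendsto_integral_of_dominated_convergence (fun x => |q x|)
    · intro N
      exact (hq.min measurable_const).aestronglyMeasurable
    · exact hqi.abs
    · intro N
      refine Filter.Eventually.of_forall fun x => ?_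
      rw [Real.norm_eq_abs]
      have hN : (0 : ℝ) ≤ N := Nat.cast_nonneg N
      rcases le_total (q x) N with h | h
      · rw [min_eq_left h]
      · rw [min_eq_right h, abs_of_nonneg hN]
        exact h.trans (le_abs_self _)
    · refine Filter.Eventually.of_forall fun x => ?_
      obtain ⟨M, hM⟩ := exists_nat_ge (q x)
      apply tendsto_const_nhds.congr'
      filter_upwards [Filter.eventually_ge_atTop M] with N hN
      rw [min_eq_left]
      exact hM.trans (by exact_mod_cast hN)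
  have h3 : Filter.Tendsto (fun N : ℕ => ENNReal.ofReal (Real.exp
      (∑ i, α i * Real.log (2 * w i) - ∫ x, min (q x) N ∂(gk k)))) Filter.atTop
      (nhds (ENNReal.ofReal (Real.exp
      (∑ i, α i * Real.log (2 * w i) - ∫ x, q x ∂(gk k))))) := by
    apply ENNReal.tendsto_ofReal
    exact (Real.continuous_exp.tendsto _).comp (tendsto_const_nhds.sub h2)
  exact ge_of_tendsto h3 (Filter.Eventually.of_forall h1)


end Pool.Agent.Work.MP_6cd513_gt
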